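import Pool.Agent.Lib_Inner.Vocab

/-!
# MP_bf47cd_lc: the vocabulary of the theorem

`(M, E)` is a structure for the language of set theory; all quantifiers range over `M`, so each
notion is the relativisation to `(M, E)` of the usual first-order definition.
-/

namespace Pool.Agent.KTM

open Pool.Agent.Inner

universe w

variable {M : Type w} (E : M → M → Prop)

/-- `x` is a transitive set -/
def IsTrans (x : M) : Prop := ∀ y, E y x → ∀ z, E z y → E z x

/-- `x` is an ordinal: a transitive set of transitive sets -/
def IsOrd (x : M) : Prop := IsTrans E x ∧ ∀ y, E y x → IsTrans E y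

/-- `i` is an injective function from `a` to `b` -/
def IsInj (i a b : M) : Prop :=
  IsFun E i a b ∧ ∀ x x' y, Val E i x y → Val E i x' y → x = x'

/-- `x` is a cardinal: an ordinal without injections into its elements -/
def IsCard (x : M) : Prop := IsOrd E x ∧ ∀ y, E y x → ∀ i, ¬ IsInj E i x y

/-- `k` is the cardinal successor of `l` -/
def IsSuccCard (l k : M) : Prop := IsCard E k ∧ E l k ∧ ∀ a, E a k → ∃ i, IsInj E i a l

/-- `s` is a function on `b`, and every subset of `a` is `s(x)` for some `x ∈ b` (so `a` has at
most `|b|` subsets) -/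
def OntoPow (s b a : M) : Prop :=
  (∀ x y y', Val E s x y → Val E s x y' → y = y') ∧ ∀ z, Sub E z a → ∃ x, E x b ∧ Val E s x z

/-- `g` is the restriction of the function `f` to `a` -/
def IsRes (g f a : M) : Prop := ∀ z, E z g ↔ E z f ∧ ∃ x y, E x a ∧ IsPair E z x y

/-- `T` is a tree in `^{<k}k`: a set of functions from elements of `k` to `k`, closed under
restrictions -/
def IsTree (k T : M) : Prop :=
  (∀ s, E s T → ∃ a, E a k ∧ IsFun E s a k) ∧
    ∀ s a b t, E s T → IsFun E s a k → E b a → IsRes E t s b → E t T

/-- `x` is a branch of `T`, an element of `[T]`: a function from `k` to `k` all of whose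
restrictions to elements of `k` belong to `T` -/
def IsBranch (k T x : M) : Prop :=
  IsFun E x k k ∧ ∀ a s, E a k → IsRes E s x a → E s T

/-- `L` is the level `a` of the tree `T`: the set of the elements of `T` with domain `a` -/
def IsLevel (k T a L : M) : Prop := ∀ s, E s L ↔ E s T ∧ IsFun E s a k

/-- `T ⊆ ^{<k}k` is a Kurepa tree: a tree with nonempty levels of cardinality at most `l` and a
set of branches of cardinality at least `m`. For `l = ω₁`, `k = ω₂`, `m = ω₃`: an `ω₂`-Kurepa
tree. -/
def IsKurepa (l k m T : M) : Prop :=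
  IsTree E k T ∧
  (∀ a L, E a k → IsLevel E k T a L → (∃ s, E s L) ∧ ∃ i, IsInj E i L l) ∧
  ∃ B i, (∀ x, E x B ↔ IsBranch E k T x) ∧ IsInj E i m B

/-- the functions `x` and `x'` agree on `b` -/
def Agree (b x x' : M) : Prop := ∀ c, E c b → ∀ v, Val E x c v ↔ Val E x' c v

/-- `F` is a continuous function from `^k k` onto `[T]`, for the bounded topologies: the values of
`F(x)` on `a` are determined by the values of `x` on some `b ∈ k` -/
def IsContOnto (k T F : M) : Prop :=
  (∀ z, E z F → ∃ x y, IsPair E z x y) ∧
  (∀ x, IsFun E x k k → ∃! y, Val E F x y) ∧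
  (∀ x y, Val E F x y → IsFun E x k k ∧ IsBranch E k T y) ∧
  (∀ y, IsBranch E k T y → ∃ x, Val E F x y) ∧
  ∀ x y a, Val E F x y → E a k → ∃ b, E b k ∧ ∀ x' y', Val E F x' y' → Agree E b x x' →
    Agree E a y y'

end Pool.Agent.KTM
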