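import Pool.Agent.Lib_MP_bf47cd.C01
import Pool.Agent.Lib_MP_bf47cd.Voc
import Pool.Agent.Lib_Inner.VocabFO

/-!
# H17-C02: definability of the vocabulary; full generic models
-/

set_option linter.unusedSectionVars false
set_option linter.unusedVariables false

namespace Pool.Agent.KTM

universe u w

open Pool.Agent.Forcing Pool.Agent.Forcing.Name Pool.Agent.Inner Set Cardinal

namespace FOx

lemma isTrans (i : ℕ) : FO.{w} (fun _ E v => IsTrans E (v i)) :=
  FO.all (FO.imp (FO.mem _ _) (FO.all (FO.imp (FO.mem _ _) (FO.mem _ _))))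

lemma isOrd (i : ℕ) : FO.{w} (fun _ E v => IsOrd E (v i)) :=
  FO.and (isTrans _) (FO.all (FO.imp (FO.mem _ _) (isTrans _)))

lemma isInj (i j k : ℕ) : FO.{w} (fun _ E v => IsInj E (v i) (v j) (v k)) :=
  FO.and (FO.isFun _ _ _) (FO.all (FO.all (FO.all (FO.imp (FO.val _ _ _)
    (FO.imp (FO.val _ _ _) (FO.eq _ _))))))

lemma isCard (i : ℕ) : FO.{w} (fun _ E v => IsCard E (v i)) :=
  FO.and (isOrd _) (FO.all (FO.imp (FO.mem _ _) (FO.all (FO.not (isInj _ _ _)))))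

lemma isSuccCard (i j : ℕ) : FO.{w} (fun _ E v => IsSuccCard E (v i) (v j)) :=
  FO.and (isCard _) (FO.and (FO.mem _ _) (FO.all (FO.imp (FO.mem _ _) (FO.ex (isInj _ _ _)))))

lemma ontoPow (i j k : ℕ) : FO.{w} (fun _ E v => OntoPow E (v i) (v j) (v k)) :=
  FO.and (FO.all (FO.all (FO.all (FO.imp (FO.val _ _ _) (FO.imp (FO.val _ _ _) (FO.eq _ _))))))
    (FO.all (FO.imp (FO.sub _ _) (FO.ex (FO.and (FO.mem _ _) (FO.val _ _ _)))))

lemma isRes (i j k : ℕ) : FO.{w} (fun _ E v => IsRes E (v i) (v j) (v k)) :=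
  FO.all (FO.iff (FO.mem _ _) (FO.and (FO.mem _ _) (FO.ex (FO.ex (FO.and (FO.mem _ _)
    (FO.isPair _ _ _))))))

lemma isTree (i j : ℕ) : FO.{w} (fun _ E v => IsTree E (v i) (v j)) :=
  FO.and (FO.all (FO.imp (FO.mem _ _) (FO.ex (FO.and (FO.mem _ _) (FO.isFun _ _ _)))))
    (FO.all (FO.all (FO.all (FO.all (FO.imp (FO.mem _ _) (FO.imp (FO.isFun _ _ _)
      (FO.imp (FO.mem _ _) (FO.imp (isRes _ _ _) (FO.mem _ _)))))))))

lemma isBranch (i j k : ℕ) : FO.{w} (fun _ E v => IsBranch E (v i) (v j) (v k)) :=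
  FO.and (FO.isFun _ _ _) (FO.all (FO.all (FO.imp (FO.mem _ _) (FO.imp (isRes _ _ _)
    (FO.mem _ _)))))

lemma isLevel (i j k l : ℕ) : FO.{w} (fun _ E v => IsLevel E (v i) (v j) (v k) (v l)) :=
  FO.all (FO.iff (FO.mem _ _) (FO.and (FO.mem _ _) (FO.isFun _ _ _)))

lemma isKurepa (i j k l : ℕ) : FO.{w} (fun _ E v => IsKurepa E (v i) (v j) (v k) (v l)) :=
  FO.and (isTree _ _) (FO.and (FO.all (FO.all (FO.imp (FO.mem _ _) (FO.imp (isLevel _ _ _ _)
    (FO.and (FO.ex (FO.mem _ _)) (FO.ex (isInj _ _ _)))))))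
    (FO.ex (FO.ex (FO.and (FO.all (FO.iff (FO.mem _ _) (isBranch _ _ _))) (isInj _ _ _)))))

lemma agree (i j k : ℕ) : FO.{w} (fun _ E v => Agree E (v i) (v j) (v k)) :=
  FO.all (FO.imp (FO.mem _ _) (FO.all (FO.iff (FO.val _ _ _) (FO.val _ _ _))))

lemma isContOnto (i j k : ℕ) : FO.{w} (fun _ E v => IsContOnto E (v i) (v j) (v k)) :=
  FO.and (FO.all (FO.imp (FO.mem _ _) (FO.ex (FO.ex (FO.isPair _ _ _)))))
    (FO.and (FO.all (FO.imp (FO.isFun _ _ _) (FO.exu (FO.val _ _ _) (FO.val _ _ _))))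
    (FO.and (FO.all (FO.all (FO.imp (FO.val _ _ _) (FO.and (FO.isFun _ _ _) (isBranch _ _ _)))))
    (FO.and (FO.all (FO.imp (isBranch _ _ _) (FO.ex (FO.val _ _ _))))
    (FO.all (FO.all (FO.all (FO.imp (FO.val _ _ _) (FO.imp (FO.mem _ _) (FO.ex (FO.and (FO.mem _ _)
      (FO.all (FO.all (FO.imp (FO.val _ _ _) (FO.imp (agree _ _ _) (agree _ _ _)))))))))))))))

end FOx

lemma feq_ev {P : Type u} [Preorder P] [OrderTop P] {l l' : List (Name P)}
    {p : P} (h : List.Forall₂ (fun x y => feq x y p) l l') (i : ℕ) :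
    feq (ev omegaName l i) (ev omegaName l' i) p := by
  induction h generalizing i with
  | nil => exact feq_refl _ _
  | cons h1 _ ih =>
    cases i with
    | zero => exact h1
    | succ i => exact ih i

/-- replacing names in a list -/
lemma frc_congr_list {P : Type u} [Preorder P] [OrderTop P] {R : Fam.{u+1}}
    {l l' : List (Name P)} {p : P} (h : List.Forall₂ (fun x y => feq x y p) l l')
    (hf : Frc R (ev omegaName l) p) : Frc R (ev omegaName l') p := by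
  exact Frc.congr_names (feq_ev h) hf

lemma isFun_mem {M : Type*} {E : M → M → Prop} (hE : ModelsZFC E) {f a b x y : M}
    (hf : IsFun E f a b) (h : Val E f x y) : E x a ∧ E y b := by
  obtain ⟨z, hz1, hz2⟩ := h
  obtain ⟨x', y', hx', hy', hp⟩ := hf.1 z hz2
  rw [isPair_iff hE] at hz1 hp
  rw [hz1, pair_inj hE] at hp
  rw [hp.1, hp.2]; exact ⟨hx', hy'⟩

section
variable {T W : Type u} [Preorder T] [OrderTop T] [LinearOrder W] [WellFoundedLT W]

variable (W) in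
/-- rich generic models that decide, for each of their names, whether it names an element of
`W` -/
structure Full (𝔊 : Gen T) : Prop where
  rich : Rich 𝔊
  decC : DecC W 𝔊

variable (W) in
theorem exists_full (S : Set (Name T)) (hS' : S.Countable) (p : T) :
    ∃ 𝔊 : Gen T, Full W 𝔊 ∧ 𝔊.G 0 = p ∧ S ⊆ 𝔊.N := by
  obtain ⟨𝔊, h1, h2, h3, _, h5⟩ := exists_rich (ι := Empty) (κ := Unit) S hS' (fun k => k.elim)
    (fun _ l => {q : T | (∃ a : W, feq (l.getD 0 omegaName) (check a) q) ∨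
      ∀ a : W, ∀ r ≤ q, ¬ feq (l.getD 0 omegaName) (check a) r}) (by
      intro _ l p
      by_cases h : ∃ a : W, ∃ r ≤ p, feq (l.getD 0 omegaName) (check a) r
      · obtain ⟨a, r, hr, h⟩ := h
        exact ⟨r, hr, Or.inl ⟨a, h⟩⟩
      · push Not at h
        exact ⟨p, le_rfl, Or.inr h⟩) p
  refine ⟨𝔊, ⟨h1, fun z hz => ?_⟩, h2, h3⟩
  exact h5 () [z] (by simpa using hz)

variable (W) in
/-- to force a first-order property it is enough that it holds in all full generic models -/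
theorem frc_full {R : Fam.{u+1}} (hR : FO R) (l : List (Name T)) (p : T)
    (S : Set (Name T)) (hS' : S.Countable)
    (h : ∀ (𝔊 : Gen T) (hF : Full W 𝔊), 𝔊.G 0 ≤ p → S ⊆ 𝔊.N →
      ∀ (hl : ∀ x ∈ l, x ∈ 𝔊.N),
        R 𝔊.M 𝔊.E (ev hF.rich.om (l.attach.map fun x => 𝔊.cls ⟨x.1, hl x.1 x.2⟩))) :
    Frc R (ev omegaName l) p := by
  refine Frc.dense hR fun q hq => ?_
  obtain ⟨𝔊, hF, h0, hSN⟩ := exists_full W (S ∪ {x | x ∈ l})
    (hS'.union (List.finite_toSet l).countable) q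
  have hl : ∀ x ∈ l, x ∈ 𝔊.N := fun x hx => hSN (Or.inr hx)
  have h5 := h 𝔊 hF (by rw [h0]; exact hq) (fun x hx => hSN (Or.inl hx)) hl
  let l' : List 𝔊.N := l.attach.map fun x => ⟨x.1, hl x.1 x.2⟩
  have e4 : (l.attach.map fun x => 𝔊.cls ⟨x.1, hl x.1 x.2⟩) = l'.map 𝔊.cls := by
    simp only [l', List.map_map]; rfl
  have e5 : l'.map Subtype.val = l := by
    simp only [l', List.map_map]
    exact List.attach_map_subtype_val l
  rw [e4] at h5
  have h6 := (truth_list hR 𝔊 l' ⟨omegaName, hF.rich.omega_mem⟩).1 h5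
  obtain ⟨n, hn⟩ := h6
  rw [e5] at hn
  exact ⟨𝔊.G n, by rw [← h0]; exact 𝔊.anti (Nat.zero_le n), hn⟩

/-- truth in a full generic model, from density: if every condition below `G n` has an extension
that forces `R`, then `R` holds -/
theorem true_of_dense {R : Fam.{u+1}} (hR : FO R) (𝔊 : Gen T) (hF : Full W 𝔊)
    (l : List 𝔊.N) (n : ℕ)
    (h : ∀ q ≤ 𝔊.G n, ∃ r ≤ q, Frc R (ev omegaName (l.map Subtype.val)) r) :
    R 𝔊.M 𝔊.E (ev hF.rich.om (l.map 𝔊.cls)) := by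
  have h1 : Frc R (ev omegaName (l.map Subtype.val)) (𝔊.G n) := Frc.dense hR h
  exact Frc.true_list hR 𝔊 l ⟨omegaName, hF.rich.omega_mem⟩ h1

end

end Pool.Agent.KTM
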