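import Pool.Agent.Lib_MP_bf47cd.Voc
import Pool.Agent.Lib_Inner.Basic
import Pool.Agent.Lib_MP_bf47cd.C02

/-!
# H17-C03z: elementary set theory in a model of ZFC
-/

set_option linter.unusedSectionVars false
set_option linter.unusedVariables false

namespace Pool.Agent.KTM

universe u

open Pool.Agent.Forcing Pool.Agent.Forcing.Name Pool.Agent.Inner Set Cardinal

variable {M : Type u} {E : M → M → Prop} (hE : ModelsZFC E)
include hE

/-- the restriction of a function exists and is a function -/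
theorem exists_res {f a b k : M} (hf : IsFun E f b k) (hab : Sub E a b) :
    ∃ g, IsRes E g f a ∧ IsFun E g a k ∧ ∀ u v, Val E g u v ↔ E u a ∧ Val E f u v := by
  obtain ⟨g, hg⟩ := sep hE (R := fun M E v => ∃ x y, E x (v 1) ∧ IsPair E (v 0) x y)
    (FO.ex (FO.ex (FO.and (FO.mem _ _) (FO.isPair _ _ _)))) (cons a (fun _ => a)) f
  have hg' : ∀ z, E z g ↔ E z f ∧ ∃ x y, E x a ∧ IsPair E z x y := hg
  have hval : ∀ u v, Val E g u v ↔ E u a ∧ Val E f u v := by
    intro u v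
    rw [val_iff hE, val_iff hE, hg']
    constructor
    · rintro ⟨h1, x, y, h2, h3⟩
      rw [isPair_iff hE, pair_inj hE] at h3
      rw [h3.1]
      exact ⟨h2, by rw [← h3.1]; exact h1⟩
    · rintro ⟨h1, h2⟩
      exact ⟨h2, u, v, h1, (isPair_iff hE).2 rfl⟩
  refine ⟨g, hg', ⟨?_, ?_⟩, hval⟩
  · intro z hz
    obtain ⟨h1, x, y, h2, h3⟩ := (hg' z).1 hz
    obtain ⟨x', y', h4, h5, h6⟩ := hf.1 z h1
    refine ⟨x, y, h2, ?_, h3⟩
    rw [isPair_iff hE] at h3 h6
    rw [h3, pair_inj hE] at h6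
    rw [h6.2]
    exact h5
  · intro x hx
    obtain ⟨y, hy, hu⟩ := hf.2 x (hab x hx)
    exact ⟨y, (hval x y).2 ⟨hx, hy⟩, fun y' hy' => hu y' ((hval x y').1 hy').2⟩

theorem isRes_uniq {g g' f a : M} (h : IsRes E g f a) (h' : IsRes E g' f a) : g = g' :=
  Pool.Agent.Inner.ext hE fun z => (h z).trans (h' z).symm

/-- functions with the same values are equal -/
theorem fun_ext {f f' a b a' b' : M} (h : IsFun E f a b) (h' : IsFun E f' a' b')
    (hv : ∀ u v, Val E f u v ↔ Val E f' u v) : f = f' := by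
  apply Pool.Agent.Inner.ext hE
  intro z
  constructor
  · intro hz
    obtain ⟨x, y, _, _, h1⟩ := h.1 z hz
    rw [isPair_iff hE] at h1
    have h2 := (hv x y).1 ((val_iff hE).2 (by rw [← h1]; exact hz))
    rw [val_iff hE, ← h1] at h2
    exact h2
  · intro hz
    obtain ⟨x, y, _, _, h1⟩ := h'.1 z hz
    rw [isPair_iff hE] at h1
    have h2 := (hv x y).2 ((val_iff hE).2 (by rw [← h1]; exact hz))
    rw [val_iff hE, ← h1] at h2
    exact h2

private theorem c03z_dom {f a b x y : M} (h : IsFun E f a b) (hv : Val E f x y) : E x a := by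
  rw [val_iff hE] at hv
  obtain ⟨x', y', h1, _, h2⟩ := h.1 _ hv
  rw [isPair_iff hE, pair_inj hE] at h2
  rw [h2.1]
  exact h1

private theorem c03z_cod {f a b x y : M} (h : IsFun E f a b) (hv : Val E f x y) : E y b := by
  rw [val_iff hE] at hv
  obtain ⟨x', y', _, h1, h2⟩ := h.1 _ hv
  rw [isPair_iff hE, pair_inj hE] at h2
  rw [h2.2]
  exact h1

/-- the domain of a function is unique -/
theorem dom_uniq {f a a' b b' : M} (h : IsFun E f a b) (h' : IsFun E f a' b') : a = a' := by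
  apply Pool.Agent.Inner.ext hE
  intro z
  constructor
  · intro hz
    obtain ⟨y, hy, _⟩ := h.2 z hz
    exact c03z_dom hE h' hy
  · intro hz
    obtain ⟨y, hy, _⟩ := h'.2 z hz
    exact c03z_dom hE h hy

theorem exists_level (k t a : M) : ∃ L, IsLevel E k t a L := by
  obtain ⟨L, hL⟩ := sep hE (R := fun M E v => IsFun E (v 0) (v 1) (v 2))
    (FO.isFun _ _ _) (cons a (cons k (fun _ => a))) t
  exact ⟨L, hL⟩

theorem exists_branch_set (k t : M) : ∃ B, ∀ x, E x B ↔ IsBranch E k t x := by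
  obtain ⟨c, hc⟩ := exists_prod hE k k
  obtain ⟨p, hp⟩ := hE.powerset c
  obtain ⟨B, hB⟩ := sep hE (R := fun M E v => IsBranch E (v 1) (v 2) (v 0))
    (FOx.isBranch _ _ _) (cons k (cons t (fun _ => t))) p
  have hB' : ∀ x, E x B ↔ E x p ∧ IsBranch E k t x := hB
  refine ⟨B, fun x => ?_⟩
  rw [hB', hp]
  constructor
  · exact fun h => h.2
  · intro h
    refine ⟨fun z hz => ?_, h⟩
    obtain ⟨u, v, h1, h2, h3⟩ := h.1.1 z hz
    exact (hc z).2 ⟨u, v, h1, h2, (isPair_iff hE).1 h3⟩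

/-- a nonempty set with an injection into `l` is the range of a function on `l` -/
theorem exists_surj_of_inj {i L l s0 : M} (hi : IsInj E i L l) (hs : E s0 L) :
    ∃ g, IsFun E g l L ∧ ∀ s, E s L → ∃ a, Val E g a s := by
  obtain ⟨c, hc⟩ := exists_prod hE l L
  obtain ⟨g, hg⟩ := sep hE (R := fun M E v => ∃ a s, IsPair E (v 0) a s ∧
      (Val E (v 1) s a ∨ ((∀ s', ¬ Val E (v 1) s' a) ∧ s = v 2)))
    (FO.ex (FO.ex (FO.and (FO.isPair _ _ _)
      (FO.or (FO.val _ _ _) (FO.and (FO.all (FO.not (FO.val _ _ _))) (FO.eq _ _))))))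
    (cons i (cons s0 (fun _ => i))) c
  have hg' : ∀ z, E z g ↔ E z c ∧ ∃ a s, IsPair E z a s ∧
      (Val E i s a ∨ ((∀ s', ¬ Val E i s' a) ∧ s = s0)) := hg
  have hval : ∀ a s, Val E g a s ↔ E a l ∧ E s L ∧
      (Val E i s a ∨ ((∀ s', ¬ Val E i s' a) ∧ s = s0)) := by
    intro a s
    rw [val_iff hE, hg', hc]
    constructor
    · rintro ⟨⟨a1, s1, h1, h2, h3⟩, a2, s2, h4, h5⟩
      rw [pair_inj hE] at h3
      rw [isPair_iff hE, pair_inj hE] at h4
      rw [← h3.1] at h1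
      rw [← h3.2] at h2
      rw [← h4.1, ← h4.2] at h5
      exact ⟨h1, h2, h5⟩
    · rintro ⟨h1, h2, h3⟩
      exact ⟨⟨a, s, h1, h2, rfl⟩, a, s, (isPair_iff hE).2 rfl, h3⟩
  refine ⟨g, ⟨?_, ?_⟩, ?_⟩
  · intro z hz
    obtain ⟨h1, _⟩ := (hg' z).1 hz
    obtain ⟨a, s, h2, h3, h4⟩ := (hc z).1 h1
    exact ⟨a, s, h2, h3, (isPair_iff hE).2 h4⟩
  · intro a ha
    by_cases h : ∃ s, Val E i s a
    · obtain ⟨s, hsa⟩ := h
      refine ⟨s, (hval a s).2 ⟨ha, c03z_dom hE hi.1 hsa, Or.inl hsa⟩, ?_⟩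
      intro s' hs'
      obtain ⟨_, _, h1 | h1⟩ := (hval a s').1 hs'
      · exact hi.2 s' s a h1 hsa
      · exact absurd hsa (h1.1 s)
    · push Not at h
      refine ⟨s0, (hval a s0).2 ⟨ha, hs, Or.inr ⟨h, rfl⟩⟩, ?_⟩
      intro s' hs'
      obtain ⟨_, _, h1 | h1⟩ := (hval a s').1 hs'
      · exact absurd h1 (h s')
      · exact h1.2
  · intro s hsL
    obtain ⟨a, ha, _⟩ := hi.1.2 s hsL
    exact ⟨a, (hval a s).2 ⟨c03z_cod hE hi.1 ha, hsL, Or.inl ha⟩⟩

end Pool.Agent.KTM
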