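import Pool.Agent.Lib_MP_bf47cd.CDefs

/-!
# H17-D02: more on functions valued in the forcing
-/

set_option linter.unusedSectionVars false
set_option linter.unusedVariables false

namespace Pool.Agent.KTM

universe u

open Set Cardinal Pool.Agent.KT

section
variable {P Q A B A' : Type u} [Preorder P] [Preorder Q]

/-- `g` is forced to be surjective -/
def DSurj (g : PF P A B) : Prop := ∀ b q, ∃ q' ≤ q, ∃ a, g.val a b q'

/-- the name of a function -/
def PF.ofFun (P : Type u) [Preorder P] (f : A → B) : PF P A B where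
  val a b _ := f a = b
  mono _ _ _ _ _ h := h
  dense a b p h := by obtain ⟨r, _, hr⟩ := h p le_rfl; exact hr
  uniq a b b' p h h' := h.symm.trans h'
  total a p := ⟨p, le_rfl, f a, rfl⟩

/-- change of arguments -/
def PF.pre (X : PF P A B) (f : A' → A) : PF P A' B where
  val a b p := X.val (f a) b p
  mono a b p q h h1 := X.mono _ _ _ _ h h1
  dense a b p h := X.dense _ _ _ h
  uniq a b b' p h h' := X.uniq _ _ _ _ h h'
  total a p := X.total _ _

/-- lifting to a product -/
def PF.lift (P : Type u) [Preorder P] (X : PF Q A B) : PF (Q × P) A B where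
  val a b p := X.val a b p.1
  mono a b p q h h1 := X.mono _ _ _ _ h.1 h1
  dense a b p h := X.dense _ _ _ fun h' hh => by
    obtain ⟨r, hr, h1⟩ := h (h', p.2) ⟨hh, le_rfl⟩
    exact ⟨r.1, hr.1, h1⟩
  uniq a b b' p h h' := X.uniq _ _ _ _ h h'
  total a p := by
    obtain ⟨h', hh, b, hb⟩ := X.total a p.1
    exact ⟨(h', p.2), ⟨hh, le_rfl⟩, b, hb⟩

theorem PF.ext {X X' : PF P A B} (h : ∀ a b p, X.val a b p ↔ X'.val a b p) : X = X' := by
  cases X; cases X'
  congr
  funext a b p
  exact propext (h a b p)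

theorem DSurj.lift {g : PF Q A B} (h : DSurj g) : DSurj (PF.lift P g) := by
  intro b q
  obtain ⟨h', hh, a, ha⟩ := h b q.1
  exact ⟨(h', q.2), ⟨hh, le_rfl⟩, a, ha⟩

theorem injP_ofFun {f : A → B} (hf : Function.Injective f) (q : P) :
    InjP (PF.ofFun P f) q := by
  intro a a' b r _ h h'
  exact hf (h.trans h'.symm)

theorem InjP.pre {J : PF P A B} {q : P} (h : InjP J q) {f : A' → A}
    (hf : Function.Injective f) : InjP (PF.pre J f) q := by
  intro a a' b r hr h1 h2
  exact hf (h _ _ b r hr h1 h2)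

theorem injP_lift {J : PF Q A B} (h : ∀ q, InjP J q) (q : Q × P) : InjP (PF.lift P J) q := by
  intro a a' b r hr h1 h2
  exact h r.1 a a' b r.1 le_rfl h1 h2

/-- the inverse of a surjection from a well-order: `v b a q := g.val a b q` and no `r ≤ q` gives
`g` the value `b` at an `a' < a`; `PF.exists_ofDense` -/
theorem exists_inverse [LinearOrder A] [WellFoundedLT A] {g : PF P A B} (hg : DSurj g) :
    ∃ J : PF P B A, ∀ q, InjP J q := by
  obtain ⟨J, hJ, _⟩ := PF.exists_ofDense
    (fun (b : B) (a : A) (q : P) => g.val a b q ∧ ∀ a' < a, ∀ r ≤ q, ¬ g.val a' b r)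
    (fun b a p q hq h => ⟨g.mono a b p q hq h.1, fun a' ha' r hr => h.2 a' ha' r (hr.trans hq)⟩)
    (by
      rintro b a a' p ⟨h1, h2⟩ ⟨h3, h4⟩
      rcases lt_trichotomy a a' with h | h | h
      · exact absurd h1 (h4 a h p le_rfl)
      · exact h
      · exact absurd h3 (h2 a' h p le_rfl))
    (by
      intro b q
      have hne : {a : A | ∃ r ≤ q, g.val a b r}.Nonempty := by
        obtain ⟨q', hq', a, ha⟩ := hg b q
        exact ⟨a, q', hq', ha⟩
      obtain ⟨r, hr, hm⟩ := wellFounded_lt.min_mem _ hne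
      refine ⟨r, hr, wellFounded_lt.min _ hne, hm, fun a' ha' s hs h => ?_⟩
      exact wellFounded_lt.not_lt_min _ (show a' ∈ {a : A | ∃ r ≤ q, g.val a b r} from
        ⟨s, hs.trans hr, h⟩) ha')
  refine ⟨J, fun q b b' a r _ h h' => ?_⟩
  obtain ⟨s, hs, h1, _⟩ := (hJ b a r).1 h r le_rfl
  obtain ⟨t, ht, h2, _⟩ := (hJ b' a r).1 h' s hs
  exact g.uniq a b b' t (g.mono a b s t ht h1) h2

end

end Pool.Agent.KTM
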