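import Pool.Agent.Lib_MP_bf47cd.VDefs
import Pool.Agent.Lib_MP_bf47cd.D02
import Pool.Agent.Lib_MP_bf47cd.C03z

/-!
# H17-V03: small names and the universe they form

`T` is a forcing in `Type (v+1)`; a small name has its index types in `Type v`.
-/

set_option linter.unusedSectionVars false
set_option linter.unusedVariables false

namespace Pool.Agent.KTM

universe u v w

open Pool.Agent.Forcing Pool.Agent.Forcing.Name Pool.Agent.Inner Set Cardinal Pool.Agent.KT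

/-- small names -/
inductive SN (T : Type (v+1)) : Type (v+1)
  | mk (A : Type v) (x : A → SN T) (p : A → T) : SN T

/-- the name given by a small name -/
def SN.toName {T : Type (v+1)} : SN T → Name T
  | .mk A x p => Name.mk (ULift.{v+1} A) (fun a => (x a.down).toName) (fun a => p a.down)

/-- the name of the set of all sets with small names -/
def univN (T : Type (v+1)) [Preorder T] [OrderTop T] : Name T :=
  Name.mk (SN T) SN.toName (fun _ => ⊤)

/-- functions on small sets are decided, below some `q'`, by a small pool of conditions -/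
def SmallPool (T : Type (v+1)) [Preorder T] : Prop :=
  ∀ A : Type v, ∃ (R : Type v) (t : R → T), ∀ (B : Type (v+1)) (Φ : PF T (ULift.{v+1} A) B)
    (q : T), ∃ q' ≤ q, ∀ a, ∀ r ≤ q', ∃ r' ≤ r, ∃ i : R, r' ≤ t i ∧ ∃ b, ∀ s ≤ t i, s ≤ q' →
      Φ.val a b s

lemma FOx.isUniv (i : ℕ) : FO.{w} (fun _ E v => IsUniv E (v i)) := by
  refine FO.congr (R := fun M E v => (∀ x, E x (v i) → ∀ y, E y x → E y (v i)) ∧
    (∃ w, E w (v i) ∧ IsOmega E w) ∧
    (∀ x y, E x (v i) → E y (v i) → ∃ z, E z (v i) ∧ E x z ∧ E y z) ∧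
    (∀ x, E x (v i) → ∃ u, E u (v i) ∧ ∀ y z, E y x → E z y → E z u) ∧
    (∀ x, E x (v i) → ∃ p, E p (v i) ∧ ∀ y, Sub E y x → E y p) ∧
    (∀ x f, E x (v i) → IsFun E f x (v i) → ∃ r, E r (v i) ∧ ∀ a b, Val E f a b → E b r)) ?_ ?_
  · exact FO.and (FO.all (FO.imp (FO.mem _ _) (FO.all (FO.imp (FO.mem _ _) (FO.mem _ _)))))
      (FO.and (FO.ex (FO.and (FO.mem _ _) (FO.isOmega _)))
      (FO.and (FO.all (FO.all (FO.imp (FO.mem _ _) (FO.imp (FO.mem _ _)
        (FO.ex (FO.and (FO.mem _ _) (FO.and (FO.mem _ _) (FO.mem _ _))))))))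
      (FO.and (FO.all (FO.imp (FO.mem _ _) (FO.ex (FO.and (FO.mem _ _)
        (FO.all (FO.all (FO.imp (FO.mem _ _) (FO.imp (FO.mem _ _) (FO.mem _ _)))))))))
      (FO.and (FO.all (FO.imp (FO.mem _ _) (FO.ex (FO.and (FO.mem _ _)
        (FO.all (FO.imp (FO.sub _ _) (FO.mem _ _)))))))
      (FO.all (FO.all (FO.imp (FO.mem _ _) (FO.imp (FO.isFun _ _ _) (FO.ex (FO.and (FO.mem _ _)
        (FO.all (FO.all (FO.imp (FO.val _ _ _) (FO.mem _ _))))))))))))))
  · intro M E v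
    constructor
    · rintro ⟨h1, h2, h3, h4, h5, h6⟩
      exact ⟨h1, h2, h3, h4, h5, h6⟩
    · rintro ⟨h1, h2, h3, h4, h5, h6⟩
      exact ⟨h1, h2, h3, h4, h5, h6⟩

variable {T : Type (v+1)} [Preorder T] [OrderTop T]

/-- elements of the universe (`E_iff` for names in `𝔊.N`) -/
theorem E_univN {𝔊 : Gen T} (hR : Rich 𝔊) (h : univN T ∈ 𝔊.N) {x : 𝔊.M} :
    𝔊.E x (𝔊.cls ⟨univN T, h⟩) ↔ ∃ z : SN T, Rep 𝔊 x z.toName := by
  rw [E_iff hR h]
  constructor
  · rintro ⟨j, n, _, h2⟩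
    exact ⟨j, h2⟩
  · rintro ⟨z, hz⟩
    exact ⟨z, 0, le_top, hz⟩

theorem fmem_univN {x : Name T} {p : T} :
    fmem x (univN T) p ↔ ∀ q ≤ p, ∃ r ≤ q, ∃ z : SN T, feq x z.toName r :=
  fmem_mk_top

/-- the universe is transitive, for names -/
private lemma v03_trans {x y : Name T} {p : T} (hx : fmem x (univN T) p) (hy : fmem y x p) :
    fmem y (univN T) p := by
  rw [fmem_univN] at hx ⊢
  intro q hq
  obtain ⟨r, hr, z, hz⟩ := hx q hq
  have h1 : fmem y z.toName r := fmem_congr_right hz (fmem_mono hy (hr.trans hq))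
  obtain ⟨A, x', p'⟩ := z
  obtain ⟨s, hs, j, _, h2⟩ := h1 r le_rfl
  exact ⟨s, hs.trans hr, x' j.down, h2⟩

theorem frc_trans (q : T) : Frc (fun _ E v => ∀ x, E x (v 0) → ∀ y, E y x → E y (v 0))
    (ev omegaName [univN T]) q := by
  have hfo : FO.{v+2} (fun _ E v => ∀ x, E x (v 0) → ∀ y, E y x → E y (v 0)) :=
    FO.all (FO.imp (FO.mem _ _) (FO.all (FO.imp (FO.mem _ _) (FO.mem _ _))))
  refine frc_of_list hfo [univN T] omegaName q ∅ (by simp)
    (κ := Empty) (fun k => k.elim) (fun k => k.elim) ?_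
  intro 𝔊 hR h0 _ _ hl hd
  have hU : univN T ∈ 𝔊.N := hl _ (by simp)
  change ∀ x, 𝔊.E x (𝔊.cls ⟨univN T, hU⟩) → ∀ y, 𝔊.E y x → 𝔊.E y (𝔊.cls ⟨univN T, hU⟩)
  intro x hx y hy
  obtain ⟨x', rfl⟩ := 𝔊.exists_rep x
  obtain ⟨y', rfl⟩ := 𝔊.exists_rep y
  obtain ⟨n, hn⟩ := hx
  obtain ⟨m, hm⟩ := hy
  exact ⟨max n m, v03_trans (fmem_mono hn (𝔊.anti (le_max_left _ _)))
    (fmem_mono hm (𝔊.anti (le_max_right _ _)))⟩

/-- small names of the natural numbers -/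
private def v03_num (T : Type (v+1)) [Preorder T] [OrderTop T] : ℕ → SN T
  | 0 => .mk PEmpty (fun a => a.elim) (fun a => a.elim)
  | n+1 => match v03_num T n with
    | .mk A x p => .mk (Option A) (fun o => o.elim (.mk A x p) x) (fun o => o.elim ⊤ p)

private lemma v03_num_feq (n : ℕ) (p : T) : feq (v03_num T n).toName (num n) p := by
  induction n generalizing p with
  | zero =>
    refine feq_of_forall ?_ ?_
    · intro z q _ h
      obtain ⟨r, _, j, _⟩ := h q le_rfl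
      exact j.down.elim
    · intro z q _ h
      exact absurd h not_fmem_emptyName
  | succ n ih =>
    have key : ∀ (z : Name T) (q : T), fmem z (v03_num T (n+1)).toName q ↔
        ∀ q' ≤ q, ∃ r ≤ q', fmem z (v03_num T n).toName r ∨ feq z (v03_num T n).toName r := by
      intro z q
      have e : v03_num T (n+1) = match v03_num T n with
        | .mk A x p => .mk (Option A) (fun o => o.elim (.mk A x p) x) (fun o => o.elim ⊤ p) := rfl
      rw [e]
      generalize v03_num T n = w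
      obtain ⟨A, x, c⟩ := w
      constructor
      · intro h q' hq'
        obtain ⟨r, hr, ⟨j⟩, h1, h2⟩ := h q' hq'
        cases j with
        | none => exact ⟨r, hr, Or.inr h2⟩
        | some j =>
          refine ⟨r, hr, Or.inl ?_⟩
          intro s hs
          exact ⟨s, le_rfl, ⟨j⟩, hs.trans h1, feq_mono h2 hs⟩
      · intro h q' hq'
        obtain ⟨r, hr, h1 | h1⟩ := h q' hq'
        · obtain ⟨s, hs, ⟨j⟩, h2, h3⟩ := h1 r le_rfl
          exact ⟨s, hs.trans hr, ⟨some j⟩, h2, h3⟩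
        · exact ⟨r, hr, ⟨none⟩, le_top, h1⟩
    refine feq_of_forall ?_ ?_
    · intro z q hq h
      rw [key] at h
      rw [fmem_num_succ]
      intro q' hq'
      obtain ⟨r, hr, h1 | h1⟩ := h q' hq'
      · exact ⟨r, hr, Or.inl (fmem_congr_right (ih r) h1)⟩
      · exact ⟨r, hr, Or.inr (feq_trans h1 (ih r))⟩
    · intro z q hq h
      rw [fmem_num_succ] at h
      rw [key]
      intro q' hq'
      obtain ⟨r, hr, h1 | h1⟩ := h q' hq'
      · exact ⟨r, hr, Or.inl (fmem_congr_right (feq_symm (ih r)) h1)⟩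
      · exact ⟨r, hr, Or.inr (feq_trans h1 (feq_symm (ih r)))⟩

/-- the small name of the set of natural numbers -/
private def v03_om (T : Type (v+1)) [Preorder T] [OrderTop T] : SN T :=
  .mk (ULift.{v} ℕ) (fun n => v03_num T n.down) (fun _ => ⊤)

private lemma v03_om_feq (p : T) : feq (v03_om T).toName omegaName p := by
  refine feq_of_forall ?_ ?_
  · intro z q _ h
    rw [fmem_omegaName]
    intro q' hq'
    obtain ⟨r, hr, ⟨⟨n⟩⟩, _, h2⟩ := h q' hq'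
    exact ⟨r, hr, n, feq_trans h2 (v03_num_feq n r)⟩
  · intro z q _ h
    rw [fmem_omegaName] at h
    intro q' hq'
    obtain ⟨r, hr, n, h2⟩ := h q' hq'
    exact ⟨r, hr, ⟨⟨n⟩⟩, le_top, feq_trans h2 (feq_symm (v03_num_feq n r))⟩

theorem frc_omega (q : T) : Frc (fun _ E v => ∃ w, E w (v 0) ∧ IsOmega E w)
    (ev omegaName [univN T]) q := by
  have hfo : FO.{v+2} (fun _ E v => ∃ w, E w (v 0) ∧ IsOmega E w) :=
    FO.ex (FO.and (FO.mem _ _) (FO.isOmega _))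
  refine frc_of_list hfo [univN T] omegaName q ∅ (by simp)
    (κ := Empty) (fun k => k.elim) (fun k => k.elim) ?_
  intro 𝔊 hR h0 _ _ hl hd
  have hU : univN T ∈ 𝔊.N := hl _ (by simp)
  change ∃ w, 𝔊.E w (𝔊.cls ⟨univN T, hU⟩) ∧ IsOmega 𝔊.E w
  refine ⟨hR.om, (E_univN hR hU).2 ⟨v03_om T, ?_⟩, hR.isOmega_om⟩
  exact rep_cls_iff.2 ⟨0, feq_symm (v03_om_feq _)⟩

/-- the small name of a pair -/
private def v03_pair (a b : SN T) : SN T :=
  .mk (ULift.{v} Bool) (fun i => cond i.down a b) (fun _ => ⊤)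

private lemma v03_pair_feq {a b : SN T} {x y : Name T} {p : T} (ha : feq x a.toName p)
    (hb : feq y b.toName p) : feq (pairName x y) (v03_pair a b).toName p := by
  refine feq_of_forall ?_ ?_
  · intro z q hq h
    rw [fmem_pairName] at h
    intro q' hq'
    obtain ⟨r, hr, h1 | h1⟩ := h q' hq'
    · exact ⟨r, hr, ⟨⟨true⟩⟩, le_top, feq_trans h1 (feq_mono ha (hr.trans (hq'.trans hq)))⟩
    · exact ⟨r, hr, ⟨⟨false⟩⟩, le_top, feq_trans h1 (feq_mono hb (hr.trans (hq'.trans hq)))⟩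
  · intro z q hq h
    rw [fmem_pairName]
    intro q' hq'
    obtain ⟨r, hr, ⟨⟨i⟩⟩, _, h2⟩ := h q' hq'
    cases i
    · exact ⟨r, hr, Or.inr (feq_trans h2 (feq_symm (feq_mono hb (hr.trans (hq'.trans hq)))))⟩
    · exact ⟨r, hr, Or.inl (feq_trans h2 (feq_symm (feq_mono ha (hr.trans (hq'.trans hq)))))⟩

theorem frc_pair (q : T) : Frc (fun _ E v => ∀ x y, E x (v 0) → E y (v 0) →
    ∃ z, E z (v 0) ∧ E x z ∧ E y z) (ev omegaName [univN T]) q := by
  have hfo : FO.{v+2} (fun _ E v => ∀ x y, E x (v 0) → E y (v 0) →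
      ∃ z, E z (v 0) ∧ E x z ∧ E y z) :=
    FO.all (FO.all (FO.imp (FO.mem _ _) (FO.imp (FO.mem _ _)
        (FO.ex (FO.and (FO.mem _ _) (FO.and (FO.mem _ _) (FO.mem _ _)))))))
  refine frc_of_list hfo [univN T] omegaName q ∅ (by simp)
    (κ := Empty) (fun k => k.elim) (fun k => k.elim) ?_
  intro 𝔊 hR h0 _ _ hl hd
  have hU : univN T ∈ 𝔊.N := hl _ (by simp)
  change ∀ x y, 𝔊.E x (𝔊.cls ⟨univN T, hU⟩) → 𝔊.E y (𝔊.cls ⟨univN T, hU⟩) →
    ∃ z, 𝔊.E z (𝔊.cls ⟨univN T, hU⟩) ∧ 𝔊.E x z ∧ 𝔊.E y z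
  intro x y hx hy
  obtain ⟨a, x', rfl, n, hn⟩ := (E_univN hR hU).1 hx
  obtain ⟨b, y', rfl, m, hm⟩ := (E_univN hR hU).1 hy
  refine ⟨𝔊.cls ⟨pairName x'.1 y'.1, hR.pair_mem _ x'.2 _ y'.2⟩,
    (E_univN hR hU).2 ⟨v03_pair a b, ?_⟩, ⟨0, ?_⟩, ⟨0, ?_⟩⟩
  · exact rep_cls_iff.2 ⟨max n m, v03_pair_feq (feq_mono hn (𝔊.anti (le_max_left _ _)))
      (feq_mono hm (𝔊.anti (le_max_right _ _)))⟩
  · rw [fmem_pairName]
    exact fun r _ => ⟨r, le_rfl, Or.inl (feq_refl _ _)⟩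
  · rw [fmem_pairName]
    exact fun r _ => ⟨r, le_rfl, Or.inr (feq_refl _ _)⟩

/-- the small name of the union: an index `(a, b)` of an element of an element; we do not ask for
the condition of `a` -/
private def v03_idx : SN T → Type v
  | .mk A _ _ => A

private def v03_nm : (z : SN T) → v03_idx z → SN T
  | .mk _ x _ => x

private def v03_union : SN T → SN T
  | .mk A x _ => .mk (Σ a : A, v03_idx (x a)) (fun s => v03_nm (x s.1) s.2) (fun _ => ⊤)

/-- elements of elements are elements of the union, for names -/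
private lemma v03_union_mem {z : SN T} {x y t : Name T} {p : T} (hx : feq x z.toName p)
    (hy : fmem y x p) (ht : fmem t y p) : fmem t (v03_union z).toName p := by
  obtain ⟨A, xs, c⟩ := z
  intro q hq
  have h1 : fmem y (SN.mk A xs c).toName q := fmem_mono (fmem_congr_right hx hy) hq
  obtain ⟨r, hr, ⟨a⟩, _, h2⟩ := h1 q le_rfl
  have h3 : fmem t (xs a).toName r := fmem_congr_right h2 (fmem_mono ht (hr.trans hq))
  obtain ⟨s, hs, h4⟩ : ∃ s ≤ r, ∃ b : v03_idx (xs a), feq t (v03_nm (xs a) b).toName s := by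
    revert h3
    generalize xs a = w
    obtain ⟨B, ys, d⟩ := w
    intro h3
    obtain ⟨s, hs, ⟨b⟩, _, h5⟩ := h3 r le_rfl
    exact ⟨s, hs, b, h5⟩
  obtain ⟨b, h5⟩ := h4
  exact ⟨s, hs.trans hr, ⟨⟨a, b⟩⟩, le_top, h5⟩

private lemma v03_union_aux (x : Name T) (q : T) :
    Frc (fun _ E v => E (v 0) (v 1) → ∃ u, E u (v 1) ∧ ∀ y z, E y (v 0) → E z y → E z u)
    (ev omegaName [x, univN T]) q := by
  have hfo : FO.{v+2} (fun _ E v => E (v 0) (v 1) →
      ∃ u, E u (v 1) ∧ ∀ y z, E y (v 0) → E z y → E z u) :=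
    FO.imp (FO.mem _ _) (FO.ex (FO.and (FO.mem _ _)
        (FO.all (FO.all (FO.imp (FO.mem _ _) (FO.imp (FO.mem _ _) (FO.mem _ _)))))))
  refine Frc.dense hfo fun q1 _ => ?_
  by_cases hc : ∃ r ≤ q1, fmem x (univN T) r
  · obtain ⟨r, hr, hc⟩ := hc
    obtain ⟨s, hs, z, hz⟩ := fmem_univN.1 hc r le_rfl
    refine ⟨s, hs.trans hr, ?_⟩
    refine frc_of_list hfo [x, univN T] omegaName s {(v03_union z).toName} (by simp)
      (κ := Empty) (fun k => k.elim) (fun k => k.elim) ?_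
    intro 𝔊 hR h0 hS _ hl hd
    have hU : univN T ∈ 𝔊.N := hl _ (by simp)
    have hx : x ∈ 𝔊.N := hl _ (by simp)
    have hu : (v03_union z).toName ∈ 𝔊.N := hS (by simp)
    change 𝔊.E (𝔊.cls ⟨x, hx⟩) (𝔊.cls ⟨univN T, hU⟩) → ∃ u, 𝔊.E u (𝔊.cls ⟨univN T, hU⟩) ∧
      ∀ y z, 𝔊.E y (𝔊.cls ⟨x, hx⟩) → 𝔊.E z y → 𝔊.E z u
    intro _
    refine ⟨𝔊.cls ⟨_, hu⟩, (E_univN hR hU).2 ⟨_, rep_self hu⟩, ?_⟩
    intro y t hy ht
    obtain ⟨y', rfl⟩ := 𝔊.exists_rep y
    obtain ⟨t', rfl⟩ := 𝔊.exists_rep t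
    obtain ⟨n, hn⟩ := hy
    obtain ⟨m, hm⟩ := ht
    exact ⟨max n m, v03_union_mem (feq_mono hz ((𝔊.anti (Nat.zero_le _)).trans h0))
      (fmem_mono hn (𝔊.anti (le_max_left _ _))) (fmem_mono hm (𝔊.anti (le_max_right _ _)))⟩
  · push Not at hc
    refine ⟨q1, le_rfl, ?_⟩
    refine frc_of_list hfo [x, univN T] omegaName q1 ∅ (by simp)
      (κ := Empty) (fun k => k.elim) (fun k => k.elim) ?_
    intro 𝔊 hR h0 hS _ hl hd
    have hU : univN T ∈ 𝔊.N := hl _ (by simp)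
    have hx : x ∈ 𝔊.N := hl _ (by simp)
    change 𝔊.E (𝔊.cls ⟨x, hx⟩) (𝔊.cls ⟨univN T, hU⟩) → _
    rintro ⟨n, hn⟩
    exact absurd hn (hc _ ((𝔊.anti (Nat.zero_le _)).trans h0))

theorem frc_union (q : T) : Frc (fun _ E v => ∀ x, E x (v 0) →
    ∃ u, E u (v 0) ∧ ∀ y z, E y x → E z y → E z u) (ev omegaName [univN T]) q := by
  have hfo : FO.{v+2} (fun _ E v => ∀ x, E x (v 0) →
      ∃ u, E u (v 0) ∧ ∀ y z, E y x → E z y → E z u) :=
    FO.all (FO.imp (FO.mem _ _) (FO.ex (FO.and (FO.mem _ _)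
        (FO.all (FO.all (FO.imp (FO.mem _ _) (FO.imp (FO.mem _ _) (FO.mem _ _))))))))
  have hfo' : FO.{v+2} (fun _ E v => E (v 0) (v 1) →
      ∃ u, E u (v 1) ∧ ∀ y z, E y (v 0) → E z y → E z u) :=
    FO.imp (FO.mem _ _) (FO.ex (FO.and (FO.mem _ _)
        (FO.all (FO.all (FO.imp (FO.mem _ _) (FO.imp (FO.mem _ _) (FO.mem _ _)))))))
  refine frc_of_list hfo [univN T] omegaName q ∅ (by simp)
    (κ := Empty) (fun k => k.elim) (fun k => k.elim) ?_
  intro 𝔊 hR h0 _ _ hl hd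
  have hU : univN T ∈ 𝔊.N := hl _ (by simp)
  change ∀ x, 𝔊.E x (𝔊.cls ⟨univN T, hU⟩) →
    ∃ u, 𝔊.E u (𝔊.cls ⟨univN T, hU⟩) ∧ ∀ y z, 𝔊.E y x → 𝔊.E z y → 𝔊.E z u
  intro x hx
  obtain ⟨x', rfl⟩ := 𝔊.exists_rep x
  exact Frc.true_list hfo' 𝔊 [x', ⟨univN T, hU⟩] ⟨omegaName, hR.omega_mem⟩ (n := 0)
    (v03_union_aux x'.1 _) hx

end Pool.Agent.KTM
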