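import Pool.Agent.Lib_MP_bf47cd.V07
import Pool.Agent.Lib_MP_bf47cd.V03

/-!
# H17-V08: reduction to the lower part, the small pool
-/

set_option linter.unusedSectionVars false
set_option linter.unusedVariables false

namespace Pool.Agent.KTM

universe u v

open Set Cardinal Pool.Agent.KT

section
variable {O P A B : Type u} [LinearOrder O] [OrderBot O] [WellFoundedLT O] [Preorder P]
  {σ κ : O → Cardinal.{u}} {a c : O → O} (hS : Sys O P σ κ a c)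
include hS

/-- Tasks `(γ, x, t)`, `x ∈ AA γ`, `t : P × EE a c (Iic γ)`, with `ρ (γ, x, t) = γ` and
`D (γ, x, t) = {e | ∃ t' ≤ t, ∃ b, Φ.val x b (t'.1, EE.glue t'.2 e)}`, in `Sys.fusion`. The number of
the tasks with `γ < ξ` is at most `#(Iio ξ) * σ ξ * σ ξ ≤ σ ξ` (`card_low`, `κ_le`, `seg_le`). -/
theorem Sys.exists_reduce (AA : O → Set A) (hA : ∀ γ, #(AA γ) ≤ κ γ)
    (Φ : PF (P × EE a c univ) A B) (e : EE a c univ) : ∃ e' ≤ e, ∀ γ, ∀ x ∈ AA γ,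
      ∀ t : P × EE a c (Iic γ), ∃ t' ≤ t, ∃ b, Φ.val x b (t'.1, EE.glue t'.2 e') := by
  suffices key : ∃ e' ≤ e, ∀ j : Σ γ : O, (AA γ) × (P × EE a c (Iic γ)),
      e' ∈ {e : EE a c univ | ∃ t' ≤ j.2.2, ∃ b, Φ.val j.2.1.1 b (t'.1, EE.glue t'.2 e)} by
    obtain ⟨e', he', h⟩ := key
    exact ⟨e', he', fun γ x hx t => h ⟨γ, ⟨x, hx⟩, t⟩⟩
  refine hS.fusion (J := Σ γ : O, (AA γ) × (P × EE a c (Iic γ))) (fun j => j.1) ?_
    (fun j => {e | ∃ t' ≤ j.2.2, ∃ b, Φ.val j.2.1.1 b (t'.1, EE.glue t'.2 e)}) ?_ ?_ e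
  · intro ξ hξ
    have hinf : ℵ₀ ≤ σ ξ := (hS.inf ⊥).trans (hS.κ_le ⊥ ξ (bot_lt_iff_ne_bot.2 hξ))
    let f : {j : Σ γ : O, (AA γ) × (P × EE a c (Iic γ)) // j.1 < ξ} →
        Σ γ : Iio ξ, (AA γ.1) × (P × EE a c (Iic γ.1)) := fun j => ⟨⟨j.1.1, j.2⟩, j.1.2⟩
    have hf : Function.Injective f := by
      rintro ⟨⟨γ, y⟩, hγ⟩ ⟨⟨γ', y'⟩, hγ'⟩ hh
      simp only [f, Sigma.mk.injEq, Subtype.mk.injEq] at hh
      obtain ⟨h1, h2⟩ := hh
      subst h1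
      rw [heq_iff_eq] at h2
      subst h2
      rfl
    refine (mk_le_of_injective hf).trans ?_
    rw [mk_sigma]
    calc Cardinal.sum (fun γ : Iio ξ => #((AA γ.1) × (P × EE a c (Iic γ.1))))
        ≤ Cardinal.sum (fun _ : Iio ξ => σ ξ) := by
          refine Cardinal.sum_le_sum _ _ fun γ => ?_
          rw [mk_prod, lift_id, lift_id]
          refine (mul_le_mul' ((hA γ.1).trans (hS.κ_le γ.1 ξ γ.2))
            ((hS.card_low γ.1).trans (hS.κ_le γ.1 ξ γ.2))).trans ?_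
          exact (mul_eq_self hinf).le
      _ = #(Iio ξ) * σ ξ := by rw [Cardinal.sum_const']
      _ ≤ σ ξ * σ ξ := mul_le_mul' (hS.seg_le ξ hξ) le_rfl
      _ = σ ξ := mul_eq_self hinf
  · rintro j e1 ⟨t', ht', b, hb⟩ e2 he2
    exact ⟨t', ht', b, Φ.mono j.2.1.1 b (t'.1, EE.glue t'.2 e1) (t'.1, EE.glue t'.2 e2)
      ⟨le_rfl, EE.glue_mono le_rfl he2⟩ hb⟩
  · rintro ⟨γ, x, t⟩ e1
    obtain ⟨r, hr, b, hb⟩ := Φ.total x.1 (t.1, EE.glue t.2 e1)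
    refine ⟨EE.glue (EE.low γ e1) r.2, ?_, ⟨(r.1, EE.low γ r.2), ⟨hr.1, EE.low_glue_le hr.2⟩, b,
      ?_⟩, ?_⟩
    · intro ξ i y hy
      by_cases hξ : ξ ≤ γ
      · simp only [EE.glue, EE.low, if_pos hξ]; exact hy
      · simp only [EE.glue, if_neg hξ]
        apply hr.2 ξ i y
        simp only [EE.glue, if_neg hξ]; exact hy
    · have h1 : EE.glue (EE.low γ r.2) (EE.glue (EE.low γ e1) r.2) = r.2 := by
        apply Subtype.ext
        funext ξ i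
        by_cases hξ : ξ ≤ γ
        · simp only [EE.glue, EE.low, if_pos hξ]
        · simp only [EE.glue, if_neg hξ]
      change Φ.val x.1 b (r.1, EE.glue (EE.low γ r.2) (EE.glue (EE.low γ e1) r.2))
      rw [h1]
      exact hb
    · intro ξ hξ i
      have hξ' : ξ ≤ γ := hξ
      simp only [EE.glue, EE.low, if_pos hξ']

/-- the function valued in the lower part (`mono`, `dense`, `uniq` hold for all `x`) -/
theorem Sys.exists_PF_low {γ : O} {AA : Set A} {Φ : PF (P × EE a c univ) A B}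
    {e' : EE a c univ} (h : ∀ x ∈ AA, ∀ t : P × EE a c (Iic γ), ∃ t' ≤ t, ∃ b,
      Φ.val x b (t'.1, EE.glue t'.2 e')) :
    ∃ X : PF (P × EE a c (Iic γ)) AA B, (∀ x b t, X.val x b t ↔
      Φ.val x b (t.1, EE.glue t.2 e')) ∧
      ∀ x b, ∀ r : P × EE a c univ, r.2 ≤ e' →
        (X.val x b (r.1, EE.low γ r.2) ↔ Φ.val x b r) := by
  let X : PF (P × EE a c (Iic γ)) AA B :=
    { val := fun x b t => Φ.val x.1 b (t.1, EE.glue t.2 e')
      mono := fun x b p q hq hp => Φ.mono _ _ _ _ ⟨hq.1, EE.glue_mono hq.2 le_rfl⟩ hp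
      dense := by
        intro x b p hp
        apply Φ.dense
        intro s hs
        obtain ⟨r, hr, hr1⟩ := hp (s.1, EE.low γ s.2) ⟨hs.1, EE.low_glue_le hs.2⟩
        refine ⟨(r.1, EE.glue r.2 s.2), ⟨hr.1, EE.glue_le hr.2⟩,
          Φ.mono x.1 b (r.1, EE.glue r.2 e') (r.1, EE.glue r.2 s.2) ⟨le_rfl, ?_⟩ hr1⟩
        intro ξ i y hy
        by_cases hξ : ξ ≤ γ
        · simp only [EE.glue, if_pos hξ] at hy ⊢; exact hy
        · simp only [EE.glue, if_neg hξ] at hy ⊢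
          apply hs.2 ξ i y
          simp only [EE.glue, if_neg hξ]; exact hy
      uniq := fun x b b' p h1 h2 => Φ.uniq _ _ _ _ h1 h2
      total := fun x p => by
        obtain ⟨t', ht', b, hb⟩ := h x.1 x.2 p
        exact ⟨t', ht', b, hb⟩ }
  refine ⟨X, fun _ _ _ => Iff.rfl, fun x b r hr => ⟨fun h1 => ?_, fun h1 => ?_⟩⟩
  · exact Φ.mono x.1 b (r.1, EE.glue (EE.low γ r.2) e') r ⟨le_rfl, EE.le_glue_low γ hr⟩ h1
  · apply X.dense
    intro q hq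
    obtain ⟨t', ht', b', hb'⟩ := h x.1 x.2 q
    refine ⟨t', ht', ?_⟩
    have h2 : Φ.val x.1 b (t'.1, EE.glue t'.2 r.2) :=
      Φ.mono _ _ _ _ ⟨ht'.1.trans hq.1, EE.glue_le (ht'.2.trans hq.2)⟩ h1
    have h3 : Φ.val x.1 b' (t'.1, EE.glue t'.2 r.2) :=
      Φ.mono x.1 b' (t'.1, EE.glue t'.2 e') (t'.1, EE.glue t'.2 r.2)
        ⟨le_rfl, EE.glue_mono le_rfl hr⟩ hb'
    have h4 : b = b' := Φ.uniq _ _ _ _ h2 h3
    subst h4
    exact hb'

end

/-- the pool for `A`: `(t.1, EE.glue t.2 ⊤)` for `t : P × EE a c (Iic γ)` with `#A ≤ κ γ`; the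
type of these `t` is small -/
theorem Sys.smallPool {O P : Type (v+1)} [LinearOrder O] [OrderBot O] [WellFoundedLT O]
    [Preorder P] {σ κ : O → Cardinal.{v+1}} {a c : O → O} (hS : Sys O P σ κ a c)
    (h1 : ∀ γ, κ γ < Cardinal.univ.{v, v+1})
    (h2 : ∀ A : Type v, ∃ γ, Cardinal.lift.{v+1} #A ≤ κ γ) :
    SmallPool (P × EE a c univ) := by
  let _ : OrderTop (EE a c (univ : Set O)) := EE.top hS.a_pos univ
  intro A
  obtain ⟨γ, hγ⟩ := h2 A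
  obtain ⟨c', hc'⟩ := Cardinal.lt_univ.1 (lt_of_le_of_lt (hS.card_low γ) (h1 γ))
  have hc2 : #(P × EE a c (Iic γ)) = #(ULift.{v+1} c'.out) := by
    rw [hc', Cardinal.mk_uLift, Cardinal.mk_out]
  obtain ⟨φ⟩ := Cardinal.eq.1 hc2
  refine ⟨c'.out, fun i => ((φ.symm ⟨i⟩).1, EE.glue (φ.symm ⟨i⟩).2 ⊤), ?_⟩
  intro B Φ q
  obtain ⟨e', he', h⟩ := hS.exists_reduce (fun γ' => {x : ULift.{v+1} A | γ' = γ}) (fun γ' => by
    by_cases hh : γ' = γ
    · subst hh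
      refine (mk_set_le _).trans ?_
      rw [Cardinal.mk_uLift]
      exact hγ
    · have h3 : {x : ULift.{v+1} A | γ' = γ} = ∅ := by
        ext x; simp [hh]
      rw [h3, Cardinal.mk_eq_zero]
      exact zero_le) Φ q.2
  refine ⟨(q.1, e'), ⟨le_rfl, he'⟩, ?_⟩
  intro x r hr
  obtain ⟨t', ht', b, hb⟩ := h γ x rfl (r.1, EE.low γ r.2)
  refine ⟨(t'.1, EE.glue t'.2 r.2), ⟨ht'.1, EE.glue_le ht'.2⟩, (φ t').down, ?_, b, ?_⟩
  · have h4 : φ.symm ⟨(φ t').down⟩ = t' := φ.symm_apply_apply t'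
    simp only [h4]
    exact ⟨le_rfl, EE.glue_mono le_rfl le_top⟩
  · intro s hs1 hs2
    have h4 : φ.symm ⟨(φ t').down⟩ = t' := φ.symm_apply_apply t'
    simp only [h4] at hs1
    refine Φ.mono x b (t'.1, EE.glue t'.2 e') s ⟨hs1.1, ?_⟩ hb
    intro ξ i y hy
    by_cases hξ : ξ ≤ γ
    · apply hs1.2 ξ i y
      simp only [EE.glue, if_pos hξ] at hy ⊢; exact hy
    · simp only [EE.glue, if_neg hξ] at hy
      exact hs2.2 ξ i y hy

end Pool.Agent.KTM
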