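import Pool.Agent.Lib_MP_bf47cd.V05

/-!
# H17-V09l: GCH below `ω₃` in the form `GchP`
-/

set_option linter.unusedSectionVars false
set_option linter.unusedVariables false

namespace Pool.Agent.KTM

universe u v

open Set Cardinal Pool.Agent.KT

/-- change of the arguments and values along injections / equivalences -/
theorem exists_PF_post {P A B B' : Type u} [Preorder P] (X : PF P A B) (f : B → B')
    (hf : Function.Injective f) : ∃ X' : PF P A B', ∀ a b' q, X'.val a b' q ↔
      ∃ b, f b = b' ∧ X.val a b q := by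
  refine ⟨{ val := fun a b' q => ∃ b, f b = b' ∧ X.val a b q
            mono := ?_, dense := ?_, uniq := ?_, total := ?_ }, fun _ _ _ => Iff.rfl⟩
  · rintro a b' p q hqp ⟨b, hb, h⟩
    exact ⟨b, hb, X.mono _ _ _ _ hqp h⟩
  · intro a b' p h
    obtain ⟨r, hr, b, hb, hX⟩ := h p le_rfl
    refine ⟨b, hb, X.dense a b p fun q hq => ?_⟩
    obtain ⟨r', hr', b2, hb2, hX2⟩ := h q hq
    have : b2 = b := hf (hb2.trans hb.symm)
    subst this
    exact ⟨r', hr', hX2⟩
  · rintro a b' b'' p ⟨b, hb, h⟩ ⟨b2, hb2, h2⟩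
    rw [← hb, ← hb2, X.uniq _ _ _ _ h h2]
  · intro a p
    obtain ⟨q, hq, b, hb⟩ := X.total a p
    exact ⟨q, hq, f b, b, rfl, hb⟩

/-- transfer of `PowP` -/
theorem PowP.transfer {P A B A' B' : Type u} [Preorder P] (eA : A ≃ A') (eB : B ≃ B')
    {S : PF P (B × A) (ULift.{u} Bool)} (h : PowP A B S) :
    ∃ S' : PF P (B' × A') (ULift.{u} Bool), PowP A' B' S' := by
  refine ⟨{ val := fun t b q => S.val (eB.symm t.1, eA.symm t.2) b q
            mono := fun _ _ _ _ h h1 => S.mono _ _ _ _ h h1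
            dense := fun _ _ _ h => S.dense _ _ _ h
            uniq := fun _ _ _ _ h h1 => S.uniq _ _ _ _ h h1
            total := fun _ _ => S.total _ _ }, ?_⟩
  intro X q
  obtain ⟨q', hq', x, hx⟩ := h
    { val := fun a b q => X.val (eA a) b q
      mono := fun _ _ _ _ h h1 => X.mono _ _ _ _ h h1
      dense := fun _ _ _ h => X.dense _ _ _ h
      uniq := fun _ _ _ _ h h1 => X.uniq _ _ _ _ h h1
      total := fun _ _ => X.total _ _ } q
  refine ⟨q', hq', eB x, fun a b r hr hX => ?_⟩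
  have h1 := hx (eA.symm a) b r hr (by
    change X.val (eA (eA.symm a)) b r
    rw [eA.apply_symm_apply]; exact hX)
  change S.val (eB.symm (eB x), eA.symm a) b r
  rw [eB.symm_apply_apply]
  exact h1

/-- a type embedded as an initial segment is equivalent to the initial segment -/
private theorem v09l_equiv {X O : Type u} [LinearOrder X] [LinearOrder O] {e : X → O}
    (he : StrictMono e) {o : O} (hr : range e = Iio o) : Nonempty (X ≃ Iio o) :=
  ⟨(Equiv.ofInjective e he.injective).trans (Equiv.setCongr hr)⟩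

/-- the initial segments below `x` and `e x` are equivalent -/
private theorem v09l_seg {X O : Type u} [LinearOrder X] [LinearOrder O] {e : X → O}
    (he : StrictMono e) {o : O} (hr : range e = Iio o) {a : O} (ha : a < o) :
    ∃ x : X, e x = a ∧ ∃ f : Iio a → Iio x, Function.Injective f := by
  have h1 : ∀ y : O, y < o → ∃ x, e x = y := fun y hy => by
    have : y ∈ range e := by rw [hr]; exact hy
    exact this
  obtain ⟨x, hx⟩ := h1 a ha
  have h2 : ∀ y : Iio a, ∃ z : Iio x, e z.1 = y.1 := by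
    rintro ⟨y, hy⟩
    obtain ⟨z, hz⟩ := h1 y (lt_trans hy ha)
    refine ⟨⟨z, ?_⟩, hz⟩
    have : e z < e x := by rw [hz, hx]; exact hy
    exact he.lt_iff_lt.1 this
  choose f hf using h2
  refine ⟨x, hx, f, fun y y' hyy => Subtype.ext ?_⟩
  rw [← hf y, ← hf y', hyy]

/-- transfer of the injections -/
private theorem v09l_inj {T X Y O : Type u} [Preorder T] [LinearOrder X] [LinearOrder Y]
    [LinearOrder O] {e : X → O} (he : StrictMono e) {o : O} (hr : range e = Iio o)
    {e' : Y → O} (he' : StrictMono e') {o' : O} (hr' : range e' = Iio o')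
    (h : ∀ x : X, ∃ J : PF T (Iio x) Y, ∀ q, InjP J q) :
    ∀ a < o, ∃ J : PF T (Iio a) (Iio o'), ∀ q, InjP J q := by
  intro a ha
  obtain ⟨x, -, f, hf⟩ := v09l_seg he hr ha
  obtain ⟨ε⟩ := v09l_equiv he' hr'
  obtain ⟨J, hJ⟩ := h x
  obtain ⟨J', hJ'⟩ := exists_PF_post J ε ε.injective
  refine ⟨{ val := fun y b q => J'.val (f y) b q
            mono := fun _ _ _ _ h h1 => J'.mono _ _ _ _ h h1
            dense := fun _ _ _ h => J'.dense _ _ _ h
            uniq := fun _ _ _ _ h h1 => J'.uniq _ _ _ _ h h1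
            total := fun _ _ => J'.total _ _ }, ?_⟩
  intro q y y' b r hr1 h1 h2
  obtain ⟨c, hc, h3⟩ := (hJ' _ _ _).1 h1
  obtain ⟨c', hc', h4⟩ := (hJ' _ _ _).1 h2
  have hcc : c' = c := ε.injective (hc'.trans hc.symm)
  subst hcc
  exact hf (hJ q _ _ _ r hr1 h3 h4)

/-- ranges of compositions -/
private theorem v09l_range {X W O : Type u} [LinearOrder X] [LinearOrder W] [LinearOrder O]
    {e : X → W} {w : W} (hr : range e = Iio w) {eW : W → O} (hW : StrictMono eW) {o : O}
    (hWr : range eW = Iio o) : range (fun x => eW (e x)) = Iio (eW w) := by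
  ext y
  constructor
  · rintro ⟨x, rfl⟩
    have : e x ∈ Iio w := by rw [← hr]; exact ⟨x, rfl⟩
    exact hW this
  · intro hy
    have hwo : eW w ∈ Iio o := by rw [← hWr]; exact ⟨w, rfl⟩
    have hy1 : y ∈ range eW := by rw [hWr]; exact lt_trans hy hwo
    obtain ⟨z, rfl⟩ := hy1
    have hz : z ∈ range e := by rw [hr]; exact hW.lt_iff_lt.1 hy
    obtain ⟨x, rfl⟩ := hz
    exact ⟨x, rfl⟩

variable {T O W K I : Type u} [Preorder T] [LinearOrder O] [LinearOrder W] [LinearOrder K]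
  [SuccOrder K] [LinearOrder I] {eK : K → W} {eI : I → W} {eN : ULift.{u} ℕ → W}
  {kW iW nW : W}

/-- the intervals are `[ω, ω₁)`, `[ω₁, ω₂)`, `[ω₂, ω₃)`; the initial segments of `O` below `ω`, `ω₁`,
`ω₂`, `ω₃` are isomorphic to `ULift ℕ`, `I`, `K`, `W` -/
theorem gchP_low (hT : Iface T W K I eK eI eN kW iW nW) {eW : W → O} (hW : StrictMono eW)
    {wO : O} (hWr : range eW = Iio wO) (α : O) (h1 : eW nW ≤ α) (h2 : α < wO) :
    ∃ τ τ' : O, τ ≤ α ∧ α < τ' ∧
      (∀ a < τ', ∃ J : PF T (Iio a) (Iio τ), ∀ q, InjP J q) ∧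
      ∃ S : PF T (Iio τ' × Iio τ) (ULift.{u} Bool), PowP (Iio τ) (Iio τ') S := by
  have mK : StrictMono (fun x => eW (eK x)) := fun x y h => hW (hT.monoK h)
  have mI : StrictMono (fun x => eW (eI x)) := fun x y h => hW (hT.monoI h)
  have mN : StrictMono (fun x => eW (eN x)) := fun x y h => hW (hT.monoN h)
  have rK := v09l_range hT.rangeK hW hWr
  have rI := v09l_range hT.rangeI hW hWr
  have rN := v09l_range hT.rangeN hW hWr
  obtain ⟨εW⟩ := v09l_equiv hW hWr
  obtain ⟨εK⟩ := v09l_equiv mK rK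
  obtain ⟨εI⟩ := v09l_equiv mI rI
  obtain ⟨εN⟩ := v09l_equiv mN rN
  rcases lt_or_ge α (eW iW) with h3 | h3
  · obtain ⟨S, hS⟩ := hT.pow_N
    exact ⟨eW nW, eW iW, h1, h3, v09l_inj mI rI mN rN hT.inj_I, hS.transfer εN εI⟩
  rcases lt_or_ge α (eW kW) with h4 | h4
  · obtain ⟨S, hS⟩ := hT.pow_I
    exact ⟨eW iW, eW kW, h3, h4, v09l_inj mK rK mI rI hT.inj_K, hS.transfer εI εK⟩
  · obtain ⟨S, hS⟩ := hT.pow_K
    exact ⟨eW kW, wO, h4, h2, v09l_inj hW hWr mK rK hT.inj_W, hS.transfer εK εW⟩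

end Pool.Agent.KTM
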