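import Pool.Agent.Lib_MP_bf47cd.V03p

/-!
# H17-V03r: the universe of small names is closed under ranges of functions
-/

set_option linter.unusedSectionVars false
set_option linter.unusedVariables false

namespace Pool.Agent.KTM

universe u v w

open Pool.Agent.Forcing Pool.Agent.Forcing.Name Pool.Agent.Inner Set Cardinal Pool.Agent.KT

variable {T : Type (v+1)} [Preorder T] [OrderTop T]

/-- `p` forces `f(a) = b` -/
private def V03r_FV (f a b : Name T) (p : T) : Prop :=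
  Frc (fun _ E v => Val E (v 0) (v 1) (v 2)) (ev omegaName [f, a, b]) p

/-- `p` forces that `f` is a function from `x` to the universe -/
private def V03r_FI (f x : Name T) (p : T) : Prop :=
  Frc (fun _ E v => IsFun E (v 0) (v 1) (v 2)) (ev omegaName [f, x, univN T]) p

private lemma V03r_FV_truth {𝔊 : Gen T} (hR : Rich 𝔊) (f a b : 𝔊.N) :
    Val 𝔊.E (𝔊.cls f) (𝔊.cls a) (𝔊.cls b) ↔ ∃ n, V03r_FV f.1 a.1 b.1 (𝔊.G n) :=
  truth_list (FO.val 0 1 2) 𝔊 [f, a, b] ⟨omegaName, hR.omega_mem⟩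

private lemma V03r_FI_truth {𝔊 : Gen T} (hR : Rich 𝔊) (f x : 𝔊.N) (hU : univN T ∈ 𝔊.N) :
    IsFun 𝔊.E (𝔊.cls f) (𝔊.cls x) (𝔊.cls ⟨univN T, hU⟩) ↔
      ∃ n, V03r_FI f.1 x.1 (𝔊.G n) :=
  truth_list (FO.isFun 0 1 2) 𝔊 [f, x, ⟨univN T, hU⟩] ⟨omegaName, hR.omega_mem⟩

private lemma V03r_FV_congr {f a b a' b' : Name T} {p : T} (ha : feq a a' p) (hb : feq b b' p)
    (h : V03r_FV f a b p) : V03r_FV f a' b' p :=
  frc_congr_list (List.Forall₂.cons (feq_refl _ _) (List.Forall₂.cons ha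
    (List.Forall₂.cons hb List.Forall₂.nil))) h

private lemma V03r_uniq {f x a b b' : Name T} {p : T} (hI : V03r_FI f x p)
    (h : V03r_FV f a b p) (h' : V03r_FV f a b' p) : feq b b' p := by
  refine feq_of_models {f, x, a, univN T} (by simp) ?_
  intro 𝔊 hR h0 hS hb hb'
  have hf : f ∈ 𝔊.N := hS (by simp)
  have hx : x ∈ 𝔊.N := hS (by simp)
  have ha : a ∈ 𝔊.N := hS (by simp)
  have hU : univN T ∈ 𝔊.N := hS (by simp)
  have h1 := (V03r_FI_truth hR ⟨f, hf⟩ ⟨x, hx⟩ hU).2 ⟨0, Frc.mono hI h0⟩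
  have h2 := (V03r_FV_truth hR ⟨f, hf⟩ ⟨a, ha⟩ ⟨b, hb⟩).2 ⟨0, Frc.mono h h0⟩
  have h3 := (V03r_FV_truth hR ⟨f, hf⟩ ⟨a, ha⟩ ⟨b', hb'⟩).2 ⟨0, Frc.mono h' h0⟩
  obtain ⟨y, _, hy⟩ := h1.2 _ (isFun_mem hR.zfc h1 h2).1
  rw [hy _ h2, hy _ h3]

private lemma V03r_exists {f x a : Name T} {p : T} (hI : V03r_FI f x p) (hm : fmem a x p) :
    ∃ r ≤ p, ∃ z : SN T, V03r_FV f a z.toName r := by
  obtain ⟨𝔊, hR, h0, hS, _, _⟩ := exists_rich (P := T) (ι := Empty) (κ := Empty)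
    {f, x, a, univN T} (by simp) (fun k => k.elim) (fun k => k.elim) (fun k => k.elim) p
  have hf : f ∈ 𝔊.N := hS (by simp)
  have hx : x ∈ 𝔊.N := hS (by simp)
  have ha : a ∈ 𝔊.N := hS (by simp)
  have hU : univN T ∈ 𝔊.N := hS (by simp)
  have h1 := (V03r_FI_truth hR ⟨f, hf⟩ ⟨x, hx⟩ hU).2 ⟨0, by rw [h0]; exact hI⟩
  have h2 : 𝔊.E (𝔊.cls ⟨a, ha⟩) (𝔊.cls ⟨x, hx⟩) := ⟨0, by rw [h0]; exact hm⟩
  obtain ⟨y, hy, _⟩ := h1.2 _ h2
  have hyU := (isFun_mem hR.zfc h1 hy).2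
  obtain ⟨z, hz⟩ := (E_univN hR hU).1 hyU
  obtain ⟨y', rfl, n, hn⟩ := hz
  obtain ⟨m, hm'⟩ := (V03r_FV_truth hR ⟨f, hf⟩ ⟨a, ha⟩ y').1 hy
  refine ⟨𝔊.G (max n m), by rw [← h0]; exact 𝔊.anti (Nat.zero_le _), z, ?_⟩
  exact V03r_FV_congr (feq_refl _ _) (feq_mono hn (𝔊.anti (le_max_left _ _)))
    (Frc.mono hm' (𝔊.anti (le_max_right _ _)))

private lemma V03r_core (hT : SmallPool T) (f x : Name T) (q : T) (hI : V03r_FI f x q)
    (hx : fmem x (univN T) q) : ∃ q' ≤ q, ∃ z' : SN T,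
      Frc (fun _ E v => ∀ a b, Val E (v 0) a b → E b (v 1)) (ev omegaName [f, z'.toName]) q' := by
  classical
  obtain ⟨q1, hq1, z, hz⟩ := (fmem_univN.1 hx) q le_rfl
  obtain ⟨A, xx, pp⟩ := z
  have hI1 : V03r_FI f x q1 := Frc.mono hI hq1
  obtain ⟨R, t, hRt⟩ := hT A
  obtain ⟨wo, hwo⟩ := exists_wellFoundedLT (SN T)
  let d0 : SN T := SN.mk PEmpty (fun a => a.elim) (fun a => a.elim)
  -- the function
  let V : ULift.{v+1} A → SN T → T → Prop := fun a b s =>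
    (fmem (xx a.down).toName x s ∧ V03r_FV f (xx a.down).toName b.toName s ∧
      ∀ b' < b, ∀ r ≤ s, ¬ V03r_FV f (xx a.down).toName b'.toName r) ∨
    ((∀ r ≤ s, ¬ fmem (xx a.down).toName x r) ∧ b = d0)
  have : Nonempty (SN T) := ⟨d0⟩
  obtain ⟨Φ, hΦ1, hΦ2⟩ := PF.exists_ofDense_below (A := ULift.{v+1} A) (B := SN T) q1 V (by
      rintro a b p r hr hp (⟨h1, h2, h3⟩ | ⟨h1, h2⟩)
      · exact Or.inl ⟨fmem_mono h1 hr, Frc.mono h2 hr, fun b' hb' s hs => h3 b' hb' s (hs.trans hr)⟩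
      · exact Or.inr ⟨fun s hs => h1 s (hs.trans hr), h2⟩) (by
      rintro a b b' p hp (⟨h1, h2, h3⟩ | ⟨h1, h2⟩) (⟨h4, h5, h6⟩ | ⟨h4, h5⟩)
      · rcases lt_trichotomy b b' with h | h | h
        · exact absurd h2 (h6 b h p le_rfl)
        · exact h
        · exact absurd h5 (h3 b' h p le_rfl)
      · exact absurd h1 (h4 p le_rfl)
      · exact absurd h4 (h1 p le_rfl)
      · rw [h2, h5]) (by
      intro a p hp
      by_cases h : ∃ r ≤ p, fmem (xx a.down).toName x r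
      · obtain ⟨r, hr, hm⟩ := h
        obtain ⟨r', hr', b, hb⟩ := V03r_exists (Frc.mono hI1 (hr.trans hp)) hm
        have hne : {b : SN T | ∃ s ≤ r', V03r_FV f (xx a.down).toName b.toName s}.Nonempty :=
          ⟨b, r', le_rfl, hb⟩
        obtain ⟨s, hs, hFV⟩ := hwo.wf.min_mem _ hne
        refine ⟨s, hs.trans (hr'.trans hr), hwo.wf.min _ hne, Or.inl ⟨?_, hFV, ?_⟩⟩
        · exact fmem_mono hm (hs.trans hr')
        · intro b' hb' s' hs' hcon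
          exact hwo.wf.not_lt_min
            {b : SN T | ∃ s ≤ r', V03r_FV f (xx a.down).toName b.toName s}
            ⟨s', hs'.trans hs, hcon⟩ hb'
      · push Not at h
        exact ⟨p, le_rfl, d0, Or.inr ⟨h, rfl⟩⟩)
  obtain ⟨q', hq', hpool⟩ := hRt (SN T) Φ q1
  let β : A × R → SN T := fun ai =>
    if h : ∃ b, ∀ s ≤ t ai.2, s ≤ q' → Φ.val ⟨ai.1⟩ b s then h.choose else d0
  let z' : SN T := SN.mk (A × R) β (fun _ => ⊤)
  refine ⟨q', hq'.trans hq1, z', ?_⟩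
  -- the dense sets
  let D : Unit → List (Name T) → Set T := fun _ l =>
    {r | (∀ s ≤ r, ¬ s ≤ q') ∨
      (∀ a : A, ∀ s ≤ r, ¬ feq (l.getD 0 omegaName) (xx a).toName s) ∨
      ∃ (a : A) (i : R), feq (l.getD 0 omegaName) (xx a).toName r ∧ r ≤ q' ∧ r ≤ t i ∧
        ∃ b, ∀ s ≤ t i, s ≤ q' → Φ.val ⟨a⟩ b s}
  have hD : ∀ k l p, ∃ r ≤ p, r ∈ D k l := by
    intro _ l p
    by_cases h1 : ∀ s ≤ p, ¬ s ≤ q'
    · exact ⟨p, le_rfl, Or.inl h1⟩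
    · push Not at h1
      obtain ⟨s, hsp, hsq⟩ := h1
      by_cases h2 : ∀ a : A, ∀ r ≤ s, ¬ feq (l.getD 0 omegaName) (xx a).toName r
      · exact ⟨s, hsp, Or.inr (Or.inl h2)⟩
      · push Not at h2
        obtain ⟨a, r, hr, hf⟩ := h2
        obtain ⟨r', hr', i, hi, hb⟩ := hpool ⟨a⟩ r (hr.trans hsq)
        exact ⟨r', hr'.trans (hr.trans hsp), Or.inr (Or.inr ⟨a, i, feq_mono hf hr',
          hr'.trans (hr.trans hsq), hi, hb⟩)⟩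
  have hFO : FO.{v+2} (fun _ E v => ∀ a b, Val E (v 0) a b → E b (v 1)) :=
    FO.all (FO.all (FO.imp (FO.val _ _ _) (FO.mem _ _)))
  refine frc_of (ι := Empty) (κ := Unit) hFO (ev omegaName [f, z'.toName]) q'
    {x, f, z'.toName, univN T, (SN.mk A xx pp).toName} (by simp) (fun k => k.elim) D hD ?_
  intro 𝔊 hR h0 hS _ hmeet hv a0 b0 hab
  have hfN : f ∈ 𝔊.N := hS (by simp)
  have hxN : x ∈ 𝔊.N := hS (by simp)
  have hzN : z'.toName ∈ 𝔊.N := hS (by simp)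
  have hUN : univN T ∈ 𝔊.N := hS (by simp)
  have hz0N : (SN.mk A xx pp).toName ∈ 𝔊.N := hS (by simp)
  have hab' : Val 𝔊.E (𝔊.cls ⟨f, hfN⟩) a0 b0 := hab
  show 𝔊.E b0 (𝔊.cls ⟨z'.toName, hzN⟩)
  have hIm := (V03r_FI_truth hR ⟨f, hfN⟩ ⟨x, hxN⟩ hUN).2 ⟨0, Frc.mono hI1 (h0.trans hq')⟩
  have hmem := isFun_mem hR.zfc hIm hab'
  have hxz : 𝔊.cls ⟨x, hxN⟩ = 𝔊.cls ⟨(SN.mk A xx pp).toName, hz0N⟩ :=
    (𝔊.cls_eq).2 ⟨0, feq_mono hz (h0.trans hq')⟩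
  have hmem1 := hmem.1
  rw [hxz] at hmem1
  obtain ⟨j, n1, _, hrep⟩ := (E_iff hR hz0N).1 hmem1
  obtain ⟨a0', rfl⟩ := 𝔊.exists_rep a0
  obtain ⟨b0', rfl⟩ := 𝔊.exists_rep b0
  obtain ⟨n2, hn2⟩ := rep_cls_iff.1 hrep
  obtain ⟨n3, hn3⟩ := hmeet () [a0'.1] (by simp)
  have hn3' : (∀ s ≤ 𝔊.G n3, ¬ s ≤ q') ∨
      (∀ a : A, ∀ s ≤ 𝔊.G n3, ¬ feq a0'.1 (xx a).toName s) ∨
      ∃ (a : A) (i : R), feq a0'.1 (xx a).toName (𝔊.G n3) ∧ 𝔊.G n3 ≤ q' ∧ 𝔊.G n3 ≤ t i ∧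
        ∃ b, ∀ s ≤ t i, s ≤ q' → Φ.val ⟨a⟩ b s := hn3
  rcases hn3' with h1 | h1 | ⟨a, i, h1, h2, h3, h4⟩
  · exact absurd ((𝔊.anti (Nat.zero_le n3)).trans h0) (h1 _ le_rfl)
  · exact absurd (feq_mono hn2 (𝔊.anti (le_max_left n2 n3)))
      (h1 j.down _ (𝔊.anti (le_max_right n2 n3)))
  · -- the value
    have hβ : ∀ s ≤ t i, s ≤ q' → Φ.val ⟨a⟩ (β (a, i)) s := by
      have : β (a, i) = h4.choose := by
        show (if h : ∃ b, ∀ s ≤ t i, s ≤ q' → Φ.val ⟨a⟩ b s then h.choose else d0) = h4.choose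
        rw [dif_pos h4]
      rw [this]
      exact h4.choose_spec
    have h5 : Φ.val ⟨a⟩ (β (a, i)) (𝔊.G n3) := hβ _ h3 h2
    have h6 := (hΦ1 ⟨a⟩ (β (a, i)) (𝔊.G n3) (h2.trans hq')).1 h5
    obtain ⟨n4, hn4⟩ := hmem.1
    have hmem2 : fmem (xx a).toName x (𝔊.G (max n3 n4)) :=
      fmem_congr_left (feq_mono h1 (𝔊.anti (le_max_left _ _)))
        (fmem_mono hn4 (𝔊.anti (le_max_right _ _)))
    have h7 : V03r_FV f (xx a).toName (β (a, i)).toName (𝔊.G (max n3 n4)) := by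
      refine Frc.dense (FO.val 0 1 2) fun s hs => ?_
      obtain ⟨r, hr, hV⟩ := h6 s (hs.trans (𝔊.anti (le_max_left _ _)))
      rcases hV with ⟨_, h8, _⟩ | ⟨h8, _⟩
      · exact ⟨r, hr, h8⟩
      · exact absurd (fmem_mono hmem2 (hr.trans hs)) (h8 r le_rfl)
    obtain ⟨n5, hn5⟩ := (V03r_FV_truth hR ⟨f, hfN⟩ a0' b0').1 hab'
    set M := max (max n3 n4) n5 with hM
    have h9 : V03r_FV f a0'.1 (β (a, i)).toName (𝔊.G M) :=
      V03r_FV_congr (feq_symm (feq_mono h1 (𝔊.anti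
        ((le_max_left n3 n4).trans (le_max_left _ _))))) (feq_refl _ _)
        (Frc.mono h7 (𝔊.anti (le_max_left _ _)))
    have h10 : V03r_FV f a0'.1 b0'.1 (𝔊.G M) := Frc.mono hn5 (𝔊.anti (le_max_right _ _))
    have h11 : feq b0'.1 (β (a, i)).toName (𝔊.G M) :=
      V03r_uniq (Frc.mono hI1 (((𝔊.anti (Nat.zero_le M)).trans h0).trans hq')) h10 h9
    refine (E_iff hR hzN).2 ⟨⟨(a, i)⟩, 0, le_top, b0', rfl, M, h11⟩

/-- Let `x` be named by `z = SN.mk A x p`, and `R`, `t` the pool for `A`; well-order `SN T`. Given a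
name `f` forced (by `q`) to be a function from `z` to the universe let `Φ : PF T (ULift A) (SN T)`
(from `PF.exists_ofDense_below q`) have the value `b` at `a` under `q'` if either `q'` forces
`x a ∈ z` and `f (x a) = b` and `b` is the least such (no `r ≤ q'` forces `f (x a) = b'` for a
smaller `b'`), or `q'` forces `x a ∉ z` and `b` is a default. `q'` from the pool; for `(a, i)` let
`β (a, i)` be some `b` with `∀ s ≤ t i, s ≤ q' → Φ.val a b s`. The set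
`SN.mk (A × R) β (fun _ => ⊤)` contains the range of `f`. -/
theorem frc_repl (hT : SmallPool T) (q : T) : Frc (fun _ E v => ∀ x f, E x (v 0) →
    IsFun E f x (v 0) → ∃ r, E r (v 0) ∧ ∀ a b, Val E f a b → E b r)
    (ev omegaName [univN T]) q := by
  have hFO : FO.{v+2} (fun _ E v => ∀ x f, E x (v 0) →
      IsFun E f x (v 0) → ∃ r, E r (v 0) ∧ ∀ a b, Val E f a b → E b r) :=
    FO.all (FO.all (FO.imp (FO.mem _ _) (FO.imp (FO.isFun _ _ _) (FO.ex (FO.and (FO.mem _ _)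
      (FO.all (FO.all (FO.imp (FO.val _ _ _) (FO.mem _ _)))))))))
  have hFO' : FO.{v+2} (fun _ E v => ∃ r, E r (v 0) ∧ ∀ a b, Val E (v 1) a b → E b r) :=
    FO.ex (FO.and (FO.mem _ _) (FO.all (FO.all (FO.imp (FO.val _ _ _) (FO.mem _ _)))))
  refine frc_of' hFO (ev omegaName [univN T]) q ∅ Set.countable_empty (κ := Empty)
    (fun k => k.elim) (fun k => k.elim) ?_
  intro 𝔊 hR h0 _ _ hv x f hx hf
  have hUN : univN T ∈ 𝔊.N := hv 0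
  have hx' : 𝔊.E x (𝔊.cls ⟨univN T, hUN⟩) := hx
  have hf' : IsFun 𝔊.E f x (𝔊.cls ⟨univN T, hUN⟩) := hf
  show ∃ r, 𝔊.E r (𝔊.cls ⟨univN T, hUN⟩) ∧ ∀ a b, Val 𝔊.E f a b → 𝔊.E b r
  obtain ⟨x', rfl⟩ := 𝔊.exists_rep x
  obtain ⟨f', rfl⟩ := 𝔊.exists_rep f
  obtain ⟨n, hn⟩ := hx'
  obtain ⟨m, hm⟩ := (V03r_FI_truth hR f' x' hUN).1 hf'
  refine (truth_list hFO' 𝔊 [⟨univN T, hUN⟩, f'] ⟨omegaName, hR.omega_mem⟩).2
    ⟨max n m, Frc.dense hFO' fun q1 hq1 => ?_⟩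
  obtain ⟨q', hq', z', hz'⟩ := V03r_core hT f'.1 x'.1 q1
    (Frc.mono hm (hq1.trans (𝔊.anti (le_max_right _ _))))
    (fmem_mono hn (hq1.trans (𝔊.anti (le_max_left _ _))))
  refine ⟨q', hq', ?_⟩
  refine frc_of' hFO' _ q' {z'.toName, f'.1, univN T} (by simp) (κ := Empty)
    (fun k => k.elim) (fun k => k.elim) ?_
  intro 𝔊' hR' h0' hS' _ hv'
  have hzN : z'.toName ∈ 𝔊'.N := hS' (by simp)
  have hfN : f'.1 ∈ 𝔊'.N := hS' (by simp)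
  have hUN' : univN T ∈ 𝔊'.N := hS' (by simp)
  have h1 : ∀ a b, Val 𝔊'.E (𝔊'.cls ⟨f'.1, hfN⟩) a b → 𝔊'.E b (𝔊'.cls ⟨z'.toName, hzN⟩) :=
    Frc.true_list (FO.all (FO.all (FO.imp (FO.val _ _ _) (FO.mem _ _)))) 𝔊'
      [⟨f'.1, hfN⟩, ⟨z'.toName, hzN⟩] ⟨omegaName, hR'.omega_mem⟩ (n := 0) (Frc.mono hz' h0')
  have h2 : 𝔊'.E (𝔊'.cls ⟨z'.toName, hzN⟩) (𝔊'.cls ⟨univN T, hUN'⟩) :=
    (E_univN hR' hUN').2 ⟨z', rep_self hzN⟩
  exact ⟨_, h2, h1⟩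

theorem frc_isUniv (hT : SmallPool T) (q : T) : Frc (fun _ E v => IsUniv E (v 0))
    (ev omegaName [univN T]) q := by
  refine frc_of' (FOx.isUniv 0) (ev omegaName [univN T]) q ∅ Set.countable_empty (κ := Empty)
    (fun k => k.elim) (fun k => k.elim) ?_
  intro 𝔊 hR h0 _ _ hv
  have hUN : univN T ∈ 𝔊.N := hv 0
  show IsUniv 𝔊.E (𝔊.cls ⟨univN T, hUN⟩)
  have key : ∀ {R : Fam.{v+2}}, FO R → Frc R (ev omegaName [univN T]) (𝔊.G 0) →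
      R 𝔊.M 𝔊.E (ev (𝔊.cls ⟨omegaName, hR.omega_mem⟩) [𝔊.cls ⟨univN T, hUN⟩]) :=
    fun hR' h => Frc.true_list hR' 𝔊 [⟨univN T, hUN⟩] ⟨omegaName, hR.omega_mem⟩ h
  refine ⟨?_, ?_, ?_, ?_, ?_, ?_⟩
  · exact key (FO.all (FO.imp (FO.mem _ _) (FO.all (FO.imp (FO.mem _ _) (FO.mem _ _)))))
      (frc_trans _)
  · exact key (FO.ex (FO.and (FO.mem _ _) (FO.isOmega _))) (frc_omega _)
  · exact key (FO.all (FO.all (FO.imp (FO.mem _ _) (FO.imp (FO.mem _ _) (FO.ex (FO.and (FO.mem _ _)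
      (FO.and (FO.mem _ _) (FO.mem _ _)))))))) (frc_pair _)
  · exact key (FO.all (FO.imp (FO.mem _ _) (FO.ex (FO.and (FO.mem _ _)
      (FO.all (FO.all (FO.imp (FO.mem _ _) (FO.imp (FO.mem _ _) (FO.mem _ _))))))))) (frc_union _)
  · exact key (FO.all (FO.imp (FO.mem _ _) (FO.ex (FO.and (FO.mem _ _)
      (FO.all (FO.imp (FO.sub _ _) (FO.mem _ _))))))) (frc_power hT _)
  · exact key (FO.all (FO.all (FO.imp (FO.mem _ _) (FO.imp (FO.isFun _ _ _) (FO.ex (FO.and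
      (FO.mem _ _) (FO.all (FO.all (FO.imp (FO.val _ _ _) (FO.mem _ _)))))))))) (frc_repl hT _)

end Pool.Agent.KTM
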