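import Pool.Agent.Lib_MP_bf47cd.V03
import Mathlib.SetTheory.Ordinal.Family

/-!
# H17-V04: the ordinals in the universe of small names are canonical
-/

set_option linter.unusedSectionVars false
set_option linter.unusedVariables false

namespace Pool.Agent.KTM

universe u v w

open Pool.Agent.Forcing Pool.Agent.Forcing.Name Pool.Agent.Inner Set Cardinal Pool.Agent.KT

/-! ### comparability of ordinals in a model -/

section trich
variable {M : Type w} {E : M → M → Prop}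

private lemma v04_elem {x y : M} (hx : IsOrd E x) (h : E y x) : IsOrd E y :=
  ⟨hx.2 y h, fun z hz => hx.2 z (hx.1 y h z hz)⟩

/-- a minimal element among the elements of `x` with a first-order property, or `x` itself -/
private lemma v04_min (hE : ModelsZFC E) {R : Fam.{w}} (hR : FO R) (v : ℕ → M) {x : M}
    (hx : IsOrd E x) (h : R M E (cons x v)) :
    ∃ u, IsOrd E u ∧ R M E (cons u v) ∧ ∀ z, E z u → ¬ R M E (cons z v) := by
  obtain ⟨s, hs⟩ := sep hE hR v x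
  by_cases hne : ∃ u, E u s
  · obtain ⟨u, hu, hu2⟩ := hE.foundation s hne
    obtain ⟨h1, h2⟩ := (hs u).1 hu
    refine ⟨u, v04_elem hx h1, h2, fun z hz hz2 => ?_⟩
    exact hu2 z ((hs z).2 ⟨hx.1 u h1 z hz, hz2⟩) hz
  · push Not at hne
    exact ⟨x, hx, h, fun z hz hz2 => hne z ((hs z).2 ⟨hz, hz2⟩)⟩

/-- ordinals are comparable -/
theorem V04_trich (hE : ModelsZFC E) {x y : M} (hx : IsOrd E x) (hy : IsOrd E y) :
    E x y ∨ x = y ∨ E y x := by
  by_contra hcon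
  have hfo1 : FO.{w} (fun _ E v => ∃ y, IsOrd E y ∧ ¬ (E (v 0) y ∨ v 0 = y ∨ E y (v 0))) :=
    FO.ex (FO.and (FOx.isOrd 0) (FO.not (FO.or (FO.mem 1 0) (FO.or (FO.eq 1 0) (FO.mem 0 1)))))
  obtain ⟨u, hu, ⟨y1, hy1, hy2⟩, hmin⟩ := v04_min hE hfo1 (fun _ => x) hx ⟨y, hy, hcon⟩
  have hy2' : ¬ (E u y1 ∨ u = y1 ∨ E y1 u) := hy2
  have hfo2 : FO.{w} (fun _ E v => ¬ (E (v 1) (v 0) ∨ v 1 = v 0 ∨ E (v 0) (v 1))) :=
    FO.not (FO.or (FO.mem 1 0) (FO.or (FO.eq 1 0) (FO.mem 0 1)))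
  obtain ⟨t, ht, ht2, htmin⟩ := v04_min hE hfo2 (cons u fun _ => x) hy1 hy2'
  have ht2' : ¬ (E u t ∨ u = t ∨ E t u) := ht2
  have hu' : ∀ z, E z u → (E z t ∨ z = t ∨ E t z) := by
    intro z hz
    by_contra h
    exact hmin z hz ⟨t, ht, h⟩
  have htm' : ∀ z, E z t → (E u z ∨ u = z ∨ E z u) := by
    intro z hz
    by_contra h
    exact htmin z hz h
  refine ht2' (Or.inr (Or.inl (hE.extensionality _ _ fun z => ?_)))
  constructor
  · intro hz
    rcases hu' z hz with h | h | h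
    · exact h
    · subst h
      exact absurd (Or.inr (Or.inr hz)) ht2'
    · exact absurd (Or.inr (Or.inr (hu.1 z hz t h))) ht2'
  · intro hz
    rcases htm' z hz with h | h | h
    · exact absurd (Or.inl (ht.1 z hz u h)) ht2'
    · subst h
      exact absurd (Or.inl hz) ht2'
    · exact h

end trich

variable {T : Type (v+1)} [Preorder T] [OrderTop T]

/-- canonical names of ordinals below `#Type v` are equal to small names -/
theorem exists_SN_check (α : Ordinal.{v}) : ∃ z : SN T, ∀ q,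
    feq (check α : Name T) z.toName q := by
  induction α using WellFoundedLT.induction with
  | ind α ih =>
    choose z hz using ih
    refine ⟨SN.mk (Shrink.{v} (Iio α)) (fun i => z ((equivShrink (Iio α)).symm i).1
      ((equivShrink (Iio α)).symm i).2) (fun _ => ⊤), fun q => ?_⟩
    have key : ∀ (y : Name T) (q : T), fmem y (check α) q ↔ fmem y
        (SN.mk (Shrink.{v} (Iio α)) (fun i => z ((equivShrink (Iio α)).symm i).1
        ((equivShrink (Iio α)).symm i).2) (fun _ => ⊤) : SN T).toName q := by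
      intro y q
      rw [check_eq, fmem_checkSet]
      change _ ↔ fmem y (Name.mk (ULift.{v+1} (Shrink.{v} (Iio α)))
        (fun a => (z ((equivShrink (Iio α)).symm a.down).1
          ((equivShrink (Iio α)).symm a.down).2).toName) (fun _ => ⊤)) q
      rw [fmem_mk_top]
      constructor
      · intro h q' hq'
        obtain ⟨r, hr, β, hβ, h1⟩ := h q' hq'
        refine ⟨r, hr, ⟨equivShrink (Iio α) ⟨β, hβ⟩⟩, ?_⟩
        simp only [Equiv.symm_apply_apply]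
        exact feq_trans h1 (hz β hβ r)
      · intro h q' hq'
        obtain ⟨r, hr, ⟨i⟩, h1⟩ := h q' hq'
        exact ⟨r, hr, _, ((equivShrink (Iio α)).symm i).2,
          feq_trans h1 (feq_symm (hz _ ((equivShrink (Iio α)).symm i).2 r))⟩
    exact feq_of_forall (fun y q _ h => (key y q).1 h) (fun y q _ h => (key y q).2 h)

/-- the rank of a small name (`Ordinal.{v}`) bounds the ordinals in it: by induction on `z`;
`rk (SN.mk A x p) = sup (rk (x a) + 1)` -/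
theorem exists_rk (z : SN T) : ∃ ρ : Ordinal.{v}, ∀ (α : Ordinal.{v}) (q : T),
    fmem (check α) z.toName q → α < ρ := by
  induction z with
  | mk A x p ih =>
    choose ρ hρ using ih
    refine ⟨Ordinal.lsub.{v, v} ρ, fun α q h => ?_⟩
    obtain ⟨r, hr, ⟨a⟩, h1, h2⟩ := h q le_rfl
    have h3 : feq (check α) (x a).toName r := h2
    refine lt_of_le_of_lt ?_ (Ordinal.lt_lsub ρ a)
    by_contra hc
    push Not at hc
    have h4 : fmem (check (ρ a) : Name T) (check α) r := by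
      rw [check_eq α]
      exact fmem_check_of_mem (mem_Iio.2 hc) r
    exact lt_irrefl _ (hρ a (ρ a) r (fmem_congr_right h3 h4))

/-- Ordinals of the universe are canonical: let `Ω` be named by `checkSet univ`, an ordinal in the
model. Ordinals are comparable, so `x ∈ Ω` (and then `x` is canonical) or `Ω ⊆ x`; in the second
case `Ω = x` or `Ω ∈ x`, so `Ω` is in the universe, against `exists_rk`. -/
theorem exists_rep_ord {𝔊 : Gen T} (hF : Full Ordinal.{v} 𝔊) (h : univN T ∈ 𝔊.N) {x : 𝔊.M}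
    (hx : IsOrd 𝔊.E x) (hxU : 𝔊.E x (𝔊.cls ⟨univN T, h⟩)) :
    ∃ α : Ordinal.{v}, Rep 𝔊 x (check α) := by
  obtain ⟨x', rfl⟩ := 𝔊.exists_rep x
  obtain ⟨n, ⟨α, hα⟩ | hn⟩ := hF.decC x'.1 x'.2
  · exact ⟨α, x', rfl, n, hα⟩
  exfalso
  have hfo : FO.{v+2} (fun _ E v => IsOrd E (v 0) ∧ E (v 0) (v 1)) :=
    FO.and (FOx.isOrd 0) (FO.mem _ _)
  obtain ⟨m, hm⟩ := (truth_list hfo 𝔊 [x', ⟨univN T, h⟩] ⟨omegaName, hF.rich.omega_mem⟩).1
    ⟨hx, hxU⟩
  obtain ⟨𝔊', hF', h0, hS⟩ := exists_full Ordinal.{v}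
    ({x'.1, univN T, checkSet (univ : Set Ordinal.{v})} : Set (Name T)) (by simp)
    (𝔊.G (max n m))
  have hx'N : x'.1 ∈ 𝔊'.N := hS (by simp)
  have hUN : univN T ∈ 𝔊'.N := hS (by simp)
  have hON : (checkSet (univ : Set Ordinal.{v}) : Name T) ∈ 𝔊'.N := hS (by simp)
  obtain ⟨h1, h2⟩ := (truth_list hfo 𝔊' [⟨x'.1, hx'N⟩, ⟨univN T, hUN⟩]
    ⟨omegaName, hF'.rich.omega_mem⟩).2 ⟨0, by
      rw [h0]
      exact hm.mono (𝔊.anti (le_max_right _ _))⟩
  have h1' : IsOrd 𝔊'.E (𝔊'.cls ⟨x'.1, hx'N⟩) := h1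
  have h2' : 𝔊'.E (𝔊'.cls ⟨x'.1, hx'N⟩) (𝔊'.cls ⟨univN T, hUN⟩) := h2
  -- the set of all canonical ordinals is an ordinal
  have hO : IsOrd 𝔊'.E (𝔊'.cls ⟨checkSet univ, hON⟩) := by
    refine ⟨?_, ?_⟩
    · intro y hy z hz
      obtain ⟨a, _, ha⟩ := (E_checkSet hF'.rich hON).1 hy
      obtain ⟨b, _, hb⟩ := (E_rep_check hF'.decC ha).1 hz
      exact (E_checkSet hF'.rich hON).2 ⟨b, trivial, hb⟩
    · intro y hy z hz t ht
      obtain ⟨a, _, ha⟩ := (E_checkSet hF'.rich hON).1 hy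
      obtain ⟨b, hb1, hb⟩ := (E_rep_check hF'.decC ha).1 hz
      obtain ⟨c, hc1, hc⟩ := (E_rep_check hF'.decC hb).1 ht
      exact (E_rep_check hF'.decC ha).2 ⟨c, hc1.trans hb1, hc⟩
  have hno : ¬ 𝔊'.E (𝔊'.cls ⟨checkSet univ, hON⟩) (𝔊'.cls ⟨univN T, hUN⟩) := by
    intro hcon
    obtain ⟨z, hz⟩ := (E_univN hF'.rich hUN).1 hcon
    obtain ⟨k, hk⟩ := rep_cls_iff.1 hz
    obtain ⟨ρ, hρ⟩ := exists_rk z
    exact lt_irrefl _ (hρ ρ (𝔊'.G k) (fmem_congr_right hk (fmem_check_of_mem (mem_univ ρ) _)))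
  have htr : ∀ x, 𝔊'.E x (𝔊'.cls ⟨univN T, hUN⟩) → ∀ y, 𝔊'.E y x →
      𝔊'.E y (𝔊'.cls ⟨univN T, hUN⟩) := by
    have hfo' : FO.{v+2} (fun _ E v => ∀ x, E x (v 0) → ∀ y, E y x → E y (v 0)) :=
      FO.all (FO.imp (FO.mem _ _) (FO.all (FO.imp (FO.mem _ _) (FO.mem _ _))))
    exact (truth_list hfo' 𝔊' [⟨univN T, hUN⟩] ⟨omegaName, hF'.rich.omega_mem⟩).2
      ⟨0, frc_trans _⟩
  rcases V04_trich hF'.rich.zfc h1' hO with h3 | h3 | h3
  · obtain ⟨α, _, hα⟩ := (E_checkSet hF'.rich hON).1 h3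
    obtain ⟨k, hk⟩ := rep_cls_iff.1 hα
    refine hn α (𝔊'.G k) ?_ hk
    exact ((𝔊'.anti (Nat.zero_le k)).trans h0.le).trans (𝔊.anti (le_max_left _ _))
  · exact hno (h3 ▸ h2')
  · exact hno (htr _ h2' _ h3)

end Pool.Agent.KTM
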