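import Pool.Agent.Lib_MP_bf47cd.C03

/-!
# H17-C07: the cardinals of the model
-/

set_option linter.unusedSectionVars false
set_option linter.unusedVariables false

namespace Pool.Agent.KTM

universe u

open Pool.Agent.Forcing Pool.Agent.Forcing.Name Pool.Agent.Inner Set Cardinal Pool.Agent.KT

/-! ### auxiliary facts -/

section C07aux
variable {T W : Type u} [Preorder T] [OrderTop T] [LinearOrder W] [WellFoundedLT W]

private lemma c07_E {𝔊 : Gen T} (hR : Rich 𝔊) {S : Set W} {t : Name T} (ht : t = checkSet S)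
    (h : t ∈ 𝔊.N) {z : 𝔊.M} : 𝔊.E z (𝔊.cls ⟨t, h⟩) ↔ ∃ x ∈ S, Rep 𝔊 z (check x) := by
  subst ht
  exact E_checkSet hR h

private lemma c07_Iio {eN : ULift.{u} ℕ → W} {nW : W} (hN : StrictMono eN)
    (hNr : range eN = Iio nW) (n : ULift.{u} ℕ) : Iio (eN n) = {w | ∃ m < n, w = eN m} := by
  ext w
  constructor
  · intro hw
    have h1 : w ∈ range eN := by
      rw [hNr]
      have h2 : eN n ∈ Iio nW := by rw [← hNr]; exact mem_range_self n
      exact lt_trans (mem_Iio.1 hw) (mem_Iio.1 h2)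
    obtain ⟨m, rfl⟩ := h1
    exact ⟨m, hN.lt_iff_lt.1 hw, rfl⟩
  · rintro ⟨m, hm, rfl⟩
    exact hN hm

private lemma c07_num {eN : ULift.{u} ℕ → W} {nW : W} (hN : StrictMono eN)
    (hNr : range eN = Iio nW) (n : ℕ) :
    ∀ p : T, feq (check (eN ⟨n⟩) : Name T) (num n) p := by
  induction n using Nat.strong_induction_on with
  | _ n ih =>
    intro p
    refine feq_of_models ∅ (by simp) ?_
    intro 𝔊 hR _ _ hx hy
    refine ext hR.zfc fun z => ?_
    have e1 := c07_E hR (check_eq (eN ⟨n⟩)) hx (z := z)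
    have e2 : 𝔊.E z (𝔊.cls ⟨num n, hy⟩) ↔ ∃ m < n, z = hR.nu m := hR.mem_nu
    have e3 : ∀ m < n, (Rep 𝔊 z (check (eN ⟨m⟩)) ↔ z = hR.nu m) := by
      intro m hm
      constructor
      · intro h
        exact (h.congr (n := 0) (ih m hm _)).unique (rep_self (hR.num_mem m))
      · rintro rfl
        exact (rep_self (hR.num_mem m)).congr (n := 0) (feq_symm (ih m hm _))
    rw [e1, e2, c07_Iio hN hNr]
    constructor
    · rintro ⟨_, ⟨⟨m⟩, hm, rfl⟩, h⟩
      have hm' : m < n := hm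
      exact ⟨m, hm', (e3 m hm').1 h⟩
    · rintro ⟨m, hm, h⟩
      exact ⟨_, ⟨⟨m⟩, hm, rfl⟩, (e3 m hm).2 h⟩

private lemma c07_omega {eN : ULift.{u} ℕ → W} {nW : W} (hN : StrictMono eN)
    (hNr : range eN = Iio nW) (p : T) :
    feq (checkSet (range eN) : Name T) omegaName p := by
  refine feq_of_models ∅ (by simp) ?_
  intro 𝔊 hR _ _ hx hy
  refine ext hR.zfc fun z => ?_
  have e1 := c07_E hR rfl hx (z := z)
  have e2 : 𝔊.E z (𝔊.cls ⟨omegaName, hy⟩) ↔ ∃ m, z = hR.nu m := hR.mem_om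
  rw [e1, e2]
  constructor
  · rintro ⟨_, ⟨⟨m⟩, rfl⟩, h⟩
    exact ⟨m, (h.congr (n := 0) (c07_num hN hNr m _)).unique (rep_self (hR.num_mem m))⟩
  · rintro ⟨m, rfl⟩
    exact ⟨_, ⟨⟨m⟩, rfl⟩, (rep_self (hR.num_mem m)).congr (n := 0)
      (feq_symm (c07_num hN hNr m _))⟩

private lemma c07_range {A : Type u} [LinearOrder A] {eA : A → W} (hA : StrictMono eA)
    (hlow : IsLowerSet (range eA)) (a : A) :
    range (fun x : Iio a => eA x.1) = Iio (eA a) := by
  ext w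
  constructor
  · rintro ⟨x, rfl⟩
    exact hA x.2
  · intro hw
    obtain ⟨b, rfl⟩ := hlow (le_of_lt (mem_Iio.1 hw)) (mem_range_self a)
    exact ⟨⟨b, hA.lt_iff_lt.1 hw⟩, rfl⟩

end C07aux

section
variable {T W : Type u} [Preorder T] [OrderTop T] [LinearOrder W] [WellFoundedLT W]
  {𝔊 : Gen T} (hF : Full W 𝔊)
include hF

theorem isOrd_rep {S : Set W} (hlow : IsLowerSet S) {x : 𝔊.M}
    (hx : Rep 𝔊 x (checkSet S)) : IsOrd 𝔊.E x := by
  have key : ∀ {S : Set W}, IsLowerSet S → ∀ {x : 𝔊.M}, Rep 𝔊 x (checkSet S) →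
      IsTrans 𝔊.E x := by
    intro S hlow x hx y hy z hz
    obtain ⟨a, ha, h1⟩ := (E_rep_checkSet hF.decC hx).1 hy
    obtain ⟨b, hb, h2⟩ := (E_rep_check hF.decC h1).1 hz
    exact (E_rep_checkSet hF.decC hx).2 ⟨b, hlow (le_of_lt hb) ha, h2⟩
  refine ⟨key hlow hx, fun y hy => ?_⟩
  obtain ⟨a, ha, h1⟩ := (E_rep_checkSet hF.decC hx).1 hy
  rw [check_eq] at h1
  exact key (isLowerSet_Iio a) h1

/-- `ω` of the model is named by `checkSet (range eN)` -/
theorem isOmega_rep {eN : ULift.{u} ℕ → W} {nW : W} (hN : StrictMono eN)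
    (hNr : range eN = Iio nW) {x : 𝔊.M} (hx : Rep 𝔊 x (checkSet (range eN))) :
    IsOmega 𝔊.E x := by
  rw [hF.rich.isOmega_iff]
  exact (hx.congr (n := 0) (c07_omega hN hNr _)).unique (rep_self hF.rich.omega_mem)

end

section
variable {T W A B : Type u} [Preorder T] [OrderTop T] [LinearOrder W] [WellFoundedLT W]
  [LinearOrder A] {eA : A → W} {eB : B → W} (hA : StrictMono eA)
  (hlow : IsLowerSet (range eA)) (hB : Function.Injective eB)
  {𝔊 : Gen T} (hF : Full W 𝔊)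
include hA hlow hF

/-- `range eA` is a cardinal of the model if no function valued in `T` is forced to inject `A` into
a proper initial segment (`exists_rep_fun` with `eA` and `fun x : Iio a => eA x`, `inj_iff`) -/
theorem isCard_rep (h : ∀ (a : A) (J : PF T A (Iio a)) (q : T), ¬ InjP J q) {x : 𝔊.M}
    (hx : Rep 𝔊 x (checkSet (range eA))) : IsCard 𝔊.E x := by
  refine ⟨isOrd_rep hF hlow hx, fun y hy i hi => ?_⟩
  obtain ⟨_, ⟨a, rfl⟩, h1⟩ := (E_rep_checkSet hF.decC hx).1 hy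
  have hB : Function.Injective (fun x : Iio a => eA x.1) := fun x x' h =>
    Subtype.ext (hA.injective h)
  have h2 : Rep 𝔊 y (checkSet (range (fun x : Iio a => eA x.1))) := by
    rw [c07_range hA hlow, ← check_eq]; exact h1
  have hne : Nonempty (Iio a) := by
    obtain ⟨v, hv, _⟩ := hi.1.2 y hy
    obtain ⟨b, hb, _⟩ := (E_rep_checkSet hF.decC h2).1 (isFun_mem hF.rich.zfc hi.1 hv).2
    obtain ⟨c, _⟩ := hb
    exact ⟨c⟩
  obtain ⟨X, hX⟩ := exists_rep_fun hA.injective hB hF hi.1 hx h2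
  obtain ⟨n, hn⟩ := (inj_iff hA.injective hB hF hX).1 hi.2
  exact h a X _ hn

include hB in
/-- injections of the model from functions valued in `T` (existence by density, `true_of_dense`) -/
theorem exists_inj_rep (a : A) {J : PF T (Iio a) B} (hJ : ∀ q, InjP J q) {x y : 𝔊.M}
    (hx : Rep 𝔊 x (check (eA a))) (hy : Rep 𝔊 y (checkSet (range eB))) :
    ∃ i, IsInj 𝔊.E i x y := by
  have hfo : FO.{u+1} (fun _ E v => ∃ i, IsInj E i (v 0) (v 1)) := FO.ex (FOx.isInj _ _ _)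
  have hA' : Function.Injective (fun x : Iio a => eA x.1) := fun x x' h =>
    Subtype.ext (hA.injective h)
  refine (c03_truth hfo hF (l := [x, y]) (l' := [check (eA a), checkSet (range eB)])
    (.cons hx (.cons hy .nil))).2 ⟨0, ?_⟩
  refine frc_full W hfo _ _ {pfN (fun x : Iio a => eA x.1) eB J} (by simp) ?_
  intro 𝔊' hF' h0 hSN hl
  have haN := hl (check (eA a)) (by simp)
  have hbN := hl (checkSet (range eB)) (by simp)
  have hJN : pfN (fun x : Iio a => eA x.1) eB J ∈ 𝔊'.N := hSN (by simp)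
  have h2 : Rep 𝔊' (𝔊'.cls ⟨_, haN⟩) (checkSet (range (fun x : Iio a => eA x.1))) := by
    rw [c07_range hA hlow, ← check_eq]; exact rep_self haN
  refine ⟨𝔊'.cls ⟨_, hJN⟩, ?_⟩
  exact ⟨isFun_rep hA' hB hF' (rep_self hJN) h2 (rep_self hbN),
    (inj_iff hA' hB hF' (rep_self hJN)).2 ⟨0, hJ _⟩⟩

end

section
variable {T W K I : Type u} [Preorder T] [OrderTop T] [LinearOrder W] [WellFoundedLT W]
  [LinearOrder K] [SuccOrder K] [LinearOrder I] {eK : K → W} {eI : I → W}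
  {eN : ULift.{u} ℕ → W} {kW iW nW : W} (hT : Iface T W K I eK eI eN kW iW nW)
  {𝔊 : Gen T} (hF : Full W 𝔊)
include hT hF

/-- the cardinals `ω, ω₁, ω₂, ω₃` of the model -/
theorem cardinals {w0 w1 w2 w3 : 𝔊.M} (h0 : Rep 𝔊 w0 (checkSet (range eN)))
    (h1 : Rep 𝔊 w1 (checkSet (range eI))) (h2 : Rep 𝔊 w2 (checkSet (range eK)))
    (h3 : Rep 𝔊 w3 (checkSet (univ : Set W))) :
    IsOmega 𝔊.E w0 ∧ IsSuccCard 𝔊.E w0 w1 ∧ IsSuccCard 𝔊.E w1 w2 ∧
      IsSuccCard 𝔊.E w2 w3 := by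
  have lI : IsLowerSet (range eI) := by rw [hT.rangeI]; exact isLowerSet_Iio _
  have lK : IsLowerSet (range eK) := by rw [hT.rangeK]; exact isLowerSet_Iio _
  have rW : range (id : W → W) = Set.univ := range_id
  have lW : IsLowerSet (range (id : W → W)) := by rw [rW]; exact isLowerSet_univ
  have h3' : Rep 𝔊 w3 (checkSet (range (id : W → W))) := by rw [rW]; exact h3
  refine ⟨isOmega_rep hF hT.monoN hT.rangeN h0, ⟨?_, ?_, ?_⟩, ⟨?_, ?_, ?_⟩, ⟨?_, ?_, ?_⟩⟩
  · exact isCard_rep hT.monoI lI hF hT.noInj_I h1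
  · refine (E_rep_checkSet hF.decC h1).2 ⟨nW, ?_, ?_⟩
    · rw [hT.rangeI]; exact hT.nW_lt
    · rw [check_eq, ← hT.rangeN]; exact h0
  · intro y hy
    obtain ⟨_, ⟨a, rfl⟩, ha⟩ := (E_rep_checkSet hF.decC h1).1 hy
    obtain ⟨J, hJ⟩ := hT.inj_I a
    exact exists_inj_rep hT.monoI lI hT.monoN.injective hF a hJ ha h0
  · exact isCard_rep hT.monoK lK hF hT.noInj_K h2
  · refine (E_rep_checkSet hF.decC h2).2 ⟨iW, ?_, ?_⟩
    · rw [hT.rangeK]; exact hT.iW_lt
    · rw [check_eq, ← hT.rangeI]; exact h1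
  · intro y hy
    obtain ⟨_, ⟨a, rfl⟩, ha⟩ := (E_rep_checkSet hF.decC h2).1 hy
    obtain ⟨J, hJ⟩ := hT.inj_K a
    exact exists_inj_rep hT.monoK lK hT.monoI.injective hF a hJ ha h1
  · exact isCard_rep strictMono_id lW hF hT.noInj_W h3'
  · refine (E_rep_checkSet hF.decC h3).2 ⟨kW, mem_univ _, ?_⟩
    rw [check_eq, ← hT.rangeK]; exact h2
  · intro y hy
    obtain ⟨a, _, ha⟩ := (E_rep_checkSet hF.decC h3).1 hy
    obtain ⟨J, hJ⟩ := hT.inj_W a
    exact exists_inj_rep strictMono_id lW hT.monoK.injective hF a hJ ha h2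

end

end Pool.Agent.KTM
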