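import Pool.Agent.Lib_MP_bf47cd.C03

/-!
# H17-C08: power sets of the model
-/

set_option linter.unusedSectionVars false
set_option linter.unusedVariables false

namespace Pool.Agent.KTM

universe u

open Pool.Agent.Forcing Pool.Agent.Forcing.Name Pool.Agent.Inner Set Cardinal Pool.Agent.KT

variable {T W A B : Type u} [Preorder T] [OrderTop T] [LinearOrder W] [WellFoundedLT W]
  {eA : A → W} {eB : B → W} (hA : Function.Injective eA) (hB : Function.Injective eB)

/-- the name of the function `x ↦ {a | S (x, a)}` -/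
noncomputable def powN (eA : A → W) (eB : B → W) (S : PF T (B × A) (ULift.{u} Bool)) :
    Name T :=
  Name.mk B (fun x => opairName (check (eB x))
    (Name.mk {t : A × T // S.val (x, t.1) ⟨true⟩ t.2} (fun t => check (eA t.1.1))
      (fun t => t.1.2))) (fun _ => ⊤)

/-- the `x`-th subset of `A` listed by `S` -/
private def c08_sec (S : PF T (B × A) (ULift.{u} Bool)) (x : B) : PF T A (ULift.{u} Bool) where
  val a b q := S.val (x, a) b q
  mono a b p q h1 h2 := S.mono (x, a) b p q h1 h2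
  dense a b p h := S.dense (x, a) b p h
  uniq a b b' p h1 h2 := S.uniq (x, a) b b' p h1 h2
  total a p := S.total (x, a) p

include hA in
private lemma c08_feq_subN {S S' : PF T A (ULift.{u} Bool)} {p : T}
    (h : PF.EqOn S S' univ p) : feq (subN eA S) (subN eA S') p := by
  refine c03_feq W ∅ (by simp) ?_
  intro 𝔊' hF' h0 _ hN hN'
  refine ext hF'.rich.zfc fun t => ?_
  rw [c03_E_subN hF'.rich hN, c03_E_subN hF'.rich hN']
  constructor
  · rintro ⟨a, n, h1, h2⟩
    exact ⟨a, n, h1, (h a (mem_univ a) ⟨true⟩ _ ((𝔊'.anti (Nat.zero_le n)).trans h0)).1 h2⟩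
  · rintro ⟨a, n, h1, h2⟩
    exact ⟨a, n, h1, (h a (mem_univ a) ⟨true⟩ _ ((𝔊'.anti (Nat.zero_le n)).trans h0)).2 h2⟩

include hA hB

private lemma c08_full {S : PF T (B × A) (ULift.{u} Bool)} (hS : PowP A B S) {𝔊 : Gen T}
    (hF : Full W 𝔊) (hp : powN eA eB S ∈ 𝔊.N) {a b : 𝔊.M}
    (ha : Rep 𝔊 a (checkSet (range eA))) (hb : Rep 𝔊 b (checkSet (range eB))) :
    OntoPow 𝔊.E (𝔊.cls ⟨powN eA eB S, hp⟩) b a := by
  constructor
  · intro x y y' h1 h2
    obtain ⟨i, n, _, h3, h4⟩ := (val_mk hF.rich hp).1 h1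
    obtain ⟨j, m, _, h5, h6⟩ := (val_mk hF.rich hp).1 h2
    have e : i = j := hB (h3.check_inj h5)
    subst e
    exact h4.unique h6
  · intro z hz
    obtain ⟨S', hS'⟩ := exists_rep_sub hA hF hz ha
    have hfo : FO.{u+1} (fun _ E v => ∃ x, E x (v 2) ∧ Val E (v 0) x (v 1)) :=
      FO.ex (FO.and (FO.mem _ _) (FO.val _ _ _))
    have h1 : Frc (fun _ E v => ∃ x, E x (v 2) ∧ Val E (v 0) x (v 1))
        (ev omegaName [powN eA eB S, subN eA S', checkSet (range eB)]) (𝔊.G 0) := by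
      refine Frc.dense hfo fun q _ => ?_
      obtain ⟨q', hq', x, hx⟩ := hS S' q
      refine ⟨q', hq', ?_⟩
      refine frc_full W hfo _ _ {check (eB x)} (by simp) ?_
      intro 𝔊' hF' h0 hSN hl
      have hpN := hl (powN eA eB S) (by simp)
      have hsN := hl (subN eA S') (by simp)
      have hbN := hl (checkSet (range eB)) (by simp)
      have hxN : check (eB x) ∈ 𝔊'.N := hSN (by simp)
      have he : PF.EqOn S' (c08_sec S x) univ (𝔊'.G 0) :=
        PF.EqOn.of_imp fun c _ d r hr h2 => hx c d r (hr.trans h0) h2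
      refine ⟨𝔊'.cls ⟨_, hxN⟩, ?_, ?_⟩
      · change 𝔊'.E (𝔊'.cls ⟨_, hxN⟩) (𝔊'.cls ⟨_, hbN⟩)
        exact (E_checkSet hF'.rich hbN).2 ⟨eB x, mem_range_self x, rep_self hxN⟩
      · change Val 𝔊'.E (𝔊'.cls ⟨_, hpN⟩) (𝔊'.cls ⟨_, hxN⟩) (𝔊'.cls ⟨_, hsN⟩)
        exact (val_mk hF'.rich hpN).2 ⟨x, 0, le_top, rep_self hxN,
          (rep_self hsN).congr (c08_feq_subN hA he)⟩
    exact (c03_truth hfo hF (l := [𝔊.cls ⟨_, hp⟩, z, b])
      (l' := [powN eA eB S, subN eA S', checkSet (range eB)])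
      (.cons (rep_self hp) (.cons hS' (.cons hb .nil)))).2 ⟨0, h1⟩

/-- In full models containing `powN eA eB S` the function maps `range eB` onto the power set of
`range eA` (`exists_rep_sub`; the `x` exists by density). -/
theorem ontoPow_rep {S : PF T (B × A) (ULift.{u} Bool)} (hS : PowP A B S) {𝔊 : Gen T}
    (hF : Full W 𝔊) {a b : 𝔊.M} (ha : Rep 𝔊 a (checkSet (range eA)))
    (hb : Rep 𝔊 b (checkSet (range eB))) : ∃ s, OntoPow 𝔊.E s b a := by
  have hfo : FO.{u+1} (fun _ E v => ∃ s, OntoPow E s (v 1) (v 0)) := FO.ex (FOx.ontoPow _ _ _)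
  have h1 : Frc (fun _ E v => ∃ s, OntoPow E s (v 1) (v 0))
      (ev omegaName [checkSet (range eA), checkSet (range eB)]) (𝔊.G 0) := by
    refine frc_full W hfo _ _ {powN eA eB S} (by simp) ?_
    intro 𝔊' hF' h0 hSN hl
    have haN := hl (checkSet (range eA)) (by simp)
    have hbN := hl (checkSet (range eB)) (by simp)
    have hpN : powN eA eB S ∈ 𝔊'.N := hSN (by simp)
    exact ⟨𝔊'.cls ⟨_, hpN⟩, c08_full hA hB hS hF' hpN (rep_self haN) (rep_self hbN)⟩
  exact (c03_truth hfo hF (l := [a, b])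
    (l' := [checkSet (range eA), checkSet (range eB)]) (.cons ha (.cons hb .nil))).2 ⟨0, h1⟩

end Pool.Agent.KTM
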