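import Pool.Agent.Lib_MP_bf47cd.VDefs
import Pool.Agent.Lib_MP_bf47cd.C07
import Pool.Agent.Lib_MP_bf47cd.C08
import Pool.Agent.Lib_MP_bf47cd.C03z

/-!
# H17-V05: GCH in the model, from the forcing
-/

set_option linter.unusedSectionVars false
set_option linter.unusedVariables false

namespace Pool.Agent.KTM

universe u v w

open Pool.Agent.Forcing Pool.Agent.Forcing.Name Pool.Agent.Inner Set Cardinal Pool.Agent.KT

/-- every `α ≥ nW` is in an interval `[τ, τ')` such that all `a < τ'` are injected into `τ`, and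
`τ'` enumerates the subsets of `τ` -/
def GchP (T : Type u) {O : Type u} [Preorder T] [LinearOrder O] (nW : O) : Prop :=
  ∀ α : O, nW ≤ α → ∃ τ τ' : O, τ ≤ α ∧ α < τ' ∧
    (∀ a < τ', ∃ J : PF T (Iio a) (Iio τ), ∀ q, InjP J q) ∧
    ∃ S : PF T (Iio τ' × Iio τ) (ULift.{u} Bool), PowP (Iio τ) (Iio τ') S

private theorem V05_succ {M : Type w} {E : M → M → Prop} (hE : ModelsZFC E) (x : M) :
    ∃ s, ∀ z, E z s ↔ E z x ∨ z = x := by
  obtain ⟨a, ha⟩ := hE.pairing x x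
  obtain ⟨b, hb⟩ := hE.pairing x a
  obtain ⟨u, hu⟩ := hE.union b
  refine ⟨u, fun z => ?_⟩
  rw [hu]
  constructor
  · rintro ⟨y, hy, hz⟩
    rcases (hb y).1 hy with rfl | rfl
    · exact Or.inl hz
    · rcases (ha z).1 hz with h | h
      · exact Or.inr h
      · exact Or.inr h
  · rintro (hz | rfl)
    · exact ⟨x, (hb x).2 (Or.inl rfl), hz⟩
    · exact ⟨a, (hb a).2 (Or.inr rfl), (ha z).2 (Or.inl rfl)⟩

private theorem V05_ord_mem {M : Type w} {E : M → M → Prop} {x y : M}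
    (hx : IsOrd E x) (h : E y x) : IsOrd E y :=
  ⟨hx.2 y h, fun z hz => hx.2 z (hx.1 y h z hz)⟩

/-- comparability of ordinals in a model of ZFC -/
theorem ord_comp {M : Type w} {E : M → M → Prop} (hE : ModelsZFC E) {x y : M}
    (hx : IsOrd E x) (hy : IsOrd E y) : E x y ∨ x = y ∨ E y x := by
  by_contra hne
  obtain ⟨sx, hsx⟩ := V05_succ hE x
  obtain ⟨sy, hsy⟩ := V05_succ hE y
  obtain ⟨X, hX⟩ := sep hE (R := fun M E v => ∃ y, E y (v 1) ∧
      ¬ (E (v 0) y ∨ v 0 = y ∨ E y (v 0)))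
    (FO.ex (FO.and (FO.mem _ _) (FO.not (FO.or (FO.mem _ _) (FO.or (FO.eq _ _) (FO.mem _ _))))))
    (cons sy (fun _ => sy)) sx
  have hX' : ∀ a, E a X ↔ E a sx ∧ ∃ b, E b sy ∧ ¬ (E a b ∨ a = b ∨ E b a) := hX
  obtain ⟨x1, hx1, hmin1⟩ := hE.foundation X
    ⟨x, (hX' x).2 ⟨(hsx x).2 (Or.inr rfl), y, (hsy y).2 (Or.inr rfl), hne⟩⟩
  obtain ⟨Y, hY⟩ := sep hE (R := fun M E v => ¬ (E (v 1) (v 0) ∨ v 1 = v 0 ∨ E (v 0) (v 1)))
    (FO.not (FO.or (FO.mem _ _) (FO.or (FO.eq _ _) (FO.mem _ _))))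
    (cons x1 (fun _ => x1)) sy
  have hY' : ∀ b, E b Y ↔ E b sy ∧ ¬ (E x1 b ∨ x1 = b ∨ E b x1) := hY
  obtain ⟨h1, b, hb1, hb2⟩ := (hX' x1).1 hx1
  obtain ⟨y1, hy1, hmin2⟩ := hE.foundation Y ⟨b, (hY' b).2 ⟨hb1, hb2⟩⟩
  obtain ⟨h2, h3⟩ := (hY' y1).1 hy1
  have ox1 : IsOrd E x1 := by
    rcases (hsx x1).1 h1 with h | h
    · exact V05_ord_mem hx h
    · rw [h]; exact hx
  have oy1 : IsOrd E y1 := by
    rcases (hsy y1).1 h2 with h | h
    · exact V05_ord_mem hy h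
    · rw [h]; exact hy
  have hxs : ∀ a, E a x1 → E a sx := by
    intro a ha
    rcases (hsx x1).1 h1 with h | h
    · exact (hsx a).2 (Or.inl (hx.1 x1 h a ha))
    · rw [h] at ha; exact (hsx a).2 (Or.inl ha)
  have hys : ∀ a, E a y1 → E a sy := by
    intro a ha
    rcases (hsy y1).1 h2 with h | h
    · exact (hsy a).2 (Or.inl (hy.1 y1 h a ha))
    · rw [h] at ha; exact (hsy a).2 (Or.inl ha)
  have sub1 : ∀ a, E a x1 → E a y1 := by
    intro a ha
    by_contra hc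
    have hn : ¬ E a X := fun h => hmin1 a h ha
    have cmp : E a y1 ∨ a = y1 ∨ E y1 a := by
      by_contra h
      exact hn ((hX' a).2 ⟨hxs a ha, y1, h2, h⟩)
    rcases cmp with h | h | h
    · exact hc h
    · rw [h] at ha; exact h3 (Or.inr (Or.inr ha))
    · exact h3 (Or.inr (Or.inr (ox1.1 a ha y1 h)))
  have sub2 : ∀ b, E b y1 → E b x1 := by
    intro b hb
    by_contra hc
    have hn : ¬ E b Y := fun h => hmin2 b h hb
    have cmp : E x1 b ∨ x1 = b ∨ E b x1 := by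
      by_contra h
      exact hn ((hY' b).2 ⟨hys b hb, h⟩)
    rcases cmp with h | h | h
    · exact h3 (Or.inl (oy1.1 b hb x1 h))
    · rw [← h] at hb; exact h3 (Or.inl hb)
    · exact hc h
  exact h3 (Or.inr (Or.inl (hE.extensionality x1 y1 fun z => ⟨sub1 z, sub2 z⟩)))

variable {T O : Type u} [Preorder T] [OrderTop T] [LinearOrder O] [WellFoundedLT O]

/-- In a full model containing `check α`, `check τ`, `check τ'` and the name of the enumeration:
`α` is injected into `τ`, so `τ = α` if `α` is a cardinal. Every `a < τ'` is injected into `τ = α`,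
so the cardinal successor `k` of `α` contains `τ'` (`ord_comp`). `ontoPow_rep` with
`eA = Subtype.val : Iio τ → O`, `eB = Subtype.val : Iio τ' → O`. -/
theorem frc_gch {nW : O} (h : GchP T nW) {α : O} (hα : nW ≤ α) (q : T) :
    Frc (fun _ E v => IsCard E (v 0) → ∀ k, IsSuccCard E (v 0) k → ∃ s, OntoPow E s k (v 0))
      (ev omegaName [check α]) q := by
  obtain ⟨τ, τ', hτ, hτ', hinj, S, hS⟩ := h α hα
  have hfo : FO.{u+1} (fun _ E v => IsCard E (v 0) →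
      ∀ k, IsSuccCard E (v 0) k → ∃ s, OntoPow E s k (v 0)) :=
    FO.imp (FOx.isCard _) (FO.all (FO.imp (FOx.isSuccCard _ _) (FO.ex (FOx.ontoPow _ _ _))))
  refine frc_full O hfo _ _ {check τ, check τ'} (by simp) ?_
  intro 𝔊 hF h0 hSN hl
  have hαN := hl (check α) (by simp)
  have hτN : check τ ∈ 𝔊.N := hSN (by simp)
  have hτN' : check τ' ∈ 𝔊.N := hSN (by simp)
  change IsCard 𝔊.E (𝔊.cls ⟨_, hαN⟩) → ∀ k, IsSuccCard 𝔊.E (𝔊.cls ⟨_, hαN⟩) k →
    ∃ s, OntoPow 𝔊.E s k (𝔊.cls ⟨_, hαN⟩)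
  intro hc k hk
  have rα := rep_self hαN
  have rτ := rep_self hτN
  have rτ' := rep_self hτN'
  have lid : IsLowerSet (range (id : O → O)) := by rw [range_id]; exact isLowerSet_univ
  have rng : ∀ σ : O, range (Subtype.val : Iio σ → O) = Iio σ := fun σ => Subtype.range_coe
  have hval : ∀ σ : O, Function.Injective (Subtype.val : Iio σ → O) :=
    fun σ => Subtype.val_injective
  have key : ∀ a < τ', ∀ {x y : 𝔊.M}, Rep 𝔊 x (check a) → Rep 𝔊 y (check τ) →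
      ∃ i, IsInj 𝔊.E i x y := by
    intro a ha x y hx hy
    obtain ⟨J, hJ⟩ := hinj a ha
    refine exists_inj_rep strictMono_id lid (hval τ) hF a hJ hx ?_
    rw [rng, ← check_eq]; exact hy
  have e : τ = α := by
    rcases hτ.lt_or_eq with hlt | heq
    · obtain ⟨i, hi⟩ := key α hτ' rα rτ
      exact absurd hi (hc.2 _ ((E_rep_check hF.decC rα).2 ⟨τ, hlt, rτ⟩) i)
    · exact heq
  subst e
  have ot' : IsOrd 𝔊.E (𝔊.cls ⟨_, hτN'⟩) :=
    isOrd_rep hF (isLowerSet_Iio τ') (by rw [← check_eq]; exact rτ')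
  have sub : ∀ z, 𝔊.E z (𝔊.cls ⟨_, hτN'⟩) → 𝔊.E z k := by
    intro z hz
    rcases ord_comp hF.rich.zfc ot' hk.1.1 with h | h | h
    · exact hk.1.1.1 _ h z hz
    · rw [← h]; exact hz
    · exfalso
      obtain ⟨b, hb, rb⟩ := (E_rep_check hF.decC rτ').1 h
      obtain ⟨i, hi⟩ := key b hb rb rα
      exact hk.1.2 _ hk.2.1 i hi
  obtain ⟨s, hs⟩ := ontoPow_rep (hval τ) (hval τ') hS hF
    (a := 𝔊.cls ⟨_, hαN⟩) (b := 𝔊.cls ⟨_, hτN'⟩)
    (by rw [rng, ← check_eq]; exact rα) (by rw [rng, ← check_eq]; exact rτ')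
  exact ⟨s, hs.1, fun z hz => by
    obtain ⟨x, hx, hv⟩ := hs.2 z hz
    exact ⟨x, sub x hx, hv⟩⟩

end Pool.Agent.KTM
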