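import Pool.Agent.Lib_MP_bf47cd.C04

/-!
# H17-C06: the map in the model
-/

set_option linter.unusedSectionVars false
set_option linter.unusedVariables false

namespace Pool.Agent.KTM

universe u

open Pool.Agent.Forcing Pool.Agent.Forcing.Name Pool.Agent.Inner Set Cardinal Pool.Agent.KT

variable {T W K I : Type u} [Preorder T] [OrderTop T] [LinearOrder W] [WellFoundedLT W]
  [LinearOrder K] [WellFoundedLT K] [OrderBot K] [SuccOrder K] [NoMaxOrder K] [LinearOrder I]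
  {eK : K → W} {kW : W} (hK : StrictMono eK) (hKr : range eK = Iio kW)

/-- the name of the map `F` -/
noncomputable def mapN (eK : K → W) (F : PF T K K → PF T K K) : Name T :=
  Name.mk (PF T K K) (fun X => opairName (pfN eK eK X) (pfN eK eK (F X))) (fun _ => ⊤)

/-- values of the map in a rich model -/
lemma C06_val {𝔊 : Gen T} (hR : Rich 𝔊) {F : PF T K K → PF T K K} (h : mapN eK F ∈ 𝔊.N)
    {u v : 𝔊.M} : Val 𝔊.E (𝔊.cls ⟨mapN eK F, h⟩) u v ↔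
      ∃ X, Rep 𝔊 u (pfN eK eK X) ∧ Rep 𝔊 v (pfN eK eK (F X)) := by
  have h1 := val_mk (ι := PF T K K) (A := fun X => pfN eK eK X) (B := fun X => pfN eK eK (F X))
    (c := fun _ => ⊤) hR h (u := u) (v := v)
  constructor
  · intro h2
    obtain ⟨X, n, _, h3, h4⟩ := h1.1 h2
    exact ⟨X, h3, h4⟩
  · rintro ⟨X, h3, h4⟩
    exact h1.2 ⟨X, 0, le_top, h3, h4⟩

include hK hKr

lemma C06_img (c : K) : eK '' (Iio c) = Iio (eK c) := by
  ext w
  constructor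
  · rintro ⟨e, he, rfl⟩
    exact hK he
  · intro hw
    have h1 : eK c ∈ range eK := ⟨c, rfl⟩
    rw [hKr] at h1
    have h2 : w ∈ Iio kW := lt_trans hw h1
    rw [← hKr] at h2
    obtain ⟨e, rfl⟩ := h2
    exact ⟨e, hK.lt_iff_lt.1 hw, rfl⟩

/-- **The map is continuous and onto in the model.** In a full model `𝔊'` below `q0` containing
`mapN eK F` and `treeN eK Y`: values by `val_mk`; every function `x` is `Rep` of some `pfN X`
(`exists_rep_fun`), `F(x)` is named by `pfN (F X)` (existence by density: a full model below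
containing this name); uniqueness by `eq_iff` and the continuity clause; branches by
`frc_isBranch_iff`; continuity with `b = check (eK (succ (succ c)))` for `a = check (eK c)` by
`agree_iff`; onto by density. -/
theorem frc_contOnto {Y : PF T (K × I × K) K} {q0 : T} {F : PF T K K → PF T K K}
    (h1 : ∀ x, MemP Y (F x) q0)
    (h2 : ∀ x x' e q, q ≤ q0 → PF.EqOn x x' (Iic (Order.succ e)) q → ∀ v,
      (F x).val e v q ↔ (F x').val e v q)
    (h3 : ∀ X q, q ≤ q0 → MemP Y X q → ∃ q' ≤ q, ∃ x, PF.EqOn (F x) X univ q') :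
    Frc (fun _ E v => IsContOnto E (v 0) (v 1) (v 2))
      (ev omegaName [checkSet (range eK), treeN eK Y, mapN eK F]) q0 := by
  have hne : Nonempty K := ⟨⊥⟩
  have hinj := hK.injective
  refine frc_full W (FOx.isContOnto 0 1 2) _ q0 ∅ Set.countable_empty ?_
  intro 𝔊 hF h0 _ hl
  have hk : (checkSet (range eK) : Name T) ∈ 𝔊.N := hl _ (by simp)
  have ht : treeN eK Y ∈ 𝔊.N := hl _ (by simp)
  have hf : mapN eK F ∈ 𝔊.N := hl _ (by simp)
  change IsContOnto 𝔊.E (𝔊.cls ⟨_, hk⟩) (𝔊.cls ⟨_, ht⟩) (𝔊.cls ⟨_, hf⟩)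
  have hR := hF.rich
  have hG : ∀ n, 𝔊.G n ≤ q0 := fun n => (𝔊.anti (Nat.zero_le n)).trans h0
  -- formulas
  have fo1 : FO.{u+1} (fun _ E v => ∃ y, Val E (v 0) (v 1) y) := FO.ex (FO.val _ _ _)
  have fo2 : FO.{u+1} (fun _ E v => ∃ x, Val E (v 0) x (v 1)) := FO.ex (FO.val _ _ _)
  have fo3 : FO.{u+1} (fun _ E v => ∃ b, E b (v 0) ∧ ∀ x' y', Val E (v 1) x' y' →
      Agree E b (v 2) x' → Agree E (v 4) (v 3) y') :=
    FO.ex (FO.and (FO.mem _ _) (FO.all (FO.all (FO.imp (FO.val _ _ _)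
      (FO.imp (FOx.agree _ _ _) (FOx.agree _ _ _))))))
  -- equality on everything is preserved
  have hEq : ∀ X X' : PF T K K, ∀ q ≤ q0, PF.EqOn X X' univ q → PF.EqOn (F X) (F X') univ q := by
    intro X X' q hq h a _ b r hr
    exact h2 X X' a r (hr.trans hq) (fun a' _ => (h.mono hr) a' (mem_univ _)) b
  refine ⟨?_, ?_, ?_, ?_, ?_⟩
  · intro z hz
    obtain ⟨u, v, h4, _⟩ := isPair_of_mem_mk (ι := PF T K K) (A := fun X => pfN eK eK X)
      (B := fun X => pfN eK eK (F X)) (c := fun _ => ⊤) hR hf hz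
    exact ⟨u, v, h4⟩
  · intro x hx
    obtain ⟨X, hX⟩ := exists_rep_fun hinj hinj hF hx (rep_self hk) (rep_self hk)
    obtain ⟨x', rfl⟩ := 𝔊.exists_rep x
    obtain ⟨n, hn⟩ := rep_cls_iff.1 hX
    have hfr : Frc (fun _ E v => ∃ y, Val E (v 0) (v 1) y)
        (ev omegaName [mapN eK F, x'.1]) (𝔊.G n) := by
      refine frc_full W fo1 _ _ {pfN eK eK (F X)} (by simp) ?_
      intro 𝔊' hF' h0' hS' hl'
      have hf' : mapN eK F ∈ 𝔊'.N := hl' _ (by simp)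
      have hx' : x'.1 ∈ 𝔊'.N := hl' _ (by simp)
      have hy' : pfN eK eK (F X) ∈ 𝔊'.N := hS' (by simp)
      refine ⟨𝔊'.cls ⟨_, hy'⟩, ?_⟩
      change Val 𝔊'.E (𝔊'.cls ⟨_, hf'⟩) (𝔊'.cls ⟨_, hx'⟩) (𝔊'.cls ⟨_, hy'⟩)
      exact (C06_val hF'.rich hf').2 ⟨X, ⟨⟨x'.1, hx'⟩, rfl, 0, feq_mono hn h0'⟩, rep_self hy'⟩
    obtain ⟨y, hy⟩ := Frc.true_list fo1 𝔊 [⟨_, hf⟩, x'] ⟨omegaName, hR.omega_mem⟩ hfr
    have hy' : Val 𝔊.E (𝔊.cls ⟨_, hf⟩) (𝔊.cls x') y := hy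
    refine ⟨y, hy', fun y2 hy2 => ?_⟩
    obtain ⟨X1, h4, h5⟩ := (C06_val hR hf).1 hy'
    obtain ⟨X2, h6, h7⟩ := (C06_val hR hf).1 hy2
    obtain ⟨m, hm⟩ := (eq_iff hinj hinj hF h6 h4).1 rfl
    exact (eq_iff hinj hinj hF h7 h5).2 ⟨m, hEq X2 X1 _ (hG m) hm⟩
  · intro x y hxy
    obtain ⟨X, h4, h5⟩ := (C06_val hR hf).1 hxy
    refine ⟨isFun_rep hinj hinj hF h4 (rep_self hk) (rep_self hk), ?_⟩
    obtain ⟨y', rfl⟩ := 𝔊.exists_rep y
    obtain ⟨n, hn⟩ := rep_cls_iff.1 h5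
    have h6 : Frc (fun _ E v => IsBranch E (v 0) (v 1) (v 2))
      (ev omegaName [checkSet (range eK), treeN eK Y, pfN eK eK (F X)]) (𝔊.G n) :=
      ((frc_isBranch_iff hK hKr).2 (h1 X)).mono (hG n)
    have h7 : Frc (fun _ E v => IsBranch E (v 0) (v 1) (v 2))
      (ev omegaName [checkSet (range eK), treeN eK Y, y'.1]) (𝔊.G n) := by
      refine frc_congr_list ?_ h6
      exact List.Forall₂.cons (feq_refl _ _) (List.Forall₂.cons (feq_refl _ _)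
        (List.Forall₂.cons (feq_symm hn) List.Forall₂.nil))
    exact Frc.true_list (FOx.isBranch 0 1 2) 𝔊 [⟨_, hk⟩, ⟨_, ht⟩, y'] ⟨omegaName, hR.omega_mem⟩ h7
  · intro y hy
    obtain ⟨X, hX⟩ := exists_rep_fun hinj hinj hF hy.1 (rep_self hk) (rep_self hk)
    obtain ⟨y', rfl⟩ := 𝔊.exists_rep y
    obtain ⟨n, hn⟩ := rep_cls_iff.1 hX
    obtain ⟨n', hn'⟩ := (truth_list (FOx.isBranch 0 1 2) 𝔊 [⟨_, hk⟩, ⟨_, ht⟩, y']
      ⟨omegaName, hR.omega_mem⟩).1 hy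
    have h6 : Frc (fun _ E v => IsBranch E (v 0) (v 1) (v 2))
      (ev omegaName [checkSet (range eK), treeN eK Y, pfN eK eK X]) (𝔊.G (max n n')) := by
      refine frc_congr_list ?_ (hn'.mono (𝔊.anti (le_max_right n n')))
      exact List.Forall₂.cons (feq_refl _ _) (List.Forall₂.cons (feq_refl _ _)
        (List.Forall₂.cons (feq_mono hn (𝔊.anti (le_max_left n n'))) List.Forall₂.nil))
    have h7 := (frc_isBranch_iff hK hKr).1 h6
    have h8 := true_of_dense fo2 𝔊 hF [⟨_, hf⟩, y'] (max n n') (by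
      intro q hq
      obtain ⟨q', hq', x, hx⟩ := h3 X q (hq.trans (hG _))
        (fun η r hr => h7 η r (hr.trans hq))
      refine ⟨q', hq', ?_⟩
      refine frc_full W fo2 _ _ {pfN eK eK x} (by simp) ?_
      intro 𝔊' hF' h0' hS' hl'
      have hf' : mapN eK F ∈ 𝔊'.N := hl' _ (by simp)
      have hy' : y'.1 ∈ 𝔊'.N := hl' _ (by simp)
      have hx' : pfN eK eK x ∈ 𝔊'.N := hS' (by simp)
      refine ⟨𝔊'.cls ⟨_, hx'⟩, ?_⟩
      change Val 𝔊'.E (𝔊'.cls ⟨_, hf'⟩) (𝔊'.cls ⟨_, hx'⟩) (𝔊'.cls ⟨_, hy'⟩)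
      refine (C06_val hF'.rich hf').2 ⟨x, rep_self hx', ⟨⟨y'.1, hy'⟩, rfl, 0, ?_⟩⟩
      have e1 : feq (y'.1) (pfN eK eK X) (𝔊'.G 0) :=
        feq_mono hn (h0'.trans (hq'.trans (hq.trans (𝔊.anti (le_max_left n n')))))
      have e2 : feq (pfN eK eK (F x)) (pfN eK eK X) (𝔊'.G 0) :=
        feq_mono ((feq_pfN_iff hinj hinj).2 hx) h0'
      exact feq_trans e1 (feq_symm e2))
    exact h8
  · intro x y a hxy ha
    obtain ⟨X, h4, h5⟩ := (C06_val hR hf).1 hxy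
    obtain ⟨w, ⟨c, rfl⟩, ha'⟩ := (E_checkSet hR hk).1 ha
    obtain ⟨x', rfl⟩ := 𝔊.exists_rep x
    obtain ⟨y', rfl⟩ := 𝔊.exists_rep y
    obtain ⟨a', rfl⟩ := 𝔊.exists_rep a
    obtain ⟨n1, hn1⟩ := rep_cls_iff.1 h4
    obtain ⟨n2, hn2⟩ := rep_cls_iff.1 h5
    obtain ⟨n3, hn3⟩ := rep_cls_iff.1 ha'
    set n := max n1 (max n2 n3) with hn
    have hfr : Frc (fun _ E v => ∃ b, E b (v 0) ∧ ∀ x' y', Val E (v 1) x' y' →
      Agree E b (v 2) x' → Agree E (v 4) (v 3) y')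
        (ev omegaName [checkSet (range eK), mapN eK F, x'.1, y'.1, a'.1]) (𝔊.G n) := by
      refine frc_full W fo3 _ _ {check (eK (Order.succ (Order.succ c)))} (by simp) ?_
      intro 𝔊' hF' h0' hS' hl'
      have hk' : (checkSet (range eK) : Name T) ∈ 𝔊'.N := hl' _ (by simp)
      have hf' : mapN eK F ∈ 𝔊'.N := hl' _ (by simp)
      have hx' : x'.1 ∈ 𝔊'.N := hl' _ (by simp)
      have hy' : y'.1 ∈ 𝔊'.N := hl' _ (by simp)
      have ha2 : a'.1 ∈ 𝔊'.N := hl' _ (by simp)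
      have hb' : (check (eK (Order.succ (Order.succ c))) : Name T) ∈ 𝔊'.N := hS' (by simp)
      have r1 : Rep 𝔊' (𝔊'.cls ⟨_, hx'⟩) (pfN eK eK X) :=
        ⟨⟨x'.1, hx'⟩, rfl, 0, feq_mono hn1 (h0'.trans (𝔊.anti (by omega)))⟩
      have r2 : Rep 𝔊' (𝔊'.cls ⟨_, hy'⟩) (pfN eK eK (F X)) :=
        ⟨⟨y'.1, hy'⟩, rfl, 0, feq_mono hn2 (h0'.trans (𝔊.anti (by omega)))⟩
      have r3 : Rep 𝔊' (𝔊'.cls ⟨_, ha2⟩) (check (eK c)) :=
        ⟨⟨a'.1, ha2⟩, rfl, 0, feq_mono hn3 (h0'.trans (𝔊.anti (by omega)))⟩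
      refine ⟨𝔊'.cls ⟨_, hb'⟩, ?_, ?_⟩
      · change 𝔊'.E (𝔊'.cls ⟨_, hb'⟩) (𝔊'.cls ⟨_, hk'⟩)
        exact (E_checkSet hF'.rich hk').2 ⟨_, ⟨_, rfl⟩, rep_self hb'⟩
      · intro x'' y'' hv hag
        have hv' : Val 𝔊'.E (𝔊'.cls ⟨_, hf'⟩) x'' y'' := hv
        have hag' : Agree 𝔊'.E (𝔊'.cls ⟨_, hb'⟩) (𝔊'.cls ⟨_, hx'⟩) x'' := hag
        change Agree 𝔊'.E (𝔊'.cls ⟨_, ha2⟩) (𝔊'.cls ⟨_, hy'⟩) y''
        obtain ⟨X2, h6, h7⟩ := (C06_val hF'.rich hf').1 hv'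
        have hb2 : Rep 𝔊' (𝔊'.cls ⟨_, hb'⟩)
            (checkSet (eK '' (Iio (Order.succ (Order.succ c))))) := by
          rw [C06_img hK hKr, ← check_eq]
          exact rep_self hb'
        have hb3 : Rep 𝔊' (𝔊'.cls ⟨_, ha2⟩) (checkSet (eK '' (Iio c))) := by
          rw [C06_img hK hKr, ← check_eq]
          exact r3
        obtain ⟨m, hm⟩ := (agree_iff hinj hinj hF' r1 h6 hb2).1 hag'
        refine (agree_iff hinj hinj hF' r2 h7 hb3).2 ⟨m, ?_⟩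
        intro e he b r hr
        have hGm : 𝔊'.G m ≤ q0 := ((𝔊'.anti (Nat.zero_le m)).trans h0').trans (hG n)
        refine h2 X X2 e r (hr.trans hGm) ?_ b
        intro a1 ha1 b1 r1' hr1
        refine hm a1 ?_ b1 r1' (hr1.trans hr)
        rw [mem_Iio, Order.lt_succ_iff]
        exact (mem_Iic.1 ha1).trans (Order.succ_le_succ (le_of_lt he))
    exact Frc.true_list fo3 𝔊 [⟨_, hk⟩, ⟨_, hf⟩, x', y', a'] ⟨omegaName, hR.omega_mem⟩ hfr

end Pool.Agent.KTM
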