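import Pool.Agent.Lib_MP_bf47cd.V11a
import Pool.Agent.Lib_MP_bf47cd.V11c
import Pool.Agent.Lib_MP_bf47cd.C06
import Pool.Agent.Lib_MP_bf47cd.C07
import Pool.Agent.Lib_MP_bf47cd.C08

/-!
# H17-V11d: the full model from the interface, with `ω₃` embedded as an initial segment of `O`
-/

set_option linter.unusedSectionVars false
set_option linter.unusedVariables false

namespace Pool.Agent.KTM.V

universe u

open Pool.Agent.KTM Pool.Agent.Forcing Pool.Agent.Forcing.Name Pool.Agent.Inner Set Cardinal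
  Pool.Agent.KT

variable {T O W K I : Type u} [Preorder T] [OrderTop T] [LinearOrder O] [WellFoundedLT O]
  [LinearOrder W]
  [LinearOrder K] [WellFoundedLT K] [OrderBot K] [SuccOrder K] [NoMaxOrder K] [LinearOrder I]
  [WellFoundedLT I] {eK : K → W} {eI : I → W} {eN : ULift.{u} ℕ → W} {kW iW nW : W}
  (hT : Iface T W K I eK eI eN kW iW nW) {eW : W → O} (hW : StrictMono eW) {wO : O}
  (hWr : range eW = Iio wO)

include hW hWr in
theorem rcomp {A : Type u} {e : A → W} {x : W} (h : range e = Iio x) :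
    range (eW ∘ e) = Iio (eW x) := by
  rw [Set.range_comp, h]
  ext y
  constructor
  · rintro ⟨z, hz, rfl⟩
    exact hW hz
  · intro hy
    have h1 : y ∈ range eW := by
      rw [hWr]
      have h2 : eW x ∈ range eW := ⟨x, rfl⟩
      rw [hWr] at h2
      exact lt_trans hy h2
    obtain ⟨z, rfl⟩ := h1
    exact ⟨z, hW.lt_iff_lt.1 hy, rfl⟩

include hT hW hWr

/-- the cardinals `ω, ω₁, ω₂, ω₃` of the model -/
theorem cardinals {𝔊 : Gen T} (hF : Full O 𝔊) {w0 w1 w2 w3 : 𝔊.M}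
    (h0 : Rep 𝔊 w0 (checkSet (range (eW ∘ eN))))
    (h1 : Rep 𝔊 w1 (checkSet (range (eW ∘ eI)))) (h2 : Rep 𝔊 w2 (checkSet (range (eW ∘ eK))))
    (h3 : Rep 𝔊 w3 (checkSet (range eW))) :
    IsOmega 𝔊.E w0 ∧ IsSuccCard 𝔊.E w0 w1 ∧ IsSuccCard 𝔊.E w1 w2 ∧
      IsSuccCard 𝔊.E w2 w3 := by
  have rN := rcomp hW hWr hT.rangeN
  have rI := rcomp hW hWr hT.rangeI
  have rK := rcomp hW hWr hT.rangeK
  have mN := hW.comp hT.monoN
  have mI := hW.comp hT.monoI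
  have mK := hW.comp hT.monoK
  have lI : IsLowerSet (range (eW ∘ eI)) := by rw [rI]; exact isLowerSet_Iio _
  have lK : IsLowerSet (range (eW ∘ eK)) := by rw [rK]; exact isLowerSet_Iio _
  have lW : IsLowerSet (range eW) := by rw [hWr]; exact isLowerSet_Iio _
  refine ⟨isOmega_rep hF mN rN h0, ⟨?_, ?_, ?_⟩, ⟨?_, ?_, ?_⟩, ⟨?_, ?_, ?_⟩⟩
  · exact isCard_rep mI lI hF hT.noInj_I h1
  · refine (E_rep_checkSet hF.decC h1).2 ⟨eW nW, ?_, ?_⟩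
    · rw [rI]; exact hW hT.nW_lt
    · rw [check_eq, ← rN]; exact h0
  · intro y hy
    obtain ⟨_, ⟨a, rfl⟩, ha⟩ := (E_rep_checkSet hF.decC h1).1 hy
    obtain ⟨J, hJ⟩ := hT.inj_I a
    exact exists_inj_rep mI lI mN.injective hF a hJ ha h0
  · exact isCard_rep mK lK hF hT.noInj_K h2
  · refine (E_rep_checkSet hF.decC h2).2 ⟨eW iW, ?_, ?_⟩
    · rw [rK]; exact hW hT.iW_lt
    · rw [check_eq, ← rI]; exact h1
  · intro y hy
    obtain ⟨_, ⟨a, rfl⟩, ha⟩ := (E_rep_checkSet hF.decC h2).1 hy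
    obtain ⟨J, hJ⟩ := hT.inj_K a
    exact exists_inj_rep mK lK mI.injective hF a hJ ha h1
  · exact isCard_rep hW lW hF hT.noInj_W h3
  · refine (E_rep_checkSet hF.decC h3).2 ⟨eW kW, mem_range_self _, ?_⟩
    rw [check_eq, ← rK]; exact h2
  · intro y hy
    obtain ⟨_, ⟨a, rfl⟩, ha⟩ := (E_rep_checkSet hF.decC h3).1 hy
    obtain ⟨J, hJ⟩ := hT.inj_W a
    exact exists_inj_rep hW lW mK.injective hF a hJ ha h2

/-- the statements about Kurepa trees, in every full generic model containing the canonical names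
of the cardinals -/
theorem kurepa_model {𝔊 : Gen T} (hF : Full O 𝔊) {w1 w2 w3 : 𝔊.M}
    (h1 : Rep 𝔊 w1 (checkSet (range (eW ∘ eI)))) (h2 : Rep 𝔊 w2 (checkSet (range (eW ∘ eK))))
    (h3 : Rep 𝔊 w3 (checkSet (range eW))) :
    (∃ t, IsKurepa 𝔊.E w1 w2 w3 t) ∧
      ∀ t, IsKurepa 𝔊.E w1 w2 w3 t → ∃ F, IsContOnto 𝔊.E w2 t F := by
  have hK := hW.comp hT.monoK
  have hKr := rcomp hW hWr hT.rangeK
  have hI := hW.comp hT.monoI
  have hIr := rcomp hW hWr hT.rangeI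
  have : Nonempty I := by
    have h : nW ∈ range eI := by rw [hT.rangeI]; exact hT.nW_lt
    obtain ⟨x, _⟩ := h
    exact ⟨x⟩
  have : Nonempty W := ⟨kW⟩
  obtain ⟨a1, rfl, n1, q1⟩ := h1
  obtain ⟨a2, rfl, n2, q2⟩ := h2
  obtain ⟨a3, rfl, n3, q3⟩ := h3
  constructor
  · obtain ⟨Y, Br, hY1, hY2, hY3⟩ := hT.kurepa
    have hR : FO.{u+1} (fun _ E v => ∃ t, IsKurepa E (v 0) (v 1) (v 2) t) :=
      FO.ex (FOx.isKurepa 1 2 3 0)
    have key : Frc (fun _ E v => ∃ t, IsKurepa E (v 0) (v 1) (v 2) t)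
        (ev omegaName [a1.1, a2.1, a3.1]) (𝔊.G (max n1 (max n2 n3))) := by
      refine frc_full O hR [a1.1, a2.1, a3.1] _
        {checkSet (range (eW ∘ eI)), checkSet (range (eW ∘ eK)), checkSet (range eW), treeN (eW ∘ eK) Y}
        (by simp) ?_
      intro 𝔊' hF' h0 hS hl
      have m1 : (checkSet (range (eW ∘ eI)) : Name T) ∈ 𝔊'.N := hS (by simp)
      have m2 : (checkSet (range (eW ∘ eK)) : Name T) ∈ 𝔊'.N := hS (by simp)
      have m3 : (checkSet (range eW) : Name T) ∈ 𝔊'.N := hS (by simp)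
      have m4 : treeN (eW ∘ eK) Y ∈ 𝔊'.N := hS (by simp)
      have l1 : a1.1 ∈ 𝔊'.N := hl a1.1 (by simp)
      have l2 : a2.1 ∈ 𝔊'.N := hl a2.1 (by simp)
      have l3 : a3.1 ∈ 𝔊'.N := hl a3.1 (by simp)
      have c1 : 𝔊'.cls ⟨a1.1, l1⟩ = 𝔊'.cls ⟨_, m1⟩ :=
        (𝔊'.cls_eq).2 ⟨0, feq_mono q1 (h0.trans (𝔊.anti (le_max_left _ _)))⟩
      have c2 : 𝔊'.cls ⟨a2.1, l2⟩ = 𝔊'.cls ⟨_, m2⟩ :=
        (𝔊'.cls_eq).2 ⟨0, feq_mono q2 (h0.trans (𝔊.anti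
          ((le_max_left _ _).trans (le_max_right _ _))))⟩
      have c3 : 𝔊'.cls ⟨a3.1, l3⟩ = 𝔊'.cls ⟨_, m3⟩ :=
        (𝔊'.cls_eq).2 ⟨0, feq_mono q3 (h0.trans (𝔊.anti
          ((le_max_right _ _).trans (le_max_right _ _))))⟩
      have hk := Frc.true_list (FOx.isKurepa 0 1 2 3) 𝔊'
        [⟨_, m1⟩, ⟨_, m2⟩, ⟨_, m3⟩, ⟨_, m4⟩] ⟨omegaName, hF'.rich.omega_mem⟩
        (frc_kurepa hK hKr hI hIr hW.injective Br hY1 hY2 hY3 (𝔊'.G 0))
      change ∃ t, IsKurepa 𝔊'.E (𝔊'.cls ⟨a1.1, l1⟩) (𝔊'.cls ⟨a2.1, l2⟩)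
        (𝔊'.cls ⟨a3.1, l3⟩) t
      rw [c1, c2, c3]
      exact ⟨_, hk⟩
    exact Frc.true_list hR 𝔊 [a1, a2, a3] ⟨omegaName, hF.rich.omega_mem⟩ key
  · intro t ht
    obtain ⟨z, rfl⟩ := 𝔊.exists_rep t
    obtain ⟨n, hn⟩ := (truth_list (FOx.isKurepa 0 1 2 3) 𝔊 [a1, a2, a3, z]
      ⟨omegaName, hF.rich.omega_mem⟩).1 ht
    set N := max n (max n1 (max n2 n3)) with hN
    have b0 : 𝔊.G N ≤ 𝔊.G n := 𝔊.anti (le_max_left _ _)
    have b1 : 𝔊.G N ≤ 𝔊.G n1 := 𝔊.anti ((le_max_left _ _).trans (le_max_right _ _))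
    have b2 : 𝔊.G N ≤ 𝔊.G n2 :=
      𝔊.anti ((le_max_left _ _).trans ((le_max_right _ _).trans (le_max_right _ _)))
    have b3 : 𝔊.G N ≤ 𝔊.G n3 :=
      𝔊.anti ((le_max_right _ _).trans ((le_max_right _ _).trans (le_max_right _ _)))
    have hKur : KurP (eW ∘ eK) (eW ∘ eI) eW z.1 (𝔊.G N) := by
      refine frc_congr_list (l := [a1.1, a2.1, a3.1, z.1]) ?_ (Frc.mono hn b0)
      exact List.Forall₂.cons (feq_mono q1 b1) (List.Forall₂.cons (feq_mono q2 b2)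
        (List.Forall₂.cons (feq_mono q3 b3) (List.Forall₂.cons (feq_refl _ _)
          List.Forall₂.nil)))
    obtain ⟨Y, hY⟩ := exists_Y hK hKr hI hIr hKur
    obtain ⟨X0, hX0⟩ := exists_X0 hK hKr hI hIr hKur hY
    obtain ⟨F, f1, f2, f3⟩ := hT.map Y (𝔊.G N) X0 hX0
    have hcont := frc_contOnto hK hKr f1 f2 f3
    have hR : FO.{u+1} (fun _ E v => ∃ F, IsContOnto E (v 0) (v 1) F) :=
      FO.ex (FOx.isContOnto 1 2 0)
    have key : Frc (fun _ E v => ∃ F, IsContOnto E (v 0) (v 1) F)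
        (ev omegaName [a2.1, z.1]) (𝔊.G N) := by
      refine frc_full O hR [a2.1, z.1] _
        {checkSet (range (eW ∘ eK)), treeN (eW ∘ eK) Y, mapN (eW ∘ eK) F} (by simp) ?_
      intro 𝔊' hF' h0 hS hl
      have m2 : (checkSet (range (eW ∘ eK)) : Name T) ∈ 𝔊'.N := hS (by simp)
      have m4 : treeN (eW ∘ eK) Y ∈ 𝔊'.N := hS (by simp)
      have m5 : mapN (eW ∘ eK) F ∈ 𝔊'.N := hS (by simp)
      have l2 : a2.1 ∈ 𝔊'.N := hl a2.1 (by simp)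
      have l4 : z.1 ∈ 𝔊'.N := hl z.1 (by simp)
      have c2 : 𝔊'.cls ⟨a2.1, l2⟩ = 𝔊'.cls ⟨_, m2⟩ :=
        (𝔊'.cls_eq).2 ⟨0, feq_mono q2 (h0.trans b2)⟩
      have c4 : 𝔊'.cls ⟨z.1, l4⟩ = 𝔊'.cls ⟨_, m4⟩ :=
        (𝔊'.cls_eq).2 ⟨0, feq_mono hY h0⟩
      have hk := Frc.true_list (FOx.isContOnto 0 1 2) 𝔊'
        [⟨_, m2⟩, ⟨_, m4⟩, ⟨_, m5⟩] ⟨omegaName, hF'.rich.omega_mem⟩
        (Frc.mono hcont h0)
      change ∃ F, IsContOnto 𝔊'.E (𝔊'.cls ⟨a2.1, l2⟩) (𝔊'.cls ⟨z.1, l4⟩) F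
      rw [c2, c4]
      exact ⟨_, hk⟩
    exact Frc.true_list hR 𝔊 [a2, z] ⟨omegaName, hF.rich.omega_mem⟩ key

end Pool.Agent.KTM.V
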