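import Pool.Agent.Lib_MP_bf47cd.V02
import Pool.Agent.Lib_MP_bf47cd.V03r
import Pool.Agent.Lib_MP_bf47cd.V04
import Pool.Agent.Lib_MP_bf47cd.V05
import Pool.Agent.Lib_MP_bf47cd.V11d

/-!
# H17-V13: the model of ZFC + GCH from the interface
-/

set_option linter.unusedSectionVars false
set_option linter.unusedVariables false

namespace Pool.Agent.KTM.V

universe u v

open Pool.Agent.KTM Pool.Agent.Forcing Pool.Agent.Forcing.Name Pool.Agent.Inner Set Cardinal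
  Pool.Agent.KT

/-- no element is an element of itself -/
theorem not_E_self {M : Type u} {E : M → M → Prop} (hE : ModelsZFC E) (x : M) : ¬ E x x := by
  intro h
  obtain ⟨s, hs⟩ := hE.pairing x x
  obtain ⟨y, hy, h2⟩ := hE.foundation s ⟨x, (hs x).2 (Or.inl rfl)⟩
  have hyx : y = x := by
    rcases (hs y).1 hy with h3 | h3 <;> exact h3
  subst hyx
  exact h2 y ((hs y).2 (Or.inl rfl)) h

theorem not_E_two {M : Type u} {E : M → M → Prop} (hE : ModelsZFC E) {x y : M} (h : E x y) :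
    ¬ E y x := by
  intro h'
  obtain ⟨s, hs⟩ := hE.pairing x y
  obtain ⟨z, hz, h2⟩ := hE.foundation s ⟨x, (hs x).2 (Or.inl rfl)⟩
  rcases (hs z).1 hz with h3 | h3
  · subst h3
    exact h2 y ((hs y).2 (Or.inr rfl)) h'
  · subst h3
    exact h2 x ((hs x).2 (Or.inl rfl)) h

theorem omega_uniq {M : Type u} {E : M → M → Prop} (hE : ModelsZFC E) {x y : M}
    (hx : IsOmega E x) (hy : IsOmega E y) : x = y :=
  hE.extensionality x y fun z => ⟨fun h => hx.2 y hy.1 z h, fun h => hy.2 x hx.1 z h⟩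

variable {T W K I : Type (v+1)} [Preorder T] [OrderTop T] [LinearOrder W]
  [LinearOrder K] [WellFoundedLT K] [OrderBot K] [SuccOrder K] [NoMaxOrder K] [LinearOrder I]
  [WellFoundedLT I] {eK : K → W} {eI : I → W} {eN : ULift.{v+1} ℕ → W} {kW iW nW : W}
  (hT : Iface T W K I eK eI eN kW iW nW) {eW : W → Ordinal.{v}} (hW : StrictMono eW)
  {wO : Ordinal.{v}} (hWr : range eW = Iio wO)
include hT hW hWr

/-- **The model of ZFC + GCH.** -/
theorem exists_modelGCH (hpool : SmallPool T) (hg : GchP T (eW nW)) :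
    ∃ (M : Type (v+2)) (E : M → M → Prop), ModelsZFC E ∧ OmegaModel E ∧ GCH E ∧
    ∃ w0 w1 w2 w3 : M, IsOmega E w0 ∧ IsSuccCard E w0 w1 ∧ IsSuccCard E w1 w2 ∧
      IsSuccCard E w2 w3 ∧ (∃ t, IsKurepa E w1 w2 w3 t) ∧
      ∀ t, IsKurepa E w1 w2 w3 t → ∃ F, IsContOnto E w2 t F := by
  have rN := rcomp hW hWr hT.rangeN
  have rI := rcomp hW hWr hT.rangeI
  have rK := rcomp hW hWr hT.rangeK
  obtain ⟨𝔊, hF, _, hSN⟩ := exists_full Ordinal.{v} ({checkSet (range (eW ∘ eN)),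
    checkSet (range (eW ∘ eI)), checkSet (range (eW ∘ eK)), checkSet (range eW),
    univN T} : Set (Name T)) (by simp) ⊤
  have m0 : (checkSet (range (eW ∘ eN)) : Name T) ∈ 𝔊.N := hSN (by simp)
  have m1 : (checkSet (range (eW ∘ eI)) : Name T) ∈ 𝔊.N := hSN (by simp)
  have m2 : (checkSet (range (eW ∘ eK)) : Name T) ∈ 𝔊.N := hSN (by simp)
  have m3 : (checkSet (range eW) : Name T) ∈ 𝔊.N := hSN (by simp)
  have m4 : univN T ∈ 𝔊.N := hSN (by simp)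
  have hR := hF.rich
  have hE : ModelsZFC 𝔊.E := hR.zfc
  have hU : IsUniv 𝔊.E (𝔊.cls ⟨univN T, m4⟩) :=
    Frc.true_list (FOx.isUniv 0) 𝔊 [⟨_, m4⟩] ⟨omegaName, hR.omega_mem⟩
      (frc_isUniv hpool (𝔊.G 0))
  -- canonical elements are in `U`
  have memU : ∀ {x : 𝔊.M} {α : Ordinal.{v}}, Rep 𝔊 x (check α) →
      𝔊.E x (𝔊.cls ⟨univN T, m4⟩) := by
    intro x α hx
    obtain ⟨z, hz⟩ := exists_SN_check (T := T) α
    refine (E_univN hR m4).2 ⟨z, ?_⟩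
    obtain ⟨x', rfl, n, hn⟩ := hx
    exact ⟨x', rfl, n, feq_trans hn (hz _)⟩
  have c0 : Rep 𝔊 (𝔊.cls ⟨_, m0⟩) (check (eW nW)) := by
    rw [check_eq, ← rN]; exact rep_self m0
  have c1 : Rep 𝔊 (𝔊.cls ⟨_, m1⟩) (check (eW iW)) := by
    rw [check_eq, ← rI]; exact rep_self m1
  have c2 : Rep 𝔊 (𝔊.cls ⟨_, m2⟩) (check (eW kW)) := by
    rw [check_eq, ← rK]; exact rep_self m2
  have c3 : Rep 𝔊 (𝔊.cls ⟨_, m3⟩) (check wO) := by
    rw [check_eq, ← hWr]; exact rep_self m3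
  obtain ⟨d0, d1, d2, d3⟩ := cardinals hT hW hWr hF (rep_self m0) (rep_self m1) (rep_self m2)
    (rep_self m3)
  obtain ⟨k1, k2⟩ := kurepa_model hT hW hWr hF (rep_self m1) (rep_self m2) (rep_self m3)
  refine ⟨_, cut 𝔊.E (𝔊.cls ⟨univN T, m4⟩), cut_modelsZFC hE hU, cut_omegaModel hE hU
    ⟨hR.om, fun x => ?_⟩, ?_, ⟨_, memU c0⟩, ⟨_, memU c1⟩, ⟨_, memU c2⟩, ⟨_, memU c3⟩, ?_, ?_, ?_,
    ?_, ?_, ?_⟩
  · rw [hR.mem_om]
    exact exists_congr fun n => (Gen.isNum_num hR.num_mem n x).symm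
  · -- GCH
    intro l k hl hk
    rw [cut_isInfCard hE hU] at hl
    rw [cut_isSuccCard hE hU] at hk
    obtain ⟨α, hα⟩ := exists_rep_ord hF m4 hl.1.1 l.2
    have hle : eW nW ≤ α := by
      by_contra hlt
      rw [not_le] at hlt
      have h1 : 𝔊.E l.1 (𝔊.cls ⟨_, m0⟩) :=
        (E_rep_check hF.decC c0).2 ⟨α, hlt, hα⟩
      obtain ⟨w, hw, hw2⟩ := hl.2
      have h2 := omega_uniq hE hw d0
      subst h2
      rcases hw2 with h3 | h3
      · rw [← h3] at h1; exact not_E_self hE _ h1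
      · exact not_E_two hE h1 h3
    obtain ⟨l', hl'⟩ := 𝔊.exists_rep l.1
    rw [← hl'] at hα
    obtain ⟨n, hn⟩ := rep_cls_iff.1 hα
    have hfo : FO.{v+2} (fun _ E v => IsCard E (v 0) → ∀ k, IsSuccCard E (v 0) k →
        ∃ s, OntoPow E s k (v 0)) :=
      FO.imp (FOx.isCard _) (FO.all (FO.imp (FOx.isSuccCard _ _) (FO.ex (FOx.ontoPow _ _ _))))
    have hfr : Frc (fun _ E v => IsCard E (v 0) → ∀ k, IsSuccCard E (v 0) k →
        ∃ s, OntoPow E s k (v 0)) (ev omegaName [l'.1]) (𝔊.G n) := by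
      refine frc_congr_list (l := [check α]) ?_ (frc_gch hg hle (𝔊.G n))
      exact List.Forall₂.cons (feq_symm hn) List.Forall₂.nil
    have h4 := Frc.true_list hfo 𝔊 [l'] ⟨omegaName, hR.omega_mem⟩ hfr
    change IsCard 𝔊.E (𝔊.cls l') → ∀ k, IsSuccCard 𝔊.E (𝔊.cls l') k →
      ∃ s, OntoPow 𝔊.E s k (𝔊.cls l') at h4
    rw [hl'] at h4
    obtain ⟨s, hs⟩ := h4 hl.1 k.1 hk
    exact cut_ontoPow hE hU k l hs
  · exact (cut_isOmega hE hU _).2 d0
  · exact (cut_isSuccCard hE hU _ _).2 d1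
  · exact (cut_isSuccCard hE hU _ _).2 d2
  · exact (cut_isSuccCard hE hU _ _).2 d3
  · obtain ⟨t, ht⟩ := k1
    exact ⟨⟨t, univ_kurepa hE hU (memU c1) (memU c2) (memU c3) ht⟩,
      (cut_isKurepa hE hU _ _ _ _).2 ht⟩
  · intro t ht
    obtain ⟨F, hF'⟩ := k2 t.1 ((cut_isKurepa hE hU _ _ _ _).1 ht)
    exact cut_isContOnto hE hU _ _ hF'

end Pool.Agent.KTM.V
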