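import Pool.Agent.Lib_MP_bf47cd.D02

/-!
# H17-D01: the collapse of `M` to `I` (a well-order of type `ω₁`) with countable conditions
-/

set_option linter.unusedSectionVars false
set_option linter.unusedVariables false

namespace Pool.Agent.KTM

universe u

open Set Cardinal Pool.Agent.KT

class SetupI (I : Type u) [LinearOrder I] : Prop where
  seg : ∀ a : I, (Iio a).Countable
  cof : ∀ s : ℕ → I, ∃ b, ∀ n, s n < b

/-- the collapse: bounded partial functions from `I` to `M` -/
def Coll (I M : Type u) [LinearOrder I] : Type u :=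
  {f : I → Option M // ∃ a, ∀ i, a ≤ i → f i = none}

instance {I M : Type u} [LinearOrder I] : PartialOrder (Coll I M) where
  le q p := ∀ i c, p.1 i = some c → q.1 i = some c
  le_refl p i c h := h
  le_trans r q p h1 h2 i c h := h1 i c (h2 i c h)
  le_antisymm q p h1 h2 := by
    apply Subtype.ext
    funext i
    rcases h : p.1 i with _ | c
    · rcases h' : q.1 i with _ | c
      · rfl
      · rw [h2 i c h'] at h; exact absurd h (by simp)
    · exact h1 i c h

instance {I M : Type u} [LinearOrder I] [Nonempty I] : OrderTop (Coll I M) where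
  top := ⟨fun _ => none, Classical.arbitrary I, fun _ _ => rfl⟩
  le_top p i c h := absurd h (by simp)

variable {I M ι : Type u} [LinearOrder I] [hI : SetupI I]
include hI

private theorem Coll.sigma_D01 (s : ℕ → Coll I M) (hs : Antitone s) :
    ∃ q : Coll I M, ∀ n, q ≤ s n := by
  classical
  choose a ha using fun n => (s n).2
  obtain ⟨b, hb⟩ := hI.cof a
  refine ⟨⟨fun i => if h : ∃ n, (s n).1 i ≠ none then (s h.choose).1 i else none, b, ?_⟩, ?_⟩
  · intro i hi
    have : ¬ ∃ n, (s n).1 i ≠ none := by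
      rintro ⟨n, hn⟩
      exact hn (ha n i ((hb n).le.trans hi))
    exact dif_neg this
  · intro n i c hc
    have h : ∃ n, (s n).1 i ≠ none := ⟨n, by rw [hc]; simp⟩
    change (if h : ∃ n, (s n).1 i ≠ none then (s h.choose).1 i else none) = some c
    rw [dif_pos h]
    obtain ⟨c', hc'⟩ := Option.ne_none_iff_exists'.1 h.choose_spec
    rw [hc']
    rcases le_total h.choose n with hm | hm
    · have h1 : (s n).1 i = some c' := (hs hm) i c' hc'
      rw [hc] at h1
      exact h1.symm
    · have h1 : (s h.choose).1 i = some c := (hs hm) i c hc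
      rw [hc'] at h1
      exact h1

private theorem Coll.card_D01 (hM : #M ≤ #ι) (hι : #ι ^ ℵ₀ = #ι) (hι' : ℵ₀ ≤ #ι)
    (hIι : #I ≤ #ι) : #(Coll I M) ≤ #ι := by
  classical
  choose a ha using fun q : Coll I M => q.2
  have h1 : #(Coll I M) ≤ #(Σ a : I, (Iio a → Option M)) := by
    refine mk_le_of_injective (f := fun q => ⟨a q, fun i => q.1 i.1⟩) ?_
    intro q q' h
    rw [Sigma.mk.inj_iff] at h
    obtain ⟨h2, h3⟩ := h
    apply Subtype.ext
    funext i
    by_cases hi : a q ≤ i
    · rw [ha q i hi, ha q' i (h2 ▸ hi)]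
    · have hi' : i < a q := not_le.1 hi
      have key : ∀ (b b' : I) (f : Iio b → Option M) (f' : Iio b' → Option M), b = b' →
          f ≍ f' → ∀ (hb : i < b) (hb' : i < b'), f ⟨i, hb⟩ = f' ⟨i, hb'⟩ := by
        intro b b' f f' hbb hff hb hb'
        subst hbb
        rw [eq_of_heq hff]
      exact key (a q) (a q') _ _ h2 h3 hi' (h2 ▸ hi')
  refine h1.trans ?_
  rw [mk_sigma]
  have h0 : #ι ≠ 0 := by
    intro h
    rw [h] at hι'
    exact absurd hι' (not_le.2 aleph0_pos)
  have h2 : ∀ b : I, #(Iio b → Option M) ≤ #ι := by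
    intro b
    have e1 : #(Iio b → Option M) = #(Option M) ^ #(Iio b) := by rw [← power_def]
    have e2 : #(Option M) ≤ #ι := by
      rw [mk_option]
      calc #M + 1 ≤ #ι + #ι := add_le_add hM (one_le_aleph0.trans hι')
        _ = #ι := add_eq_self hι'
    have e3 : #(Iio b) ≤ ℵ₀ := (hI.seg b).le_aleph0
    calc #(Iio b → Option M) = #(Option M) ^ #(Iio b) := e1
      _ ≤ #ι ^ #(Iio b) := power_le_power_right e2
      _ ≤ #ι ^ ℵ₀ := power_le_power_left h0 e3
      _ = #ι := hι
  calc Cardinal.sum (fun b : I => #(Iio b → Option M)) ≤ Cardinal.sum (fun _ : I => #ι) :=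
        sum_le_sum _ _ h2
    _ = #I * #ι := by rw [sum_const']
    _ ≤ #ι * #ι := mul_le_mul_left hIι _
    _ = #ι := mul_eq_self hι'

/-- countably closed (unions), and `#(Coll I M) ≤ #ι` (a bounded partial function is given by its
bound `a` and its restriction to the countable set `Iio a`) -/
theorem Coll.setupQ [Nonempty I] (hM : #M ≤ #ι) (hι : #ι ^ ℵ₀ = #ι) (hι' : ℵ₀ ≤ #ι)
    (hIι : #I ≤ #ι) : SetupQ (Coll I M) ι :=
  ⟨fun s hs => Coll.sigma_D01 s hs, Coll.card_D01 hM hι hι' hIι⟩

/-- one more value -/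
private theorem Coll.extend_D01 (q : Coll I M) (i : I) (c : M) (h : q.1 i = none) :
    ∃ q' ≤ q, q'.1 i = some c := by
  classical
  obtain ⟨a, ha⟩ := q.2
  obtain ⟨b, hb⟩ := hI.cof (fun _ => i)
  refine ⟨⟨Function.update q.1 i (some c), max a b, ?_⟩, ?_, ?_⟩
  · intro j hj
    have h1 : j ≠ i := fun h2 => by
      rw [h2] at hj
      exact absurd ((le_max_right a b).trans hj) (not_le.2 (hb 0))
    rw [Function.update_of_ne h1]
    exact ha j ((le_max_left a b).trans hj)
  · intro j d hd
    change Function.update q.1 i (some c) j = some d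
    have h1 : j ≠ i := fun h2 => by
      rw [h2, h] at hd
      exact absurd hd (by simp)
    rw [Function.update_of_ne h1, hd]
  · change Function.update q.1 i (some c) i = some c
    rw [Function.update_self]

/-- the generic surjection: `v i c q := q.1 i = some c`, `PF.exists_ofDense` -/
theorem Coll.exists_gQ [Nonempty M] : ∃ g : PF (Coll I M) I M, DSurj g := by
  obtain ⟨c0⟩ := ‹Nonempty M›
  obtain ⟨g, _, hg⟩ := PF.exists_ofDense
    (fun (i : I) (c : M) (q : Coll I M) => q.1 i = some c)
    (fun i c p q (hq : ∀ i c, p.1 i = some c → q.1 i = some c) h => hq i c h)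
    (fun i c c' p h h' => Option.some.inj (h.symm.trans h'))
    (by
      intro i q
      rcases h : q.1 i with _ | c
      · obtain ⟨q', h1, h2⟩ := Coll.extend_D01 q i c0 h
        exact ⟨q', h1, c0, h2⟩
      · exact ⟨q, le_rfl, c, h⟩)
  refine ⟨g, fun c q => ?_⟩
  obtain ⟨a, ha⟩ := q.2
  obtain ⟨q', h1, h2⟩ := Coll.extend_D01 q a c (ha a le_rfl)
  exact ⟨q', h1, a, hg a c q' h2⟩

end Pool.Agent.KTM
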