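import Pool.Agent.Lib_MP_bf47cd.V01
import Pool.Agent.Lib_MP_bf47cd.C03z

/-!
# H17-V02: absoluteness of the vocabulary between a model and its cut at a universe
-/

set_option linter.unusedSectionVars false
set_option linter.unusedVariables false

namespace Pool.Agent.KTM

open Pool.Agent.Inner Pool.Agent.Forcing

universe w

variable {M : Type w} {E : M → M → Prop} (hE : ModelsZFC E) {U : M} (hU : IsUniv E U)
include hE hU

/-! ### auxiliary lemmas -/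

/-- elements of elements of `U` are in `U` -/
private theorem V02_tr (x : {x // E x U}) {z : M} (h : E z x.1) : E z U := hU.trans x.1 x.2 z h

/-- argument and value of a function in `U` are in `U` -/
private theorem V02_val {f x y : M} (hf : E f U) (h : Val E f x y) : E x U ∧ E y U := by
  obtain ⟨z, hz, hzf⟩ := h
  exact (univ_pair hE hU hz).1 (hU.trans f hf z hzf)

private theorem V02_isUPair (z x y : {x // E x U}) :
    IsUPair (cut E U) z x y ↔ IsUPair E z.1 x.1 y.1 := by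
  constructor
  · intro h u
    constructor
    · intro hu
      rcases (h ⟨u, V02_tr hE hU z hu⟩).1 hu with h1 | h1
      · exact Or.inl (congrArg Subtype.val h1)
      · exact Or.inr (congrArg Subtype.val h1)
    · rintro (h1 | h1)
      · rw [h1]; exact (h x).2 (Or.inl rfl)
      · rw [h1]; exact (h y).2 (Or.inr rfl)
  · intro h u
    constructor
    · intro hu
      rcases (h u.1).1 hu with h1 | h1
      · exact Or.inl (Subtype.ext h1)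
      · exact Or.inr (Subtype.ext h1)
    · rintro (h1 | h1)
      · exact (h u.1).2 (Or.inl (congrArg Subtype.val h1))
      · exact (h u.1).2 (Or.inr (congrArg Subtype.val h1))

/-- a function between elements of `U` is in `U` -/
private theorem V02_fun {f x y : M} (hx : E x U) (hy : E y U) (h : IsFun E f x y) : E f U :=
  univ_rel hE hU hx hy fun z hz => by
    obtain ⟨a, b, h1, h2, h3⟩ := h.1 z hz
    exact ⟨a, b, h1, h2, h3⟩

/-- the set of functions from `x` to `y` is covered by an element of `U` -/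
private theorem V02_funs {x y : M} (hx : E x U) (hy : E y U) :
    ∃ p, E p U ∧ ∀ f, (∀ z, E z f → ∃ a b, E a x ∧ E b y ∧ IsPair E z a b) → E f p := by
  obtain ⟨c, hc⟩ := exists_prod hE x y
  have hcU : E c U := univ_rel hE hU hx hy fun z hz => by
    obtain ⟨a, b, h1, h2, h3⟩ := (hc z).1 hz
    exact ⟨a, b, h1, h2, (isPair_iff hE).2 h3⟩
  obtain ⟨p, hp, hp2⟩ := hU.power c hcU
  refine ⟨p, hp, fun f hf => hp2 f fun z hz => ?_⟩
  obtain ⟨a, b, h1, h2, h3⟩ := hf z hz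
  exact (hc z).2 ⟨a, b, h1, h2, (isPair_iff hE).1 h3⟩

private theorem V02_succ {s x : M} (hx : E x U) (h : IsSucc E s x) : E s U := by
  obtain ⟨z, hz, hxz, _⟩ := hU.pair x x hx hx
  obtain ⟨p, hp, hxp, hzp⟩ := hU.pair x z hx hz
  obtain ⟨u, hu, hu2⟩ := hU.union p hp
  refine univ_sub hE hU hu fun t ht => ?_
  rcases (h t).1 ht with h1 | h1
  · exact hu2 x t hxp h1
  · rw [h1]; exact hu2 z x hzp hxz

theorem cut_sub (x y : {x // E x U}) : Sub (cut E U) x y ↔ Sub E x.1 y.1 := by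
  constructor
  · intro h z hz
    exact h ⟨z, V02_tr hE hU x hz⟩ hz
  · intro h z hz
    exact h z.1 hz

theorem cut_isPair (z x y : {x // E x U}) : IsPair (cut E U) z x y ↔ IsPair E z.1 x.1 y.1 := by
  constructor
  · rintro ⟨a, b, h1, h2, h3⟩
    exact ⟨a.1, b.1, (V02_isUPair hE hU _ _ _).1 h1, (V02_isUPair hE hU _ _ _).1 h2,
      (V02_isUPair hE hU _ _ _).1 h3⟩
  · rintro ⟨a, b, h1, h2, h3⟩
    have ha : E a U := V02_tr hE hU z ((h3 a).2 (Or.inl rfl))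
    have hb : E b U := V02_tr hE hU z ((h3 b).2 (Or.inr rfl))
    exact ⟨⟨a, ha⟩, ⟨b, hb⟩, (V02_isUPair hE hU ⟨a, ha⟩ x x).2 h1,
      (V02_isUPair hE hU ⟨b, hb⟩ x y).2 h2, (V02_isUPair hE hU z ⟨a, ha⟩ ⟨b, hb⟩).2 h3⟩

theorem cut_val (f x y : {x // E x U}) : Val (cut E U) f x y ↔ Val E f.1 x.1 y.1 := by
  constructor
  · rintro ⟨z, h1, h2⟩
    exact ⟨z.1, (cut_isPair hE hU _ _ _).1 h1, h2⟩
  · rintro ⟨z, h1, h2⟩
    have hz : E z U := V02_tr hE hU f h2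
    exact ⟨⟨z, hz⟩, (cut_isPair hE hU ⟨z, hz⟩ x y).2 h1, h2⟩

theorem cut_isFun (f x y : {x // E x U}) : IsFun (cut E U) f x y ↔ IsFun E f.1 x.1 y.1 := by
  constructor
  · rintro ⟨h1, h2⟩
    refine ⟨fun z hz => ?_, fun a ha => ?_⟩
    · obtain ⟨a, b, h3, h4, h5⟩ := h1 ⟨z, V02_tr hE hU f hz⟩ hz
      exact ⟨a.1, b.1, h3, h4, (cut_isPair hE hU _ _ _).1 h5⟩
    · obtain ⟨b, h3, h4⟩ := h2 ⟨a, V02_tr hE hU x ha⟩ ha
      refine ⟨b.1, (cut_val hE hU f _ b).1 h3, fun b' hb' => ?_⟩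
      have hb'U := (V02_val hE hU f.2 hb').2
      exact congrArg Subtype.val (h4 ⟨b', hb'U⟩
        ((cut_val hE hU f ⟨a, V02_tr hE hU x ha⟩ ⟨b', hb'U⟩).2 hb'))
  · rintro ⟨h1, h2⟩
    refine ⟨fun z hz => ?_, fun a ha => ?_⟩
    · obtain ⟨a, b, h3, h4, h5⟩ := h1 z.1 hz
      exact ⟨⟨a, V02_tr hE hU x h3⟩, ⟨b, V02_tr hE hU y h4⟩, h3, h4,
        (cut_isPair hE hU z ⟨a, _⟩ ⟨b, _⟩).2 h5⟩
    · obtain ⟨b, h3, h4⟩ := h2 a.1 ha
      have hbU := (V02_val hE hU f.2 h3).2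
      refine ⟨⟨b, hbU⟩, (cut_val hE hU f a ⟨b, hbU⟩).2 h3, fun b' hb' => ?_⟩
      exact Subtype.ext (h4 b'.1 ((cut_val hE hU f a b').1 hb'))

private theorem V02_isSucc (s x : {x // E x U}) :
    IsSucc (cut E U) s x ↔ IsSucc E s.1 x.1 := by
  constructor
  · intro h z
    constructor
    · intro hz
      rcases (h ⟨z, V02_tr hE hU s hz⟩).1 hz with h1 | h1
      · exact Or.inl h1
      · exact Or.inr (congrArg Subtype.val h1)
    · rintro (h1 | h1)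
      · exact (h ⟨z, V02_tr hE hU x h1⟩).2 (Or.inl h1)
      · rw [h1]; exact (h x).2 (Or.inr rfl)
  · intro h z
    constructor
    · intro hz
      rcases (h z.1).1 hz with h1 | h1
      · exact Or.inl h1
      · exact Or.inr (Subtype.ext h1)
    · rintro (h1 | h1)
      · exact (h z.1).2 (Or.inl h1)
      · exact (h z.1).2 (Or.inr (congrArg Subtype.val h1))

private theorem V02_inductive (x : {x // E x U}) :
    Inductive (cut E U) x ↔ Inductive E x.1 := by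
  constructor
  · rintro ⟨h1, h2⟩
    refine ⟨fun e he => ?_, fun y s hy hs => ?_⟩
    · have heU : E e U := univ_sub hE hU x.2 fun z hz => absurd hz (he z)
      exact h1 ⟨e, heU⟩ fun z hz => he z.1 hz
    · have hyU : E y U := V02_tr hE hU x hy
      have hsU : E s U := V02_succ hE hU hyU hs
      exact h2 ⟨y, hyU⟩ ⟨s, hsU⟩ hy ((V02_isSucc hE hU ⟨s, hsU⟩ ⟨y, hyU⟩).2 hs)
  · rintro ⟨h1, h2⟩
    refine ⟨fun e he => ?_, fun y s hy hs => ?_⟩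
    · exact h1 e.1 fun z hz => he ⟨z, V02_tr hE hU e hz⟩ hz
    · exact h2 y.1 s.1 hy ((V02_isSucc hE hU s y).1 hs)

theorem cut_isOmega (x : {x // E x U}) : IsOmega (cut E U) x ↔ IsOmega E x.1 := by
  constructor
  · rintro ⟨h1, h2⟩
    have h1' := (V02_inductive hE hU x).1 h1
    refine ⟨h1', fun w' hw' => ?_⟩
    obtain ⟨v, hv⟩ := sep hE (R := fun M E v => E (v 0) (v 1)) (FO.mem _ _) (fun _ => w') x.1
    have hv' : ∀ z, E z v ↔ E z x.1 ∧ E z w' := hv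
    have hvU : E v U := univ_sub hE hU x.2 fun z hz => ((hv' z).1 hz).1
    have hvI : Inductive E v := by
      refine ⟨fun e he => (hv' e).2 ⟨h1'.1 e he, hw'.1 e he⟩, fun y s hy hs => ?_⟩
      obtain ⟨h3, h4⟩ := (hv' y).1 hy
      exact (hv' s).2 ⟨h1'.2 y s h3 hs, hw'.2 y s h4 hs⟩
    have h5 := (cut_sub hE hU x ⟨v, hvU⟩).1 (h2 ⟨v, hvU⟩ ((V02_inductive hE hU ⟨v, hvU⟩).2 hvI))
    exact fun z hz => ((hv' z).1 (h5 z hz)).2
  · rintro ⟨h1, h2⟩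
    refine ⟨(V02_inductive hE hU x).2 h1, fun w' hw' => ?_⟩
    exact (cut_sub hE hU x w').2 (h2 w'.1 ((V02_inductive hE hU w').1 hw'))

theorem cut_isTrans (x : {x // E x U}) : IsTrans (cut E U) x ↔ IsTrans E x.1 := by
  constructor
  · intro h y hy z hz
    have hyU := V02_tr hE hU x hy
    exact h ⟨y, hyU⟩ hy ⟨z, hU.trans y hyU z hz⟩ hz
  · intro h y hy z hz
    exact h y.1 hy z.1 hz

theorem cut_isOrd (x : {x // E x U}) : IsOrd (cut E U) x ↔ IsOrd E x.1 := by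
  constructor
  · rintro ⟨h1, h2⟩
    refine ⟨(cut_isTrans hE hU x).1 h1, fun y hy => ?_⟩
    exact (cut_isTrans hE hU ⟨y, V02_tr hE hU x hy⟩).1 (h2 ⟨y, V02_tr hE hU x hy⟩ hy)
  · rintro ⟨h1, h2⟩
    refine ⟨(cut_isTrans hE hU x).2 h1, fun y hy => ?_⟩
    exact (cut_isTrans hE hU y).2 (h2 y.1 hy)

theorem cut_isInj (f x y : {x // E x U}) : IsInj (cut E U) f x y ↔ IsInj E f.1 x.1 y.1 := by
  constructor
  · rintro ⟨h1, h2⟩
    refine ⟨(cut_isFun hE hU f x y).1 h1, fun a a' b hab hab' => ?_⟩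
    have h3 := V02_val hE hU f.2 hab
    have h4 := V02_val hE hU f.2 hab'
    exact congrArg Subtype.val (h2 ⟨a, h3.1⟩ ⟨a', h4.1⟩ ⟨b, h3.2⟩
      ((cut_val hE hU f ⟨a, h3.1⟩ ⟨b, h3.2⟩).2 hab)
      ((cut_val hE hU f ⟨a', h4.1⟩ ⟨b, h3.2⟩).2 hab'))
  · rintro ⟨h1, h2⟩
    refine ⟨(cut_isFun hE hU f x y).2 h1, fun a a' b hab hab' => ?_⟩
    exact Subtype.ext (h2 a.1 a'.1 b.1 ((cut_val hE hU f a b).1 hab)
      ((cut_val hE hU f a' b).1 hab'))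

/-- injections between elements of `U` -/
private theorem V02_inj (x y : {x // E x U}) :
    (∃ i, IsInj (cut E U) i x y) ↔ ∃ i, IsInj E i x.1 y.1 := by
  constructor
  · rintro ⟨i, hi⟩
    exact ⟨i.1, (cut_isInj hE hU i x y).1 hi⟩
  · rintro ⟨i, hi⟩
    have hiU : E i U := V02_fun hE hU x.2 y.2 hi.1
    exact ⟨⟨i, hiU⟩, (cut_isInj hE hU ⟨i, hiU⟩ x y).2 hi⟩

theorem cut_isCard (x : {x // E x U}) : IsCard (cut E U) x ↔ IsCard E x.1 := by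
  constructor
  · rintro ⟨h1, h2⟩
    refine ⟨(cut_isOrd hE hU x).1 h1, fun y hy i hi => ?_⟩
    have hyU := V02_tr hE hU x hy
    obtain ⟨i', hi'⟩ := (V02_inj hE hU x ⟨y, hyU⟩).2 ⟨i, hi⟩
    exact h2 ⟨y, hyU⟩ hy i' hi'
  · rintro ⟨h1, h2⟩
    refine ⟨(cut_isOrd hE hU x).2 h1, fun y hy i hi => ?_⟩
    exact h2 y.1 hy i.1 ((cut_isInj hE hU i x y).1 hi)

theorem cut_isInfCard (x : {x // E x U}) : IsInfCard (cut E U) x ↔ IsInfCard E x.1 := by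
  constructor
  · rintro ⟨h1, w', h2, h3⟩
    refine ⟨(cut_isCard hE hU x).1 h1, w'.1, (cut_isOmega hE hU w').1 h2, ?_⟩
    rcases h3 with h3 | h3
    · exact Or.inl (congrArg Subtype.val h3)
    · exact Or.inr h3
  · rintro ⟨h1, w', h2, h3⟩
    refine ⟨(cut_isCard hE hU x).2 h1, ?_⟩
    rcases h3 with h3 | h3
    · subst h3
      exact ⟨x, (cut_isOmega hE hU x).2 h2, Or.inl rfl⟩
    · have hw : E w' U := V02_tr hE hU x h3
      exact ⟨⟨w', hw⟩, (cut_isOmega hE hU ⟨w', hw⟩).2 h2, Or.inr h3⟩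

theorem cut_isSuccCard (x y : {x // E x U}) :
    IsSuccCard (cut E U) x y ↔ IsSuccCard E x.1 y.1 := by
  constructor
  · rintro ⟨h1, h2, h3⟩
    refine ⟨(cut_isCard hE hU y).1 h1, h2, fun a ha => ?_⟩
    have haU := V02_tr hE hU y ha
    exact (V02_inj hE hU ⟨a, haU⟩ x).1 (h3 ⟨a, haU⟩ ha)
  · rintro ⟨h1, h2, h3⟩
    refine ⟨(cut_isCard hE hU y).2 h1, h2, fun a ha => ?_⟩
    exact (V02_inj hE hU a x).2 (h3 a.1 ha)

/-- cut `s` down to the pairs of an element of `b` and a subset of `a` -/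
theorem cut_ontoPow (b a : {x // E x U}) {s : M} (h : OntoPow E s b.1 a.1) :
    ∃ s' : {x // E x U}, OntoPow (cut E U) s' b a := by
  obtain ⟨p, hp, hp2⟩ := hU.power a.1 a.2
  obtain ⟨s', hs'⟩ := sep hE (R := fun M E v => ∃ x y, E x (v 1) ∧ Sub E y (v 2) ∧
      IsPair E (v 0) x y)
    (FO.ex (FO.ex (FO.and (FO.mem _ _) (FO.and (FO.sub _ _) (FO.isPair _ _ _)))))
    (cons b.1 (fun _ => a.1)) s
  have hs2 : ∀ z, E z s' ↔ E z s ∧ ∃ x y, E x b.1 ∧ Sub E y a.1 ∧ IsPair E z x y := hs'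
  have hsU : E s' U := univ_rel hE hU b.2 hp fun z hz => by
    obtain ⟨_, x, y, h1, h2, h3⟩ := (hs2 z).1 hz
    exact ⟨x, y, h1, hp2 y h2, h3⟩
  have hval : ∀ x y, Val E s' x y → Val E s x y := by
    rintro x y ⟨z, h1, h2⟩
    exact ⟨z, h1, ((hs2 z).1 h2).1⟩
  refine ⟨⟨s', hsU⟩, fun x y y' hxy hxy' => ?_, fun z hz => ?_⟩
  · exact Subtype.ext (h.1 x.1 y.1 y'.1 (hval _ _ ((cut_val hE hU ⟨s', hsU⟩ x y).1 hxy))
      (hval _ _ ((cut_val hE hU ⟨s', hsU⟩ x y').1 hxy')))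
  · have hz' := (cut_sub hE hU z a).1 hz
    obtain ⟨x, hx, q, hq1, hq2⟩ := h.2 z.1 hz'
    have hxU := V02_tr hE hU b hx
    refine ⟨⟨x, hxU⟩, hx, (cut_val hE hU ⟨s', hsU⟩ ⟨x, hxU⟩ z).2 ⟨q, hq1, ?_⟩⟩
    exact (hs2 q).2 ⟨hq2, x, z.1, hx, hz', hq1⟩

theorem cut_isRes (g f a : {x // E x U}) : IsRes (cut E U) g f a ↔ IsRes E g.1 f.1 a.1 := by
  constructor
  · intro h z
    constructor
    · intro hz
      have hzU := V02_tr hE hU g hz
      obtain ⟨h1, x, y, h2, h3⟩ := (h ⟨z, hzU⟩).1 hz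
      exact ⟨h1, x.1, y.1, h2, (cut_isPair hE hU ⟨z, hzU⟩ x y).1 h3⟩
    · rintro ⟨h1, x, y, h2, h3⟩
      have hzU := V02_tr hE hU f h1
      obtain ⟨hx, hy⟩ := (univ_pair hE hU h3).1 hzU
      exact (h ⟨z, hzU⟩).2 ⟨h1, ⟨x, hx⟩, ⟨y, hy⟩, h2,
        (cut_isPair hE hU ⟨z, hzU⟩ ⟨x, hx⟩ ⟨y, hy⟩).2 h3⟩
  · intro h z
    constructor
    · intro hz
      obtain ⟨h1, x, y, h2, h3⟩ := (h z.1).1 hz
      obtain ⟨hx, hy⟩ := (univ_pair hE hU h3).1 z.2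
      exact ⟨h1, ⟨x, hx⟩, ⟨y, hy⟩, h2, (cut_isPair hE hU z ⟨x, hx⟩ ⟨y, hy⟩).2 h3⟩
    · rintro ⟨h1, x, y, h2, h3⟩
      exact (h z.1).2 ⟨h1, x.1, y.1, h2, (cut_isPair hE hU z x y).1 h3⟩

/-- restrictions of elements of `U` are in `U` -/
private theorem V02_res {g f a : M} (hf : E f U) (h : IsRes E g f a) : E g U :=
  univ_sub hE hU hf fun z hz => ((h z).1 hz).1

theorem cut_isTree (k t : {x // E x U}) : IsTree (cut E U) k t ↔ IsTree E k.1 t.1 := by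
  constructor
  · rintro ⟨h1, h2⟩
    have h1' : ∀ s, E s t.1 → ∃ a, E a k.1 ∧ IsFun E s a k.1 := by
      intro s hs
      have hsU := V02_tr hE hU t hs
      obtain ⟨a, ha, h3⟩ := h1 ⟨s, hsU⟩ hs
      exact ⟨a.1, ha, (cut_isFun hE hU ⟨s, hsU⟩ a k).1 h3⟩
    refine ⟨h1', fun s a b r hs hsf hba hr => ?_⟩
    have hsU := V02_tr hE hU t hs
    obtain ⟨a', ha', h3⟩ := h1' s hs
    have haU : E a U := by
      rw [dom_uniq hE hsf h3]
      exact V02_tr hE hU k ha'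
    have hbU : E b U := hU.trans a haU b hba
    have hrU : E r U := V02_res hE hU hsU hr
    exact h2 ⟨s, hsU⟩ ⟨a, haU⟩ ⟨b, hbU⟩ ⟨r, hrU⟩ hs
      ((cut_isFun hE hU ⟨s, hsU⟩ ⟨a, haU⟩ k).2 hsf) hba
      ((cut_isRes hE hU ⟨r, hrU⟩ ⟨s, hsU⟩ ⟨b, hbU⟩).2 hr)
  · rintro ⟨h1, h2⟩
    refine ⟨fun s hs => ?_, fun s a b r hs hsf hba hr => ?_⟩
    · obtain ⟨a, ha, h3⟩ := h1 s.1 hs
      exact ⟨⟨a, V02_tr hE hU k ha⟩, ha, (cut_isFun hE hU s ⟨a, V02_tr hE hU k ha⟩ k).2 h3⟩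
    · exact h2 s.1 a.1 b.1 r.1 hs ((cut_isFun hE hU s a k).1 hsf) hba
        ((cut_isRes hE hU r s b).1 hr)

theorem cut_isBranch (k t x : {x // E x U}) :
    IsBranch (cut E U) k t x ↔ IsBranch E k.1 t.1 x.1 := by
  constructor
  · rintro ⟨h1, h2⟩
    refine ⟨(cut_isFun hE hU x k k).1 h1, fun a s ha hs => ?_⟩
    have haU := V02_tr hE hU k ha
    have hsU : E s U := V02_res hE hU x.2 hs
    exact h2 ⟨a, haU⟩ ⟨s, hsU⟩ ha ((cut_isRes hE hU ⟨s, hsU⟩ x ⟨a, haU⟩).2 hs)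
  · rintro ⟨h1, h2⟩
    refine ⟨(cut_isFun hE hU x k k).2 h1, fun a s ha hs => ?_⟩
    exact h2 a.1 s.1 ha ((cut_isRes hE hU s x a).1 hs)

theorem cut_isLevel (k t a l : {x // E x U}) :
    IsLevel (cut E U) k t a l ↔ IsLevel E k.1 t.1 a.1 l.1 := by
  constructor
  · intro h s
    constructor
    · intro hs
      have hsU := V02_tr hE hU l hs
      obtain ⟨h1, h2⟩ := (h ⟨s, hsU⟩).1 hs
      exact ⟨h1, (cut_isFun hE hU ⟨s, hsU⟩ a k).1 h2⟩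
    · rintro ⟨h1, h2⟩
      have hsU := V02_tr hE hU t h1
      exact (h ⟨s, hsU⟩).2 ⟨h1, (cut_isFun hE hU ⟨s, hsU⟩ a k).2 h2⟩
  · intro h s
    constructor
    · intro hs
      obtain ⟨h1, h2⟩ := (h s.1).1 hs
      exact ⟨h1, (cut_isFun hE hU s a k).2 h2⟩
    · rintro ⟨h1, h2⟩
      exact (h s.1).2 ⟨h1, (cut_isFun hE hU s a k).1 h2⟩

/-- branches of a tree in `U` are in `U` -/
private theorem V02_branch {k t x : M} (hk : E k U) (h : IsBranch E k t x) : E x U :=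
  V02_fun hE hU hk hk h.1

theorem cut_isKurepa (l k m t : {x // E x U}) :
    IsKurepa (cut E U) l k m t ↔ IsKurepa E l.1 k.1 m.1 t.1 := by
  constructor
  · rintro ⟨h1, h2, B, i, h3, h4⟩
    refine ⟨(cut_isTree hE hU k t).1 h1, fun a L ha hL => ?_, B.1, i.1, fun x => ?_,
      (cut_isInj hE hU i m B).1 h4⟩
    · have haU := V02_tr hE hU k ha
      have hLU : E L U := univ_sub hE hU t.2 fun s hs => ((hL s).1 hs).1
      obtain ⟨⟨s, hs⟩, h5⟩ := h2 ⟨a, haU⟩ ⟨L, hLU⟩ ha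
        ((cut_isLevel hE hU k t ⟨a, haU⟩ ⟨L, hLU⟩).2 hL)
      exact ⟨⟨s.1, hs⟩, (V02_inj hE hU ⟨L, hLU⟩ l).1 h5⟩
    · constructor
      · intro hx
        have hxU := V02_tr hE hU B hx
        exact (cut_isBranch hE hU k t ⟨x, hxU⟩).1 ((h3 ⟨x, hxU⟩).1 hx)
      · intro hx
        have hxU := V02_branch hE hU k.2 hx
        exact (h3 ⟨x, hxU⟩).2 ((cut_isBranch hE hU k t ⟨x, hxU⟩).2 hx)
  · rintro ⟨h1, h2, B, i, h3, h4⟩
    obtain ⟨p, hp, hp2⟩ := V02_funs hE hU k.2 k.2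
    have hBU : E B U := univ_sub hE hU hp fun x hx => hp2 x ((h3 x).1 hx).1.1
    refine ⟨(cut_isTree hE hU k t).2 h1, fun a L ha hL => ?_, ⟨B, hBU⟩, ?_⟩
    · obtain ⟨⟨s, hs⟩, h5⟩ := h2 a.1 L.1 ha ((cut_isLevel hE hU k t a L).1 hL)
      exact ⟨⟨⟨s, V02_tr hE hU L hs⟩, hs⟩, (V02_inj hE hU L l).2 h5⟩
    · have hiU : E i U := V02_fun hE hU m.2 hBU h4.1
      refine ⟨⟨i, hiU⟩, fun x => ?_, (cut_isInj hE hU ⟨i, hiU⟩ m ⟨B, hBU⟩).2 h4⟩
      exact (h3 x.1).trans (cut_isBranch hE hU k t x).symm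

private theorem V02_agree (b x x' : {x // E x U}) :
    Agree (cut E U) b x x' ↔ Agree E b.1 x.1 x'.1 := by
  constructor
  · intro h c hc v
    have hcU := V02_tr hE hU b hc
    constructor
    · intro hv
      have hvU := (V02_val hE hU x.2 hv).2
      exact (cut_val hE hU x' ⟨c, hcU⟩ ⟨v, hvU⟩).1 ((h ⟨c, hcU⟩ hc ⟨v, hvU⟩).1
        ((cut_val hE hU x ⟨c, hcU⟩ ⟨v, hvU⟩).2 hv))
    · intro hv
      have hvU := (V02_val hE hU x'.2 hv).2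
      exact (cut_val hE hU x ⟨c, hcU⟩ ⟨v, hvU⟩).1 ((h ⟨c, hcU⟩ hc ⟨v, hvU⟩).2
        ((cut_val hE hU x' ⟨c, hcU⟩ ⟨v, hvU⟩).2 hv))
  · intro h c hc v
    exact (cut_val hE hU x c v).trans ((h c.1 hc v.1).trans (cut_val hE hU x' c v).symm)

/-- the maps are in `U` (a set of pairs of elements of the power set of `k × k`) -/
theorem cut_isContOnto (k t : {x // E x U}) {F : M} (h : IsContOnto E k.1 t.1 F) :
    ∃ F' : {x // E x U}, IsContOnto (cut E U) k t F' := by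
  obtain ⟨h1, h2, h3, h4, h5⟩ := h
  obtain ⟨p, hp, hp2⟩ := V02_funs hE hU k.2 k.2
  have hFU : E F U := univ_rel hE hU hp hp fun z hz => by
    obtain ⟨x, y, hxy⟩ := h1 z hz
    obtain ⟨h6, h7⟩ := h3 x y ⟨z, hxy, hz⟩
    exact ⟨x, y, hp2 x h6.1, hp2 y h7.1.1, hxy⟩
  refine ⟨⟨F, hFU⟩, fun z hz => ?_, fun x hx => ?_, fun x y hxy => ?_, fun y hy => ?_,
    fun x y a hxy ha => ?_⟩
  · obtain ⟨x, y, hxy⟩ := h1 z.1 hz
    obtain ⟨hx, hy⟩ := (univ_pair hE hU hxy).1 z.2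
    exact ⟨⟨x, hx⟩, ⟨y, hy⟩, (cut_isPair hE hU z ⟨x, hx⟩ ⟨y, hy⟩).2 hxy⟩
  · obtain ⟨y, hy, hu⟩ := h2 x.1 ((cut_isFun hE hU x k k).1 hx)
    have hyU := (V02_val hE hU hFU hy).2
    refine ⟨⟨y, hyU⟩, (cut_val hE hU ⟨F, hFU⟩ x ⟨y, hyU⟩).2 hy, fun y' hy' => ?_⟩
    exact Subtype.ext (hu y'.1 ((cut_val hE hU ⟨F, hFU⟩ x y').1 hy'))
  · obtain ⟨h6, h7⟩ := h3 x.1 y.1 ((cut_val hE hU ⟨F, hFU⟩ x y).1 hxy)
    exact ⟨(cut_isFun hE hU x k k).2 h6, (cut_isBranch hE hU k t y).2 h7⟩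
  · obtain ⟨x, hx⟩ := h4 y.1 ((cut_isBranch hE hU k t y).1 hy)
    have hxU := (V02_val hE hU hFU hx).1
    exact ⟨⟨x, hxU⟩, (cut_val hE hU ⟨F, hFU⟩ ⟨x, hxU⟩ y).2 hx⟩
  · obtain ⟨b, hb, h6⟩ := h5 x.1 y.1 a.1 ((cut_val hE hU ⟨F, hFU⟩ x y).1 hxy) ha
    have hbU := V02_tr hE hU k hb
    refine ⟨⟨b, hbU⟩, hb, fun x' y' hxy' hag => ?_⟩
    exact (V02_agree hE hU a y y').2 (h6 x'.1 y'.1 ((cut_val hE hU ⟨F, hFU⟩ x' y').1 hxy')
      ((V02_agree hE hU ⟨b, hbU⟩ x x').1 hag))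

/-- Kurepa trees of `M` are in `U` -/
theorem univ_kurepa {l k m t : M} (hl : E l U) (hk : E k U) (hm : E m U)
    (h : IsKurepa E l k m t) : E t U := by
  obtain ⟨u, hu, hu2⟩ := hU.union k hk
  obtain ⟨p, hp, hp2⟩ := V02_funs hE hU hu hk
  refine univ_sub hE hU hp fun s hs => hp2 s fun z hz => ?_
  obtain ⟨a, ha, hf⟩ := h.1.1 s hs
  obtain ⟨x, y, hx, hy, hxy⟩ := hf.1 z hz
  exact ⟨x, y, hu2 a x ha hx, hy, hxy⟩

end Pool.Agent.KTM
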