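import Pool.Agent.Lib_MP_bf47cd.Setup

/-!
# H17-A02: cardinal arithmetic from the setup classes
-/

set_option linter.unusedSectionVars false

namespace Pool.Agent.KT

universe u

open Set Cardinal

private lemma A02_iUnion_le {c : Cardinal.{u}} (hc : ℵ₀ ≤ c) {J X : Type u} (hJ : #J ≤ c)
    (S : J → Set X) (hS : ∀ j, #(S j) ≤ c) : #(⋃ j, S j) ≤ c := by
  refine mk_iUnion_le_sum_mk.trans ((sum_le_sum _ (fun _ => c) hS).trans ?_)
  rw [sum_const']
  exact (mul_le_mul' hJ le_rfl).trans (mul_eq_self hc).le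

private lemma A02_insert_le {c : Cardinal.{u}} (hc : ℵ₀ ≤ c) {X : Type u} {S : Set X} (a : X)
    (hS : #S ≤ c) : #(insert a S : Set X) ≤ c := by
  refine mk_insert_le.trans ?_
  refine (add_le_add hS (one_le_aleph0.trans hc)).trans ?_
  rw [add_eq_self hc]

private lemma A02_insert_lt {c : Cardinal.{u}} (hc : ℵ₀ ≤ c) {X : Type u} {S : Set X} (a : X)
    (hS : #S < c) : #(insert a S : Set X) < c :=
  mk_insert_le.trans_lt (add_lt_of_lt hc hS (one_lt_aleph0.trans_le hc))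

section K
variable {K ι : Type u} [LinearOrder K] [OrderBot K] [WellFoundedLT K] {m0 : K}
  [hK : SetupK K ι m0]
include hK

variable (ι m0) in
/-- `K` is regular: sets of size at most `#ι` are bounded. (If `s` is unbounded then `K` is the
union of the `Iic x`, `x ∈ s`, so `#K ≤ #ι`.) -/
theorem exists_bdd (s : Set K) (hs : #s ≤ #ι) : ∃ b : K, ∀ x ∈ s, x < b := by
  by_contra hcon
  push Not at hcon
  have h1 : (⋃ x : s, Iic (x : K)) = Set.univ := by
    refine eq_univ_of_forall fun b => ?_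
    obtain ⟨x, hx, hbx⟩ := hcon b
    exact mem_iUnion.2 ⟨⟨x, hx⟩, hbx⟩
  have h2 : #(⋃ x : s, Iic (x : K)) ≤ #ι := by
    refine A02_iUnion_le hK.inf hs _ fun x => ?_
    rw [← Iio_insert]
    exact A02_insert_le hK.inf _ (hK.seg _)
  rw [h1, mk_univ] at h2
  exact absurd hK.big (not_lt.2 h2)

variable (ι m0) in
theorem exists_bdd_range {J : Type u} (hJ : #J ≤ #ι) (f : J → K) : ∃ b : K, ∀ j, f j < b := by
  obtain ⟨b, hb⟩ := exists_bdd ι m0 (range f) (mk_range_le.trans hJ)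
  exact ⟨b, fun j => hb _ (mem_range_self j)⟩

variable (K m0) in
theorem card_iUnion_le {J X : Type u} (hJ : #J ≤ #ι) (S : J → Set X) (hS : ∀ j, #(S j) ≤ #ι) :
    #(⋃ j, S j) ≤ #ι :=
  A02_iUnion_le hK.inf hJ S hS

variable (K m0) in
theorem card_union_le {X : Type u} {S T : Set X} (hS : #S ≤ #ι) (hT : #T ≤ #ι) :
    #(S ∪ T : Set X) ≤ #ι :=
  (mk_union_le S T).trans ((add_le_add hS hT).trans (add_eq_self hK.inf).le)

variable (K m0) in
theorem card_prod_le {X Y : Type u} (hX : #X ≤ #ι) (hY : #Y ≤ #ι) : #(X × Y) ≤ #ι := by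
  rw [← mul_def]
  exact (mul_le_mul' hX hY).trans (mul_eq_self hK.inf).le

variable (K m0) in
/-- sequences of elements of a set of size at most `#ι` (from `#ι ^ ℵ₀ = #ι`) -/
theorem card_seq_le {X : Type u} (hX : #X ≤ #ι) : #(ℕ → X) ≤ #ι := by
  rw [mk_arrow]
  simp only [mk_nat, lift_aleph0, lift_uzero]
  exact (power_le_power_right hX).trans hK.pow.le

variable (ι m0) in
theorem card_Iic_le (e : K) : #(Iic e) ≤ #ι := by
  rw [← Iio_insert]
  exact A02_insert_le hK.inf _ (hK.seg _)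

variable (ι) in
theorem bot_lt_m0 : ⊥ < m0 := by
  have h1 : (Iio m0).Nonempty := by
    rw [nonempty_iff_ne_empty]
    intro h
    have h2 := hK.card_m0
    rw [h, mk_eq_zero] at h2
    have h3 := hK.inf
    rw [← h2] at h3
    exact absurd h3 (not_le.2 aleph0_pos)
  obtain ⟨x, hx⟩ := h1
  exact bot_le.trans_lt hx

variable (ι m0) in
/-- two disjoint sets of `#ι` nonzero values below `m0` -/
theorem exists_two_sets : ∃ M0 M1 : Set K, (∀ c ∈ M0, ⊥ < c ∧ c < m0) ∧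
    (∀ c ∈ M1, ⊥ < c ∧ c < m0) ∧ Disjoint M0 M1 ∧ #M0 = #ι ∧ #M1 = #ι := by
  classical
  have h1 : #(Option (ι ⊕ ι)) = #(Iio m0) := by
    rw [mk_option, mk_sum, lift_id, hK.card_m0, add_eq_self hK.inf]
    exact add_one_eq hK.inf
  obtain ⟨e⟩ := Cardinal.eq.1 h1
  set b : Iio m0 := ⟨⊥, bot_lt_m0 ι⟩ with hb
  set e' : Option (ι ⊕ ι) ≃ Iio m0 := (Equiv.swap none (e.symm b)).trans e with he'
  have hnone : e' none = b := by
    simp [he']
  have hinj : ∀ i j : Option (ι ⊕ ι), ((e' i : Iio m0) : K) = e' j → i = j := fun i j h =>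
    e'.injective (Subtype.ext h)
  have hpos : ∀ i : ι ⊕ ι, ⊥ < ((e' (some i) : Iio m0) : K) := by
    intro i
    rw [bot_lt_iff_ne_bot]
    intro h
    have h2 : ((e' (some i) : Iio m0) : K) = e' none := by rw [hnone, h]
    exact Option.some_ne_none _ (hinj _ _ h2)
  refine ⟨range fun i => ((e' (some (Sum.inl i)) : Iio m0) : K),
    range fun i => ((e' (some (Sum.inr i)) : Iio m0) : K), ?_, ?_, ?_, ?_, ?_⟩
  · rintro c ⟨i, rfl⟩
    exact ⟨hpos _, (e' _).2⟩
  · rintro c ⟨i, rfl⟩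
    exact ⟨hpos _, (e' _).2⟩
  · rw [Set.disjoint_left]
    rintro c ⟨i, rfl⟩ ⟨j, hj⟩
    have h3 := hinj _ _ hj
    simp at h3
  · refine mk_range_eq _ fun i j h => ?_
    have h3 := hinj _ _ h
    simpa using h3
  · refine mk_range_eq _ fun i j h => ?_
    have h3 := hinj _ _ h
    simpa using h3

/-- a set of size at most `#ι` injects into any set of size `#ι` -/
theorem exists_injOn {X : Type u} (S : Set X) (hS : #S ≤ #ι) (M : Set K) (hM : #M = #ι) :
    ∃ j : X → K, InjOn j S ∧ ∀ x ∈ S, j x ∈ M := by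
  classical
  rw [← hM] at hS
  obtain ⟨f⟩ := (le_def S M).1 hS
  refine ⟨fun x => if h : x ∈ S then (f ⟨x, h⟩ : K) else ⊥, ?_, ?_⟩
  · intro x hx y hy hxy
    simp only [dif_pos hx, dif_pos hy] at hxy
    have := f.injective (Subtype.ext hxy)
    simpa using this
  · intro x hx
    simp only [dif_pos hx]
    exact (f ⟨x, hx⟩).2

variable (K m0) in
/-- the least `Θ` with `#ι < 2 ^ Θ`, as a well-order -/
theorem exists_Theta : ∃ (Θ : Type u) (_ : LinearOrder Θ) (_ : WellFoundedLT Θ), #Θ ≤ #ι ∧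
    (∀ t : Θ, #(Iio t → Bool) ≤ #ι) ∧ #ι < #(Θ → Bool) := by
  have hne : {c : Cardinal.{u} | #ι < 2 ^ c}.Nonempty := ⟨#ι, cantor _⟩
  set θ : Cardinal.{u} := sInf {c : Cardinal.{u} | #ι < 2 ^ c} with hθ
  have h1 : #ι < 2 ^ θ := csInf_mem hne
  have h2 : ∀ c < θ, 2 ^ c ≤ #ι := by
    intro c hc
    by_contra hcon
    rw [not_le] at hcon
    exact absurd (csInf_le' (show c ∈ {c : Cardinal.{u} | #ι < 2 ^ c} from hcon)) (not_le.2 hc)
  have h3 : θ ≤ #ι := csInf_le' (show #ι ∈ {c : Cardinal.{u} | #ι < 2 ^ c} from cantor _)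
  refine ⟨θ.ord.ToType, inferInstance, inferInstance, ?_, ?_, ?_⟩
  · rw [mk_ord_toType]
    exact h3
  · intro t
    have h4 : #(Iio t) < θ := by
      simpa using mk_Iio_lt t (by simp)
    have h5 : #(Iio t → Bool) = 2 ^ #(Iio t) := by simp
    rw [h5]
    exact h2 _ h4
  · have h5 : #(θ.ord.ToType → Bool) = 2 ^ θ := by simp
    rw [h5]
    exact h1

end K

section W
variable {K ι W : Type u} [LinearOrder K] [OrderBot K] [WellFoundedLT K] {m0 : K}
  [LinearOrder W] [OrderBot W] [WellFoundedLT W] {chi : W → W}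
  [hK : SetupK K ι m0] [hW : SetupW K ι W chi]
include hK hW

variable (K m0 chi) in
theorem ι_lt_W : #ι < #W :=
  hK.big.trans hW.K_lt

variable (K ι m0 chi) in
theorem aleph0_lt_W : ℵ₀ < #W :=
  hK.inf.trans_lt (hK.big.trans hW.K_lt)

variable (K ι m0 chi) in
theorem mul_lt_W {c d : Cardinal.{u}} (hc : c < #W) (hd : d < #W) : c * d < #W :=
  mul_lt_of_lt (aleph0_lt_W K ι m0 chi).le hc hd

variable (K ι m0 chi) in
theorem pow_lt_W {c d : Cardinal.{u}} (hc : c < #W) (hd : d < #W) : c ^ d < #W := by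
  have h1 : c ^ d ≤ 2 ^ (c * d) := by
    rw [power_mul]
    exact power_le_power_right (cantor c).le
  exact h1.trans_lt (hW.strong _ (mul_lt_W K ι m0 chi hc hd))

variable (K ι m0 chi) in
private theorem A02_exists_Iio {c : Cardinal.{u}} (hc : c < #W) : ∃ w : W, c ≤ #(Iio w) := by
  obtain ⟨T, hT⟩ := le_mk_iff_exists_set.1 hc.le
  obtain ⟨b, hb⟩ := hW.reg T (hT.trans_lt hc)
  refine ⟨b, ?_⟩
  rw [← hT]
  exact mk_le_mk_of_subset hb

variable (K ι m0 chi) in
theorem iUnion_lt_W {J X : Type u} (hJ : #J < #W) (S : J → Set X) (hS : ∀ j, #(S j) < #W) :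
    #(⋃ j, S j) < #W := by
  choose w hw using fun j => A02_exists_Iio K ι m0 chi (hS j)
  obtain ⟨b, hb⟩ := hW.reg (range w) (mk_range_le.trans_lt hJ)
  have h1 : #(⋃ j, S j) ≤ #J * #(Iio b) := by
    refine mk_iUnion_le_sum_mk.trans ((sum_le_sum _ (fun _ => #(Iio b)) fun j => ?_).trans ?_)
    · exact (hw j).trans (mk_le_mk_of_subset fun x hx => lt_trans hx (hb _ (mem_range_self j)))
    · rw [sum_const']
  exact h1.trans_lt (mul_lt_W K ι m0 chi hJ (hW.seg b))

variable (K ι m0 chi) in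
/-- functions from a type of size `< #W` to `W` are bounded -/
theorem exists_bddW {J : Type u} (hJ : #J < #W) (f : J → W) : ∃ b : W, ∀ j, f j < b := by
  obtain ⟨b, hb⟩ := hW.reg (range f) (mk_range_le.trans_lt hJ)
  exact ⟨b, fun j => hb _ (mem_range_self j)⟩

variable (K ι m0 chi) in
/-- closure points of large cofinality: for `F : W → W` and `b1` there is `b0 > b1` closed under
`F` such that every set of at most `#ι` elements below `b0` is bounded below `b0`
(iterate `F` along `K`) -/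
theorem exists_closurePt (F : W → W) (b1 : W) : ∃ b0, b1 < b0 ∧ (∀ b < b0, F b < b0) ∧
    ∀ S : Set W, #S ≤ #ι → (∀ ξ ∈ S, ξ < b0) → ∃ b < b0, ∀ ξ ∈ S, ξ < b := by
  classical
  -- one step of the iteration
  have hstep : ∀ (k : K) (r : (j : K) → j < k → W), ∃ b : W, b1 < b ∧
      ∀ (j : K) (hj : j < k), r j hj < b ∧ ∀ x ≤ r j hj, F x < b := by
    intro k r
    set A : Iio k → Set W := fun j => insert (r j.1 j.2) (F '' (Iic (r j.1 j.2))) with hA
    have hk : #(Iio k) < #W := (hK.seg k).trans_lt (hK.big.trans hW.K_lt)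
    have hinf := (aleph0_lt_W K ι m0 chi).le
    have hAlt : ∀ j, #(A j) < #W := by
      intro j
      refine A02_insert_lt hinf _ (mk_image_le.trans_lt ?_)
      rw [← Iio_insert]
      exact A02_insert_lt hinf _ (hW.seg _)
    obtain ⟨b, hb⟩ := hW.reg (insert b1 (⋃ j, A j))
      (A02_insert_lt hinf _ (iUnion_lt_W K ι m0 chi hk A hAlt))
    refine ⟨b, hb _ (mem_insert _ _), fun j hj => ⟨?_, fun x hx => ?_⟩⟩
    · exact hb _ (mem_insert_of_mem _ (mem_iUnion.2 ⟨⟨j, hj⟩, mem_insert _ _⟩))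
    · exact hb _ (mem_insert_of_mem _ (mem_iUnion.2 ⟨⟨j, hj⟩,
        mem_insert_of_mem _ (mem_image_of_mem F hx)⟩))
  choose G hG1 hG2 using hstep
  set g : K → W := (wellFounded_lt (α := K)).fix G with hg
  have hgk : ∀ k, g k = G k (fun j _ => g j) := fun k => WellFounded.fix_eq _ _ _
  have hg1 : ∀ k, b1 < g k := by
    intro k
    rw [hgk k]
    exact hG1 _ _
  have hg2 : ∀ k j, j < k → g j < g k := by
    intro k j hj
    have := (hG2 k (fun j _ => g j) j hj).1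
    rwa [← hgk k] at this
  have hg3 : ∀ k j, j < k → ∀ x ≤ g j, F x < g k := by
    intro k j hj x hx
    have := (hG2 k (fun j _ => g j) j hj).2 x hx
    rwa [← hgk k] at this
  have hnomax : ∀ j : K, ∃ k, j < k := by
    intro j
    obtain ⟨k, hk⟩ := exists_bdd ι m0 ({j} : Set K)
      (by rw [mk_singleton]; exact one_le_aleph0.trans hK.inf)
    exact ⟨k, hk j rfl⟩
  obtain ⟨c, hc⟩ := exists_bddW K ι m0 chi hW.K_lt g
  have hne : {b : W | ∀ k, g k < b}.Nonempty := ⟨c, hc⟩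
  set b0 : W := (wellFounded_lt (α := W)).min {b : W | ∀ k, g k < b} hne with hb0
  have hb0mem : ∀ k, g k < b0 := (wellFounded_lt (α := W)).min_mem _ hne
  have hb0min : ∀ b < b0, ∃ k, b ≤ g k := by
    intro b hb
    by_contra hcon
    push Not at hcon
    exact (wellFounded_lt (α := W)).not_lt_min {b : W | ∀ k, g k < b} hcon hb
  refine ⟨b0, (hg1 ⊥).trans (hb0mem ⊥), ?_, ?_⟩
  · intro b hb
    obtain ⟨j, hj⟩ := hb0min b hb
    obtain ⟨k, hk⟩ := hnomax j
    exact (hg3 k j hk b hj).trans (hb0mem k)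
  · intro S hS hSb
    have h1 : ∀ ξ : S, ∃ k, (ξ : W) ≤ g k := fun ξ => hb0min _ (hSb _ ξ.2)
    choose kk hkk using h1
    obtain ⟨k, hk⟩ := exists_bdd_range ι m0 hS kk
    refine ⟨g k, hb0mem k, fun ξ hξ => ?_⟩
    exact (hkk ⟨ξ, hξ⟩).trans_lt (hg2 _ _ (hk ⟨ξ, hξ⟩))

variable (K m0) in
/-- permutations moving the labels in `S` that are not below `b0` away from `S'` -/
theorem exists_goodPerm (b0 : W) (S S' : Set W) (hS : #S ≤ #ι) (hS' : #S' ≤ #ι) :
    ∃ π : Equiv.Perm W, GoodPerm chi b0 π ∧ ∀ ξ ∈ S, b0 ≤ ξ → π ξ ∉ S' := by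
  classical
  have hfib : ∀ χ : W, #({ξ | ξ ∈ S ∧ chi ξ = χ} : Set W) ≤
      #(({ξ | b0 ≤ ξ ∧ chi ξ = χ} \ (S ∪ S') : Set W)) := by
    intro χ
    have h1 : #({ξ | ξ ∈ S ∧ chi ξ = χ} : Set W) ≤ #ι :=
      (mk_le_mk_of_subset fun x hx => hx.1).trans hS
    refine h1.trans ?_
    by_contra hcon
    rw [not_le] at hcon
    have h2 : #({ξ | b0 ≤ ξ ∧ chi ξ = χ} : Set W) ≤ #ι := by
      have h3 : ({ξ | b0 ≤ ξ ∧ chi ξ = χ} : Set W) ⊆
          ({ξ | b0 ≤ ξ ∧ chi ξ = χ} \ (S ∪ S')) ∪ (S ∪ S') := by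
        intro x hx
        by_cases hxS : x ∈ S ∪ S'
        · exact Or.inr hxS
        · exact Or.inl ⟨hx, hxS⟩
      exact (mk_le_mk_of_subset h3).trans
        (card_union_le K m0 hcon.le (card_union_le K m0 hS hS'))
    exact absurd (hW.chi_fib χ b0) (not_lt.2 h2)
  choose e _ using fun χ => (show ∃ f : ({ξ | ξ ∈ S ∧ chi ξ = χ} : Set W) ↪
    (({ξ | b0 ≤ ξ ∧ chi ξ = χ} \ (S ∪ S') : Set W)), True from by
      obtain ⟨f⟩ := (le_def _ _).1 (hfib χ)
      exact ⟨f, trivial⟩)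
  set g : W → W := fun x => if h : x ∈ S then (e (chi x) ⟨x, h, rfl⟩ : W) else x with hg
  have hgS : ∀ x (h : x ∈ S), g x = (e (chi x) ⟨x, h, rfl⟩ : W) := fun x h => by
    simp only [hg, dif_pos h]
  have hgb : ∀ x ∈ S, b0 ≤ g x := fun x h => by
    rw [hgS x h]
    exact (e (chi x) ⟨x, h, rfl⟩).2.1.1
  have hgchi : ∀ x ∈ S, chi (g x) = chi x := fun x h => by
    rw [hgS x h]
    exact (e (chi x) ⟨x, h, rfl⟩).2.1.2
  have hgn : ∀ x ∈ S, g x ∉ S ∪ S' := fun x h => by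
    rw [hgS x h]
    exact (e (chi x) ⟨x, h, rfl⟩).2.2
  have hginj : ∀ x ∈ S, ∀ y ∈ S, g x = g y → x = y := by
    intro x hx y hy hxy
    have h1 : chi x = chi y := by rw [← hgchi x hx, ← hgchi y hy, hxy]
    have key : ∀ (χ χ' : W) (h : χ = χ') (hx' : chi x = χ) (hy' : chi y = χ'),
        (e χ ⟨x, hx, hx'⟩ : W) = (e χ' ⟨y, hy, hy'⟩ : W) → x = y := by
      intro χ χ' h hx' hy' hh
      subst h
      have := (e χ).injective (Subtype.ext hh)
      simpa using this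
    rw [hgS x hx, hgS y hy] at hxy
    exact key _ _ h1 rfl rfl hxy
  set S1 : Set W := {ξ | ξ ∈ S ∧ b0 ≤ ξ} with hS1
  set σ : W → W := fun x => if x ∈ S1 then g x else
    if h : ∃ y ∈ S1, g y = x then h.choose else x with hσ
  have hσ1 : ∀ x ∈ S1, σ x = g x := fun x h => by simp only [hσ, if_pos h]
  have hσ2 : ∀ x ∈ S1, σ (g x) = x := by
    intro x hx
    have h1 : g x ∉ S1 := fun h => hgn x hx.1 (Or.inl h.1)
    have h2 : ∃ y ∈ S1, g y = g x := ⟨x, hx, rfl⟩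
    simp only [hσ, if_neg h1, dif_pos h2]
    exact hginj _ h2.choose_spec.1.1 _ hx.1 h2.choose_spec.2
  have hσ3 : ∀ x, x ∉ S1 → (¬ ∃ y ∈ S1, g y = x) → σ x = x := fun x h h' => by
    simp only [hσ, if_neg h, dif_neg h']
  have hinv : Function.Involutive σ := by
    intro x
    by_cases h : x ∈ S1
    · rw [hσ1 x h, hσ2 x h]
    · by_cases h' : ∃ y ∈ S1, g y = x
      · obtain ⟨y, hy, rfl⟩ := h'
        rw [hσ2 y hy, hσ1 y hy]
      · rw [hσ3 x h h', hσ3 x h h']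
  refine ⟨hinv.toPerm, ⟨?_, ?_⟩, ?_⟩
  · intro x
    show chi (σ x) = chi x
    by_cases h : x ∈ S1
    · rw [hσ1 x h, hgchi x h.1]
    · by_cases h' : ∃ y ∈ S1, g y = x
      · obtain ⟨y, hy, rfl⟩ := h'
        rw [hσ2 y hy, hgchi y hy.1]
      · rw [hσ3 x h h']
  · intro x hx
    show σ x = x
    refine hσ3 x (fun h => absurd h.2 (not_le.2 hx)) ?_
    rintro ⟨y, hy, rfl⟩
    exact absurd (hgb y hy.1) (not_le.2 hx)
  · intro x hx hbx
    show σ x ∉ S'
    rw [hσ1 x ⟨hx, hbx⟩]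
    exact fun h => hgn x hx (Or.inr h)

end W

end Pool.Agent.KT
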