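import Pool.Agent.Lib_MP_bf47cd.A02

/-!
# H17-A03: amalgamation, lifting, moving, joining conditions on a given tree
-/

set_option linter.unusedSectionVars false
set_option linter.unusedVariables false

namespace Pool.Agent.KT

universe u

open Set Cardinal

variable {K ι W : Type u} [LinearOrder K] [OrderBot K] [WellFoundedLT K] {m0 : K}
  [LinearOrder W] [OrderBot W] [WellFoundedLT W] {chi : W → W}
  [hK : SetupK K ι m0]
include hK

namespace Cond

open Classical in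
/-- the amalgamated condition -/
private noncomputable def A03_amalg (p s : Cond K ι W m0 chi) (β : W → K → K) (htr : s.tr ≤ p.tr)
    (hβ : ∀ ξ ∈ p.L, β ξ ∈ s.tr.T s.tr.ht ∧ trunc p.tr.ht (β ξ) = p.b ξ)
    (hβs : ∀ ξ ∈ p.L, ξ ∈ s.L → β ξ = s.b ξ) : Cond K ι W m0 chi where
  tr := s.tr
  L := p.L ∪ s.L
  b ξ := if ξ ∈ s.L then s.b ξ else if ξ ∈ p.L then β ξ else fun _ => ⊥
  N := p.N ∪ s.N
  C a := if a ∈ s.N then s.C a else p.C a
  g a := if a ∈ s.N then s.g a else p.g a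
  L_card := card_union_le K m0 p.L_card s.L_card
  N_card := card_union_le K m0 p.N_card s.N_card
  b_mem ξ h := by
    by_cases h1 : ξ ∈ s.L
    · rw [if_pos h1]; exact s.b_mem ξ h1
    · have h2 : ξ ∈ p.L := h.resolve_right h1
      rw [if_neg h1, if_pos h2]; exact (hβ ξ h2).1
  b_out ξ h := by
    rw [if_neg fun h1 => h (Or.inr h1), if_neg fun h1 => h (Or.inl h1)]
  N_L a h z := by
    rcases h with h | h
    · exact Or.inl (p.N_L a h z)
    · exact Or.inr (s.N_L a h z)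
  C_le a c h := by
    by_cases h1 : a ∈ s.N
    · rw [if_pos h1] at h; exact s.C_le a c h
    · rw [if_neg h1] at h; exact (p.C_le a c h).trans htr.1
  C_out a h := by
    rw [if_neg fun h1 => h (Or.inr h1)]
    exact p.C_out a fun h1 => h (Or.inl h1)
  C_closed a h c hc hl := by
    by_cases h1 : a ∈ s.N
    · rw [if_pos h1] at hl ⊢; exact s.C_closed a h1 c hc hl
    · rw [if_neg h1] at hl ⊢
      have h2 : a ∈ p.N := h.resolve_right h1
      refine p.C_closed a h2 c ?_ hl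
      by_contra h3
      obtain ⟨c', h4, h5, -⟩ := hl.2 _ (not_le.1 h3)
      exact absurd (p.C_le a c' h4) (not_le.2 h5)
  prom a h e he hl hw := by
    by_cases h1 : a ∈ s.N
    · rw [if_pos h1] at he hl
      have h2 := s.prom a h1 e he hl hw
      have h3 : (fun z => trunc e ((fun ξ => if ξ ∈ s.L then s.b ξ else if ξ ∈ p.L then β ξ
          else fun _ => ⊥) (a.w z))) = fun z => trunc e (s.b (a.w z)) := by
        funext z
        simp only [if_pos (s.N_L a h1 z)]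
      rw [h3]
      exact h2
    · rw [if_neg h1] at he hl
      have h4 : a ∈ p.N := h.resolve_right h1
      have h2 := p.prom a h4 e he hl hw
      have h5 : e ≤ p.tr.ht := p.C_le a e he
      have h3 : (fun z => trunc e ((fun ξ => if ξ ∈ s.L then s.b ξ else if ξ ∈ p.L then β ξ
          else fun _ => ⊥) (a.w z))) = fun z => trunc e (p.b (a.w z)) := by
        funext z
        have h6 := p.N_L a h4 z
        have h7 : (fun ξ => if ξ ∈ s.L then s.b ξ else if ξ ∈ p.L then β ξ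
          else fun _ => ⊥) (a.w z) = β (a.w z) := by
          by_cases h8 : a.w z ∈ s.L
          · simp only [if_pos h8]; exact (hβs _ h6 h8).symm
          · simp only [if_neg h8, if_pos h6]
        rw [h7, ← (hβ _ h6).2, trunc_trunc_of_le h5]
      rw [h3, Tr.A_eq htr h5]
      exact h2
  g_le a h c hc := by
    by_cases h1 : a ∈ s.N
    · rw [if_pos h1]; exact s.g_le' a c
    · rw [if_neg h1]; exact p.g_le' a c
  g_out a c h := by
    by_cases h1 : a ∈ s.N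
    · rw [if_pos h1]
      refine s.g_out a c (Or.inr ?_)
      rcases h with h | h
      · exact absurd (Or.inr h1) h
      · exact h
    · rw [if_neg h1]
      refine p.g_out a c ?_
      rcases h with h | h
      · exact Or.inl fun h2 => h (Or.inl h2)
      · exact Or.inr (htr.1.trans h)

/-- Amalgamation: `p` is lifted to the (longer) tree of `s`, its labels getting the nodes `β`, and
united with `s`. Labels common to `p` and `s` must be treated by `s` as an extension of `p`. -/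
theorem exists_amalg (p s : Cond K ι W m0 chi) (β : W → K → K) (htr : s.tr ≤ p.tr)
    (hβ : ∀ ξ ∈ p.L, β ξ ∈ s.tr.T s.tr.ht ∧ trunc p.tr.ht (β ξ) = p.b ξ)
    (hβs : ∀ ξ ∈ p.L, ξ ∈ s.L → β ξ = s.b ξ)
    (hCs : ∀ a ∈ p.N, a ∈ s.N → (∀ c ≤ p.tr.ht, c ∈ s.C a ↔ c ∈ p.C a) ∧
      ∀ c < p.tr.ht, s.g a c = p.g a c) :
    ∃ q : Cond K ι W m0 chi, q ≤ p ∧ q ≤ s ∧ q.tr = s.tr ∧ q.L = p.L ∪ s.L ∧ q.N = p.N ∪ s.N ∧
      (∀ ξ ∈ p.L, q.b ξ = β ξ) ∧ (∀ ξ ∈ s.L, q.b ξ = s.b ξ) ∧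
      (∀ a ∈ s.N, q.C a = s.C a ∧ q.g a = s.g a) ∧
      ∀ a ∈ p.N, a ∉ s.N → q.C a = p.C a ∧ q.g a = p.g a := by
  classical
  have hb : ∀ ξ ∈ s.L, (A03_amalg p s β htr hβ hβs).b ξ = s.b ξ := fun ξ h => by
    simp only [A03_amalg, if_pos h]
  have hb' : ∀ ξ ∈ p.L, (A03_amalg p s β htr hβ hβs).b ξ = β ξ := fun ξ h => by
    by_cases h1 : ξ ∈ s.L
    · rw [hb ξ h1, hβs ξ h h1]
    · simp only [A03_amalg, if_neg h1, if_pos h]
  have hC : ∀ a ∈ s.N, (A03_amalg p s β htr hβ hβs).C a = s.C a := fun a h => by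
    simp only [A03_amalg, if_pos h]
  have hg : ∀ a ∈ s.N, (A03_amalg p s β htr hβ hβs).g a = s.g a := fun a h => by
    simp only [A03_amalg, if_pos h]
  have hC' : ∀ a ∉ s.N, (A03_amalg p s β htr hβ hβs).C a = p.C a := fun a h => by
    simp only [A03_amalg, if_neg h]
  have hg' : ∀ a ∉ s.N, (A03_amalg p s β htr hβ hβs).g a = p.g a := fun a h => by
    simp only [A03_amalg, if_neg h]
  refine ⟨A03_amalg p s β htr hβ hβs, ⟨htr, subset_union_left, fun ξ h => ?_, subset_union_left,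
    fun a h c hc => ?_, fun a h c hc => ?_⟩, ⟨le_rfl, subset_union_right, fun ξ h => ?_,
    subset_union_right, fun a h c hc => ?_, fun a h c hc => ?_⟩, rfl, rfl, rfl, hb', hb,
    fun a h => ⟨hC a h, hg a h⟩, fun a _ h => ⟨hC' a h, hg' a h⟩⟩
  · rw [hb' ξ h, (hβ ξ h).2]
  · by_cases h1 : a ∈ s.N
    · rw [hC a h1]; exact (hCs a h h1).1 c hc
    · rw [hC' a h1]
  · by_cases h1 : a ∈ s.N
    · rw [hg a h1]; exact (hCs a h h1).2 c hc
    · rw [hg' a h1]
  · rw [hb ξ h]; exact s.b_trunc ξ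
  · rw [hC a h]
  · rw [hg a h]

/-- the empty condition on a tree -/
private def A03_empty (t : Tr K ι m0) : Cond K ι W m0 chi where
  tr := t
  L := ∅
  b _ := fun _ => ⊥
  N := ∅
  C _ := ∅
  g _ := fun _ => ⊥
  L_card := by rw [mk_eq_zero]; exact zero_le
  N_card := by rw [mk_eq_zero]; exact zero_le
  b_mem ξ h := absurd h (notMem_empty ξ)
  b_out ξ h := rfl
  N_L a h := absurd h (notMem_empty a)
  C_le a c h := absurd h (notMem_empty c)
  C_out a h := rfl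
  C_closed a h := absurd h (notMem_empty a)
  prom a h := absurd h (notMem_empty a)
  g_le a h := absurd h (notMem_empty a)
  g_out a c h := rfl

/-- lifting `p` to a longer tree `t` (`exists_amalg` with an empty `s` on `t`) -/
theorem exists_lift (p : Cond K ι W m0 chi) (t : Tr K ι m0) (β : W → K → K) (htr : t ≤ p.tr)
    (hβ : ∀ ξ ∈ p.L, β ξ ∈ t.T t.ht ∧ trunc p.tr.ht (β ξ) = p.b ξ) :
    ∃ q : Cond K ι W m0 chi, q ≤ p ∧ q.tr = t ∧ q.L = p.L ∧ q.N = p.N ∧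
      (∀ ξ ∈ p.L, q.b ξ = β ξ) ∧ q.C = p.C ∧ q.g = p.g := by
  obtain ⟨q, h1, h2, h3, h4, h5, h6, h7, h8, h9⟩ := exists_amalg p (A03_empty t) β htr hβ
    (fun ξ _ h => absurd h (notMem_empty ξ)) (fun a _ h => absurd h (notMem_empty a))
  have h4' : q.L = p.L := h4.trans (union_empty _)
  have h5' : q.N = p.N := h5.trans (union_empty _)
  refine ⟨q, h1, h3, h4', h5', h6, ?_, ?_⟩
  · funext a
    by_cases h : a ∈ p.N
    · exact (h9 a h (notMem_empty a)).1
    · rw [p.C_out a h, q.C_out a (by rw [h5']; exact h)]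
  · funext a
    by_cases h : a ∈ p.N
    · exact (h9 a h (notMem_empty a)).2
    · funext c
      rw [p.g_out a c (Or.inl h), q.g_out a c (Or.inl (by rw [h5']; exact h))]

/-- the common generalization of `exists_move` and `exists_join` -/
private theorem A03_join (b0 : W) (p s : Cond K ι W m0 chi) (h : restr b0 s ≤ restr b0 p)
    (hL : ∀ ξ ∈ p.L, ξ ∈ s.L → ξ < b0) (hN : ∀ a ∈ p.N, a ∈ s.N → a.Low b0) (β : W → K → K)
    (hβ : ∀ ξ ∈ p.L, b0 ≤ ξ → β ξ ∈ s.tr.T s.tr.ht ∧ trunc p.tr.ht (β ξ) = p.b ξ) :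
    ∃ q : Cond K ι W m0 chi, q ≤ p ∧ q ≤ s ∧ q.tr = s.tr ∧ restr b0 q = restr b0 s ∧
      q.L = p.L ∪ s.L ∧ q.N = p.N ∪ s.N ∧
      (∀ ξ ∈ p.L, b0 ≤ ξ → q.b ξ = β ξ) ∧ (∀ ξ ∈ s.L, q.b ξ = s.b ξ) ∧
      ∀ a ∈ p.N, ¬ a.Low b0 → q.C a = p.C a ∧ q.g a = p.g a := by
  classical
  have hLs : ∀ ξ ∈ p.L, ξ < b0 → ξ ∈ s.L := fun ξ h1 h2 => (le_L h (mem_restr_L.2 ⟨h1, h2⟩)).1
  have hNs : ∀ a ∈ p.N, a.Low b0 → a ∈ s.N := fun a h1 h2 => (le_N h (mem_restr_N.2 ⟨h1, h2⟩)).1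
  obtain ⟨q, h1, h2, h3, h4, h5, h6, h7, h8, h9⟩ := exists_amalg p s
    (fun ξ => if ξ < b0 then s.b ξ else β ξ) h.1 (fun ξ hξ => by
      by_cases h1 : ξ < b0
      · simp only [if_pos h1]
        refine ⟨s.b_mem ξ (hLs ξ hξ h1), ?_⟩
        have h2 := le_b h (mem_restr_L.2 ⟨hξ, h1⟩)
        rwa [restr_b h1, restr_b h1] at h2
      · simp only [if_neg h1]
        exact hβ ξ hξ (not_lt.1 h1)) (fun ξ h1 h2 => by
      simp only [if_pos (hL ξ h1 h2)]) (fun a h1 h2 => by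
      have h3 := hN a h1 h2
      refine ⟨fun c hc => ?_, fun c hc => ?_⟩
      · have h4 := le_C h (mem_restr_N.2 ⟨h1, h3⟩) hc
        rwa [restr_C h3, restr_C h3] at h4
      · have h4 := le_g h (mem_restr_N.2 ⟨h1, h3⟩) hc
        rwa [restr_g h3, restr_g h3] at h4)
  refine ⟨q, h1, h2, h3, ?_, h4, h5, fun ξ h10 h11 => ?_, h7, fun a h10 h11 =>
    h9 a h10 fun h12 => h11 (hN a h10 h12)⟩
  · rw [restr_eq_iff]
    refine ⟨h3, fun ξ hξ => ?_, fun a ha => ?_⟩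
    · by_cases h10 : ξ ∈ s.L
      · exact ⟨⟨fun _ => h10, fun _ => le_L h2 h10⟩, h7 ξ h10⟩
      · have h11 : ξ ∉ q.L := by
          rw [h4]
          rintro (h12 | h12)
          · exact h10 (hLs ξ h12 hξ)
          · exact h10 h12
        exact ⟨⟨fun h => absurd h h11, fun h => absurd h h10⟩, by rw [q.b_out ξ h11, s.b_out ξ h10]⟩
    · by_cases h10 : a ∈ s.N
      · exact ⟨⟨fun _ => h10, fun _ => le_N h2 h10⟩, h8 a h10⟩
      · have h11 : a ∉ q.N := by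
          rw [h5]
          rintro (h12 | h12)
          · exact h10 (hNs a h12 ha)
          · exact h10 h12
        refine ⟨⟨fun h => absurd h h11, fun h => absurd h h10⟩, by rw [q.C_out a h11, s.C_out a h10],
          ?_⟩
        funext c
        rw [q.g_out a c (Or.inl h11), s.g_out a c (Or.inl h10)]
  · rw [h6 ξ h10]
    simp only [if_neg (not_lt.2 h11)]

/-- `p` is moved onto the condition `s` that has only labels below `b0` and is smaller than the
part of `p` below `b0`; the other labels of `p` get the nodes `β` -/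
theorem exists_move (b0 : W) (p s : Cond K ι W m0 chi) (hs : restr b0 s = s)
    (h : s ≤ restr b0 p) (β : W → K → K)
    (hβ : ∀ ξ ∈ p.L, b0 ≤ ξ → β ξ ∈ s.tr.T s.tr.ht ∧ trunc p.tr.ht (β ξ) = p.b ξ) :
    ∃ q : Cond K ι W m0 chi, q ≤ p ∧ q ≤ s ∧ restr b0 q = s ∧ q.tr = s.tr ∧ q.L = p.L ∪ s.L ∧
      q.N = p.N ∪ s.N ∧ (∀ ξ ∈ p.L, b0 ≤ ξ → q.b ξ = β ξ) ∧
      ∀ a ∈ p.N, ¬ a.Low b0 → q.C a = p.C a ∧ q.g a = p.g a := by
  have h1 := restr_eq_self_iff.1 hs
  obtain ⟨q, h2, h3, h4, h5, h6, h7, h8, -, h9⟩ := A03_join b0 p s (by rw [hs]; exact h)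
    (fun ξ _ h2 => h1.1 ξ h2) (fun a _ h2 => h1.2 a h2) β hβ
  exact ⟨q, h2, h3, h5.trans hs, h4, h6, h7, h8, h9⟩

/-- `p` is joined with `s`; the common labels are below `b0`, where `s` is smaller -/
theorem exists_join (b0 : W) (p s : Cond K ι W m0 chi) (h : restr b0 s ≤ restr b0 p)
    (hL : ∀ ξ ∈ p.L, ξ ∈ s.L → ξ < b0) (hN : ∀ a ∈ p.N, a ∈ s.N → a.Low b0) (β : W → K → K)
    (hβ : ∀ ξ ∈ p.L, b0 ≤ ξ → β ξ ∈ s.tr.T s.tr.ht ∧ trunc p.tr.ht (β ξ) = p.b ξ) :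
    ∃ q : Cond K ι W m0 chi, q ≤ p ∧ q ≤ s ∧ q.tr = s.tr ∧ restr b0 q = restr b0 s ∧
      q.L = p.L ∪ s.L ∧ (∀ ξ ∈ p.L, b0 ≤ ξ → q.b ξ = β ξ) ∧ ∀ ξ ∈ s.L, q.b ξ = s.b ξ := by
  obtain ⟨q, h2, h3, h4, h5, h6, -, h8, h9, -⟩ := A03_join b0 p s h hL hN β hβ
  exact ⟨q, h2, h3, h4, h5, h6, h8, h9⟩

end Cond

/-- a node of the top level of a tree extends to the top level of a longer tree; version giving a
choice function -/
theorem Tr.exists_up (t t' : Tr K ι m0) (h : t' ≤ t) : ∃ φ : (K → K) → K → K,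
    ∀ x ∈ t.T t.ht, φ x ∈ t'.T t'.ht ∧ trunc t.ht (φ x) = x := by
  classical
  have h1 : ∀ x : K → K, ∃ y : K → K, x ∈ t.T t.ht → y ∈ t'.T t'.ht ∧ trunc t.ht y = x := by
    intro x
    by_cases hx : x ∈ t.T t.ht
    · obtain ⟨y, hy⟩ := t'.T_ext t.ht t'.ht h.1 le_rfl x (by rw [Tr.T_eq h le_rfl]; exact hx)
      exact ⟨y, fun _ => hy⟩
    · exact ⟨x, fun h => absurd h hx⟩
  choose φ hφ using h1
  exact ⟨φ, hφ⟩

end Pool.Agent.KT
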