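import Pool.Agent.Lib_MP_bf47cd.A03
import Mathlib.Order.SuccPred.Limit

/-!
# H17-A04: going up one level; adding labels and decorations
-/

set_option linter.unusedSectionVars false
set_option linter.unusedVariables false

namespace Pool.Agent.KT

universe u

open Set Cardinal

private lemma A04_wit_congr {K ι : Type u} [LinearOrder K] [OrderBot K] {T T' : K → Set (K → K)}
    {A A' : K → Set (ι → K → K)} {e : K} (hT : ∀ c ≤ e, T' c = T c) (hA : ∀ c ≤ e, A' c = A c)
    (h : Wit T A e) : Wit T' A' e := by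
  obtain ⟨E, f, h1, h2, h3, h4, h5, h6, h7⟩ := h
  refine ⟨E, f, h1, h2, h3, fun c hc x hx => ?_, fun c hc c' hc' hcc x hx => ?_, fun y hy => ?_,
    fun c hc hl hw ρ hρ => ?_⟩
  · rw [hT c (h1 c hc).le] at hx
    rw [hT e le_rfl]
    exact h4 c hc x hx
  · rw [hT c (h1 c hc).le] at hx
    exact h5 c hc c' hc' hcc x hx
  · rw [hT e le_rfl] at hy
    exact h6 y hy
  · rw [hA c (h1 c hc).le] at hρ
    exact h7 c hc hl hw ρ hρ

private lemma A04_not_isLim_succ {K : Type u} [LinearOrder K] [OrderBot K] [SuccOrder K]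
    [NoMaxOrder K] {d e : K} (h : IsLim e) (he : e ≤ Order.succ d) : e ≤ d := by
  rcases he.lt_or_eq with h1 | h1
  · exact Order.lt_succ_iff.1 h1
  · exfalso
    obtain ⟨c, h2, h3⟩ := h.2 d (by rw [h1]; exact Order.lt_succ d)
    rw [h1] at h3
    exact absurd h2 (not_lt.2 (Order.lt_succ_iff.1 h3))

variable {K ι W : Type u} [LinearOrder K] [OrderBot K] [WellFoundedLT K] [SuccOrder K]
  [NoMaxOrder K] {m0 : K} [LinearOrder W] [OrderBot W] [WellFoundedLT W] {chi : W → W}
  [hK : SetupK K ι m0]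
include hK

/-- the one-level extension of a tree, with all one-step extensions of the top nodes -/
theorem Tr.exists_succ (t : Tr K ι m0) : ∃ t' : Tr K ι m0, t' ≤ t ∧ t'.ht = Order.succ t.ht ∧
    ∀ y, y ∈ t'.T t'.ht ↔ (trunc t.ht y ∈ t.T t.ht ∧ y t.ht < m0 ∧ trunc t'.ht y = y) := by
  classical
  have hm0 : (⊥ : K) < m0 := bot_lt_m0 ι
  set d := t.ht with hd
  set d' := Order.succ d with hd'
  have hdd' : d < d' := Order.lt_succ d
  let S : Set (K → K) := {y | trunc d y ∈ t.T d ∧ y d < m0 ∧ trunc d' y = y}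
  let T' : K → Set (K → K) := fun e => if e ≤ d then t.T e else if e = d' then S else ∅
  have hT1 : ∀ e ≤ d, T' e = t.T e := fun e he => if_pos he
  have hT2 : T' d' = S := by
    show (if d' ≤ d then t.T d' else if d' = d' then S else ∅) = S
    rw [if_neg (not_le.2 hdd'), if_pos rfl]
  have hT3 : ∀ e, d' < e → T' e = ∅ := by
    intro e he
    show (if e ≤ d then t.T e else if e = d' then S else ∅) = ∅
    rw [if_neg (not_le.2 (hdd'.trans he)), if_neg (ne_of_gt he)]
  have hcase : ∀ e (x : K → K), x ∈ T' e → (e ≤ d ∧ x ∈ t.T e) ∨ (e = d' ∧ x ∈ S) := by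
    intro e x hx
    by_cases h1 : e ≤ d
    · left; rw [hT1 e h1] at hx; exact ⟨h1, hx⟩
    · right
      by_cases h2 : e = d'
      · rw [h2, hT2] at hx; exact ⟨h2, hx⟩
      · have h3 : T' e = ∅ := by
          show (if e ≤ d then t.T e else if e = d' then S else ∅) = ∅
          rw [if_neg h1, if_neg h2]
        rw [h3] at hx; exact absurd hx (notMem_empty x)
  have hle : ∀ e, e ≤ d' → e ≤ d ∨ e = d' := by
    intro e he
    rcases he.lt_or_eq with h1 | h1
    · left; exact Order.lt_succ_iff.1 h1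
    · right; exact h1
  refine ⟨{ ht := d'
            T := T'
            A := t.A
            T_out := hT3
            A_out := fun e he => t.A_out e (he.imp_left fun h => hdd'.trans h)
            T_val := ?_
            T_trunc := ?_
            T_res := ?_
            T_ext := ?_
            T_bot := ?_
            T_card := ?_
            T_lim := ?_
            A_mem := ?_
            wit := ?_ }, ⟨hdd'.le, fun e he => ⟨hT1 e he, rfl⟩⟩, rfl, ?_⟩
  · intro e x hx c
    rcases hcase e x hx with ⟨_, h⟩ | ⟨_, h⟩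
    · exact t.T_val e x h c
    · rcases lt_or_ge c d with h1 | h1
      · have := t.T_val d _ h.1 c
        rwa [trunc_lt h1] at this
      · rcases h1.eq_or_lt with h2 | h2
        · rw [← h2]; exact h.2.1
        · rw [← h.2.2, trunc_ge (Order.succ_le_of_lt h2)]
          exact hm0
  · intro e x hx
    rcases hcase e x hx with ⟨_, h⟩ | ⟨h0, h⟩
    · exact t.T_trunc e x h
    · rw [h0]; exact h.2.2
  · intro e x hx e' he'
    rcases hcase e x hx with ⟨h0, h⟩ | ⟨h0, h⟩
    · rw [hT1 e' (he'.trans h0)]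
      exact t.T_res e x h e' he'
    · rw [h0] at he'
      rcases hle e' he' with h1 | h1
      · rw [hT1 e' h1, ← trunc_trunc_of_le h1 x]
        exact t.T_res d _ h.1 e' h1
      · rw [h1, hT2, h.2.2]; exact h
  · intro e e' hee he' x hx
    rcases hle e' he' with h1 | h1
    · rw [hT1 e (hee.trans h1)] at hx
      rw [hT1 e' h1]
      exact t.T_ext e e' hee h1 x hx
    · rcases hcase e x hx with ⟨h0, h⟩ | ⟨h0, h⟩
      · obtain ⟨z, hz, hzx⟩ := t.T_ext e d h0 le_rfl x h
        have hz1 := t.T_trunc d z hz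
        refine ⟨z, ?_, hzx⟩
        rw [h1, hT2]
        refine ⟨by rw [hz1]; exact hz, ?_, trunc_eq_self_of_le hz1 hdd'.le⟩
        exact t.T_val d z hz d
      · refine ⟨x, ?_, ?_⟩
        · rw [h1, hT2]; exact h
        · rw [h0]; exact h.2.2
  · rw [hT1 ⊥ bot_le]; exact t.T_bot
  · intro e
    by_cases h1 : e ≤ d
    · rw [hT1 e h1]; exact t.T_card e
    · by_cases h2 : e = d'
      · rw [h2, hT2]
        have h3 : #(t.T d × Iio m0) ≤ #ι :=
          card_prod_le K m0 (t.T_card d) (le_of_eq (SetupK.card_m0 (ι := ι)))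
        refine le_trans (mk_le_of_injective (f := fun y : S =>
          ((⟨trunc d y.1, y.2.1⟩, ⟨y.1 d, y.2.2.1⟩) : t.T d × Iio m0)) ?_) h3
        intro x y hxy
        have h4 : trunc d x.1 = trunc d y.1 := congrArg Subtype.val (congrArg Prod.fst hxy)
        have h5 : x.1 d = y.1 d := congrArg Subtype.val (congrArg Prod.snd hxy)
        apply Subtype.ext
        rw [← x.2.2.2, ← y.2.2.2, trunc_eq_iff]
        intro c hc
        rcases (Order.lt_succ_iff.1 hc).lt_or_eq with h6 | h6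
        · exact trunc_eq_iff.1 h4 c h6
        · rw [h6]; exact h5
      · have h3 : T' e = ∅ := by
          show (if e ≤ d then t.T e else if e = d' then S else ∅) = ∅
          rw [if_neg h1, if_neg h2]
        rw [h3, Cardinal.mk_eq_zero]
        exact bot_le
  · intro e he hw x hx1 hx2 hx3
    have h1 : e ≤ d := A04_not_isLim_succ hw.isLim he
    rw [hT1 e h1]
    refine t.T_lim e h1 hw x hx1 hx2 fun c hc => ?_
    rw [← hT1 c (hc.le.trans h1)]
    exact hx3 c hc
  · intro e ρ hρ z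
    by_cases h1 : e ≤ d
    · rw [hT1 e h1]; exact t.A_mem e ρ hρ z
    · rw [t.A_out e (Or.inl (not_le.1 h1))] at hρ
      exact absurd hρ (notMem_empty ρ)
  · intro e he hl hw
    have h1 : e ≤ d := A04_not_isLim_succ hl he
    exact A04_wit_congr (fun c hc => hT1 c (hc.trans h1)) (fun c _ => rfl) (t.wit e h1 hl hw)
  · intro y
    have h1 : y ∈ T' d' ↔ y ∈ S := by rw [hT2]
    exact h1

namespace Cond

/-- going up one level, with prescribed values `j` of the nodes, prescribed values `γ` of the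
functions `g a`, and adding the new height to `C a` for `a ∈ R` -/
theorem exists_succ (p : Cond K ι W m0 chi) (j : W → K) (hj : ∀ ξ ∈ p.L, j ξ < m0)
    (γ : DLab ι W → W) (hγ : ∀ a ∈ p.N, γ a ≤ chi a.tag) (R : Set (DLab ι W)) :
    ∃ q : Cond K ι W m0 chi, q ≤ p ∧ q.tr.ht = Order.succ p.tr.ht ∧ q.L = p.L ∧ q.N = p.N ∧
      (∀ ξ ∈ p.L, q.b ξ p.tr.ht = j ξ) ∧ (∀ a ∈ p.N, q.g a p.tr.ht = γ a) ∧
      (∀ a ∈ p.N, a ∈ R → q.tr.ht ∈ q.C a) ∧ ∀ a ∈ p.N, a ∉ R → q.C a = p.C a := by
  classical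
  obtain ⟨t', ht1, ht2, ht3⟩ := Tr.exists_succ p.tr
  set d := p.tr.ht with hd
  have hdd' : d < t'.ht := by rw [ht2]; exact Order.lt_succ d
  have hlim : ∀ e, IsLim e → e ≤ t'.ht → e ≤ d := by
    intro e h1 h2
    rw [ht2] at h2
    exact A04_not_isLim_succ h1 h2
  let b' : W → K → K := fun ξ =>
    if ξ ∈ p.L then fun c => if c = d then j ξ else p.b ξ c else fun _ => ⊥
  have hb1 : ∀ ξ ∈ p.L, b' ξ = fun c => if c = d then j ξ else p.b ξ c := fun ξ hξ => if_pos hξ
  have hbt : ∀ ξ ∈ p.L, ∀ e ≤ d, trunc e (b' ξ) = trunc e (p.b ξ) := by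
    intro ξ hξ e he
    rw [trunc_eq_iff, hb1 ξ hξ]
    intro c hc
    show (if c = d then j ξ else p.b ξ c) = p.b ξ c
    rw [if_neg (ne_of_lt (hc.trans_le he))]
  let C' : DLab ι W → Set K := fun a => if a ∈ p.N ∧ a ∈ R then insert t'.ht (p.C a) else p.C a
  have hC1 : ∀ a c, c ∈ C' a → c ∈ p.C a ∨ c = t'.ht := by
    intro a c hc
    by_cases h1 : a ∈ p.N ∧ a ∈ R
    · have h2 : C' a = insert t'.ht (p.C a) := if_pos h1
      rw [h2] at hc
      rcases hc with h | h
      · right; exact h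
      · left; exact h
    · have h2 : C' a = p.C a := if_neg h1
      rw [h2] at hc
      left; exact hc
  have hC2 : ∀ a c, c ∈ p.C a → c ∈ C' a := by
    intro a c hc
    by_cases h1 : a ∈ p.N ∧ a ∈ R
    · have h2 : C' a = insert t'.ht (p.C a) := if_pos h1
      rw [h2]; exact Or.inr hc
    · have h2 : C' a = p.C a := if_neg h1
      rw [h2]; exact hc
  have hC3 : ∀ a c, c ≤ d → (c ∈ C' a ↔ c ∈ p.C a) := by
    intro a c hc
    constructor
    · intro h
      rcases hC1 a c h with h1 | h1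
      · exact h1
      · rw [h1] at hc; exact absurd hc (not_le.2 hdd')
    · exact hC2 a c
  have hClim : ∀ a e, e ≤ t'.ht → LimPt (C' a) e → e ≤ d ∧ LimPt (p.C a) e := by
    intro a e he hl
    have h1 := hlim e hl.isLim he
    exact ⟨h1, hl.mono fun c hc hce => (hC3 a c (hce.le.trans h1)).1 hc⟩
  let g' : DLab ι W → K → W := fun a c => if a ∈ p.N ∧ c = d then γ a else p.g a c
  refine ⟨{ tr := t'
            L := p.L
            b := b'
            N := p.N
            C := C'
            g := g'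
            L_card := p.L_card
            N_card := p.N_card
            b_mem := ?_
            b_out := fun ξ hξ => if_neg hξ
            N_L := p.N_L
            C_le := ?_
            C_out := ?_
            C_closed := ?_
            prom := ?_
            g_le := ?_
            g_out := ?_ }, ⟨ht1, Subset.rfl, ?_, Subset.rfl, ?_, ?_⟩, ht2, rfl, rfl, ?_, ?_, ?_, ?_⟩
  · intro ξ hξ
    rw [ht3, hbt ξ hξ d le_rfl]
    refine ⟨?_, ?_, ?_⟩
    · rw [p.b_trunc ξ]; exact p.b_mem ξ hξ
    · rw [hb1 ξ hξ]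
      show (if d = d then j ξ else p.b ξ d) < m0
      rw [if_pos rfl]; exact hj ξ hξ
    · funext c
      by_cases hc : c < t'.ht
      · rw [trunc_lt hc]
      · rw [trunc_ge (not_lt.1 hc), hb1 ξ hξ]
        show ⊥ = if c = d then j ξ else p.b ξ c
        have h1 : d < c := hdd'.trans_le (not_lt.1 hc)
        rw [if_neg (ne_of_gt h1), ← p.b_trunc ξ, trunc_ge h1.le]
  · intro a c hc
    rcases hC1 a c hc with h | h
    · exact (p.C_le a c h).trans hdd'.le
    · exact h.le
  · intro a ha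
    have h1 : C' a = p.C a := if_neg fun h => ha h.1
    rw [h1]; exact p.C_out a ha
  · intro a ha c hc hl
    obtain ⟨h1, h2⟩ := hClim a c hc hl
    exact hC2 a c (p.C_closed a ha c h1 h2)
  · intro a ha e he hl hw
    have he' : e ≤ t'.ht := by
      rcases hC1 a e he with h | h
      · exact (p.C_le a e h).trans hdd'.le
      · exact h.le
    obtain ⟨h1, h2⟩ := hClim a e he' hl
    have h3 := p.prom a ha e ((hC3 a e h1).1 he) h2 hw
    rw [Tr.A_eq ht1 h1]
    have h4 : (fun z => trunc e (b' (a.w z))) = fun z => trunc e (p.b (a.w z)) := by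
      funext z
      exact hbt _ (p.N_L a ha z) e h1
    rw [h4]; exact h3
  · intro a ha c hc
    show (if a ∈ p.N ∧ c = d then γ a else p.g a c) ≤ chi a.tag
    by_cases h1 : a ∈ p.N ∧ c = d
    · rw [if_pos h1]; exact hγ a ha
    · rw [if_neg h1]; exact p.g_le' a c
  · intro a c h
    show (if a ∈ p.N ∧ c = d then γ a else p.g a c) = ⊥
    have h1 : ¬ (a ∈ p.N ∧ c = d) := by
      rintro ⟨h2, h3⟩
      rcases h with h | h
      · exact h h2
      · rw [h3] at h; exact absurd h (not_le.2 hdd')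
    rw [if_neg h1]
    exact p.g_out a c (h.imp_right fun h => hdd'.le.trans h)
  · intro ξ hξ
    show trunc d (b' ξ) = p.b ξ
    rw [hbt ξ hξ d le_rfl, p.b_trunc ξ]
  · intro a ha c hc
    exact hC3 a c hc
  · intro a ha c hc
    show (if a ∈ p.N ∧ c = d then γ a else p.g a c) = p.g a c
    rw [if_neg fun h => absurd h.2 (ne_of_lt hc)]
  · intro ξ hξ
    show b' ξ d = j ξ
    rw [hb1 ξ hξ]
    exact if_pos rfl
  · intro a ha
    exact if_pos ⟨ha, rfl⟩
  · intro a ha hR
    show t'.ht ∈ C' a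
    have h1 : C' a = insert t'.ht (p.C a) := if_pos ⟨ha, hR⟩
    rw [h1]; exact mem_insert _ _
  · intro a ha hR
    exact if_neg fun h => hR h.2

/-- every condition has an extension, one level higher, in which different labels have different
nodes -/
theorem exists_injOn_b (p : Cond K ι W m0 chi) : ∃ q ≤ p, p.tr.ht < q.tr.ht ∧ InjOn q.b q.L ∧
    q.L = p.L := by
  obtain ⟨j, hj1, hj2⟩ := exists_injOn (ι := ι) (m0 := m0) p.L p.L_card (Iio m0)
    (SetupK.card_m0 (ι := ι))
  obtain ⟨q, h1, h2, h3, h4, h5, -, -, -⟩ := exists_succ p j hj2 (fun _ => ⊥)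
    (fun a _ => bot_le) ∅
  refine ⟨q, h1, by rw [h2]; exact Order.lt_succ _, ?_, h3⟩
  rw [h3]
  intro ξ hξ ξ' hξ' h
  refine hj1 hξ hξ' ?_
  rw [← h5 ξ hξ, ← h5 ξ' hξ', h]

/-- adding labels with given top nodes, on the same tree -/
theorem exists_addL (p : Cond K ι W m0 chi) (S : Set W) (hS : #S ≤ #ι) (x : W → K → K)
    (hx : ∀ ξ ∈ S, x ξ ∈ p.tr.T p.tr.ht) : ∃ q : Cond K ι W m0 chi, q ≤ p ∧ q.tr = p.tr ∧
      q.L = p.L ∪ S ∧ (∀ ξ ∈ S, ξ ∉ p.L → q.b ξ = x ξ) ∧ (∀ ξ ∈ p.L, q.b ξ = p.b ξ) ∧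
      q.N = p.N ∧ q.C = p.C ∧ q.g = p.g := by
  classical
  let b' : W → K → K := fun ξ => if ξ ∈ p.L then p.b ξ else if ξ ∈ S then x ξ else fun _ => ⊥
  have hb1 : ∀ ξ ∈ p.L, b' ξ = p.b ξ := fun ξ hξ => if_pos hξ
  have hb2 : ∀ ξ ∈ S, ξ ∉ p.L → b' ξ = x ξ := by
    intro ξ hξ hξ'
    show (if ξ ∈ p.L then p.b ξ else if ξ ∈ S then x ξ else fun _ => ⊥) = x ξ
    rw [if_neg hξ', if_pos hξ]
  refine ⟨{ tr := p.tr
            L := p.L ∪ S
            b := b'
            N := p.N
            C := p.C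
            g := p.g
            L_card := card_union_le K m0 p.L_card hS
            N_card := p.N_card
            b_mem := ?_
            b_out := ?_
            N_L := fun a ha z => Or.inl (p.N_L a ha z)
            C_le := p.C_le
            C_out := p.C_out
            C_closed := p.C_closed
            prom := ?_
            g_le := p.g_le
            g_out := p.g_out }, ⟨le_rfl, subset_union_left, ?_, Subset.rfl, ?_, ?_⟩, rfl, rfl,
            hb2, hb1, rfl, rfl, rfl⟩
  · intro ξ hξ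
    by_cases h : ξ ∈ p.L
    · rw [hb1 ξ h]; exact p.b_mem ξ h
    · rcases hξ with h1 | h1
      · exact absurd h1 h
      · rw [hb2 ξ h1 h]; exact hx ξ h1
  · intro ξ hξ
    have h1 : ξ ∉ p.L := fun h => hξ (Or.inl h)
    have h2 : ξ ∉ S := fun h => hξ (Or.inr h)
    show (if ξ ∈ p.L then p.b ξ else if ξ ∈ S then x ξ else fun _ => ⊥) = fun _ => ⊥
    rw [if_neg h1, if_neg h2]
  · intro a ha e he hl hw
    have h4 : (fun z => trunc e (b' (a.w z))) = fun z => trunc e (p.b (a.w z)) := by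
      funext z
      rw [hb1 _ (p.N_L a ha z)]
    rw [h4]; exact p.prom a ha e he hl hw
  · intro ξ hξ
    show trunc p.tr.ht (b' ξ) = p.b ξ
    rw [hb1 ξ hξ]; exact p.b_trunc ξ
  · intro a ha c hc
    exact Iff.rfl
  · intro a ha c hc
    rfl

/-- adding a decoration, on the same tree, with empty `C a` and prescribed `g a` -/
theorem exists_addN (p : Cond K ι W m0 chi) (a : DLab ι W) (ha : a ∉ p.N)
    (hw : ∀ z, a.w z ∈ p.L) (γ : K → W) (hγ : ∀ c, γ c ≤ chi a.tag) :
    ∃ q : Cond K ι W m0 chi, q ≤ p ∧ q.tr = p.tr ∧ q.L = p.L ∧ q.b = p.b ∧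
      q.N = insert a p.N ∧ q.C a = ∅ ∧ ∀ c < p.tr.ht, q.g a c = γ c := by
  classical
  let g' : DLab ι W → K → W := fun a' c =>
    if a' = a then (if c < p.tr.ht then γ c else ⊥) else p.g a' c
  have hg1 : ∀ c, g' a c = if c < p.tr.ht then γ c else ⊥ := fun c => if_pos rfl
  have hg2 : ∀ a', a' ≠ a → ∀ c, g' a' c = p.g a' c := fun a' h c => if_neg h
  have hN : ∀ a' ∈ insert a p.N, a' ≠ a → a' ∈ p.N := by
    intro a' h1 h2
    rcases h1 with h | h
    · exact absurd h h2
    · exact h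
  have hCa : p.C a = ∅ := p.C_out a ha
  refine ⟨{ tr := p.tr
            L := p.L
            b := p.b
            N := insert a p.N
            C := p.C
            g := g'
            L_card := p.L_card
            N_card := ?_
            b_mem := p.b_mem
            b_out := p.b_out
            N_L := ?_
            C_le := p.C_le
            C_out := fun a' h => p.C_out a' fun h' => h (Or.inr h')
            C_closed := ?_
            prom := ?_
            g_le := ?_
            g_out := ?_ }, ⟨le_rfl, Subset.rfl, fun ξ _ => p.b_trunc ξ, subset_insert _ _,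
            fun _ _ _ _ => Iff.rfl, ?_⟩, rfl, rfl, rfl, rfl, hCa, ?_⟩
  · have h1 : #(p.N ∪ {a} : Set (DLab ι W)) ≤ #ι := by
      refine card_union_le K m0 p.N_card ?_
      rw [mk_singleton]
      exact one_le_aleph0.trans (SetupK.inf (ι := ι) m0)
    rwa [union_singleton] at h1
  · intro a' ha' z
    by_cases h : a' = a
    · rw [h]; exact hw z
    · exact p.N_L a' (hN a' ha' h) z
  · intro a' ha' c hc hl
    by_cases h : a' = a
    · rw [h, hCa] at hl
      obtain ⟨c', h1, _⟩ := hl.2 ⊥ (bot_lt_iff_ne_bot.2 hl.1)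
      exact absurd h1 (notMem_empty c')
    · exact p.C_closed a' (hN a' ha' h) c hc hl
  · intro a' ha' e he hl hw'
    by_cases h : a' = a
    · rw [h, hCa] at he
      exact absurd he (notMem_empty e)
    · exact p.prom a' (hN a' ha' h) e he hl hw'
  · intro a' ha' c hc
    by_cases h : a' = a
    · rw [h, hg1 c, if_pos hc]; exact hγ c
    · rw [hg2 a' h c]; exact p.g_le a' (hN a' ha' h) c hc
  · intro a' c hc
    by_cases h : a' = a
    · rw [h, hg1 c]
      rcases hc with h1 | h1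
      · exact absurd (Or.inl h) h1
      · rw [if_neg (not_lt.2 h1)]
    · rw [hg2 a' h c]
      exact p.g_out a' c (hc.imp_left fun h1 h2 => h1 (Or.inr h2))
  · intro a' ha' c hc
    show g' a' c = p.g a' c
    exact hg2 a' (fun h => ha (h ▸ ha')) c
  · intro c hc
    show g' a c = γ c
    rw [hg1 c, if_pos hc]

/-- dense sets: the label `ξ` occurs -/
theorem exists_mem_L (p : Cond K ι W m0 chi) (S : Set W) (hS : #S ≤ #ι) :
    ∃ q ≤ p, q.tr = p.tr ∧ S ⊆ q.L := by
  obtain ⟨x0, hx0⟩ := p.tr.T_bot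
  obtain ⟨x, hx, -⟩ := p.tr.T_ext ⊥ p.tr.ht bot_le le_rfl x0 hx0
  obtain ⟨q, h1, h2, h3, -⟩ := exists_addL p S hS (fun _ => x) (fun _ _ => hx)
  exact ⟨q, h1, h2, by rw [h3]; exact subset_union_right⟩

/-- dense sets: the decoration `a` occurs -/
theorem exists_mem_N (p : Cond K ι W m0 chi) (a : DLab ι W) : ∃ q ≤ p, a ∈ q.N := by
  obtain ⟨q, h1, -, h3⟩ := exists_mem_L p (range a.w) mk_range_le
  by_cases h : a ∈ q.N
  · exact ⟨q, h1, h⟩
  · obtain ⟨r, h4, -, -, -, h5, -⟩ := exists_addN q a h (fun z => h3 ⟨z, rfl⟩) (fun _ => ⊥)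
      (fun _ => bot_le)
    exact ⟨r, h4.trans h1, by rw [h5]; exact mem_insert _ _⟩

/-- dense sets: `C a` is unbounded -/
theorem exists_mem_C (p : Cond K ι W m0 chi) (a : DLab ι W) (ha : a ∈ p.N) :
    ∃ q ≤ p, p.tr.ht < q.tr.ht ∧ q.tr.ht ∈ q.C a := by
  obtain ⟨q, h1, h2, -, -, -, -, h3, -⟩ := exists_succ p (fun _ => ⊥)
    (fun _ _ => bot_lt_m0 ι) (fun _ => ⊥) (fun _ _ => bot_le) {a}
  exact ⟨q, h1, by rw [h2]; exact Order.lt_succ _, h3 a ha rfl⟩

/-- dense sets: `g a` is surjective onto the elements up to `chi a.tag` -/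
theorem exists_g_eq (p : Cond K ι W m0 chi) (a : DLab ι W) (ha : a ∈ p.N) (χ : W)
    (hχ : χ ≤ chi a.tag) : ∃ q ≤ p, ∃ c < q.tr.ht, q.g a c = χ := by
  obtain ⟨q, h1, h2, -, -, -, h3, -, -⟩ := exists_succ p (fun _ => ⊥)
    (fun _ _ => bot_lt_m0 ι) (fun a' => min χ (chi a'.tag)) (fun _ _ => min_le_right _ _) ∅
  refine ⟨q, h1, p.tr.ht, by rw [h2]; exact Order.lt_succ _, ?_⟩
  rw [h3 a ha]
  exact min_eq_left hχ

end Cond

end Pool.Agent.KT
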