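import Pool.Agent.Lib_MP_bf47cd.A02
import Mathlib.Order.SuccPred.Limit

/-!
# H17-A05: lower bounds of decreasing families of conditions, given the tree and the top nodes
-/

set_option linter.unusedSectionVars false
set_option linter.unusedVariables false

namespace Pool.Agent.KT

universe u

open Set Cardinal

variable {K ι W : Type u} [LinearOrder K] [OrderBot K] [WellFoundedLT K] {m0 : K}
  [LinearOrder W] [OrderBot W] [WellFoundedLT W] {chi : W → W}
  [hK : SetupK K ι m0]

/-- members of the union of the decorations are decided by any condition that is tall enough -/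
private lemma A05_mem_iff {J : Type u} [LinearOrder J] (p : J → Cond K ι W m0 chi)
    (hp : ∀ i j, i ≤ j → p j ≤ p i) {j k : J} {a : DLab ι W} (ha : a ∈ (p j).N) {c : K}
    (hc : c ≤ (p j).tr.ht) (hk : c ∈ (p k).C a) : c ∈ (p j).C a := by
  have hak : a ∈ (p k).N := by
    by_contra h
    rw [(p k).C_out a h] at hk
    exact hk
  rcases le_total k j with h | h
  · exact (Cond.le_C (hp k j h) hak ((p k).C_le a c hk)).2 hk
  · exact (Cond.le_C (hp j k h) ha hc).1 hk

private lemma A05_g_eq {J : Type u} [LinearOrder J] (p : J → Cond K ι W m0 chi)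
    (hp : ∀ i j, i ≤ j → p j ≤ p i) {j k : J} {a : DLab ι W} (ha : a ∈ (p j).N) {c : K}
    (hc : c < (p j).tr.ht) (hak : a ∈ (p k).N) (hck : c < (p k).tr.ht) :
    (p k).g a c = (p j).g a c := by
  rcases le_total k j with h | h
  · exact (Cond.le_g (hp k j h) hak hck).symm
  · exact Cond.le_g (hp j k h) ha hc

include hK

/-- `q` has the tree `t`, the union of the labels with the nodes `β`, the union of the decorations;
`t.ht` is added to `C a` if it is a limit point of the union. (The hypothesis `hprom` is the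
promise at `t.ht`; `(p j).tr.ht = t.ht` is allowed.) -/
theorem Cond.exists_sup {J : Type u} [LinearOrder J] [Nonempty J] (hJ : #J ≤ #ι)
    (p : J → Cond K ι W m0 chi) (hp : ∀ i j, i ≤ j → p j ≤ p i) (t : Tr K ι m0)
    (ht : ∀ j, t ≤ (p j).tr) (hsup : ∀ c < t.ht, ∃ j, c < (p j).tr.ht) (β : W → K → K)
    (hβ : ∀ j, ∀ ξ ∈ (p j).L, β ξ ∈ t.T t.ht ∧ trunc (p j).tr.ht (β ξ) = (p j).b ξ)
    (hprom : ∀ j, ∀ a ∈ (p j).N, CofW t.ht → LimPt (⋃ k, (p k).C a) t.ht →
      (fun z => β (a.w z)) ∈ t.A t.ht) :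
    ∃ q : Cond K ι W m0 chi, q.tr = t ∧ (∀ j, q ≤ p j) ∧ q.L = ⋃ j, (p j).L ∧
      (∀ ξ ∈ q.L, q.b ξ = β ξ) ∧ q.N = (⋃ j, (p j).N) ∧
      (∀ a ∈ q.N, ∀ c, c ∈ q.C a ↔ (∃ j, c ∈ (p j).C a) ∨
        (c = t.ht ∧ LimPt (⋃ k, (p k).C a) t.ht)) ∧
      ∀ j, ∀ a ∈ (p j).N, ∀ c < (p j).tr.ht, q.g a c = (p j).g a c := by
  classical
  -- the data
  have hle : ∀ j, (p j).tr.ht ≤ t.ht := fun j => (ht j).1
  have hN' : ∀ {j : J} {a : DLab ι W} {c : K}, c ∈ (p j).C a → a ∈ (p j).N := by
    intro j a c h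
    by_contra h1
    rw [(p j).C_out a h1] at h
    exact h
  -- a tall condition with a given decoration
  have tall : ∀ {a : DLab ι W} {c : K}, a ∈ (⋃ j, (p j).N) → c < t.ht →
      ∃ k, a ∈ (p k).N ∧ c < (p k).tr.ht := by
    intro a c ha hc
    obtain ⟨i, hi⟩ := mem_iUnion.1 ha
    obtain ⟨j, hj⟩ := hsup c hc
    refine ⟨max i j, Cond.le_N (hp i _ (le_max_left i j)) hi, ?_⟩
    exact hj.trans_le (Cond.le_ht (hp j _ (le_max_right i j)))
  let Cn : DLab ι W → Set K := fun a =>
    if a ∈ (⋃ j, (p j).N) then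
      {c | (∃ j, c ∈ (p j).C a) ∨ (c = t.ht ∧ LimPt (⋃ k, (p k).C a) t.ht)} else ∅
  have hCn : ∀ a, a ∈ (⋃ j, (p j).N) → ∀ c, c ∈ Cn a ↔ (∃ j, c ∈ (p j).C a) ∨
      (c = t.ht ∧ LimPt (⋃ k, (p k).C a) t.ht) := by
    intro a ha c
    simp only [Cn, if_pos ha]
    rfl
  -- below the top, the new set agrees with the old ones
  have hCn_lt : ∀ {a : DLab ι W} {k : J} {c : K}, a ∈ (p k).N → c ≤ (p k).tr.ht → c < t.ht →
      (c ∈ Cn a ↔ c ∈ (p k).C a) := by
    intro a k c ha hc hct
    rw [hCn a (mem_iUnion.2 ⟨k, ha⟩) c]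
    constructor
    · rintro (⟨j, hj⟩ | ⟨h, _⟩)
      · exact A05_mem_iff p hp ha hc hj
      · exact absurd h (ne_of_lt hct)
    · intro h
      exact Or.inl ⟨k, h⟩
  have hlim_top : ∀ {a : DLab ι W}, a ∈ (⋃ j, (p j).N) → LimPt (Cn a) t.ht →
      LimPt (⋃ k, (p k).C a) t.ht := by
    intro a ha h
    refine h.mono fun c hc hct => ?_
    rcases (hCn a ha c).1 hc with ⟨j, hj⟩ | ⟨h, _⟩
    · exact mem_iUnion.2 ⟨j, hj⟩
    · exact absurd h (ne_of_lt hct)
  let gn : DLab ι W → K → W := fun a c =>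
    if h : ∃ j, a ∈ (p j).N ∧ c < (p j).tr.ht then (p h.choose).g a c else ⊥
  have hgn : ∀ j, ∀ a ∈ (p j).N, ∀ c < (p j).tr.ht, gn a c = (p j).g a c := by
    intro j a ha c hc
    have h : ∃ j, a ∈ (p j).N ∧ c < (p j).tr.ht := ⟨j, ha, hc⟩
    simp only [gn, dif_pos h]
    exact A05_g_eq p hp ha hc h.choose_spec.1 h.choose_spec.2
  let bn : W → K → K := fun ξ => if ξ ∈ (⋃ j, (p j).L) then β ξ else fun _ => ⊥
  have hbn : ∀ ξ ∈ (⋃ j, (p j).L), bn ξ = β ξ := fun ξ h => by simp only [bn, if_pos h]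
  have hNL : ∀ a ∈ (⋃ j, (p j).N), ∀ z, a.w z ∈ (⋃ j, (p j).L) := by
    intro a ha z
    obtain ⟨i, hi⟩ := mem_iUnion.1 ha
    exact mem_iUnion.2 ⟨i, (p i).N_L a hi z⟩
  let q : Cond K ι W m0 chi :=
    { tr := t
      L := ⋃ j, (p j).L
      b := bn
      N := ⋃ j, (p j).N
      C := Cn
      g := gn
      L_card := card_iUnion_le K m0 hJ _ fun j => (p j).L_card
      N_card := card_iUnion_le K m0 hJ _ fun j => (p j).N_card
      b_mem := by
        intro ξ hξ
        rw [hbn ξ hξ]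
        obtain ⟨j, hj⟩ := mem_iUnion.1 hξ
        exact (hβ j ξ hj).1
      b_out := by
        intro ξ hξ
        simp only [bn, if_neg hξ]
      N_L := hNL
      C_le := by
        intro a c hc
        by_cases ha : a ∈ (⋃ j, (p j).N)
        · rcases (hCn a ha c).1 hc with ⟨j, hj⟩ | ⟨h, _⟩
          · exact ((p j).C_le a c hj).trans (hle j)
          · exact le_of_eq h
        · simp only [Cn, if_neg ha] at hc
          exact absurd hc (notMem_empty c)
      C_out := by
        intro a ha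
        simp only [Cn, if_neg ha]
      C_closed := by
        intro a ha c hc hl
        rcases lt_or_eq_of_le hc with hlt | heq
        · obtain ⟨k, hk, hck⟩ := tall ha hlt
          rw [hCn_lt hk hck.le hlt]
          refine (p k).C_closed a hk c hck.le (hl.mono fun d hd hdc => ?_)
          exact (hCn_lt hk (hdc.trans hck).le (hdc.trans hlt)).1 hd
        · subst heq
          exact (hCn a ha _).2 (Or.inr ⟨rfl, hlim_top ha hl⟩)
      prom := by
        intro a ha e he hl hw
        have hee : e ≤ t.ht := by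
          rcases (hCn a ha e).1 he with ⟨j, hj⟩ | ⟨h, _⟩
          · exact ((p j).C_le a e hj).trans (hle j)
          · exact le_of_eq h
        rcases lt_or_eq_of_le hee with hlt | heq
        · obtain ⟨k, hk, hck⟩ := tall ha hlt
          have h1 := (p k).prom a hk e ((hCn_lt hk hck.le hlt).1 he)
            (hl.mono fun d hd hdc => (hCn_lt hk (hdc.trans hck).le (hdc.trans hlt)).1 hd) hw
          rw [← Tr.A_eq (ht k) hck.le] at h1
          have h2 : (fun z => trunc e (bn (a.w z))) = fun z => trunc e ((p k).b (a.w z)) := by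
            funext z
            have h3 := (p k).N_L a hk z
            rw [hbn _ (mem_iUnion.2 ⟨k, h3⟩), ← (hβ k _ h3).2, trunc_trunc_of_le hck.le]
          rw [h2]
          exact h1
        · subst heq
          obtain ⟨i, hi⟩ := mem_iUnion.1 ha
          have h1 := hprom i a hi hw (hlim_top ha hl)
          have h2 : (fun z => trunc t.ht (bn (a.w z))) = fun z => β (a.w z) := by
            funext z
            have h3 := (p i).N_L a hi z
            rw [hbn _ (mem_iUnion.2 ⟨i, h3⟩)]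
            exact t.T_trunc _ _ (hβ i _ h3).1
          rw [h2]
          exact h1
      g_le := by
        intro a ha c hc
        obtain ⟨k, hk, hck⟩ := tall ha hc
        rw [hgn k a hk c hck]
        exact (p k).g_le a hk c hck
      g_out := by
        intro a c h
        have h1 : ¬ ∃ j, a ∈ (p j).N ∧ c < (p j).tr.ht := by
          rintro ⟨j, hj, hc⟩
          rcases h with h | h
          · exact h (mem_iUnion.2 ⟨j, hj⟩)
          · exact absurd (hc.trans_le (hle j)) (not_lt.2 h)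
        simp only [gn, dif_neg h1] }
  refine ⟨q, rfl, fun j => ⟨ht j, fun ξ hξ => mem_iUnion.2 ⟨j, hξ⟩, fun ξ hξ => ?_,
    fun a ha => mem_iUnion.2 ⟨j, ha⟩, fun a ha c hc => ?_, fun a ha c hc => hgn j a ha c hc⟩,
    rfl, hbn, rfl, fun a ha c => hCn a ha c, hgn⟩
  · change trunc (p j).tr.ht (bn ξ) = (p j).b ξ
    rw [hbn ξ (mem_iUnion.2 ⟨j, hξ⟩)]
    exact (hβ j ξ hξ).2
  · change c ∈ Cn a ↔ c ∈ (p j).C a
    rcases lt_or_eq_of_le (hc.trans (hle j)) with hlt | heq
    · exact hCn_lt ha hc hlt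
    · have hjt : (p j).tr.ht = t.ht := le_antisymm (hle j) (heq ▸ hc)
      rw [hCn a (mem_iUnion.2 ⟨j, ha⟩) c]
      constructor
      · rintro (⟨k, hk⟩ | ⟨_, h⟩)
        · exact A05_mem_iff p hp ha hc hk
        · refine (p j).C_closed a ha c hc ?_
          rw [heq]
          refine h.mono fun d hd hdt => ?_
          obtain ⟨k, hk⟩ := mem_iUnion.1 hd
          exact A05_mem_iff p hp ha (hdt.le.trans_eq hjt.symm) hk
      · intro h
        exact Or.inl ⟨j, h⟩

end Pool.Agent.KT
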