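import Pool.Agent.Lib_MP_bf47cd.A05

/-!
# H17-A06: limits of trees; `σ`-closure
-/

set_option linter.unusedSectionVars false
set_option linter.unusedVariables false

namespace Pool.Agent.KT

universe u

open Set Cardinal

section A06gen
variable {K ι : Type u} [LinearOrder K] [OrderBot K]

lemma A06_wit_congr {T T' : K → Set (K → K)} {A A' : K → Set (ι → K → K)} {e : K}
    (h : ∀ c ≤ e, T c = T' c ∧ A c = A' c) (hw : Wit T A e) : Wit T' A' e := by
  obtain ⟨E, f, h1, h2, h3, h4, h5, h6, h7⟩ := hw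
  refine ⟨E, f, h1, h2, h3, ?_, ?_, ?_, ?_⟩
  · intro c hc x hx
    rw [← (h c (h1 c hc).le).1] at hx
    rw [← (h e le_rfl).1]
    exact h4 c hc x hx
  · intro c hc c' hc' hcc x hx
    rw [← (h c (h1 c hc).le).1] at hx
    exact h5 c hc c' hc' hcc x hx
  · intro y hy
    rw [← (h e le_rfl).1] at hy
    exact h6 y hy
  · intro c hc hl hw ρ hρ
    rw [← (h c (h1 c hc).le).2] at hρ
    exact h7 c hc hl hw ρ hρ

/-- gluing of a coherent family -/
lemma A06_glue {J : Type*} [LinearOrder J] (h : J → K) (δ : K)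
    (hlt : ∀ j, h j < δ) (hsup : ∀ c < δ, ∃ j, c < h j) (y : J → K → K)
    (hy : ∀ i j, i ≤ j → trunc (h i) (y j) = y i) :
    ∃ z : K → K, trunc δ z = z ∧ (∀ j, trunc (h j) z = y j) ∧ ∀ c, (∃ j, z c = y j c) ∨ z c = ⊥ := by
  classical
  have hself : ∀ j, trunc (h j) (y j) = y j := fun j => hy j j le_rfl
  have hag : ∀ i j c, c < h i → c < h j → y i c = y j c := by
    intro i j c hi hj
    rcases le_total i j with hij | hij
    · rw [← hy i j hij, trunc_lt hi]
    · rw [← hy j i hij, trunc_lt hj]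
  set z : K → K := fun c => if hc : ∃ j, c < h j then y hc.choose c else ⊥ with hz
  have hzc : ∀ j c, c < h j → z c = y j c := by
    intro j c hc
    have hex : ∃ j, c < h j := ⟨j, hc⟩
    simp only [hz, dif_pos hex]
    exact hag _ _ c hex.choose_spec hc
  refine ⟨z, ?_, ?_, ?_⟩
  · funext c
    by_cases hc : c < δ
    · rw [trunc_lt hc]
    · rw [trunc_ge (not_lt.1 hc)]
      have hne : ¬ ∃ j, c < h j := by
        rintro ⟨j, hj⟩
        exact hc (hj.trans (hlt j))
      simp only [hz, dif_neg hne]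
  · intro j
    rw [← hself j, trunc_eq_iff]
    intro c hc
    exact hzc j c hc
  · intro c
    by_cases hex : ∃ j, c < h j
    · left
      obtain ⟨j, hj⟩ := hex
      exact ⟨j, hzc j c hj⟩
    · right
      simp only [hz, dif_neg hex]

lemma A06_glue_uniq {J : Type*} (h : J → K) (δ : K) (hsup : ∀ c < δ, ∃ j, c < h j)
    {z z' : K → K} (h1 : trunc δ z = z) (h2 : trunc δ z' = z')
    (h3 : ∀ j, trunc (h j) z = trunc (h j) z') : z = z' := by
  rw [← h1, ← h2, trunc_eq_iff]
  intro c hc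
  obtain ⟨j, hj⟩ := hsup c hc
  exact trunc_eq_iff.1 (h3 j) c hj

end A06gen

variable {K ι W : Type u} [LinearOrder K] [OrderBot K] [WellFoundedLT K] {m0 : K}
  [LinearOrder W] [OrderBot W] [WellFoundedLT W] {chi : W → W}
  [hK : SetupK K ι m0]
include hK

/-- The limit of a decreasing family of trees with unbounded heights below `δ`, with the given
level `S` and the given set `A` at `δ`. -/
theorem Tr.exists_lim {J : Type u} [LinearOrder J] [Nonempty J] (t : J → Tr K ι m0)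
    (ht : ∀ i j, i ≤ j → t j ≤ t i) (δ : K) (hlt : ∀ j, (t j).ht < δ)
    (hsup : ∀ c < δ, ∃ j, c < (t j).ht) (S : Set (K → K)) (A : Set (ι → K → K))
    (hS : ∀ x ∈ S, (∀ c, x c < m0) ∧ trunc δ x = x ∧
      ∀ j, trunc (t j).ht x ∈ (t j).T (t j).ht)
    (hext : ∀ j, ∀ x ∈ (t j).T (t j).ht, ∃ y ∈ S, trunc (t j).ht y = x) (hcard : #S ≤ #ι)
    (hlim : CofW δ → ∀ x : K → K, (∀ c, x c < m0) → trunc δ x = x →
      (∀ j, trunc (t j).ht x ∈ (t j).T (t j).ht) → x ∈ S)
    (hA : ∀ ρ ∈ A, ∀ z, ρ z ∈ S) (hA' : ¬ CofW δ → A = ∅)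
    (hwit : ¬ CofW δ → ∀ (T : K → Set (K → K)) (A' : K → Set (ι → K → K)),
      (∀ j, ∀ e ≤ (t j).ht, T e = (t j).T e ∧ A' e = (t j).A e) → T δ = S → Wit T A' δ) :
    ∃ t' : Tr K ι m0, t'.ht = δ ∧ (∀ j, t' ≤ t j) ∧ t'.T δ = S ∧ t'.A δ = A := by
  classical
  have hTT : ∀ i j e, e ≤ (t i).ht → e ≤ (t j).ht → (t i).T e = (t j).T e := by
    intro i j e hi hj
    rcases le_total i j with h | h
    · exact (Tr.T_eq (ht i j h) hi).symm
    · exact Tr.T_eq (ht j i h) hj
  have hAA : ∀ i j e, e ≤ (t i).ht → e ≤ (t j).ht → (t i).A e = (t j).A e := by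
    intro i j e hi hj
    rcases le_total i j with h | h
    · exact (Tr.A_eq (ht i j h) hi).symm
    · exact Tr.A_eq (ht j i h) hj
  set T : K → Set (K → K) := fun e => {x | (∃ j, x ∈ (t j).T e) ∨ (e = δ ∧ x ∈ S)} with hT
  set B : K → Set (ι → K → K) := fun e => {ρ | (∃ j, ρ ∈ (t j).A e) ∨ (e = δ ∧ ρ ∈ A)} with hB
  have T1 : ∀ j e, e ≤ (t j).ht → T e = (t j).T e := by
    intro j e he
    ext x
    constructor
    · rintro (⟨i, hi⟩ | ⟨h1, _⟩)
      · rw [← hTT i j e (Tr.le_ht hi) he]; exact hi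
      · exact absurd (h1 ▸ he) (not_le.2 (hlt j))
    · intro hx; exact Or.inl ⟨j, hx⟩
  have B1 : ∀ j e, e ≤ (t j).ht → B e = (t j).A e := by
    intro j e he
    ext x
    constructor
    · rintro (⟨i, hi⟩ | ⟨h1, _⟩)
      · by_cases hei : e ≤ (t i).ht
        · rw [← hAA i j e hei he]; exact hi
        · rw [(t i).A_out e (Or.inl (not_le.1 hei))] at hi
          exact absurd hi (notMem_empty _)
      · exact absurd (h1 ▸ he) (not_le.2 (hlt j))
    · intro hx; exact Or.inl ⟨j, hx⟩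
  have T2 : T δ = S := by
    ext x
    constructor
    · rintro (⟨i, hi⟩ | ⟨_, h2⟩)
      · exact absurd (Tr.le_ht hi) (not_le.2 (hlt i))
      · exact h2
    · intro hx; exact Or.inr ⟨rfl, hx⟩
  have B2 : B δ = A := by
    ext x
    constructor
    · rintro (⟨i, hi⟩ | ⟨_, h2⟩)
      · rw [(t i).A_out δ (Or.inl (hlt i))] at hi
        exact absurd hi (notMem_empty _)
      · exact h2
    · intro hx; exact Or.inr ⟨rfl, hx⟩
  have T3 : ∀ e, δ < e → T e = ∅ := by
    intro e he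
    ext x
    simp only [mem_empty_iff_false, iff_false]
    rintro (⟨i, hi⟩ | ⟨h1, _⟩)
    · exact absurd ((Tr.le_ht hi).trans_lt (hlt i)) (not_lt.2 he.le)
    · exact he.ne' h1
  have B3 : ∀ e, δ < e → B e = ∅ := by
    intro e he
    ext x
    simp only [mem_empty_iff_false, iff_false]
    rintro (⟨i, hi⟩ | ⟨h1, _⟩)
    · rw [(t i).A_out e (Or.inl ((hlt i).trans he))] at hi
      exact absurd hi (notMem_empty _)
    · exact he.ne' h1
  let t' : Tr K ι m0 :=
  { ht := δ
    T := T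
    A := B
    T_out := T3
    A_out := by
      rintro e (he | he)
      · exact B3 e he
      · rcases lt_trichotomy e δ with h | h | h
        · obtain ⟨j, hj⟩ := hsup e h
          rw [B1 j e hj.le]
          exact (t j).A_out e (Or.inr he)
        · rw [h, B2]; exact hA' (h ▸ he)
        · exact B3 e h
    T_val := by
      rintro e x (⟨j, hj⟩ | ⟨_, h2⟩) c
      · exact (t j).T_val e x hj c
      · exact (hS x h2).1 c
    T_trunc := by
      rintro e x (⟨j, hj⟩ | ⟨h1, h2⟩)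
      · exact (t j).T_trunc e x hj
      · rw [h1]; exact (hS x h2).2.1
    T_res := by
      rintro e x (⟨j, hj⟩ | ⟨h1, h2⟩) e' he'
      · exact Or.inl ⟨j, (t j).T_res e x hj e' he'⟩
      · rw [h1] at he'
        rcases he'.lt_or_eq with h | h
        · obtain ⟨j, hj⟩ := hsup e' h
          left
          refine ⟨j, ?_⟩
          rw [← trunc_trunc_of_le hj.le]
          exact (t j).T_res _ _ ((hS x h2).2.2 j) e' hj.le
        · right
          refine ⟨h, ?_⟩
          rw [h, (hS x h2).2.1]; exact h2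
    T_ext := by
      intro e e' hee he' x hx
      rcases he'.lt_or_eq with h | h
      · obtain ⟨j, hj⟩ := hsup e' h
        rw [T1 j e (hee.trans hj.le)] at hx
        obtain ⟨y, hy, hyx⟩ := (t j).T_ext e e' hee hj.le x hx
        exact ⟨y, Or.inl ⟨j, hy⟩, hyx⟩
      · rw [h]
        rw [h] at hee
        rcases hee.lt_or_eq with h' | h'
        · obtain ⟨j, hj⟩ := hsup e h'
          rw [T1 j e hj.le] at hx
          obtain ⟨y0, hy0, hyx0⟩ := (t j).T_ext e (t j).ht hj.le le_rfl x hx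
          obtain ⟨y, hy, hyy⟩ := hext j y0 hy0
          refine ⟨y, Or.inr ⟨rfl, hy⟩, ?_⟩
          rw [← trunc_trunc_of_le hj.le, hyy, hyx0]
        · rw [h', T2] at hx
          refine ⟨x, Or.inr ⟨rfl, hx⟩, ?_⟩
          rw [h']; exact (hS x hx).2.1
    T_bot := by
      obtain ⟨j⟩ := ‹Nonempty J›
      rw [T1 j ⊥ bot_le]; exact (t j).T_bot
    T_card := by
      intro e
      rcases lt_trichotomy e δ with h | h | h
      · obtain ⟨j, hj⟩ := hsup e h
        rw [T1 j e hj.le]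
        exact (t j).T_card e
      · rw [h, T2]; exact hcard
      · rw [T3 e h]
        simp
    T_lim := by
      intro e he hcof x hx1 hx2 hx3
      rcases he.lt_or_eq with h | h
      · obtain ⟨j, hj⟩ := hsup e h
        left
        refine ⟨j, (t j).T_lim e hj.le hcof x hx1 hx2 fun c hc => ?_⟩
        have := hx3 c hc
        rwa [T1 j c (hc.le.trans hj.le)] at this
      · right
        refine ⟨h, ?_⟩
        rw [h] at hcof hx2 hx3
        refine hlim hcof x hx1 hx2 fun j => ?_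
        have := hx3 _ (hlt j)
        rwa [T1 j _ le_rfl] at this
    A_mem := by
      rintro e ρ (⟨j, hj⟩ | ⟨h1, h2⟩) z
      · exact Or.inl ⟨j, (t j).A_mem e ρ hj z⟩
      · exact Or.inr ⟨h1, hA ρ h2 z⟩
    wit := by
      intro e he hl hc
      rcases he.lt_or_eq with h | h
      · obtain ⟨j, hj⟩ := hsup e h
        refine A06_wit_congr ?_ ((t j).wit e hj.le hl hc)
        intro c hce
        exact ⟨(T1 j c (hce.trans hj.le)).symm, (B1 j c (hce.trans hj.le)).symm⟩
      · rw [h] at hc ⊢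
        exact hwit hc T B (fun j e he => ⟨T1 j e he, B1 j e he⟩) T2 }
  refine ⟨t', rfl, fun j => ⟨(hlt j).le, fun e he => ⟨T1 j e he, B1 j e he⟩⟩, T2, B2⟩

/-- extension of a node of a countable decreasing sequence of trees to a thread -/
lemma A06_thread (t : ℕ → Tr K ι m0) (ht : ∀ m n, m ≤ n → t n ≤ t m) (δ : K)
    (hlt : ∀ n, (t n).ht < δ) (hsup : ∀ c < δ, ∃ n, c < (t n).ht) (j : ℕ) (y : ℕ → K → K)
    (hy : ∀ n, y n ∈ (t (j + n)).T (t (j + n)).ht)
    (hyy : ∀ n, trunc (t (j + n)).ht (y (n + 1)) = y n) :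
    ∃ z : K → K, (∀ c, z c < m0) ∧ trunc δ z = z ∧
      (∀ n, trunc (t n).ht z ∈ (t n).T (t n).ht) ∧ ∀ n, trunc (t (j + n)).ht z = y n := by
  have hhm : ∀ m n, m ≤ n → (t m).ht ≤ (t n).ht := fun m n h => (ht m n h).1
  have hco : ∀ m n, m ≤ n → trunc (t (j + m)).ht (y n) = y m := by
    intro m n hmn
    induction n, hmn using Nat.le_induction with
    | base => exact (t (j + m)).T_trunc _ _ (hy m)
    | succ n hmn ih =>
      rw [← trunc_trunc_of_le (hhm (j + m) (j + n) (by omega)), hyy n, ih]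
  obtain ⟨z, hz1, hz2, hz3⟩ := A06_glue (fun n => (t (j + n)).ht) δ (fun n => hlt _)
    (fun c hc => by
      obtain ⟨n, hn⟩ := hsup c hc
      exact ⟨n, hn.trans_le (hhm n (j + n) (by omega))⟩) y hco
  refine ⟨z, ?_, hz1, ?_, hz2⟩
  · intro c
    have hb : ⊥ < m0 := lt_of_le_of_lt bot_le ((t j).T_val _ _ (hy 0) ⊥)
    rcases hz3 c with ⟨n, hn⟩ | hn
    · rw [hn]; exact (t (j + n)).T_val _ _ (hy n) c
    · rw [hn]; exact hb
  · intro n
    have h1 : y n ∈ (t (j + n)).T (t (j + n)).ht := hy n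
    have h2 : trunc (t n).ht z = trunc (t n).ht (y n) := by
      rw [← hz2 n, trunc_trunc_of_le (hhm n (j + n) (by omega))]
    rw [h2, ← Tr.T_eq (ht n (j + n) (by omega)) le_rfl]
    exact (t (j + n)).T_res _ _ h1 _ (hhm n (j + n) (by omega))

/-- countable limits: all limits, everything alive -/
theorem Tr.exists_limW (t : ℕ → Tr K ι m0) (ht : ∀ m n, m ≤ n → t n ≤ t m) (δ : K)
    (hlt : ∀ n, (t n).ht < δ) (hsup : ∀ c < δ, ∃ n, c < (t n).ht) :
    ∃ t' : Tr K ι m0, t'.ht = δ ∧ (∀ n, t' ≤ t n) ∧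
      t'.T δ = {x | (∀ c, x c < m0) ∧ trunc δ x = x ∧
        ∀ n, trunc (t n).ht x ∈ (t n).T (t n).ht} ∧
      t'.A δ = {ρ | ∀ z, ρ z ∈ t'.T δ} := by
  classical
  have hcof : CofW δ := ⟨fun n => (t n).ht, hlt, hsup⟩
  have hhm : ∀ m n, m ≤ n → (t m).ht ≤ (t n).ht := fun m n h => (ht m n h).1
  set S : Set (K → K) := {x | (∀ c, x c < m0) ∧ trunc δ x = x ∧
        ∀ n, trunc (t n).ht x ∈ (t n).T (t n).ht} with hS
  have hcard : #S ≤ #ι := by
    have hJ : #(ULift.{u} ℕ) ≤ #ι := by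
      simpa using hK.inf
    have hX : #(⋃ j : ULift.{u} ℕ, (t j.down).T (t j.down).ht : Set (K → K)) ≤ #ι :=
      card_iUnion_le K m0 hJ _ fun j => (t j.down).T_card _
    refine le_trans ?_ (card_seq_le K m0 hX)
    refine mk_le_of_injective (f := fun (x : S) (n : ℕ) =>
      (⟨trunc (t n).ht x.1, mem_iUnion.2 ⟨⟨n⟩, x.2.2.2 n⟩⟩ :
        (⋃ j : ULift.{u} ℕ, (t j.down).T (t j.down).ht : Set (K → K)))) ?_
    intro x y hxy
    refine Subtype.ext (A06_glue_uniq (fun n => (t n).ht) δ hsup x.2.2.1 y.2.2.1 fun n => ?_)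
    exact congrArg Subtype.val (congrFun hxy n)
  have hext : ∀ j, ∀ x ∈ (t j).T (t j).ht, ∃ y ∈ S, trunc (t j).ht y = x := by
    intro j x hx
    have step : ∀ n, ∀ y : (t (j + n)).T (t (j + n)).ht,
        ∃ y' : (t (j + (n + 1))).T (t (j + (n + 1))).ht, trunc (t (j + n)).ht y'.1 = y.1 := by
      intro n y
      have h1 : y.1 ∈ (t (j + (n + 1))).T (t (j + n)).ht := by
        rw [Tr.T_eq (ht (j + n) (j + (n + 1)) (by omega)) le_rfl]
        exact y.2
      obtain ⟨y', hy', hyy⟩ := (t (j + (n + 1))).T_ext _ _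
        (hhm (j + n) (j + (n + 1)) (by omega)) le_rfl _ h1
      exact ⟨⟨y', hy'⟩, hyy⟩
    choose g hg using step
    set y : ∀ n, (t (j + n)).T (t (j + n)).ht := fun n =>
      Nat.rec (motive := fun n => (t (j + n)).T (t (j + n)).ht) ⟨x, hx⟩ (fun n y => g n y) n with hy
    obtain ⟨z, hz1, hz2, hz3, hz4⟩ := A06_thread t ht δ hlt hsup j (fun n => (y n).1)
      (fun n => (y n).2) (fun n => hg n (y n))
    exact ⟨z, ⟨hz1, hz2, hz3⟩, hz4 0⟩
  obtain ⟨t', h1, h2, h3, h4⟩ := Tr.exists_lim (fun j : ULift.{u} ℕ => t j.down)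
    (fun i j hij => ht i.down j.down hij) δ (fun j => hlt j.down)
    (fun c hc => by
      obtain ⟨n, hn⟩ := hsup c hc
      exact ⟨⟨n⟩, hn⟩) S {ρ | ∀ z, ρ z ∈ S}
    (fun x hx => ⟨hx.1, hx.2.1, fun j => hx.2.2 j.down⟩)
    (fun j => hext j.down) hcard
    (fun _ x hx1 hx2 hx3 => ⟨hx1, hx2, fun n => hx3 ⟨n⟩⟩)
    (fun ρ hρ z => hρ z) (fun h => absurd hcof h) (fun h => absurd hcof h)
  refine ⟨t', h1, fun n => h2 ⟨n⟩, h3, ?_⟩
  rw [h4, h3]

/-- the forcing is countably closed (if the heights have no maximum use `Tr.exists_limW`; if they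
have a maximum, the trees are eventually constant) -/
theorem Cond.sigma (p : ℕ → Cond K ι W m0 chi) (hp : Antitone p) : ∃ q, ∀ n, q ≤ p n := by
  classical
  have hJ : #(ULift.{u} ℕ) ≤ #ι := by
    simpa using hK.inf
  have hhm : ∀ m n, m ≤ n → (p m).tr.ht ≤ (p n).tr.ht := fun m n h => Cond.le_ht (hp h)
  by_cases hmax : ∀ n, ∃ m, (p n).tr.ht < (p m).tr.ht
  · -- no maximum
    have hbd : ∃ b : K, ∀ n, (p n).tr.ht < b := by
      obtain ⟨b, hb⟩ := exists_bdd_range ι m0 hJ (fun j : ULift.{u} ℕ => (p j.down).tr.ht)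
      exact ⟨b, fun n => hb ⟨n⟩⟩
    set δ : K := WellFounded.min (wellFounded_lt : WellFounded ((· < ·) : K → K → Prop))
      {b | ∀ n, (p n).tr.ht < b} hbd with hδ
    have hlt : ∀ n, (p n).tr.ht < δ := WellFounded.min_mem _ {b | ∀ n, (p n).tr.ht < b} hbd
    have hsup : ∀ c < δ, ∃ n, c < (p n).tr.ht := by
      intro c hc
      have h1 : ¬ ∀ n, (p n).tr.ht < c := fun h =>
        WellFounded.not_lt_min (wellFounded_lt : WellFounded ((· < ·) : K → K → Prop))
          (s := {b | ∀ n, (p n).tr.ht < b}) h hc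
      rw [not_forall] at h1
      obtain ⟨n, hn⟩ := h1
      obtain ⟨m, hm⟩ := hmax n
      exact ⟨m, (not_lt.1 hn).trans_lt hm⟩
    obtain ⟨t', ht1, ht2, ht3, ht4⟩ := Tr.exists_limW (fun n => (p n).tr)
      (fun m n h => (hp h).1) δ hlt hsup
    have hβ : ∀ ξ : W, ∃ β : K → K, ∀ n, ξ ∈ (p n).L → β ∈ t'.T δ ∧
        trunc (p n).tr.ht β = (p n).b ξ := by
      intro ξ
      by_cases hξ : ∃ j, ξ ∈ (p j).L
      · obtain ⟨j, hj⟩ := hξ
        have hjn : ∀ n, ξ ∈ (p (j + n)).L := fun n => Cond.le_L (hp (by omega : j ≤ j + n)) hj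
        obtain ⟨z, hz1, hz2, hz3, hz4⟩ := A06_thread (fun n => (p n).tr) (fun m n h => (hp h).1) δ
          hlt hsup j (fun n => (p (j + n)).b ξ) (fun n => (p (j + n)).b_mem ξ (hjn n))
          (fun n => Cond.le_b (hp (by omega : j + n ≤ j + (n + 1))) (hjn n))
        refine ⟨z, fun n hn => ⟨?_, ?_⟩⟩
        · rw [ht3]; exact ⟨hz1, hz2, hz3⟩
        · have h1 := Cond.le_b (hp (by omega : n ≤ j + n)) hn
          rw [← h1, ← hz4 n]
          exact (trunc_trunc_of_le (hhm n (j + n) (by omega)) z).symm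
      · exact ⟨fun _ => ⊥, fun n hn => absurd ⟨n, hn⟩ hξ⟩
    choose β hβ using hβ
    obtain ⟨q, _, hq, _⟩ := Cond.exists_sup hJ (fun j : ULift.{u} ℕ => p j.down)
      (fun i j hij => hp hij) t' (fun j => ht2 j.down)
      (fun c hc => by
        rw [ht1] at hc
        obtain ⟨n, hn⟩ := hsup c hc
        exact ⟨⟨n⟩, hn⟩) β
      (fun j ξ hξ => by rw [ht1]; exact hβ ξ j.down hξ)
      (fun j a ha _ _ => by
        rw [ht1, ht4]
        intro z
        exact (hβ _ j.down ((p j.down).N_L a ha z)).1)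
    exact ⟨q, fun n => hq ⟨n⟩⟩
  · -- a maximum
    rw [not_forall] at hmax
    obtain ⟨n, hn⟩ := hmax
    have hn' : ∀ m, (p m).tr.ht ≤ (p n).tr.ht := fun m => not_lt.1 fun h => hn ⟨m, h⟩
    have htr : ∀ k, (p (n + k)).tr = (p n).tr := by
      intro k
      have h1 : (p (n + k)).tr ≤ (p n).tr := (hp (by omega : n ≤ n + k)).1
      refine le_antisymm h1 ⟨hn' _, fun e he => ?_⟩
      have he' : e ≤ (p n).tr.ht := he.trans (hn' _)
      exact ⟨(Tr.T_eq h1 he').symm, (Tr.A_eq h1 he').symm⟩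
    have hb : ∀ ξ k l, ξ ∈ (p (n + k)).L → ξ ∈ (p (n + l)).L →
        (p (n + k)).b ξ = (p (n + l)).b ξ := by
      have key : ∀ ξ k l, k ≤ l → ξ ∈ (p (n + k)).L → (p (n + k)).b ξ = (p (n + l)).b ξ := by
        intro ξ k l hkl hk
        have h1 := Cond.le_b (hp (by omega : n + k ≤ n + l)) hk
        rw [← h1, htr k, ← htr l, (p (n + l)).b_trunc]
      intro ξ k l hk hl
      rcases le_total k l with h | h
      · exact key ξ k l h hk
      · exact (key ξ l k h hl).symm
    have hC : ∀ a k l, a ∈ (p (n + l)).N → ∀ c ∈ (p (n + k)).C a, c ∈ (p (n + l)).C a := by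
      intro a k l hl c hc
      have hk : a ∈ (p (n + k)).N := by
        by_contra h
        rw [(p (n + k)).C_out a h] at hc
        exact hc
      rcases le_total k l with h | h
      · exact (Cond.le_C (hp (by omega : n + k ≤ n + l)) hk ((p (n + k)).C_le a c hc)).2 hc
      · refine (Cond.le_C (hp (by omega : n + l ≤ n + k)) hl ?_).1 hc
        have := (p (n + k)).C_le a c hc
        rwa [htr k, ← htr l] at this
    have hβ : ∀ ξ : W, ∃ β : K → K, ∀ k, ξ ∈ (p (n + k)).L → β = (p (n + k)).b ξ := by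
      intro ξ
      by_cases hξ : ∃ j, ξ ∈ (p (n + j)).L
      · obtain ⟨j, hj⟩ := hξ
        exact ⟨(p (n + j)).b ξ, fun k hk => hb ξ j k hj hk⟩
      · exact ⟨fun _ => ⊥, fun k hk => absurd ⟨k, hk⟩ hξ⟩
    choose β hβ using hβ
    obtain ⟨q, _, hq, _⟩ := Cond.exists_sup hJ (fun j : ULift.{u} ℕ => p (n + j.down))
      (fun i j hij => hp (Nat.add_le_add_left hij n)) (p n).tr
      (fun j => by rw [htr j.down])
      (fun c hc => ⟨⟨0⟩, hc⟩) β
      (fun j ξ hξ => by
        have h1 := hβ ξ j.down hξ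
        have h2 := (p (n + j.down)).b_mem ξ hξ
        rw [h1]
        refine ⟨?_, (p (n + j.down)).b_trunc ξ⟩
        rwa [htr j.down] at h2)
      (fun j a ha hcof hlim => by
        have ha' : a ∈ (p (n + j.down)).N := ha
        have h1 : LimPt ((p (n + j.down)).C a) (p n).tr.ht := by
          refine hlim.mono fun c hc _ => ?_
          obtain ⟨k, hk⟩ := mem_iUnion.1 hc
          exact hC a k.down j.down ha' c hk
        have h2 : (p n).tr.ht ∈ (p (n + j.down)).C a :=
          (p (n + j.down)).C_closed a ha' _ (by rw [htr j.down]) h1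
        have h3 := (p (n + j.down)).prom a ha' _ h2 h1 hcof
        have h4 : (fun z => trunc (p n).tr.ht ((p (n + j.down)).b (a.w z))) =
            fun z => β (a.w z) := by
          funext z
          rw [hβ (a.w z) j.down ((p (n + j.down)).N_L a ha' z), ← htr j.down]
          exact (p (n + j.down)).b_trunc _
        rw [h4, htr j.down] at h3
        exact h3)
    refine ⟨q, fun m => ?_⟩
    rcases le_total n m with h | h
    · obtain ⟨k, rfl⟩ := Nat.exists_eq_add_of_le h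
      exact hq ⟨k⟩
    · exact (hq ⟨0⟩).trans (hp h)

end Pool.Agent.KT
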