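import Pool.Agent.Lib_MP_bf47cd.A06

/-!
# H17-A07: limits of looms of length at most `#ι`
-/

set_option linter.unusedSectionVars false
set_option linter.unusedVariables false

namespace Pool.Agent.KT

universe u

open Set Cardinal

variable {K ι : Type u} [LinearOrder K] [OrderBot K] [WellFoundedLT K] {m0 : K}
  [hK : SetupK K ι m0]
include hK

/-- The limit of a decreasing sequence of looms. The new height `δ` is the supremum of the
heights. If `δ` has cofinality `ω` the new level consists of all limits, and the alive functions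
are the threads of functions to the levels `(t j).ht`; otherwise the new level consists of the
threads, and the witness at `δ` is the union of the looms. The new loom is
`E' = (⋃ j, (l j).E) ∪ {δ}`, with `f' c x` the thread through `x`. -/
theorem Loom.exists_lim {J : Type u} [LinearOrder J] [Nonempty J] [NoMaxOrder J] (hJ : #J ≤ #ι)
    (t : J → Tr K ι m0) (l : ∀ j, Loom (t j))
    (h : ∀ i j, i < j → t j ≤ t i ∧ (t i).ht < (t j).ht ∧
      (∀ c ≤ (t i).ht, c ∈ (l j).E ↔ c ∈ (l i).E) ∧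
      ∀ c ∈ (l i).E, ∀ x ∈ (t i).T c, (l j).f c x = (l j).f (t i).ht ((l i).f c x)) :
    ∃ (t' : Tr K ι m0) (l' : Loom t'), (∀ c < t'.ht, ∃ j, c < (t j).ht) ∧
      (∀ j, t' ≤ t j ∧ (t j).ht < t'.ht ∧ (∀ c ≤ (t j).ht, c ∈ l'.E ↔ c ∈ (l j).E) ∧
        ∀ c ∈ (l j).E, ∀ x ∈ (t j).T c, l'.f c x = l'.f (t j).ht ((l j).f c x)) ∧
      (∀ j k, j ≤ k → ∀ x ∈ (t j).T (t j).ht,
        trunc (t k).ht (l'.f (t j).ht x) = (l k).f (t j).ht x) ∧
      (CofW t'.ht → t'.A t'.ht = {ρ | ∃ j, ∃ ρ' : ι → K → K,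
        (∀ z, ρ' z ∈ (t j).T (t j).ht) ∧ ∀ z, ρ z = l'.f (t j).ht (ρ' z)}) := by
  classical
  -- the new height
  have hbd : ∃ b : K, ∀ j, (t j).ht < b := exists_bdd_range ι m0 hJ (fun j => (t j).ht)
  set δ : K := WellFounded.min (wellFounded_lt : WellFounded ((· < ·) : K → K → Prop))
    {b | ∀ j, (t j).ht < b} hbd with hδ
  have hlt : ∀ j, (t j).ht < δ := WellFounded.min_mem _ {b | ∀ j, (t j).ht < b} hbd
  have hsup : ∀ c < δ, ∃ j, c < (t j).ht := by
    intro c hc
    have h1 : ¬ ∀ j, (t j).ht < c := fun h =>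
      WellFounded.not_lt_min (wellFounded_lt : WellFounded ((· < ·) : K → K → Prop))
        (s := {b | ∀ j, (t j).ht < b}) h hc
    rw [not_forall] at h1
    obtain ⟨j, hj⟩ := h1
    obtain ⟨k, hk⟩ := exists_gt j
    exact ⟨k, (not_lt.1 hj).trans_lt (h j k hk).2.1⟩
  have hm : ∀ i j, i ≤ j → t j ≤ t i := by
    intro i j hij
    rcases hij.lt_or_eq with h1 | h1
    · exact (h i j h1).1
    · rw [h1]
  have hhm : ∀ i j, i ≤ j → (t i).ht ≤ (t j).ht := fun i j hij => (hm i j hij).1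
  have hTT : ∀ i j e, e ≤ (t i).ht → e ≤ (t j).ht → (t i).T e = (t j).T e := by
    intro i j e hi hj
    rcases le_total i j with h | h
    · exact (Tr.T_eq (hm i j h) hi).symm
    · exact Tr.T_eq (hm j i h) hj
  have hEE : ∀ i j c, c ∈ (l i).E → c ≤ (t j).ht → c ∈ (l j).E := by
    intro i j c hi hj
    rcases lt_trichotomy i j with h1 | h1 | h1
    · exact ((h i j h1).2.2.1 c ((l i).E_le c hi)).2 hi
    · rw [← h1]; exact hi
    · exact ((h j i h1).2.2.1 c hj).1 hi
  -- `h` for `i ≤ j`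
  have hf : ∀ i j, i ≤ j → ∀ c ∈ (l i).E, ∀ x ∈ (t i).T c,
      (l j).f c x = (l j).f (t i).ht ((l i).f c x) := by
    intro i j hij c hc x hx
    rcases hij.lt_or_eq with h1 | h1
    · exact (h i j h1).2.2.2 c hc x hx
    · subst h1
      rw [(l i).f_ht ((l i).f_mem c hc x hx)]
  -- coherence of the top nodes
  have hco : ∀ i j k, i ≤ j → j ≤ k → ∀ x ∈ (t i).T (t i).ht,
      trunc (t j).ht ((l k).f (t i).ht x) = (l j).f (t i).ht x := by
    intro i j k hij hjk x hx
    have hc : (t i).ht ∈ (l j).E := hEE i j _ (l i).E_ht (hhm i j hij)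
    have hxj : x ∈ (t j).T (t i).ht := by
      rw [hTT j i _ (hhm i j hij) le_rfl]; exact hx
    rw [hf j k hjk _ hc x hxj]
    refine (l k).f_trunc _ (hEE j k _ (l j).E_ht (hhm j k hjk)) _ ?_
    rw [hTT k j _ (hhm j k hjk) le_rfl]
    exact (l j).f_mem _ hc x hxj
  -- threads
  have hth : ∀ j x, ∃ z : K → K, x ∈ (t j).T (t j).ht → (trunc δ z = z ∧
      (∀ k, j ≤ k → trunc (t k).ht z = (l k).f (t j).ht x) ∧ ∀ c, z c < m0) := by
    intro j x
    by_cases hx : x ∈ (t j).T (t j).ht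
    · obtain ⟨z, hz1, hz2, hz3⟩ := A06_glue (J := {k : J // j ≤ k}) (fun k => (t k.1).ht) δ
        (fun k => hlt k.1)
        (fun c hc => by
          obtain ⟨k, hk⟩ := hsup c hc
          exact ⟨⟨max j k, le_max_left _ _⟩, hk.trans_le (hhm k (max j k) (le_max_right _ _))⟩)
        (fun k => (l k.1).f (t j).ht x)
        (fun i k hik => hco j i.1 k.1 i.2 hik x hx)
      refine ⟨z, fun _ => ⟨hz1, fun k hk => hz2 ⟨k, hk⟩, fun c => ?_⟩⟩
      rcases hz3 c with ⟨k, hk⟩ | hk
      · rw [hk]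
        refine (t k.1).T_val _ _ ((l k.1).f_mem _ (hEE j k.1 _ (l j).E_ht (hhm j k.1 k.2)) x ?_) c
        rw [hTT k.1 j _ (hhm j k.1 k.2) le_rfl]; exact hx
      · rw [hk]
        exact lt_of_le_of_lt bot_le ((t j).T_val _ _ hx ⊥)
    · exact ⟨x, fun hx' => absurd hx' hx⟩
  choose th hth using hth
  have th_self : ∀ j x, x ∈ (t j).T (t j).ht → trunc (t j).ht (th j x) = x := by
    intro j x hx
    rw [(hth j x hx).2.1 j le_rfl, (l j).f_ht hx]
  have th_mem : ∀ j x, x ∈ (t j).T (t j).ht → ∀ k, trunc (t k).ht (th j x) ∈ (t k).T (t k).ht := by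
    intro j x hx k
    rcases le_total j k with hjk | hjk
    · rw [(hth j x hx).2.1 k hjk]
      refine (l k).f_mem _ (hEE j k _ (l j).E_ht (hhm j k hjk)) x ?_
      rw [hTT k j _ (hhm j k hjk) le_rfl]; exact hx
    · rw [← trunc_trunc_of_le (hhm k j hjk), th_self j x hx, hTT k j _ le_rfl (hhm k j hjk)]
      exact (t j).T_res _ x hx _ (hhm k j hjk)
  have th_step : ∀ i j, i ≤ j → ∀ x ∈ (t i).T (t i).ht, th j ((l j).f (t i).ht x) = th i x := by
    intro i j hij x hx
    have hc : (t i).ht ∈ (l j).E := hEE i j _ (l i).E_ht (hhm i j hij)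
    have hxj : x ∈ (t j).T (t i).ht := by
      rw [hTT j i _ (hhm i j hij) le_rfl]; exact hx
    have hy := (l j).f_mem _ hc x hxj
    refine A06_glue_uniq (J := {k : J // j ≤ k}) (fun k => (t k.1).ht) δ
      (fun c hc => by
          obtain ⟨k, hk⟩ := hsup c hc
          exact ⟨⟨max j k, le_max_left _ _⟩, hk.trans_le (hhm k (max j k) (le_max_right _ _))⟩)
      (hth j _ hy).1 (hth i x hx).1 fun k => ?_
    rw [(hth j _ hy).2.1 k.1 k.2, (hth i x hx).2.1 k.1 (hij.trans k.2)]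
    exact (hf j k.1 k.2 _ hc x hxj).symm
  -- the new functions
  set F : K → (K → K) → K → K := fun c x => if c = δ then x else
    if hc : ∃ j, c ∈ (l j).E then th hc.choose ((l hc.choose).f c x) else x with hF
  have Fδ : ∀ x, F δ x = x := by
    intro x
    simp only [hF, if_true]
  have F_eq : ∀ j c, c ∈ (l j).E → ∀ x ∈ (t j).T c, F c x = th j ((l j).f c x) := by
    intro j c hc x hx
    have hcj := (l j).E_le c hc
    have hne : c ≠ δ := (hcj.trans_lt (hlt j)).ne
    have hex : ∃ j, c ∈ (l j).E := ⟨j, hc⟩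
    simp only [hF, if_neg hne, dif_pos hex]
    have hi := hex.choose_spec
    generalize hex.choose = i at hi
    have hci := (l i).E_le c hi
    have hxi : x ∈ (t i).T c := by
      rw [hTT i j c hci hcj]; exact hx
    rcases le_total i j with hij | hij
    · rw [hf i j hij c hi x hxi]
      exact (th_step i j hij _ ((l i).f_mem c hi x hxi)).symm
    · rw [hf j i hij c hc x hx]
      exact th_step j i hij _ ((l j).f_mem c hc x hx)
  have F_ht : ∀ j, ∀ x ∈ (t j).T (t j).ht, F (t j).ht x = th j x := by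
    intro j x hx
    rw [F_eq j _ (l j).E_ht x hx, (l j).f_ht hx]
  -- common index
  have hex : ∀ c, (∃ j, c ∈ (l j).E) → ∀ k, c ≤ (t k).ht → c ∈ (l k).E := by
    rintro c ⟨j, hj⟩ k hk
    exact hEE j k c hj hk
  set E : Set K := {c | ∃ j, c ∈ (l j).E} with hE
  have E_lt : ∀ c ∈ E, c < δ := by
    rintro c ⟨j, hj⟩
    exact ((l j).E_le c hj).trans_lt (hlt j)
  have E_closed : ∀ c < δ, LimPt E c → c ∈ E := by
    intro c hc hl
    obtain ⟨j, hj⟩ := hsup c hc
    refine ⟨j, (l j).E_closed c hj.le (hl.mono fun c' hc' hlt' => ?_)⟩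
    exact hex c' hc' j (hlt'.le.trans hj.le)
  -- the new level
  set S : Set (K → K) := if CofW δ then {x | (∀ c, x c < m0) ∧ trunc δ x = x ∧
      ∀ j, trunc (t j).ht x ∈ (t j).T (t j).ht}
    else {z | ∃ j, ∃ x ∈ (t j).T (t j).ht, z = th j x} with hS
  set A : Set (ι → K → K) := if CofW δ then {ρ | ∃ j, ∃ ρ' : ι → K → K,
      (∀ z, ρ' z ∈ (t j).T (t j).ht) ∧ ∀ z, ρ z = th j (ρ' z)} else ∅ with hA
  have th_S : ∀ j, ∀ x ∈ (t j).T (t j).ht, th j x ∈ S := by
    intro j x hx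
    by_cases hc : CofW δ
    · simp only [hS, if_pos hc]
      exact ⟨(hth j x hx).2.2, (hth j x hx).1, th_mem j x hx⟩
    · simp only [hS, if_neg hc]
      exact ⟨j, x, hx, rfl⟩
  have S_lim : ∀ x ∈ S, (∀ c, x c < m0) ∧ trunc δ x = x ∧
      ∀ j, trunc (t j).ht x ∈ (t j).T (t j).ht := by
    intro x hx
    by_cases hc : CofW δ
    · simp only [hS, if_pos hc] at hx
      exact hx
    · simp only [hS, if_neg hc] at hx
      obtain ⟨j, y, hy, rfl⟩ := hx
      exact ⟨(hth j y hy).2.2, (hth j y hy).1, th_mem j y hy⟩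
  have S_card : #S ≤ #ι := by
    by_cases hc : CofW δ
    · simp only [hS, if_pos hc]
      obtain ⟨s, hs1, hs2⟩ := hc
      choose g hg using fun n => hsup (s n) (hs1 n)
      have hX : #(⋃ j : J, (t j).T (t j).ht : Set (K → K)) ≤ #ι :=
        card_iUnion_le K m0 hJ _ fun j => (t j).T_card _
      refine le_trans ?_ (card_seq_le K m0 hX)
      refine mk_le_of_injective (f := fun (x : {x : K → K | (∀ c, x c < m0) ∧ trunc δ x = x ∧
        ∀ j, trunc (t j).ht x ∈ (t j).T (t j).ht}) (n : ℕ) =>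
        (⟨trunc (t (g n)).ht x.1, mem_iUnion.2 ⟨g n, x.2.2.2 (g n)⟩⟩ :
          (⋃ j : J, (t j).T (t j).ht : Set (K → K)))) ?_
      intro x y hxy
      refine Subtype.ext (A06_glue_uniq (fun n => (t (g n)).ht) δ ?_ x.2.2.1 y.2.2.1 fun n => ?_)
      · intro c hc
        obtain ⟨n, hn⟩ := hs2 c hc
        exact ⟨n, hn.trans (hg n)⟩
      · exact congrArg Subtype.val (congrFun hxy n)
    · simp only [hS, if_neg hc]
      have hX : #(⋃ j : J, (th j '' (t j).T (t j).ht) : Set (K → K)) ≤ #ι :=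
        card_iUnion_le K m0 hJ _ fun j => mk_image_le.trans ((t j).T_card _)
      refine le_trans (mk_le_mk_of_subset ?_) hX
      rintro z ⟨j, x, hx, rfl⟩
      exact mem_iUnion.2 ⟨j, ⟨x, hx, rfl⟩⟩
  -- properties of `F`
  have F4 : ∀ (T : K → Set (K → K)), (∀ j, ∀ e ≤ (t j).ht, T e = (t j).T e) →
      ∀ c ∈ E, ∀ x ∈ T c, F c x ∈ S ∧ trunc c (F c x) = x := by
    rintro T hT c ⟨j, hj⟩ x hx
    have hcj := (l j).E_le c hj
    rw [hT j c hcj] at hx
    have hy := (l j).f_mem c hj x hx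
    rw [F_eq j c hj x hx]
    refine ⟨th_S j _ hy, ?_⟩
    rw [← trunc_trunc_of_le hcj, th_self j _ hy, (l j).f_trunc c hj x hx]
  have F5 : ∀ (T : K → Set (K → K)), (∀ j, ∀ e ≤ (t j).ht, T e = (t j).T e) →
      ∀ c ∈ E, ∀ c' ∈ E, c ≤ c' → ∀ x ∈ T c, F c' (trunc c' (F c x)) = F c x := by
    rintro T hT c hc c' ⟨j, hj⟩ hcc x hx
    have hcj' := (l j).E_le c' hj
    have hcj := hcc.trans hcj'
    have hcE := hex c hc j hcj
    rw [hT j c hcj] at hx
    have hy := (l j).f_mem c hcE x hx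
    rw [F_eq j c hcE x hx]
    have h1 : trunc c' (th j ((l j).f c x)) = trunc c' ((l j).f c x) := by
      rw [← trunc_trunc_of_le hcj', th_self j _ hy]
    rw [h1, F_eq j c' hj _ ((t j).T_res _ _ hy c' hcj'), (l j).f_coh c hcE c' hj hcc x hx]
  have F7 : ∀ c, (∃ j, c ∈ (l j).E) → LimPt E c → CofW c → ∀ j, c ≤ (t j).ht →
      ∀ ρ ∈ (t j).A c, ∃ c' ∈ E, c' < c ∧ ∀ z, ρ z = trunc c (F c' (trunc c' (ρ z))) := by
    intro c hc hl hcof j hcj ρ hρ
    have hcE := hex c hc j hcj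
    have hl' : LimPt (l j).E c := hl.mono fun c' hc' hlt' => hex c' hc' j (hlt'.le.trans hcj)
    obtain ⟨c', hc', hcc', hρ'⟩ := (l j).alive c hcE hl' hcof ρ hρ
    refine ⟨c', ⟨j, hc'⟩, hcc', fun z => ?_⟩
    have hu : trunc c' (ρ z) ∈ (t j).T c' :=
      (t j).T_res c _ ((t j).A_mem c ρ hρ z) c' hcc'.le
    rw [F_eq j c' hc' _ hu, ← trunc_trunc_of_le hcj, th_self j _ ((l j).f_mem c' hc' _ hu)]
    exact hρ' z
  -- the tree
  obtain ⟨t', ht1, ht2, ht3, ht4⟩ := Tr.exists_lim t hm δ hlt hsup S A S_lim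
    (fun j x hx => ⟨th j x, th_S j x hx, th_self j x hx⟩) S_card
    (fun hc x h1 h2 h3 => by
      simp only [hS, if_pos hc]
      exact ⟨h1, h2, h3⟩)
    (fun ρ hρ z => by
      by_cases hc : CofW δ
      · simp only [hA, if_pos hc] at hρ
        obtain ⟨j, ρ', h1, h2⟩ := hρ
        rw [h2 z]
        exact th_S j _ (h1 z)
      · simp only [hA, if_neg hc] at hρ
        exact absurd hρ (notMem_empty _))
    (fun hc => by simp only [hA, if_neg hc])
    (fun hc T A' hTA hTS => by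
      refine ⟨E, F, E_lt, ?_, E_closed, ?_, ?_, ?_, ?_⟩
      · intro c hcδ
        obtain ⟨j, hj⟩ := hsup c hcδ
        exact ⟨(t j).ht, ⟨j, (l j).E_ht⟩, hj⟩
      · rw [hTS]
        exact F4 T fun j e he => (hTA j e he).1
      · exact F5 T fun j e he => (hTA j e he).1
      · intro y hy
        rw [hTS] at hy
        simp only [hS, if_neg hc] at hy
        obtain ⟨j, x, hx, rfl⟩ := hy
        refine ⟨(t j).ht, ⟨j, (l j).E_ht⟩, ?_⟩
        rw [th_self j x hx, F_ht j x hx]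
      · rintro c ⟨j, hj⟩ hl hcof ρ hρ
        have hcj := (l j).E_le c hj
        rw [(hTA j c hcj).2] at hρ
        exact F7 c ⟨j, hj⟩ hl hcof j hcj ρ hρ)
  have hT' : ∀ j, ∀ e ≤ (t j).ht, t'.T e = (t j).T e := fun j e he => Tr.T_eq (ht2 j) he
  have hA' : ∀ j, ∀ e ≤ (t j).ht, t'.A e = (t j).A e := fun j e he => Tr.A_eq (ht2 j) he
  let l' : Loom t' :=
  { E := {c | c ∈ E ∨ c = δ}
    f := F
    E_le := by
      rintro c (hc | hc)
      · rw [ht1]; exact (E_lt c hc).le
      · rw [ht1, hc]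
    E_ht := Or.inr ht1
    E_closed := by
      intro c hc hl
      rw [ht1] at hc
      rcases hc.lt_or_eq with h1 | h1
      · left
        refine E_closed c h1 (hl.mono fun c' hc' hlt' => ?_)
        rcases hc' with h2 | h2
        · exact h2
        · exact absurd (h2 ▸ hlt') (not_lt.2 h1.le)
      · exact Or.inr h1
    f_mem := by
      rintro c (hc | hc) x hx
      · rw [ht1, ht3]
        exact (F4 t'.T hT' c hc x hx).1
      · rw [ht1, hc, Fδ]
        rw [hc] at hx; exact hx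
    f_trunc := by
      rintro c (hc | hc) x hx
      · exact (F4 t'.T hT' c hc x hx).2
      · rw [hc, Fδ]
        rw [hc] at hx
        exact t'.T_trunc _ _ hx
    f_coh := by
      intro c hc c' hc' hcc x hx
      rcases hc' with h1 | h1
      · have hcE : c ∈ E := by
          rcases hc with h2 | h2
          · exact h2
          · exact absurd (hcc.trans_lt (E_lt c' h1)) (by rw [h2]; exact lt_irrefl _)
        exact F5 t'.T hT' c hcE c' h1 hcc x hx
      · rw [h1, Fδ]
        rcases hc with h2 | h2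
        · exact (S_lim _ (F4 t'.T hT' c h2 x hx).1).2.1
        · rw [h2] at hx ⊢
          rw [Fδ]
          exact t'.T_trunc _ _ hx
    alive := by
      intro c hc hl hcof ρ hρ
      by_cases hcδ : c = δ
      · rw [hcδ] at hρ hcof ⊢
        rw [ht4] at hρ
        simp only [hA, if_pos hcof] at hρ
        obtain ⟨j, ρ', h1, h2⟩ := hρ
        refine ⟨(t j).ht, Or.inl ⟨j, (l j).E_ht⟩, hlt j, fun z => ?_⟩
        rw [h2 z, th_self j _ (h1 z), F_ht j _ (h1 z), (hth j _ (h1 z)).1]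
      · have hcE : c ∈ E := hc.resolve_right hcδ
        have hlt' := E_lt c hcE
        obtain ⟨j, hj⟩ := hsup c hlt'
        rw [hA' j c hj.le] at hρ
        have hl' : LimPt E c := hl.mono fun c' hc' hc'' => by
          rcases hc' with h2 | h2
          · exact h2
          · exact absurd (h2 ▸ hc'') (not_lt.2 hlt'.le)
        obtain ⟨c', h1, h2, h3⟩ := F7 c hcE hl' hcof j hj.le ρ hρ
        exact ⟨c', Or.inl h1, h2, h3⟩ }
  refine ⟨t', l', ?_, ?_, ?_, ?_⟩
  · rw [ht1]; exact hsup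
  · intro j
    refine ⟨ht2 j, by rw [ht1]; exact hlt j, fun c hc => ⟨?_, fun hcE => Or.inl ⟨j, hcE⟩⟩, ?_⟩
    · rintro (h1 | h1)
      · exact hex c h1 j hc
      · exact absurd (h1 ▸ hc) (not_le.2 (hlt j))
    · intro c hc x hx
      change F c x = F (t j).ht ((l j).f c x)
      rw [F_eq j c hc x hx, F_ht j _ ((l j).f_mem c hc x hx)]
  · intro j k hjk x hx
    change trunc (t k).ht (F (t j).ht x) = _
    rw [F_ht j x hx, (hth j x hx).2.1 k hjk]
  · intro hc
    rw [ht1] at hc ⊢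
    rw [ht4]
    simp only [hA, if_pos hc]
    ext ρ
    constructor
    · rintro ⟨j, ρ', h1, h2⟩
      refine ⟨j, ρ', h1, fun z => ?_⟩
      change ρ z = F (t j).ht (ρ' z)
      rw [h2 z, F_ht j _ (h1 z)]
    · rintro ⟨j, ρ', h1, h2⟩
      refine ⟨j, ρ', h1, fun z => ?_⟩
      have h3 : ρ z = F (t j).ht (ρ' z) := h2 z
      rw [h3, F_ht j _ (h1 z)]

end Pool.Agent.KT
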