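import Pool.Agent.Lib_MP_bf47cd.A07

/-!
# H17-A08: limits of bundles of length at most `#ι`
-/

set_option linter.unusedSectionVars false
set_option linter.unusedVariables false

namespace Pool.Agent.KT

universe u

open Set Cardinal

variable {K ι W : Type u} [LinearOrder K] [OrderBot K] [WellFoundedLT K] {m0 : K}
  [LinearOrder W] [OrderBot W] [WellFoundedLT W] {chi : W → W} {b0 : W} {V : Type u}
  [hK : SetupK K ι m0]
include hK

/-- Apply `Loom.exists_lim` to the looms and `Cond.exists_sup` to each `fun j => (B j).r v`, with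
`β ξ` the thread of the nodes of `ξ`. The promise holds because the functions
`z ↦ β (a.w z)` are threads of functions to a level `(B j).tr.ht`. -/
theorem Bundle.exists_lim {J : Type u} [LinearOrder J] [Nonempty J] [NoMaxOrder J]
    (hJ : #J ≤ #ι) (B : J → Bundle K ι W m0 chi b0 V)
    (hB : ∀ i j, i < j → (B j).Le (B i) ∧ (B i).tr.ht < (B j).tr.ht) :
    ∃ B' : Bundle K ι W m0 chi b0 V, (∀ j, B'.Le (B j) ∧ (B j).tr.ht < B'.tr.ht) ∧
      ∀ v v', (∀ j, (B j).r v = (B j).r v') → B'.r v = B'.r v' := by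
  classical
  obtain ⟨t', l', hsup, hlow, hthr, hA⟩ := Loom.exists_lim (ι := ι) hJ (fun j => (B j).tr)
    (fun j => (B j).l) (fun i j hij => ⟨(hB i j hij).1.1, (hB i j hij).2, (hB i j hij).1.2.1,
      (hB i j hij).1.2.2.1⟩)
  have hmono : ∀ v : V, ∀ i j, i ≤ j → (B j).r v ≤ (B i).r v := by
    intro v i j hij
    rcases hij.eq_or_lt with h | h
    · rw [h]
    · exact ((hB i j h).1.2.2.2 v).1
  have hE : ∀ j, (B j).tr.ht ∈ l'.E := fun j =>
    ((hlow j).2.2.1 _ le_rfl).2 (B j).l.E_ht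
  have hT : ∀ j, t'.T (B j).tr.ht = (B j).tr.T (B j).tr.ht := fun j => Tr.T_eq (hlow j).1 le_rfl
  have hbm : ∀ (v : V) (j : J) (ξ : W), ξ ∈ ((B j).r v).L →
      ((B j).r v).b ξ ∈ (B j).tr.T (B j).tr.ht := by
    intro v j ξ hξ
    have h := ((B j).r v).b_mem ξ hξ
    rwa [(B j).r_tr v] at h
  -- the thread does not depend on the index
  have hind : ∀ (v : V) (i j : J), i < j → ∀ ξ ∈ ((B i).r v).L,
      l'.f (B i).tr.ht (((B i).r v).b ξ) = l'.f (B j).tr.ht (((B j).r v).b ξ) := by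
    intro v i j hij ξ hξ
    have h1 := (hB i j hij).1
    rw [(h1.2.2.2 v).2 ξ hξ]
    have h2 : (B i).tr.ht ∈ (B j).l.E := (h1.2.1 _ le_rfl).2 (B i).l.E_ht
    refine (hlow j).2.2.2 _ h2 _ ?_
    rw [Tr.T_eq h1.1 le_rfl]
    exact hbm v i ξ hξ
  have hind' : ∀ (v : V) (i j : J) (ξ : W), ξ ∈ ((B i).r v).L → ξ ∈ ((B j).r v).L →
      l'.f (B i).tr.ht (((B i).r v).b ξ) = l'.f (B j).tr.ht (((B j).r v).b ξ) := by
    intro v i j ξ hi hj
    rcases lt_trichotomy i j with h | h | h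
    · exact hind v i j h ξ hi
    · rw [h]
    · exact (hind v j i h ξ hj).symm
  -- the conditions
  have spec : ∀ v : V, ∃ q : Cond K ι W m0 chi, q.tr = t' ∧ (∀ j, q ≤ (B j).r v) ∧
      q.L = (⋃ j, ((B j).r v).L) ∧
      (∀ j, ∀ ξ ∈ ((B j).r v).L, q.b ξ = l'.f (B j).tr.ht (((B j).r v).b ξ)) ∧
      q.N = (⋃ j, ((B j).r v).N) ∧
      (∀ a ∈ q.N, ∀ c, c ∈ q.C a ↔ (∃ j, c ∈ ((B j).r v).C a) ∨
        (c = t'.ht ∧ LimPt (⋃ k, ((B k).r v).C a) t'.ht)) ∧
      ∀ j, ∀ a ∈ ((B j).r v).N, ∀ c < (B j).tr.ht, q.g a c = ((B j).r v).g a c := by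
    intro v
    let β : W → K → K := fun ξ => if h : ∃ j, ξ ∈ ((B j).r v).L then
      l'.f (B h.choose).tr.ht (((B h.choose).r v).b ξ) else fun _ => ⊥
    have hβe : ∀ j, ∀ ξ ∈ ((B j).r v).L, β ξ = l'.f (B j).tr.ht (((B j).r v).b ξ) := by
      intro j ξ hξ
      have hex : ∃ j, ξ ∈ ((B j).r v).L := ⟨j, hξ⟩
      have h1 : β ξ = l'.f (B hex.choose).tr.ht (((B hex.choose).r v).b ξ) := dif_pos hex
      rw [h1]
      exact hind' v _ _ ξ hex.choose_spec hξ
    have hβ : ∀ j, ∀ ξ ∈ ((B j).r v).L, β ξ ∈ t'.T t'.ht ∧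
        trunc ((B j).r v).tr.ht (β ξ) = ((B j).r v).b ξ := by
      intro j ξ hξ
      rw [hβe j ξ hξ, (B j).r_tr v]
      have h2 : ((B j).r v).b ξ ∈ t'.T (B j).tr.ht := by
        rw [hT j]; exact hbm v j ξ hξ
      exact ⟨l'.f_mem _ (hE j) _ h2, l'.f_trunc _ (hE j) _ h2⟩
    obtain ⟨q, q1, q2, q3, q4, q5, q6, q7⟩ := Cond.exists_sup hJ (fun j => (B j).r v)
      (hmono v) t' (fun j => by
        rw [(B j).r_tr v]; exact (hlow j).1)
      (fun c hc => by
        obtain ⟨j, hj⟩ := hsup c hc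
        refine ⟨j, ?_⟩
        rw [(B j).r_tr v]; exact hj) β hβ
      (fun j a ha hw _ => by
        rw [hA hw]
        refine ⟨j, fun z => ((B j).r v).b (a.w z), fun z => hbm v j _ (((B j).r v).N_L a ha z),
          fun z => hβe j _ (((B j).r v).N_L a ha z)⟩)
    refine ⟨q, q1, q2, q3, fun j ξ hξ => ?_, q5, q6, fun j a ha c hc => ?_⟩
    · rw [q4 ξ (by rw [q3]; exact mem_iUnion.2 ⟨j, hξ⟩)]
      exact hβe j ξ hξ
    · refine q7 j a ha c ?_
      rw [(B j).r_tr v]; exact hc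
  choose q q1 q2 q3 q4 q5 q6 q7 using spec
  -- comparison of labels
  have cmpL : ∀ (v v' : V) (ξ : W), (∀ j, (ξ ∈ ((B j).r v).L ↔ ξ ∈ ((B j).r v').L) ∧
      ((B j).r v).b ξ = ((B j).r v').b ξ) →
      (ξ ∈ (q v).L ↔ ξ ∈ (q v').L) ∧ (q v).b ξ = (q v').b ξ := by
    intro v v' ξ h
    have h1 : ξ ∈ (q v).L ↔ ξ ∈ (q v').L := by
      rw [q3 v, q3 v', mem_iUnion, mem_iUnion]
      exact exists_congr fun j => (h j).1
    refine ⟨h1, ?_⟩
    by_cases h2 : ξ ∈ (q v).L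
    · have h3 := h2
      rw [q3 v, mem_iUnion] at h3
      obtain ⟨j, hj⟩ := h3
      rw [q4 v j ξ hj, q4 v' j ξ ((h j).1.1 hj), (h j).2]
    · rw [(q v).b_out ξ h2, (q v').b_out ξ (fun h3 => h2 (h1.2 h3))]
  have cmpN : ∀ (v v' : V) (a : DLab ι W), (∀ j, (a ∈ ((B j).r v).N ↔ a ∈ ((B j).r v').N) ∧
      ((B j).r v).C a = ((B j).r v').C a ∧ ((B j).r v).g a = ((B j).r v').g a) →
      (a ∈ (q v).N ↔ a ∈ (q v').N) ∧ (q v).C a = (q v').C a ∧ (q v).g a = (q v').g a := by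
    intro v v' a h
    have h1 : a ∈ (q v).N ↔ a ∈ (q v').N := by
      rw [q5 v, q5 v', mem_iUnion, mem_iUnion]
      exact exists_congr fun j => (h j).1
    refine ⟨h1, ?_, ?_⟩
    · by_cases h2 : a ∈ (q v).N
      · have h3 := h1.1 h2
        have hU : (⋃ k, ((B k).r v).C a) = ⋃ k, ((B k).r v').C a :=
          iUnion_congr fun k => (h k).2.1
        ext c
        rw [q6 v a h2 c, q6 v' a h3 c, hU]
        refine or_congr (exists_congr fun j => ?_) Iff.rfl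
        rw [(h j).2.1]
      · rw [(q v).C_out a h2, (q v').C_out a (fun h3 => h2 (h1.2 h3))]
    · funext c
      by_cases h2 : a ∈ (q v).N ∧ c < t'.ht
      · obtain ⟨h3, h4⟩ := h2
        rw [q5 v, mem_iUnion] at h3
        obtain ⟨j1, hj1⟩ := h3
        obtain ⟨j2, hj2⟩ := hsup c h4
        have h5 : a ∈ ((B (max j1 j2)).r v).N := Cond.le_N (hmono v _ _ (le_max_left j1 j2)) hj1
        have h6 : c < (B (max j1 j2)).tr.ht := by
          refine lt_of_lt_of_le hj2 ?_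
          have h7 := Cond.le_ht (hmono v _ _ (le_max_right j1 j2))
          rwa [(B _).r_tr v, (B _).r_tr v] at h7
        rw [q7 v _ a h5 c h6, q7 v' _ a ((h _).1.1 h5) c h6, (h _).2.2]
      · have h3 : a ∉ (q v).N ∨ (q v).tr.ht ≤ c := by
          rw [q1 v]
          by_cases h4 : a ∈ (q v).N
          · right; exact not_lt.1 fun h5 => h2 ⟨h4, h5⟩
          · left; exact h4
        have h3' : a ∉ (q v').N ∨ (q v').tr.ht ≤ c := by
          rw [q1 v']
          rw [q1 v] at h3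
          exact h3.imp (fun h4 h5 => h4 (h1.2 h5)) id
        rw [(q v).g_out a c h3, (q v').g_out a c h3']
  -- the bundle
  let B' : Bundle K ι W m0 chi b0 V :=
    { tr := t'
      l := l'
      r := q
      r_tr := q1
      r_inj := by
        intro v ξ hξ ξ' hξ' he
        rw [q3 v, mem_iUnion] at hξ hξ'
        obtain ⟨j1, hj1⟩ := hξ
        obtain ⟨j2, hj2⟩ := hξ'
        have h1 : ξ ∈ ((B (max j1 j2)).r v).L := Cond.le_L (hmono v _ _ (le_max_left j1 j2)) hj1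
        have h2 : ξ' ∈ ((B (max j1 j2)).r v).L := Cond.le_L (hmono v _ _ (le_max_right j1 j2)) hj2
        refine (B (max j1 j2)).r_inj v h1 h2 ?_
        rw [← Cond.le_b (q2 v (max j1 j2)) h1, ← Cond.le_b (q2 v (max j1 j2)) h2, he]
      r_restr := by
        intro v v'
        have hr : ∀ j, Cond.restr b0 ((B j).r v) = Cond.restr b0 ((B j).r v') := fun j =>
          (B j).r_restr v v'
        rw [Cond.restr_eq_iff]
        refine ⟨(q1 v).trans (q1 v').symm, fun ξ hξ => cmpL v v' ξ fun j => ?_,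
          fun a ha => cmpN v v' a fun j => ?_⟩
        · exact (Cond.restr_eq_iff.1 (hr j)).2.1 ξ hξ
        · exact (Cond.restr_eq_iff.1 (hr j)).2.2 a ha }
  refine ⟨B', fun j => ⟨⟨(hlow j).1, (hlow j).2.2.1, (hlow j).2.2.2, fun v => ⟨q2 v j, q4 v j⟩⟩,
    (hlow j).2.1⟩, fun v v' h => ?_⟩
  have e : ∀ j, (B j).r v = (B j).r v' := h
  refine Cond.ext' ((q1 v).trans (q1 v').symm) ?_ (fun ξ _ => ?_) ?_ (fun a _ => ?_)
    (fun a _ => ?_)
  · ext ξ
    exact (cmpL v v' ξ fun j => by rw [e j]; exact ⟨Iff.rfl, rfl⟩).1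
  · exact (cmpL v v' ξ fun j => by rw [e j]; exact ⟨Iff.rfl, rfl⟩).2
  · ext a
    exact (cmpN v v' a fun j => by rw [e j]; exact ⟨Iff.rfl, rfl, rfl⟩).1
  · exact (cmpN v v' a fun j => by rw [e j]; exact ⟨Iff.rfl, rfl, rfl⟩).2.1
  · exact (cmpN v v' a fun j => by rw [e j]; exact ⟨Iff.rfl, rfl, rfl⟩).2.2

end Pool.Agent.KT
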