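import Pool.Agent.Lib_MP_bf47cd.A04

/-!
# H17-A09: the step
-/

set_option linter.unusedSectionVars false
set_option linter.unusedVariables false

namespace Pool.Agent.KT

universe u

open Set Cardinal

variable {K ι W : Type u} [LinearOrder K] [OrderBot K] [WellFoundedLT K] [SuccOrder K]
  [NoMaxOrder K] {m0 : K} [LinearOrder W] [OrderBot W] [WellFoundedLT W] {chi : W → W}
  {b0 : W} {V : Type u} [hK : SetupK K ι m0]
include hK

/-- `t'` is the one-level extension of `t1` -/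
private def A09_IsSucc (t1 t' : Tr K ι m0) : Prop :=
  t' ≤ t1 ∧ t'.ht = Order.succ t1.ht ∧
    ∀ y, y ∈ t'.T t'.ht ↔ (trunc t1.ht y ∈ t1.T t1.ht ∧ y t1.ht < m0 ∧ trunc t'.ht y = y)

private lemma A09_lt {t1 t' : Tr K ι m0} (h : A09_IsSucc t1 t') : t1.ht < t'.ht := by
  rw [h.2.1]; exact Order.lt_succ _

private lemma A09_top {t1 t' : Tr K ι m0} (h : A09_IsSucc t1 t') {x : K → K}
    (hx : x ∈ t1.T t1.ht) : x ∈ t'.T t'.ht := by
  have h1 := t1.T_trunc _ x hx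
  rw [h.2.2, h1]
  exact ⟨hx, t1.T_val _ x hx _, trunc_eq_self_of_le h1 (A09_lt h).le⟩

private lemma A09_bot {t1 : Tr K ι m0} {x : K → K} (hx : x ∈ t1.T t1.ht) : x t1.ht = ⊥ := by
  have h1 := t1.T_trunc _ x hx
  rw [← h1]
  exact trunc_ge le_rfl

private lemma A09_not_lim {t1 t' : Tr K ι m0} (h : A09_IsSucc t1 t') : ¬ IsLim t'.ht := by
  rintro ⟨-, h2⟩
  obtain ⟨c, h3, h4⟩ := h2 t1.ht (A09_lt h)
  rw [h.2.1] at h4
  exact absurd h3 (not_lt.2 (Order.lt_succ_iff.1 h4))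

open Classical in
/-- the loom after the step -/
private noncomputable def A09_loom {t t1 t' : Tr K ι m0} (l : Loom t) (h1 : t1 ≤ t)
    (h2 : A09_IsSucc t1 t') (φ : (K → K) → K → K)
    (hφ : ∀ x ∈ t.T t.ht, φ x ∈ t1.T t1.ht ∧ trunc t.ht (φ x) = x) : Loom t' where
  E := insert t'.ht l.E
  f c x := if c = t'.ht then x else φ (l.f c x)
  E_le c hc := by
    rcases hc with h | h
    · exact h.le
    · exact (l.E_le c h).trans (h1.1.trans (A09_lt h2).le)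
  E_ht := mem_insert _ _
  E_closed c hc hl := by
    by_cases h : c = t'.ht
    · rw [h]; exact mem_insert _ _
    · right
      have hlt : c < t'.ht := lt_of_le_of_ne hc h
      have hl' : LimPt l.E c := hl.mono fun c' hc' hlt' => by
        rcases hc' with h3 | h3
        · rw [h3] at hlt'; exact absurd (hlt'.trans hlt) (lt_irrefl _)
        · exact h3
      refine l.E_closed c ?_ hl'
      by_contra h3
      obtain ⟨c', h4, h5, -⟩ := hl'.2 _ (not_le.1 h3)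
      exact absurd (l.E_le c' h4) (not_le.2 h5)
  f_mem c hc x hx := by
    by_cases h : c = t'.ht
    · rw [if_pos h]; rw [h] at hx; exact hx
    · rw [if_neg h]
      have h3 : c ∈ l.E := hc.resolve_left h
      have h4 := l.E_le c h3
      rw [Tr.T_eq (h2.1.trans h1) h4] at hx
      exact A09_top h2 (hφ _ (l.f_mem c h3 x hx)).1
  f_trunc c hc x hx := by
    by_cases h : c = t'.ht
    · rw [if_pos h]; exact t'.T_trunc c x hx
    · rw [if_neg h]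
      have h3 : c ∈ l.E := hc.resolve_left h
      have h4 := l.E_le c h3
      rw [Tr.T_eq (h2.1.trans h1) h4] at hx
      rw [← trunc_trunc_of_le h4, (hφ _ (l.f_mem c h3 x hx)).2]
      exact l.f_trunc c h3 x hx
  f_coh c hc c' hc' hcc x hx := by
    by_cases h : c' = t'.ht
    · rw [if_pos h, h]
      by_cases h' : c = t'.ht
      · rw [if_pos h']; rw [h'] at hx; exact t'.T_trunc _ x hx
      · rw [if_neg h']
        have h3 : c ∈ l.E := hc.resolve_left h'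
        have h4 := l.E_le c h3
        rw [Tr.T_eq (h2.1.trans h1) h4] at hx
        exact t'.T_trunc _ _ (A09_top h2 (hφ _ (l.f_mem c h3 x hx)).1)
    · have h3' : c' ∈ l.E := hc'.resolve_left h
      have h4' := l.E_le c' h3'
      have h' : c ≠ t'.ht := by
        intro h5
        rw [h5] at hcc
        exact absurd (hcc.trans (h4'.trans h1.1)) (not_le.2 (A09_lt h2))
      have h3 : c ∈ l.E := hc.resolve_left h'
      have h4 := l.E_le c h3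
      rw [Tr.T_eq (h2.1.trans h1) h4] at hx
      rw [if_neg h, if_neg h', ← trunc_trunc_of_le h4', (hφ _ (l.f_mem c h3 x hx)).2,
        l.f_coh c h3 c' h3' hcc x hx]
  alive c hc hl hw ρ hρ := by
    have h : c ≠ t'.ht := by
      intro h5
      rw [h5] at hl
      exact A09_not_lim h2 hl.isLim
    have h3 : c ∈ l.E := hc.resolve_left h
    have h4 := l.E_le c h3
    have hl' : LimPt l.E c := hl.mono fun c' hc' hlt' => by
      rcases hc' with h5 | h5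
      · rw [h5] at hlt'
        exact absurd (hlt'.le.trans (h4.trans h1.1)) (not_le.2 (A09_lt h2))
      · exact h5
    rw [Tr.A_eq (h2.1.trans h1) h4] at hρ
    obtain ⟨c', h5, h6, h7⟩ := l.alive c h3 hl' hw ρ hρ
    refine ⟨c', Or.inr h5, h6, fun z => ?_⟩
    have h8 : c' ≠ t'.ht := by
      intro h9
      rw [h9] at h6
      exact absurd (h6.le.trans (h4.trans h1.1)) (not_le.2 (A09_lt h2))
    have h9 : trunc c' (ρ z) ∈ t.T c' := t.T_res c _ (t.A_mem c ρ hρ z) c' h6.le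
    rw [if_neg h8, ← trunc_trunc_of_le h4, (hφ _ (l.f_mem c' h5 _ h9)).2]
    exact h7 z

private lemma A09_loom_f {t t1 t' : Tr K ι m0} (l : Loom t) (h1 : t1 ≤ t)
    (h2 : A09_IsSucc t1 t') (φ : (K → K) → K → K)
    (hφ : ∀ x ∈ t.T t.ht, φ x ∈ t1.T t1.ht ∧ trunc t.ht (φ x) = x) {c : K} (hc : c ≤ t.ht)
    (x : K → K) : (A09_loom l h1 h2 φ hφ).f c x = φ (l.f c x) := by
  have h3 : c ≠ t'.ht := by
    intro h5
    rw [h5] at hc
    exact absurd (hc.trans h1.1) (not_le.2 (A09_lt h2))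
  exact if_neg h3

private lemma A09_loom_E {t t1 t' : Tr K ι m0} (l : Loom t) (h1 : t1 ≤ t)
    (h2 : A09_IsSucc t1 t') (φ : (K → K) → K → K)
    (hφ : ∀ x ∈ t.T t.ht, φ x ∈ t1.T t1.ht ∧ trunc t.ht (φ x) = x) {c : K} (hc : c ≤ t.ht) :
    c ∈ (A09_loom l h1 h2 φ hφ).E ↔ c ∈ l.E := by
  have h3 : c ≠ t'.ht := by
    intro h5
    rw [h5] at hc
    exact absurd (hc.trans h1.1) (not_le.2 (A09_lt h2))
  constructor
  · intro h
    exact Or.resolve_left (h : c = t'.ht ∨ c ∈ l.E) h3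
  · intro h
    exact Or.inr h

/-- the data of the lift of `y` (`y ≤ p`, the nodes of `p` are sent to the nodes of `y` by `φ`);
the labels of `p` get the value `⊥`, the other ones the value `j` -/
private lemma A09_lift {t1 t' : Tr K ι m0} (h2 : A09_IsSucc t1 t')
    (p y : Cond K ι W m0 chi) (hy : y ≤ p) (hyt : y.tr = t1) (hinj : InjOn p.b p.L)
    (j : W → K) (hj : ∀ ξ ∈ y.L, ξ ∉ p.L → ⊥ < j ξ ∧ j ξ < m0) (hji : InjOn j (y.L \ p.L)) :
    ∃ q : Cond K ι W m0 chi, q ≤ y ∧ q.tr = t' ∧ q.L = y.L ∧ q.N = y.N ∧ q.C = y.C ∧ q.g = y.g ∧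
      InjOn q.b q.L ∧ (∀ ξ ∈ p.L, q.b ξ = y.b ξ) ∧
      (∀ ξ ∈ y.L, ξ ∉ p.L → q.b ξ t1.ht = j ξ) ∧
      (∀ ξ ∈ y.L, ξ ∉ p.L → q.b ξ = fun c => if c = t1.ht then j ξ else y.b ξ c) := by
  classical
  let β : W → K → K := fun ξ => if ξ ∈ p.L then y.b ξ else
    fun c => if c = t1.ht then j ξ else y.b ξ c
  have hβ1 : ∀ ξ ∈ p.L, β ξ = y.b ξ := fun ξ h => if_pos h
  have hβ2 : ∀ ξ, ξ ∉ p.L → β ξ = fun c => if c = t1.ht then j ξ else y.b ξ c :=
    fun ξ h => if_neg h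
  have hym : ∀ ξ ∈ y.L, y.b ξ ∈ t1.T t1.ht := fun ξ h => by
    have := y.b_mem ξ h
    rwa [hyt] at this
  have hβt : ∀ ξ, trunc t1.ht (β ξ) = trunc t1.ht (y.b ξ) := by
    intro ξ
    by_cases h : ξ ∈ p.L
    · rw [hβ1 ξ h]
    · rw [trunc_eq_iff]
      intro c hc
      rw [hβ2 ξ h]
      show (if c = t1.ht then j ξ else y.b ξ c) = y.b ξ c
      rw [if_neg (ne_of_lt hc)]
  have hβ : ∀ ξ ∈ y.L, β ξ ∈ t'.T t'.ht ∧ trunc y.tr.ht (β ξ) = y.b ξ := by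
    intro ξ hξ
    have h3 := t1.T_trunc _ _ (hym ξ hξ)
    refine ⟨?_, by rw [hyt, hβt, h3]⟩
    by_cases h : ξ ∈ p.L
    · rw [hβ1 ξ h]; exact A09_top h2 (hym ξ hξ)
    · rw [h2.2.2, hβt, h3]
      refine ⟨hym ξ hξ, ?_, ?_⟩
      · rw [hβ2 ξ h]
        show (if t1.ht = t1.ht then j ξ else y.b ξ t1.ht) < m0
        rw [if_pos rfl]; exact (hj ξ hξ h).2
      · funext c
        by_cases hc : c < t'.ht
        · rw [trunc_lt hc]
        · rw [trunc_ge (not_lt.1 hc), hβ2 ξ h]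
          have h4 : t1.ht < c := (A09_lt h2).trans_le (not_lt.1 hc)
          show ⊥ = if c = t1.ht then j ξ else y.b ξ c
          rw [if_neg (ne_of_gt h4), ← h3, trunc_ge h4.le]
  obtain ⟨q, q1, q2, q3, q4, q5, q6, q7⟩ := Cond.exists_lift y t' β (by rw [hyt]; exact h2.1) hβ
  have hpL : ∀ ξ ∈ p.L, ξ ∈ y.L := fun ξ h => Cond.le_L hy h
  have hval : ∀ ξ ∈ y.L, ξ ∉ p.L → q.b ξ t1.ht = j ξ := fun ξ hξ h => by
    rw [q5 ξ hξ, hβ2 ξ h]
    exact if_pos rfl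
  have hval' : ∀ ξ ∈ p.L, q.b ξ t1.ht = ⊥ := fun ξ h => by
    rw [q5 ξ (hpL ξ h), hβ1 ξ h]
    exact A09_bot (hym ξ (hpL ξ h))
  refine ⟨q, q1, q2, q3, q4, q6, q7, ?_, fun ξ h => by rw [q5 ξ (hpL ξ h), hβ1 ξ h], hval,
    fun ξ hξ h => by rw [q5 ξ hξ, hβ2 ξ h]⟩
  rw [q3]
  intro ξ hξ ξ' hξ' he
  by_cases h : ξ ∈ p.L
  · by_cases h' : ξ' ∈ p.L
    · refine hinj h h' ?_
      rw [← Cond.le_b hy h, ← Cond.le_b hy h']
      have h3 : q.b ξ = y.b ξ := by rw [q5 ξ hξ, hβ1 ξ h]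
      have h4 : q.b ξ' = y.b ξ' := by rw [q5 ξ' hξ', hβ1 ξ' h']
      rw [← h3, ← h4, he]
    · exfalso
      have h3 := hval' ξ h
      rw [he, hval ξ' hξ' h'] at h3
      exact absurd (hj ξ' hξ' h').1 (by rw [h3]; exact lt_irrefl _)
  · by_cases h' : ξ' ∈ p.L
    · exfalso
      have h3 := hval' ξ' h'
      rw [← he, hval ξ hξ h] at h3
      exact absurd (hj ξ hξ h).1 (by rw [h3]; exact lt_irrefl _)
    · refine hji ⟨hξ, h⟩ ⟨hξ', h'⟩ ?_
      rw [← hval ξ hξ h, ← hval ξ' hξ' h', he]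

/-- **Step.** `y v ≤ B.r v` for `v ∈ V0`, all on one tree and with one part below `b0`, and the
extension of the nodes `(B.r v).b ξ` by the `(y v).b ξ` is well defined. Then there is a smaller
bundle with `B'.r v ≤ y v` for `v ∈ V0`.
PROOF. Let `φ` send the node `(B.r v).b ξ` (`v ∈ V0`) to `(y v).b ξ`, and every other top node of
`B.tr` to some top node of `(y v).tr` above it. Go up one level (`Tr.exists_succ`) from `(y v).tr`;
the new loom is `E' = E ∪ {ht'}`, `f' c x` = the extension of `φ (f c x)` by the value `⊥`.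
For `v ∈ V0`: lift `y v`, the labels of `B.r v` get the value `⊥`, the new labels get distinct
values `> ⊥` (the ones below `b0` from a fixed injection into `M0`, the others from an injection
into `M1` that depends on `y v` only; see `exists_two_sets`). For `v ∉ V0`: lift `B.r v` along
`φ` (value `⊥`) and amalgamate with the part below `b0` of the new `B'.r v0`, `v0 ∈ V0`. -/
theorem Bundle.exists_step (B : Bundle K ι W m0 chi b0 V) (V0 : Set V) (hne : V0.Nonempty)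
    (y : V → Cond K ι W m0 chi) (hy : ∀ v ∈ V0, y v ≤ B.r v)
    (hrestr : ∀ v ∈ V0, ∀ v' ∈ V0, Cond.restr b0 (y v) = Cond.restr b0 (y v'))
    (hcomp : ∀ v ∈ V0, ∀ v' ∈ V0, ∀ ξ ∈ (B.r v).L, ∀ ξ' ∈ (B.r v').L,
      (B.r v).b ξ = (B.r v').b ξ' → (y v).b ξ = (y v').b ξ') :
    ∃ B' : Bundle K ι W m0 chi b0 V, B'.Le B ∧ B.tr.ht < B'.tr.ht ∧ (∀ v ∈ V0, B'.r v ≤ y v) ∧
      (∀ v ∈ V0, ∀ v' ∈ V0, B.r v = B.r v' → y v = y v' → B'.r v = B'.r v') ∧
      ∀ v, v ∉ V0 → ∀ v', v' ∉ V0 → B.r v = B.r v' → B'.r v = B'.r v' := by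
  classical
  obtain ⟨v0, hv0⟩ := hne
  have hyt : ∀ v ∈ V0, (y v).tr = (y v0).tr := fun v hv =>
    (Cond.restr_eq_iff.1 (hrestr v hv v0 hv0)).1
  have h1 : (y v0).tr ≤ B.tr := by
    have := (hy v0 hv0).1
    rwa [B.r_tr v0] at this
  obtain ⟨t', h2⟩ : ∃ t', A09_IsSucc (y v0).tr t' := Tr.exists_succ (y v0).tr
  -- the map on the nodes
  obtain ⟨φ0, hφ0⟩ := Tr.exists_up B.tr (y v0).tr h1
  let φ : (K → K) → K → K := fun x =>
    if h : ∃ p : V × W, p.1 ∈ V0 ∧ p.2 ∈ (B.r p.1).L ∧ (B.r p.1).b p.2 = x then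
      (y h.choose.1).b h.choose.2 else φ0 x
  have hφb : ∀ v ∈ V0, ∀ ξ ∈ (B.r v).L, φ ((B.r v).b ξ) = (y v).b ξ := by
    intro v hv ξ hξ
    have hex : ∃ p : V × W, p.1 ∈ V0 ∧ p.2 ∈ (B.r p.1).L ∧ (B.r p.1).b p.2 = (B.r v).b ξ :=
      ⟨(v, ξ), hv, hξ, rfl⟩
    have e1 : φ ((B.r v).b ξ) = (y hex.choose.1).b hex.choose.2 := dif_pos hex
    rw [e1]
    exact hcomp _ hex.choose_spec.1 v hv _ hex.choose_spec.2.1 ξ hξ hex.choose_spec.2.2
  have hφ : ∀ x ∈ B.tr.T B.tr.ht, φ x ∈ (y v0).tr.T (y v0).tr.ht ∧ trunc B.tr.ht (φ x) = x := by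
    intro x hx
    by_cases hex : ∃ p : V × W, p.1 ∈ V0 ∧ p.2 ∈ (B.r p.1).L ∧ (B.r p.1).b p.2 = x
    · obtain ⟨⟨v, ξ⟩, hv, hξ, he⟩ := hex
      rw [← he, hφb v hv ξ hξ]
      have h3 := (y v).b_mem ξ (Cond.le_L (hy v hv) hξ)
      rw [hyt v hv] at h3
      refine ⟨h3, ?_⟩
      have h4 := Cond.le_b (hy v hv) hξ
      rwa [B.r_tr v] at h4
    · have e1 : φ x = φ0 x := dif_neg hex
      rw [e1]; exact hφ0 x hx
  -- the values of the new labels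
  obtain ⟨M0, M1, hM0, hM1, hdis, c0, c1⟩ := exists_two_sets (K := K) ι m0
  obtain ⟨J0, hJ0, hJ0m⟩ := exists_injOn (ι := ι) (m0 := m0) (y v0).L (y v0).L_card M0 c0
  have hJ1 : ∀ c : Cond K ι W m0 chi, ∃ j : W → K, InjOn j c.L ∧ ∀ x ∈ c.L, j x ∈ M1 := fun c =>
    exists_injOn (ι := ι) (m0 := m0) c.L c.L_card M1 c1
  choose J1 hJ1i hJ1m using hJ1
  let jj : Cond K ι W m0 chi → W → K := fun c ξ => if ξ < b0 then J0 ξ else J1 c ξ
  have key0 : ∀ p c : Cond K ι W m0 chi, ∃ q : Cond K ι W m0 chi, c ≤ p → c.tr = (y v0).tr →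
      InjOn p.b p.L → (∀ ξ < b0, ξ ∈ c.L → ξ ∈ (y v0).L) →
      q ≤ c ∧ q.tr = t' ∧ q.L = c.L ∧ q.N = c.N ∧ q.C = c.C ∧ q.g = c.g ∧
      InjOn q.b q.L ∧ (∀ ξ ∈ p.L, q.b ξ = c.b ξ) ∧
      (∀ ξ ∈ c.L, ξ ∉ p.L → q.b ξ (y v0).tr.ht = jj c ξ ∧ ⊥ < jj c ξ) ∧
      (∀ ξ ∈ c.L, ξ ∉ p.L → q.b ξ = fun e => if e = (y v0).tr.ht then jj c ξ else c.b ξ e) := by
    intro p c
    by_cases h : c ≤ p ∧ c.tr = (y v0).tr ∧ InjOn p.b p.L ∧ (∀ ξ < b0, ξ ∈ c.L → ξ ∈ (y v0).L)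
    · obtain ⟨a1, a2, a3, a4⟩ := h
      have hj : ∀ ξ ∈ c.L, ξ ∉ p.L → ⊥ < jj c ξ ∧ jj c ξ < m0 := by
        intro ξ hξ _
        by_cases hb : ξ < b0
        · have e1 : jj c ξ = J0 ξ := if_pos hb
          rw [e1]; exact hM0 _ (hJ0m ξ (a4 ξ hb hξ))
        · have e1 : jj c ξ = J1 c ξ := if_neg hb
          rw [e1]; exact hM1 _ (hJ1m c ξ hξ)
      have hji : InjOn (jj c) (c.L \ p.L) := by
        rintro ξ ⟨hξ, -⟩ ξ' ⟨hξ', -⟩ he
        by_cases hb : ξ < b0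
        · have e1 : jj c ξ = J0 ξ := if_pos hb
          by_cases hb' : ξ' < b0
          · have e2 : jj c ξ' = J0 ξ' := if_pos hb'
            rw [e1, e2] at he
            exact hJ0 (a4 ξ hb hξ) (a4 ξ' hb' hξ') he
          · have e2 : jj c ξ' = J1 c ξ' := if_neg hb'
            rw [e1, e2] at he
            exact absurd (he ▸ hJ0m ξ (a4 ξ hb hξ) : J1 c ξ' ∈ M0)
              fun h3 => disjoint_left.1 hdis h3 (hJ1m c ξ' hξ')
        · have e1 : jj c ξ = J1 c ξ := if_neg hb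
          by_cases hb' : ξ' < b0
          · have e2 : jj c ξ' = J0 ξ' := if_pos hb'
            rw [e1, e2] at he
            exact absurd (he ▸ hJ1m c ξ hξ : J0 ξ' ∈ M1)
              fun h3 => disjoint_left.1 hdis (hJ0m ξ' (a4 ξ' hb' hξ')) h3
          · have e2 : jj c ξ' = J1 c ξ' := if_neg hb'
            rw [e1, e2] at he
            exact hJ1i c hξ hξ' he
      obtain ⟨q, q1, q2, q3, q4, q5, q6, q7, q8, q9, q10⟩ :=
        A09_lift h2 p c a1 a2 a3 (jj c) hj hji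
      exact ⟨q, fun _ _ _ _ => ⟨q1, q2, q3, q4, q5, q6, q7, q8,
        fun ξ hξ hξ' => ⟨q9 ξ hξ hξ', (hj ξ hξ hξ').1⟩, q10⟩⟩
    · exact ⟨p, fun a1 a2 a3 a4 => absurd ⟨a1, a2, a3, a4⟩ h⟩
  choose R0 hR0 using key0
  have hyL : ∀ v ∈ V0, ∀ ξ < b0, (ξ ∈ (y v).L ↔ ξ ∈ (y v0).L) ∧ (y v).b ξ = (y v0).b ξ :=
    fun v hv => (Cond.restr_eq_iff.1 (hrestr v hv v0 hv0)).2.1
  have hBL : ∀ v v', ∀ ξ < b0, (ξ ∈ (B.r v).L ↔ ξ ∈ (B.r v').L) ∧ (B.r v).b ξ = (B.r v').b ξ :=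
    fun v v' => (Cond.restr_eq_iff.1 (B.r_restr v v')).2.1
  have hq : ∀ v (hv : v ∈ V0), _ := fun v hv => hR0 (B.r v) (y v) (hy v hv) (hyt v hv)
    (B.r_inj v) (fun ξ hb hξ => (hyL v hv ξ hb).1.1 hξ)
  -- all the parts below `b0` are the same
  have hqr : ∀ v ∈ V0, Cond.restr b0 (R0 (B.r v) (y v)) = Cond.restr b0 (R0 (B.r v0) (y v0)) := by
    intro v hv
    obtain ⟨q1, q2, q3, q4, q5, q6, q7, q8, q9, q10⟩ := hq v hv
    obtain ⟨p1, p2, p3, p4, p5, p6, p7, p8, p9, p10⟩ := hq v0 hv0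
    rw [Cond.restr_eq_iff]
    refine ⟨q2.trans p2.symm, fun ξ hb => ?_, fun a ha => ?_⟩
    · have hL : ξ ∈ (R0 (B.r v) (y v)).L ↔ ξ ∈ (R0 (B.r v0) (y v0)).L := by
        rw [q3, p3]; exact (hyL v hv ξ hb).1
      refine ⟨hL, ?_⟩
      by_cases h : ξ ∈ (R0 (B.r v) (y v)).L
      · have hξ : ξ ∈ (y v).L := by rwa [q3] at h
        have hξ0 : ξ ∈ (y v0).L := (hyL v hv ξ hb).1.1 hξ
        by_cases h3 : ξ ∈ (B.r v).L
        · rw [q8 ξ h3, p8 ξ ((hBL v v0 ξ hb).1.1 h3)]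
          exact (hyL v hv ξ hb).2
        · have h3' : ξ ∉ (B.r v0).L := fun h4 => h3 ((hBL v v0 ξ hb).1.2 h4)
          rw [q10 ξ hξ h3, p10 ξ hξ0 h3', (hyL v hv ξ hb).2]
          have e1 : jj (y v) ξ = J0 ξ := if_pos hb
          have e2 : jj (y v0) ξ = J0 ξ := if_pos hb
          rw [e1, e2]
      · rw [Cond.b_out _ ξ h, Cond.b_out _ ξ fun h3 => h (hL.2 h3)]
    · have h3 := (Cond.restr_eq_iff.1 (hrestr v hv v0 hv0)).2.2 a ha
      rw [q4, p4, q5, p5, q6, p6]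
      exact h3
  -- the conditions outside `V0`
  have key1 : ∀ p : Cond K ι W m0 chi, ∃ q : Cond K ι W m0 chi, p.tr = B.tr →
      Cond.restr b0 p = Cond.restr b0 (B.r v0) →
      q ≤ p ∧ Cond.restr b0 q = Cond.restr b0 (R0 (B.r v0) (y v0)) ∧ q.tr = t' ∧
      q.L = p.L ∪ (Cond.restr b0 (R0 (B.r v0) (y v0))).L ∧
      ∀ ξ ∈ p.L, b0 ≤ ξ → q.b ξ = φ (p.b ξ) := by
    intro p
    by_cases h : p.tr = B.tr ∧ Cond.restr b0 p = Cond.restr b0 (B.r v0)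
    · obtain ⟨a1, a2⟩ := h
      obtain ⟨p1, p2, p3, p4, p5, p6, p7, p8, p9, p10⟩ := hq v0 hv0
      obtain ⟨q, q1, q2, q3, q4, q5, q6, q7, -⟩ := Cond.exists_move b0 p
        (Cond.restr b0 (R0 (B.r v0) (y v0))) Cond.restr_restr
        (by rw [a2]; exact Cond.restr_mono (p1.trans (hy v0 hv0)) b0) (fun ξ => φ (p.b ξ))
        (fun ξ hξ _ => by
          have h3 := p.b_mem ξ hξ
          rw [a1] at h3
          rw [a1, Cond.restr_tr, p2]
          exact ⟨A09_top h2 (hφ _ h3).1, (hφ _ h3).2⟩)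
      exact ⟨q, fun _ _ => ⟨q1, q3, q4.trans p2, q5, q7⟩⟩
    · exact ⟨p, fun a1 a2 => absurd ⟨a1, a2⟩ h⟩
  choose R1 hR1 using key1
  have hs : ∀ v, _ := fun v => hR1 (B.r v) (B.r_tr v) (B.r_restr v v0)
  let r' : V → Cond K ι W m0 chi := fun v => if v ∈ V0 then R0 (B.r v) (y v) else R1 (B.r v)
  have hr0 : ∀ v ∈ V0, r' v = R0 (B.r v) (y v) := fun v hv => if_pos hv
  have hr1 : ∀ v, v ∉ V0 → r' v = R1 (B.r v) := fun v hv => if_neg hv
  have Ftr : ∀ v, (r' v).tr = t' := by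
    intro v
    by_cases hv : v ∈ V0
    · rw [hr0 v hv]; exact (hq v hv).2.1
    · rw [hr1 v hv]; exact (hs v).2.2.1
  have Frestr : ∀ v, Cond.restr b0 (r' v) = Cond.restr b0 (R0 (B.r v0) (y v0)) := by
    intro v
    by_cases hv : v ∈ V0
    · rw [hr0 v hv]; exact hqr v hv
    · rw [hr1 v hv]; exact (hs v).2.1
  have Fle : ∀ v, r' v ≤ B.r v := by
    intro v
    by_cases hv : v ∈ V0
    · rw [hr0 v hv]; exact (hq v hv).1.trans (hy v hv)
    · rw [hr1 v hv]; exact (hs v).1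
  have Fb : ∀ v, ∀ ξ ∈ (B.r v).L, (r' v).b ξ = φ ((B.r v).b ξ) := by
    intro v ξ hξ
    by_cases hv : v ∈ V0
    · rw [hr0 v hv, (hq v hv).2.2.2.2.2.2.2.1 ξ hξ, hφb v hv ξ hξ]
    · by_cases hb : ξ < b0
      · have h3 : ξ ∈ (B.r v0).L := (hBL v v0 ξ hb).1.1 hξ
        rw [← Cond.restr_b (p := r' v) hb, Frestr v, Cond.restr_b hb,
          (hq v0 hv0).2.2.2.2.2.2.2.1 ξ h3, (hBL v v0 ξ hb).2, hφb v0 hv0 ξ h3]
      · rw [hr1 v hv]; exact (hs v).2.2.2.2 ξ hξ (not_lt.1 hb)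
  have Finj : ∀ v, InjOn (r' v).b (r' v).L := by
    intro v
    by_cases hv : v ∈ V0
    · rw [hr0 v hv]; exact (hq v hv).2.2.2.2.2.2.1
    · have hBm : ∀ ξ ∈ (B.r v).L, (B.r v).b ξ ∈ B.tr.T B.tr.ht := fun ξ hξ => by
        have := (B.r v).b_mem ξ hξ
        rwa [B.r_tr v] at this
      have hA : ∀ ξ ∈ (B.r v).L, (r' v).b ξ (y v0).tr.ht = ⊥ := fun ξ hξ => by
        rw [Fb v ξ hξ]; exact A09_bot (hφ _ (hBm ξ hξ)).1
      have hC : ∀ ξ ∈ (r' v).L, ξ ∉ (B.r v).L → ξ ∈ (R0 (B.r v0) (y v0)).L ∧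
          (r' v).b ξ = (R0 (B.r v0) (y v0)).b ξ ∧ ⊥ < (r' v).b ξ (y v0).tr.ht := by
        intro ξ hξ hξ'
        rw [hr1 v hv, (hs v).2.2.2.1] at hξ
        obtain ⟨h3, hb⟩ := Cond.mem_restr_L.1 (hξ.resolve_left hξ')
        have e1 : (r' v).b ξ = (R0 (B.r v0) (y v0)).b ξ := by
          rw [← Cond.restr_b (p := r' v) hb, Frestr v, Cond.restr_b hb]
        refine ⟨h3, e1, ?_⟩
        have h4 : ξ ∈ (y v0).L := by rwa [(hq v0 hv0).2.2.1] at h3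
        have h5 : ξ ∉ (B.r v0).L := fun h6 => hξ' ((hBL v v0 ξ hb).1.2 h6)
        obtain ⟨h6, h7⟩ := (hq v0 hv0).2.2.2.2.2.2.2.2.1 ξ h4 h5
        rw [e1, h6]; exact h7
      intro ξ hξ ξ' hξ' he
      by_cases h : ξ ∈ (B.r v).L
      · by_cases h' : ξ' ∈ (B.r v).L
        · refine B.r_inj v h h' ?_
          rw [Fb v ξ h, Fb v ξ' h'] at he
          rw [← (hφ _ (hBm ξ h)).2, ← (hφ _ (hBm ξ' h')).2, he]
        · exfalso
          have h3 := (hC ξ' hξ' h').2.2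
          rw [← he, hA ξ h] at h3
          exact absurd h3 (lt_irrefl _)
      · by_cases h' : ξ' ∈ (B.r v).L
        · exfalso
          have h3 := (hC ξ hξ h).2.2
          rw [he, hA ξ' h'] at h3
          exact absurd h3 (lt_irrefl _)
        · obtain ⟨a1, a2, -⟩ := hC ξ hξ h
          obtain ⟨b1, b2, -⟩ := hC ξ' hξ' h'
          rw [a2, b2] at he
          exact (hq v0 hv0).2.2.2.2.2.2.1 a1 b1 he
  refine ⟨{ tr := t'
            l := A09_loom B.l h1 h2 φ hφ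
            r := r'
            r_tr := Ftr
            r_inj := Finj
            r_restr := fun v v' => (Frestr v).trans (Frestr v').symm },
    ⟨h2.1.trans h1, fun c hc => A09_loom_E B.l h1 h2 φ hφ hc, fun c hc x hx => ?_,
      fun v => ⟨Fle v, fun ξ hξ => ?_⟩⟩, h1.1.trans_lt (A09_lt h2), fun v hv => ?_,
    fun v hv v' hv' e1 e2 => ?_, fun v hv v' hv' e1 => ?_⟩
  · have hc1 := B.l.E_le c hc
    show (A09_loom B.l h1 h2 φ hφ).f c x = (A09_loom B.l h1 h2 φ hφ).f B.tr.ht (B.l.f c x)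
    rw [A09_loom_f B.l h1 h2 φ hφ hc1, A09_loom_f B.l h1 h2 φ hφ le_rfl,
      B.l.f_ht (B.l.f_mem c hc x hx)]
  · show (r' v).b ξ = (A09_loom B.l h1 h2 φ hφ).f B.tr.ht ((B.r v).b ξ)
    have h3 := (B.r v).b_mem ξ hξ
    rw [B.r_tr v] at h3
    rw [A09_loom_f B.l h1 h2 φ hφ le_rfl, B.l.f_ht h3]
    exact Fb v ξ hξ
  · show r' v ≤ y v
    rw [hr0 v hv]; exact (hq v hv).1
  · show r' v = r' v'
    rw [hr0 v hv, hr0 v' hv', e1, e2]
  · show r' v = r' v'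
    rw [hr1 v hv, hr1 v' hv', e1]

/-- special case: all `v` with `B.r v = B.r v0` follow `y` -/
theorem Bundle.exists_step' (B : Bundle K ι W m0 chi b0 V) (v0 : V) (y : Cond K ι W m0 chi)
    (hy : y ≤ B.r v0) : ∃ B' : Bundle K ι W m0 chi b0 V, B'.Le B ∧ B.tr.ht < B'.tr.ht ∧
      (∀ v, B.r v = B.r v0 → B'.r v ≤ y) ∧ ∀ v v', B.r v = B.r v' → B'.r v = B'.r v' := by
  obtain ⟨B', h1, h2, h3, h4, h5⟩ := B.exists_step {v | B.r v = B.r v0} ⟨v0, rfl⟩ (fun _ => y)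
    (fun v hv => by
      have hv' : B.r v = B.r v0 := hv
      rw [hv']; exact hy) (fun _ _ _ _ => rfl) (fun v hv v' hv' ξ hξ ξ' hξ' he => by
      have e1 : B.r v = B.r v0 := hv
      have e2 : B.r v' = B.r v0 := hv'
      rw [e1] at hξ he
      rw [e2] at hξ' he
      rw [B.r_inj v0 hξ hξ' he])
  refine ⟨B', h1, h2, fun v hv => h3 v hv, fun v v' he => ?_⟩
  by_cases hv : B.r v = B.r v0
  · exact h4 v hv v' (he.symm.trans hv) he rfl
  · exact h5 v hv v' (fun h => hv (he.trans h)) he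

end Pool.Agent.KT
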