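import Pool.Agent.Lib_MP_bf47cd.A08

/-!
# H17-A10: recursive constructions of bundles
-/

set_option linter.unusedSectionVars false
set_option linter.unusedVariables false

namespace Pool.Agent.KT

universe u v

open Set Cardinal

/-- dependent choice along a well-order -/
theorem exists_rec {J : Type u} [LinearOrder J] [WellFoundedLT J] {X : Type v}
    (R : ∀ j : J, (∀ i, i < j → X) → X → Prop)
    (h : ∀ (j : J) (s : ∀ i, i < j → X),
      (∀ i (hi : i < j), R i (fun k hk => s k (hk.trans hi)) (s i hi)) → ∃ x, R j s x) :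
    ∃ s : J → X, ∀ j, R j (fun i _ => s i) (s j) := by
  classical
  by_cases hX : Nonempty X
  · obtain ⟨x0⟩ := hX
    obtain ⟨F, hF⟩ : ∃ F : ∀ j : J, (∀ i, i < j → X) → X, ∀ j s, (∃ x, R j s x) →
        R j s (F j s) := by
      refine ⟨fun j s => if hx : ∃ x, R j s x then hx.choose else x0, fun j s hx => ?_⟩
      beta_reduce
      rw [dif_pos hx]
      exact hx.choose_spec
    obtain ⟨s, hs⟩ : ∃ s : J → X, ∀ j, s j = F j (fun i _ => s i) :=
      ⟨(wellFounded_lt (α := J)).fix F, fun j => (wellFounded_lt (α := J)).fix_eq F j⟩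
    refine ⟨s, fun j => ?_⟩
    induction j using WellFoundedLT.induction with
    | ind j ih =>
      rw [hs j]
      exact hF j _ (h j _ fun i hi => ih i hi)
  · have hJ : ∀ j : J, False := by
      intro j
      induction j using WellFoundedLT.induction with
      | ind j ih =>
        obtain ⟨x, -⟩ := h j (fun i hi => (ih i hi).elim) (fun i hi => (ih i hi).elim)
        exact hX ⟨x⟩
    exact ⟨fun j => (hJ j).elim, fun j => (hJ j).elim⟩

variable {K ι W : Type u} [LinearOrder K] [OrderBot K] [WellFoundedLT K] {m0 : K}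
  [LinearOrder W] [OrderBot W] [WellFoundedLT W] {chi : W → W} {b0 : W} {V : Type u}
  [hK : SetupK K ι m0]
include hK

/-- a lower bound of a chain of bundles (of any length at most `#ι`, possibly empty) -/
theorem Bundle.exists_chain_lim_A10 {J : Type u} [LinearOrder J] (hJ : #J ≤ #ι)
    (B0 : Bundle K ι W m0 chi b0 V) (B : J → Bundle K ι W m0 chi b0 V)
    (hB : ∀ i j, i < j → (B j).Le (B i) ∧ (B i).tr.ht < (B j).tr.ht)
    (hB0 : ∀ i, (B i).Le B0) :
    ∃ b : Bundle K ι W m0 chi b0 V, b.Le B0 ∧ (∀ i, b.Le (B i)) ∧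
      ∀ v v', B0.r v = B0.r v' → (∀ i, (B i).r v = (B i).r v') → b.r v = b.r v' := by
  rcases isEmpty_or_nonempty J with hJe | hJn
  · exact ⟨B0, Bundle.Le.refl B0, fun i => hJe.elim i, fun v v' hv _ => hv⟩
  · by_cases hmax : ∃ i0 : J, ∀ i, i ≤ i0
    · obtain ⟨i0, hi0⟩ := hmax
      refine ⟨B i0, hB0 i0, fun i => ?_, fun v v' _ hv => hv i0⟩
      rcases (hi0 i).lt_or_eq with hlt | heq
      · exact (hB i i0 hlt).1
      · rw [heq]
        exact Bundle.Le.refl _
    · push Not at hmax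
      have : NoMaxOrder J := ⟨hmax⟩
      obtain ⟨b, hb1, hb2⟩ := Bundle.exists_lim hJ B hB
      obtain ⟨i1⟩ := hJn
      exact ⟨b, (hb1 i1).1.trans (hB0 i1), fun i => (hb1 i).1, fun v v' _ hv => hb2 v v' hv⟩

/-- Chains of bundles. `G j b` is what has to be achieved at stage `j`; `S j v v'` says that `v`
and `v'` may not be distinguished at the stages `≤ j`. -/
theorem Bundle.exists_chain {J : Type u} [LinearOrder J] [WellFoundedLT J] (hJ : #J ≤ #ι)
    (B0 : Bundle K ι W m0 chi b0 V) (S : J → V → V → Prop)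
    (G : J → Bundle K ι W m0 chi b0 V → Prop)
    (hS : ∀ i j, i < j → ∀ v v', S j v v' → S i v v')
    (hB0 : ∀ j v v', S j v v' → B0.r v = B0.r v')
    (hG : ∀ j (b : Bundle K ι W m0 chi b0 V), b.Le B0 → (∀ v v', S j v v' → b.r v = b.r v') →
      (∀ i < j, ∃ b1, G i b1 ∧ b.Le b1) →
      ∃ b', b'.Le b ∧ b.tr.ht < b'.tr.ht ∧ G j b' ∧ ∀ v v', S j v v' → b'.r v = b'.r v') :
    ∃ B' : Bundle K ι W m0 chi b0 V, B'.Le B0 ∧ ∀ j, ∃ b, G j b ∧ B'.Le b := by
  obtain ⟨s, hs⟩ := exists_rec (J := J) (X := Bundle K ι W m0 chi b0 V)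
    (fun j s b => (∀ i (hi : i < j), b.Le (s i hi) ∧ (s i hi).tr.ht < b.tr.ht) ∧ b.Le B0 ∧
      G j b ∧ ∀ v v', S j v v' → b.r v = b.r v') (by
    intro j s hs
    have hcard : #(Iio j) ≤ #ι := (mk_set_le (Iio j)).trans hJ
    obtain ⟨b, hb0, hb1, hb2⟩ := Bundle.exists_chain_lim_A10 (J := Iio j) hcard B0
      (fun i => s i.1 i.2) (fun i k hik => (hs k.1 k.2).1 i.1 hik) (fun i => (hs i.1 i.2).2.1)
    have hinv : ∀ v v', S j v v' → b.r v = b.r v' := fun v v' hv =>
      hb2 v v' (hB0 j v v' hv) fun i => (hs i.1 i.2).2.2.2 v v' (hS i.1 j i.2 v v' hv)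
    obtain ⟨b', h1, h2, h3, h4⟩ := hG j b hb0 hinv
      fun i hi => ⟨s i hi, (hs i hi).2.2.1, hb1 ⟨i, hi⟩⟩
    refine ⟨b', fun i hi => ?_, h1.trans hb0, h3, h4⟩
    exact ⟨h1.trans (hb1 ⟨i, hi⟩), ((hb1 ⟨i, hi⟩).ht).trans_lt h2⟩)
  obtain ⟨b, hb0, hb1, -⟩ := Bundle.exists_chain_lim_A10 hJ B0 s
    (fun i k hik => (hs k).1 i hik) (fun i => (hs i).2.1)
  exact ⟨b, hb0, fun j => ⟨s j, (hs j).2.2.1, hb1 j⟩⟩

end Pool.Agent.KT
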