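import Pool.Agent.Lib_MP_bf47cd.A09
import Pool.Agent.Lib_MP_bf47cd.A10

/-!
# H17-A11: distributivity
-/

set_option linter.unusedSectionVars false
set_option linter.unusedVariables false

namespace Pool.Agent.KT

universe u

open Set Cardinal

variable {K ι W : Type u} [LinearOrder K] [OrderBot K] [WellFoundedLT K] [SuccOrder K]
  [NoMaxOrder K] {m0 : K} [LinearOrder W] [OrderBot W] [WellFoundedLT W] {chi : W → W}
  {Q : Type u} [Preorder Q] [hK : SetupK K ι m0]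
include hK

/-- `#ι` many dense open sets are met at once (chain of bundles over `PUnit`, started with
`Cond.exists_injOn_b`; well-order `J`) -/
theorem Cond.dist {J : Type u} (hJ : #J ≤ #ι) (D : J → Set (Cond K ι W m0 chi))
    (hopen : ∀ j, ∀ q ∈ D j, ∀ r ≤ q, r ∈ D j) (p : Cond K ι W m0 chi)
    (hdense : ∀ j, ∀ q ≤ p, ∃ r ≤ q, r ∈ D j) : ∃ q ≤ p, ∀ j, q ∈ D j := by
  obtain ⟨q0, hq0, _, hinj, _⟩ := Cond.exists_injOn_b p
  obtain ⟨_, _⟩ := exists_wellFoundedLT J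
  have h := Bundle.exists_chain (J := J) (V := PUnit.{u + 1}) hJ
    (Bundle.const (⊥ : W) PUnit.{u + 1} q0 hinj) (fun _ _ _ => True)
    (fun j b => b.r PUnit.unit ∈ D j) (fun _ _ _ _ _ _ => trivial)
    (fun _ v v' _ => rfl) (by
      intro j b hb _ _
      have h1 : b.r PUnit.unit ≤ p := le_trans (hb.2.2.2 PUnit.unit).1 hq0
      obtain ⟨y, hy, hyD⟩ := hdense j _ h1
      obtain ⟨B', h2, h3, h4, _⟩ := Bundle.exists_step' b PUnit.unit y hy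
      exact ⟨B', h2, h3, hopen j y hyD _ (h4 PUnit.unit rfl), fun v v' _ => rfl⟩)
  obtain ⟨B', h1, h2⟩ := h
  refine ⟨B'.r PUnit.unit, le_trans (h1.2.2.2 PUnit.unit).1 hq0, fun j => ?_⟩
  obtain ⟨b, h3, h4⟩ := h2 j
  exact hopen j _ h3 _ (h4.2.2.2 PUnit.unit).1

/-- heights are unbounded (chain over `Iic e`, with `G j b := j < b.tr.ht`) -/
theorem Cond.exists_ht (p : Cond K ι W m0 chi) (e : K) : ∃ q ≤ p, e < q.tr.ht := by
  obtain ⟨q0, hq0, _, hinj, _⟩ := Cond.exists_injOn_b p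
  have h := Bundle.exists_chain (J := Iic e) (V := PUnit.{u + 1}) (card_Iic_le ι m0 e)
    (Bundle.const (⊥ : W) PUnit.{u + 1} q0 hinj) (fun _ _ _ => True)
    (fun j b => j.1 < b.tr.ht) (fun _ _ _ _ _ _ => trivial)
    (fun _ v v' _ => rfl) (by
      intro j b hb _ hprev
      have h1 : j.1 ≤ b.tr.ht := by
        by_contra hc
        have hc' : b.tr.ht < j.1 := not_le.1 hc
        obtain ⟨b1, h2, h3⟩ := hprev ⟨b.tr.ht, le_trans hc'.le j.2⟩ hc'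
        exact absurd (lt_of_lt_of_le h2 h3.ht) (lt_irrefl _)
      obtain ⟨B', h2, h3, _, _⟩ := Bundle.exists_step' b PUnit.unit (b.r PUnit.unit) le_rfl
      exact ⟨B', h2, h3, lt_of_le_of_lt h1 h3, fun v v' _ => rfl⟩)
  obtain ⟨B', h1, h2⟩ := h
  refine ⟨B'.r PUnit.unit, le_trans (h1.2.2.2 PUnit.unit).1 hq0, ?_⟩
  obtain ⟨b, h3, h4⟩ := h2 ⟨e, le_refl e⟩
  rw [B'.r_tr]
  exact lt_of_lt_of_le h3 h4.ht

/-- distributivity modulo the small factor `Q` -/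
theorem distQ [hQ : SetupQ Q ι] {J : Type u} (hJ : #J ≤ #ι)
    (D : J → Set (Q × Cond K ι W m0 chi)) (hopen : ∀ j, ∀ q ∈ D j, ∀ r ≤ q, r ∈ D j)
    (x : Q × Cond K ι W m0 chi) (hdense : ∀ j, ∀ q ≤ x, ∃ r ≤ q, r ∈ D j) :
    ∃ p ≤ x.2, ∀ j, ∀ h ≤ x.1, ∃ h' ≤ h, (h', p) ∈ D j := by
  have h := Cond.dist (J := J × Q) (card_prod_le K m0 hJ hQ.card)
    (fun jh => {p : Cond K ι W m0 chi | jh.2 ≤ x.1 → ∃ h' ≤ jh.2, (h', p) ∈ D jh.1})
    (by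
      rintro ⟨j, h⟩ q hq r hr hx
      obtain ⟨h', h1, h2⟩ := hq hx
      exact ⟨h', h1, hopen j _ h2 _ (Prod.mk_le_mk.2 ⟨le_rfl, hr⟩)⟩)
    x.2
    (by
      rintro ⟨j, h⟩ q hq
      by_cases hx : h ≤ x.1
      · obtain ⟨r, hr, hrD⟩ := hdense j (h, q) (Prod.mk_le_mk.2 ⟨hx, hq⟩)
        exact ⟨r.2, hr.2, fun _ => ⟨r.1, hr.1, hrD⟩⟩
      · exact ⟨q, le_rfl, fun h1 => absurd h1 hx⟩)
  obtain ⟨p, hp, h1⟩ := h
  exact ⟨p, hp, fun j h hh => h1 (j, h) hh⟩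

/-- the product is countably closed -/
theorem sigmaQ [hQ : SetupQ Q ι] (s : ℕ → Q × Cond K ι W m0 chi) (hs : Antitone s) :
    ∃ q, ∀ n, q ≤ s n := by
  obtain ⟨a, ha⟩ := hQ.sigma (fun n => (s n).1) (fun m n h => (hs h).1)
  obtain ⟨b, hb⟩ := Cond.sigma (fun n => (s n).2) (fun m n h => (hs h).2)
  exact ⟨(a, b), fun n => ⟨ha n, hb n⟩⟩

/-- countably many dense open sets are met at once -/
theorem distW [hQ : SetupQ Q ι] (D : ℕ → Set (Q × Cond K ι W m0 chi))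
    (hopen : ∀ j, ∀ q ∈ D j, ∀ r ≤ q, r ∈ D j) (x : Q × Cond K ι W m0 chi)
    (hdense : ∀ j, ∀ q ≤ x, ∃ r ≤ q, r ∈ D j) : ∃ q ≤ x, ∀ j, q ∈ D j := by
  choose! F hF hFD using hdense
  let s : ℕ → {y : Q × Cond K ι W m0 chi // y ≤ x} := fun n =>
    Nat.rec ⟨x, le_rfl⟩ (fun n y => ⟨F n y.1, le_trans (hF n y.1 y.2) y.2⟩) n
  have hs1 : ∀ n, (s (n + 1)).1 = F n (s n).1 := fun n => rfl
  have hs : Antitone (fun n => (s n).1) := by
    apply antitone_nat_of_succ_le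
    intro n
    change (s (n + 1)).1 ≤ (s n).1
    rw [hs1]
    exact hF n _ (s n).2
  obtain ⟨q, hq⟩ := sigmaQ _ hs
  refine ⟨q, le_trans (hq 0) (s 0).2, fun j => ?_⟩
  refine hopen j (s (j + 1)).1 ?_ q (hq (j + 1))
  rw [hs1]
  exact hFD j _ (s j).2

end Pool.Agent.KT
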