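import Pool.Agent.Lib_MP_bf47cd.Setup

/-!
# H17-A12: permutations of the labels acting on conditions
-/

set_option linter.unusedSectionVars false
set_option linter.unusedVariables false

namespace Pool.Agent.KT

universe u

open Set Cardinal

variable {K ι W : Type u} [LinearOrder K] [OrderBot K] {m0 : K}
  [LinearOrder W] [OrderBot W] {chi : W → W} {b0 : W}

namespace Cond

variable {π : Equiv.Perm W}

@[simp] theorem perm_tr (hπ : ∀ ξ, chi (π ξ) = chi ξ) (p : Cond K ι W m0 chi) :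
    (perm π hπ p).tr = p.tr := rfl

theorem mem_perm_L (hπ : ∀ ξ, chi (π ξ) = chi ξ) (p : Cond K ι W m0 chi) (ξ : W) :
    π ξ ∈ (perm π hπ p).L ↔ ξ ∈ p.L := by
  change π.symm (π ξ) ∈ p.L ↔ ξ ∈ p.L
  rw [Equiv.symm_apply_apply]

theorem perm_b (hπ : ∀ ξ, chi (π ξ) = chi ξ) (p : Cond K ι W m0 chi) (ξ : W) :
    (perm π hπ p).b (π ξ) = p.b ξ := by
  change p.b (π.symm (π ξ)) = p.b ξ
  rw [Equiv.symm_apply_apply]

theorem mem_perm_N (hπ : ∀ ξ, chi (π ξ) = chi ξ) (p : Cond K ι W m0 chi) (a : DLab ι W) :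
    a.map π ∈ (perm π hπ p).N ↔ a ∈ p.N := by
  change (a.map π).map π.symm ∈ p.N ↔ a ∈ p.N
  rw [DLab.map_symm_map]

theorem perm_symm_perm (hπ : ∀ ξ, chi (π ξ) = chi ξ) (hπ' : ∀ ξ, chi (π.symm ξ) = chi ξ)
    (p : Cond K ι W m0 chi) : perm π.symm hπ' (perm π hπ p) = p := by
  refine ext' rfl ?_ (fun ξ _ => ?_) ?_ (fun a _ => ?_) (fun a _ => ?_)
  · ext ξ
    change π.symm (π ξ) ∈ p.L ↔ ξ ∈ p.L
    rw [Equiv.symm_apply_apply]
  · change p.b (π.symm (π ξ)) = p.b ξ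
    rw [Equiv.symm_apply_apply]
  · ext a
    change (a.map π).map π.symm ∈ p.N ↔ a ∈ p.N
    rw [DLab.map_symm_map]
  · change p.C ((a.map π).map π.symm) = p.C a
    rw [DLab.map_symm_map]
  · change p.g ((a.map π).map π.symm) = p.g a
    rw [DLab.map_symm_map]

theorem perm_perm_symm (hπ : ∀ ξ, chi (π ξ) = chi ξ) (hπ' : ∀ ξ, chi (π.symm ξ) = chi ξ)
    (p : Cond K ι W m0 chi) : perm π hπ (perm π.symm hπ' p) = p := by
  refine ext' rfl ?_ (fun ξ _ => ?_) ?_ (fun a _ => ?_) (fun a _ => ?_)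
  · ext ξ
    change π (π.symm ξ) ∈ p.L ↔ ξ ∈ p.L
    rw [Equiv.apply_symm_apply]
  · change p.b (π (π.symm ξ)) = p.b ξ
    rw [Equiv.apply_symm_apply]
  · ext a
    change (a.map π.symm).map π ∈ p.N ↔ a ∈ p.N
    rw [DLab.map_map_symm]
  · change p.C ((a.map π.symm).map π) = p.C a
    rw [DLab.map_map_symm]
  · change p.g ((a.map π.symm).map π) = p.g a
    rw [DLab.map_map_symm]

private theorem A12_mono (hπ : ∀ ξ, chi (π ξ) = chi ξ) {p q : Cond K ι W m0 chi} (h : q ≤ p) :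
    perm π hπ q ≤ perm π hπ p := by
  have h0 : q.tr ≤ p.tr := le_tr h
  refine ⟨h0, fun ξ hξ => ?_, fun ξ hξ => ?_, fun a ha => ?_, fun a ha c hc => ?_,
    fun a ha c hc => ?_⟩
  · exact le_L h (show π.symm ξ ∈ p.L from hξ)
  · exact le_b h (ξ := π.symm ξ) hξ
  · exact le_N h (show a.map π.symm ∈ p.N from ha)
  · exact le_C h (a := a.map π.symm) ha hc
  · exact le_g h (a := a.map π.symm) ha hc

private theorem A12_inv {π : Equiv.Perm W} (hπ : ∀ ξ, chi (π ξ) = chi ξ) :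
    ∀ ξ, chi (π.symm ξ) = chi ξ := fun ξ => by
  rw [← hπ (π.symm ξ), Equiv.apply_symm_apply]

theorem perm_le_perm (hπ : ∀ ξ, chi (π ξ) = chi ξ) {p q : Cond K ι W m0 chi} :
    perm π hπ q ≤ perm π hπ p ↔ q ≤ p := by
  constructor
  · intro h
    have h1 := A12_mono (A12_inv hπ) h
    rwa [perm_symm_perm, perm_symm_perm] at h1
  · exact A12_mono hπ

theorem restr_perm (h : GoodPerm chi b0 π) (p : Cond K ι W m0 chi) :
    restr b0 (perm π h.chi_eq p) = restr b0 p := by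
  rw [restr_eq_iff]
  refine ⟨rfl, fun ξ hξ => ?_, fun a ha => ?_⟩
  · have h1 : π.symm ξ = ξ := h.symm.fix ξ hξ
    constructor
    · change π.symm ξ ∈ p.L ↔ ξ ∈ p.L
      rw [h1]
    · change p.b (π.symm ξ) = p.b ξ
      rw [h1]
  · have h1 : a.map π.symm = a := h.symm.map_eq ha
    refine ⟨?_, ?_, ?_⟩
    · change a.map π.symm ∈ p.N ↔ a ∈ p.N
      rw [h1]
    · change p.C (a.map π.symm) = p.C a
      rw [h1]
    · change p.g (a.map π.symm) = p.g a
      rw [h1]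

end Cond

/-- the action on functions valued in `Q × Cond` -/
def PF.perm {Q A B : Type u} [Preorder Q] (π : Equiv.Perm W) (hπ : ∀ ξ, chi (π ξ) = chi ξ)
    (X : PF (Q × Cond K ι W m0 chi) A B) : PF (Q × Cond K ι W m0 chi) A B where
  val a b q := X.val a b (q.1, Cond.perm π.symm
    (fun ξ => by rw [← hπ (π.symm ξ), Equiv.apply_symm_apply]) q.2)
  mono := by
    intro a b p q hqp h
    have hπ' : ∀ ξ, chi (π.symm ξ) = chi ξ := fun ξ => by
      rw [← hπ (π.symm ξ), Equiv.apply_symm_apply]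
    refine X.mono a b _ _ ?_ h
    exact ⟨hqp.1, (Cond.perm_le_perm hπ').2 hqp.2⟩
  dense := by
    intro a b p h
    refine X.dense a b _ fun q hq => ?_
    have hπ' : ∀ ξ, chi (π.symm ξ) = chi ξ := fun ξ => by
      rw [← hπ (π.symm ξ), Equiv.apply_symm_apply]
    obtain ⟨r, hr, hv⟩ := h (q.1, Cond.perm π hπ q.2) ⟨hq.1, by
      have h2 : q.2 ≤ Cond.perm π.symm hπ' p.2 := hq.2
      have h3 := (Cond.perm_le_perm hπ).2 h2
      rwa [Cond.perm_perm_symm] at h3⟩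
    refine ⟨(r.1, Cond.perm π.symm hπ' r.2), ⟨hr.1, ?_⟩, hv⟩
    have h2 : r.2 ≤ Cond.perm π hπ q.2 := hr.2
    have h3 := (Cond.perm_le_perm hπ').2 h2
    rwa [Cond.perm_symm_perm] at h3
  uniq := by
    intro a b b' p h1 h2
    exact X.uniq a b b' _ h1 h2
  total := by
    intro a p
    have hπ' : ∀ ξ, chi (π.symm ξ) = chi ξ := fun ξ => by
      rw [← hπ (π.symm ξ), Equiv.apply_symm_apply]
    obtain ⟨q, hq, b, hb⟩ := X.total a (p.1, Cond.perm π.symm hπ' p.2)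
    refine ⟨(q.1, Cond.perm π hπ q.2), ⟨hq.1, ?_⟩, b, ?_⟩
    · have h2 : q.2 ≤ Cond.perm π.symm hπ' p.2 := hq.2
      have h3 := (Cond.perm_le_perm hπ).2 h2
      rwa [Cond.perm_perm_symm] at h3
    · have h4 : Cond.perm π.symm hπ' (Cond.perm π hπ q.2) = q.2 := Cond.perm_symm_perm _ _ _
      change X.val a b (q.1, Cond.perm π.symm _ (Cond.perm π hπ q.2))
      rw [h4]
      exact hb

end Pool.Agent.KT
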