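import Pool.Agent.Lib_MP_bf47cd.A02

/-!
# H17-A13: there are few conditions with labels below `b0`
-/

set_option linter.unusedSectionVars false
set_option linter.unusedVariables false

namespace Pool.Agent.KT

universe u

open Set Cardinal

private theorem A13_arrow {κ : Cardinal.{u}}
    (hp : ∀ c d : Cardinal.{u}, c < κ → d < κ → c ^ d < κ) {X Y : Type u}
    (hX : #X < κ) (hY : #Y < κ) : #(X → Y) < κ := by
  have h := hp _ _ hY hX
  rwa [Cardinal.power_def] at h

private theorem A13_set {κ : Cardinal.{u}}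
    (hp : ∀ c d : Cardinal.{u}, c < κ → d < κ → c ^ d < κ) (h2 : (2 : Cardinal.{u}) < κ)
    {X : Type u} (hX : #X < κ) : #(Set X) < κ := by
  rw [Cardinal.mk_set]
  exact hp _ _ h2 hX

private theorem A13_prod {κ : Cardinal.{u}}
    (hm : ∀ c d : Cardinal.{u}, c < κ → d < κ → c * d < κ) {X Y : Type u}
    (hX : #X < κ) (hY : #Y < κ) : #(X × Y) < κ := by
  rw [Cardinal.mk_prod, Cardinal.lift_id, Cardinal.lift_id]
  exact hm _ _ hX hY

variable {K ι W : Type u} [LinearOrder K] [OrderBot K] [WellFoundedLT K] {m0 : K}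
  [LinearOrder W] [OrderBot W] [WellFoundedLT W] {chi : W → W}
  [hK : SetupK K ι m0] [hW : SetupW K ι W chi]
include hK hW

variable (K ι m0) in
/-- `Tr` embeds into `K × (K → Set (K → K)) × (K → Set (ι → K → K))` -/
theorem card_tr_lt : #(Tr K ι m0) < #W := by
  have hp : ∀ c d : Cardinal.{u}, c < #W → d < #W → c ^ d < #W :=
    fun c d hc hd => pow_lt_W K ι m0 chi hc hd
  have hm : ∀ c d : Cardinal.{u}, c < #W → d < #W → c * d < #W :=
    fun c d hc hd => mul_lt_W K ι m0 chi hc hd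
  have h2 : (2 : Cardinal.{u}) < #W :=
    lt_trans (Cardinal.natCast_lt_aleph0 (n := 2)) (aleph0_lt_W K ι m0 chi)
  have hKW : #K < #W := hW.K_lt
  have hiW : #ι < #W := ι_lt_W K m0 chi
  have h1 : #(K × (K → Set (K → K)) × (K → Set (ι → K → K))) < #W := by
    refine A13_prod hm hKW (A13_prod hm ?_ ?_)
    · exact A13_arrow hp hKW (A13_set hp h2 (A13_arrow hp hKW hKW))
    · exact A13_arrow hp hKW (A13_set hp h2 (A13_arrow hp hiW (A13_arrow hp hKW hKW)))
  refine lt_of_le_of_lt (Cardinal.mk_le_of_injective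
    (f := fun t : Tr K ι m0 => (t.ht, t.T, t.A)) fun s t h => ?_) h1
  simp only [Prod.mk.injEq] at h
  obtain ⟨e1, e2, e3⟩ := h
  cases s; cases t
  simp only at e1 e2 e3
  subst e1 e2 e3
  rfl

variable (K ι m0 chi) in
/-- the condition `p` with `restr b0 p = p` is determined by `p.tr`, `p.L ⊆ Iio b0`,
`p.b` on `Iio b0`, and `p.N`, `p.C`, `p.g` on the labels in `Iio b0`, the values of `p.g` being
below `b0` because `chi ξ ≤ ξ` -/
theorem card_low_lt (b0 : W) : #{p : Cond K ι W m0 chi // Cond.restr b0 p = p} < #W := by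
  have hp : ∀ c d : Cardinal.{u}, c < #W → d < #W → c ^ d < #W :=
    fun c d hc hd => pow_lt_W K ι m0 chi hc hd
  have hm : ∀ c d : Cardinal.{u}, c < #W → d < #W → c * d < #W :=
    fun c d hc hd => mul_lt_W K ι m0 chi hc hd
  have h2 : (2 : Cardinal.{u}) < #W :=
    lt_trans (Cardinal.natCast_lt_aleph0 (n := 2)) (aleph0_lt_W K ι m0 chi)
  have hKW : #K < #W := hW.K_lt
  have hiW : #ι < #W := ι_lt_W K m0 chi
  have hT : #(Tr K ι m0) < #W := card_tr_lt K ι m0 (chi := chi)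
  have hI : #(Iio b0) < #W := hW.seg b0
  have hL : #{a : DLab ι W // a.Low b0} < #W := by
    have h3 : #((Iio b0) × (ι → Iio b0)) < #W := A13_prod hm hI (A13_arrow hp hiW hI)
    refine lt_of_le_of_lt (Cardinal.mk_le_of_injective
      (f := fun a : {a : DLab ι W // a.Low b0} =>
        ((⟨a.1.tag, a.2.1⟩, fun z => ⟨a.1.w z, a.2.2 z⟩) : (Iio b0) × (ι → Iio b0)))
      fun a a' h => ?_) h3
    simp only [Prod.mk.injEq, Subtype.mk.injEq] at h
    apply Subtype.ext
    refine DLab.ext h.1 ?_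
    funext z
    exact congrArg Subtype.val (congrFun h.2 z)
  have hbig : #((Tr K ι m0) × (Set (Iio b0)) × ((Iio b0) → K → K) ×
      (Set {a : DLab ι W // a.Low b0}) × ({a : DLab ι W // a.Low b0} → Set K) ×
      ({a : DLab ι W // a.Low b0} → K → Iio b0)) < #W := by
    refine A13_prod hm hT (A13_prod hm (A13_set hp h2 hI) (A13_prod hm
      (A13_arrow hp hI (A13_arrow hp hKW hKW)) (A13_prod hm (A13_set hp h2 hL)
      (A13_prod hm (A13_arrow hp hL (A13_set hp h2 hKW))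
        (A13_arrow hp hL (A13_arrow hp hKW hI))))))
  have hg : ∀ (p : Cond K ι W m0 chi) (a : {a : DLab ι W // a.Low b0}) (c : K),
      p.g a.1 c ∈ Iio b0 := by
    intro p a c
    exact lt_of_le_of_lt ((p.g_le' a.1 c).trans (hW.chi_le a.1.tag)) a.2.1
  refine lt_of_le_of_lt (Cardinal.mk_le_of_injective
    (f := fun p : {p : Cond K ι W m0 chi // Cond.restr b0 p = p} =>
      ((p.1.tr, {ξ : Iio b0 | ξ.1 ∈ p.1.L}, fun ξ : Iio b0 => p.1.b ξ.1,
        {a : {a : DLab ι W // a.Low b0} | a.1 ∈ p.1.N},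
        fun a : {a : DLab ι W // a.Low b0} => p.1.C a.1,
        fun (a : {a : DLab ι W // a.Low b0}) (c : K) => (⟨p.1.g a.1 c, hg p.1 a c⟩ : Iio b0)) :
        (Tr K ι m0) × (Set (Iio b0)) × ((Iio b0) → K → K) ×
      (Set {a : DLab ι W // a.Low b0}) × ({a : DLab ι W // a.Low b0} → Set K) ×
      ({a : DLab ι W // a.Low b0} → K → Iio b0))) fun p q h => ?_) hbig
  simp only [Prod.mk.injEq] at h
  obtain ⟨e1, e2, e3, e4, e5, e6⟩ := h
  apply Subtype.ext
  rw [← p.2, ← q.2, Cond.restr_eq_iff]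
  refine ⟨e1, fun ξ hξ => ⟨?_, ?_⟩, fun a ha => ⟨?_, ?_, ?_⟩⟩
  · have h3 := Set.ext_iff.1 e2 ⟨ξ, hξ⟩
    exact h3
  · exact congrFun e3 ⟨ξ, hξ⟩
  · have h3 := Set.ext_iff.1 e4 ⟨a, ha⟩
    exact h3
  · exact congrFun e5 ⟨a, ha⟩
  · funext c
    exact congrArg Subtype.val (congrFun (congrFun e6 ⟨a, ha⟩) c)

end Pool.Agent.KT
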