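import Pool.Agent.Lib_MP_bf47cd.A03
import Pool.Agent.Lib_MP_bf47cd.A13

/-!
# H17-A14: closing off: functions on small sets are decided by the parts below some `b0`
-/

set_option linter.unusedSectionVars false
set_option linter.unusedVariables false

namespace Pool.Agent.KT

universe u

open Set Cardinal

/-- `F` is decided by the parts of the conditions below `b0` -/
def DecAt {K ι W : Type u} [LinearOrder K] [OrderBot K] {m0 : K} [LinearOrder W] [OrderBot W]
    {chi : W → W} {Q A B : Type u} [Preorder Q] (b0 : W)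
    (F : PF (Q × Cond K ι W m0 chi) A B) : Prop :=
  ∀ a b (h : Q) (p : Cond K ι W m0 chi), F.val a b (h, p) → F.val a b (h, Cond.restr b0 p)

variable {K ι W : Type u} [LinearOrder K] [OrderBot K] [WellFoundedLT K] {m0 : K}
  [LinearOrder W] [OrderBot W] [WellFoundedLT W] {chi : W → W} {Q : Type u} [Preorder Q]
  [hK : SetupK K ι m0] [hW : SetupW K ι W chi]
include hK hW

/-- the labels of a condition are bounded -/
private theorem A14_bd (p : Cond K ι W m0 chi) : ∃ b : W, Cond.restr b p = p := by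
  have h1 : #(p.L) < #W := lt_of_le_of_lt p.L_card (ι_lt_W K m0 chi)
  have h2 : #(p.N) < #W := lt_of_le_of_lt p.N_card (ι_lt_W K m0 chi)
  obtain ⟨b, hb⟩ := exists_bddW K ι m0 chi h1 (fun ξ : p.L => ξ.1)
  obtain ⟨b', hb'⟩ := exists_bddW K ι m0 chi h2 (fun a : p.N => a.1.tag)
  refine ⟨max b b', ?_⟩
  rw [Cond.restr_eq_self_iff]
  refine ⟨fun ξ hξ => lt_max_of_lt_left (hb ⟨ξ, hξ⟩), fun a ha => ⟨lt_max_of_lt_right (hb' ⟨a, ha⟩),
    fun z => lt_max_of_lt_left (hb ⟨a.w z, p.N_L a ha z⟩)⟩⟩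

omit hK hW in
private theorem A14_mono {p : Cond K ι W m0 chi} {b b' : W} (h : Cond.restr b p = p)
    (hb : b ≤ b') : Cond.restr b' p = p := by
  rw [Cond.restr_eq_self_iff] at h ⊢
  exact ⟨fun ξ hξ => (h.1 ξ hξ).trans_le hb, fun a ha => ⟨(h.2 a ha).1.trans_le hb,
    fun z => ((h.2 a ha).2 z).trans_le hb⟩⟩

omit hW in
/-- a condition with labels below a closure point has its labels below a smaller bound -/
private theorem A14_lower (p : Cond K ι W m0 chi) (b0 : W) (hp : Cond.restr b0 p = p)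
    (hcl : ∀ S : Set W, #S ≤ #ι → (∀ ξ ∈ S, ξ < b0) → ∃ b < b0, ∀ ξ ∈ S, ξ < b) :
    ∃ b < b0, Cond.restr b p = p := by
  rw [Cond.restr_eq_self_iff] at hp
  have h1 : #((fun a : DLab ι W => a.tag) '' p.N : Set W) ≤ #ι := mk_image_le.trans p.N_card
  obtain ⟨b, hb, hb'⟩ := hcl (p.L ∪ (fun a : DLab ι W => a.tag) '' p.N)
    (card_union_le K m0 p.L_card h1) (by
      rintro ξ (h2 | ⟨a, ha, rfl⟩)
      · exact hp.1 ξ h2
      · exact (hp.2 a ha).1)
  refine ⟨b, hb, ?_⟩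
  rw [Cond.restr_eq_self_iff]
  exact ⟨fun ξ hξ => hb' ξ (Or.inl hξ), fun a ha => ⟨hb' a.tag (Or.inr ⟨a, ha, rfl⟩),
    fun z => hb' (a.w z) (Or.inl (p.N_L a ha z))⟩⟩

/-- there are few triples -/
private theorem A14_card [hQ : SetupQ Q ι] {A : Type u} (hA : #A < #W) (b : W) :
    #(A × Q × {p : Cond K ι W m0 chi // Cond.restr b p = p}) < #W := by
  rw [mk_prod, lift_id, lift_id, mk_prod, lift_id, lift_id]
  exact mul_lt_W K ι m0 chi hA (mul_lt_W K ι m0 chi
    (lt_of_le_of_lt hQ.card (ι_lt_W K m0 chi)) (card_low_lt K ι m0 chi b))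

/-- General form of the closing-off argument: if every `D a` is dense, there is `b0 > b1` such
that every condition with labels below `b0` has an extension with labels below `b0` in `D a`.
(For `b < W` let `F b` bound the labels of chosen extensions of the `(h, p)`, `restr b p = p`, in
`D a`; there are fewer than `#W` of them. Take `b0` from `exists_closurePt`.) -/
theorem exists_closed_off [hQ : SetupQ Q ι] {A : Type u} (hA : #A < #W)
    (D : A → Set (Q × Cond K ι W m0 chi)) (hD : ∀ a q, ∃ r ≤ q, r ∈ D a) (b1 : W) :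
    ∃ b0, b1 < b0 ∧ ∀ a (h : Q) (p : Cond K ι W m0 chi), Cond.restr b0 p = p →
      ∃ h' ≤ h, ∃ p' ≤ p, Cond.restr b0 p' = p' ∧ (h', p') ∈ D a := by
  classical
  choose R hR hRD using hD
  choose bd hbd using fun p : Cond K ι W m0 chi => A14_bd p
  have hF : ∀ b : W, ∃ B : W, ∀ x : A × Q × {p : Cond K ι W m0 chi // Cond.restr b p = p},
      bd (R x.1 (x.2.1, x.2.2.1)).2 < B := fun b =>
    exists_bddW K ι m0 chi (A14_card hA b) _
  choose F hF using hF
  obtain ⟨b0, hb0, hcl1, hcl2⟩ := exists_closurePt K ι m0 chi F b1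
  refine ⟨b0, hb0, fun a h p hp => ?_⟩
  obtain ⟨b, hb, hb'⟩ := A14_lower p b0 hp hcl2
  have h1 := hF b (a, h, ⟨p, hb'⟩)
  simp only at h1
  have h2 := hR a (h, p)
  refine ⟨(R a (h, p)).1, h2.1, (R a (h, p)).2, h2.2, ?_, hRD a (h, p)⟩
  exact A14_mono (hbd _) (h1.trans (hcl1 b hb)).le

/-- amalgamation of a low condition with a condition -/
private theorem A14_amalg (b0 : W) (p s : Cond K ι W m0 chi) (hs : Cond.restr b0 s = s)
    (h : s ≤ Cond.restr b0 p) : ∃ q : Cond K ι W m0 chi, q ≤ p ∧ q ≤ s := by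
  obtain ⟨φ, hφ⟩ := Tr.exists_up p.tr s.tr h.1
  obtain ⟨q, h1, h2, -⟩ := Cond.exists_move b0 p s hs h (fun ξ => φ (p.b ξ))
    (fun ξ hξ _ => hφ _ (p.b_mem ξ hξ))
  exact ⟨q, h1, h2⟩

/-- every function on a set of size less than `#W` is decided by the parts below some `b0` -/
theorem exists_decAt [hQ : SetupQ Q ι] {A B : Type u} (hA : #A < #W)
    (F : PF (Q × Cond K ι W m0 chi) A B) (b1 : W) : ∃ b0, b1 < b0 ∧ DecAt b0 F := by
  obtain ⟨b0, hb0, hcl⟩ := exists_closed_off hA (fun a => {q | ∃ b, F.val a b q})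
    (fun a q => F.total a q) b1
  refine ⟨b0, hb0, fun a b h p hv => ?_⟩
  refine F.dense a b _ ?_
  rintro ⟨h1, p1⟩ ⟨hle1, hle2⟩
  simp only at hle1 hle2
  have hs : Cond.restr b0 p1 ≤ Cond.restr b0 p := by
    have h3 := Cond.restr_mono hle2 b0
    rwa [Cond.restr_restr] at h3
  obtain ⟨h2, hh2, s', hs', hlow, b', hb'⟩ := hcl a h1 (Cond.restr b0 p1) Cond.restr_restr
  obtain ⟨q', hq1, hq2⟩ := A14_amalg b0 p s' hlow (hs'.trans hs)
  have e1 : F.val a b (h2, q') := F.mono a b _ _ (Prod.mk_le_mk.2 ⟨hh2.trans hle1, hq1⟩) hv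
  have e2 : F.val a b' (h2, q') := F.mono a b' _ _ (Prod.mk_le_mk.2 ⟨le_rfl, hq2⟩) hb'
  have e3 : b = b' := F.uniq a b b' _ e1 e2
  subst e3
  obtain ⟨q'', hq3, hq4⟩ := A14_amalg b0 p1 s' hlow hs'
  exact ⟨(h2, q''), Prod.mk_le_mk.2 ⟨hh2, hq3⟩,
    F.mono a b _ _ (Prod.mk_le_mk.2 ⟨le_rfl, hq4⟩) hb'⟩

/-- bounded values: functions from sets of size less than `#W` to `W` are bounded -/
theorem exists_bound_PF [hQ : SetupQ Q ι] {A : Type u} (hA : #A < #W)
    (F : PF (Q × Cond K ι W m0 chi) A W) : ∃ b : W, ∀ a v q, F.val a v q → v < b := by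
  classical
  obtain ⟨b0, -, hdec⟩ := exists_decAt hA F ⊥
  obtain ⟨b, hb⟩ := exists_bddW K ι m0 chi (A14_card (Q := Q) hA b0)
    (fun x : A × Q × {p : Cond K ι W m0 chi // Cond.restr b0 p = p} =>
      if h : ∃ v, F.val x.1 v (x.2.1, x.2.2.1) then h.choose else ⊥)
  refine ⟨b, ?_⟩
  rintro a v ⟨h, p⟩ hv
  have h1 := hdec a v h p hv
  have h2 := hb (a, h, ⟨Cond.restr b0 p, Cond.restr_restr⟩)
  simp only at h2
  rw [dif_pos ⟨v, h1⟩] at h2
  have h3 : F.val a (Exists.choose (⟨v, h1⟩ : ∃ v, F.val a v (h, Cond.restr b0 p)))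
      (h, Cond.restr b0 p) := Exists.choose_spec (⟨v, h1⟩ : ∃ v, F.val a v (h, Cond.restr b0 p))
  rwa [F.uniq a _ _ _ h3 h1] at h2

end Pool.Agent.KT
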