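import Pool.Agent.Lib_MP_bf47cd.Setup
import Pool.Agent.Lib_Forcing.Mixing

/-!
# H17-A15: functions valued in a forcing: construction and mixing
-/

set_option linter.unusedSectionVars false
set_option linter.unusedVariables false

namespace Pool.Agent.KT

universe u

open Set Cardinal

namespace PF

variable {P A B : Type u} [Preorder P]

/-- the condition `q` forces that `X` and `X'` agree on `S` -/
def EqOn (X X' : PF P A B) (S : Set A) (q : P) : Prop :=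
  ∀ a ∈ S, ∀ b, ∀ r ≤ q, X.val a b r ↔ X'.val a b r

theorem EqOn.mono {X X' : PF P A B} {S : Set A} {q r : P} (h : EqOn X X' S q) (hr : r ≤ q) :
    EqOn X X' S r := by
  intro a ha b s hs
  exact h a ha b s (hs.trans hr)

theorem EqOn.dense {X X' : PF P A B} {S : Set A} {q : P}
    (h : ∀ r ≤ q, ∃ r' ≤ r, EqOn X X' S r') : EqOn X X' S q := by
  intro a ha b r hr
  constructor
  · intro hx
    refine X'.dense a b r fun s hs => ?_
    obtain ⟨s', hs', he⟩ := h s (hs.trans hr)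
    exact ⟨s', hs', (he a ha b s' le_rfl).1 (X.mono a b r s' (hs'.trans hs) hx)⟩
  · intro hx
    refine X.dense a b r fun s hs => ?_
    obtain ⟨s', hs', he⟩ := h s (hs.trans hr)
    exact ⟨s', hs', (he a ha b s' le_rfl).2 (X'.mono a b r s' (hs'.trans hs) hx)⟩

theorem EqOn.symm {X X' : PF P A B} {S : Set A} {q : P} (h : EqOn X X' S q) :
    EqOn X' X S q := by
  intro a ha b r hr
  exact (h a ha b r hr).symm

/-- one implication is enough -/
theorem EqOn.of_imp {X X' : PF P A B} {S : Set A} {q : P}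
    (h : ∀ a ∈ S, ∀ b, ∀ r ≤ q, X.val a b r → X'.val a b r) : EqOn X X' S q := by
  intro a ha b r hr
  refine ⟨h a ha b r hr, fun hx => X.dense a b r fun s hs => ?_⟩
  obtain ⟨t, ht, b', hb'⟩ := X.total a s
  have h1 := h a ha b' t (ht.trans (hs.trans hr)) hb'
  have h2 := X'.mono a b r t (ht.trans hs) hx
  have h3 := X'.uniq a b' b t h1 h2
  subst h3
  exact ⟨t, ht, hb'⟩

/-- a function from a compatible, densely total predicate -/
theorem exists_ofDense (v : A → B → P → Prop)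
    (mono : ∀ a b p q, q ≤ p → v a b p → v a b q)
    (uniq : ∀ a b b' p, v a b p → v a b' p → b = b')
    (total : ∀ a p, ∃ q ≤ p, ∃ b, v a b q) :
    ∃ X : PF P A B, (∀ a b p, X.val a b p ↔ ∀ q ≤ p, ∃ r ≤ q, v a b r) ∧
      ∀ a b p, v a b p → X.val a b p := by
  refine ⟨⟨fun a b p => ∀ q ≤ p, ∃ r ≤ q, v a b r, ?_, ?_, ?_, ?_⟩, fun a b p => Iff.rfl, ?_⟩
  · intro a b p q hq h r hr
    exact h r (hr.trans hq)
  · intro a b p h q hq
    obtain ⟨r, hr, h1⟩ := h q hq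
    obtain ⟨s, hs, h2⟩ := h1 r le_rfl
    exact ⟨s, hs.trans hr, h2⟩
  · intro a b b' p h1 h2
    obtain ⟨r, hr, h3⟩ := h1 p le_rfl
    obtain ⟨s, hs, h4⟩ := h2 r hr
    exact uniq a b b' s (mono a b r s hs h3) h4
  · intro a p
    obtain ⟨q, hq, b, hb⟩ := total a p
    exact ⟨q, hq, b, fun r hr => ⟨r, le_rfl, mono a b q r hr hb⟩⟩
  · intro a b p h q hq
    exact ⟨q, le_rfl, mono a b p q hq h⟩

/-- the same below a condition `q0` -/
theorem exists_ofDense_below [Nonempty B] (q0 : P) (v : A → B → P → Prop)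
    (mono : ∀ a b p q, q ≤ p → p ≤ q0 → v a b p → v a b q)
    (uniq : ∀ a b b' p, p ≤ q0 → v a b p → v a b' p → b = b')
    (total : ∀ a p, p ≤ q0 → ∃ q ≤ p, ∃ b, v a b q) :
    ∃ X : PF P A B, (∀ a b p, p ≤ q0 → (X.val a b p ↔ ∀ q ≤ p, ∃ r ≤ q, v a b r)) ∧
      ∀ a b p, p ≤ q0 → v a b p → X.val a b p := by
  classical
  obtain ⟨b0⟩ := ‹Nonempty B›
  obtain ⟨X, hX1, hX2⟩ := exists_ofDense
    (fun a b p => (p ≤ q0 ∧ v a b p) ∨ ((∀ r, r ≤ p → ¬ r ≤ q0) ∧ b = b0)) (by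
      rintro a b p q hq (⟨h1, h2⟩ | ⟨h1, h2⟩)
      · exact Or.inl ⟨hq.trans h1, mono a b p q hq h1 h2⟩
      · exact Or.inr ⟨fun r hr => h1 r (hr.trans hq), h2⟩) (by
      rintro a b b' p (⟨h1, h2⟩ | ⟨h1, h2⟩) (⟨h3, h4⟩ | ⟨h3, h4⟩)
      · exact uniq a b b' p h1 h2 h4
      · exact absurd h1 (h3 p le_rfl)
      · exact absurd h3 (h1 p le_rfl)
      · rw [h2, h4]) (by
      intro a p
      by_cases h : ∃ r, r ≤ p ∧ r ≤ q0
      · obtain ⟨r, h1, h2⟩ := h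
        obtain ⟨q, hq, b, hb⟩ := total a r h2
        exact ⟨q, hq.trans h1, b, Or.inl ⟨hq.trans h2, hb⟩⟩
      · exact ⟨p, le_rfl, b0, Or.inr ⟨fun r h1 h2 => h ⟨r, h1, h2⟩, rfl⟩⟩)
  refine ⟨X, fun a b p hp => ?_, fun a b p hp h => hX2 a b p (Or.inl ⟨hp, h⟩)⟩
  rw [hX1]
  constructor
  · intro h q hq
    obtain ⟨r, hr, h1⟩ := h q hq
    refine ⟨r, hr, ?_⟩
    rcases h1 with h1 | h1
    · exact h1.2
    · exact absurd (hr.trans (hq.trans hp)) (h1.1 r le_rfl)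
  · intro h q hq
    obtain ⟨r, hr, h1⟩ := h q hq
    exact ⟨r, hr, Or.inl ⟨hr.trans (hq.trans hp), h1⟩⟩

/-- maximum principle for functions: a local property that is densely realised by some function
is realised by one function -/
theorem max_principle [Nonempty B] (Φ : PF P A B → P → Prop)
    (mono : ∀ X p q, q ≤ p → Φ X p → Φ X q)
    (dense : ∀ X p, (∀ q ≤ p, ∃ r ≤ q, Φ X r) → Φ X p)
    (congr : ∀ X X' p, EqOn X X' univ p → Φ X p → Φ X' p) :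
    ∃ X : PF P A B, ∀ p, (∀ q ≤ p, ∃ r ≤ q, ∃ X', Φ X' r) → Φ X p := by
  classical
  obtain ⟨b0⟩ := ‹Nonempty B›
  obtain ⟨D, hD1, hD2, hD3⟩ := Pool.Agent.Forcing.exists_max_antichain {r : P | ∃ X, Φ X r}
  have hch : ∀ d : D, ∃ X, Φ X d.1 := fun d => hD1 d.2
  choose f hf using hch
  obtain ⟨X, hX1, hX2⟩ := exists_ofDense
    (fun a b p => (∃ d : D, p ≤ d.1 ∧ (f d).val a b p) ∨
      ((∀ r, r ≤ p → ∀ d : D, ¬ r ≤ d.1) ∧ b = b0)) (by
      rintro a b p q hq (⟨d, h1, h2⟩ | ⟨h1, h2⟩)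
      · exact Or.inl ⟨d, hq.trans h1, (f d).mono a b p q hq h2⟩
      · exact Or.inr ⟨fun r hr => h1 r (hr.trans hq), h2⟩) (by
      rintro a b b' p (⟨d, h1, h2⟩ | ⟨h1, h2⟩) (⟨d', h3, h4⟩ | ⟨h3, h4⟩)
      · have hdd : d = d' := Subtype.ext (hD2 _ d.2 _ d'.2 p h1 h3)
        subst hdd
        exact (f d).uniq a b b' p h2 h4
      · exact absurd h1 (h3 p le_rfl d)
      · exact absurd h3 (h1 p le_rfl d')
      · rw [h2, h4]) (by
      intro a p
      by_cases h : ∃ r, r ≤ p ∧ ∃ d : D, r ≤ d.1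
      · obtain ⟨r, h1, d, h2⟩ := h
        obtain ⟨q, hq, b, hb⟩ := (f d).total a r
        exact ⟨q, hq.trans h1, b, Or.inl ⟨d, hq.trans h2, hb⟩⟩
      · exact ⟨p, le_rfl, b0, Or.inr ⟨fun r h1 d h2 => h ⟨r, h1, d, h2⟩, rfl⟩⟩)
  have hkey : ∀ d : D, Φ X d.1 := by
    intro d
    refine congr (f d) X d.1 (EqOn.of_imp fun a _ b r hr h => ?_) (hf d)
    exact hX2 a b r (Or.inl ⟨d, hr, h⟩)
  refine ⟨X, fun p hp => dense X p fun q hq => ?_⟩
  obtain ⟨r, hr, Y, hY⟩ := hp q hq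
  obtain ⟨a, ha, s, hsa, hsr⟩ := hD3 r ⟨Y, hY⟩ fun t ht => ⟨Y, mono Y r t ht hY⟩
  exact ⟨s, hsr.trans hr, mono X a s hsa (hkey ⟨a, ha⟩)⟩

end PF

end Pool.Agent.KT
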