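import Pool.Agent.Lib_MP_bf47cd.A11
import Pool.Agent.Lib_MP_bf47cd.A14

/-!
# H17-B01: rigidity, the tree of conditions

If no extension of `x` is rigid for `X`, then there is a bundle over `Θ → Bool` (`#ι < 2 ^ #Θ`) in
which any two members decide `X` differently below some fixed `η`, densely modulo `Q`.
-/

set_option linter.unusedSectionVars false
set_option linter.unusedVariables false

namespace Pool.Agent.KT

universe u

open Set Cardinal

section defs
variable {K ι W : Type u} [LinearOrder K] [OrderBot K] {m0 : K} [LinearOrder W] [OrderBot W]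
  {chi : W → W} {Q Ω : Type u} [Preorder Q]

/-- `x` forces that `X` agrees with `Y (η, i, ·)` below `η` -/
def AgreeAt (Y : PF (Q × Cond K ι W m0 chi) (K × Ω × K) K) (X : PF (Q × Cond K ι W m0 chi) K K)
    (η : K) (i : Ω) (x : Q × Cond K ι W m0 chi) : Prop :=
  ∀ e < η, ∀ a, ∀ r ≤ x, X.val e a r ↔ Y.val (η, i, e) a r

/-- `x` forces that `X` is a branch of the tree whose level `η` is listed by `Y (η, ·, ·)` -/
def InBr (Y : PF (Q × Cond K ι W m0 chi) (K × Ω × K) K) (X : PF (Q × Cond K ι W m0 chi) K K)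
    (x : Q × Cond K ι W m0 chi) : Prop :=
  ∀ η, ∀ q ≤ x, ∃ r ≤ q, ∃ i, AgreeAt Y X η i r

/-- `x` is rigid for `X`: below `x`, the values of `X` depend only on the tree, the part of the
condition below `b0` and the nodes of the labels of `x` -/
def RigidX (b0 : W) (X : PF (Q × Cond K ι W m0 chi) K K) (x : Q × Cond K ι W m0 chi) : Prop :=
  ∀ h ≤ x.1, ∀ r ≤ x.2, ∀ r' ≤ x.2, Cond.restr b0 r = Cond.restr b0 r' →
    (∀ ξ ∈ x.2.L, r.b ξ = r'.b ξ) → ∀ e a a', X.val e a (h, r) → X.val e a' (h, r') → a = a'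

theorem AgreeAt.mono {Y : PF (Q × Cond K ι W m0 chi) (K × Ω × K) K}
    {X : PF (Q × Cond K ι W m0 chi) K K} {η : K} {i : Ω} {x x' : Q × Cond K ι W m0 chi}
    (h : AgreeAt Y X η i x) (hx : x' ≤ x) : AgreeAt Y X η i x' :=
  fun e he a r hr => h e he a r (hr.trans hx)

theorem InBr.mono {Y : PF (Q × Cond K ι W m0 chi) (K × Ω × K) K}
    {X : PF (Q × Cond K ι W m0 chi) K K} {x x' : Q × Cond K ι W m0 chi}
    (h : InBr Y X x) (hx : x' ≤ x) : InBr Y X x' :=
  fun η q hq => h η q (hq.trans hx)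

theorem RigidX.mono {b0 : W} {X : PF (Q × Cond K ι W m0 chi) K K} {x x' : Q × Cond K ι W m0 chi}
    (h : RigidX b0 X x) (hx : x' ≤ x) : RigidX b0 X x' :=
  fun h0 hh r hr r' hr' h1 h2 e a a' h3 h4 =>
    h h0 (hh.trans hx.1) r (hr.trans hx.2) r' (hr'.trans hx.2) h1
      (fun ξ hξ => h2 ξ (Cond.le_L hx.2 hξ)) e a a' h3 h4

theorem not_rigidX {b0 : W} {X : PF (Q × Cond K ι W m0 chi) K K} {x : Q × Cond K ι W m0 chi}
    (h : ¬ RigidX b0 X x) : ∃ h0 ≤ x.1, ∃ r ≤ x.2, ∃ r' ≤ x.2,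
      Cond.restr b0 r = Cond.restr b0 r' ∧ (∀ ξ ∈ x.2.L, r.b ξ = r'.b ξ) ∧
      ∃ e a a', a ≠ a' ∧ X.val e a (h0, r) ∧ X.val e a' (h0, r') := by
  unfold RigidX at h
  push Not at h
  obtain ⟨h0, h1, r, h2, r', h3, h4, h5, e, a, a', h6, h7, h8⟩ := h
  exact ⟨h0, h1, r, h2, r', h3, h4, h5, e, a, a', h8, h6, h7⟩

end defs

section bundle
variable {K ι W : Type u} [LinearOrder K] [OrderBot K] [LinearOrder W] [OrderBot W] {m0 : K}
  {chi : W → W} {b0 : W} {V V' : Type u}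

theorem Bundle.Le.comap {B B' : Bundle K ι W m0 chi b0 V} (φ : V' → V) (h : B'.Le B) :
    (B'.comap φ).Le (B.comap φ) :=
  ⟨h.1, h.2.1, h.2.2.1, fun v => h.2.2.2 (φ v)⟩

end bundle

variable {K ι W : Type u} [LinearOrder K] [OrderBot K] [WellFoundedLT K] [SuccOrder K]
  [NoMaxOrder K] {m0 : K} [LinearOrder W] [OrderBot W] [WellFoundedLT W] {chi : W → W}
  {Q Ω : Type u} [Preorder Q] [hK : SetupK K ι m0]
include hK

/-- one splitting step -/
theorem Bundle.exists_split {b0 : W} {V : Type u} (X : PF (Q × Cond K ι W m0 chi) K K)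
    (B : Bundle K ι W m0 chi b0 V) (U0 : Set V) (v0 v1 : V) (hv0 : v0 ∈ U0) (hv1 : v1 ∉ U0)
    (hU0 : ∀ v ∈ U0, B.r v = B.r v0) (h : Q) (hB : ¬ RigidX b0 X (h, B.r v0)) :
    ∃ B' : Bundle K ι W m0 chi b0 V, B'.Le B ∧ B.tr.ht < B'.tr.ht ∧
      (∃ h' ≤ h, ∃ e a a', a ≠ a' ∧ (∀ v ∈ U0, X.val e a (h', B'.r v)) ∧
        ∀ v, v ∉ U0 → B.r v = B.r v1 → X.val e a' (h', B'.r v)) ∧
      ∀ v v', (v ∈ U0 ↔ v' ∈ U0) → B.r v = B.r v' → B'.r v = B'.r v' := by
  classical
  obtain ⟨h1, hh1, y', hy', y'', hy'', hre, hbe, e, a', a'', hne, hX', hX''⟩ := not_rigidX hB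
  simp only at hh1 hy' hy'' hbe
  -- double the bundle
  let V2 : Type u := V × ULift.{u} Bool
  let B1 : Bundle K ι W m0 chi b0 V2 := B.comap Prod.fst
  let y : V2 → Cond K ι W m0 chi := fun w => if w.2.down then y'' else y'
  obtain ⟨B2, hB2, hht2, hB2y, hB2e, hB2o⟩ := B1.exists_step {w | w.1 ∈ U0}
    ⟨(v0, ULift.up false), hv0⟩ y (by
      intro w hw
      have e1 : B1.r w = B.r v0 := hU0 w.1 hw
      rw [e1]
      by_cases hb : w.2.down
      · simp only [y, hb, if_true]; exact hy''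
      · simp only [y, hb]; exact hy') (by
      intro w hw w' hw'
      simp only [y]
      split_ifs
      · rfl
      · exact hre.symm
      · exact hre
      · rfl) (by
      intro w hw w' hw' ξ hξ ξ' hξ' hb
      have e1 : B1.r w = B.r v0 := hU0 w.1 hw
      have e2 : B1.r w' = B.r v0 := hU0 w'.1 hw'
      rw [e1] at hξ; rw [e2] at hξ'; rw [e1, e2] at hb
      have e3 : ξ = ξ' := B.r_inj v0 hξ hξ' hb
      subst e3
      simp only [y]
      split_ifs
      · rfl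
      · exact (hbe ξ hξ).symm
      · exact hbe ξ hξ
      · rfl)
  -- decide `X e` at `v1`
  obtain ⟨z, hz, az, hzX⟩ := X.total e (h1, B2.r (v1, ULift.up false))
  obtain ⟨B3, hB3, hht3, hB3y, hB3e⟩ := B2.exists_step' (v1, ULift.up false) z.2 hz.2
  -- choose the side
  obtain ⟨c, ac, hac, hXc⟩ : ∃ (c : ULift.{u} Bool) (ac : K), ac ≠ az ∧
      X.val e ac (h1, if c.down then y'' else y') := by
    by_cases h2 : a' = az
    · exact ⟨ULift.up true, a'', fun h3 => hne (h2.trans h3.symm), by simpa using hX''⟩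
    · exact ⟨ULift.up false, a', h2, by simpa using hX'⟩
  have hcomap : (B1.comap (fun v : V => ((v, c) : V2))) = B := by
    cases B; rfl
  refine ⟨B3.comap (fun v => (v, c)), ?_, ?_, ⟨z.1, hz.1.trans hh1, e, ac, az, hac, ?_, ?_⟩, ?_⟩
  · have h3 := (hB3.trans hB2).comap (fun v : V => ((v, c) : V2))
    rw [hcomap] at h3
    exact h3
  · exact lt_trans hht2 hht3
  · intro v hv
    have h3 : B3.r (v, c) ≤ y (v, c) := (hB3.2.2.2 (v, c)).1.trans (hB2y (v, c) hv)
    exact X.mono _ _ (h1, y (v, c)) _ ⟨hz.1, h3⟩ hXc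
  · intro v hv hve
    have h3 : B2.r (v, c) = B2.r (v1, ULift.up false) :=
      hB2o (v, c) hv (v1, ULift.up false) hv1 hve
    exact X.mono _ _ z _ ⟨le_rfl, hB3y (v, c) h3⟩ hzX
  · intro v v' hvv he
    change B3.r (v, c) = B3.r (v', c)
    apply hB3e
    by_cases hv : v ∈ U0
    · exact hB2e (v, c) hv (v', c) (hvv.1 hv) he rfl
    · exact hB2o (v, c) hv (v', c) (fun h3 => hv (hvv.2 h3)) he

/-- the tree of conditions: any two members of the bundle decide `X` differently, densely modulo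
`Q`, at places below `η` -/
theorem exists_tree [hQ : SetupQ Q ι] {b0 : W} (X : PF (Q × Cond K ι W m0 chi) K K)
    (x0 : Q × Cond K ι W m0 chi) (hX : ∀ x ≤ x0, ¬ RigidX b0 X x) :
    ∃ (V : Type u) (B : Bundle K ι W m0 chi b0 V) (η : K), #ι < #V ∧ (∀ v, B.r v ≤ x0.2) ∧
      ∀ v v', v ≠ v' → ∀ h ≤ x0.1, ∃ h' ≤ h, ∃ e < η, ∃ a a', a ≠ a' ∧
        X.val e a (h', B.r v) ∧ X.val e a' (h', B.r v') := by
  classical
  obtain ⟨p0, hp0, _, hinj, _⟩ := Cond.exists_injOn_b x0.2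
  obtain ⟨Θ, _, _, hΘ, hΘt, hΘV⟩ := exists_Theta K m0 (ι := ι)
  let V : Type u := Θ → Bool
  -- tasks
  let F : Type u := (#ι).ord.ToType
  have hF : #F = #ι := mk_ord_toType _
  have hsurj : ∀ t : Θ, ∃ f : F → (Iio t → Bool) × Q, Function.Surjective f := by
    intro t
    have h1 : #((Iio t → Bool) × Q) ≤ #F := by
      rw [hF]; exact card_prod_le K m0 (hΘt t) hQ.card
    obtain ⟨g⟩ := h1
    have : Nonempty ((Iio t → Bool) × Q) := ⟨(fun _ => false, x0.1)⟩
    exact ⟨Function.invFun g, Function.invFun_surjective g.injective⟩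
  choose dec hdec using hsurj
  let J : Type u := Θ ×ₗ F
  have hJ : #J ≤ #ι := by
    have h1 : #J = #(Θ × F) := rfl
    rw [h1]; exact card_prod_le K m0 hΘ hF.le
  let tt : J → Θ := fun j => (ofLex j).1
  have htt : ∀ i j : J, i < j → tt i ≤ tt j := by
    intro i j hij
    rcases (Prod.Lex.lt_iff).1 hij with h1 | h1
    · exact h1.le
    · exact h1.1.le
  -- the class of `u` followed by `c`
  let cls : (t : Θ) → (Iio t → Bool) → Bool → V → Prop := fun t w c v =>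
    (∀ s (hs : s < t), v s = w ⟨s, hs⟩) ∧ v t = c
  have hcls : ∀ t w c v v', cls t w c v → (∀ s ≤ t, v s = v' s) → cls t w c v' := by
    intro t w c v v' h1 h2
    exact ⟨fun s hs => by rw [← h2 s hs.le]; exact h1.1 s hs, by rw [← h2 t le_rfl]; exact h1.2⟩
  have hcls2 : ∀ t w c v v', cls t w c v → cls t w c v' → ∀ s ≤ t, v s = v' s := by
    intro t w c v v' h1 h2 s hs
    rcases lt_or_eq_of_le hs with h3 | h3
    · rw [h1.1 s h3, h2.1 s h3]
    · rw [h3, h1.2, h2.2]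
  have hclsne : ∀ t w c, ∃ v, cls t w c v := by
    intro t w c
    refine ⟨fun s => if hs : s < t then w ⟨s, hs⟩ else c, fun s hs => ?_, ?_⟩
    · simp [hs]
    · simp
  let G : J → Bundle K ι W m0 chi b0 V → Prop := fun j b =>
    (dec (tt j) (ofLex j).2).2 ≤ x0.1 → ∃ h' ≤ (dec (tt j) (ofLex j).2).2, ∃ e a a', a ≠ a' ∧
      (∀ v, cls (tt j) (dec (tt j) (ofLex j).2).1 false v → X.val e a (h', b.r v)) ∧
      ∀ v, cls (tt j) (dec (tt j) (ofLex j).2).1 true v → X.val e a' (h', b.r v)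
  obtain ⟨B, hB, hBG⟩ := Bundle.exists_chain hJ (Bundle.const b0 V p0 hinj)
    (fun j v v' => ∀ s ≤ tt j, v s = v' s) G
    (fun i j hij v v' h s hs => h s (hs.trans (htt i j hij)))
    (fun _ _ _ _ => rfl) (by
      intro j b hb hS _
      obtain ⟨v0, hv0⟩ := hclsne (tt j) (dec (tt j) (ofLex j).2).1 false
      obtain ⟨v1, hv1⟩ := hclsne (tt j) (dec (tt j) (ofLex j).2).1 true
      by_cases hh : (dec (tt j) (ofLex j).2).2 ≤ x0.1
      · have hle : b.r v0 ≤ x0.2 := (hb.2.2.2 v0).1.trans hp0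
        have hv1' : ¬ cls (tt j) (dec (tt j) (ofLex j).2).1 false v1 := by
          intro h1
          have h2 := h1.2
          rw [hv1.2] at h2
          exact absurd h2 (by decide)
        obtain ⟨b', h1, h2, ⟨h', h3, e, a, a', h4, h5, h6⟩, h7⟩ := b.exists_split X
          {v | cls (tt j) (dec (tt j) (ofLex j).2).1 false v} v0 v1 hv0 hv1'
          (fun v hv => hS _ _ (hcls2 _ _ _ _ _ hv hv0)) (dec (tt j) (ofLex j).2).2
          (hX _ ⟨hh, hle⟩)
        refine ⟨b', h1, h2, fun _ => ⟨h', h3, e, a, a', h4, h5, fun v hv => h6 v ?_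
          (hS _ _ (hcls2 _ _ _ _ _ hv hv1))⟩, fun v v' hvv => h7 v v' ?_ (hS _ _ hvv)⟩
        · intro h8
          have h9 := h8.2
          rw [hv.2] at h9
          exact absurd h9 (by decide)
        · exact ⟨fun h8 => hcls _ _ _ _ _ h8 hvv, fun h8 => hcls _ _ _ _ _ h8
            (fun s hs => (hvv s hs).symm)⟩
      · obtain ⟨b', h1, h2, _, h3⟩ := b.exists_step' v0 (b.r v0) le_rfl
        exact ⟨b', h1, h2, fun h4 => absurd h4 hh, fun v v' hvv => h3 v v' (hS _ _ hvv)⟩)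
  -- the places
  have hpl : ∀ j : J, ∃ e0 : K, (dec (tt j) (ofLex j).2).2 ≤ x0.1 →
      ∃ h' ≤ (dec (tt j) (ofLex j).2).2, ∃ a a', a ≠ a' ∧
      (∀ v, cls (tt j) (dec (tt j) (ofLex j).2).1 false v → X.val e0 a (h', B.r v)) ∧
      ∀ v, cls (tt j) (dec (tt j) (ofLex j).2).1 true v → X.val e0 a' (h', B.r v) := by
    intro j
    obtain ⟨b, hb, hBb⟩ := hBG j
    by_cases hh : (dec (tt j) (ofLex j).2).2 ≤ x0.1
    · obtain ⟨h', h3, e, a, a', h4, h5, h6⟩ := hb hh
      refine ⟨e, fun _ => ⟨h', h3, a, a', h4, fun v hv => ?_, fun v hv => ?_⟩⟩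
      · exact X.mono _ _ (h', b.r v) _ ⟨le_rfl, (hBb.2.2.2 v).1⟩ (h5 v hv)
      · exact X.mono _ _ (h', b.r v) _ ⟨le_rfl, (hBb.2.2.2 v).1⟩ (h6 v hv)
    · exact ⟨⊥, fun h1 => absurd h1 hh⟩
  choose e0 he0 using hpl
  obtain ⟨η, hη⟩ := exists_bdd_range ι m0 hJ e0
  refine ⟨V, B, η, hΘV, fun v => (hB.2.2.2 v).1.trans hp0, ?_⟩
  intro v v' hvv h hh
  -- the first difference
  have hex : ∃ t, v t ≠ v' t := by
    by_contra hcon
    push Not at hcon
    exact hvv (funext hcon)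
  let t := WellFounded.min (wellFounded_lt (α := Θ)) {t | v t ≠ v' t} hex
  have ht : v t ≠ v' t := WellFounded.min_mem (wellFounded_lt (α := Θ)) {t | v t ≠ v' t} hex
  have ht' : ∀ s < t, v s = v' s := by
    intro s hs
    by_contra hcon
    exact WellFounded.not_lt_min (wellFounded_lt (α := Θ)) {t | v t ≠ v' t} hcon hs
  obtain ⟨z, hz⟩ := hdec t (fun s => v s.1, h)
  have key := he0 (toLex (t, z))
  have e1 : tt (toLex (t, z)) = t := rfl
  have e2 : dec (tt (toLex (t, z))) (ofLex (toLex (t, z))).2 = (fun s => v s.1, h) := hz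
  rw [e2] at key
  obtain ⟨h', hh', a, a', hne, k1, k2⟩ := key hh
  cases hv : v t with
  | false =>
    have hv' : v' t = true := by
      cases hv2 : v' t with
      | true => rfl
      | false => exact absurd (hv.trans hv2.symm) ht
    exact ⟨h', hh', e0 (toLex (t, z)), hη _, a, a', hne, k1 v ⟨fun s hs => rfl, hv⟩,
      k2 v' ⟨fun s hs => (ht' s hs).symm, hv'⟩⟩
  | true =>
    have hv' : v' t = false := by
      cases hv2 : v' t with
      | false => rfl
      | true => exact absurd (hv.trans hv2.symm) ht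
    exact ⟨h', hh', e0 (toLex (t, z)), hη _, a', a, hne.symm, k2 v ⟨fun s hs => rfl, hv⟩,
      k1 v' ⟨fun s hs => (ht' s hs).symm, hv'⟩⟩

end Pool.Agent.KT
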