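import Pool.Agent.Lib_MP_bf47cd.A14
import Pool.Agent.Lib_MP_bf47cd.A15

/-!
# H17-BDefs: rigidity, codes, positions, paths (definitions)

`Y` is a function valued in the forcing `Q × Cond` that enumerates the levels of the tree:
`Y (η, i, e)` is the value at `e` of the `i`-th node of level `η` (`i : I`, `#I ≤ #ι`).
-/

set_option linter.unusedSectionVars false
set_option linter.unusedVariables false

namespace Pool.Agent.KT

universe u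

open Set Cardinal

variable {K ι W Q I : Type u} [LinearOrder K] [OrderBot K] {m0 : K} [LinearOrder W]
  [OrderBot W] {chi : W → W} [Preorder Q]

/-- `q` forces that `X` is a branch of the tree with the levels enumerated by `Y` -/
def Mem (Y : PF (Q × Cond K ι W m0 chi) (K × I × K) K) (X : PF (Q × Cond K ι W m0 chi) K K)
    (q : Q × Cond K ι W m0 chi) : Prop :=
  ∀ η : K, ∀ r ≤ q, ∃ r' ≤ r, ∃ i : I, ∀ e < η, ∀ b, ∀ s ≤ r', X.val e b s →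
    Y.val (η, i, e) b s

/-- below `(h1, p1)` the values of `X` depend only on the `Q`-part, the tree, the part below `b0`
and the nodes of the labels in `p1.L` -/
def Rigid (b0 : W) (X : PF (Q × Cond K ι W m0 chi) K K) (h1 : Q) (p1 : Cond K ι W m0 chi) :
    Prop :=
  ∀ h ≤ h1, ∀ r ≤ p1, ∀ r' ≤ p1, Cond.restr b0 r = Cond.restr b0 r' →
    (∀ ξ ∈ p1.L, r.b ξ = r'.b ξ) → ∀ e a a', X.val e a (h, r) → X.val e a' (h, r') → a = a'

variable (K ι W Q m0 chi) in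
/-- codes -/
structure Code where
  h1 : Q
  s1 : Cond K ι W m0 chi
  ρ1 : ι → K → K
  DD : Set (Q × Cond K ι W m0 chi × (ι → K → K) × K × K)

/-- `z` is the code of a rigid branch: of `(z.h1, p1)`, `X` and the bijection `w1` of `ι` with the
labels of `p1` that are not below `b0` -/
def IsCodeOf (Y : PF (Q × Cond K ι W m0 chi) (K × I × K) K) (b0 : W) (z : Code K ι W Q m0 chi)
    (p1 : Cond K ι W m0 chi) (w1 : ι → W) (X : PF (Q × Cond K ι W m0 chi) K K) : Prop :=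
  Rigid b0 X z.h1 p1 ∧ Mem Y X (z.h1, p1) ∧ Function.Injective w1 ∧
    (∀ ξ, ξ ∈ range w1 ↔ ξ ∈ p1.L ∧ b0 ≤ ξ) ∧
    z.s1 = Cond.restr b0 p1 ∧ (∀ i, z.ρ1 i = p1.b (w1 i)) ∧
    ∀ h s ρ e a, (h, s, ρ, e, a) ∈ z.DD ↔ h ≤ z.h1 ∧ ∃ r ≤ p1, Cond.restr b0 r = s ∧
      (∀ i, r.b (w1 i) = ρ i) ∧ X.val e a (h, r)

def IsCode (Y : PF (Q × Cond K ι W m0 chi) (K × I × K) K) (b0 : W)
    (z : Code K ι W Q m0 chi) : Prop :=
  ∃ p1 w1 X, IsCodeOf Y b0 z p1 w1 X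

/-- `q` forces (directly) that the partial function `D z (δ, ρ)` has the value `a` at `e` -/
def DV (b0 : W) (z : Code K ι W Q m0 chi) (δ : K) (ρ : ι → K → K) (e a : K)
    (q : Q × Cond K ι W m0 chi) : Prop :=
  ∃ s : Cond K ι W m0 chi, Cond.restr b0 q.2 ≤ s ∧ s.tr.ht ≤ δ ∧
    (q.1, s, (fun i => trunc s.tr.ht (ρ i)), e, a) ∈ z.DD

/-- the code `z` is realised below `q`, and `(δ, ρ)` is a position above its start -/
def GoodPos (b0 : W) (z : Code K ι W Q m0 chi) (δ : K) (ρ : ι → K → K)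
    (q : Q × Cond K ι W m0 chi) : Prop :=
  q.1 ≤ z.h1 ∧ Cond.restr b0 q.2 ≤ z.s1 ∧ z.s1.tr.ht ≤ δ ∧ δ ≤ q.2.tr.ht ∧
    ∀ i, ρ i ∈ q.2.tr.T δ ∧ trunc z.s1.tr.ht (ρ i) = z.ρ1 i

/-- `q` forces that `X` extends `D z (δ, ρ)` -/
def Ext (b0 : W) (z : Code K ι W Q m0 chi) (δ : K) (ρ : ι → K → K)
    (X : PF (Q × Cond K ι W m0 chi) K K) (q : Q × Cond K ι W m0 chi) : Prop :=
  ∀ e a, ∀ r ≤ q, DV b0 z δ ρ e a r → X.val e a r

/-! ### paths -/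

/-- the data of the map: the tree, the bound, the decoration used for decoding, the decoding -/
structure Ctx (K ι W Q I : Type u) [LinearOrder K] [OrderBot K] (m0 : K) [LinearOrder W]
    [OrderBot W] (chi : W → W) [Preorder Q] where
  Y : PF (Q × Cond K ι W m0 chi) (K × I × K) K
  b0 : W
  a0 : DLab ι W
  dec : W → Code K ι W Q m0 chi × K × (ι → K → K)
  hY : DecAt b0 Y
  hdec : ∀ z, IsCode Y b0 z → ∀ δ ρ, ∃ χ ≤ chi a0.tag, dec χ = (z, δ, ρ)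

namespace Ctx

variable (Γ : Ctx K ι W Q I m0 chi) (x : PF (Q × Cond K ι W m0 chi) K K)

/-- `q` decides that `x i` codes the triple `d`, and is at least as high as its position -/
def P (i : K) (d : Code K ι W Q m0 chi × K × (ι → K → K)) (q : Q × Cond K ι W m0 chi) : Prop :=
  ∃ c, x.val i c q ∧ Γ.a0 ∈ q.2.N ∧ c < q.2.tr.ht ∧ Γ.dec (q.2.g Γ.a0 c) = d ∧
    d.2.1 ≤ q.2.tr.ht

/-- `x ⊥` codes the code `z` (with its start), and `z` is realised -/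
def VZ (z : Code K ι W Q m0 chi) (q : Q × Cond K ι W m0 chi) : Prop :=
  Γ.P x ⊥ (z, z.s1.tr.ht, z.ρ1) q ∧ IsCode Γ.Y Γ.b0 z ∧ q.1 ≤ z.h1 ∧
    Cond.restr Γ.b0 q.2 ≤ z.s1

/-- `x i` codes the position `(δ, ρ)`, and this is a valid position after those coded by `x j`,
`j < i` -/
def Val (z : Code K ι W Q m0 chi) (i δ : K) (ρ : ι → K → K) (q : Q × Cond K ι W m0 chi) :
    Prop :=
  Γ.VZ x z q ∧ (∃ z', Γ.P x i (z', δ, ρ) q) ∧
  (∀ j < i, ∀ r ≤ q, ∀ d, Γ.P x j d r → d.2.1 ≤ δ ∧ ∀ t, trunc d.2.1 (ρ t) = d.2.2 t) ∧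
  (∀ t, ρ t ∈ q.2.tr.T δ) ∧
  (∀ e < i, ∀ r ≤ q, ∃ r' ≤ r, ∃ a, DV Γ.b0 z δ ρ e a r') ∧
  (IsLim i → (∀ γ < δ, ∀ r ≤ q, ∃ r' ≤ r, ∃ j < i, ∃ d, Γ.P x j d r' ∧ γ < d.2.1) ∧
    (CofW δ → ρ ∈ q.2.tr.A δ ∨ ∃ j < i, ∃ d, Γ.P x j d q ∧ d.2.1 = δ))

/-- all positions `x j`, `j < i`, are valid -/
def Below (z : Code K ι W Q m0 chi) (i : K) (q : Q × Cond K ι W m0 chi) : Prop :=
  ∀ j < i, ∀ r ≤ q, ∃ r' ≤ r, ∃ δ ρ, Γ.Val x z j δ ρ r'

/-- `x i` does not code a valid position -/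
def Fail (z : Code K ι W Q m0 chi) (i : K) (q : Q × Cond K ι W m0 chi) : Prop :=
  ∀ r ≤ q, ∀ δ ρ, ¬ Γ.Val x z i δ ρ r

/-- `(δ, ρ)` is the union of the positions coded by `x j`, `j < i` -/
def LastPos (i δ : K) (ρ : ι → K → K) (q : Q × Cond K ι W m0 chi) : Prop :=
  (∀ j < i, ∀ r ≤ q, ∀ d, Γ.P x j d r → d.2.1 ≤ δ ∧ ∀ t, trunc d.2.1 (ρ t) = d.2.2 t) ∧
  (∀ γ < δ, ∀ r ≤ q, ∃ r' ≤ r, ∃ j < i, ∃ d, Γ.P x j d r' ∧ γ < d.2.1) ∧
  δ ≤ q.2.tr.ht ∧ ∀ t, ρ t ∈ q.2.tr.T δ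

/-- `(δ, ρ)` is the last position of `x` before the first failure, or up to `i` -/
def Res [SuccOrder K] (z : Code K ι W Q m0 chi) (i δ : K) (ρ : ι → K → K)
    (q : Q × Cond K ι W m0 chi) : Prop :=
  Γ.VZ x z q ∧ ∃ j ≤ Order.succ i, ⊥ < j ∧ Γ.Below x z j q ∧
    (j = Order.succ i ∨ Γ.Fail x z j q) ∧ Γ.LastPos x j δ ρ q

/-- no code is realised by `x ⊥` -/
def NoZ (q : Q × Cond K ι W m0 chi) : Prop := ∀ z, ∀ r ≤ q, ¬ Γ.VZ x z r

end Ctx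

end Pool.Agent.KT
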