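import Pool.Agent.Lib_MP_bf47cd.B02x
import Pool.Agent.Lib_MP_bf47cd.BDefs

/-!
# H17-B02: rigidity and existence of codes (from helper97's B01, B02x)
-/

set_option linter.unusedSectionVars false
set_option linter.unusedVariables false

namespace Pool.Agent.KT

universe u

open Set Cardinal

variable {K ι W Q I : Type u} [LinearOrder K] [OrderBot K] [WellFoundedLT K] [SuccOrder K]
  [NoMaxOrder K] {m0 : K} [LinearOrder W] [OrderBot W] [WellFoundedLT W] {chi : W → W}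
  [Preorder Q] [hK : SetupK K ι m0] [hW : SetupW K ι W chi] [hQ : SetupQ Q ι]
include hK hW hQ

variable {Y : PF (Q × Cond K ι W m0 chi) (K × I × K) K} {b0 : W}

omit hK hW hQ in
theorem Mem.inBr {X : PF (Q × Cond K ι W m0 chi) K K} {q : Q × Cond K ι W m0 chi}
    (h : Mem Y X q) : InBr Y X q := by
  intro η r hr
  obtain ⟨r', hr', i, hi⟩ := h η r hr
  refine ⟨r', hr', i, fun e he b s hs => ⟨hi e he b s hs, fun hy => ?_⟩⟩
  refine X.dense _ _ _ fun t ht => ?_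
  obtain ⟨t', ht', b', hb'⟩ := X.total e t
  have h1 := hi e he b' t' (ht'.trans (ht.trans hs)) hb'
  have h2 := Y.uniq _ _ _ _ h1 (Y.mono _ _ s t' (ht'.trans ht) hy)
  exact ⟨t', ht', h2 ▸ hb'⟩

theorem exists_rigid (hI : #I ≤ #ι) (hY : DecAt b0 Y) (X : PF (Q × Cond K ι W m0 chi) K K)
    (q0 : Q × Cond K ι W m0 chi) (hX : Mem Y X q0) :
    ∃ h1 ≤ q0.1, ∃ p1 ≤ q0.2, Rigid b0 X h1 p1 := by
  obtain ⟨x, hx, hr⟩ := exists_rigidX hI hY hX.inBr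
  exact ⟨x.1, hx.1, x.2, hx.2, hr⟩

/-- rigidity is inherited by smaller conditions; add `#ι` labels that are not below `b0` -/
theorem exists_code (hI : #I ≤ #ι) (hY : DecAt b0 Y) (X : PF (Q × Cond K ι W m0 chi) K K)
    (q0 : Q × Cond K ι W m0 chi) (hX : Mem Y X q0) :
    ∃ z p1 w1, IsCodeOf Y b0 z p1 w1 X ∧ z.h1 ≤ q0.1 ∧ p1 ≤ q0.2 := by
  obtain ⟨x, hx, hr, _, w, hw1, hw2⟩ := exists_rigidX' hI hY hX.inBr
  refine ⟨⟨x.1, Cond.restr b0 x.2, fun i => x.2.b (w i), {t | t.1 ≤ x.1 ∧ ∃ r ≤ x.2,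
    Cond.restr b0 r = t.2.1 ∧ (∀ i, r.b (w i) = t.2.2.1 i) ∧
      X.val t.2.2.2.1 t.2.2.2.2 (t.1, r)}⟩, x.2, w,
    ⟨hr, fun η r hr => hX η r (hr.trans hx), hw1, fun ξ => ?_, rfl, fun i => rfl,
      fun h s ρ e a => Iff.rfl⟩, hx.1, hx.2⟩
  rw [hw2]; exact Iff.rfl

end Pool.Agent.KT
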