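import Pool.Agent.Lib_MP_bf47cd.B01

/-!
# H17-B02: rigidity, the counting argument

Every condition that forces `X` to be a branch of a tree with small levels has a rigid extension.
-/

set_option linter.unusedSectionVars false
set_option linter.unusedVariables false

namespace Pool.Agent.KT

universe u

open Set Cardinal

variable {K ι W : Type u} [LinearOrder K] [OrderBot K] [WellFoundedLT K] [SuccOrder K]
  [NoMaxOrder K] {m0 : K} [LinearOrder W] [OrderBot W] [WellFoundedLT W] {chi : W → W}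
  {Q Ω : Type u} [Preorder Q] [hK : SetupK K ι m0]
include hK

/-- `p` can be moved onto every condition with labels below `b0` that is smaller than the part of
`p` below `b0` -/
theorem Cond.exists_move' (b0 : W) (p s : Cond K ι W m0 chi) (hs : restr b0 s = s)
    (h : s ≤ restr b0 p) : ∃ q ≤ p, q ≤ s ∧ restr b0 q = s := by
  obtain ⟨φ, hφ⟩ := Tr.exists_up p.tr s.tr h.1
  obtain ⟨q, h1, h2, h3, _⟩ := exists_move b0 p s hs h (fun ξ => φ (p.b ξ))
    (fun ξ hξ _ => hφ _ (p.b_mem ξ hξ))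
  exact ⟨q, h1, h2, h3⟩

/-- `p` can be moved onto the part below `b0` of a smaller part below `b0` -/
theorem Cond.exists_move'' (b0 : W) (p s : Cond K ι W m0 chi)
    (h : restr b0 s ≤ restr b0 p) : ∃ q ≤ p, restr b0 q = restr b0 s := by
  obtain ⟨q, h1, _, h3⟩ := exists_move' b0 p (restr b0 s) restr_restr h
  exact ⟨q, h1, h3⟩

/-- **Rigidity.** If `Y` is decided by the parts of the conditions below `b0`, then every condition
that forces `X` to be a branch of the tree listed by `Y` has a rigid extension. -/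
theorem exists_rigidX [hQ : SetupQ Q ι] {b0 : W} (hΩ : #Ω ≤ #ι)
    {Y : PF (Q × Cond K ι W m0 chi) (K × Ω × K) K} (hY : DecAt b0 Y)
    {X : PF (Q × Cond K ι W m0 chi) K K} {x0 : Q × Cond K ι W m0 chi} (hX : InBr Y X x0) :
    ∃ x ≤ x0, RigidX b0 X x := by
  classical
  by_contra hcon
  push Not at hcon
  obtain ⟨V, B, η, hV, hBx, hne⟩ := exists_tree X x0 hcon
  -- the tasks
  let Φ : Q × Ω → V → Cond K ι W m0 chi → Prop := fun j v q => ∃ h' ≤ j.1, ∃ r ≤ B.r v,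
    Cond.restr b0 q ≤ Cond.restr b0 r ∧ AgreeAt Y X η j.2 (h', r)
  have hΦ : ∀ j v q q', q' ≤ q → Φ j v q → Φ j v q' := by
    rintro j v q q' hq ⟨h', h1, r, h2, h3, h4⟩
    exact ⟨h', h1, r, h2, (Cond.restr_mono hq b0).trans h3, h4⟩
  let D : Q × Ω → Set (Cond K ι W m0 chi) := fun j =>
    {q | (∃ v, Φ j v q) ∨ ∀ q' ≤ q, ¬ ∃ v, Φ j v q'}
  have hVne : Nonempty V := by
    by_contra h1
    rw [not_nonempty_iff] at h1
    rw [mk_eq_zero V] at hV
    exact absurd hV (not_lt.2 zero_le)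
  obtain ⟨v0⟩ := hVne
  obtain ⟨q, hq, hqD⟩ := Cond.dist (J := Q × Ω) (card_prod_le K m0 hQ.card hΩ) D (by
      rintro j q (⟨v, h1⟩ | h1) r hr
      · exact Or.inl ⟨v, hΦ j v q r hr h1⟩
      · exact Or.inr fun q' hq' => h1 q' (hq'.trans hr)) (B.r v0) (by
      intro j q _
      by_cases h1 : ∃ q' ≤ q, ∃ v, Φ j v q'
      · obtain ⟨q', h2, h3⟩ := h1
        exact ⟨q', h2, Or.inl h3⟩
      · exact ⟨q, le_rfl, Or.inr fun q' hq' h2 => h1 ⟨q', hq', h2⟩⟩)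
  -- the recorded indices
  let rec' : Q × Ω → V := fun j => if h : ∃ v, Φ j v q then h.choose else v0
  have hrec : ∀ j, (∃ v, Φ j v q) → Φ j (rec' j) q := by
    intro j hj
    simp only [rec', dif_pos hj]
    exact hj.choose_spec
  obtain ⟨v, hv⟩ : ∃ v, ∀ j, rec' j ≠ v := by
    by_contra h1
    push Not at h1
    have h2 : #V ≤ #(Q × Ω) := mk_le_of_surjective (f := rec') fun v => h1 v
    exact absurd (h2.trans (card_prod_le K m0 hQ.card hΩ)) (not_le.2 hV)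
  -- move `B.r v` onto the part of `q` below `b0`
  have hsv : Cond.restr b0 q ≤ Cond.restr b0 (B.r v) := by
    rw [B.r_restr v v0]; exact Cond.restr_mono hq b0
  obtain ⟨q1, hq1, hq1r⟩ := Cond.exists_move'' b0 (B.r v) q hsv
  have hq1x : (x0.1, q1) ≤ x0 := ⟨le_rfl, hq1.trans (hBx v)⟩
  obtain ⟨⟨h', r'⟩, hr', i, hag⟩ := hX η (x0.1, q1) hq1x
  have hr'q : Cond.restr b0 r' ≤ Cond.restr b0 q := by
    rw [← hq1r]; exact Cond.restr_mono hr'.2 b0
  -- the task `(h', i)`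
  have h1 : ∃ v, Φ (h', i) v q := by
    rcases hqD (h', i) with h1 | h1
    · exact h1
    · exfalso
      obtain ⟨q', h2, h3⟩ := Cond.exists_move'' b0 q r' hr'q
      exact h1 q' h2 ⟨v, h', le_rfl, r', hr'.2.trans hq1, h3.le, hag⟩
  obtain ⟨h'', hh'', r1, hr1, hqr1, hag1⟩ := hrec _ h1
  obtain ⟨r2, hr2, hr2r⟩ := Cond.exists_move'' b0 r1 r' (hr'q.trans hqr1)
  obtain ⟨h3, hh3, e, he, a, a', haa, hXa, hXa'⟩ := hne _ v (hv (h', i)) h''
    (hh''.trans hr'.1)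
  have k1 : X.val e a (h3, r2) := X.mono _ _ (h3, B.r (rec' (h', i))) _ ⟨le_rfl, hr2.trans hr1⟩ hXa
  have k2 : X.val e a' (h3, r') := X.mono _ _ (h3, B.r v) _ ⟨le_rfl, hr'.2.trans hq1⟩ hXa'
  have k3 : Y.val (η, i, e) a (h3, r2) :=
    (hag1 e he a (h3, r2) ⟨hh3, hr2⟩).1 k1
  have k4 : Y.val (η, i, e) a' (h3, r') :=
    (hag e he a' (h3, r') ⟨hh3.trans hh'', le_rfl⟩).1 k2
  have k5 := hY _ _ _ _ k3
  have k6 := hY _ _ _ _ k4
  rw [hr2r] at k5
  exact haa (Y.uniq _ _ _ _ k5 k6)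

/-- a rigid extension with `#ι` labels not below `b0`, enumerated without repetition by `ι`, and
with injective `b` -/
theorem exists_rigidX' [hW : SetupW K ι W chi] [hQ : SetupQ Q ι] {b0 : W} (hΩ : #Ω ≤ #ι)
    {Y : PF (Q × Cond K ι W m0 chi) (K × Ω × K) K} (hY : DecAt b0 Y)
    {X : PF (Q × Cond K ι W m0 chi) K K} {x0 : Q × Cond K ι W m0 chi} (hX : InBr Y X x0) :
    ∃ x ≤ x0, RigidX b0 X x ∧ InjOn x.2.b x.2.L ∧
      ∃ w : ι → W, Function.Injective w ∧ range w = {ξ | ξ ∈ x.2.L ∧ b0 ≤ ξ} := by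
  classical
  obtain ⟨x, hx, hr⟩ := exists_rigidX hΩ hY hX
  -- fresh labels
  obtain ⟨S0, hS0, hS0c⟩ : ∃ S : Set W, (∀ ξ ∈ S, b0 ≤ ξ) ∧ #S = #ι := by
    have h1 := hW.chi_fib ⊥ b0
    obtain ⟨S, hS, hSc⟩ := le_mk_iff_exists_subset.1 h1.le
    exact ⟨S, fun ξ hξ => (hS hξ).1, hSc⟩
  obtain ⟨q1, hq1, hq1t, hSq1⟩ := Cond.exists_mem_L x.2 S0 hS0c.le
  obtain ⟨q2, hq2, _, hinj, hL2⟩ := Cond.exists_injOn_b q1
  have hq2x : (x.1, q2) ≤ x := ⟨le_rfl, hq2.trans hq1⟩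
  refine ⟨(x.1, q2), hq2x.trans hx, hr.mono hq2x, hinj, ?_⟩
  have h1 : #{ξ | ξ ∈ q2.L ∧ b0 ≤ ξ} = #ι := by
    apply le_antisymm
    · exact (mk_le_mk_of_subset fun ξ h => h.1).trans q2.L_card
    · rw [← hS0c]
      exact mk_le_mk_of_subset fun ξ hξ => ⟨Cond.le_L hq2 (hSq1 hξ), hS0 ξ hξ⟩
  obtain ⟨f⟩ := Cardinal.eq.1 h1.symm
  refine ⟨fun z => (f z).1, fun z z' h => f.injective (Subtype.ext h), ?_⟩
  ext ξ
  constructor
  · rintro ⟨z, rfl⟩; exact (f z).2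
  · intro h
    exact ⟨f.symm ⟨ξ, h⟩, by simp⟩

end Pool.Agent.KT
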