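import Pool.Agent.Lib_MP_bf47cd.BDefs
import Pool.Agent.Lib_MP_bf47cd.A03

/-!
# H17-B03: the partial function D z (δ, ρ) is well defined
-/

set_option linter.unusedSectionVars false
set_option linter.unusedVariables false

namespace Pool.Agent.KT

universe u

open Set Cardinal

variable {K ι W Q I : Type u} [LinearOrder K] [OrderBot K] [WellFoundedLT K] [SuccOrder K]
  [NoMaxOrder K] {m0 : K} [LinearOrder W] [OrderBot W] [WellFoundedLT W] {chi : W → W}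
  [Preorder Q] [hK : SetupK K ι m0] [hW : SetupW K ι W chi] [hQ : SetupQ Q ι]
include hK hW hQ

variable {Y : PF (Q × Cond K ι W m0 chi) (K × I × K) K} {b0 : W}
  {z : Code K ι W Q m0 chi} {p1 : Cond K ι W m0 chi} {w1 : ι → W}
  {X : PF (Q × Cond K ι W m0 chi) K K} {δ δ' e a a' : K} {ρ ρ' : ι → K → K}
  {q r : Q × Cond K ι W m0 chi}

/-- moving with prescribed nodes of the labels `w1 i` -/
private theorem B03_move (hz : IsCodeOf Y b0 z p1 w1 X) (r t : Cond K ι W m0 chi)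
    (ht : Cond.restr b0 t = t) (h : t ≤ Cond.restr b0 r) (hr : r ≤ p1) (y : ι → K → K)
    (hy : ∀ i, y i ∈ t.tr.T t.tr.ht ∧ trunc r.tr.ht (y i) = r.b (w1 i)) :
    ∃ q0 ≤ r, Cond.restr b0 q0 = t ∧ ∀ i, q0.b (w1 i) = y i := by
  classical
  obtain ⟨-, -, hinj, hrange, -⟩ := hz
  obtain ⟨φ, hφ⟩ := Tr.exists_up r.tr t.tr h.1
  let β : W → K → K := fun ξ => if h : ∃ i, w1 i = ξ then y h.choose else φ (r.b ξ)
  have hβw : ∀ i, β (w1 i) = y i := by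
    intro i
    have h1 : ∃ j, w1 j = w1 i := ⟨i, rfl⟩
    have h2 : h1.choose = i := hinj h1.choose_spec
    simp only [β, dif_pos h1, h2]
  obtain ⟨q0, k1, k2, k3, k4, k5, k6, k7, k8⟩ := Cond.exists_move b0 r t ht h β (by
    intro ξ hξ _
    by_cases h1 : ∃ i, w1 i = ξ
    · obtain ⟨i, rfl⟩ := h1
      rw [hβw]
      exact hy i
    · simp only [β, dif_neg h1]
      exact hφ _ (r.b_mem ξ hξ))
  refine ⟨q0, k1, k3, fun i => ?_⟩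
  have h1 := (hrange (w1 i)).1 ⟨i, rfl⟩
  rw [k7 (w1 i) (Cond.le_L hr h1.1) h1.2, hβw]

/-- agreement on the labels of `p1` -/
private theorem B03_agree (hz : IsCodeOf Y b0 z p1 w1 X) {r r' : Cond K ι W m0 chi}
    (h : Cond.restr b0 r = Cond.restr b0 r') (hw : ∀ i, r.b (w1 i) = r'.b (w1 i)) :
    ∀ ξ ∈ p1.L, r.b ξ = r'.b ξ := by
  intro ξ hξ
  by_cases h1 : ξ < b0
  · rw [← Cond.restr_b (p := r) h1, h, Cond.restr_b h1]
  · obtain ⟨i, rfl⟩ := (hz.2.2.2.1 ξ).2 ⟨hξ, not_lt.1 h1⟩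
    exact hw i

theorem DV.mono (hz : IsCode Y b0 z) (h : DV b0 z δ ρ e a q) (hr : r ≤ q) :
    DV b0 z δ ρ e a r := by
  obtain ⟨p1, w1, X, hz⟩ := hz
  obtain ⟨s, h1, h2, h3⟩ := h
  refine ⟨s, (Cond.restr_mono hr.2 b0).trans h1, h2, ?_⟩
  obtain ⟨-, -, -, -, -, -, hDD⟩ := hz
  rw [hDD] at h3 ⊢
  obtain ⟨h4, r0, h5, h6, h7, h8⟩ := h3
  exact ⟨hr.1.trans h4, r0, h5, h6, h7, X.mono _ _ (q.1, r0) _ ⟨hr.1, le_rfl⟩ h8⟩

theorem DV.mono_pos (h : DV b0 z δ ρ e a q) (hδ : δ ≤ δ') (hρ : ∀ i, trunc δ (ρ' i) = ρ i) :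
    DV b0 z δ' ρ' e a q := by
  obtain ⟨s, h1, h2, h3⟩ := h
  refine ⟨s, h1, h2.trans hδ, ?_⟩
  have h4 : (fun i => trunc s.tr.ht (ρ' i)) = fun i => trunc s.tr.ht (ρ i) := by
    funext i
    rw [← hρ i, trunc_trunc_of_le h2]
  rw [h4]
  exact h3

theorem GoodPos.mono (h : GoodPos b0 z δ ρ q) (hr : r ≤ q) : GoodPos b0 z δ ρ r := by
  obtain ⟨h1, h2, h3, h4, h5⟩ := h
  refine ⟨hr.1.trans h1, (Cond.restr_mono hr.2 b0).trans h2, h3, h4.trans (Cond.le_ht hr.2),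
    fun i => ⟨?_, (h5 i).2⟩⟩
  rw [Tr.T_eq (Cond.le_tr hr.2) h4]
  exact (h5 i).1

/-- `D z (δ, ρ)` is well defined: move both witnesses to the tree of `q` with the nodes of `w1 i`
above (or restricting) `ρ i` (`Cond.exists_move`), and use rigidity -/
theorem DV.uniq (hz : IsCode Y b0 z) (hq : GoodPos b0 z δ ρ q) (h : DV b0 z δ ρ e a q)
    (h' : DV b0 z δ ρ e a' q) : a = a' := by
  obtain ⟨p1, w1, X, hz⟩ := hz
  obtain ⟨g1, g2, g3, g4, g5⟩ := hq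
  have hy : ∀ i, ∃ y ∈ q.2.tr.T q.2.tr.ht, trunc δ y = ρ i := fun i =>
    q.2.tr.T_ext δ q.2.tr.ht g4 le_rfl (ρ i) (g5 i).1
  choose y hy1 hy2 using hy
  have key : ∀ a, DV b0 z δ ρ e a q → ∃ q0 ≤ p1, Cond.restr b0 q0 = Cond.restr b0 q.2 ∧
      (∀ i, q0.b (w1 i) = y i) ∧ X.val e a (q.1, q0) := by
    intro a h
    obtain ⟨s, h1, h2, h3⟩ := h
    rw [hz.2.2.2.2.2.2] at h3
    obtain ⟨h4, r, h5, h6, h7, h8⟩ := h3
    have h9 : r.tr = s.tr := by rw [← h6]; rfl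
    obtain ⟨q0, k1, k2, k3⟩ := B03_move hz r (Cond.restr b0 q.2) Cond.restr_restr
      (by rw [h6]; exact h1) h5 y (fun i => ⟨hy1 i, by
        rw [h7 i, h9, ← hy2 i, trunc_trunc_of_le h2]⟩)
    exact ⟨q0, k1.trans h5, k2, k3, X.mono _ _ (q.1, r) _ ⟨le_rfl, k1⟩ h8⟩
  obtain ⟨q0, k1, k2, k3, k4⟩ := key a h
  obtain ⟨q0', k1', k2', k3', k4'⟩ := key a' h'
  exact hz.1 q.1 g1 q0 k1 q0' k1' (k2.trans k2'.symm)
    (B03_agree hz (k2.trans k2'.symm) fun i => (k3 i).trans (k3' i).symm) e a a' k4 k4'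

/-- below `p1`, `D` at the positions of the labels `w1 i` of `p1` agrees with `X` -/
theorem DV.val (hz : IsCodeOf Y b0 z p1 w1 X) (hq1 : q.1 ≤ z.h1) (hq2 : q.2 ≤ p1)
    (hδ : δ ≤ q.2.tr.ht) (hρ : ∀ i, ρ i = trunc δ (q.2.b (w1 i))) (h : DV b0 z δ ρ e a q) :
    X.val e a q := by
  obtain ⟨s, h1, h2, h3⟩ := h
  rw [hz.2.2.2.2.2.2] at h3
  obtain ⟨h4, r, h5, h6, h7, h8⟩ := h3
  have h9 : r.tr = s.tr := by rw [← h6]; rfl
  refine X.dense e a q fun q' hq' => ?_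
  obtain ⟨r', hr', a'', ha''⟩ := X.total e q'
  refine ⟨r', hr', ?_⟩
  have hrq : r' ≤ q := hr'.trans hq'
  have hw : ∀ i, w1 i ∈ p1.L := fun i => ((hz.2.2.2.1 (w1 i)).1 ⟨i, rfl⟩).1
  obtain ⟨q0, k1, k2, k3⟩ := B03_move hz r (Cond.restr b0 r'.2) Cond.restr_restr
    (by rw [h6]; exact (Cond.restr_mono hrq.2 b0).trans h1) h5 (fun i => r'.2.b (w1 i))
    (fun i => ⟨r'.2.b_mem _ (Cond.le_L (hrq.2.trans hq2) (hw i)), by
      rw [h7 i, h9, hρ i, trunc_trunc_of_le h2, ← Cond.le_b hrq.2 (Cond.le_L hq2 (hw i)),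
        trunc_trunc_of_le (h2.trans hδ)]⟩)
  have k4 : X.val e a (r'.1, q0) := X.mono _ _ (q.1, r) _ ⟨hrq.1, k1⟩ h8
  have k5 : a = a'' := hz.1 r'.1 (hrq.1.trans hq1) q0 (k1.trans h5) r'.2 (hrq.2.trans hq2) k2
    (B03_agree hz k2 k3) e a a'' k4 ha''
  rw [k5]
  exact ha''

end Pool.Agent.KT
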