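import Pool.Agent.Lib_MP_bf47cd.B03
import Pool.Agent.Lib_MP_bf47cd.A11
import Pool.Agent.Lib_MP_bf47cd.A12

/-!
# H17-B04: the default branch extending D z (δ, ρ)
-/

set_option linter.unusedSectionVars false
set_option linter.unusedVariables false

namespace Pool.Agent.KT

universe u

open Set Cardinal

variable {K ι W Q I : Type u} [LinearOrder K] [OrderBot K] [WellFoundedLT K] [SuccOrder K]
  [NoMaxOrder K] {m0 : K} [LinearOrder W] [OrderBot W] [WellFoundedLT W] {chi : W → W}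
  [Preorder Q] [hK : SetupK K ι m0] [hW : SetupW K ι W chi] [hQ : SetupQ Q ι]
include hK hW hQ

variable {Y : PF (Q × Cond K ι W m0 chi) (K × I × K) K} {b0 : W}
  {z : Code K ι W Q m0 chi}

/-- **Default branch.** `p1, w1, X` a witness for `z`. Take `π` from `exists_goodPerm` moving the
labels of `p1` (labels in `p1.L` and tags of `p1.N`) that are not below `b0` away from those of
`q.2`, join `perm π p1` with `q.2` (first lift `q.2` if needed so that it is higher; nodes of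
`π (w1 i)` above `ρ i`) by `Cond.exists_join`: `q' = (q.1, p')`. `X' = X.perm π`: `Mem Y X' q'`
because `Y` is decided below `b0` (`restr_perm`). If `DV b0 z δ ρ e a (h, r)` with
`(h, r) ≤ q'`, and `X'.val e a' (h, r)` then `X.val e a' (h, perm π⁻¹ r)`, `perm π⁻¹ r ≤ p1`, with
the nodes of `w1 i` above `ρ i`: `DV.val` (`DV` only depends on the part below `b0`) gives
`X.val e a (h, perm π⁻¹ r)`. -/
theorem exists_default (hY : DecAt b0 Y) (hz : IsCode Y b0 z) (δ : K) (ρ : ι → K → K)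
    (q : Q × Cond K ι W m0 chi) (hq : GoodPos b0 z δ ρ q) :
    ∃ q' ≤ q, ∃ X : PF (Q × Cond K ι W m0 chi) K K, Mem Y X q' ∧ Ext b0 z δ ρ X q' := by
  classical
  obtain ⟨p1, w1, X, hz⟩ := hz
  have hz0 := hz
  obtain ⟨-, hMem, hinj, hrange, hs1, hρ1, -⟩ := hz0
  obtain ⟨g1, g2, g3, g4, g5⟩ := hq
  rw [hs1] at g2 g3
  -- the permutation
  obtain ⟨π, hπ, hπS⟩ := exists_goodPerm (chi := chi) K m0 b0 (p1.L ∪ DLab.tag '' p1.N)
    (q.2.L ∪ DLab.tag '' q.2.N)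
    (card_union_le K m0 p1.L_card (mk_image_le.trans p1.N_card))
    (card_union_le K m0 q.2.L_card (mk_image_le.trans q.2.N_card))
  have hπ' : ∀ ξ, chi (π.symm ξ) = chi ξ := hπ.symm.chi_eq
  have hsymm : ∀ {ξ : W}, b0 ≤ ξ → b0 ≤ π.symm ξ := fun {ξ} h => by
    by_contra hc
    exact absurd (hπ.symm.lt_iff.1 (not_le.1 hc)) (not_lt.2 h)
  have hfar : ∀ ξ, b0 ≤ ξ → π.symm ξ ∈ p1.L ∪ DLab.tag '' p1.N →
      ξ ∉ q.2.L ∪ DLab.tag '' q.2.N := fun ξ h1 h2 => by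
    have h3 := hπS _ h2 (hsymm h1)
    rwa [Equiv.apply_symm_apply] at h3
  -- the nodes
  have hy : ∀ i, ∃ y ∈ q.2.tr.T q.2.tr.ht, trunc δ y = ρ i := fun i =>
    q.2.tr.T_ext δ q.2.tr.ht g4 le_rfl (ρ i) (g5 i).1
  choose y hy1 hy2 using hy
  let β : W → K → K := fun ξ => if h : ∃ i, w1 i = π.symm ξ then y h.choose else fun _ => ⊥
  have hβw : ∀ i, β (π (w1 i)) = y i := by
    intro i
    have h1 : ∃ j, w1 j = π.symm (π (w1 i)) := ⟨i, by rw [Equiv.symm_apply_apply]⟩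
    have h2 : h1.choose = i := hinj (by rw [h1.choose_spec, Equiv.symm_apply_apply])
    simp only [β, dif_pos h1, h2]
  have hN : ∀ a ∈ (Cond.perm π hπ.chi_eq p1).N, a ∈ q.2.N → a.Low b0 := by
    intro a h1 h2
    have h1' : a.map π.symm ∈ p1.N := h1
    constructor
    · by_contra hc
      exact hfar a.tag (not_lt.1 hc) (Or.inr ⟨_, h1', rfl⟩) (Or.inr ⟨_, h2, rfl⟩)
    · intro t
      by_contra hc
      exact hfar (a.w t) (not_lt.1 hc) (Or.inl (p1.N_L _ h1' t)) (Or.inl (q.2.N_L a h2 t))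
  obtain ⟨p', k1, k2, k3, k4, k5, k6, k7⟩ := Cond.exists_join b0 (Cond.perm π hπ.chi_eq p1) q.2
    (by rw [Cond.restr_perm hπ]; exact g2)
    (fun ξ h1 h2 => by
      by_contra hc
      exact hfar ξ (not_lt.1 hc) (Or.inl h1) (Or.inl h2)) hN β (by
      intro ξ h1 h2
      have h1' : π.symm ξ ∈ p1.L := h1
      obtain ⟨i, hi⟩ := (hrange (π.symm ξ)).2 ⟨h1', hsymm h2⟩
      have h3 : ξ = π (w1 i) := by rw [hi, Equiv.apply_symm_apply]
      rw [h3, hβw, Cond.perm_b]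
      refine ⟨hy1 i, ?_⟩
      have h4 := (g5 i).2
      rw [hρ1 i, hs1] at h4
      rw [← h4, ← hy2 i]
      exact (trunc_trunc_of_le g3 (y i)).symm)
  have hw : ∀ i, π (w1 i) ∈ (Cond.perm π hπ.chi_eq p1).L ∧ b0 ≤ π (w1 i) := by
    intro i
    have h1 := (hrange (w1 i)).1 ⟨i, rfl⟩
    refine ⟨(Cond.mem_perm_L hπ.chi_eq p1 (w1 i)).2 h1.1, ?_⟩
    by_contra hc
    exact absurd (hπ.lt_iff.1 (not_le.1 hc)) (not_lt.2 h1.2)
  have hle : ∀ r : Q × Cond K ι W m0 chi, r ≤ (q.1, p') → r.1 ≤ z.h1 ∧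
      Cond.perm π.symm hπ' r.2 ≤ p1 := by
    intro r hr
    refine ⟨hr.1.trans g1, ?_⟩
    have h1 := (Cond.perm_le_perm hπ').2 (hr.2.trans k1)
    rwa [Cond.perm_symm_perm] at h1
  refine ⟨(q.1, p'), ⟨le_rfl, k2⟩, X.perm π hπ.chi_eq, ?_, ?_⟩
  · intro η r hr
    obtain ⟨h1, h2⟩ := hle r hr
    obtain ⟨r0, hr0, i, hi⟩ := hMem η (r.1, Cond.perm π.symm hπ' r.2) ⟨h1, h2⟩
    refine ⟨(r0.1, Cond.perm π hπ.chi_eq r0.2), ⟨hr0.1, ?_⟩, i, ?_⟩
    · have h3 := (Cond.perm_le_perm hπ.chi_eq).2 hr0.2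
      rwa [Cond.perm_perm_symm] at h3
    · intro e he b s hs hv
      have h3 : (s.1, Cond.perm π.symm hπ' s.2) ≤ r0 := by
        refine ⟨hs.1, ?_⟩
        have h4 := (Cond.perm_le_perm hπ').2 hs.2
        rwa [Cond.perm_symm_perm] at h4
      have h4 := hY _ _ _ _ (hi e he b _ h3 hv)
      have h5 : Cond.restr b0 (Cond.perm π.symm hπ' s.2) = Cond.restr b0 s.2 :=
        Cond.restr_perm hπ.symm s.2
      rw [h5] at h4
      exact Y.mono _ _ (s.1, Cond.restr b0 s.2) s ⟨le_rfl, Cond.le_restr b0 s.2⟩ h4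
  · intro e a r hr hDV
    obtain ⟨h1, h2⟩ := hle r hr
    have hrt : (Cond.perm π.symm hπ' r.2).tr = r.2.tr := rfl
    have h3 : DV b0 z δ ρ e a (r.1, Cond.perm π.symm hπ' r.2) := by
      obtain ⟨s, h4, h5, h6⟩ := hDV
      refine ⟨s, ?_, h5, h6⟩
      have h7 : Cond.restr b0 (Cond.perm π.symm hπ' r.2) = Cond.restr b0 r.2 :=
        Cond.restr_perm hπ.symm r.2
      change Cond.restr b0 (Cond.perm π.symm hπ' r.2) ≤ s
      rw [h7]; exact h4
    have h4 : δ ≤ r.2.tr.ht := by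
      refine g4.trans ?_
      rw [← k3]
      exact Cond.le_ht hr.2
    refine DV.val (q := (r.1, Cond.perm π.symm hπ' r.2)) hz h1 h2 h4 (fun i => ?_) h3
    have h5 : (Cond.perm π.symm hπ' r.2).b (w1 i) = r.2.b (π (w1 i)) := by
      change r.2.b (π.symm.symm (w1 i)) = _
      rw [Equiv.symm_symm]
    change ρ i = trunc δ ((Cond.perm π.symm hπ' r.2).b (w1 i))
    rw [h5]
    have h6 : π (w1 i) ∈ p'.L := by rw [k5]; exact Or.inl (hw i).1
    have h7 := Cond.le_b hr.2 h6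
    rw [k6 _ (hw i).1 (hw i).2, hβw, k3] at h7
    rw [← hy2 i, ← h7, trunc_trunc_of_le g4]

/-- mixing (`PF.max_principle`) -/
theorem exists_Dflt (hY : DecAt b0 Y) (hz : IsCode Y b0 z) (δ : K) (ρ : ι → K → K) :
    ∃ X : PF (Q × Cond K ι W m0 chi) K K, ∀ q, GoodPos b0 z δ ρ q →
      Mem Y X q ∧ Ext b0 z δ ρ X q := by
  obtain ⟨X, hX⟩ := PF.max_principle (P := Q × Cond K ι W m0 chi) (A := K) (B := K)
    (fun X q => ∀ r ≤ q, GoodPos b0 z δ ρ r → Mem Y X r ∧ Ext b0 z δ ρ X r)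
    (fun X p q hq h r hr => h r (hr.trans hq))
    (fun X p h s hs hg => by
      refine ⟨fun η r hr => ?_, fun e a r hr hDV => ?_⟩
      · obtain ⟨r1, hr1, h1⟩ := h r (hr.trans hs)
        have hg1 : GoodPos b0 z δ ρ r1 := hg.mono (hr1.trans hr)
        obtain ⟨r', hr', i, hi⟩ := (h1 r1 le_rfl hg1).1 η r1 le_rfl
        exact ⟨r', hr'.trans hr1, i, hi⟩
      · refine X.dense e a r fun r1 hr1 => ?_
        obtain ⟨r2, hr2, h2⟩ := h r1 ((hr1.trans hr).trans hs)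
        have hg2 : GoodPos b0 z δ ρ r2 := hg.mono ((hr2.trans hr1).trans hr)
        exact ⟨r2, hr2, (h2 r2 le_rfl hg2).2 e a r2 le_rfl (DV.mono hz hDV (hr2.trans hr1))⟩)
    (fun X X' p hE h r hr hg => by
      obtain ⟨h1, h2⟩ := h r hr hg
      refine ⟨fun η s hs => ?_, fun e a s hs hDV => ?_⟩
      · obtain ⟨r', hr', i, hi⟩ := h1 η s hs
        exact ⟨r', hr', i, fun e he b t ht hv => hi e he b t ht
          ((hE e (mem_univ e) b t (((ht.trans hr').trans hs).trans hr)).2 hv)⟩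
      · exact (hE e (mem_univ e) a s (hs.trans hr)).1 (h2 e a s hs hDV))
  refine ⟨X, fun q hq => hX q (fun q1 hq1 => ?_) q le_rfl hq⟩
  obtain ⟨q', hq', X', h1, h2⟩ := exists_default hY hz δ ρ q1 (hq.mono hq1)
  refine ⟨q', hq', X', fun r hr _ => ⟨fun η s hs => h1 η s (hs.trans hr), fun e a s hs =>
    h2 e a s (hs.trans hr)⟩⟩

end Pool.Agent.KT
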