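import Pool.Agent.Lib_MP_bf47cd.BDefs

/-!
# H17-B05: counting codes, existence of the context
-/

set_option linter.unusedSectionVars false
set_option linter.unusedVariables false

namespace Pool.Agent.KT

universe u

open Set Cardinal

private theorem B05_arrow {κ : Cardinal.{u}}
    (hp : ∀ c d : Cardinal.{u}, c < κ → d < κ → c ^ d < κ) {X Y : Type u}
    (hX : #X < κ) (hY : #Y < κ) : #(X → Y) < κ := by
  have h := hp _ _ hY hX
  rwa [Cardinal.power_def] at h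

private theorem B05_set {κ : Cardinal.{u}}
    (hp : ∀ c d : Cardinal.{u}, c < κ → d < κ → c ^ d < κ) (h2 : (2 : Cardinal.{u}) < κ)
    {X : Type u} (hX : #X < κ) : #(Set X) < κ := by
  rw [Cardinal.mk_set]
  exact hp _ _ h2 hX

private theorem B05_prod {κ : Cardinal.{u}}
    (hm : ∀ c d : Cardinal.{u}, c < κ → d < κ → c * d < κ) {X Y : Type u}
    (hX : #X < κ) (hY : #Y < κ) : #(X × Y) < κ := by
  rw [Cardinal.mk_prod, Cardinal.lift_id, Cardinal.lift_id]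
  exact hm _ _ hX hY

variable {K ι W Q I : Type u} [LinearOrder K] [OrderBot K] [WellFoundedLT K] [SuccOrder K]
  [NoMaxOrder K] {m0 : K} [LinearOrder W] [OrderBot W] [WellFoundedLT W] {chi : W → W}
  [Preorder Q] [hK : SetupK K ι m0] [hW : SetupW K ι W chi] [hQ : SetupQ Q ι]
include hK hW hQ

/-- there are few codes (`z.s1` and the `s` in `z.DD` are low, see `card_low_lt`) -/
theorem card_code_lt (Y : PF (Q × Cond K ι W m0 chi) (K × I × K) K) (b0 : W) :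
    #{z : Code K ι W Q m0 chi // IsCode Y b0 z} < #W := by
  have hp : ∀ c d : Cardinal.{u}, c < #W → d < #W → c ^ d < #W :=
    fun c d hc hd => pow_lt_W K ι m0 chi hc hd
  have hm : ∀ c d : Cardinal.{u}, c < #W → d < #W → c * d < #W :=
    fun c d hc hd => mul_lt_W K ι m0 chi hc hd
  have h2 : (2 : Cardinal.{u}) < #W :=
    lt_trans (Cardinal.natCast_lt_aleph0 (n := 2)) (aleph0_lt_W K ι m0 chi)
  have hKW : #K < #W := hW.K_lt
  have hiW : #ι < #W := ι_lt_W K m0 chi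
  have hQW : #Q < #W := lt_of_le_of_lt hQ.card hiW
  have hlow : #{p : Cond K ι W m0 chi // Cond.restr b0 p = p} < #W := card_low_lt K ι m0 chi b0
  have hr : #(ι → K → K) < #W := B05_arrow hp hiW (B05_arrow hp hKW hKW)
  have hbig : #(Q × {p : Cond K ι W m0 chi // Cond.restr b0 p = p} × (ι → K → K) ×
      Set (Q × {p : Cond K ι W m0 chi // Cond.restr b0 p = p} × (ι → K → K) × K × K)) < #W := by
    refine B05_prod hm hQW (B05_prod hm hlow (B05_prod hm hr (B05_set hp h2 ?_)))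
    exact B05_prod hm hQW (B05_prod hm hlow (B05_prod hm hr (B05_prod hm hKW hKW)))
  have hs1 : ∀ z : {z : Code K ι W Q m0 chi // IsCode Y b0 z}, Cond.restr b0 z.1.s1 = z.1.s1 := by
    rintro ⟨z, p1, w1, X, h⟩
    have h5 := h.2.2.2.2.1
    change Cond.restr b0 z.s1 = z.s1
    rw [h5, Cond.restr_restr]
  have hDD : ∀ (z : Code K ι W Q m0 chi), IsCode Y b0 z → ∀ t ∈ z.DD,
      Cond.restr b0 t.2.1 = t.2.1 := by
    rintro z ⟨p1, w1, X, h⟩ ⟨h', s, ρ, e, a⟩ ht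
    obtain ⟨-, r, -, h6, -⟩ := (h.2.2.2.2.2.2 h' s ρ e a).1 ht
    change Cond.restr b0 s = s
    rw [← h6, Cond.restr_restr]
  refine lt_of_le_of_lt (Cardinal.mk_le_of_injective
    (f := fun z : {z : Code K ι W Q m0 chi // IsCode Y b0 z} =>
      ((z.1.h1, (⟨z.1.s1, hs1 z⟩ : {p : Cond K ι W m0 chi // Cond.restr b0 p = p}), z.1.ρ1,
        {t : Q × {p : Cond K ι W m0 chi // Cond.restr b0 p = p} × (ι → K → K) × K × K |
          (t.1, t.2.1.1, t.2.2.1, t.2.2.2.1, t.2.2.2.2) ∈ z.1.DD}) :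
        Q × {p : Cond K ι W m0 chi // Cond.restr b0 p = p} × (ι → K → K) ×
      Set (Q × {p : Cond K ι W m0 chi // Cond.restr b0 p = p} × (ι → K → K) × K × K)))
    fun z z' h => ?_) hbig
  simp only [Prod.mk.injEq, Subtype.mk.injEq] at h
  obtain ⟨e1, e2, e3, e4⟩ := h
  apply Subtype.ext
  have e5 : z.1.DD = z'.1.DD := by
    ext t
    constructor
    · intro ht
      have h3 := Set.ext_iff.1 e4 (t.1, ⟨t.2.1, hDD z.1 z.2 t ht⟩, t.2.2)
      exact h3.1 ht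
    · intro ht
      have h3 := Set.ext_iff.1 e4 (t.1, ⟨t.2.1, hDD z'.1 z'.2 t ht⟩, t.2.2)
      exact h3.2 ht
  obtain ⟨⟨a1, a2, a3, a4⟩, ha⟩ := z
  obtain ⟨⟨b1, b2, b3, b4⟩, hb⟩ := z'
  simp only at e1 e2 e3 e5
  subst e1 e2 e3 e5
  rfl

/-- `b0` from `exists_decAt`; `χ0` with `#(Iic χ0)` at least the number of triples, `a0` with
`chi a0.tag = χ0` and `a0.w = fun _ => ⊥` -/
theorem exists_ctx (hI : #I ≤ #ι) (Y : PF (Q × Cond K ι W m0 chi) (K × I × K) K)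
    (q0 : Q × Cond K ι W m0 chi) :
    ∃ Γ : Ctx K ι W Q I m0 chi, Γ.Y = Y := by
  have hp : ∀ c d : Cardinal.{u}, c < #W → d < #W → c ^ d < #W :=
    fun c d hc hd => pow_lt_W K ι m0 chi hc hd
  have hm : ∀ c d : Cardinal.{u}, c < #W → d < #W → c * d < #W :=
    fun c d hc hd => mul_lt_W K ι m0 chi hc hd
  have hKW : #K < #W := hW.K_lt
  have hiW : #ι < #W := ι_lt_W K m0 chi
  have hIW : #I < #W := lt_of_le_of_lt hI hiW
  obtain ⟨b0, -, hY⟩ := exists_decAt (B05_prod hm hKW (B05_prod hm hIW hKW)) Y (⊥ : W)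
  have hT : #({z : Code K ι W Q m0 chi // IsCode Y b0 z} × K × (ι → K → K)) < #W :=
    B05_prod hm (card_code_lt Y b0) (B05_prod hm hKW
      (B05_arrow hp hiW (B05_arrow hp hKW hKW)))
  obtain ⟨f⟩ : Nonempty (({z : Code K ι W Q m0 chi // IsCode Y b0 z} × K × (ι → K → K)) ↪ W) :=
    Cardinal.le_def _ _ |>.1 hT.le
  obtain ⟨χ0, hχ0⟩ := exists_bddW K ι m0 chi hT f
  have hfib := hW.chi_fib χ0 ⊥
  have hne : ({ξ | ⊥ ≤ ξ ∧ chi ξ = χ0} : Set W).Nonempty := by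
    rw [← Set.nonempty_coe_sort, ← Cardinal.mk_ne_zero_iff]
    intro h0
    rw [h0] at hfib
    exact absurd hfib (not_lt.2 zero_le)
  obtain ⟨ξ, -, hξ⟩ := hne
  classical
  refine ⟨⟨Y, b0, ⟨ξ, fun _ => ⊥⟩, fun χ => if h : ∃ t, f t = χ then
    (h.choose.1.1, h.choose.2.1, h.choose.2.2) else (⟨q0.1, q0.2, fun _ _ => ⊥, ∅⟩, ⊥, fun _ _ => ⊥),
    hY, ?_⟩, rfl⟩
  intro z hz δ ρ
  refine ⟨f (⟨z, hz⟩, δ, ρ), ?_, ?_⟩
  · rw [hξ]; exact (hχ0 _).le
  · have h : ∃ t, f t = f (⟨z, hz⟩, δ, ρ) := ⟨_, rfl⟩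
    have h1 : h.choose = (⟨z, hz⟩, δ, ρ) := f.injective h.choose_spec
    rw [dif_pos h, h1]

end Pool.Agent.KT
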