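import Pool.Agent.Lib_MP_bf47cd.B03
import Pool.Agent.Lib_MP_bf47cd.A11

/-!
# H17-B06: basic lemmas on paths
-/

set_option linter.unusedSectionVars false
set_option linter.unusedVariables false

namespace Pool.Agent.KT

universe u

open Set Cardinal

variable {K ι W Q I : Type u} [LinearOrder K] [OrderBot K] [WellFoundedLT K] [SuccOrder K]
  [NoMaxOrder K] {m0 : K} [LinearOrder W] [OrderBot W] [WellFoundedLT W] {chi : W → W}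
  [Preorder Q] [hK : SetupK K ι m0] [hW : SetupW K ι W chi] [hQ : SetupQ Q ι]
include hK hW hQ

namespace Ctx

variable (Γ : Ctx K ι W Q I m0 chi) {x x' : PF (Q × Cond K ι W m0 chi) K K}
  {z z' : Code K ι W Q m0 chi} {i j δ δ' e a : K} {ρ ρ' : ι → K → K}
  {d d' : Code K ι W Q m0 chi × K × (ι → K → K)} {q r : Q × Cond K ι W m0 chi}

theorem P_mono (h : Γ.P x i d q) (hr : r ≤ q) : Γ.P x i d r := by
  obtain ⟨c, h1, h2, h3, h4, h5⟩ := h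
  have h6 := Cond.le_ht hr.2
  refine ⟨c, x.mono _ _ _ _ hr h1, Cond.le_N hr.2 h2, h3.trans_le h6, ?_, h5.trans h6⟩
  rw [Cond.le_g hr.2 h2 h3]
  exact h4

theorem P_uniq (h : Γ.P x i d q) (h' : Γ.P x i d' q) : d = d' := by
  obtain ⟨c, h1, h2, h3, h4, h5⟩ := h
  obtain ⟨c', h1', h2', h3', h4', h5'⟩ := h'
  have h6 := x.uniq _ _ _ _ h1 h1'
  subst h6
  rw [← h4, ← h4']

/-- make `a0` a decoration, decide `x i`, and increase the height (`Cond.exists_ht`) -/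
theorem P_total (x : PF (Q × Cond K ι W m0 chi) K K) (i : K) (q : Q × Cond K ι W m0 chi) :
    ∃ r ≤ q, ∃ d, Γ.P x i d r := by
  obtain ⟨r1, hr1, c, hc⟩ := x.total i q
  obtain ⟨p2, hp2, ha⟩ := Cond.exists_mem_N r1.2 Γ.a0
  obtain ⟨p3, hp3, hc3⟩ := Cond.exists_ht p2 c
  obtain ⟨p4, hp4, hd4⟩ := Cond.exists_ht p3 (Γ.dec (p3.g Γ.a0 c)).2.1
  have h1 : ((r1.1, p4) : Q × Cond K ι W m0 chi) ≤ r1 := ⟨le_rfl, hp4.trans (hp3.trans hp2)⟩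
  refine ⟨(r1.1, p4), h1.trans hr1, Γ.dec (p3.g Γ.a0 c), c, x.mono _ _ _ _ h1 hc,
    Cond.le_N (hp4.trans hp3) ha, hc3.trans_le (Cond.le_ht hp4), ?_, hd4.le⟩
  change Γ.dec (p4.g Γ.a0 c) = Γ.dec (p3.g Γ.a0 c)
  rw [Cond.le_g hp4 (Cond.le_N hp3 ha) hc3]

theorem P_congr (h : PF.EqOn x x' {i} q) (hd : Γ.P x i d q) : Γ.P x' i d q := by
  obtain ⟨c, h1, h2⟩ := hd
  exact ⟨c, (h i rfl c q le_rfl).1 h1, h2⟩

theorem VZ_mono (h : Γ.VZ x z q) (hr : r ≤ q) : Γ.VZ x z r := by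
  obtain ⟨h1, h2, h3, h4⟩ := h
  exact ⟨Γ.P_mono h1 hr, h2, hr.1.trans h3, (Cond.restr_mono hr.2 Γ.b0).trans h4⟩

theorem VZ_uniq (h : Γ.VZ x z q) (h' : Γ.VZ x z' q) : z = z' := by
  exact congrArg Prod.fst (Γ.P_uniq h.1 h'.1)

theorem VZ_or (x : PF (Q × Cond K ι W m0 chi) K K) (q : Q × Cond K ι W m0 chi) :
    ∃ r ≤ q, (∃ z, Γ.VZ x z r) ∨ Γ.NoZ x r := by
  by_cases h : ∃ r ≤ q, ∃ z, Γ.VZ x z r
  · obtain ⟨r, hr, z, hz⟩ := h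
    exact ⟨r, hr, Or.inl ⟨z, hz⟩⟩
  · refine ⟨q, le_rfl, Or.inr fun z r hr hz => h ⟨r, hr, z, hz⟩⟩

theorem Val_mono (h : Γ.Val x z i δ ρ q) (hr : r ≤ q) : Γ.Val x z i δ ρ r := by
  obtain ⟨h1, ⟨z', h2⟩, h3, h4, h5, h6⟩ := h
  have hδ : δ ≤ q.2.tr.ht := by
    obtain ⟨c, -, -, -, -, h7⟩ := h2
    exact h7
  refine ⟨Γ.VZ_mono h1 hr, ⟨z', Γ.P_mono h2 hr⟩, fun j hj s hs d hd => h3 j hj s (hs.trans hr) d hd,
    fun t => ?_, fun e he s hs => h5 e he s (hs.trans hr), fun hl => ⟨fun γ hγ s hs =>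
      (h6 hl).1 γ hγ s (hs.trans hr), fun hw => ?_⟩⟩
  · rw [Tr.T_eq (Cond.le_tr hr.2) hδ]
    exact h4 t
  · rcases (h6 hl).2 hw with h7 | ⟨j, hj, d, hd, hd'⟩
    · left
      rw [Tr.A_eq (Cond.le_tr hr.2) hδ]
      exact h7
    · exact Or.inr ⟨j, hj, d, Γ.P_mono hd hr, hd'⟩

theorem Val_uniq (h : Γ.Val x z i δ ρ q) (h' : Γ.Val x z' i δ' ρ' q) :
    z = z' ∧ δ = δ' ∧ ρ = ρ' := by
  obtain ⟨h1, ⟨z1, h2⟩, -⟩ := h
  obtain ⟨h1', ⟨z1', h2'⟩, -⟩ := h'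
  have h3 := Γ.P_uniq h2 h2'
  exact ⟨Γ.VZ_uniq h1 h1', congrArg (fun d => d.2.1) h3, congrArg (fun d => d.2.2) h3⟩

/-- at `⊥` there is no failure -/
theorem Val_bot (h : Γ.VZ x z q) : Γ.Val x z ⊥ z.s1.tr.ht z.ρ1 q := by
  refine ⟨h, ⟨z, h.1⟩, fun j hj => absurd hj not_lt_bot, fun t => ?_,
    fun e he => absurd he not_lt_bot, fun hl => absurd rfl hl.1⟩
  obtain ⟨-, ⟨p1, w1, X, hz⟩, -, h4⟩ := h
  obtain ⟨-, -, -, hrange, hs1, hρ1, -⟩ := hz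
  have h5 : z.s1.tr = p1.tr := by rw [hs1]; rfl
  have h6 : q.2.tr ≤ p1.tr := by
    rw [← h5]
    exact (Cond.le_tr h4 : (Cond.restr Γ.b0 q.2).tr ≤ z.s1.tr)
  rw [h5, hρ1 t, Tr.T_eq h6 le_rfl]
  exact p1.b_mem _ ((hrange (w1 t)).1 ⟨t, rfl⟩).1

theorem Below_mono (h : Γ.Below x z i q) (hr : r ≤ q) : Γ.Below x z i r := by
  exact fun j hj s hs => h j hj s (hs.trans hr)

theorem Fail_mono (h : Γ.Fail x z i q) (hr : r ≤ q) : Γ.Fail x z i r := by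
  exact fun s hs => h s (hs.trans hr)

theorem LastPos_mono (h : Γ.LastPos x i δ ρ q) (hr : r ≤ q) : Γ.LastPos x i δ ρ r := by
  obtain ⟨h1, h2, h3, h4⟩ := h
  refine ⟨fun j hj s hs => h1 j hj s (hs.trans hr), fun γ hγ s hs => h2 γ hγ s (hs.trans hr),
    h3.trans (Cond.le_ht hr.2), fun t => ?_⟩
  rw [Tr.T_eq (Cond.le_tr hr.2) h3]
  exact h4 t

theorem LastPos_uniq (h : Γ.LastPos x i δ ρ q) (h' : Γ.LastPos x i δ' ρ' q) :
    δ = δ' ∧ ρ = ρ' := by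
  obtain ⟨h1, h2, h3, h4⟩ := h
  obtain ⟨h1', h2', h3', h4'⟩ := h'
  have hδ : δ = δ' := by
    rcases lt_trichotomy δ δ' with hlt | heq | hlt
    · obtain ⟨r', hr', j, hj, d, hd, hd'⟩ := h2' δ hlt q le_rfl
      exact absurd (h1 j hj r' hr' d hd).1 (not_le.2 hd')
    · exact heq
    · obtain ⟨r', hr', j, hj, d, hd, hd'⟩ := h2 δ' hlt q le_rfl
      exact absurd (h1' j hj r' hr' d hd).1 (not_le.2 hd')
  subst hδ
  refine ⟨rfl, ?_⟩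
  funext t
  rw [← q.2.tr.T_trunc _ _ (h4 t), ← q.2.tr.T_trunc _ _ (h4' t), trunc_eq_iff]
  intro c hc
  obtain ⟨r', hr', j, hj, d, hd, hd'⟩ := h2 c hc q le_rfl
  have e1 := (h1 j hj r' hr' d hd).2 t
  have e2 := (h1' j hj r' hr' d hd).2 t
  exact trunc_eq_iff.1 (e1.trans e2.symm) c hd'

theorem LastPos_goodPos (hz : Γ.VZ x z q) (hi : ⊥ < i) (h : Γ.LastPos x i δ ρ q) :
    GoodPos Γ.b0 z δ ρ q := by
  obtain ⟨h1, h2, h3, h4⟩ := h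
  have h5 := h1 ⊥ hi q le_rfl _ hz.1
  exact ⟨hz.2.2.1, hz.2.2.2, h5.1, h3, fun t => ⟨h4 t, h5.2 t⟩⟩

theorem LastPos_succ (h : Γ.Val x z i δ ρ q) : Γ.LastPos x (Order.succ i) δ ρ q := by
  obtain ⟨h1, ⟨z', h2⟩, h3, h4, h5, h6⟩ := h
  have hδ : δ ≤ q.2.tr.ht := by
    obtain ⟨c, -, -, -, -, h7⟩ := h2
    exact h7
  refine ⟨fun j hj s hs d hd => ?_, fun γ hγ s hs => ⟨s, le_rfl, i, Order.lt_succ i, (z', δ, ρ),
    Γ.P_mono h2 hs, hγ⟩, hδ, h4⟩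
  rcases (Order.lt_succ_iff.1 hj).lt_or_eq with hj' | hj'
  · exact h3 j hj' s hs d hd
  · rw [hj'] at hd
    have h7 := Γ.P_uniq hd (Γ.P_mono h2 hs)
    rw [h7]
    exact ⟨le_rfl, fun t => q.2.tr.T_trunc _ _ (h4 t)⟩

theorem Res_mono (h : Γ.Res x z i δ ρ q) (hr : r ≤ q) : Γ.Res x z i δ ρ r := by
  obtain ⟨h1, j, h2, h3, h4, h5, h6⟩ := h
  exact ⟨Γ.VZ_mono h1 hr, j, h2, h3, Γ.Below_mono h4 hr, h5.imp_right fun h => Γ.Fail_mono h hr,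
    Γ.LastPos_mono h6 hr⟩

theorem Res_uniq (h : Γ.Res x z i δ ρ q) (h' : Γ.Res x z' i δ' ρ' q) :
    z = z' ∧ δ = δ' ∧ ρ = ρ' := by
  obtain ⟨h1, j, h2, h3, h4, h5, h6⟩ := h
  obtain ⟨h1', j', h2', h3', h4', h5', h6'⟩ := h'
  have hz := Γ.VZ_uniq h1 h1'
  subst hz
  have hj : j = j' := by
    rcases lt_trichotomy j j' with hlt | heq | hlt
    · have h7 := h5.resolve_left fun h => absurd (hlt.trans_le h2') (by rw [h]; exact lt_irrefl _)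
      obtain ⟨r', hr', δ1, ρ1, hv⟩ := h4' j hlt q le_rfl
      exact absurd hv (h7 r' hr' δ1 ρ1)
    · exact heq
    · have h7 := h5'.resolve_left fun h => absurd (hlt.trans_le h2) (by rw [h]; exact lt_irrefl _)
      obtain ⟨r', hr', δ1, ρ1, hv⟩ := h4 j' hlt q le_rfl
      exact absurd hv (h7 r' hr' δ1 ρ1)
  subst hj
  exact ⟨rfl, Γ.LastPos_uniq h6 h6'⟩

theorem Res_goodPos (h : Γ.Res x z i δ ρ q) : IsCode Γ.Y Γ.b0 z ∧ GoodPos Γ.b0 z δ ρ q := by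
  obtain ⟨h1, j, h2, h3, h4, h5, h6⟩ := h
  exact ⟨h1.2.1, Γ.LastPos_goodPos h1 h3 h6⟩

private theorem B06_VZ_congr (h : PF.EqOn x x' (Iic i) q) (hx : Γ.VZ x z q) : Γ.VZ x' z q :=
  ⟨Γ.P_congr (fun a ha => h a (by rw [mem_singleton_iff] at ha; rw [ha]; exact bot_le)) hx.1,
    hx.2⟩

private theorem B06_P_congr (h : PF.EqOn x x' (Iic i) q) {j : K} (hj : j ≤ i) (hr : r ≤ q)
    (hx : Γ.P x j d r) : Γ.P x' j d r :=
  Γ.P_congr (fun a ha b s hs => h a (by rw [mem_singleton_iff] at ha; rw [ha]; exact hj) b s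
    (hs.trans hr)) hx

private theorem B06_Val_congr (h : PF.EqOn x x' (Iic i) q) {j : K} (hj : j ≤ i) (hr : r ≤ q)
    (hx : Γ.Val x z j δ ρ r) : Γ.Val x' z j δ ρ r := by
  have h' : PF.EqOn x' x (Iic i) q := h.symm
  obtain ⟨h1, ⟨z', h2⟩, h3, h4, h5, h6⟩ := hx
  refine ⟨B06_VZ_congr Γ (h.mono hr) h1, ⟨z', B06_P_congr Γ h hj hr h2⟩,
    fun k hk s hs d hd => h3 k hk s hs d (B06_P_congr Γ h' (hk.le.trans hj) (hs.trans hr) hd), h4,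
    h5, fun hl => ⟨fun γ hγ s hs => ?_, fun hw => ?_⟩⟩
  · obtain ⟨s', hs', k, hk, d, hd, hd'⟩ := (h6 hl).1 γ hγ s hs
    exact ⟨s', hs', k, hk, d, B06_P_congr Γ h (hk.le.trans hj) (hs'.trans (hs.trans hr)) hd, hd'⟩
  · rcases (h6 hl).2 hw with h7 | ⟨k, hk, d, hd, hd'⟩
    · exact Or.inl h7
    · exact Or.inr ⟨k, hk, d, B06_P_congr Γ h (hk.le.trans hj) hr hd, hd'⟩

/-- `Res x z i` only depends on `x` on `Iic i` -/
theorem Res_congr (h : PF.EqOn x x' (Iic i) q) (hx : Γ.Res x z i δ ρ q) :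
    Γ.Res x' z i δ ρ q := by
  have h' : PF.EqOn x' x (Iic i) q := h.symm
  obtain ⟨h1, j, h2, h3, h4, h5, h6⟩ := hx
  have hlt : ∀ k < j, k ≤ i := fun k hk => Order.lt_succ_iff.1 (hk.trans_le h2)
  refine ⟨B06_VZ_congr Γ h h1, j, h2, h3, fun k hk s hs => ?_, ?_, ?_⟩
  · obtain ⟨s', hs', δ1, ρ1, hv⟩ := h4 k hk s hs
    exact ⟨s', hs', δ1, ρ1, B06_Val_congr Γ h (hlt k hk) (hs'.trans hs) hv⟩
  · by_cases hj : j = Order.succ i
    · exact Or.inl hj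
    · right
      have hji : j ≤ i := Order.lt_succ_iff.1 (lt_of_le_of_ne h2 hj)
      intro s hs δ1 ρ1 hv
      exact h5.resolve_left hj s hs δ1 ρ1 (B06_Val_congr Γ h' hji hs hv)
  · obtain ⟨k1, k2, k3, k4⟩ := h6
    refine ⟨fun k hk s hs d hd => k1 k hk s hs d (B06_P_congr Γ h' (hlt k hk) hs hd),
      fun γ hγ s hs => ?_, k3, k4⟩
    obtain ⟨s', hs', k, hk, d, hd, hd'⟩ := k2 γ hγ s hs
    exact ⟨s', hs', k, hk, d, B06_P_congr Γ h (hlt k hk) (hs'.trans hs) hd, hd'⟩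

/-- coherence of the results at `succ e` and at `i ≥ succ e`: either they are the same position,
or a value at `e` of `D` is decided at some `r ≤ q`, the same for both positions. (Let `j'`, `j` be
the indices in `Res`; `j' ≤ j` by `Below`/`Fail`. If `j' < j` or `j' = succ (succ e)` then
`succ e < j` and `Val x z (succ e)` holds densely, with its clause on `D`.) -/
theorem Res_coh (hi : Order.succ e ≤ i) (h' : Γ.Res x z (Order.succ e) δ' ρ' q)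
    (h : Γ.Res x z i δ ρ q) : (δ' = δ ∧ ρ' = ρ) ∨
      ∀ r ≤ q, ∃ r' ≤ r, ∃ a, DV Γ.b0 z δ' ρ' e a r' ∧ DV Γ.b0 z δ ρ e a r' := by
  obtain ⟨h1, j, h2, h3, h4, h5, h6⟩ := h
  obtain ⟨h1', j', h2', h3', h4', h5', h6'⟩ := h'
  rcases lt_trichotomy j j' with hlt | heq | hlt
  · have h7 : j < Order.succ i := (hlt.trans_le h2').trans_le (Order.succ_le_succ hi)
    obtain ⟨r', hr', δ1, ρ1, hv⟩ := h4' j hlt q le_rfl
    exact absurd hv (h5.resolve_left h7.ne r' hr' δ1 ρ1)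
  · subst heq
    exact Or.inl (Γ.LastPos_uniq h6' h6)
  · right
    have h7 : j' = Order.succ (Order.succ e) := by
      by_contra hc
      obtain ⟨r', hr', δ1, ρ1, hv⟩ := h4 j' hlt q le_rfl
      exact h5'.resolve_left hc r' hr' δ1 ρ1 hv
    have h8 : Order.succ e < j' := by rw [h7]; exact Order.lt_succ _
    intro r hr
    obtain ⟨r1, hr1, δ1, ρ1, hv⟩ := h4' (Order.succ e) h8 r hr
    obtain ⟨-, ⟨z2, hP⟩, -, -, k5, -⟩ := hv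
    obtain ⟨r2, hr2, a, ha⟩ := k5 e (Order.lt_succ e) r1 le_rfl
    have hP2 := Γ.P_mono hP hr2
    have hle : r2 ≤ q := hr2.trans (hr1.trans hr)
    have m1 := h6'.1 (Order.succ e) h8 r2 hle _ hP2
    have m2 := h6.1 (Order.succ e) (h8.trans hlt) r2 hle _ hP2
    exact ⟨r2, hr2.trans hr1, a, ha.mono_pos m1.1 m1.2, ha.mono_pos m2.1 m2.2⟩

end Ctx

end Pool.Agent.KT
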