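import Pool.Agent.Lib_MP_bf47cd.B06

/-!
# H17-B07: closing off at limit stages of a path
-/

set_option linter.unusedSectionVars false
set_option linter.unusedVariables false

namespace Pool.Agent.KT

universe u

open Set Cardinal

variable {K ι W Q I : Type u} [LinearOrder K] [OrderBot K] [WellFoundedLT K] [SuccOrder K]
  [NoMaxOrder K] {m0 : K} [LinearOrder W] [OrderBot W] [WellFoundedLT W] {chi : W → W}
  [Preorder Q] [hK : SetupK K ι m0] [hW : SetupW K ι W chi] [hQ : SetupQ Q ι]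
include hK hW hQ

namespace Ctx

variable (Γ : Ctx K ι W Q I m0 chi) {x : PF (Q × Cond K ι W m0 chi) K K}
  {z : Code K ι W Q m0 chi} {i : K} {q : Q × Cond K ι W m0 chi}

/-- the supremum of the heights of the positions below a limit is decided densely: by `distQ` all
`P x j`, `j < i`, are decided modulo `Q` by some `p`, so `p.tr.ht` is an upper bound; take `δ`
minimal over the extensions such that the extension forces all heights to be `≤ δ` -/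
theorem exists_sup_pos (x : PF (Q × Cond K ι W m0 chi) K K) (i : K)
    (q : Q × Cond K ι W m0 chi) : ∃ q' ≤ q, ∃ δ ≤ q'.2.tr.ht,
      (∀ j < i, ∀ r ≤ q', ∀ d, Γ.P x j d r → d.2.1 ≤ δ) ∧
      ∀ γ < δ, ∀ r ≤ q', ∃ r' ≤ r, ∃ j < i, ∃ d, Γ.P x j d r' ∧ γ < d.2.1 := by
  obtain ⟨p, hp, h1⟩ := distQ (K := K) (ι := ι) (W := W) (m0 := m0) (chi := chi) (Q := Q)
    (J := Iio i) (hK.seg i) (fun j => {r | ∃ d, Γ.P x j.1 d r})
    (fun j q hq r hr => by obtain ⟨d, hd⟩ := hq; exact ⟨d, Γ.P_mono hd hr⟩) q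
    (fun j q' _ => by
      obtain ⟨r, hr, d, hd⟩ := Γ.P_total x j.1 q'
      exact ⟨r, hr, d, hd⟩)
  have hub : ∀ j < i, ∀ r ≤ ((q.1, p) : Q × Cond K ι W m0 chi), ∀ d, Γ.P x j d r →
      d.2.1 ≤ p.tr.ht := by
    intro j hj r hr d hd
    obtain ⟨h', hh', d', hd'⟩ := h1 ⟨j, hj⟩ r.1 hr.1
    have h2 : ((h', r.2) : Q × Cond K ι W m0 chi) ≤ r := ⟨hh', le_rfl⟩
    have h3 : ((h', r.2) : Q × Cond K ι W m0 chi) ≤ (h', p) := ⟨le_rfl, hr.2⟩
    have h4 := Γ.P_uniq (Γ.P_mono hd h2) (Γ.P_mono hd' h3)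
    rw [h4]
    obtain ⟨c, _, _, _, _, h5⟩ := hd'
    exact h5
  let S : Set K := {δ | δ ≤ p.tr.ht ∧ ∃ q' ≤ ((q.1, p) : Q × Cond K ι W m0 chi),
    ∀ j < i, ∀ r ≤ q', ∀ d, Γ.P x j d r → d.2.1 ≤ δ}
  have hS : S.Nonempty := ⟨p.tr.ht, le_rfl, (q.1, p), le_rfl, hub⟩
  have hmin := wellFounded_lt.min_mem S hS
  obtain ⟨h2, q', hq', h3⟩ := hmin
  refine ⟨q', le_trans hq' ⟨le_rfl, hp⟩, wellFounded_lt.min S hS,
    le_trans h2 (Cond.le_ht hq'.2), h3, ?_⟩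
  intro γ hγ r hr
  by_contra hcon
  push Not at hcon
  refine wellFounded_lt.not_lt_min S (x := γ) ⟨le_trans hγ.le h2, r, le_trans hr hq', ?_⟩ hγ
  intro j hj r' hr' d hd
  exact hcon r' hr' j hj d hd

theorem B07_mono (hB : Γ.Below x z i q) {j j' : K} (hjj : j ≤ j') (hj' : j' < i)
    {r : Q × Cond K ι W m0 chi} (hr : r ≤ q) {d d' : Code K ι W Q m0 chi × K × (ι → K → K)}
    (h : Γ.P x j d r) (h' : Γ.P x j' d' r) :
    d.2.1 ≤ d'.2.1 ∧ ∀ t, trunc d.2.1 (d'.2.2 t) = d.2.2 t := by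
  obtain ⟨r', hr', δ, ρ, hV⟩ := hB j' hj' r hr
  obtain ⟨_, ⟨z', hP⟩, h3, h4, _⟩ := hV
  have e : d' = (z', δ, ρ) := Γ.P_uniq (Γ.P_mono h' hr') hP
  subst e
  rcases hjj.eq_or_lt with hj | hlt
  · subst hj
    have e : d = (z', δ, ρ) := Γ.P_uniq h h'
    subst e
    exact ⟨le_rfl, fun t => r'.2.tr.T_trunc δ _ (h4 t)⟩
  · exact h3 j hlt r' le_rfl d (Γ.P_mono h hr')

theorem B07_mem (hB : Γ.Below x z i q) {j : K} (hj : j < i)
    {r : Q × Cond K ι W m0 chi} (hr : r ≤ q) {d : Code K ι W Q m0 chi × K × (ι → K → K)}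
    (h : Γ.P x j d r) : ∀ t, d.2.2 t ∈ r.2.tr.T d.2.1 := by
  obtain ⟨r', hr', δ, ρ, hV⟩ := hB j hj r hr
  obtain ⟨_, ⟨z', hP⟩, _, h4, _⟩ := hV
  have e : d = (z', δ, ρ) := Γ.P_uniq (Γ.P_mono h hr') hP
  subst e
  obtain ⟨c, _, _, _, _, h5⟩ := h
  intro t
  have h6 := h4 t
  rw [Tr.T_eq (Cond.le_tr hr'.2) h5] at h6
  exact h6

theorem B07_coh (hB : Γ.Below x z i q) {j j' : K} (hj : j < i) (hj' : j' < i)
    {r : Q × Cond K ι W m0 chi} (hr : r ≤ q) {d d' : Code K ι W Q m0 chi × K × (ι → K → K)}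
    (h : Γ.P x j d r) (h' : Γ.P x j' d' r) {c : K} (hc : c < d.2.1) (hc' : c < d'.2.1) (t : ι) :
    d.2.2 t c = d'.2.2 t c := by
  rcases le_total j j' with hjj | hjj
  · have h1 := (Γ.B07_mono hB hjj hj' hr h h').2 t
    rw [← h1, trunc_lt hc]
  · have h1 := (Γ.B07_mono hB hjj hj hr h' h).2 t
    rw [← h1, trunc_lt hc']

/-- case 1 -/
theorem B07_case1 (hB : Γ.Below x z i q) {δ : K} {r : Q × Cond K ι W m0 chi} (hr : r ≤ q)
    (hub : ∀ j < i, ∀ s ≤ r, ∀ d, Γ.P x j d s → d.2.1 ≤ δ)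
    (hlb : ∀ γ < δ, ∀ s ≤ r, ∃ r' ≤ s, ∃ j < i, ∃ d, Γ.P x j d r' ∧ γ < d.2.1)
    {j : K} (hj : j < i) {d : Code K ι W Q m0 chi × K × (ι → K → K)} (h : Γ.P x j d r)
    (hd : d.2.1 = δ) : Γ.LastPos x i δ d.2.2 r := by
  have hP := h
  obtain ⟨_, _, _, _, _, h5⟩ := h
  refine ⟨?_, hlb, hd ▸ h5, fun t => ?_⟩
  · intro j' hj' s hs d' hd'
    refine ⟨hub j' hj' s hs d' hd', fun t => ?_⟩
    rcases le_total j j' with hjj | hjj
    · have h1 := Γ.B07_mono hB hjj hj' (hs.trans hr) (Γ.P_mono hP hs) hd'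
      have h2 : d'.2.1 = δ := le_antisymm (hub j' hj' s hs d' hd') (hd ▸ h1.1)
      have h3 := Γ.B07_mem hB hj' (hs.trans hr) hd' t
      have h4 := s.2.tr.T_trunc _ _ h3
      have h6 := h1.2 t
      rw [hd, ← h2, h4] at h6
      rw [← h6, h4]
    · exact (Γ.B07_mono hB hjj hj (hs.trans hr) hd' (Γ.P_mono hP hs)).2 t
  · have h1 := Γ.B07_mem hB hj hr hP t
    rw [hd] at h1
    exact h1

/-- case 2a: cofinality `ω` -/
theorem B07_case2a (hB : Γ.Below x z i q) {δ : K} (hle : δ ≤ q.2.tr.ht)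
    (hub : ∀ j < i, ∀ s ≤ q, ∀ d, Γ.P x j d s → d.2.1 < δ)
    (hlb : ∀ γ < δ, ∀ s ≤ q, ∃ r' ≤ s, ∃ j < i, ∃ d, Γ.P x j d r' ∧ γ < d.2.1)
    (hc : CofW δ) : ∃ q' ≤ q, ∃ ρ, Γ.LastPos x i δ ρ q' := by
  classical
  obtain ⟨s, hs1, hs2⟩ := hc
  choose F hF J hJ D hD hD2 using fun n : ℕ => hlb (s n) (hs1 n)
  let u : ℕ → {y : Q × Cond K ι W m0 chi // y ≤ q} := fun n =>
    Nat.rec ⟨q, le_rfl⟩ (fun n y => ⟨F n y.1 y.2, le_trans (hF n y.1 y.2) y.2⟩) n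
  have hu : ∀ n, (u (n + 1)).1 = F n (u n).1 (u n).2 := fun n => rfl
  have hanti : Antitone (fun n => (u n).1) := by
    apply antitone_nat_of_succ_le
    intro n
    change (u (n + 1)).1 ≤ (u n).1
    rw [hu]
    exact hF n _ (u n).2
  obtain ⟨qw, hqw⟩ := sigmaQ _ hanti
  have hq : qw ≤ q := le_trans (hqw 0) (u 0).2
  have hP : ∀ n, Γ.P x (J n (u n).1 (u n).2) (D n (u n).1 (u n).2) qw := by
    intro n
    refine Γ.P_mono (hD n (u n).1 (u n).2) ?_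
    have h1 := hqw (n + 1)
    change qw ≤ (u (n + 1)).1 at h1
    rw [hu] at h1
    exact h1
  choose N hN using hs2
  let ρ : ι → K → K := fun t c =>
    if h : c < δ then (D (N c h) (u (N c h)).1 (u (N c h)).2).2.2 t c else ⊥
  have key : ∀ r ≤ qw, ∀ j < i, ∀ d, Γ.P x j d r → ∀ c < d.2.1, ∀ t, ρ t c = d.2.2 t c := by
    intro r hr j hj d hd c hcd t
    have hcδ : c < δ := lt_trans hcd (hub j hj r (hr.trans hq) d hd)
    change (if h : c < δ then (D (N c h) (u (N c h)).1 (u (N c h)).2).2.2 t c else ⊥) = _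
    rw [dif_pos hcδ]
    exact Γ.B07_coh hB (hJ _ _ _) hj (hr.trans hq) (Γ.P_mono (hP _) hr) hd
      (lt_trans (hN c hcδ) (hD2 _ _ _)) hcd t
  have hout : ∀ t c, δ ≤ c → ρ t c = ⊥ := by
    intro t c hcδ
    change (if h : c < δ then (D (N c h) (u (N c h)).1 (u (N c h)).2).2.2 t c else ⊥) = _
    rw [dif_neg (not_lt.2 hcδ)]
  have hub' : ∀ r ≤ qw, ∀ j < i, ∀ d, Γ.P x j d r → ∀ t, trunc d.2.1 (ρ t) = d.2.2 t := by
    intro r hr j hj d hd t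
    have h1 := r.2.tr.T_trunc _ _ (Γ.B07_mem hB hj (hr.trans hq) hd t)
    rw [← h1, trunc_eq_iff]
    intro c hcd
    exact key r hr j hj d hd c hcd t
  have hleω : δ ≤ qw.2.tr.ht := hle.trans (Cond.le_ht hq.2)
  refine ⟨qw, hq, ρ, ?_, ?_, hleω, fun t => ?_⟩
  · intro j hj r hr d hd
    exact ⟨(hub j hj r (hr.trans hq) d hd).le, hub' r hr j hj d hd⟩
  · intro γ hγ r hr
    exact hlb γ hγ r (hr.trans hq)
  · have hmem : ∀ c < δ, trunc c (ρ t) ∈ qw.2.tr.T c := by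
      intro c hcδ
      have h1 := hub' qw le_rfl _ (hJ _ _ _) _ (hP (N c hcδ)) t
      have h2 := Γ.B07_mem hB (hJ _ _ _) hq (hP (N c hcδ)) t
      have h3 : c ≤ (D (N c hcδ) (u (N c hcδ)).1 (u (N c hcδ)).2).2.1 :=
        (lt_trans (hN c hcδ) (hD2 _ _ _)).le
      rw [← trunc_trunc_of_le h3, h1]
      exact qw.2.tr.T_res _ _ h2 c h3
    refine qw.2.tr.T_lim δ hleω ⟨s, hs1, fun c hcδ => ⟨N c hcδ, hN c hcδ⟩⟩ (ρ t) ?_ ?_ hmem
    · intro c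
      by_cases hcδ : c < δ
      · have h2 := Γ.B07_mem hB (hJ _ _ _) hq (hP (N c hcδ)) t
        have h3 : c < (D (N c hcδ) (u (N c hcδ)).1 (u (N c hcδ)).2).2.1 :=
          lt_trans (hN c hcδ) (hD2 _ _ _)
        rw [key qw le_rfl _ (hJ _ _ _) _ (hP (N c hcδ)) c h3 t]
        exact qw.2.tr.T_val _ _ h2 c
      · rw [hout t c (not_lt.1 hcδ)]
        exact bot_lt_m0 ι
    · funext c
      by_cases hcδ : c < δ
      · rw [trunc_lt hcδ]
      · rw [trunc_ge (not_lt.1 hcδ), hout t c (not_lt.1 hcδ)]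

omit hK hW hQ [OrderBot K] [SuccOrder K] [NoMaxOrder K] in
/-- least upper bounds -/
theorem B07_sup (s : ℕ → K) (b : K) (h : ∀ n, s n ≤ b) :
    ∃ c ≤ b, (∀ n, s n ≤ c) ∧ ∀ e < c, ∃ n, e < s n := by
  let S : Set K := {c | ∀ n, s n ≤ c}
  have hS : S.Nonempty := ⟨b, h⟩
  refine ⟨wellFounded_lt.min S hS, not_lt.1 (wellFounded_lt.not_lt_min S h),
    wellFounded_lt.min_mem S hS, ?_⟩
  intro e he
  by_contra hcon
  push Not at hcon
  exact wellFounded_lt.not_lt_min S (x := e) hcon he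

/-- case 2b: uncountable cofinality -/
theorem B07_case2b (hi : IsLim i) (hB : Γ.Below x z i q) {δ : K} (hle : δ ≤ q.2.tr.ht)
    (hub : ∀ j < i, ∀ s ≤ q, ∀ d, Γ.P x j d s → d.2.1 < δ)
    (hlb : ∀ γ < δ, ∀ s ≤ q, ∃ r' ≤ s, ∃ j < i, ∃ d, Γ.P x j d r' ∧ γ < d.2.1)
    (hc : ¬ CofW δ) : ∃ q' ≤ q, ∃ ρ, Γ.LastPos x i δ ρ q' := by
  classical
  have hδ0 : ⊥ < δ := by
    obtain ⟨r, hr, d, hd⟩ := Γ.P_total x ⊥ q
    exact lt_of_le_of_lt bot_le (hub ⊥ (bot_lt_iff_ne_bot.2 hi.1) r hr d hd)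
  have hδ : IsLim δ := by
    refine ⟨hδ0.ne', fun c hcδ => ?_⟩
    obtain ⟨r, hr, j, hj, d, hd, h1⟩ := hlb c hcδ q le_rfl
    exact ⟨d.2.1, h1, hub j hj r hr d hd⟩
  obtain ⟨E, f, e1, e2, e3, e4, e5, e6, e7⟩ := q.2.tr.wit δ hle hδ hc
  by_contra hcon
  push Not at hcon
  have hTeq : ∀ r ≤ q, ∀ e ≤ δ, r.2.tr.T e = q.2.tr.T e := fun r hr e he =>
    Tr.T_eq (Cond.le_tr hr.2) (he.trans hle)
  have hfail : ∀ c ∈ E, ∀ r ≤ q, ∀ j < i, ∀ d, Γ.P x j d r → c ≤ d.2.1 →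
      ∃ j', j ≤ j' ∧ j' < i ∧ ∃ s ≤ r, ∃ d', Γ.P x j' d' s ∧
        ∃ t, d'.2.2 t ≠ trunc d'.2.1 (f c (trunc c (d.2.2 t))) := by
    intro c hcE r hr j hj d hd hcd
    by_contra hcon2
    push Not at hcon2
    refine hcon r hr (fun t => f c (trunc c (d.2.2 t))) ⟨?_, ?_, ?_, ?_⟩
    · intro j' hj' s hs d' hd'
      refine ⟨(hub j' hj' s (hs.trans hr) d' hd').le, fun t => ?_⟩
      rcases le_total j j' with hjj | hjj
      · exact (hcon2 j' hjj hj' s hs d' hd' t).symm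
      · have h1 := Γ.B07_mono hB hjj hj (hs.trans hr) hd' (Γ.P_mono hd hs)
        have h2 := hcon2 j le_rfl hj s hs d (Γ.P_mono hd hs) t
        rw [← trunc_trunc_of_le h1.1, ← h2]
        exact h1.2 t
    · intro γ hγ s hs
      exact hlb γ hγ s (hs.trans hr)
    · exact hle.trans (Cond.le_ht hr.2)
    · intro t
      have h1 := Γ.B07_mem hB hj hr hd t
      have h2 := r.2.tr.T_res _ _ h1 c hcd
      rw [hTeq r hr c (e1 c hcE).le] at h2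
      change f c (trunc c (d.2.2 t)) ∈ r.2.tr.T δ
      rw [hTeq r hr δ le_rfl]
      exact (e4 c hcE _ h2).1
  -- the sequence
  let St : K × (Q × Cond K ι W m0 chi) × K × (Code K ι W Q m0 chi × K × (ι → K → K)) → Prop :=
    fun a => a.1 ∈ E ∧ a.2.1 ≤ q ∧ a.2.2.1 < i ∧ Γ.P x a.2.2.1 a.2.2.2 a.2.1 ∧
      a.1 ≤ a.2.2.2.2.1
  have hstep : ∀ a : {a // St a}, ∃ b : {a // St a}, b.1.2.1 ≤ a.1.2.1 ∧
      a.1.2.2.2.2.1 < b.1.1 ∧ a.1.2.2.1 < b.1.2.2.1 ∧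
      ∃ j' < b.1.2.2.1, ∃ d', Γ.P x j' d' b.1.2.1 ∧ d'.2.1 < b.1.1 ∧
        ∃ t, d'.2.2 t ≠ trunc d'.2.1 (f a.1.1 (trunc a.1.1 (a.1.2.2.2.2.2 t))) := by
    rintro ⟨⟨c, r, j, d⟩, h1, h2, h3, h4, h5⟩
    simp only at h1 h2 h3 h4 h5
    obtain ⟨j', hj1, hj2, s, hs, d', hd', t, ht⟩ := hfail c h1 r h2 j h3 d h4 h5
    have hs' : s ≤ q := hs.trans h2
    have hdd := (Γ.B07_mono hB hj1 hj2 hs' (Γ.P_mono h4 hs) hd').1
    obtain ⟨c1, hc1, hc2⟩ := e2 d'.2.1 (hub j' hj2 s hs' d' hd')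
    obtain ⟨r1, hr1, j1, hj3, d1, hd1, hd2⟩ := hlb c1 (e1 c1 hc1) s hs'
    have hjj : j' < j1 := by
      by_contra hcon3
      have h6 := (Γ.B07_mono hB (not_lt.1 hcon3) hj2 (hr1.trans hs') hd1
        (Γ.P_mono hd' hr1)).1
      exact absurd (lt_of_lt_of_le (lt_trans hc2 hd2) h6) (lt_irrefl _)
    refine ⟨⟨(c1, r1, j1, d1), hc1, hr1.trans hs', hj3, hd1, hd2.le⟩, hr1.trans hs,
      lt_of_le_of_lt hdd hc2, lt_of_le_of_lt hj1 hjj, j', hjj, d', Γ.P_mono hd' hr1, hc2, t, ht⟩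
  obtain ⟨a0, _⟩ : ∃ a : {a // St a}, True := by
    obtain ⟨c1, hc1, _⟩ := e2 ⊥ hδ0
    obtain ⟨r1, hr1, j1, hj3, d1, hd1, hd2⟩ := hlb c1 (e1 c1 hc1) q le_rfl
    exact ⟨⟨(c1, r1, j1, d1), hc1, hr1, hj3, hd1, hd2.le⟩, trivial⟩
  choose G hG using hstep
  let a : ℕ → {a // St a} := fun n => Nat.rec a0 (fun _ y => G y) n
  have ha : ∀ n, a (n + 1) = G (a n) := fun n => rfl
  have hanti : Antitone (fun n => (a n).1.2.1) := by
    apply antitone_nat_of_succ_le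
    intro n
    change (a (n + 1)).1.2.1 ≤ (a n).1.2.1
    rw [ha]
    exact (hG (a n)).1
  obtain ⟨qw, hqw⟩ := sigmaQ _ hanti
  have hq : qw ≤ q := le_trans (hqw 0) (a 0).2.2.1
  have hPn : ∀ n, Γ.P x (a n).1.2.2.1 (a n).1.2.2.2 qw := fun n =>
    Γ.P_mono (a n).2.2.2.2.1 (hqw n)
  have hcd : ∀ n, (a n).1.1 ≤ (a n).1.2.2.2.2.1 := fun n => (a n).2.2.2.2.2
  have hdc : ∀ n, (a n).1.2.2.2.2.1 < (a (n + 1)).1.1 := by
    intro n; rw [ha]; exact (hG (a n)).2.1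
  have hjn : ∀ n, (a n).1.2.2.1 < (a (n + 1)).1.2.2.1 := by
    intro n; rw [ha]; exact (hG (a n)).2.2.1
  have hcn : ∀ n, (a n).1.1 < (a (n + 1)).1.1 := fun n => lt_of_le_of_lt (hcd n) (hdc n)
  -- the supremum of the `c n`
  have hbd : ∃ b < δ, ∀ n, (a n).1.1 ≤ b := by
    by_contra hcon3
    push Not at hcon3
    exact hc ⟨fun n => (a n).1.1, fun n => e1 _ (a n).2.1, hcon3⟩
  obtain ⟨b, hb, hb'⟩ := hbd
  obtain ⟨c, hcb, hc1, hc2⟩ := B07_sup (fun n => (a n).1.1) b hb'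
  have hcδ : c < δ := lt_of_le_of_lt hcb hb
  have hclt : ∀ n, (a n).1.1 < c := fun n => lt_of_lt_of_le (hcn n) (hc1 (n + 1))
  have hdlt : ∀ n, (a n).1.2.2.2.2.1 < c := fun n => lt_of_lt_of_le (hdc n) (hc1 (n + 1))
  have hcof : CofW c := ⟨fun n => (a n).1.1, hclt, hc2⟩
  have hlp : LimPt E c := by
    refine ⟨(lt_of_le_of_lt bot_le (hclt 0)).ne', fun e he => ?_⟩
    obtain ⟨n, hn⟩ := hc2 e he
    exact ⟨(a n).1.1, (a n).2.1, hn, hclt n⟩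
  have hcE : c ∈ E := e3 c hcδ hlp
  -- the supremum of the `j n`
  obtain ⟨i', hi1, hi2, hi3⟩ := B07_sup (fun n => (a n).1.2.2.1) i (fun n => (a n).2.2.2.1.le)
  have hjlt : ∀ n, (a n).1.2.2.1 < i' := fun n => lt_of_lt_of_le (hjn n) (hi2 (n + 1))
  have hlow : ∀ j < i', ∀ r ≤ qw, ∀ d, Γ.P x j d r → d.2.1 < c := by
    intro j hj r hr d hd
    obtain ⟨n, hn⟩ := hi3 j hj
    exact lt_of_le_of_lt (Γ.B07_mono hB hn.le (a n).2.2.2.1 (hr.trans hq) hd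
      (Γ.P_mono (hPn n) hr)).1 (hdlt n)
  have hi' : i' < i := by
    refine lt_of_le_of_ne hi1 fun h => ?_
    obtain ⟨r, hr, j, hj, d, hd, h1⟩ := hlb c hcδ qw hq
    exact absurd (lt_trans h1 (hlow j (h ▸ hj) r hr d hd)) (lt_irrefl _)
  have hlim : IsLim i' := by
    refine ⟨(lt_of_le_of_lt bot_le (hjlt 0)).ne', fun e he => ?_⟩
    obtain ⟨n, hn⟩ := hi3 e he
    exact ⟨_, hn, hjlt n⟩
  obtain ⟨r, hr, δ', ρ', hV⟩ := hB i' hi' qw hq
  obtain ⟨_, _, v3, v4, _, v6⟩ := hV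
  obtain ⟨v7, v8⟩ := v6 hlim
  have hδ' : δ' = c := by
    refine le_antisymm ?_ ?_
    · by_contra hcon3
      obtain ⟨r', hr', j, hj, d, hd, h1⟩ := v7 c (not_le.1 hcon3) r le_rfl
      exact absurd (lt_trans h1 (hlow j hj r' (hr'.trans hr) d hd)) (lt_irrefl _)
    · by_contra hcon3
      obtain ⟨n, hn⟩ := hc2 δ' (not_le.1 hcon3)
      have h1 := (v3 _ (hjlt n) r le_rfl _ (Γ.P_mono (hPn n) hr)).1
      exact absurd (lt_of_lt_of_le hn ((hcd n).trans h1)) (lt_irrefl _)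
  subst hδ'
  have hA : ρ' ∈ q.2.tr.A δ' := by
    rcases v8 hcof with h1 | ⟨j, hj, d, hd, h1⟩
    · rw [Tr.A_eq (Cond.le_tr (hr.trans hq).2) (hcδ.le.trans hle)] at h1
      exact h1
    · exact absurd h1 (hlow j hj r hr d hd).ne
  obtain ⟨c', hc'E, hc'c, hc'⟩ := e7 δ' hcE hlp hcof ρ' hA
  obtain ⟨n, hn⟩ := hc2 c' hc'c
  have hρT : ∀ t, ρ' t ∈ q.2.tr.T δ' := fun t => by
    have h1 := v4 t
    rw [hTeq r (hr.trans hq) _ hcδ.le] at h1
    exact h1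
  have hthread : ∀ t, ρ' t = trunc δ' (f (a n).1.1 (trunc (a n).1.1 (ρ' t))) := by
    intro t
    have h1 := q.2.tr.T_res _ _ (hρT t) c' hc'c.le
    have h2 := e5 c' hc'E _ (a n).2.1 hn.le _ h1
    have h3 : trunc (a n).1.1 (ρ' t) = trunc (a n).1.1 (f c' (trunc c' (ρ' t))) := by
      have h4 := congrArg (trunc (a n).1.1) (hc' t)
      rw [trunc_trunc_of_le (hclt n).le] at h4
      exact h4
    rw [h3, h2]
    exact hc' t
  obtain ⟨j', hj', d', hd', hd2, t, ht⟩ := (hG (a n)).2.2.2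
  rw [← ha] at hj' hd' hd2
  have h1 := (v3 j' (hj'.trans (hjlt (n + 1))) r le_rfl d'
    (Γ.P_mono hd' (hr.trans (hqw (n + 1))))).2 t
  have h2 := (v3 _ (hjlt n) r le_rfl _ (Γ.P_mono (hPn n) hr)).2 t
  apply ht
  rw [← h2, trunc_trunc_of_le (hcd n)]
  have h3 : d'.2.1 ≤ δ' := (lt_trans hd2 (hclt (n + 1))).le
  rw [← trunc_trunc_of_le h3, ← hthread t]
  exact h1.symm

/-- **Closing off at limits.** `i` a limit, all positions below `i` valid: the union of the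
positions is decided densely, and is in the tree.
PROOF. `δ` from `exists_sup_pos`. (1) If some `r ≤ q` has `P x j d r` with `j < i`, `d.2.1 = δ`: take
`ρ = d.2.2` (later positions are equal to it). (2) Otherwise all heights are `< δ`. If `CofW δ`
take a cofinal sequence in `δ`, conditions `q_n` and `j_n < i` with `P x j_n d_n q_n` and `d_n.2.1`
above its `n`-th element, `q_ω` below all of them (`sigmaQ`); `ρ t` is the union of the `d_n.2.2 t`,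
which is in the tree by `T_lim`. (3) If not `CofW δ`: let `E, f` be the witness at `δ` of the tree of
`q` (`δ ≤ q.2.tr.ht`). Claim: there are `c ∈ E`, `r ≤ q`, `j < i` and `d` with `P x j d r`,
`c ≤ d.2.1`, such that `r` forces all positions `(δ', ρ')` of `x j'`, `j ≤ j' < i`, to satisfy
`ρ' t = trunc δ' (f c (trunc c (d.2.2 t)))` for all `t`; then `ρ t := f c (trunc c (d.2.2 t))` works.
If the claim fails there are `q_n` decreasing, `c_n ∈ E`, `j_n`, `d_n` with `P x j_n d_n q_n`,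
`c_n ≤ d_n.2.1`, and a position at some `j_n'`, decided by `q_(n+1)`, of height `< c_(n+1)`, that
deviates from the thread of `c_n` at some `t_n`. Let `c = sup c_n = sup d_n.2.1 < δ` (as `δ` is not
of cofinality `ω`), `i' = sup j_n < i`: `c` is a limit point of `E`, so `c ∈ E`. Below all `q_n` take
`r` with `Val x z i' δ' ρ' r`: `δ' = c`, `CofW c`, not attained, so `ρ' ∈ A c`, and the witness gives
`c' ∈ E`, `c' < c` with `ρ' t = trunc c (f c' (trunc c' (ρ' t)))`. For `c_n ≥ c'` coherence of `f`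
gives `ρ' t = trunc c (f c_n (trunc c_n (ρ' t)))` for all `t`: contradiction at `t_n`. -/
theorem exists_LastPos_lim (hi : IsLim i) (hz : Γ.VZ x z q) (hB : Γ.Below x z i q) :
    ∃ q' ≤ q, ∃ δ ρ, Γ.LastPos x i δ ρ q' := by
  obtain ⟨q1, hq1, δ, hle, hub, hlb⟩ := Γ.exists_sup_pos x i q
  have hB1 : Γ.Below x z i q1 := Γ.Below_mono hB hq1
  by_cases hcase : ∃ r ≤ q1, ∃ j < i, ∃ d, Γ.P x j d r ∧ d.2.1 = δ
  · obtain ⟨r, hr, j, hj, d, hd, hdδ⟩ := hcase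
    exact ⟨r, hr.trans hq1, δ, d.2.2, Γ.B07_case1 hB1 hr
      (fun j hj s hs d hd => hub j hj s (hs.trans hr) d hd)
      (fun γ hγ s hs => hlb γ hγ s (hs.trans hr)) hj hd hdδ⟩
  · push Not at hcase
    have hub' : ∀ j < i, ∀ s ≤ q1, ∀ d, Γ.P x j d s → d.2.1 < δ := fun j hj s hs d hd =>
      lt_of_le_of_ne (hub j hj s hs d hd) (hcase s hs j hj d hd)
    by_cases hc : CofW δ
    · obtain ⟨q2, hq2, ρ, h⟩ := Γ.B07_case2a hB1 hle hub' hlb hc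
      exact ⟨q2, hq2.trans hq1, δ, ρ, h⟩
    · obtain ⟨q2, hq2, ρ, h⟩ := Γ.B07_case2b hi hB1 hle hub' hlb hc
      exact ⟨q2, hq2.trans hq1, δ, ρ, h⟩

end Ctx

end Pool.Agent.KT
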