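import Pool.Agent.Lib_MP_bf47cd.B04
import Pool.Agent.Lib_MP_bf47cd.B07

/-!
# H17-B08: totality of the results; the map F
-/

set_option linter.unusedSectionVars false
set_option linter.unusedVariables false

namespace Pool.Agent.KT

universe u

open Set Cardinal

variable {K ι W Q I : Type u} [LinearOrder K] [OrderBot K] [WellFoundedLT K] [SuccOrder K]
  [NoMaxOrder K] {m0 : K} [LinearOrder W] [OrderBot W] [WellFoundedLT W] {chi : W → W}
  [Preorder Q] [hK : SetupK K ι m0] [hW : SetupW K ι W chi] [hQ : SetupQ Q ι]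
include hK hW hQ

omit hK hW hQ in
private theorem B08_cases {K : Type u} [LinearOrder K] [OrderBot K] [SuccOrder K]
    [NoMaxOrder K] (i : K) : i = ⊥ ∨ (∃ j, i = Order.succ j) ∨ IsLim i := by
  by_cases h0 : i = ⊥
  · exact Or.inl h0
  · by_cases h1 : ∃ j, i = Order.succ j
    · exact Or.inr (Or.inl h1)
    · refine Or.inr (Or.inr ⟨h0, fun c hc => ⟨Order.succ c, Order.lt_succ c, ?_⟩⟩)
      exact lt_of_le_of_ne (Order.succ_le_of_lt hc) fun h2 => h1 ⟨c, h2.symm⟩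

/-- elements of `K` are `⊥`, successors or limits -/
theorem bot_or_succ_or_lim {K : Type u} [LinearOrder K] [OrderBot K] [WellFoundedLT K]
    [SuccOrder K] [NoMaxOrder K] (i : K) : i = ⊥ ∨ (∃ j, i = Order.succ j) ∨ IsLim i :=
  B08_cases i

namespace Ctx

variable (Γ : Ctx K ι W Q I m0 chi) {x : PF (Q × Cond K ι W m0 chi) K K}
  {z : Code K ι W Q m0 chi} {i : K} {q : Q × Cond K ι W m0 chi}

theorem exists_LastPos (hi : ⊥ < i) (hz : Γ.VZ x z q) (hB : Γ.Below x z i q) :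
    ∃ q' ≤ q, ∃ δ ρ, Γ.LastPos x i δ ρ q' := by
  rcases B08_cases i with h | ⟨j, h⟩ | h
  · rw [h] at hi; exact absurd hi (lt_irrefl _)
  · obtain ⟨r, hr, δ, ρ, hv⟩ := hB j (by rw [h]; exact Order.lt_succ j) q le_rfl
    exact ⟨r, hr, δ, ρ, by rw [h]; exact LastPos_succ Γ hv⟩
  · exact exists_LastPos_lim Γ h hz hB

/-- Take the least `j ≤ succ i` such that some `r ≤ q` has `Fail x z j r`, if there is one (then
`Below x z j r`), and `j = succ i` otherwise; then `exists_LastPos`. -/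
theorem Res_total (hz : Γ.VZ x z q) (i : K) : ∃ q' ≤ q, ∃ δ ρ, Γ.Res x z i δ ρ q' := by
  by_cases hS : ∃ j, j ≤ Order.succ i ∧ ∃ r ≤ q, Γ.Fail x z j r
  · obtain ⟨j, ⟨hj, r, hr, hf⟩, hmin⟩ :
        ∃ j, (j ≤ Order.succ i ∧ ∃ r ≤ q, Γ.Fail x z j r) ∧
          ∀ j' < j, ¬ (j' ≤ Order.succ i ∧ ∃ r ≤ q, Γ.Fail x z j' r) := by
      have hwf : WellFounded ((· < ·) : K → K → Prop) := wellFounded_lt
      exact ⟨hwf.min {j | j ≤ Order.succ i ∧ ∃ r ≤ q, Γ.Fail x z j r} hS,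
        hwf.min_mem {j | j ≤ Order.succ i ∧ ∃ r ≤ q, Γ.Fail x z j r} hS,
        fun j' hj' h => hwf.not_lt_min {j | j ≤ Order.succ i ∧ ∃ r ≤ q, Γ.Fail x z j r} h hj'⟩
    have hzr := VZ_mono Γ hz hr
    have hj0 : ⊥ < j := by
      rw [bot_lt_iff_ne_bot]
      intro h
      rw [h] at hf
      exact hf r le_rfl _ _ (Val_bot Γ hzr)
    have hB : Γ.Below x z j r := by
      intro j' hj' r' hr'
      by_contra hc
      push Not at hc
      exact hmin j' hj' ⟨hj'.le.trans hj, r', hr'.trans hr, hc⟩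
    obtain ⟨q', hq', δ, ρ, hl⟩ := exists_LastPos Γ hj0 hzr hB
    exact ⟨q', hq'.trans hr, δ, ρ, VZ_mono Γ hzr hq', j, hj, hj0, Below_mono Γ hB hq',
      Or.inr (Fail_mono Γ hf hq'), hl⟩
  · have hj0 : (⊥ : K) < Order.succ i := lt_of_le_of_lt bot_le (Order.lt_succ i)
    have hB : Γ.Below x z (Order.succ i) q := by
      intro j' hj' r' hr'
      by_contra hc
      push Not at hc
      exact hS ⟨j', hj'.le, r', hr', hc⟩
    obtain ⟨q', hq', δ, ρ, hl⟩ := exists_LastPos Γ hj0 hz hB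
    exact ⟨q', hq', δ, ρ, VZ_mono Γ hz hq', _, le_rfl, hj0, Below_mono Γ hB hq', Or.inl rfl, hl⟩

/-- a constant function -/
private theorem B08_nonempty : Nonempty (PF (Q × Cond K ι W m0 chi) K K) :=
  ⟨{ val := fun _ b _ => b = ⊥
     mono := fun _ _ _ _ _ h => h
     dense := fun _ _ p h => by
       obtain ⟨_, _, h1⟩ := h p le_rfl
       exact h1
     uniq := fun _ _ _ _ h h' => h.trans h'.symm
     total := fun _ p => ⟨p, le_rfl, ⊥, rfl⟩ }⟩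

/-- the default branches -/
theorem exists_Df (Γ : Ctx K ι W Q I m0 chi) :
    ∃ Df : Code K ι W Q m0 chi → K → (ι → K → K) → PF (Q × Cond K ι W m0 chi) K K,
      ∀ z, IsCode Γ.Y Γ.b0 z → ∀ δ ρ q, GoodPos Γ.b0 z δ ρ q →
        Mem Γ.Y (Df z δ ρ) q ∧ Ext Γ.b0 z δ ρ (Df z δ ρ) q := by
  have h : ∀ (z : Code K ι W Q m0 chi) (δ : K) (ρ : ι → K → K),
      ∃ X : PF (Q × Cond K ι W m0 chi) K K, IsCode Γ.Y Γ.b0 z → ∀ q, GoodPos Γ.b0 z δ ρ q →
        Mem Γ.Y X q ∧ Ext Γ.b0 z δ ρ X q := by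
    intro z δ ρ
    by_cases hz : IsCode Γ.Y Γ.b0 z
    · obtain ⟨X, hX⟩ := exists_Dflt Γ.hY hz δ ρ
      exact ⟨X, fun _ => hX⟩
    · obtain ⟨X⟩ := B08_nonempty (K := K) (ι := ι) (W := W) (Q := Q) (m0 := m0) (chi := chi)
      exact ⟨X, fun h => absurd h hz⟩
  choose Df hDf using h
  exact ⟨Df, fun z hz δ ρ q hq => hDf z δ ρ hz q hq⟩

/-- the map `F`: `F x` at `e` is the default branch of the result of the path `x` at `succ e`
(`PF.exists_ofDense`) -/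
theorem exists_F0 (Df : Code K ι W Q m0 chi → K → (ι → K → K) →
      PF (Q × Cond K ι W m0 chi) K K) (X0 : PF (Q × Cond K ι W m0 chi) K K) :
    ∃ F : PF (Q × Cond K ι W m0 chi) K K → PF (Q × Cond K ι W m0 chi) K K,
      (∀ x e z δ ρ q, Γ.Res x z (Order.succ e) δ ρ q → ∀ v,
        (F x).val e v q ↔ (Df z δ ρ).val e v q) ∧
      ∀ x e q, Γ.NoZ x q → ∀ v, (F x).val e v q ↔ X0.val e v q := by
  have key : ∀ x : PF (Q × Cond K ι W m0 chi) K K, ∃ X : PF (Q × Cond K ι W m0 chi) K K,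
      (∀ e z δ ρ q, Γ.Res x z (Order.succ e) δ ρ q → ∀ v,
        X.val e v q ↔ (Df z δ ρ).val e v q) ∧
      ∀ e q, Γ.NoZ x q → ∀ v, X.val e v q ↔ X0.val e v q := by
    intro x
    have hNmono : ∀ q r : Q × Cond K ι W m0 chi, Γ.NoZ x q → r ≤ q → Γ.NoZ x r :=
      fun q r h hr z s hs => h z s (hs.trans hr)
    have hNR : ∀ (q : Q × Cond K ι W m0 chi) (z : Code K ι W Q m0 chi) (i δ : K)
        (ρ : ι → K → K), Γ.NoZ x q → Γ.Res x z i δ ρ q → False :=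
      fun q z i δ ρ h h' => h z q le_rfl h'.1
    obtain ⟨X, hX1, hX2⟩ := PF.exists_ofDense (P := Q × Cond K ι W m0 chi) (A := K) (B := K)
      (fun e a q => (∃ z δ ρ, Γ.Res x z (Order.succ e) δ ρ q ∧ (Df z δ ρ).val e a q) ∨
        (Γ.NoZ x q ∧ X0.val e a q))
      (by
        rintro e a p q hqp (⟨z, δ, ρ, h1, h2⟩ | ⟨h1, h2⟩)
        · exact Or.inl ⟨z, δ, ρ, Res_mono Γ h1 hqp, PF.mono _ _ _ _ _ hqp h2⟩
        · exact Or.inr ⟨hNmono _ _ h1 hqp, PF.mono _ _ _ _ _ hqp h2⟩)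
      (by
        rintro e a a' p (⟨z, δ, ρ, h1, h2⟩ | ⟨h1, h2⟩) (⟨z', δ', ρ', h3, h4⟩ | ⟨h3, h4⟩)
        · obtain ⟨e1, e2, e3⟩ := Res_uniq Γ h1 h3
          subst e1 e2 e3
          exact PF.uniq _ _ _ _ _ h2 h4
        · exact (hNR _ _ _ _ _ h3 h1).elim
        · exact (hNR _ _ _ _ _ h1 h3).elim
        · exact PF.uniq _ _ _ _ _ h2 h4)
      (by
        intro e p
        obtain ⟨r, hr, ⟨z, hz⟩ | hn⟩ := VZ_or Γ x p
        · obtain ⟨q', hq', δ, ρ, hres⟩ := Res_total Γ hz (Order.succ e)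
          obtain ⟨q'', hq'', b, hb⟩ := (Df z δ ρ).total e q'
          exact ⟨q'', (hq''.trans hq').trans hr, b,
            Or.inl ⟨z, δ, ρ, Res_mono Γ hres hq'', hb⟩⟩
        · obtain ⟨q'', hq'', b, hb⟩ := X0.total e r
          exact ⟨q'', hq''.trans hr, b, Or.inr ⟨hNmono _ _ hn hq'', hb⟩⟩)
    refine ⟨X, fun e z δ ρ q hres v => ⟨fun h => ?_, fun h => ?_⟩,
      fun e q hn v => ⟨fun h => ?_, fun h => ?_⟩⟩
    · refine (Df z δ ρ).dense e v q fun q' hq' => ?_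
      obtain ⟨r, hr, ⟨z', δ', ρ', h1, h2⟩ | ⟨h1, h2⟩⟩ := (hX1 e v q).1 h q' hq'
      · obtain ⟨e1, e2, e3⟩ := Res_uniq Γ h1 (Res_mono Γ hres (hr.trans hq'))
        subst e1 e2 e3
        exact ⟨r, hr, h2⟩
      · exact (hNR _ _ _ _ _ h1 (Res_mono Γ hres (hr.trans hq'))).elim
    · exact hX2 e v q (Or.inl ⟨z, δ, ρ, hres, h⟩)
    · refine X0.dense e v q fun q' hq' => ?_
      obtain ⟨r, hr, ⟨z', δ', ρ', h1, h2⟩ | ⟨h1, h2⟩⟩ := (hX1 e v q).1 h q' hq'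
      · exact (hNR _ _ _ _ _ (hNmono _ _ hn (hr.trans hq')) h1).elim
      · exact ⟨r, hr, h2⟩
    · exact hX2 e v q (Or.inr ⟨hn, h⟩)
  choose F hF1 hF2 using key
  exact ⟨F, fun x e z δ ρ q h v => hF1 x e z δ ρ q h v, fun x e q h v => hF2 x e q h v⟩

end Ctx

end Pool.Agent.KT
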