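import Pool.Agent.Lib_MP_bf47cd.B08

/-!
# H17-B09: properties of the map F
-/

set_option linter.unusedSectionVars false
set_option linter.unusedVariables false

namespace Pool.Agent.KT

universe u

open Set Cardinal

variable {K ι W Q I : Type u} [LinearOrder K] [OrderBot K] [WellFoundedLT K] [SuccOrder K]
  [NoMaxOrder K] {m0 : K} [LinearOrder W] [OrderBot W] [WellFoundedLT W] {chi : W → W}
  [Preorder Q] [hK : SetupK K ι m0] [hW : SetupW K ι W chi] [hQ : SetupQ Q ι]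
include hK hW hQ

namespace Ctx

variable (Γ : Ctx K ι W Q I m0 chi)
  {Df : Code K ι W Q m0 chi → K → (ι → K → K) → PF (Q × Cond K ι W m0 chi) K K}
  {X0 : PF (Q × Cond K ι W m0 chi) K K}
  {F : PF (Q × Cond K ι W m0 chi) K K → PF (Q × Cond K ι W m0 chi) K K}
  (hDf : ∀ z, IsCode Γ.Y Γ.b0 z → ∀ δ ρ q, GoodPos Γ.b0 z δ ρ q →
    Mem Γ.Y (Df z δ ρ) q ∧ Ext Γ.b0 z δ ρ (Df z δ ρ) q)
  (hF1 : ∀ x e z δ ρ q, Γ.Res x z (Order.succ e) δ ρ q → ∀ v,
    (F x).val e v q ↔ (Df z δ ρ).val e v q)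
  (hF2 : ∀ x e q, Γ.NoZ x q → ∀ v, (F x).val e v q ↔ X0.val e v q)
include hDf hF1 hF2

/-- `F x` is a branch: given `η` decide the result `(δ, ρ)` at `η` (`Res_total`); by `Res_coh` below
`η` the values of `F x` are those of `Df z δ ρ` -/
theorem F_mem (q0 : Q × Cond K ι W m0 chi) (h0 : Mem Γ.Y X0 q0)
    (x : PF (Q × Cond K ι W m0 chi) K K) : Mem Γ.Y (F x) q0 := by
  intro η r hr
  obtain ⟨r1, hr1, hcase⟩ := Γ.VZ_or x r
  rcases hcase with ⟨z, hz⟩ | hno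
  · obtain ⟨q', hq', δ, ρ, hres⟩ := Γ.Res_total hz η
    obtain ⟨hcode, hgood⟩ := Γ.Res_goodPos hres
    obtain ⟨hmem, hext⟩ := hDf z hcode δ ρ q' hgood
    obtain ⟨r', hr', i, hi⟩ := hmem η q' le_rfl
    refine ⟨r', hr'.trans (hq'.trans hr1), i, fun e he b s hs hF => hi e he b s hs ?_⟩
    refine (Df z δ ρ).dense e b s fun s1 hs1 => ?_
    have hs1q : s1 ≤ q' := hs1.trans (hs.trans hr')
    obtain ⟨s2, hs2, δ', ρ', hres'⟩ := Γ.Res_total (Γ.VZ_mono hz (hs1q.trans hq')) (Order.succ e)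
    have hs2q : s2 ≤ q' := hs2.trans hs1q
    have hFs2 : (F x).val e b s2 := (F x).mono e b s s2 (hs2.trans hs1) hF
    rcases Γ.Res_coh (Order.succ_le_of_lt he) hres' (Γ.Res_mono hres hs2q) with ⟨h1, h2⟩ | hcoh
    · subst h1; subst h2
      exact ⟨s2, hs2, (hF1 x e z _ _ s2 hres' b).1 hFs2⟩
    · obtain ⟨s3, hs3, a, hDV', hDV⟩ := hcoh s2 le_rfl
      obtain ⟨hcode', hgood'⟩ := Γ.Res_goodPos hres'
      have hv' : (Df z δ' ρ').val e a s3 := (hDf z hcode' δ' ρ' s2 hgood').2 e a s3 hs3 hDV'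
      have hv : (Df z δ ρ).val e a s3 := hext e a s3 (hs3.trans hs2q) hDV
      have hF3 : (Df z δ' ρ').val e b s3 :=
        (hF1 x e z δ' ρ' s3 (Γ.Res_mono hres' hs3) b).1 ((F x).mono e b s2 s3 hs3 hFs2)
      have hab : a = b := (Df z δ' ρ').uniq e a b s3 hv' hF3
      subst hab
      exact ⟨s3, hs3.trans hs2, hv⟩
  · obtain ⟨r', hr', i, hi⟩ := h0 η r1 (hr1.trans hr)
    refine ⟨r', hr'.trans hr1, i, fun e he b s hs hF => hi e he b s hs ?_⟩
    exact (hF2 x e s (fun z t ht => hno z t (ht.trans (hs.trans hr'))) b).1 hF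

private theorem B09_congr (x x' : PF (Q × Cond K ι W m0 chi) K K) (e : K)
    (q : Q × Cond K ι W m0 chi)
    (h : PF.EqOn x x' (Iic (Order.succ e)) q) (v : K) (hv : (F x).val e v q) :
    (F x').val e v q := by
  refine (F x').dense e v q fun s hs => ?_
  obtain ⟨s1, hs1, hcase⟩ := Γ.VZ_or x s
  have hs1q : s1 ≤ q := hs1.trans hs
  rcases hcase with ⟨z, hz⟩ | hno
  · obtain ⟨s2, hs2, δ, ρ, hres⟩ := Γ.Res_total hz (Order.succ e)
    have hs2q : s2 ≤ q := hs2.trans hs1q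
    have hres' : Γ.Res x' z (Order.succ e) δ ρ s2 := Γ.Res_congr (h.mono hs2q) hres
    refine ⟨s2, hs2.trans hs1, ?_⟩
    exact (hF1 x' e z δ ρ s2 hres' v).2
      ((hF1 x e z δ ρ s2 hres v).1 ((F x).mono e v q s2 hs2q hv))
  · have hno' : Γ.NoZ x' s1 := by
      intro z r hr hVZ
      refine hno z r hr ⟨Γ.P_congr (x := x') (x' := x) ?_ hVZ.1, hVZ.2⟩
      intro a ha b t ht
      exact (h a (by rw [mem_singleton_iff.1 ha]; exact bot_le) b t
        (ht.trans (hr.trans hs1q))).symm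
    exact ⟨s1, hs1, (hF2 x' e s1 hno' v).2
      ((hF2 x e s1 hno v).1 ((F x).mono e v q s1 hs1q hv))⟩

theorem F_congr (x x' : PF (Q × Cond K ι W m0 chi) K K) (e : K) (q : Q × Cond K ι W m0 chi)
    (h : PF.EqOn x x' (Iic (Order.succ e)) q) (v : K) :
    (F x).val e v q ↔ (F x').val e v q :=
  ⟨B09_congr Γ hDf hF1 hF2 x x' e q h v, B09_congr Γ hDf hF1 hF2 x' x e q h.symm v⟩

theorem F_eq_of_path (x X : PF (Q × Cond K ι W m0 chi) K K) (z : Code K ι W Q m0 chi)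
    (q : Q × Cond K ι W m0 chi)
    (h : ∀ e, ∀ r ≤ q, ∃ r' ≤ r, ∃ δ ρ a, Γ.Res x z (Order.succ e) δ ρ r' ∧
      DV Γ.b0 z δ ρ e a r' ∧ X.val e a r') : PF.EqOn (F x) X univ q := by
  refine PF.EqOn.of_imp fun e _ b r hr hF => ?_
  refine X.dense e b r fun s hs => ?_
  obtain ⟨r', hr', δ, ρ, a, hres, hDV, hX⟩ := h e s (hs.trans hr)
  obtain ⟨hcode, hgood⟩ := Γ.Res_goodPos hres
  have hv : (Df z δ ρ).val e a r' := (hDf z hcode δ ρ r' hgood).2 e a r' le_rfl hDV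
  have hFa : (F x).val e a r' := (hF1 x e z δ ρ r' hres a).2 hv
  have hab : a = b := (F x).uniq e a b r' hFa ((F x).mono e b r r' (hr'.trans hs) hF)
  subst hab
  exact ⟨r', hr', hX⟩

end Ctx

end Pool.Agent.KT
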