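import Pool.Agent.Lib_MP_bf47cd.BDefs
import Pool.Agent.Lib_MP_bf47cd.A11

/-!
# H17-B10: the heights of the positions of a path for a given branch
-/

set_option linter.unusedSectionVars false
set_option linter.unusedVariables false

namespace Pool.Agent.KT

universe u

open Set Cardinal

variable {K ι W Q I : Type u} [LinearOrder K] [OrderBot K] [WellFoundedLT K] [SuccOrder K]
  [NoMaxOrder K] {m0 : K} [LinearOrder W] [OrderBot W] [WellFoundedLT W] {chi : W → W}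
  [Preorder Q] [hK : SetupK K ι m0] [hW : SetupW K ι W chi] [hQ : SetupQ Q ι]
include hK hW hQ

/-- `γ` is in the club of `a`, and the value of `X` at `j` is decided by conditions of height at
most `γ` -/
private def B10_Clo (a : DLab ι W) (p1 : Cond K ι W m0 chi)
    (X : PF (Q × Cond K ι W m0 chi) K K) (j γ : K) (q : Q × Cond K ι W m0 chi) : Prop :=
  γ ∈ q.2.C a ∧ ∀ r ≤ q, ∃ r' ≤ r, ∃ s, r'.2 ≤ s ∧ s ≤ p1 ∧ s.tr.ht ≤ γ ∧
    ∃ v, X.val j v (r'.1, s)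

/-- `γ` is the least element of the club of `a` as in `B10_Clo` -/
private def B10_Del (a : DLab ι W) (p1 : Cond K ι W m0 chi)
    (X : PF (Q × Cond K ι W m0 chi) K K) (j γ : K) (q : Q × Cond K ι W m0 chi) : Prop :=
  B10_Clo a p1 X j γ q ∧ ∀ γ' < γ, ∀ r ≤ q, ¬ B10_Clo a p1 X j γ' r

/-- `δ` is the supremum of the `γ` with `B10_Del j γ`, `j < i` -/
private def B10_Sup (a : DLab ι W) (p1 : Cond K ι W m0 chi)
    (X : PF (Q × Cond K ι W m0 chi) K K) (i δ : K) (q : Q × Cond K ι W m0 chi) : Prop :=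
  δ ≤ q.2.tr.ht ∧ (∀ j < i, ∀ r ≤ q, ∀ γ, B10_Del a p1 X j γ r → γ ≤ δ) ∧
    ∀ γ < δ, ∀ r ≤ q, ∃ r' ≤ r, ∃ j < i, ∃ γ', B10_Del a p1 X j γ' r' ∧ γ < γ'

omit [WellFoundedLT K] [SuccOrder K] [NoMaxOrder K] [WellFoundedLT W] hK hW hQ in
private theorem B10_Clo_mono {a : DLab ι W} {p1 : Cond K ι W m0 chi}
    {X : PF (Q × Cond K ι W m0 chi) K K} {j γ : K} {q r : Q × Cond K ι W m0 chi}
    (h : B10_Clo a p1 X j γ q) (hr : r ≤ q) : B10_Clo a p1 X j γ r := by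
  have haN : a ∈ q.2.N := by
    by_contra hc
    have h0 := q.2.C_out a hc
    have h1 := h.1
    rw [h0] at h1
    exact absurd h1 (notMem_empty γ)
  exact ⟨(Cond.le_C hr.2 haN (q.2.C_le a γ h.1)).2 h.1, fun r0 hr0 => h.2 r0 (hr0.trans hr)⟩

omit [WellFoundedLT K] [SuccOrder K] [NoMaxOrder K] [WellFoundedLT W] hK hW hQ in
private theorem B10_Del_mono {a : DLab ι W} {p1 : Cond K ι W m0 chi}
    {X : PF (Q × Cond K ι W m0 chi) K K} {j γ : K} {q r : Q × Cond K ι W m0 chi}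
    (h : B10_Del a p1 X j γ q) (hr : r ≤ q) : B10_Del a p1 X j γ r :=
  ⟨B10_Clo_mono h.1 hr, fun γ' hγ' r' hr' => h.2 γ' hγ' r' (hr'.trans hr)⟩

omit [WellFoundedLT K] [SuccOrder K] [NoMaxOrder K] [WellFoundedLT W] hK hW hQ in
private theorem B10_Del_uniq {a : DLab ι W} {p1 : Cond K ι W m0 chi}
    {X : PF (Q × Cond K ι W m0 chi) K K} {j γ γ' : K} {q : Q × Cond K ι W m0 chi}
    (h : B10_Del a p1 X j γ q) (h' : B10_Del a p1 X j γ' q) : γ = γ' := by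
  rcases lt_trichotomy γ γ' with h1 | h1 | h1
  · exact absurd h.1 (h'.2 γ h1 q le_rfl)
  · exact h1
  · exact absurd h'.1 (h.2 γ' h1 q le_rfl)

omit hW in
private theorem B10_Del_total {a : DLab ι W} {p1 : Cond K ι W m0 chi}
    (X : PF (Q × Cond K ι W m0 chi) K K) (j : K) (q : Q × Cond K ι W m0 chi)
    (hq : q.2 ≤ p1) (ha : a ∈ q.2.N) : ∃ r ≤ q, ∃ γ, B10_Del a p1 X j γ r := by
  classical
  -- some `γ` is closed
  have hex : ∃ γ : K, ∃ r ≤ q, B10_Clo a p1 X j γ r := by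
    obtain ⟨p, hp, hpD⟩ := distQ (J := PUnit.{u + 1}) (by
        rw [mk_punit]
        exact one_le_aleph0.trans (SetupK.inf (ι := ι) m0))
      (fun _ => {y : Q × Cond K ι W m0 chi | ∃ v, X.val j v y})
      (by
        rintro _ y ⟨v, hv⟩ r hr
        exact ⟨v, X.mono _ _ _ _ hr hv⟩)
      q
      (by
        intro _ y _
        obtain ⟨r, hr, v, hv⟩ := X.total j y
        exact ⟨r, hr, v, hv⟩)
    obtain ⟨p', hp', h1, h2⟩ := Cond.exists_mem_C p a (Cond.le_N hp ha)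
    refine ⟨p'.tr.ht, (q.1, p'), Prod.mk_le_mk.2 ⟨le_rfl, hp'.trans hp⟩, h2, ?_⟩
    intro r hr
    obtain ⟨h', h3, v, h4⟩ := hpD PUnit.unit r.1 hr.1
    exact ⟨(h', r.2), Prod.mk_le_mk.2 ⟨h3, le_rfl⟩, p, hr.2.trans hp', hp.trans hq, h1.le, v, h4⟩
  obtain ⟨γ, ⟨r, hr, hγ⟩, hmin⟩ := (wellFounded_lt (α := K)).has_min
    {γ : K | ∃ r ≤ q, B10_Clo a p1 X j γ r} hex
  exact ⟨r, hr, γ, hγ, fun γ' hγ' r' hr' hc => hmin γ' ⟨r', hr'.trans hr, hc⟩ hγ'⟩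

omit hW in
private theorem B10_Sup_total {a : DLab ι W} {p1 : Cond K ι W m0 chi}
    (X : PF (Q × Cond K ι W m0 chi) K K) (i : K) (q : Q × Cond K ι W m0 chi)
    (hq : q.2 ≤ p1) (ha : a ∈ q.2.N) : ∃ r ≤ q, ∃ δ, B10_Sup a p1 X i δ r := by
  classical
  have hex : ∃ δ : K, ∃ r ≤ q, δ ≤ r.2.tr.ht ∧
      ∀ j < i, ∀ r' ≤ r, ∀ γ, B10_Del a p1 X j γ r' → γ ≤ δ := by
    obtain ⟨p, hp, hpD⟩ := distQ (J := Iio i) (SetupK.seg m0 i)
      (fun j => {y : Q × Cond K ι W m0 chi | ∃ γ, B10_Del a p1 X j.1 γ y})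
      (by
        rintro j y ⟨γ, hγ⟩ r hr
        exact ⟨γ, B10_Del_mono hγ hr⟩)
      q
      (by
        intro j y hy
        obtain ⟨r, hr, γ, hγ⟩ := B10_Del_total X j.1 y (hy.2.trans hq) (Cond.le_N hy.2 ha)
        exact ⟨r, hr, γ, hγ⟩)
    refine ⟨p.tr.ht, (q.1, p), Prod.mk_le_mk.2 ⟨le_rfl, hp⟩, le_rfl, ?_⟩
    intro j hj r hr γ hγ
    obtain ⟨h', h1, γ', h2⟩ := hpD ⟨j, hj⟩ r.1 hr.1
    have h3 : γ = γ' := B10_Del_uniq
      (B10_Del_mono hγ (Prod.mk_le_mk.2 ⟨h1, le_rfl⟩ : ((h', r.2) : Q × Cond K ι W m0 chi) ≤ r))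
      (B10_Del_mono h2 (Prod.mk_le_mk.2 ⟨le_rfl, hr.2⟩))
    rw [h3]
    exact p.C_le a γ' h2.1.1
  obtain ⟨δ, ⟨r, hr, h1, h2⟩, hmin⟩ := (wellFounded_lt (α := K)).has_min
    {δ : K | ∃ r ≤ q, δ ≤ r.2.tr.ht ∧
      ∀ j < i, ∀ r' ≤ r, ∀ γ, B10_Del a p1 X j γ r' → γ ≤ δ} hex
  refine ⟨r, hr, δ, h1, h2, ?_⟩
  intro γ hγ r1 hr1
  by_contra hc
  push Not at hc
  exact hmin γ ⟨r1, hr1.trans hr, hγ.le.trans (h1.trans (Cond.le_ht hr1.2)),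
    fun j hj r' hr' γ' hγ' => hc r' hr' j hj γ' hγ'⟩ hγ

/-- **The heights.** Add to `p1` the decoration `a = (tag, w1)` with a fresh tag, `C a = ∅`.
`Clo j γ q` := `γ ∈ q.2.C a`, and for all `r ≤ q` there are `r' ≤ r`, `s` with `r'.2 ≤ s ≤ p1`,
`s.tr.ht ≤ γ` and `X.val j v (r'.1, s)` for some `v` (exists densely: `distQ` with one task, then
`Cond.exists_mem_C`). `Δ j γ q` := `Clo j γ q` and no smaller `γ'` has `Clo j γ' r` for an `r ≤ q`.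
`D ⊥` is the height `z.s1.tr.ht` of `p1`; for `i > ⊥`, `D i δ q` := `δ ≤ q.2.tr.ht` is the
supremum of the `γ` with `Δ j γ`, `j < i`, i.e. `∀ j < i, ∀ r ≤ q, ∀ γ, Δ j γ r → γ ≤ δ`, and
`∀ γ < δ, ∀ r ≤ q, ∃ r' ≤ r, ∃ j < i, ∃ γ', Δ j γ' r' ∧ γ < γ'` (total: bound by `distQ`, minimal
`δ` over extensions, as in `exists_sup_pos`). -/
theorem exists_heights {Y : PF (Q × Cond K ι W m0 chi) (K × I × K) K} {b0 : W} (a0 : DLab ι W)
    {z : Code K ι W Q m0 chi} {p1 : Cond K ι W m0 chi} {w1 : ι → W}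
    {X : PF (Q × Cond K ι W m0 chi) K K} (hz : IsCodeOf Y b0 z p1 w1 X) :
    ∃ (q2 : Q × Cond K ι W m0 chi) (a : DLab ι W) (D : K → K → Q × Cond K ι W m0 chi → Prop),
      q2.1 = z.h1 ∧ q2.2 ≤ p1 ∧ a ∈ q2.2.N ∧ a.w = w1 ∧ a0 ∈ q2.2.N ∧
      (∀ i δ q r, r ≤ q → D i δ q → D i δ r) ∧
      (∀ i δ δ' q, q ≤ q2 → D i δ q → D i δ' q → δ = δ') ∧
      (∀ i q, q ≤ q2 → ∃ r ≤ q, ∃ δ, D i δ r) ∧
      (∀ q ≤ q2, D ⊥ z.s1.tr.ht q) ∧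
      (∀ i δ q, q ≤ q2 → D i δ q → z.s1.tr.ht ≤ δ ∧ δ ≤ q.2.tr.ht) ∧
      (∀ i j δ δ' q, q ≤ q2 → j < i → D j δ' q → D i δ q → δ' ≤ δ) ∧
      (∀ i δ q, q ≤ q2 → IsLim i → D i δ q →
        ∀ γ < δ, ∀ r ≤ q, ∃ r' ≤ r, ∃ j < i, ∃ δ', D j δ' r' ∧ γ < δ') ∧
      (∀ i δ q, q ≤ q2 → IsLim i → D i δ q → (∀ j < i, ∀ r ≤ q, ∀ δ', D j δ' r → δ' < δ) →
        LimPt (q.2.C a) δ) ∧
      ∀ i δ q, q ≤ q2 → D i δ q → ∀ e < i, ∀ r ≤ q, ∃ r' ≤ r, ∃ s, r'.2 ≤ s ∧ s ≤ p1 ∧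
        s.tr.ht ≤ δ ∧ ∃ v, X.val e v (r'.1, s) := by
  classical
  -- the condition
  obtain ⟨p1', hp1', ha0⟩ := Cond.exists_mem_N p1 a0
  have htag : ∃ tag : W, (⟨tag, w1⟩ : DLab ι W) ∉ p1'.N := by
    by_contra hc
    push Not at hc
    have h1 : #W ≤ #ι := by
      refine le_trans (mk_le_of_injective (f := fun t : W => (⟨⟨t, w1⟩, hc t⟩ : p1'.N)) ?_)
        p1'.N_card
      intro t t' h
      have h2 := congrArg (fun y : p1'.N => y.1.tag) h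
      exact h2
    exact absurd (ι_lt_W K m0 chi (ι := ι) (W := W)) (not_lt.2 h1)
  obtain ⟨tag, htag⟩ := htag
  have hw1 : ∀ t, w1 t ∈ p1.L := fun t => ((hz.2.2.2.1 (w1 t)).1 ⟨t, rfl⟩).1
  obtain ⟨p2, hp2, -, -, -, hN, -, -⟩ := Cond.exists_addN p1' ⟨tag, w1⟩ htag
    (fun t => Cond.le_L hp1' (hw1 t)) (fun _ => ⊥) (fun _ => bot_le)
  let a : DLab ι W := ⟨tag, w1⟩
  have haN : a ∈ p2.N := by rw [hN]; exact mem_insert _ _
  have ha0N : a0 ∈ p2.N := by rw [hN]; exact mem_insert_of_mem _ ha0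
  have hp21 : p2 ≤ p1 := hp2.trans hp1'
  have hht : z.s1.tr.ht = p1.tr.ht := by rw [hz.2.2.2.2.1]; rfl
  have hle : ∀ q ≤ ((z.h1, p2) : Q × Cond K ι W m0 chi), q.2 ≤ p1 := fun q hq => hq.2.trans hp21
  have haq : ∀ q ≤ ((z.h1, p2) : Q × Cond K ι W m0 chi), a ∈ q.2.N := fun q hq =>
    Cond.le_N hq.2 haN
  let D : K → K → Q × Cond K ι W m0 chi → Prop := fun i δ q =>
    (i = ⊥ ∧ δ = z.s1.tr.ht) ∨ (⊥ < i ∧ B10_Sup a p1 X i δ q)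
  have Dsup : ∀ i δ q, ⊥ < i → D i δ q → B10_Sup a p1 X i δ q := by
    intro i δ q hi h
    rcases h with h | h
    · exact absurd h.1 hi.ne'
    · exact h.2
  have Dmono : ∀ i δ q r, r ≤ q → D i δ q → D i δ r := by
    intro i δ q r hr h
    rcases h with h | ⟨h, h1, h2, h3⟩
    · exact Or.inl h
    · exact Or.inr ⟨h, h1.trans (Cond.le_ht hr.2), fun j hj r' hr' => h2 j hj r' (hr'.trans hr),
        fun γ hγ r' hr' => h3 γ hγ r' (hr'.trans hr)⟩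
  have Dtot : ∀ i q, q ≤ ((z.h1, p2) : Q × Cond K ι W m0 chi) → ∃ r ≤ q, ∃ δ, D i δ r := by
    intro i q hq
    rcases eq_or_lt_of_le (bot_le : ⊥ ≤ i) with h | h
    · exact ⟨q, le_rfl, z.s1.tr.ht, Or.inl ⟨h.symm, rfl⟩⟩
    · obtain ⟨r, hr, δ, hδ⟩ := B10_Sup_total X i q (hle q hq) (haq q hq)
      exact ⟨r, hr, δ, Or.inr ⟨h, hδ⟩⟩
  have Dht : ∀ i δ q, q ≤ ((z.h1, p2) : Q × Cond K ι W m0 chi) → D i δ q →
      z.s1.tr.ht ≤ δ ∧ δ ≤ q.2.tr.ht := by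
    intro i δ q hq h
    rcases h with ⟨_, h⟩ | ⟨hi, h1, h2, h3⟩
    · rw [h]
      refine ⟨le_rfl, ?_⟩
      rw [hht]
      exact Cond.le_ht (hle q hq)
    · refine ⟨?_, h1⟩
      obtain ⟨r, hr, γ, hγ⟩ := B10_Del_total X ⊥ q (hle q hq) (haq q hq)
      obtain ⟨r', _, s, _, h5, h6, _⟩ := hγ.1.2 r le_rfl
      rw [hht]
      exact (Cond.le_ht h5).trans (h6.trans (h2 ⊥ hi r hr γ hγ))
  refine ⟨(z.h1, p2), a, D, rfl, hp21, haN, rfl, ha0N, Dmono, ?_, Dtot, ?_, Dht, ?_, ?_, ?_, ?_⟩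
  · -- uniqueness
    intro i δ δ' q _ h h'
    rcases eq_or_lt_of_le (bot_le : ⊥ ≤ i) with hi | hi
    · rcases h with h | h
      · rcases h' with h' | h'
        · rw [h.2, h'.2]
        · exact absurd h'.1 (by rw [← hi]; exact lt_irrefl _)
      · exact absurd h.1 (by rw [← hi]; exact lt_irrefl _)
    · obtain ⟨_, h2, h3⟩ := Dsup i δ q hi h
      obtain ⟨_, h2', h3'⟩ := Dsup i δ' q hi h'
      rcases lt_trichotomy δ δ' with h4 | h4 | h4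
      · obtain ⟨r, hr, j, hj, γ, hγ, h5⟩ := h3' δ h4 q le_rfl
        exact absurd (h2 j hj r hr γ hγ) (not_le.2 h5)
      · exact h4
      · obtain ⟨r, hr, j, hj, γ, hγ, h5⟩ := h3 δ' h4 q le_rfl
        exact absurd (h2' j hj r hr γ hγ) (not_le.2 h5)
  · intro q _
    exact Or.inl ⟨rfl, rfl⟩
  · -- monotonicity
    intro i j δ δ' q hq hj h' h
    rcases eq_or_lt_of_le (bot_le : ⊥ ≤ j) with hj0 | hj0
    · rcases h' with h' | h'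
      · rw [h'.2]
        exact (Dht i δ q hq h).1
      · exact absurd h'.1 (by rw [← hj0]; exact lt_irrefl _)
    · by_contra hc
      obtain ⟨_, _, h3⟩ := Dsup j δ' q hj0 h'
      obtain ⟨_, h2, _⟩ := Dsup i δ q (hj0.trans hj) h
      obtain ⟨r, hr, j', hj', γ, hγ, h5⟩ := h3 δ (not_le.1 hc) q le_rfl
      exact absurd (h2 j' (hj'.trans hj) r hr γ hγ) (not_le.2 h5)
  · -- limits
    intro i δ q hq hi h γ hγ r hr
    obtain ⟨_, _, h3⟩ := Dsup i δ q (bot_lt_iff_ne_bot.2 hi.1) h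
    obtain ⟨r1, hr1, j0, hj0, γ', h4, h5⟩ := h3 γ hγ r hr
    obtain ⟨j, hj1, hj2⟩ := hi.2 j0 hj0
    obtain ⟨r2, hr2, δ', h6⟩ := Dtot j r1 ((hr1.trans hr).trans hq)
    refine ⟨r2, hr2.trans hr1, j, hj2, δ', h6, ?_⟩
    obtain ⟨_, h7, _⟩ := Dsup j δ' r2 (lt_of_le_of_lt bot_le hj1) h6
    exact lt_of_lt_of_le h5 (h7 j0 hj1 r2 le_rfl γ' (B10_Del_mono h4 hr2))
  · -- limit points of the club
    intro i δ q hq hi h hlt
    have hi0 : ⊥ < i := bot_lt_iff_ne_bot.2 hi.1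
    refine ⟨?_, fun c hc => ?_⟩
    · have h1 := hlt ⊥ hi0 q le_rfl z.s1.tr.ht (Or.inl ⟨rfl, rfl⟩)
      intro h2
      rw [h2] at h1
      exact absurd h1 not_lt_bot
    · obtain ⟨h2, _, h3⟩ := Dsup i δ q hi0 h
      obtain ⟨r1, hr1, j0, hj0, γ', h4, h5⟩ := h3 c hc q le_rfl
      obtain ⟨j, hj1, hj2⟩ := hi.2 j0 hj0
      obtain ⟨r2, hr2, δ', h6⟩ := Dtot j r1 (hr1.trans hq)
      obtain ⟨_, h7, _⟩ := Dsup j δ' r2 (lt_of_le_of_lt bot_le hj1) h6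
      have h8 := h7 j0 hj1 r2 le_rfl γ' (B10_Del_mono h4 hr2)
      have h9 := hlt j hj2 r2 (hr2.trans hr1) δ' h6
      have h10 : γ' < δ := lt_of_le_of_lt h8 h9
      exact ⟨γ', (Cond.le_C hr1.2 (haq q hq) (h10.le.trans h2)).1 h4.1.1, h5, h10⟩
  · -- values
    intro i δ q hq h e he r hr
    obtain ⟨_, h2, _⟩ := Dsup i δ q (lt_of_le_of_lt bot_le he) h
    obtain ⟨r1, hr1, γ, hγ⟩ := B10_Del_total X e r (hle r (hr.trans hq)) (haq r (hr.trans hq))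
    obtain ⟨r', hr', s, h4, h5, h6, v, h7⟩ := hγ.1.2 r1 le_rfl
    exact ⟨r', hr'.trans hr1, s, h4, h5, h6.trans (h2 e he r1 (hr1.trans hr) γ hγ), v, h7⟩

end Pool.Agent.KT
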