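import Pool.Agent.Lib_MP_bf47cd.B06
import Pool.Agent.Lib_MP_bf47cd.B10

/-!
# H17-B11: the path of a branch
-/

set_option linter.unusedSectionVars false
set_option linter.unusedVariables false

namespace Pool.Agent.KT

universe u

open Set Cardinal

variable {K ι W Q I : Type u} [LinearOrder K] [OrderBot K] [WellFoundedLT K] [SuccOrder K]
  [NoMaxOrder K] {m0 : K} [LinearOrder W] [OrderBot W] [WellFoundedLT W] {chi : W → W}
  [Preorder Q] [hK : SetupK K ι m0] [hW : SetupW K ι W chi] [hQ : SetupQ Q ι]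
include hK hW hQ

namespace Ctx

variable (Γ : Ctx K ι W Q I m0 chi)

/-- **The path of a branch.** With `q2, a, D` from `exists_heights` (`a0 = Γ.a0`): below `q2`,
`x i` is the least `c` such that `Γ.dec (g Γ.a0 c) = (z, δ, fun t => trunc δ (b (w1 t)))` where
`D i δ` (`PF.exists_ofDense_below`; total by `Γ.hdec` and `Cond.exists_g_eq`). Every `x i` codes a
valid position (`Val`): the clause on `DV` from the last property of `D`, with the witness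
`restr b0 s` in `z.DD`; the clause at limits: decide whether the height is attained; if not,
`δ` is a limit point of `C a`, so in `C a`, and the promise `prom` of the condition gives
`ρ ∈ A δ`. So `Res x z (succ e)` holds with `j = succ (succ e)`, and `DV.val` gives the last
clause. -/
theorem exists_path {z : Code K ι W Q m0 chi} {p1 : Cond K ι W m0 chi} {w1 : ι → W}
    {X : PF (Q × Cond K ι W m0 chi) K K} (hz : IsCodeOf Γ.Y Γ.b0 z p1 w1 X) :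
    ∃ (x : PF (Q × Cond K ι W m0 chi) K K) (q' : Q × Cond K ι W m0 chi), q'.1 ≤ z.h1 ∧
      q'.2 ≤ p1 ∧ ∀ e, ∀ r ≤ q', ∃ r' ≤ r, ∃ δ ρ a, Γ.Res x z (Order.succ e) δ ρ r' ∧
        DV Γ.b0 z δ ρ e a r' ∧ X.val e a r' := by
  classical
  obtain ⟨q2, a, D, hq21, hq22, haN, haw, ha0, Dmono, Duniq, Dtot, Dbot, Dht, Dle, Dlim, DlimC,
    Dval⟩ := exists_heights Γ.a0 hz
  have hcode : IsCode Γ.Y Γ.b0 z := ⟨p1, w1, X, hz⟩
  obtain ⟨hrig, hMem, hinj, hrange, hs1, hρ1, hDD⟩ := hz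
  have hz : IsCodeOf Γ.Y Γ.b0 z p1 w1 X := ⟨hrig, hMem, hinj, hrange, hs1, hρ1, hDD⟩
  have hw1 : ∀ t, w1 t ∈ p1.L := fun t => ((hrange (w1 t)).1 ⟨t, rfl⟩).1
  have hht : z.s1.tr.ht = p1.tr.ht := by rw [hs1]; rfl
  -- nodes of the labels `w1 t`
  have hp1 : ∀ q ≤ q2, q.2 ≤ p1 := fun q hq => hq.2.trans hq22
  have hqL : ∀ q ≤ q2, ∀ t, w1 t ∈ q.2.L := fun q hq t => Cond.le_L (hp1 q hq) (hw1 t)
  have hρ : ∀ q ≤ q2, ∀ r ≤ q, ∀ δ ≤ q.2.tr.ht, (fun t => trunc δ (r.2.b (w1 t))) =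
      fun t => trunc δ (q.2.b (w1 t)) := by
    intro q hq r hr δ hδ
    funext t
    rw [← Cond.le_b hr.2 (hqL q hq t), trunc_trunc_of_le hδ]
  have ha0' : ∀ q ≤ q2, Γ.a0 ∈ q.2.N := fun q hq => Cond.le_N hq.2 ha0
  have haN' : ∀ q ≤ q2, a ∈ q.2.N := fun q hq => Cond.le_N hq.2 haN
  -- the predicate defining `x`
  let v : K → K → Q × Cond K ι W m0 chi → Prop := fun i c q => ∃ δ, D i δ q ∧ c < q.2.tr.ht ∧
    Γ.dec (q.2.g Γ.a0 c) = (z, δ, fun t => trunc δ (q.2.b (w1 t))) ∧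
    ∀ c' < c, Γ.dec (q.2.g Γ.a0 c') ≠ (z, δ, fun t => trunc δ (q.2.b (w1 t)))
  have vmono : ∀ i c p q, q ≤ p → p ≤ q2 → v i c p → v i c q := by
    rintro i c p q hqp hp ⟨δ, h1, h2, h3, h4⟩
    have h5 := hρ p hp q hqp δ (Dht i δ p hp h1).2
    refine ⟨δ, Dmono i δ p q hqp h1, h2.trans_le (Cond.le_ht hqp.2), ?_, fun c' hc' => ?_⟩
    · rw [Cond.le_g hqp.2 (ha0' p hp) h2, h5, h3]
    · rw [Cond.le_g hqp.2 (ha0' p hp) (hc'.trans h2), h5]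
      exact h4 c' hc'
  have vuniq : ∀ i c c' p, p ≤ q2 → v i c p → v i c' p → c = c' := by
    rintro i c c' p hp ⟨δ, h1, h2, h3, h4⟩ ⟨δ', h1', h2', h3', h4'⟩
    have h5 := Duniq i δ δ' p hp h1 h1'
    subst h5
    rcases lt_trichotomy c c' with h | h | h
    · exact absurd h3 (h4' c h)
    · exact h
    · exact absurd h3' (h4 c' h)
  have vtot : ∀ i p, p ≤ q2 → ∀ δ, D i δ p → ∃ q ≤ p, ∃ c, v i c q := by
    intro i p hp δ hδ
    obtain ⟨χ, hχ, hdec⟩ := Γ.hdec z hcode δ (fun t => trunc δ (p.2.b (w1 t)))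
    obtain ⟨r2, hr2, c, hc, hg⟩ := Cond.exists_g_eq p.2 Γ.a0 (ha0' p hp) χ hχ
    have hr : ((p.1, r2) : Q × Cond K ι W m0 chi) ≤ p := ⟨le_rfl, hr2⟩
    have h5 := hρ p hp _ hr δ (Dht i δ p hp hδ).2
    have hne : ({c | c < r2.tr.ht ∧ Γ.dec (r2.g Γ.a0 c) =
        (z, δ, fun t => trunc δ (r2.b (w1 t)))} : Set K).Nonempty := by
      refine ⟨c, hc, ?_⟩
      rw [hg, hdec]
      exact congrArg (fun f => (z, δ, f)) h5.symm
    have hwf : WellFounded (fun a b : K => a < b) := wellFounded_lt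
    obtain ⟨h6, h7⟩ := hwf.min_mem _ hne
    refine ⟨(p.1, r2), hr, hwf.min _ hne, δ, Dmono i δ p _ hr hδ, h6, h7, fun c' hc' h8 => ?_⟩
    exact hwf.not_lt_min _ (⟨hc'.trans h6, h8⟩ : c' ∈ {c | c < r2.tr.ht ∧ Γ.dec (r2.g Γ.a0 c) =
        (z, δ, fun t => trunc δ (r2.b (w1 t)))}) hc'
  obtain ⟨x, hx1, hx2⟩ := PF.exists_ofDense_below (A := K) (B := K) q2 v vmono vuniq
    (fun i p hp => by
      obtain ⟨r, hr, δ, hδ⟩ := Dtot i p hp
      obtain ⟨q, hq, c, hc⟩ := vtot i r (hr.trans hp) δ hδ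
      exact ⟨q, hq.trans hr, c, hc⟩)
  -- `P` from `v`
  have PofD : ∀ i δ p, p ≤ q2 → D i δ p → (∃ c, v i c p) →
      Γ.P x i (z, δ, fun t => trunc δ (p.2.b (w1 t))) p := by
    rintro i δ p hp hδ ⟨c, hc⟩
    obtain ⟨δ', h1, h2, h3, h4⟩ := id hc
    have h5 := Duniq i δ δ' p hp hδ h1
    subst h5
    exact ⟨c, hx2 i c p hp hc, ha0' p hp, h2, h3, (Dht i δ p hp hδ).2⟩
  -- `D` from `P`
  have DofP : ∀ i d p, p ≤ q2 → Γ.P x i d p → ∃ r ≤ p, D i d.2.1 r ∧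
      d.2.2 = fun t => trunc d.2.1 (r.2.b (w1 t)) := by
    intro i d p hp hd
    obtain ⟨r, hr, δ, hδ⟩ := Dtot i p hp
    obtain ⟨q, hq, c, hc⟩ := vtot i r (hr.trans hp) δ hδ
    have hqp : q ≤ p := hq.trans hr
    have hδq := Dmono i δ r q hq hδ
    have h1 := PofD i δ q (hqp.trans hp) hδq ⟨c, hc⟩
    have h2 := Γ.P_uniq (Γ.P_mono hd hqp) h1
    subst h2
    exact ⟨q, hqp, hδq, rfl⟩
  -- `VZ`
  have hVZ : ∀ p ≤ q2, (∃ c, v ⊥ c p) → Γ.VZ x z p := by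
    intro p hp hv
    have h1 := PofD ⊥ _ p hp (Dbot p hp) hv
    have h2 : (fun t => trunc z.s1.tr.ht (p.2.b (w1 t))) = z.ρ1 := by
      funext t
      rw [hht, Cond.le_b (hp1 p hp) (hw1 t), hρ1]
    rw [h2] at h1
    refine ⟨h1, hcode, ?_, ?_⟩
    · rw [← hq21]; exact hp.1
    · rw [hs1]; exact Cond.restr_mono (hp1 p hp) Γ.b0
  -- `Val`
  have hVal : ∀ i p, p ≤ q2 → ∀ δ, D i δ p → (∃ c, v i c p) → (∃ c, v ⊥ c p) →
      (IsLim i → (∀ j < i, ∀ r ≤ p, ¬ D j δ r) ∨ ∃ j < i, D j δ p ∧ ∃ c, v j c p) →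
      Γ.Val x z i δ (fun t => trunc δ (p.2.b (w1 t))) p := by
    intro i p hp δ hδ hv hv0 hlim
    have hδp := (Dht i δ p hp hδ).2
    refine ⟨hVZ p hp hv0, ⟨z, PofD i δ p hp hδ hv⟩, fun j hj r hr d hd => ?_, fun t => ?_,
      fun e he r hr => ?_, fun hi => ⟨fun γ hγ r hr => ?_, fun hcof => ?_⟩⟩
    · obtain ⟨r', hr', h1, h2⟩ := DofP j d r (hr.trans hp) hd
      have h3 : d.2.1 ≤ δ := Dle i j δ d.2.1 r' (hr'.trans (hr.trans hp)) hj h1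
        (Dmono i δ p r' (hr'.trans hr) hδ)
      refine ⟨h3, fun t => ?_⟩
      rw [h2, trunc_trunc_of_le h3]
      exact (congrFun (hρ p hp r' (hr'.trans hr) d.2.1 (h3.trans hδp)) t).symm
    · exact p.2.tr.T_res _ _ (p.2.b_mem _ (hqL p hp t)) δ hδp
    · obtain ⟨r', hr', s, h1, h2, h3, u, h4⟩ := Dval i δ p hp hδ e he r hr
      refine ⟨r', hr', u, Cond.restr Γ.b0 s, Cond.restr_mono h1 Γ.b0, h3, ?_⟩
      rw [hDD]
      refine ⟨?_, s, h2, rfl, fun t => ?_, h4⟩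
      · rw [← hq21]; exact (hr'.trans (hr.trans hp)).1
      · have h5 := congrFun (hρ p hp r' (hr'.trans hr) s.tr.ht (h3.trans hδp)) t
        change s.b (w1 t) = trunc s.tr.ht (trunc δ (p.2.b (w1 t)))
        rw [trunc_trunc_of_le h3, ← Cond.le_b h1 (Cond.le_L h2 (hw1 t))]
        exact h5
    · obtain ⟨r', hr', j, hj, δ', h1, h2⟩ := Dlim i δ p hp hi hδ γ hγ r hr
      have hr'2 : r' ≤ q2 := hr'.trans (hr.trans hp)
      obtain ⟨r'', hr'', c, hc⟩ := vtot j r' hr'2 δ' h1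
      exact ⟨r'', hr''.trans hr', j, hj, _, PofD j δ' r'' (hr''.trans hr'2)
        (Dmono j δ' r' r'' hr'' h1) ⟨c, hc⟩, h2⟩
    · rcases hlim hi with h1 | ⟨j, hj, h1, h2⟩
      · left
        have h2 : LimPt (p.2.C a) δ := by
          refine DlimC i δ p hp hi hδ fun j hj r hr δ' h3 => ?_
          refine lt_of_le_of_ne (Dle i j δ δ' r (hr.trans hp) hj h3 (Dmono i δ p r hr hδ)) ?_
          intro h4
          subst h4
          exact h1 j hj r hr h3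
        have h3 := p.2.C_closed a (haN' p hp) δ hδp h2
        have h4 := p.2.prom a (haN' p hp) δ h3 h2 hcof
        rw [haw] at h4
        exact h4
      · right
        exact ⟨j, hj, _, PofD j δ p hp h1 h2, rfl⟩
  -- `Val` holds densely
  have hValD : ∀ i, ∀ p ≤ q2, ∃ r ≤ p, ∃ δ, D i δ r ∧
      Γ.Val x z i δ (fun t => trunc δ (r.2.b (w1 t))) r := by
    intro i p hp
    obtain ⟨r1, hr1, δ, hδ⟩ := Dtot i p hp
    obtain ⟨r2, hr2, c, hc⟩ := vtot i r1 (hr1.trans hp) δ hδ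
    have hr22 : r2 ≤ q2 := hr2.trans (hr1.trans hp)
    obtain ⟨r3, hr3, c0, hc0⟩ := vtot ⊥ r2 hr22 _ (Dbot r2 hr22)
    have hr32 : r3 ≤ q2 := hr3.trans hr22
    have hr3p : r3 ≤ p := hr3.trans (hr2.trans hr1)
    have hδ3 : D i δ r3 := Dmono i δ r1 r3 (hr3.trans hr2) hδ
    have hc3 : v i c r3 := vmono i c r2 r3 hr3 hr22 hc
    by_cases h : ∀ j < i, ∀ r ≤ r3, ¬ D j δ r
    · exact ⟨r3, hr3p, δ, hδ3, hVal i r3 hr32 δ hδ3 ⟨c, hc3⟩ ⟨c0, hc0⟩ fun _ => Or.inl h⟩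
    · push Not at h
      obtain ⟨j, hj, r4, hr4, h4⟩ := h
      obtain ⟨r5, hr5, c5, hc5⟩ := vtot j r4 (hr4.trans hr32) δ h4
      have hr53 : r5 ≤ r3 := hr5.trans hr4
      refine ⟨r5, hr53.trans hr3p, δ, Dmono i δ r3 r5 hr53 hδ3, hVal i r5 (hr53.trans hr32) δ
        (Dmono i δ r3 r5 hr53 hδ3) ⟨c, vmono i c r3 r5 hr53 hr32 hc3⟩
        ⟨c0, vmono ⊥ c0 r3 r5 hr53 hr32 hc0⟩ fun _ => Or.inr ⟨j, hj, Dmono j δ r4 r5 hr5 h4,
          c5, hc5⟩⟩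
  refine ⟨x, q2, le_of_eq hq21, hq22, fun e r hr => ?_⟩
  obtain ⟨r1, hr1, δ, hδ, hV⟩ := hValD (Order.succ e) r hr
  have hr12 : r1 ≤ q2 := hr1.trans hr
  obtain ⟨r2, hr2, u, hu⟩ := hV.2.2.2.2.1 e (Order.lt_succ e) r1 le_rfl
  have hr22 : r2 ≤ q2 := hr2.trans hr12
  refine ⟨r2, hr2.trans hr1, δ, _, u, ⟨Γ.VZ_mono hV.1 hr2, Order.succ (Order.succ e), le_rfl,
    lt_of_le_of_lt bot_le (Order.lt_succ _), fun j hj r3 hr3 => ?_, Or.inl rfl,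
    Γ.LastPos_mono (Γ.LastPos_succ hV) hr2⟩, hu, ?_⟩
  · obtain ⟨r4, hr4, δ4, -, h4⟩ := hValD j r3 (hr3.trans hr22)
    exact ⟨r4, hr4, δ4, _, h4⟩
  · refine DV.val hz ?_ (hp1 r2 hr22) ?_ (fun t => ?_) hu
    · rw [← hq21]; exact hr22.1
    · exact (Dht _ δ r2 hr22 (Dmono _ δ r1 r2 hr2 hδ)).2
    · exact (congrFun (hρ r1 hr12 r2 hr2 δ (Dht _ δ r1 hr12 hδ).2) t).symm

end Ctx

end Pool.Agent.KT
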