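import Pool.Agent.Lib_MP_bf47cd.B02
import Pool.Agent.Lib_MP_bf47cd.B05
import Pool.Agent.Lib_MP_bf47cd.B09
import Pool.Agent.Lib_MP_bf47cd.B11

/-!
# H17-B12: the main theorem on functions valued in the forcing
-/

set_option linter.unusedSectionVars false
set_option linter.unusedVariables false

namespace Pool.Agent.KT

universe u

open Set Cardinal

variable {K ι W Q I : Type u} [LinearOrder K] [OrderBot K] [WellFoundedLT K] [SuccOrder K]
  [NoMaxOrder K] {m0 : K} [LinearOrder W] [OrderBot W] [WellFoundedLT W] {chi : W → W}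
  [Preorder Q] [hK : SetupK K ι m0] [hW : SetupW K ι W chi] [hQ : SetupQ Q ι]
include hK hW hQ

/-- **Main theorem of the B-part.** If `q0` forces that `X0` is a branch of the tree, there is a
map `F` of functions to branches, continuous (`F x` at `e` depends on `x` on `Iic (succ e)`), and
onto all branches. (`exists_ctx`, `exists_Df`, `exists_F0`, `F_mem`, `F_congr`; onto:
`exists_code`, `exists_path`, `F_eq_of_path`.) -/
theorem exists_F (hI : #I ≤ #ι) (Y : PF (Q × Cond K ι W m0 chi) (K × I × K) K)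
    (q0 : Q × Cond K ι W m0 chi) (X0 : PF (Q × Cond K ι W m0 chi) K K) (h0 : Mem Y X0 q0) :
    ∃ F : PF (Q × Cond K ι W m0 chi) K K → PF (Q × Cond K ι W m0 chi) K K,
      (∀ x, Mem Y (F x) q0) ∧
      (∀ x x' e q, PF.EqOn x x' (Iic (Order.succ e)) q → ∀ v,
        (F x).val e v q ↔ (F x').val e v q) ∧
      ∀ X q, q ≤ q0 → Mem Y X q → ∃ q' ≤ q, ∃ x, PF.EqOn (F x) X univ q' := by
  obtain ⟨Γ, hΓ⟩ := exists_ctx hI Y q0
  subst hΓ
  obtain ⟨Df, hDf⟩ := Γ.exists_Df
  obtain ⟨F, hF1, hF2⟩ := Γ.exists_F0 Df X0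
  refine ⟨F, fun x => Γ.F_mem hDf hF1 hF2 q0 h0 x,
    fun x x' e q h v => Γ.F_congr hDf hF1 hF2 x x' e q h v, fun X q hq hX => ?_⟩
  obtain ⟨z, p1, w1, hz, h1, h2⟩ := exists_code hI Γ.hY X q hX
  obtain ⟨x, q', h3, h4, h5⟩ := Γ.exists_path hz
  exact ⟨q', ⟨h3.trans h1, h4.trans h2⟩, x, Γ.F_eq_of_path hDf hF1 hF2 x X z q' h5⟩

end Pool.Agent.KT
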