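import Pool.Agent.Lib_Inner.Rich
import Mathlib.Order.WellFounded

/-!
# H17-C01: canonical names of the elements and subsets of a well-order (any universe)

Universe-polymorphic copy of `Lib_MP_38e082_lc/Check.lean`.
-/

set_option linter.unusedSectionVars false

namespace Pool.Agent.KTM

universe u

open Pool.Agent.Forcing Pool.Agent.Forcing.Name Pool.Agent.Inner Set

variable {P : Type u} [Preorder P] [OrderTop P]

/-! ### generalities on names -/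

lemma fmem_mk_top {ι : Type u} {A : ι → Name P} {z : Name P} {p : P} :
    fmem z (Name.mk ι A (fun _ => ⊤)) p ↔ ∀ q ≤ p, ∃ r ≤ q, ∃ i, feq z (A i) r := by
  constructor
  · intro h q hq
    obtain ⟨r, hr, i, _, h2⟩ := h q hq
    exact ⟨r, hr, i, h2⟩
  · intro h q hq
    obtain ⟨r, hr, i, h2⟩ := h q hq
    exact ⟨r, hr, i, le_top, h2⟩

/-- equality is forced when it holds in all rich models -/
lemma feq_of_models {x y : Name P} {p : P} (S : Set (Name P)) (hS : S.Countable)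
    (h : ∀ 𝔊 : Gen P, Rich 𝔊 → 𝔊.G 0 ≤ p → S ⊆ 𝔊.N →
      ∀ (hx : x ∈ 𝔊.N) (hy : y ∈ 𝔊.N), 𝔊.cls ⟨x, hx⟩ = 𝔊.cls ⟨y, hy⟩) : feq x y p := by
  have h1 : Force (.eq 0 1) (cons x (cons y (fun _ => omegaName))) p := by
    refine force_of (ι := Empty) (κ := Empty) _ _ p S hS (fun k => k.elim)
      (fun k => k.elim) (fun k => k.elim) ?_
    intro 𝔊 h1 h2 h3 _ _ hv
    exact h 𝔊 h1 h2 h3 (hv 0) (hv 1)
  exact h1

/-- membership is forced when it holds in all rich models -/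
lemma fmem_of_models {x y : Name P} {p : P} (S : Set (Name P)) (hS : S.Countable)
    (h : ∀ 𝔊 : Gen P, Rich 𝔊 → 𝔊.G 0 ≤ p → S ⊆ 𝔊.N →
      ∀ (hx : x ∈ 𝔊.N) (hy : y ∈ 𝔊.N), 𝔊.E (𝔊.cls ⟨x, hx⟩) (𝔊.cls ⟨y, hy⟩)) :
    fmem x y p := by
  have h1 : Force (.mem 0 1) (cons x (cons y (fun _ => omegaName))) p := by
    refine force_of (ι := Empty) (κ := Empty) _ _ p S hS (fun k => k.elim)
      (fun k => k.elim) (fun k => k.elim) ?_
    intro 𝔊 h1 h2 h3 _ _ hv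
    exact h 𝔊 h1 h2 h3 (hv 0) (hv 1)
  exact h1

lemma opair_feq {a b c d : Name P} {p : P} (h : feq (opairName a b) (opairName c d) p) :
    feq a c p ∧ feq b d p := by
  constructor
  · refine feq_of_models {b, d} (by simp) ?_
    intro 𝔊 hR h0 hS ha hc
    have hb : b ∈ 𝔊.N := hS (by simp)
    have hd : d ∈ 𝔊.N := hS (by simp)
    have h1 : 𝔊.cls ⟨opairName a b, hR.opair_mem ha hb⟩ =
        𝔊.cls ⟨opairName c d, hR.opair_mem hc hd⟩ := (𝔊.cls_eq).2 ⟨0, feq_mono h h0⟩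
    rw [hR.cls_opairName (x := ⟨a, ha⟩) (y := ⟨b, hb⟩),
      hR.cls_opairName (x := ⟨c, hc⟩) (y := ⟨d, hd⟩), pair_inj hR.zfc] at h1
    exact h1.1
  · refine feq_of_models {a, c} (by simp) ?_
    intro 𝔊 hR h0 hS hb hd
    have ha : a ∈ 𝔊.N := hS (by simp)
    have hc : c ∈ 𝔊.N := hS (by simp)
    have h1 : 𝔊.cls ⟨opairName a b, hR.opair_mem ha hb⟩ =
        𝔊.cls ⟨opairName c d, hR.opair_mem hc hd⟩ := (𝔊.cls_eq).2 ⟨0, feq_mono h h0⟩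
    rw [hR.cls_opairName (x := ⟨a, ha⟩) (y := ⟨b, hb⟩),
      hR.cls_opairName (x := ⟨c, hc⟩) (y := ⟨d, hd⟩), pair_inj hR.zfc] at h1
    exact h1.2

lemma feq_opair {a b c d : Name P} {p : P} (h1 : feq a c p) (h2 : feq b d p) :
    feq (opairName a b) (opairName c d) p := by
  refine feq_of_models {a, b, c, d} (by simp) ?_
  intro 𝔊 hR h0 hS h3 h4
  have ha : a ∈ 𝔊.N := hS (by simp)
  have hb : b ∈ 𝔊.N := hS (by simp)
  have hc : c ∈ 𝔊.N := hS (by simp)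
  have hd : d ∈ 𝔊.N := hS (by simp)
  have e1 : 𝔊.cls ⟨a, ha⟩ = 𝔊.cls ⟨c, hc⟩ := (𝔊.cls_eq).2 ⟨0, feq_mono h1 h0⟩
  have e2 : 𝔊.cls ⟨b, hb⟩ = 𝔊.cls ⟨d, hd⟩ := (𝔊.cls_eq).2 ⟨0, feq_mono h2 h0⟩
  have e3 := hR.cls_opairName (x := ⟨a, ha⟩) (y := ⟨b, hb⟩)
  have e4 := hR.cls_opairName (x := ⟨c, hc⟩) (y := ⟨d, hd⟩)
  rw [e1, e2] at e3
  exact e3.trans e4.symm

/-! ### values of names in a generic model -/

/-- `z` is the value of the name `t` (which need not belong to the countable set of names) -/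
def Rep (𝔊 : Gen P) (z : 𝔊.M) (t : Name P) : Prop :=
  ∃ z' : 𝔊.N, 𝔊.cls z' = z ∧ ∃ n, feq z'.1 t (𝔊.G n)

section rep
variable {𝔊 : Gen P}

lemma rep_cls_iff {z : 𝔊.N} {t : Name P} : Rep 𝔊 (𝔊.cls z) t ↔ ∃ n, feq z.1 t (𝔊.G n) := by
  constructor
  · rintro ⟨z', h1, n, h2⟩
    obtain ⟨m, hm⟩ := (𝔊.cls_eq).1 h1
    exact ⟨max n m, feq_trans (feq_symm (feq_mono hm (𝔊.anti (le_max_right _ _))))
      (feq_mono h2 (𝔊.anti (le_max_left _ _)))⟩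
  · rintro ⟨n, hn⟩
    exact ⟨z, rfl, n, hn⟩

lemma rep_iff {z : 𝔊.M} {t : Name P} (ht : t ∈ 𝔊.N) : Rep 𝔊 z t ↔ z = 𝔊.cls ⟨t, ht⟩ := by
  obtain ⟨z', rfl⟩ := 𝔊.exists_rep z
  rw [rep_cls_iff, 𝔊.cls_eq]

lemma rep_self {t : Name P} (ht : t ∈ 𝔊.N) : Rep 𝔊 (𝔊.cls ⟨t, ht⟩) t := (rep_iff ht).2 rfl

lemma Rep.unique {z w : 𝔊.M} {t : Name P} (h1 : Rep 𝔊 z t) (h2 : Rep 𝔊 w t) : z = w := by
  obtain ⟨z', rfl, n, hn⟩ := h1
  obtain ⟨w', rfl, m, hm⟩ := h2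
  exact (𝔊.cls_eq).2 ⟨max n m, feq_trans (feq_mono hn (𝔊.anti (le_max_left _ _)))
    (feq_symm (feq_mono hm (𝔊.anti (le_max_right _ _))))⟩

lemma Rep.feq {z : 𝔊.M} {s t : Name P} (h1 : Rep 𝔊 z s) (h2 : Rep 𝔊 z t) :
    ∃ n, feq s t (𝔊.G n) := by
  obtain ⟨z', rfl, n, hn⟩ := h1
  obtain ⟨m, hm⟩ := rep_cls_iff.1 h2
  exact ⟨max n m, feq_trans (feq_symm (feq_mono hn (𝔊.anti (le_max_left _ _))))
    (feq_mono hm (𝔊.anti (le_max_right _ _)))⟩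

lemma Rep.congr {z : 𝔊.M} {s t : Name P} (h1 : Rep 𝔊 z s) {n : ℕ} (h2 : Name.feq s t (𝔊.G n)) :
    Rep 𝔊 z t := by
  obtain ⟨z', rfl, m, hm⟩ := h1
  exact ⟨z', rfl, max n m, feq_trans (feq_mono hm (𝔊.anti (le_max_right _ _)))
    (feq_mono h2 (𝔊.anti (le_max_left _ _)))⟩

lemma E_iff (hR : Rich 𝔊) {z : 𝔊.M} {x : Name P} (hx : x ∈ 𝔊.N) :
    𝔊.E z (𝔊.cls ⟨x, hx⟩) ↔ ∃ j n, 𝔊.G n ≤ x.cd j ∧ Rep 𝔊 z (x.nm j) := by
  obtain ⟨z', rfl⟩ := 𝔊.exists_rep z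
  constructor
  · intro h
    obtain ⟨n, j, h1, h2⟩ := hR.split z'.1 z'.2 x hx h
    exact ⟨j, n, h1, z', rfl, n, h2⟩
  · rintro ⟨j, n, h1, h2⟩
    obtain ⟨m, hm⟩ := rep_cls_iff.1 h2
    refine ⟨max n m, ?_⟩
    refine fmem_congr_left (feq_symm (feq_mono hm (𝔊.anti (le_max_right _ _)))) ?_
    exact fmem_nm x j ((𝔊.anti (le_max_left _ _)).trans h1)

lemma rep_opair (hR : Rich 𝔊) {z : 𝔊.M} {s t : Name P} :
    Rep 𝔊 z (opairName s t) ↔ ∃ u v, z = pair 𝔊.E u v ∧ Rep 𝔊 u s ∧ Rep 𝔊 v t := by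
  constructor
  · rintro ⟨z', rfl, n, hn⟩
    have hfo : FO.{u+1} (fun _ E v => ∃ x y, IsPair E (v 0) x y) := FO.ex (FO.ex (FO.isPair _ _ _))
    have h1 : Frc (fun _ E v => ∃ x y, IsPair E (v 0) x y) (ev omegaName [z'.1]) (𝔊.G n) := by
      refine frc_of_list hfo [z'.1] omegaName (𝔊.G n) {s, t, opairName s t} (by simp)
        (κ := Empty) (fun k => k.elim) (fun k => k.elim) ?_
      intro 𝔊' hR' h0 hS _ hl hd
      have hs : s ∈ 𝔊'.N := hS (by simp)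
      have ht : t ∈ 𝔊'.N := hS (by simp)
      refine ⟨𝔊'.cls ⟨s, hs⟩, 𝔊'.cls ⟨t, ht⟩, ?_⟩
      change IsPair 𝔊'.E (𝔊'.cls ⟨z'.1, _⟩) _ _
      rw [isPair_iff hR'.zfc, ← hR'.cls_opairName]
      exact (𝔊'.cls_eq).2 ⟨0, feq_mono hn h0⟩
    obtain ⟨u, v, huv⟩ := Frc.true_list hfo 𝔊 [z'] ⟨omegaName, hR.omega_mem⟩ h1
    have huv' : IsPair 𝔊.E (𝔊.cls z') u v := huv
    rw [isPair_iff hR.zfc] at huv'
    obtain ⟨u', rfl⟩ := 𝔊.exists_rep u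
    obtain ⟨v', rfl⟩ := 𝔊.exists_rep v
    refine ⟨_, _, huv', ?_⟩
    rw [← hR.cls_opairName] at huv'
    obtain ⟨m, hm⟩ := (𝔊.cls_eq).1 huv'
    have h3 := opair_feq (feq_trans (feq_symm (feq_mono hm (𝔊.anti (le_max_right n m))))
      (feq_mono hn (𝔊.anti (le_max_left n m))))
    exact ⟨⟨u', rfl, _, h3.1⟩, ⟨v', rfl, _, h3.2⟩⟩
  · rintro ⟨u, v, rfl, ⟨u', rfl, n, hn⟩, ⟨v', rfl, m, hm⟩⟩
    rw [← hR.cls_opairName]
    exact rep_cls_iff.2 ⟨max n m, feq_opair (feq_mono hn (𝔊.anti (le_max_left n m)))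
      (feq_mono hm (𝔊.anti (le_max_right n m)))⟩

/-- values of a name that lists pairs -/
lemma val_mk (hR : Rich 𝔊) {ι : Type u} {A B : ι → Name P} {c : ι → P}
    (h : Name.mk ι (fun i => opairName (A i) (B i)) c ∈ 𝔊.N) {u v : 𝔊.M} :
    Val 𝔊.E (𝔊.cls ⟨_, h⟩) u v ↔ ∃ i n, 𝔊.G n ≤ c i ∧ Rep 𝔊 u (A i) ∧ Rep 𝔊 v (B i) := by
  rw [val_iff hR.zfc, E_iff hR h]
  constructor
  · rintro ⟨i, n, h1, h2⟩
    obtain ⟨u', v', h3, h4, h5⟩ := (rep_opair hR).1 h2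
    rw [pair_inj hR.zfc] at h3
    obtain ⟨rfl, rfl⟩ := h3
    exact ⟨i, n, h1, h4, h5⟩
  · rintro ⟨i, n, h1, h2, h3⟩
    exact ⟨i, n, h1, (rep_opair hR).2 ⟨u, v, rfl, h2, h3⟩⟩

lemma isPair_of_mem_mk (hR : Rich 𝔊) {ι : Type u} {A B : ι → Name P} {c : ι → P}
    (h : Name.mk ι (fun i => opairName (A i) (B i)) c ∈ 𝔊.N) {z : 𝔊.M}
    (hz : 𝔊.E z (𝔊.cls ⟨_, h⟩)) : ∃ u v, IsPair 𝔊.E z u v ∧ Val 𝔊.E (𝔊.cls ⟨_, h⟩) u v := by
  obtain ⟨i, n, h1, h2⟩ := (E_iff hR h).1 hz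
  obtain ⟨u, v, h3, h4, h5⟩ := (rep_opair hR).1 h2
  exact ⟨u, v, (isPair_iff hR.zfc).2 h3, (val_mk hR h).2 ⟨i, n, h1, h4, h5⟩⟩

end rep

/-! ### canonical names -/

section check
variable {W : Type u} [LinearOrder W] [WellFoundedLT W]

/-- the canonical name of an element of `W`, regarded as a von Neumann ordinal -/
noncomputable def check : W → Name P := WellFoundedLT.fix (fun a ih =>
  Name.mk (Iio a) (fun x => ih x.1 x.2) (fun _ => ⊤))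

/-- the canonical name of a subset of `W` -/
noncomputable def checkSet (S : Set W) : Name P :=
  Name.mk S (fun x => check x.1) (fun _ => ⊤)

lemma check_eq (a : W) : (check a : Name P) = checkSet (Iio a) := by
  unfold check
  rw [WellFoundedLT.fix_eq]
  rfl

lemma fmem_checkSet {S : Set W} {z : Name P} {p : P} :
    fmem z (checkSet S) p ↔ ∀ q ≤ p, ∃ r ≤ q, ∃ x ∈ S, feq z (check x) r := by
  unfold checkSet
  rw [fmem_mk_top]
  constructor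
  · intro h q hq
    obtain ⟨r, hr, x, hx⟩ := h q hq
    exact ⟨r, hr, x.1, x.2, hx⟩
  · intro h q hq
    obtain ⟨r, hr, x, hx, h2⟩ := h q hq
    exact ⟨r, hr, ⟨x, hx⟩, h2⟩

lemma fmem_check_of_mem {S : Set W} {x : W} (h : x ∈ S) (p : P) :
    fmem (check x) (checkSet S) p :=
  fmem_checkSet.2 fun q _ => ⟨q, le_rfl, x, h, feq_refl _ _⟩

lemma not_fmem_check (y : W) : ∀ x, y ≤ x → ∀ p : P, ¬ fmem (check x) (check y) p := by
  induction y using WellFoundedLT.induction with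
  | ind y ih =>
    intro x hxy p h
    rw [check_eq y, fmem_checkSet] at h
    obtain ⟨r, _, z, hz, h2⟩ := h p le_rfl
    have h3 : fmem (check z) (check x) r := by
      rw [check_eq x]; exact fmem_check_of_mem (mem_Iio.2 (lt_of_lt_of_le hz hxy)) r
    exact ih z hz z le_rfl r (fmem_congr_right h2 h3)

lemma feq_check_iff {x y : W} {p : P} : feq (check x : Name P) (check y) p ↔ x = y := by
  constructor
  · intro h
    rcases lt_trichotomy x y with h1 | h1 | h1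
    · have h2 : fmem (check x : Name P) (check y) p := by
        rw [check_eq y]; exact fmem_check_of_mem (mem_Iio.2 h1) p
      exact absurd (fmem_congr_right (feq_symm h) h2) (not_fmem_check x x le_rfl p)
    · exact h1
    · have h2 : fmem (check y : Name P) (check x) p := by
        rw [check_eq x]; exact fmem_check_of_mem (mem_Iio.2 h1) p
      exact absurd (fmem_congr_right h h2) (not_fmem_check y y le_rfl p)
  · rintro rfl; exact feq_refl _ _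

lemma fmem_check_checkSet {S : Set W} {x : W} {p : P} :
    fmem (check x : Name P) (checkSet S) p ↔ x ∈ S := by
  constructor
  · intro h
    obtain ⟨r, _, y, hy, h2⟩ := fmem_checkSet.1 h p le_rfl
    rw [feq_check_iff] at h2
    rw [h2]; exact hy
  · exact fun h => fmem_check_of_mem h p

section model
variable {𝔊 : Gen P}

lemma Rep.check_inj {z : 𝔊.M} {x y : W} (h1 : Rep 𝔊 z (check x)) (h2 : Rep 𝔊 z (check y)) :
    x = y := by
  obtain ⟨n, hn⟩ := h1.feq h2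
  exact feq_check_iff.1 hn

lemma E_checkSet (hR : Rich 𝔊) {S : Set W} (h : (checkSet S : Name P) ∈ 𝔊.N) {z : 𝔊.M} :
    𝔊.E z (𝔊.cls ⟨checkSet S, h⟩) ↔ ∃ x ∈ S, Rep 𝔊 z (check x) := by
  rw [E_iff hR h]
  constructor
  · rintro ⟨j, n, _, h2⟩
    exact ⟨j.1, j.2, h2⟩
  · rintro ⟨x, hx, h2⟩
    exact ⟨⟨x, hx⟩, 0, le_top, h2⟩

variable (W) in
/-- the generic model decides which names are canonical names of elements of `W` -/
def DecC (𝔊 : Gen P) : Prop := ∀ z ∈ 𝔊.N, ∃ n, (∃ a : W, feq z (check a) (𝔊.G n)) ∨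
  ∀ a : W, ∀ r ≤ 𝔊.G n, ¬ feq z (check a) r

lemma E_rep_checkSet (hD : DecC W 𝔊) {S : Set W} {z t : 𝔊.M} (hz : Rep 𝔊 z (checkSet S)) :
    𝔊.E t z ↔ ∃ x ∈ S, Rep 𝔊 t (check x) := by
  obtain ⟨z', rfl, n, hn⟩ := hz
  obtain ⟨t', rfl⟩ := 𝔊.exists_rep t
  constructor
  · rintro ⟨m, hm⟩
    have h1 : fmem t'.1 (checkSet S) (𝔊.G (max n m)) :=
      fmem_congr_right (feq_mono hn (𝔊.anti (le_max_left _ _)))
        (fmem_mono hm (𝔊.anti (le_max_right _ _)))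
    obtain ⟨k, ⟨a, ha⟩ | hk⟩ := hD t'.1 t'.2
    · refine ⟨a, ?_, ⟨t', rfl, k, ha⟩⟩
      have h2 := fmem_congr_left (feq_mono ha (𝔊.anti (le_max_left k (max n m))))
        (fmem_mono h1 (𝔊.anti (le_max_right k (max n m))))
      exact fmem_check_checkSet.1 h2
    · obtain ⟨r, hr, x, _, h2⟩ := fmem_checkSet.1 h1 (𝔊.G (max k (max n m)))
        (𝔊.anti (le_max_right _ _))
      exact absurd h2 (hk x r (hr.trans (𝔊.anti (le_max_left _ _))))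
  · rintro ⟨x, hx, h1⟩
    obtain ⟨m, hm⟩ := rep_cls_iff.1 h1
    refine ⟨max n m, ?_⟩
    refine fmem_congr_right (feq_symm (feq_mono hn (𝔊.anti (le_max_left _ _)))) ?_
    exact fmem_congr_left (feq_symm (feq_mono hm (𝔊.anti (le_max_right _ _))))
      (fmem_check_of_mem hx _)

lemma E_rep_check (hD : DecC W 𝔊) {a : W} {z t : 𝔊.M} (hz : Rep 𝔊 z (check a)) :
    𝔊.E t z ↔ ∃ x < a, Rep 𝔊 t (check x) := by
  rw [check_eq] at hz
  exact E_rep_checkSet hD hz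

lemma E_iff_lt (hD : DecC W 𝔊) {a b : W} {z t : 𝔊.M} (ht : Rep 𝔊 t (check a))
    (hz : Rep 𝔊 z (check b)) : 𝔊.E t z ↔ a < b := by
  rw [E_rep_check hD hz]
  constructor
  · rintro ⟨x, hx, h⟩
    rw [ht.check_inj h]; exact hx
  · exact fun h => ⟨a, h, ht⟩

end model

end check

end Pool.Agent.KTM
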