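import Pool.Agent.Lib_MP_bf47cd.CDefs

/-!
# H17-C03: functions and subsets of the model are given by functions valued in the forcing
-/

set_option linter.unusedSectionVars false
set_option linter.unusedVariables false

namespace Pool.Agent.KTM

universe u

open Pool.Agent.Forcing Pool.Agent.Forcing.Name Pool.Agent.Inner Set Cardinal Pool.Agent.KT

/-! ### auxiliary facts -/

section C03aux
variable {T W : Type u} [Preorder T] [OrderTop T] [LinearOrder W] [WellFoundedLT W]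

private lemma c03_forall2 {𝔊 : Gen T} {l : List 𝔊.M} {l' : List (Name T)}
    (h : List.Forall₂ (Rep 𝔊) l l') :
    ∃ (L : List 𝔊.N) (n : ℕ), L.map 𝔊.cls = l ∧
      List.Forall₂ (fun x y => feq x y (𝔊.G n)) (L.map Subtype.val) l' := by
  induction h with
  | nil => exact ⟨[], 0, rfl, .nil⟩
  | cons h1 _ ih =>
    obtain ⟨L, n, h2, h3⟩ := ih
    obtain ⟨z, hz, m, hm⟩ := h1
    refine ⟨z :: L, max n m, ?_, ?_⟩
    · rw [List.map_cons, hz, h2]
    · exact .cons (feq_mono hm (𝔊.anti (le_max_right _ _)))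
        (h3.imp fun x y hxy => feq_mono hxy (𝔊.anti (le_max_left _ _)))

/-- truth lemma for elements with given names -/
lemma c03_truth {R : Fam.{u+1}} (hR : FO R) {𝔊 : Gen T} (hF : Full W 𝔊) {l : List 𝔊.M}
    {l' : List (Name T)} (h : List.Forall₂ (Rep 𝔊) l l') :
    R 𝔊.M 𝔊.E (ev hF.rich.om l) ↔ ∃ n, Frc R (ev omegaName l') (𝔊.G n) := by
  obtain ⟨L, n, rfl, h2⟩ := c03_forall2 h
  refine (truth_list hR 𝔊 L ⟨omegaName, hF.rich.omega_mem⟩).trans ?_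
  constructor
  · rintro ⟨m, hm⟩
    exact ⟨max n m, frc_congr_list (h2.imp fun x y hxy => feq_mono hxy
      (𝔊.anti (le_max_left _ _))) (hm.mono (𝔊.anti (le_max_right _ _)))⟩
  · rintro ⟨m, hm⟩
    refine ⟨max n m, frc_congr_list ?_ (hm.mono (𝔊.anti (le_max_right _ _)))⟩
    exact List.Forall₂.flip (h2.imp fun x y hxy => feq_symm (feq_mono hxy
      (𝔊.anti (le_max_left _ _))))

variable (W) in
/-- forced equality from equality in full models -/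
lemma c03_feq {x y : Name T} {p : T} (S : Set (Name T)) (hS : S.Countable)
    (h : ∀ (𝔊 : Gen T) (hF : Full W 𝔊), 𝔊.G 0 ≤ p → S ⊆ 𝔊.N →
      ∀ (hx : x ∈ 𝔊.N) (hy : y ∈ 𝔊.N), 𝔊.cls ⟨x, hx⟩ = 𝔊.cls ⟨y, hy⟩) : feq x y p := by
  have h1 : Frc (fun _ _ v => v 0 = v 1) (ev omegaName [x, y]) p := by
    refine frc_full W (FO.eq 0 1) [x, y] p S hS ?_
    intro 𝔊 hF h0 hSN hl
    exact h 𝔊 hF h0 hSN (hl x (by simp)) (hl y (by simp))
  exact h1.force (φ := .eq 0 1) (fun M E v => Iff.rfl)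

/-- the property: `v 0` maps `v 1` to `v 2` -/
private abbrev CV : Fam.{u+1} := fun _ E v => Val E (v 0) (v 1) (v 2)

private lemma fo_CV : FO CV.{u} := FO.val _ _ _

/-- membership of elements with given names -/
lemma c03_mem {𝔊 : Gen T} {u y : 𝔊.M} {s t : Name T} (hu : Rep 𝔊 u s) (hy : Rep 𝔊 y t) :
    𝔊.E u y ↔ ∃ n, fmem s t (𝔊.G n) := by
  obtain ⟨u', rfl, n, hn⟩ := hu
  obtain ⟨y', rfl, m, hm⟩ := hy
  constructor
  · rintro ⟨k, hk⟩
    refine ⟨max k (max n m), ?_⟩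
    exact fmem_congr_right (feq_mono hm (𝔊.anti (by omega)))
      (fmem_congr_left (feq_mono hn (𝔊.anti (by omega))) (fmem_mono hk (𝔊.anti (by omega))))
  · rintro ⟨k, hk⟩
    refine ⟨max k (max n m), ?_⟩
    exact fmem_congr_right (feq_symm (feq_mono hm (𝔊.anti (by omega))))
      (fmem_congr_left (feq_symm (feq_mono hn (𝔊.anti (by omega))))
        (fmem_mono hk (𝔊.anti (by omega))))

variable {A B : Type u} {eA : A → W} {eB : B → W}

/-- values of the function named by `pfN`, when this name is listed -/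
lemma c03_val {𝔊 : Gen T} (hR : Rich 𝔊) {X : PF T A B} (h : pfN eA eB X ∈ 𝔊.N) {u v : 𝔊.M} :
    Val 𝔊.E (𝔊.cls ⟨pfN eA eB X, h⟩) u v ↔ ∃ a b n, Rep 𝔊 u (check (eA a)) ∧
      Rep 𝔊 v (check (eB b)) ∧ X.val a b (𝔊.G n) := by
  refine (val_mk hR (A := fun t : {t : A × B × T // X.val t.1 t.2.1 t.2.2} => check (eA t.1.1))
    (B := fun t => check (eB t.1.2.1)) (c := fun t => t.1.2.2) h).trans ?_
  constructor
  · rintro ⟨⟨⟨a, b, p⟩, hX⟩, n, h1, h2, h3⟩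
    exact ⟨a, b, n, h2, h3, X.mono a b p _ h1 hX⟩
  · rintro ⟨a, b, n, h2, h3, h4⟩
    exact ⟨⟨(a, b, 𝔊.G n), h4⟩, n, le_rfl, h2, h3⟩

lemma c03_pair {𝔊 : Gen T} (hR : Rich 𝔊) {X : PF T A B} (h : pfN eA eB X ∈ 𝔊.N) {z : 𝔊.M}
    (hz : 𝔊.E z (𝔊.cls ⟨pfN eA eB X, h⟩)) :
    ∃ u v, IsPair 𝔊.E z u v ∧ Val 𝔊.E (𝔊.cls ⟨pfN eA eB X, h⟩) u v :=
  isPair_of_mem_mk hR (A := fun t : {t : A × B × T // X.val t.1 t.2.1 t.2.2} =>
    check (eA t.1.1)) (B := fun t => check (eB t.1.2.1)) (c := fun t => t.1.2.2) h hz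

lemma c03_E_of_val {𝔊 : Gen T} (hR : Rich 𝔊) {z f u v : 𝔊.M} (hz : IsPair 𝔊.E z u v)
    (h : Val 𝔊.E f u v) : 𝔊.E z f := by
  obtain ⟨z', h1, h2⟩ := h
  rw [isPair_iff hR.zfc] at h1 hz
  rw [hz, ← h1]; exact h2

/-- elements of the set named by `subN`, when this name is listed -/
lemma c03_E_subN {𝔊 : Gen T} (hR : Rich 𝔊) {S : PF T A (ULift.{u} Bool)}
    (h : subN eA S ∈ 𝔊.N) {u : 𝔊.M} :
    𝔊.E u (𝔊.cls ⟨subN eA S, h⟩) ↔ ∃ a n, Rep 𝔊 u (check (eA a)) ∧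
      S.val a ⟨true⟩ (𝔊.G n) := by
  refine (E_iff hR h).trans ?_
  constructor
  · rintro ⟨⟨⟨a, p⟩, hX⟩, n, h1, h2⟩
    exact ⟨a, n, h2, S.mono a ⟨true⟩ p _ h1 hX⟩
  · rintro ⟨a, n, h2, h4⟩
    exact ⟨⟨(a, 𝔊.G n), h4⟩, n, le_rfl, h2⟩

end C03aux

section
variable {T W A B : Type u} [Preorder T] [OrderTop T] [LinearOrder W] [WellFoundedLT W]
  {eA : A → W} {eB : B → W} (hA : Function.Injective eA) (hB : Function.Injective eB)
  {𝔊 : Gen T} (hF : Full W 𝔊)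
include hA hB hF

/-- values of a function of the model named by `pfN eA eB X` (the name need not be in `𝔊.N`): if
`Val y u v` then `u`, `v` are canonical by `hF.decC`, and the value is forced densely below some
`G n`; use `X.dense` -/
theorem val_rep {X : PF T A B} {y u v : 𝔊.M} (hy : Rep 𝔊 y (pfN eA eB X)) :
    Val 𝔊.E y u v ↔ ∃ a b n, Rep 𝔊 u (check (eA a)) ∧ Rep 𝔊 v (check (eB b)) ∧
      X.val a b (𝔊.G n) := by
  constructor
  · intro h
    obtain ⟨u', rfl⟩ := 𝔊.exists_rep u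
    obtain ⟨v', rfl⟩ := 𝔊.exists_rep v
    obtain ⟨n, hn⟩ := (c03_truth fo_CV hF (l := [y, 𝔊.cls u', 𝔊.cls v'])
      (l' := [pfN eA eB X, u'.1, v'.1])
      (.cons hy (.cons (rep_self u'.2) (.cons (rep_self v'.2) .nil)))).1 h
    have key : ∀ q ≤ 𝔊.G n, ∃ r ≤ q, ∃ a b, feq u'.1 (check (eA a)) r ∧
        feq v'.1 (check (eB b)) r ∧ X.val a b r := by
      intro q hq
      obtain ⟨𝔊', hF', h0, hSN⟩ := exists_full W
        ({pfN eA eB X, u'.1, v'.1} : Set (Name T)) (by simp) q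
      subst h0
      have hX : pfN eA eB X ∈ 𝔊'.N := hSN (by simp)
      have hu : u'.1 ∈ 𝔊'.N := hSN (by simp)
      have hv : v'.1 ∈ 𝔊'.N := hSN (by simp)
      have h1 : Val 𝔊'.E (𝔊'.cls ⟨_, hX⟩) (𝔊'.cls ⟨u'.1, hu⟩) (𝔊'.cls ⟨v'.1, hv⟩) :=
        (c03_truth fo_CV hF' (l := [𝔊'.cls ⟨_, hX⟩, 𝔊'.cls ⟨u'.1, hu⟩, 𝔊'.cls ⟨v'.1, hv⟩])
          (l' := [pfN eA eB X, u'.1, v'.1])
          (.cons (rep_self hX) (.cons (rep_self hu) (.cons (rep_self hv) .nil)))).2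
          ⟨0, hn.mono hq⟩
      obtain ⟨a, b, m, h2, h3, h4⟩ := (c03_val hF'.rich hX).1 h1
      obtain ⟨i, hi⟩ := rep_cls_iff.1 h2
      obtain ⟨j, hj⟩ := rep_cls_iff.1 h3
      refine ⟨𝔊'.G (max m (max i j)), 𝔊'.anti (Nat.zero_le _), a, b, ?_, ?_, ?_⟩
      · exact feq_mono hi (𝔊'.anti (by omega))
      · exact feq_mono hj (𝔊'.anti (by omega))
      · exact X.mono a b _ _ (𝔊'.anti (by omega)) h4
    obtain ⟨i, ⟨w, hw⟩ | hi⟩ := hF.decC u'.1 u'.2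
    · obtain ⟨j, ⟨w', hw'⟩ | hj⟩ := hF.decC v'.1 v'.2
      · obtain ⟨r, hr, a, b, h1, h2, h3⟩ := key (𝔊.G (max n (max i j))) (𝔊.anti (by omega))
        have e1 : w = eA a := by
          have := feq_trans (feq_symm (feq_mono hw (hr.trans (𝔊.anti
            (show i ≤ max n (max i j) by omega))))) h1
          exact feq_check_iff.1 this
        have e2 : w' = eB b := by
          have := feq_trans (feq_symm (feq_mono hw' (hr.trans (𝔊.anti
            (show j ≤ max n (max i j) by omega))))) h2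
          exact feq_check_iff.1 this
        subst e1; subst e2
        refine ⟨a, b, max n (max i j), rep_cls_iff.2 ⟨i, hw⟩, rep_cls_iff.2 ⟨j, hw'⟩, ?_⟩
        apply X.dense
        intro q hq
        obtain ⟨r', hr', a', b', h1', h2', h3'⟩ := key q (hq.trans (𝔊.anti (by omega)))
        have e1 : eA a = eA a' := by
          have := feq_trans (feq_symm (feq_mono hw ((hr'.trans hq).trans (𝔊.anti
            (show i ≤ max n (max i j) by omega))))) h1'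
          exact feq_check_iff.1 this
        have e2 : eB b = eB b' := by
          have := feq_trans (feq_symm (feq_mono hw' ((hr'.trans hq).trans (𝔊.anti
            (show j ≤ max n (max i j) by omega))))) h2'
          exact feq_check_iff.1 this
        rw [hA e1, hB e2]
        exact ⟨r', hr', h3'⟩
      · obtain ⟨r, hr, a, b, h1, h2, h3⟩ := key (𝔊.G (max n j)) (𝔊.anti (le_max_left _ _))
        exact absurd h2 (hj _ r (hr.trans (𝔊.anti (le_max_right _ _))))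
    · obtain ⟨r, hr, a, b, h1, h2, h3⟩ := key (𝔊.G (max n i)) (𝔊.anti (le_max_left _ _))
      exact absurd h1 (hi _ r (hr.trans (𝔊.anti (le_max_right _ _))))
  · rintro ⟨a, b, n, hu, hv, hX⟩
    refine (c03_truth fo_CV hF (l := [y, u, v])
      (l' := [pfN eA eB X, check (eA a), check (eB b)])
      (.cons hy (.cons hu (.cons hv .nil)))).2 ⟨n, ?_⟩
    refine frc_full W fo_CV _ _ ∅ (by simp) ?_
    intro 𝔊' hF' h0 _ hl
    have hXN := hl (pfN eA eB X) (by simp)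
    have haN := hl (check (eA a)) (by simp)
    have hbN := hl (check (eB b)) (by simp)
    change Val 𝔊'.E (𝔊'.cls ⟨_, hXN⟩) (𝔊'.cls ⟨_, haN⟩) (𝔊'.cls ⟨_, hbN⟩)
    exact (c03_val hF'.rich hXN).2 ⟨a, b, 0, rep_self haN, rep_self hbN,
      X.mono a b _ _ h0 hX⟩

/-- every argument has a value (density, `true_of_dense`) -/
theorem exists_val_rep {X : PF T A B} {y u : 𝔊.M} (hy : Rep 𝔊 y (pfN eA eB X)) (a : A)
    (hu : Rep 𝔊 u (check (eA a))) : ∃ b n v, Rep 𝔊 v (check (eB b)) ∧ Val 𝔊.E y u v ∧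
      X.val a b (𝔊.G n) := by
  have hfo : FO.{u+1} (fun _ E v => ∃ w, Val E (v 0) (v 1) w) := FO.ex (FO.val _ _ _)
  have h1 : Frc (fun _ E v => ∃ w, Val E (v 0) (v 1) w)
      (ev omegaName [pfN eA eB X, check (eA a)]) (𝔊.G 0) := by
    refine Frc.dense hfo fun q hq => ?_
    obtain ⟨r, hr, b, hb⟩ := X.total a q
    refine ⟨r, hr, ?_⟩
    refine frc_full W hfo _ _ {check (eB b)} (by simp) ?_
    intro 𝔊' hF' h0 hSN hl
    have hXN := hl (pfN eA eB X) (by simp)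
    have haN := hl (check (eA a)) (by simp)
    have hbN : check (eB b) ∈ 𝔊'.N := hSN (by simp)
    refine ⟨𝔊'.cls ⟨_, hbN⟩, ?_⟩
    change Val 𝔊'.E (𝔊'.cls ⟨_, hXN⟩) (𝔊'.cls ⟨_, haN⟩) (𝔊'.cls ⟨_, hbN⟩)
    exact (c03_val hF'.rich hXN).2 ⟨a, b, 0, rep_self haN, rep_self hbN,
      X.mono a b _ _ h0 hb⟩
  obtain ⟨v, hv⟩ := (c03_truth hfo hF (l := [y, u]) (l' := [pfN eA eB X, check (eA a)])
    (.cons hy (.cons hu .nil))).2 ⟨0, h1⟩
  have hv' : Val 𝔊.E y u v := hv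
  obtain ⟨a', b, n, h2, h3, h4⟩ := (val_rep hA hB hF hy).1 hv'
  have e : a = a' := hA (hu.check_inj h2)
  subst e
  exact ⟨b, n, v, h3, hv', h4⟩

theorem isPair_rep {X : PF T A B} {y z : 𝔊.M} (hy : Rep 𝔊 y (pfN eA eB X))
    (hz : 𝔊.E z y) : ∃ u v, IsPair 𝔊.E z u v := by
  have hfo : FO.{u+1} (fun _ E v => ∃ a b, IsPair E (v 0) a b) := FO.ex (FO.ex (FO.isPair _ _ _))
  obtain ⟨z', rfl⟩ := 𝔊.exists_rep z
  obtain ⟨n, hn⟩ := (c03_mem (rep_self z'.2) hy).1 hz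
  refine (c03_truth hfo hF (l := [𝔊.cls z']) (l' := [z'.1]) (.cons (rep_self z'.2) .nil)).2
    ⟨n, ?_⟩
  refine frc_full W hfo _ _ {pfN eA eB X} (by simp) ?_
  intro 𝔊' hF' h0 hSN hl
  have hzN := hl z'.1 (by simp)
  have hXN : pfN eA eB X ∈ 𝔊'.N := hSN (by simp)
  obtain ⟨u, v, h1, _⟩ := c03_pair hF'.rich hXN
    ((c03_mem (rep_self hzN) (rep_self hXN)).2 ⟨0, fmem_mono hn h0⟩)
  exact ⟨u, v, h1⟩

theorem isFun_rep {X : PF T A B} {y a0 b0 : 𝔊.M} (hy : Rep 𝔊 y (pfN eA eB X))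
    (ha : Rep 𝔊 a0 (checkSet (range eA))) (hb : Rep 𝔊 b0 (checkSet (range eB))) :
    IsFun 𝔊.E y a0 b0 := by
  constructor
  · intro z hz
    obtain ⟨u, v, huv⟩ := isPair_rep hA hB hF hy hz
    obtain ⟨a, b, n, h1, h2, _⟩ := (val_rep hA hB hF hy).1 (⟨z, huv, hz⟩ : Val 𝔊.E y u v)
    exact ⟨u, v, (E_rep_checkSet hF.decC ha).2 ⟨eA a, mem_range_self a, h1⟩,
      (E_rep_checkSet hF.decC hb).2 ⟨eB b, mem_range_self b, h2⟩, huv⟩
  · intro x hx
    obtain ⟨_, ⟨a, rfl⟩, hxa⟩ := (E_rep_checkSet hF.decC ha).1 hx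
    obtain ⟨b, n, v, h1, h2, h3⟩ := exists_val_rep hA hB hF hy a hxa
    refine ⟨v, h2, fun v' hv' => ?_⟩
    obtain ⟨a', b', m, h4, h5, h6⟩ := (val_rep hA hB hF hy).1 hv'
    have e : a = a' := hA (hxa.check_inj h4)
    subst e
    have e : b = b' := X.uniq a b b' (𝔊.G (max n m)) (X.mono a b _ _ (𝔊.anti (by omega)) h3)
      (X.mono a b' _ _ (𝔊.anti (by omega)) h6)
    subst e
    exact h5.unique h1

/-- every function of the model between `range eA` and `range eB` is named by some `pfN eA eB X`.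
(`y = cls z`, some `G n` forces `IsFun`; `X` from `PF.exists_ofDense_below (G n)` with
`v a b q := Frc (Val) [check a, check b, z] q`; equality of the names is checked in all full
models below `G n`.) -/
theorem exists_rep_fun [Nonempty B] {y a0 b0 : 𝔊.M} (h : IsFun 𝔊.E y a0 b0)
    (ha : Rep 𝔊 a0 (checkSet (range eA))) (hb : Rep 𝔊 b0 (checkSet (range eB))) :
    ∃ X : PF T A B, Rep 𝔊 y (pfN eA eB X) := by
  have hfo : FO.{u+1} (fun _ E v => IsFun E (v 0) (v 1) (v 2)) := FO.isFun _ _ _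
  obtain ⟨z, rfl⟩ := 𝔊.exists_rep y
  obtain ⟨n, hn⟩ := (c03_truth hfo hF (l := [𝔊.cls z, a0, b0])
    (l' := [z.1, checkSet (range eA), checkSet (range eB)])
    (.cons (rep_self z.2) (.cons ha (.cons hb .nil)))).1 h
  -- `z` is a function in every full model below `G n`
  have hfun : ∀ (𝔊' : Gen T) (hF' : Full W 𝔊'), 𝔊'.G 0 ≤ 𝔊.G n → ∀ {y a b : 𝔊'.M},
      Rep 𝔊' y z.1 → Rep 𝔊' a (checkSet (range eA)) → Rep 𝔊' b (checkSet (range eB)) →
      IsFun 𝔊'.E y a b := by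
    intro 𝔊' hF' h0 y a b hy ha hb
    exact (c03_truth hfo hF' (l := [y, a, b])
      (l' := [z.1, checkSet (range eA), checkSet (range eB)])
      (.cons hy (.cons ha (.cons hb .nil)))).2 ⟨0, hn.mono h0⟩
  have hval : ∀ (𝔊' : Gen T) (hF' : Full W 𝔊') {y u v : 𝔊'.M} {a : A} {b : B},
      Rep 𝔊' y z.1 → Rep 𝔊' u (check (eA a)) → Rep 𝔊' v (check (eB b)) →
      (Val 𝔊'.E y u v ↔ ∃ n, Frc CV (ev omegaName [z.1, check (eA a), check (eB b)])
        (𝔊'.G n)) := by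
    intro 𝔊' hF' y u v a b hy hu hv
    exact c03_truth fo_CV hF' (l := [y, u, v]) (l' := [z.1, check (eA a), check (eB b)])
      (.cons hy (.cons hu (.cons hv .nil)))
  obtain ⟨X, hX1, hX2⟩ := PF.exists_ofDense_below (𝔊.G n)
    (fun a b q => Frc CV (ev omegaName [z.1, check (eA a), check (eB b)]) q)
    (fun a b p q hq _ h => h.mono hq) (by
      intro a b b' p hp h1 h2
      obtain ⟨𝔊', hF', h0, hSN⟩ := exists_full W ({z.1, checkSet (range eA),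
        checkSet (range eB), check (eA a), check (eB b), check (eB b')} : Set (Name T))
        (by simp) p
      subst h0
      have hzN : z.1 ∈ 𝔊'.N := hSN (by simp)
      have hAN : checkSet (range eA) ∈ 𝔊'.N := hSN (by simp)
      have hBN : checkSet (range eB) ∈ 𝔊'.N := hSN (by simp)
      have haN : check (eA a) ∈ 𝔊'.N := hSN (by simp)
      have hbN : check (eB b) ∈ 𝔊'.N := hSN (by simp)
      have hbN' : check (eB b') ∈ 𝔊'.N := hSN (by simp)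
      have hf := hfun 𝔊' hF' hp (rep_self hzN) (rep_self hAN) (rep_self hBN)
      have v1 := (hval 𝔊' hF' (rep_self hzN) (rep_self haN) (rep_self hbN)).2 ⟨0, h1⟩
      have v2 := (hval 𝔊' hF' (rep_self hzN) (rep_self haN) (rep_self hbN')).2 ⟨0, h2⟩
      obtain ⟨w, _, hw⟩ := hf.2 _ (isFun_mem hF'.rich.zfc hf v1).1
      have e : 𝔊'.cls ⟨_, hbN⟩ = 𝔊'.cls ⟨_, hbN'⟩ := (hw _ v1).trans (hw _ v2).symm
      have h3 : Rep 𝔊' (𝔊'.cls ⟨_, hbN⟩) (check (eB b')) := by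
        rw [e]; exact rep_self hbN'
      exact hB ((rep_self hbN).check_inj h3)) (by
      intro a p hp
      obtain ⟨𝔊', hF', h0, hSN⟩ := exists_full W ({z.1, checkSet (range eA),
        checkSet (range eB), check (eA a)} : Set (Name T)) (by simp) p
      subst h0
      have hzN : z.1 ∈ 𝔊'.N := hSN (by simp)
      have hAN : checkSet (range eA) ∈ 𝔊'.N := hSN (by simp)
      have hBN : checkSet (range eB) ∈ 𝔊'.N := hSN (by simp)
      have haN : check (eA a) ∈ 𝔊'.N := hSN (by simp)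
      have hf := hfun 𝔊' hF' hp (rep_self hzN) (rep_self hAN) (rep_self hBN)
      obtain ⟨v, hv, _⟩ := hf.2 (𝔊'.cls ⟨_, haN⟩)
        ((E_rep_checkSet hF'.decC (rep_self hAN)).2 ⟨eA a, mem_range_self a, rep_self haN⟩)
      obtain ⟨_, ⟨b, rfl⟩, hvb⟩ := (E_rep_checkSet hF'.decC (rep_self hBN)).1
        (isFun_mem hF'.rich.zfc hf hv).2
      obtain ⟨m, hm⟩ := (hval 𝔊' hF' (rep_self hzN) (rep_self haN) hvb).1 hv
      exact ⟨𝔊'.G m, 𝔊'.anti (Nat.zero_le _), b, hm⟩)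
  refine ⟨X, rep_cls_iff.2 ⟨n, ?_⟩⟩
  refine c03_feq W {checkSet (range eA), checkSet (range eB)} (by simp) ?_
  intro 𝔊' hF' h0 hSN hzN hXN
  have hAN : checkSet (range eA) ∈ 𝔊'.N := hSN (by simp)
  have hBN : checkSet (range eB) ∈ 𝔊'.N := hSN (by simp)
  have hf := hfun 𝔊' hF' h0 (rep_self hzN) (rep_self hAN) (rep_self hBN)
  refine ext hF'.rich.zfc fun t => ?_
  constructor
  · intro ht
    obtain ⟨u, v, hu, hv, huv⟩ := hf.1 t ht
    obtain ⟨_, ⟨a, rfl⟩, hua⟩ := (E_rep_checkSet hF'.decC (rep_self hAN)).1 hu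
    obtain ⟨_, ⟨b, rfl⟩, hvb⟩ := (E_rep_checkSet hF'.decC (rep_self hBN)).1 hv
    obtain ⟨m, hm⟩ := (hval 𝔊' hF' (rep_self hzN) hua hvb).1 ⟨t, huv, ht⟩
    exact c03_E_of_val hF'.rich huv ((c03_val hF'.rich hXN).2 ⟨a, b, m, hua, hvb,
      hX2 a b _ ((𝔊'.anti (Nat.zero_le m)).trans h0) hm⟩)
  · intro ht
    obtain ⟨u, v, huv, hval'⟩ := c03_pair hF'.rich hXN ht
    obtain ⟨a, b, m, hua, hvb, hX⟩ := (c03_val hF'.rich hXN).1 hval'
    refine c03_E_of_val hF'.rich huv ((hval 𝔊' hF' (rep_self hzN) hua hvb).2 ⟨m, ?_⟩)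
    exact Frc.dense fo_CV ((hX1 a b _ ((𝔊'.anti (Nat.zero_le m)).trans h0)).1 hX)

omit hF in
private lemma c03_agree {X X' : PF T A B} {S : Set A} {p : T}
    (h : Frc (fun _ E v => Agree E (v 0) (v 1) (v 2))
      (ev omegaName [checkSet (eA '' S), pfN eA eB X, pfN eA eB X']) p) :
    PF.EqOn X X' S p := by
  have hfo : FO.{u+1} (fun _ E v => Agree E (v 0) (v 1) (v 2)) := FOx.agree _ _ _
  refine PF.EqOn.of_imp fun a ha b r hr hX => X'.dense a b r fun q hq => ?_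
  obtain ⟨𝔊', hF', h0, hSN⟩ := exists_full W ({checkSet (eA '' S), pfN eA eB X,
    pfN eA eB X', check (eA a), check (eB b)} : Set (Name T)) (by simp) q
  subst h0
  have hSN' : checkSet (eA '' S) ∈ 𝔊'.N := hSN (by simp)
  have hXN : pfN eA eB X ∈ 𝔊'.N := hSN (by simp)
  have hXN' : pfN eA eB X' ∈ 𝔊'.N := hSN (by simp)
  have haN : check (eA a) ∈ 𝔊'.N := hSN (by simp)
  have hbN : check (eB b) ∈ 𝔊'.N := hSN (by simp)
  have h1 : Agree 𝔊'.E (𝔊'.cls ⟨_, hSN'⟩) (𝔊'.cls ⟨_, hXN⟩) (𝔊'.cls ⟨_, hXN'⟩) :=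
    (c03_truth hfo hF' (l := [𝔊'.cls ⟨_, hSN'⟩, 𝔊'.cls ⟨_, hXN⟩, 𝔊'.cls ⟨_, hXN'⟩])
      (l' := [checkSet (eA '' S), pfN eA eB X, pfN eA eB X'])
      (.cons (rep_self hSN') (.cons (rep_self hXN) (.cons (rep_self hXN') .nil)))).2
      ⟨0, h.mono (hq.trans hr)⟩
  have h2 := (h1 (𝔊'.cls ⟨_, haN⟩) ((E_rep_checkSet hF'.decC (rep_self hSN')).2
    ⟨eA a, mem_image_of_mem eA ha, rep_self haN⟩) (𝔊'.cls ⟨_, hbN⟩)).1
    ((c03_val hF'.rich hXN).2 ⟨a, b, 0, rep_self haN, rep_self hbN, X.mono a b _ _ hq hX⟩)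
  obtain ⟨a', b', m, h3, h4, h5⟩ := (c03_val hF'.rich hXN').1 h2
  rw [hA ((rep_self haN).check_inj h3), hB ((rep_self hbN).check_inj h4)]
  exact ⟨𝔊'.G m, 𝔊'.anti (Nat.zero_le _), h5⟩

/-- forced agreement of `X` and `X'` on `S ⊆ A` is agreement in the model -/
theorem agree_iff {X X' : PF T A B} {y y' b : 𝔊.M} {S : Set A}
    (hy : Rep 𝔊 y (pfN eA eB X)) (hy' : Rep 𝔊 y' (pfN eA eB X'))
    (hb : Rep 𝔊 b (checkSet (eA '' S))) :
    Agree 𝔊.E b y y' ↔ ∃ n, PF.EqOn X X' S (𝔊.G n) := by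
  have hfo : FO.{u+1} (fun _ E v => Agree E (v 0) (v 1) (v 2)) := FOx.agree _ _ _
  constructor
  · intro h
    obtain ⟨n, hn⟩ := (c03_truth hfo hF (l := [b, y, y'])
      (l' := [checkSet (eA '' S), pfN eA eB X, pfN eA eB X'])
      (.cons hb (.cons hy (.cons hy' .nil)))).1 h
    exact ⟨n, c03_agree hA hB hn⟩
  · rintro ⟨n, hn⟩ c hc v
    obtain ⟨_, ⟨a, ha, rfl⟩, hca⟩ := (E_rep_checkSet hF.decC hb).1 hc
    rw [val_rep hA hB hF hy, val_rep hA hB hF hy']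
    constructor
    · rintro ⟨a', b', m, h1, h2, h3⟩
      have e : a = a' := hA (hca.check_inj h1)
      subst e
      exact ⟨a, b', max n m, h1, h2, (hn a ha b' _ (𝔊.anti (le_max_left _ _))).1
        (X.mono a b' _ _ (𝔊.anti (le_max_right _ _)) h3)⟩
    · rintro ⟨a', b', m, h1, h2, h3⟩
      have e : a = a' := hA (hca.check_inj h1)
      subst e
      exact ⟨a, b', max n m, h1, h2, (hn a ha b' _ (𝔊.anti (le_max_left _ _))).2
        (X'.mono a b' _ _ (𝔊.anti (le_max_right _ _)) h3)⟩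

end

section
variable {T W A B : Type u} [Preorder T] [OrderTop T] [LinearOrder W] [WellFoundedLT W]
  {eA : A → W} {eB : B → W} (hA : Function.Injective eA) (hB : Function.Injective eB)
include hA hB

private lemma c03_feq_pfN {X X' : PF T A B} {p : T} :
    feq (pfN eA eB X) (pfN eA eB X') p ↔ PF.EqOn X X' univ p := by
  constructor
  · intro h
    refine PF.EqOn.of_imp fun a _ b r hr hX => X'.dense a b r fun q hq => ?_
    obtain ⟨𝔊', hF', h0, hSN⟩ := exists_full W ({pfN eA eB X,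
      pfN eA eB X', check (eA a), check (eB b)} : Set (Name T)) (by simp) q
    subst h0
    have hXN : pfN eA eB X ∈ 𝔊'.N := hSN (by simp)
    have hXN' : pfN eA eB X' ∈ 𝔊'.N := hSN (by simp)
    have haN : check (eA a) ∈ 𝔊'.N := hSN (by simp)
    have hbN : check (eB b) ∈ 𝔊'.N := hSN (by simp)
    have e : 𝔊'.cls ⟨_, hXN⟩ = 𝔊'.cls ⟨_, hXN'⟩ :=
      (𝔊'.cls_eq).2 ⟨0, feq_mono h (hq.trans hr)⟩
    have h2 : Val 𝔊'.E (𝔊'.cls ⟨_, hXN⟩) (𝔊'.cls ⟨_, haN⟩) (𝔊'.cls ⟨_, hbN⟩) :=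
      (c03_val hF'.rich hXN).2 ⟨a, b, 0, rep_self haN, rep_self hbN, X.mono a b _ _ hq hX⟩
    rw [e] at h2
    obtain ⟨a', b', m, h3, h4, h5⟩ := (c03_val hF'.rich hXN').1 h2
    rw [hA ((rep_self haN).check_inj h3), hB ((rep_self hbN).check_inj h4)]
    exact ⟨𝔊'.G m, 𝔊'.anti (Nat.zero_le _), h5⟩
  · intro h
    refine c03_feq W ∅ (by simp) ?_
    intro 𝔊' hF' h0 _ hXN hXN'
    refine ext hF'.rich.zfc fun t => ?_
    constructor
    · intro ht
      obtain ⟨u, v, huv, hval⟩ := c03_pair hF'.rich hXN ht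
      obtain ⟨a, b, m, hua, hvb, hX⟩ := (c03_val hF'.rich hXN).1 hval
      exact c03_E_of_val hF'.rich huv ((c03_val hF'.rich hXN').2 ⟨a, b, m, hua, hvb,
        (h a (mem_univ a) b _ ((𝔊'.anti (Nat.zero_le m)).trans h0)).1 hX⟩)
    · intro ht
      obtain ⟨u, v, huv, hval⟩ := c03_pair hF'.rich hXN' ht
      obtain ⟨a, b, m, hua, hvb, hX⟩ := (c03_val hF'.rich hXN').1 hval
      exact c03_E_of_val hF'.rich huv ((c03_val hF'.rich hXN).2 ⟨a, b, m, hua, hvb,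
        (h a (mem_univ a) b _ ((𝔊'.anti (Nat.zero_le m)).trans h0)).2 hX⟩)

end

section
variable {T W A B : Type u} [Preorder T] [OrderTop T] [LinearOrder W] [WellFoundedLT W]
  {eA : A → W} {eB : B → W} (hA : Function.Injective eA) (hB : Function.Injective eB)
  {𝔊 : Gen T} (hF : Full W 𝔊)
include hA hB hF

theorem eq_iff {X X' : PF T A B} {y y' : 𝔊.M} (hy : Rep 𝔊 y (pfN eA eB X))
    (hy' : Rep 𝔊 y' (pfN eA eB X')) : y = y' ↔ ∃ n, PF.EqOn X X' univ (𝔊.G n) := by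
  constructor
  · rintro rfl
    obtain ⟨n, hn⟩ := hy.feq hy'
    exact ⟨n, (c03_feq_pfN hA hB).1 hn⟩
  · rintro ⟨n, hn⟩
    exact (hy.congr ((c03_feq_pfN hA hB).2 hn)).unique hy'

theorem inj_iff {X : PF T A B} {y : 𝔊.M} (hy : Rep 𝔊 y (pfN eA eB X)) :
    (∀ u u' v, Val 𝔊.E y u v → Val 𝔊.E y u' v → u = u') ↔ ∃ n, InjP X (𝔊.G n) := by
  have hfo : FO.{u+1} (fun _ E w => ∀ u u' v, Val E (w 0) u v → Val E (w 0) u' v → u = u') :=
    FO.all (FO.all (FO.all (FO.imp (FO.val _ _ _) (FO.imp (FO.val _ _ _) (FO.eq _ _)))))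
  constructor
  · intro h
    obtain ⟨n, hn⟩ := (c03_truth hfo hF (l := [y]) (l' := [pfN eA eB X]) (.cons hy .nil)).1 h
    refine ⟨n, ?_⟩
    intro a a' b r hr h1 h2
    obtain ⟨𝔊', hF', h0, hSN⟩ := exists_full W ({pfN eA eB X,
      check (eA a), check (eA a'), check (eB b)} : Set (Name T)) (by simp) r
    subst h0
    have hXN : pfN eA eB X ∈ 𝔊'.N := hSN (by simp)
    have haN : check (eA a) ∈ 𝔊'.N := hSN (by simp)
    have haN' : check (eA a') ∈ 𝔊'.N := hSN (by simp)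
    have hbN : check (eB b) ∈ 𝔊'.N := hSN (by simp)
    have h3 : ∀ u u' v, Val 𝔊'.E (𝔊'.cls ⟨_, hXN⟩) u v → Val 𝔊'.E (𝔊'.cls ⟨_, hXN⟩) u' v →
        u = u' :=
      (c03_truth hfo hF' (l := [𝔊'.cls ⟨_, hXN⟩]) (l' := [pfN eA eB X])
        (.cons (rep_self hXN) .nil)).2 ⟨0, hn.mono hr⟩
    have e := h3 (𝔊'.cls ⟨_, haN⟩) (𝔊'.cls ⟨_, haN'⟩) (𝔊'.cls ⟨_, hbN⟩)
      ((c03_val hF'.rich hXN).2 ⟨a, b, 0, rep_self haN, rep_self hbN, h1⟩)
      ((c03_val hF'.rich hXN).2 ⟨a', b, 0, rep_self haN', rep_self hbN, h2⟩)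
    have h4 : Rep 𝔊' (𝔊'.cls ⟨_, haN⟩) (check (eA a')) := by
      rw [e]; exact rep_self haN'
    exact hA ((rep_self haN).check_inj h4)
  · rintro ⟨n, hn⟩ u u' v h1 h2
    obtain ⟨a, b, m, h3, h4, h5⟩ := (val_rep hA hB hF hy).1 h1
    obtain ⟨a', b', m', h3', h4', h5'⟩ := (val_rep hA hB hF hy).1 h2
    have e : b = b' := hB (h4.check_inj h4')
    subst e
    have e : a = a' := hn a a' b (𝔊.G (max n (max m m'))) (𝔊.anti (by omega))
      (X.mono a b _ _ (𝔊.anti (by omega)) h5) (X.mono a' b _ _ (𝔊.anti (by omega)) h5')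
    subst e
    exact h3.unique h3'

end

section
variable {T W A B : Type u} [Preorder T] [OrderTop T] [LinearOrder W] [WellFoundedLT W]
  {eA : A → W} {eB : B → W} (hA : Function.Injective eA) (hB : Function.Injective eB)
include hA hB

theorem feq_pfN_iff {X X' : PF T A B} {p : T} :
    feq (pfN eA eB X) (pfN eA eB X') p ↔ PF.EqOn X X' univ p :=
  c03_feq_pfN hA hB

end

section
variable {T W A : Type u} [Preorder T] [OrderTop T] [LinearOrder W] [WellFoundedLT W]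
  {eA : A → W} (hA : Function.Injective eA) {𝔊 : Gen T} (hF : Full W 𝔊)
include hA hF

/-- elements of a subset named by `subN eA S` -/
theorem E_rep_subN {S : PF T A (ULift.{u} Bool)} {y u : 𝔊.M} (hy : Rep 𝔊 y (subN eA S)) :
    𝔊.E u y ↔ ∃ a n, Rep 𝔊 u (check (eA a)) ∧ S.val a ⟨true⟩ (𝔊.G n) := by
  constructor
  · intro h
    obtain ⟨u', rfl⟩ := 𝔊.exists_rep u
    obtain ⟨n, hn⟩ := (c03_mem (rep_self u'.2) hy).1 h
    have key : ∀ q ≤ 𝔊.G n, ∃ r ≤ q, ∃ a, feq u'.1 (check (eA a)) r ∧ S.val a ⟨true⟩ r := by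
      intro q hq
      obtain ⟨𝔊', hF', h0, hSN⟩ := exists_full W
        ({subN eA S, u'.1} : Set (Name T)) (by simp) q
      subst h0
      have hX : subN eA S ∈ 𝔊'.N := hSN (by simp)
      have hu : u'.1 ∈ 𝔊'.N := hSN (by simp)
      obtain ⟨a, m, h2, h4⟩ := (c03_E_subN hF'.rich hX).1
        ((c03_mem (rep_self hu) (rep_self hX)).2 ⟨0, fmem_mono hn hq⟩)
      obtain ⟨i, hi⟩ := rep_cls_iff.1 h2
      exact ⟨𝔊'.G (max m i), 𝔊'.anti (Nat.zero_le _), a, feq_mono hi (𝔊'.anti (by omega)),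
        S.mono a _ _ _ (𝔊'.anti (by omega)) h4⟩
    obtain ⟨i, ⟨w, hw⟩ | hi⟩ := hF.decC u'.1 u'.2
    · obtain ⟨r, hr, a, h1, h3⟩ := key (𝔊.G (max n i)) (𝔊.anti (le_max_left _ _))
      have e1 : w = eA a := by
        have := feq_trans (feq_symm (feq_mono hw (hr.trans (𝔊.anti (le_max_right n i))))) h1
        exact feq_check_iff.1 this
      subst e1
      refine ⟨a, max n i, rep_cls_iff.2 ⟨i, hw⟩, ?_⟩
      apply S.dense
      intro q hq
      obtain ⟨r', hr', a', h1', h3'⟩ := key q (hq.trans (𝔊.anti (le_max_left _ _)))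
      have e1 : eA a = eA a' := by
        have := feq_trans (feq_symm (feq_mono hw ((hr'.trans hq).trans
          (𝔊.anti (le_max_right n i))))) h1'
        exact feq_check_iff.1 this
      rw [hA e1]
      exact ⟨r', hr', h3'⟩
    · obtain ⟨r, hr, a, h1, h3⟩ := key (𝔊.G (max n i)) (𝔊.anti (le_max_left _ _))
      exact absurd h1 (hi _ r (hr.trans (𝔊.anti (le_max_right _ _))))
  · rintro ⟨a, n, hu, hX⟩
    refine (c03_mem hu hy).2 ⟨n, ?_⟩
    have h1 : Frc (fun _ E v => E (v 0) (v 1)) (ev omegaName [check (eA a), subN eA S])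
        (𝔊.G n) := by
      refine frc_full W (FO.mem 0 1) _ _ ∅ (by simp) ?_
      intro 𝔊' hF' h0 _ hl
      have haN := hl (check (eA a)) (by simp)
      have hXN := hl (subN eA S) (by simp)
      change 𝔊'.E (𝔊'.cls ⟨_, haN⟩) (𝔊'.cls ⟨_, hXN⟩)
      exact (c03_E_subN hF'.rich hXN).2 ⟨a, 0, rep_self haN, S.mono a _ _ _ h0 hX⟩
    exact h1.force (φ := .mem 0 1) (fun M E v => Iff.rfl)

/-- every subset of `range eA` in the model is named by some `subN eA S` -/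
theorem exists_rep_sub {y a0 : 𝔊.M} (h : Sub 𝔊.E y a0)
    (ha : Rep 𝔊 a0 (checkSet (range eA))) :
    ∃ S : PF T A (ULift.{u} Bool), Rep 𝔊 y (subN eA S) := by
  have hfo : FO.{u+1} (fun _ E v => Sub E (v 0) (v 1)) := FO.sub _ _
  obtain ⟨z, rfl⟩ := 𝔊.exists_rep y
  obtain ⟨n, hn⟩ := (c03_truth hfo hF (l := [𝔊.cls z, a0])
    (l' := [z.1, checkSet (range eA)]) (.cons (rep_self z.2) (.cons ha .nil))).1 h
  obtain ⟨S, hS1, hS2⟩ := PF.exists_ofDense (P := T) (A := A) (B := ULift.{u} Bool)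
    (fun a c q => (c.down = true ∧ fmem (check (eA a)) z.1 q) ∨
      (c.down = false ∧ ∀ r ≤ q, ¬ fmem (check (eA a)) z.1 r)) (by
      rintro a c p q hq (⟨h1, h2⟩ | ⟨h1, h2⟩)
      · exact Or.inl ⟨h1, fmem_mono h2 hq⟩
      · exact Or.inr ⟨h1, fun r hr => h2 r (hr.trans hq)⟩) (by
      rintro a ⟨c⟩ ⟨c'⟩ p (⟨h1, h2⟩ | ⟨h1, h2⟩) (⟨h3, h4⟩ | ⟨h3, h4⟩)
      · simp only at h1 h3
        rw [h1, h3]
      · exact absurd h2 (h4 p le_rfl)
      · exact absurd h4 (h2 p le_rfl)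
      · simp only at h1 h3
        rw [h1, h3]) (by
      intro a p
      by_cases hc : ∃ q ≤ p, fmem (check (eA a)) z.1 q
      · obtain ⟨q, hq, h1⟩ := hc
        exact ⟨q, hq, ⟨true⟩, Or.inl ⟨rfl, h1⟩⟩
      · push Not at hc
        exact ⟨p, le_rfl, ⟨false⟩, Or.inr ⟨rfl, hc⟩⟩)
  refine ⟨S, rep_cls_iff.2 ⟨n, ?_⟩⟩
  refine c03_feq W {checkSet (range eA)} (by simp) ?_
  intro 𝔊' hF' h0 hSN hzN hXN
  have hAN : checkSet (range eA) ∈ 𝔊'.N := hSN (by simp)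
  have hs : Sub 𝔊'.E (𝔊'.cls ⟨_, hzN⟩) (𝔊'.cls ⟨_, hAN⟩) :=
    (c03_truth hfo hF' (l := [𝔊'.cls ⟨_, hzN⟩, 𝔊'.cls ⟨_, hAN⟩])
      (l' := [z.1, checkSet (range eA)]) (.cons (rep_self hzN) (.cons (rep_self hAN) .nil))).2
      ⟨0, hn.mono h0⟩
  refine ext hF'.rich.zfc fun t => ?_
  constructor
  · intro ht
    obtain ⟨_, ⟨a, rfl⟩, hta⟩ := (E_rep_checkSet hF'.decC (rep_self hAN)).1 (hs t ht)
    obtain ⟨m, hm⟩ := (c03_mem hta (rep_self hzN)).1 ht
    exact (c03_E_subN hF'.rich hXN).2 ⟨a, m, hta, hS2 a ⟨true⟩ _ (Or.inl ⟨rfl, hm⟩)⟩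
  · intro ht
    obtain ⟨a, m, hta, hX⟩ := (c03_E_subN hF'.rich hXN).1 ht
    refine (c03_mem hta (rep_self hzN)).2 ⟨m, fmem_dense fun q hq => ?_⟩
    obtain ⟨r, hr, h1 | h1⟩ := (hS1 a ⟨true⟩ _).1 hX q hq
    · exact ⟨r, hr, h1.2⟩
    · exact absurd h1.1 (by simp)

end

end Pool.Agent.KTM
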