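import Pool.Agent.Lib_MP_bf47cd.C03
import Pool.Agent.Lib_MP_bf47cd.C03z

/-!
# H17-C04: nodes, trees, branches
-/

set_option linter.unusedSectionVars false
set_option linter.unusedVariables false

namespace Pool.Agent.KTM

universe u

open Pool.Agent.Forcing Pool.Agent.Forcing.Name Pool.Agent.Inner Set Cardinal Pool.Agent.KT

section
variable {T W K I : Type u} [Preorder T] [OrderTop T] [LinearOrder W] [WellFoundedLT W]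
  [LinearOrder K] [LinearOrder I] {eK : K → W} {kW : W}

/-- the section of `Y` at the node `i` of level `η` -/
private def C04_sec (Y : PF T (K × I × K) K) (η : K) (i : I) : PF T (Iio η) K where
  val e b q := Y.val (η, i, e.1) b q
  mono e b p q h hv := Y.mono _ _ p q h hv
  dense e b p h := Y.dense _ _ p h
  uniq e b b' p h h' := Y.uniq _ _ _ p h h'
  total e p := Y.total _ p

private theorem C04_feq (eK : K → W) (Y : PF T (K × I × K) K) (η : K) (i : I) (p : T) :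
    feq (nodeN eK Y η i) (pfN (fun e : Iio η => eK e.1) eK (C04_sec Y η i)) p := by
  rw [feq_def]
  constructor
  · rintro ⟨⟨e, b, c⟩, he, hY⟩ q hq hc
    exact ⟨q, le_rfl, ⟨(⟨e, he⟩, b, c), hY⟩, hc, feq_refl _ _⟩
  · rintro ⟨⟨⟨e, he⟩, b, c⟩, hY⟩ q hq hc
    exact ⟨q, le_rfl, ⟨(e, b, c), he, hY⟩, hc, feq_refl _ _⟩

private theorem C04_range (hK : StrictMono eK) (hKr : range eK = Iio kW) (η : K) :
    range (fun e : Iio η => eK e.1) = Iio (eK η) := by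
  ext w
  constructor
  · rintro ⟨e, rfl⟩
    exact hK e.2
  · intro hw
    have h1 : eK η ∈ Iio kW := by rw [← hKr]; exact ⟨η, rfl⟩
    have h2 : w ∈ range eK := by
      rw [hKr]
      exact lt_trans (mem_Iio.1 hw) (mem_Iio.1 h1)
    obtain ⟨e, rfl⟩ := h2
    exact ⟨⟨e, hK.lt_iff_lt.1 (mem_Iio.1 hw)⟩, rfl⟩

variable (W) in
private theorem C04_feq_of_full {x y : Name T} {p : T} (S : Set (Name T)) (hS : S.Countable)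
    (h : ∀ (𝔊 : Gen T), Full W 𝔊 → 𝔊.G 0 ≤ p → S ⊆ 𝔊.N →
      ∀ (hx : x ∈ 𝔊.N) (hy : y ∈ 𝔊.N), 𝔊.cls ⟨x, hx⟩ = 𝔊.cls ⟨y, hy⟩) : feq x y p := by
  have h1 : Frc (fun _ E v => v 0 = v 1) (ev omegaName [x, y]) p :=
    frc_full W (FO.eq 0 1) [x, y] p S hS (fun 𝔊 hF h0 hS hl =>
      h 𝔊 hF h0 hS (hl x (by simp)) (hl y (by simp)))
  exact h1.force (φ := .eq 0 1) (fun _ _ _ => Iff.rfl)

variable (hK : StrictMono eK) (hKr : range eK = Iio kW) {𝔊 : Gen T} (hF : Full W 𝔊)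
include hK hKr hF

private theorem C04_E_iff {η : K} {a u : 𝔊.M} (ha : Rep 𝔊 a (check (eK η))) :
    𝔊.E u a ↔ ∃ e < η, Rep 𝔊 u (check (eK e)) := by
  rw [E_rep_check hF.decC ha]
  constructor
  · rintro ⟨x, hx, h1⟩
    rw [← mem_Iio, ← C04_range hK hKr η] at hx
    obtain ⟨e, rfl⟩ := hx
    exact ⟨e.1, e.2, h1⟩
  · rintro ⟨e, he, h1⟩
    exact ⟨eK e, hK he, h1⟩

/-- values of the nodes (the name need not be in `𝔊.N`; compare `val_rep`) -/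
theorem val_rep_node {Y : PF T (K × I × K) K} {η : K} {i : I} {s u v : 𝔊.M}
    (hs : Rep 𝔊 s (nodeN eK Y η i)) :
    Val 𝔊.E s u v ↔ ∃ e < η, ∃ b n, Rep 𝔊 u (check (eK e)) ∧ Rep 𝔊 v (check (eK b)) ∧
      Y.val (η, i, e) b (𝔊.G n) := by
  have hs' := hs.congr (n := 0) (C04_feq eK Y η i (𝔊.G 0))
  rw [val_rep (hK.injective.comp Subtype.val_injective) hK.injective hF hs']
  constructor
  · rintro ⟨a, b, n, h1, h2, h3⟩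
    exact ⟨a.1, a.2, b, n, h1, h2, h3⟩
  · rintro ⟨e, he, b, n, h1, h2, h3⟩
    exact ⟨⟨e, he⟩, b, n, h1, h2, h3⟩

theorem isFun_rep_node {Y : PF T (K × I × K) K} {η : K} {i : I} {s a k : 𝔊.M}
    (hs : Rep 𝔊 s (nodeN eK Y η i)) (ha : Rep 𝔊 a (check (eK η)))
    (hk : Rep 𝔊 k (checkSet (range eK))) : IsFun 𝔊.E s a k := by
  have hs' := hs.congr (n := 0) (C04_feq eK Y η i (𝔊.G 0))
  rw [check_eq, ← C04_range hK hKr η] at ha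
  exact isFun_rep (hK.injective.comp Subtype.val_injective) hK.injective hF hs' ha hk

/-- the restriction of `x` to `η` -/
private theorem C04_res {X : PF T K K} {η : K} {x a s k : 𝔊.M} (hx : Rep 𝔊 x (pfN eK eK X))
    (ha : Rep 𝔊 a (check (eK η))) (hk : Rep 𝔊 k (checkSet (range eK))) :
    Sub 𝔊.E a k ∧ IsFun 𝔊.E x k k ∧ ∀ {s : 𝔊.M}, IsRes 𝔊.E s x a →
      IsFun 𝔊.E s a k ∧ ∀ u v, Val 𝔊.E s u v ↔ 𝔊.E u a ∧ Val 𝔊.E x u v := by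
  have hf : IsFun 𝔊.E x k k := isFun_rep hK.injective hK.injective hF hx hk hk
  have hsub : Sub 𝔊.E a k := by
    intro z hz
    obtain ⟨e, _, h1⟩ := (C04_E_iff hK hKr hF ha).1 hz
    exact (E_rep_checkSet hF.decC hk).2 ⟨eK e, ⟨e, rfl⟩, h1⟩
  refine ⟨hsub, hf, fun {s} hs => ?_⟩
  obtain ⟨g, h1, h2, h3⟩ := exists_res hF.rich.zfc hf hsub
  have h4 : g = s := isRes_uniq hF.rich.zfc h1 hs
  subst h4
  exact ⟨h2, h3⟩

/-- elements of a tree name in `𝔊.N` (`E_iff`) -/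
theorem E_tree {Y : PF T (K × I × K) K} (h : treeN eK Y ∈ 𝔊.N) {s : 𝔊.M} :
    𝔊.E s (𝔊.cls ⟨treeN eK Y, h⟩) ↔ ∃ η i, Rep 𝔊 s (nodeN eK Y η i) := by
  unfold treeN at h ⊢
  rw [E_iff hF.rich h]
  constructor
  · rintro ⟨j, n, _, h2⟩
    exact ⟨j.1, j.2, h2⟩
  · rintro ⟨η, i, h1⟩
    exact ⟨(η, i), 0, le_top, h1⟩

/-- if some `G n` forces that `X` agrees with the `i`-th node of level `η`, the restriction of the
function named by `pfN eK eK X` to `check (eK η)` is named by `nodeN eK Y η i` -/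
theorem rep_node_of_agree {Y : PF T (K × I × K) K} {X : PF T K K} {η : K} {i : I} {n : ℕ}
    {x a s : 𝔊.M} (hx : Rep 𝔊 x (pfN eK eK X)) (ha : Rep 𝔊 a (check (eK η)))
    (hs : IsRes 𝔊.E s x a)
    (hn : ∀ e < η, ∀ b, ∀ r ≤ 𝔊.G n, X.val e b r → Y.val (η, i, e) b r) :
    Rep 𝔊 s (nodeN eK Y η i) := by
  obtain ⟨x', rfl, nx, hnx⟩ := hx
  obtain ⟨a', rfl, na, hna⟩ := ha
  obtain ⟨s', rfl⟩ := 𝔊.exists_rep s
  obtain ⟨m, hm⟩ := (truth_list (FOx.isRes 0 1 2) 𝔊 [s', x', a']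
    ⟨omegaName, hF.rich.omega_mem⟩).1 hs
  refine ⟨s', rfl, max n (max m (max nx na)), ?_⟩
  refine C04_feq_of_full W {x'.1, a'.1, pfN eK eK X, check (eK η), checkSet (range eK)}
    (by simp) ?_
  intro 𝔊' hF' h0 hS hs1 hn1
  have hx1 : x'.1 ∈ 𝔊'.N := hS (by simp)
  have ha1 : a'.1 ∈ 𝔊'.N := hS (by simp)
  have hX1 : pfN eK eK X ∈ 𝔊'.N := hS (by simp)
  have hc1 : (check (eK η) : Name T) ∈ 𝔊'.N := hS (by simp)
  have hk1 : (checkSet (range eK) : Name T) ∈ 𝔊'.N := hS (by simp)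
  have e1 : IsRes 𝔊'.E (𝔊'.cls ⟨s'.1, hs1⟩) (𝔊'.cls ⟨x'.1, hx1⟩) (𝔊'.cls ⟨a'.1, ha1⟩) :=
    Frc.true_list (FOx.isRes 0 1 2) 𝔊' [⟨s'.1, hs1⟩, ⟨x'.1, hx1⟩, ⟨a'.1, ha1⟩]
      ⟨omegaName, hF'.rich.omega_mem⟩ (n := 0)
      (hm.mono (h0.trans (𝔊.anti (by omega))))
  have rx : Rep 𝔊' (𝔊'.cls ⟨x'.1, hx1⟩) (pfN eK eK X) :=
    ⟨⟨x'.1, hx1⟩, rfl, 0, feq_mono hnx (h0.trans (𝔊.anti (by omega)))⟩
  have ra : Rep 𝔊' (𝔊'.cls ⟨a'.1, ha1⟩) (check (eK η)) :=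
    ⟨⟨a'.1, ha1⟩, rfl, 0, feq_mono hna (h0.trans (𝔊.anti (by omega)))⟩
  have rk : Rep 𝔊' (𝔊'.cls ⟨_, hk1⟩) (checkSet (range eK)) := rep_self hk1
  have rn : Rep 𝔊' (𝔊'.cls ⟨_, hn1⟩) (nodeN eK Y η i) := rep_self hn1
  obtain ⟨f1, f2⟩ := (C04_res hK hKr hF' rx ra rk (s := 𝔊'.cls ⟨s'.1, hs1⟩)).2.2 e1
  have f3 := isFun_rep_node hK hKr hF' rn ra rk
  have key : ∀ u v, Val 𝔊'.E (𝔊'.cls ⟨s'.1, hs1⟩) u v →
      Val 𝔊'.E (𝔊'.cls ⟨nodeN eK Y η i, hn1⟩) u v := by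
    intro u v h
    rw [f2] at h
    obtain ⟨h1, h2⟩ := h
    obtain ⟨e, he, h3⟩ := (C04_E_iff hK hKr hF' ra).1 h1
    obtain ⟨e', b, j, h4, h5, h6⟩ := (val_rep hK.injective hK.injective hF' rx).1 h2
    have h7 : e' = e := hK.injective (h4.check_inj h3)
    subst h7
    refine (val_rep_node hK hKr hF' rn).2 ⟨e', he, b, j, h3, h5, ?_⟩
    exact hn e' he b _ ((𝔊'.anti (Nat.zero_le j)).trans (h0.trans (𝔊.anti (by omega)))) h6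
  refine fun_ext hF'.rich.zfc f1 f3 (fun u v => ⟨key u v, fun h => ?_⟩)
  have h1 : 𝔊'.E u (𝔊'.cls ⟨a'.1, ha1⟩) := (isFun_mem hF'.rich.zfc f3 h).1
  obtain ⟨v', h2, _⟩ := f1.2 u h1
  obtain ⟨w, _, h3⟩ := f3.2 u h1
  have h4 : v = v' := (h3 v h).trans (h3 v' (key u v' h2)).symm
  rw [h4]; exact h2

/-- conversely -/
theorem agree_of_rep_node {Y : PF T (K × I × K) K} {X : PF T K K} {η : K} {i : I}
    {x a s : 𝔊.M} (hx : Rep 𝔊 x (pfN eK eK X)) (ha : Rep 𝔊 a (check (eK η)))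
    (hs : IsRes 𝔊.E s x a) (hn : Rep 𝔊 s (nodeN eK Y η i)) :
    ∃ n, ∀ e < η, ∀ b, ∀ r ≤ 𝔊.G n, X.val e b r → Y.val (η, i, e) b r := by
  obtain ⟨x', rfl, nx, hnx⟩ := hx
  obtain ⟨a', rfl, na, hna⟩ := ha
  obtain ⟨s', rfl, ns, hns⟩ := hn
  obtain ⟨m, hm⟩ := (truth_list (FOx.isRes 0 1 2) 𝔊 [s', x', a']
    ⟨omegaName, hF.rich.omega_mem⟩).1 hs
  refine ⟨max ns (max m (max nx na)), fun e he b r hr hv => Y.dense _ _ _ fun q hq => ?_⟩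
  obtain ⟨𝔊', hF', h0, hS⟩ := exists_full W (T := T) {s'.1, x'.1, a'.1, pfN eK eK X,
    check (eK η), checkSet (range eK), check (eK e), check (eK b)} (by simp) q
  have hs1 : s'.1 ∈ 𝔊'.N := hS (by simp)
  have hx1 : x'.1 ∈ 𝔊'.N := hS (by simp)
  have ha1 : a'.1 ∈ 𝔊'.N := hS (by simp)
  have hk1 : (checkSet (range eK) : Name T) ∈ 𝔊'.N := hS (by simp)
  have he1 : (check (eK e) : Name T) ∈ 𝔊'.N := hS (by simp)
  have hb1 : (check (eK b) : Name T) ∈ 𝔊'.N := hS (by simp)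
  have hle : ∀ k ≤ max ns (max m (max nx na)), 𝔊'.G 0 ≤ 𝔊.G k := fun k hk => by
    rw [h0]; exact hq.trans (hr.trans (𝔊.anti hk))
  have e1 : IsRes 𝔊'.E (𝔊'.cls ⟨s'.1, hs1⟩) (𝔊'.cls ⟨x'.1, hx1⟩) (𝔊'.cls ⟨a'.1, ha1⟩) :=
    Frc.true_list (FOx.isRes 0 1 2) 𝔊' [⟨s'.1, hs1⟩, ⟨x'.1, hx1⟩, ⟨a'.1, ha1⟩]
      ⟨omegaName, hF'.rich.omega_mem⟩ (n := 0) (hm.mono (hle m (by omega)))
  have rx : Rep 𝔊' (𝔊'.cls ⟨x'.1, hx1⟩) (pfN eK eK X) :=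
    ⟨⟨x'.1, hx1⟩, rfl, 0, feq_mono hnx (hle nx (by omega))⟩
  have ra : Rep 𝔊' (𝔊'.cls ⟨a'.1, ha1⟩) (check (eK η)) :=
    ⟨⟨a'.1, ha1⟩, rfl, 0, feq_mono hna (hle na (by omega))⟩
  have rs : Rep 𝔊' (𝔊'.cls ⟨s'.1, hs1⟩) (nodeN eK Y η i) :=
    ⟨⟨s'.1, hs1⟩, rfl, 0, feq_mono hns (hle ns (by omega))⟩
  have rk : Rep 𝔊' (𝔊'.cls ⟨_, hk1⟩) (checkSet (range eK)) := rep_self hk1
  have re : Rep 𝔊' (𝔊'.cls ⟨_, he1⟩) (check (eK e)) := rep_self he1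
  have rb : Rep 𝔊' (𝔊'.cls ⟨_, hb1⟩) (check (eK b)) := rep_self hb1
  obtain ⟨f1, f2⟩ := (C04_res hK hKr hF' rx ra rk (s := 𝔊'.cls ⟨s'.1, hs1⟩)).2.2 e1
  have h1 : Val 𝔊'.E (𝔊'.cls ⟨x'.1, hx1⟩) (𝔊'.cls ⟨_, he1⟩) (𝔊'.cls ⟨_, hb1⟩) :=
    (val_rep hK.injective hK.injective hF' rx).2 ⟨e, b, 0, re, rb, by
      rw [h0]; exact X.mono _ _ _ _ hq hv⟩
  have h2 : Val 𝔊'.E (𝔊'.cls ⟨s'.1, hs1⟩) (𝔊'.cls ⟨_, he1⟩) (𝔊'.cls ⟨_, hb1⟩) :=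
    (f2 _ _).2 ⟨(C04_E_iff hK hKr hF' ra).2 ⟨e, he, re⟩, h1⟩
  obtain ⟨e', _, b', j, h3, h4, h5⟩ := (val_rep_node hK hKr hF' rs).1 h2
  have h6 : e = e' := hK.injective (re.check_inj h3)
  have h7 : b = b' := hK.injective (rb.check_inj h4)
  subst h6 h7
  exact ⟨𝔊'.G j, by rw [← h0]; exact 𝔊'.anti (Nat.zero_le j), h5⟩

end

section
variable {T W K I : Type u} [Preorder T] [OrderTop T] [LinearOrder W] [WellFoundedLT W]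
  [LinearOrder K] [LinearOrder I] {eK : K → W} {kW : W}
  (hK : StrictMono eK) (hKr : range eK = Iio kW)
include hK hKr

/-- `q` forces that `X` is a branch of `treeN eK Y` iff `MemP Y X q` -/
theorem frc_isBranch_iff {Y : PF T (K × I × K) K} {X : PF T K K} {q : T} :
    Frc (fun _ E v => IsBranch E (v 0) (v 1) (v 2))
      (ev omegaName [checkSet (range eK), treeN eK Y, pfN eK eK X]) q ↔ MemP Y X q := by
  constructor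
  · intro h η r hr
    obtain ⟨𝔊, hF, h0, hS⟩ := exists_full W (T := T) {checkSet (range eK), treeN eK Y,
      pfN eK eK X, check (eK η)} (by simp) r
    have hk1 : (checkSet (range eK) : Name T) ∈ 𝔊.N := hS (by simp)
    have ht1 : treeN eK Y ∈ 𝔊.N := hS (by simp)
    have hx1 : pfN eK eK X ∈ 𝔊.N := hS (by simp)
    have ha1 : (check (eK η) : Name T) ∈ 𝔊.N := hS (by simp)
    have e1 : IsBranch 𝔊.E (𝔊.cls ⟨_, hk1⟩) (𝔊.cls ⟨_, ht1⟩) (𝔊.cls ⟨_, hx1⟩) :=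
      Frc.true_list (FOx.isBranch 0 1 2) 𝔊 [⟨_, hk1⟩, ⟨_, ht1⟩, ⟨_, hx1⟩]
        ⟨omegaName, hF.rich.omega_mem⟩ (n := 0) (h.mono (by rw [h0]; exact hr))
    have rk : Rep 𝔊 (𝔊.cls ⟨_, hk1⟩) (checkSet (range eK)) := rep_self hk1
    have rx : Rep 𝔊 (𝔊.cls ⟨_, hx1⟩) (pfN eK eK X) := rep_self hx1
    have ra : Rep 𝔊 (𝔊.cls ⟨_, ha1⟩) (check (eK η)) := rep_self ha1
    obtain ⟨hsub, hf, -⟩ := C04_res hK hKr hF rx ra rk (s := 𝔊.cls ⟨_, hk1⟩)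
    obtain ⟨s, h1, h2, h3⟩ := exists_res hF.rich.zfc hf hsub
    have hak : 𝔊.E (𝔊.cls ⟨_, ha1⟩) (𝔊.cls ⟨_, hk1⟩) :=
      (E_rep_checkSet hF.decC rk).2 ⟨eK η, ⟨η, rfl⟩, ra⟩
    obtain ⟨η', i, h4⟩ := (E_tree hK hKr hF ht1).1 (e1.2 _ s hak h1)
    have h5 : η' = η := by
      obtain ⟨s', rfl, m, hm⟩ := h4
      obtain ⟨l, hl⟩ := (truth_list (FO.isFun 0 1 2) 𝔊 [s', ⟨_, ha1⟩, ⟨_, hk1⟩]
        ⟨omegaName, hF.rich.omega_mem⟩).1 h2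
      obtain ⟨𝔊', hF', h0', hS'⟩ := exists_full W (T := T) {s'.1, check (eK η),
        checkSet (range eK), check (eK η')} (by simp) (𝔊.G (max m l))
      have hs2 : s'.1 ∈ 𝔊'.N := hS' (by simp)
      have ha2 : (check (eK η) : Name T) ∈ 𝔊'.N := hS' (by simp)
      have hk2 : (checkSet (range eK) : Name T) ∈ 𝔊'.N := hS' (by simp)
      have hb2 : (check (eK η') : Name T) ∈ 𝔊'.N := hS' (by simp)
      have g1 : IsFun 𝔊'.E (𝔊'.cls ⟨s'.1, hs2⟩) (𝔊'.cls ⟨_, ha2⟩) (𝔊'.cls ⟨_, hk2⟩) :=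
        Frc.true_list (FO.isFun 0 1 2) 𝔊' [⟨s'.1, hs2⟩, ⟨_, ha2⟩, ⟨_, hk2⟩]
          ⟨omegaName, hF'.rich.omega_mem⟩ (n := 0)
          (hl.mono (by rw [h0']; exact 𝔊.anti (le_max_right _ _)))
      have rs : Rep 𝔊' (𝔊'.cls ⟨s'.1, hs2⟩) (nodeN eK Y η' i) :=
        ⟨⟨s'.1, hs2⟩, rfl, 0, feq_mono hm (by rw [h0']; exact 𝔊.anti (le_max_left _ _))⟩
      have g2 := isFun_rep_node hK hKr hF' rs (rep_self hb2) (rep_self hk2)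
      have g3 := dom_uniq hF'.rich.zfc g2 g1
      have r1 : Rep 𝔊' (𝔊'.cls ⟨_, ha2⟩) (check (eK η)) := rep_self ha2
      have r2 : Rep 𝔊' (𝔊'.cls ⟨_, ha2⟩) (check (eK η')) := by
        rw [← g3]; exact rep_self hb2
      exact hK.injective (r2.check_inj r1)
    subst h5
    obtain ⟨n, hn⟩ := agree_of_rep_node hK hKr hF rx ra h1 h4
    exact ⟨𝔊.G n, by rw [← h0]; exact 𝔊.anti (Nat.zero_le n), i, hn⟩
  · intro h
    refine frc_full W (FOx.isBranch 0 1 2) _ q ∅ countable_empty ?_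
    intro 𝔊 hF h0 _ hl
    have hk1 : (checkSet (range eK) : Name T) ∈ 𝔊.N := hl _ (by simp)
    have ht1 : treeN eK Y ∈ 𝔊.N := hl _ (by simp)
    have hx1 : pfN eK eK X ∈ 𝔊.N := hl _ (by simp)
    change IsBranch 𝔊.E (𝔊.cls ⟨_, hk1⟩) (𝔊.cls ⟨_, ht1⟩) (𝔊.cls ⟨_, hx1⟩)
    have rk : Rep 𝔊 (𝔊.cls ⟨_, hk1⟩) (checkSet (range eK)) := rep_self hk1
    have rx : Rep 𝔊 (𝔊.cls ⟨_, hx1⟩) (pfN eK eK X) := rep_self hx1
    refine ⟨isFun_rep hK.injective hK.injective hF rx rk rk, fun a s ha hs => ?_⟩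
    obtain ⟨_, ⟨η, rfl⟩, a', rfl, na, hna⟩ := (E_rep_checkSet hF.decC rk).1 ha
    obtain ⟨s', rfl⟩ := 𝔊.exists_rep s
    obtain ⟨m, hm⟩ := (truth_list (FOx.isRes 0 1 2) 𝔊 [s', ⟨_, hx1⟩, a']
      ⟨omegaName, hF.rich.omega_mem⟩).1 hs
    refine true_of_dense (FO.mem 0 1) 𝔊 hF [s', ⟨_, ht1⟩] (max m na) ?_
    intro q' hq'
    obtain ⟨r', hr', i, hi⟩ := h η q' (hq'.trans ((𝔊.anti (Nat.zero_le _)).trans h0))
    refine ⟨r', hr', ?_⟩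
    refine frc_full W (FO.mem 0 1) _ r' {a'.1, pfN eK eK X} (by simp) ?_
    intro 𝔊' hF' h0' hS' hl'
    have hs2 : s'.1 ∈ 𝔊'.N := hl' _ (by simp)
    have ht2 : treeN eK Y ∈ 𝔊'.N := hl' _ (by simp)
    have ha2 : a'.1 ∈ 𝔊'.N := hS' (by simp)
    have hx2 : pfN eK eK X ∈ 𝔊'.N := hS' (by simp)
    change 𝔊'.E (𝔊'.cls ⟨s'.1, hs2⟩) (𝔊'.cls ⟨_, ht2⟩)
    have hle : 𝔊'.G 0 ≤ 𝔊.G (max m na) := h0'.trans (hr'.trans hq')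
    have e1 : IsRes 𝔊'.E (𝔊'.cls ⟨s'.1, hs2⟩) (𝔊'.cls ⟨_, hx2⟩) (𝔊'.cls ⟨a'.1, ha2⟩) :=
      Frc.true_list (FOx.isRes 0 1 2) 𝔊' [⟨s'.1, hs2⟩, ⟨_, hx2⟩, ⟨a'.1, ha2⟩]
        ⟨omegaName, hF'.rich.omega_mem⟩ (n := 0)
        (hm.mono (hle.trans (𝔊.anti (le_max_left _ _))))
    have ra : Rep 𝔊' (𝔊'.cls ⟨a'.1, ha2⟩) (check (eK η)) :=
      ⟨⟨a'.1, ha2⟩, rfl, 0, feq_mono hna (hle.trans (𝔊.anti (le_max_right _ _)))⟩
    refine (E_tree hK hKr hF' ht2).2 ⟨η, i, ?_⟩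
    refine rep_node_of_agree hK hKr hF' (rep_self hx2) ra e1 (n := 0) ?_
    intro e he b r hr hv
    exact hi e he b r (hr.trans h0') hv

end

end Pool.Agent.KTM
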