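import Pool.Agent.Lib_MP_bf47cd.C04

/-!
# H17-C05: Kurepa trees of the model
-/

set_option linter.unusedSectionVars false
set_option linter.unusedVariables false

namespace Pool.Agent.KTM

universe u w

open Pool.Agent.Forcing Pool.Agent.Forcing.Name Pool.Agent.Inner Set Cardinal Pool.Agent.KT

/-! ### formulas -/

/-- `v 0` enumerates the level `v 4` -/
def C05_R : Fam.{w} := fun _ E v => ∃ L, IsLevel E (v 2) (v 3) (v 4) L ∧
  IsFun E (v 0) (v 1) L ∧ ∀ s, E s L → ∃ a, Val E (v 0) a s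

lemma C05_fo : FO.{w} C05_R :=
  FO.ex (FO.and (FOx.isLevel _ _ _ _) (FO.and (FO.isFun _ _ _)
    (FO.all (FO.imp (FO.mem _ _) (FO.ex (FO.val _ _ _))))))

/-- `(v 0)(v 1)(v 2) = v 3` -/
def C05_V : Fam.{w} := fun _ E v => ∃ s, Val E (v 0) (v 1) s ∧ Val E s (v 2) (v 3)

lemma C05_foV : FO.{w} C05_V := FO.ex (FO.and (FO.val _ _ _) (FO.val _ _ _))

lemma C05_cons {P : Type u} (g d : P) (l : List P) : cons g (ev d l) = ev d (g :: l) := by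
  funext i; cases i <;> rfl

lemma C05_feq {P : Type u} [Preorder P] [OrderTop P] {x y : Name P} {p : P}
    (h : Frc (fun _ _ v => v 0 = v 1) (ev omegaName [x, y]) p) : feq x y p := by
  have h1 : Force (.eq 0 1) (ev omegaName [x, y]) p := h.force (φ := .eq 0 1)
    (fun _ _ _ => Iff.rfl)
  exact h1

variable {T W K I : Type u} [Preorder T] [OrderTop T] [LinearOrder W] [WellFoundedLT W]
  [LinearOrder K] [OrderBot K] [LinearOrder I] {eK : K → W} {eI : I → W} {kW iW : W}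
  (hK : StrictMono eK) (hKr : range eK = Iio kW) (hI : StrictMono eI) (hIr : range eI = Iio iW)

/-- `p` forces that `z` is a Kurepa tree -/
def KurP (eK : K → W) (eI : I → W) (z : Name T) (p : T) : Prop :=
  Frc (fun _ E v => IsKurepa E (v 0) (v 1) (v 2) (v 3)) (ev omegaName
    [checkSet (range eI), checkSet (range eK), checkSet (univ : Set W), z]) p

/-- the enumerations in a model -/
lemma C05_enum {z : Name T} {p : T} {η : K} {g : Name T}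
    (hg : Frc C05_R (ev omegaName
      [g, checkSet (range eI), checkSet (range eK), z, check (eK η)]) p)
    {𝔊 : Gen T} (hF : Full W 𝔊) {n : ℕ} (h0 : 𝔊.G n ≤ p) (h1 : g ∈ 𝔊.N)
    (h2 : checkSet (range eI) ∈ 𝔊.N) (h3 : checkSet (range eK) ∈ 𝔊.N) (h4 : z ∈ 𝔊.N)
    (h5 : check (eK η) ∈ 𝔊.N) :
    ∃ L, IsLevel 𝔊.E (𝔊.cls ⟨_, h3⟩) (𝔊.cls ⟨_, h4⟩) (𝔊.cls ⟨_, h5⟩) L ∧
      IsFun 𝔊.E (𝔊.cls ⟨_, h1⟩) (𝔊.cls ⟨_, h2⟩) L ∧
      ∀ s, 𝔊.E s L → ∃ a, Val 𝔊.E (𝔊.cls ⟨_, h1⟩) a s :=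
  Frc.true_list C05_fo 𝔊 [⟨_, h1⟩, ⟨_, h2⟩, ⟨_, h3⟩, ⟨_, h4⟩, ⟨_, h5⟩]
    ⟨omegaName, hF.rich.omega_mem⟩ (hg.mono h0)

include hK hKr hI hIr

/-- elements of `check (eK η)` -/
lemma C05_E_check {𝔊 : Gen T} (hF : Full W 𝔊) {η : K} {a t : 𝔊.M}
    (ha : Rep 𝔊 a (check (eK η))) : 𝔊.E t a ↔ ∃ e < η, Rep 𝔊 t (check (eK e)) := by
  rw [E_rep_check hF.decC ha]
  constructor
  · rintro ⟨x, hx, h⟩
    have h1 : eK η ∈ range eK := ⟨η, rfl⟩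
    rw [hKr] at h1
    have h2 : x ∈ Iio kW := lt_trans hx h1
    rw [← hKr] at h2
    obtain ⟨e, rfl⟩ := h2
    exact ⟨e, hK.lt_iff_lt.1 hx, h⟩
  · rintro ⟨e, he, h⟩
    exact ⟨_, hK he, h⟩

/-- for every `η` there is a name of a function from `ω₁` onto the level `η` -/
theorem exists_enum {z : Name T} {p : T} (h : KurP eK eI z p) (η : K) :
    ∃ g : Name T, Frc (fun _ E v => ∃ L, IsLevel E (v 2) (v 3) (v 4) L ∧
        IsFun E (v 0) (v 1) L ∧ ∀ s, E s L → ∃ a, Val E (v 0) a s)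
      (ev omegaName [g, checkSet (range eI), checkSet (range eK), z, check (eK η)]) p := by
  obtain ⟨g, hg⟩ := exists_name (P := T) C05_fo
    (ev omegaName [checkSet (range eI), checkSet (range eK), z, check (eK η)])
  refine ⟨g, ?_⟩
  have h1 := hg p ?_
  · rw [C05_cons] at h1
    exact h1
  have fo : FO.{u+1} (fun M E v => ∃ y, C05_R M E (cons y v)) := by
    refine FO.ex (R := fun M E y v => C05_R M E (cons y v)) ?_
    refine FO.congr C05_fo (fun M E v => ?_)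
    have : cons (v 0) (fun k => v (k+1)) = v := by
      funext i; cases i <;> rfl
    rw [this]
  refine frc_full W fo _ p {checkSet (univ : Set W)} (by simp) ?_
  intro 𝔊 hF h0 hS hl
  have hR := hF.rich
  have h2 : (checkSet (range eI) : Name T) ∈ 𝔊.N := hl _ (by simp)
  have h3 : (checkSet (range eK) : Name T) ∈ 𝔊.N := hl _ (by simp)
  have h4 : z ∈ 𝔊.N := hl _ (by simp)
  have h5 : (check (eK η) : Name T) ∈ 𝔊.N := hl _ (by simp)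
  have h6 : (checkSet (univ : Set W) : Name T) ∈ 𝔊.N := hS (by simp)
  have hku : IsKurepa 𝔊.E (𝔊.cls ⟨_, h2⟩) (𝔊.cls ⟨_, h3⟩) (𝔊.cls ⟨_, h6⟩) (𝔊.cls ⟨_, h4⟩) :=
    Frc.true_list (FOx.isKurepa 0 1 2 3) 𝔊 [⟨_, h2⟩, ⟨_, h3⟩, ⟨_, h6⟩, ⟨_, h4⟩]
      ⟨omegaName, hR.omega_mem⟩ (h.mono h0)
  obtain ⟨L, hL⟩ := exists_level hR.zfc (𝔊.cls ⟨_, h3⟩) (𝔊.cls ⟨_, h4⟩) (𝔊.cls ⟨_, h5⟩)
  have he : 𝔊.E (𝔊.cls ⟨_, h5⟩) (𝔊.cls ⟨_, h3⟩) :=
    (E_checkSet hR h3).2 ⟨_, ⟨η, rfl⟩, rep_self h5⟩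
  obtain ⟨⟨s0, hs0⟩, i, hi⟩ := hku.2.1 _ L he hL
  obtain ⟨g', hg1, hg2⟩ := exists_surj_of_inj hR.zfc hi hs0
  exact ⟨g', L, hL, hg1, hg2⟩

/-- **Every Kurepa tree of the model is given by a function valued in the forcing.** `g η` from
`exists_enum`; `Y` from `PF.exists_ofDense_below p` with
`v (η, i, e) b q := (e < η ∧ Frc (∃ s, Val g i s ∧ Val s e b) q) ∨ (η ≤ e ∧ b = ⊥)`.
Equality of `z` and `treeN eK Y` by `feq_of_forall`: if `q ≤ p` forces `s ∈ z` find (in a full model)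
`r ≤ q` and `η` such that `r` forces that the domain of `s` is `η`, then (in a full model below `r`
containing `g η`) `r' ≤ r` and `i` with `g η (i) = s`. -/
theorem exists_Y {z : Name T} {p : T} (h : KurP eK eI z p) :
    ∃ Y : PF T (K × I × K) K, feq z (treeN eK Y) p := by
  have hne : Nonempty K := ⟨⊥⟩
  choose g hg using fun η => exists_enum hK hKr hI hIr h η
  have hg' : ∀ η, Frc C05_R (ev omegaName
      [g η, checkSet (range eI), checkSet (range eK), z, check (eK η)]) p := hg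
  -- values of the enumerations in a model
  have valI : ∀ {𝔊 : Gen T} (hF : Full W 𝔊) {n : ℕ} (h0 : 𝔊.G n ≤ p) (η : K) (i : I)
      (h1 : g η ∈ 𝔊.N) (h2 : checkSet (range eI) ∈ 𝔊.N) (h3 : checkSet (range eK) ∈ 𝔊.N)
      (h4 : z ∈ 𝔊.N) (h5 : check (eK η) ∈ 𝔊.N) (h6 : check (eI i) ∈ 𝔊.N),
      ∃ s, Val 𝔊.E (𝔊.cls ⟨_, h1⟩) (𝔊.cls ⟨_, h6⟩) s ∧ 𝔊.E s (𝔊.cls ⟨_, h4⟩) ∧
        IsFun 𝔊.E s (𝔊.cls ⟨_, h5⟩) (𝔊.cls ⟨_, h3⟩) ∧
        ∀ s', Val 𝔊.E (𝔊.cls ⟨_, h1⟩) (𝔊.cls ⟨_, h6⟩) s' → s' = s := by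
    intro 𝔊 hF n h0 η i h1 h2 h3 h4 h5 h6
    obtain ⟨L, hL, hf, _⟩ := C05_enum (hg' η) hF h0 h1 h2 h3 h4 h5
    have h7 : 𝔊.E (𝔊.cls ⟨_, h6⟩) (𝔊.cls ⟨_, h2⟩) :=
      (E_checkSet hF.rich h2).2 ⟨_, ⟨i, rfl⟩, rep_self h6⟩
    obtain ⟨s, hs, hu⟩ := hf.2 _ h7
    have h8 := (hL s).1 (isFun_mem hF.rich.zfc hf hs).2
    exact ⟨s, hs, h8.1, h8.2, hu⟩
  obtain ⟨Y, hY1, hY2⟩ := PF.exists_ofDense_below (A := K × I × K) (B := K) p
    (fun t b q => (t.2.2 < t.1 ∧ Frc C05_V (ev omegaName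
      [g t.1, check (eI t.2.1), check (eK t.2.2), check (eK b)]) q) ∨ (t.1 ≤ t.2.2 ∧ b = ⊥))
    (by
      rintro t b q r hr hq (⟨h1, h2⟩ | h1)
      · exact Or.inl ⟨h1, h2.mono hr⟩
      · exact Or.inr h1)
    (by
      rintro ⟨η, i, e⟩ b b' q hq (⟨h1, h2⟩ | ⟨h1, h2⟩) (⟨h3, h4⟩ | ⟨h3, h4⟩)
      · obtain ⟨𝔊, hF, hG, hS⟩ := exists_full W {g η, checkSet (range eI), checkSet (range eK), z,
          check (eK η), check (eI i), check (eK e), check (eK b), check (eK b')} (by simp) q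
        have n1 : g η ∈ 𝔊.N := hS (by simp)
        have n2 : (checkSet (range eI) : Name T) ∈ 𝔊.N := hS (by simp)
        have n3 : (checkSet (range eK) : Name T) ∈ 𝔊.N := hS (by simp)
        have n4 : z ∈ 𝔊.N := hS (by simp)
        have n5 : (check (eK η) : Name T) ∈ 𝔊.N := hS (by simp)
        have n6 : (check (eI i) : Name T) ∈ 𝔊.N := hS (by simp)
        have n7 : (check (eK e) : Name T) ∈ 𝔊.N := hS (by simp)
        have n8 : (check (eK b) : Name T) ∈ 𝔊.N := hS (by simp)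
        have n9 : (check (eK b') : Name T) ∈ 𝔊.N := hS (by simp)
        obtain ⟨s, hs1, hs2, hs3, hs4⟩ := valI hF (n := 0) (hG.le.trans hq) η i n1 n2 n3 n4 n5 n6
        obtain ⟨s1, k1, k2⟩ := Frc.true_list C05_foV 𝔊 [⟨_, n1⟩, ⟨_, n6⟩, ⟨_, n7⟩, ⟨_, n8⟩]
          ⟨omegaName, hF.rich.omega_mem⟩ (h2.mono hG.le)
        obtain ⟨s2, k3, k4⟩ := Frc.true_list C05_foV 𝔊 [⟨_, n1⟩, ⟨_, n6⟩, ⟨_, n7⟩, ⟨_, n9⟩]
          ⟨omegaName, hF.rich.omega_mem⟩ (h4.mono hG.le)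
        have e1 : s1 = s := hs4 s1 k1
        have e2 : s2 = s := hs4 s2 k3
        subst e1
        have k4' : Val 𝔊.E s1 (𝔊.cls ⟨_, n7⟩) (𝔊.cls ⟨_, n9⟩) := by
          have := k4
          rw [e2] at this
          exact this
        have k2' : Val 𝔊.E s1 (𝔊.cls ⟨_, n7⟩) (𝔊.cls ⟨_, n8⟩) := k2
        have k5 := (isFun_mem hF.rich.zfc hs3 k2').1
        have k6 := (hs3.2 _ k5).unique k2' k4'
        have k7 : Rep 𝔊 (𝔊.cls ⟨_, n8⟩) (check (eK b')) := by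
          rw [k6]; exact rep_self n9
        exact hK.injective ((rep_self n8).check_inj k7)
      · exact absurd h1 (not_lt.2 h3)
      · exact absurd h3 (not_lt.2 h1)
      · rw [h2, h4])
    (by
      rintro ⟨η, i, e⟩ q hq
      by_cases hle : η ≤ e
      · exact ⟨q, le_rfl, ⊥, Or.inr ⟨hle, rfl⟩⟩
      rw [not_le] at hle
      obtain ⟨𝔊, hF, hG, hS⟩ := exists_full W {g η, checkSet (range eI), checkSet (range eK), z,
        check (eK η), check (eI i), check (eK e)} (by simp) q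
      have n1 : g η ∈ 𝔊.N := hS (by simp)
      have n2 : (checkSet (range eI) : Name T) ∈ 𝔊.N := hS (by simp)
      have n3 : (checkSet (range eK) : Name T) ∈ 𝔊.N := hS (by simp)
      have n4 : z ∈ 𝔊.N := hS (by simp)
      have n5 : (check (eK η) : Name T) ∈ 𝔊.N := hS (by simp)
      have n6 : (check (eI i) : Name T) ∈ 𝔊.N := hS (by simp)
      have n7 : (check (eK e) : Name T) ∈ 𝔊.N := hS (by simp)
      obtain ⟨s, hs1, hs2, hs3, hs4⟩ := valI hF (n := 0) (hG.le.trans hq) η i n1 n2 n3 n4 n5 n6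
      have k1 : 𝔊.E (𝔊.cls ⟨_, n7⟩) (𝔊.cls ⟨_, n5⟩) :=
        (C05_E_check hK hKr hI hIr hF (rep_self n5)).2 ⟨e, hle, rep_self n7⟩
      obtain ⟨y, hy, _⟩ := hs3.2 _ k1
      have k2 := (isFun_mem hF.rich.zfc hs3 hy).2
      obtain ⟨w, ⟨b, rfl⟩, hb⟩ := (E_checkSet hF.rich n3).1 k2
      obtain ⟨y', rfl⟩ := 𝔊.exists_rep y
      obtain ⟨m, hm⟩ := rep_cls_iff.1 hb
      obtain ⟨m', hm'⟩ := (truth_list C05_foV 𝔊 [⟨_, n1⟩, ⟨_, n6⟩, ⟨_, n7⟩, y']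
        ⟨omegaName, hF.rich.omega_mem⟩).1 ⟨s, hs1, hy⟩
      refine ⟨𝔊.G (max m m'), ?_, b, Or.inl ⟨hle, ?_⟩⟩
      · rw [← hG]; exact 𝔊.anti (Nat.zero_le _)
      · refine frc_congr_list ?_ (hm'.mono (𝔊.anti (le_max_right m m')))
        exact List.Forall₂.cons (feq_refl _ _) (List.Forall₂.cons (feq_refl _ _)
          (List.Forall₂.cons (feq_refl _ _) (List.Forall₂.cons
            (feq_mono hm (𝔊.anti (le_max_left m m'))) List.Forall₂.nil))))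
  refine ⟨Y, ?_⟩
  -- the nodes
  have keyA : ∀ (η : K) (i : I) (s : Name T) (q : T), q ≤ p →
      Frc (fun _ E v => Val E (v 0) (v 1) (v 2)) (ev omegaName [g η, check (eI i), s]) q →
      feq s (nodeN eK Y η i) q := by
    intro η i s q hq hs
    refine C05_feq ?_
    refine frc_full W (FO.eq 0 1) _ q {g η, checkSet (range eI), checkSet (range eK), z,
      check (eK η), check (eI i)} (by simp) ?_
    intro 𝔊 hF h0 hS hl
    have n1 : g η ∈ 𝔊.N := hS (by simp)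
    have n2 : (checkSet (range eI) : Name T) ∈ 𝔊.N := hS (by simp)
    have n3 : (checkSet (range eK) : Name T) ∈ 𝔊.N := hS (by simp)
    have n4 : z ∈ 𝔊.N := hS (by simp)
    have n5 : (check (eK η) : Name T) ∈ 𝔊.N := hS (by simp)
    have n6 : (check (eI i) : Name T) ∈ 𝔊.N := hS (by simp)
    have n7 : s ∈ 𝔊.N := hl _ (by simp)
    have n8 : nodeN eK Y η i ∈ 𝔊.N := hl _ (by simp)
    change 𝔊.cls ⟨_, n7⟩ = 𝔊.cls ⟨_, n8⟩
    have hv : Val 𝔊.E (𝔊.cls ⟨_, n1⟩) (𝔊.cls ⟨_, n6⟩) (𝔊.cls ⟨_, n7⟩) :=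
      Frc.true_list (FO.val 0 1 2) 𝔊 [⟨_, n1⟩, ⟨_, n6⟩, ⟨_, n7⟩]
        ⟨omegaName, hF.rich.omega_mem⟩ (hs.mono h0)
    obtain ⟨s', hs1, hs2, hs3, hs4⟩ := valI hF (n := 0) (h0.trans hq) η i n1 n2 n3 n4 n5 n6
    have e1 := hs4 _ hv
    subst e1
    have hGp : ∀ n, 𝔊.G n ≤ p := fun n => (𝔊.anti (Nat.zero_le n)).trans (h0.trans hq)
    refine fun_ext hF.rich.zfc hs3
      (isFun_rep_node hK hKr hF (rep_self n8) (rep_self n5) (rep_self n3)) ?_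
    intro a c
    rw [val_rep_node hK hKr hF (rep_self n8)]
    constructor
    · intro hac
      obtain ⟨k1, k2⟩ := isFun_mem hF.rich.zfc hs3 hac
      obtain ⟨e, he, hea⟩ := (C05_E_check hK hKr hI hIr hF (rep_self n5)).1 k1
      obtain ⟨w, ⟨b, rfl⟩, hb⟩ := (E_checkSet hF.rich n3).1 k2
      obtain ⟨a', rfl⟩ := 𝔊.exists_rep a
      obtain ⟨c', rfl⟩ := 𝔊.exists_rep c
      obtain ⟨m1, hm1⟩ := rep_cls_iff.1 hea
      obtain ⟨m2, hm2⟩ := rep_cls_iff.1 hb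
      obtain ⟨m3, hm3⟩ := (truth_list C05_foV 𝔊 [⟨_, n1⟩, ⟨_, n6⟩, a', c']
        ⟨omegaName, hF.rich.omega_mem⟩).1 ⟨_, hv, hac⟩
      set m := max m1 (max m2 m3) with hm
      refine ⟨e, he, b, m, hea, hb, hY2 _ _ _ (hGp m) (Or.inl ⟨he, ?_⟩)⟩
      refine frc_congr_list ?_ (hm3.mono (𝔊.anti (show m3 ≤ m by omega)))
      exact List.Forall₂.cons (feq_refl _ _) (List.Forall₂.cons (feq_refl _ _)
          (List.Forall₂.cons (feq_mono hm1 (𝔊.anti (by omega))) (List.Forall₂.cons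
            (feq_mono hm2 (𝔊.anti (by omega))) List.Forall₂.nil)))
    · rintro ⟨e, he, b, m, hea, hb, hyv⟩
      obtain ⟨a', rfl⟩ := 𝔊.exists_rep a
      obtain ⟨c', rfl⟩ := 𝔊.exists_rep c
      obtain ⟨m1, hm1⟩ := rep_cls_iff.1 hea
      obtain ⟨m2, hm2⟩ := rep_cls_iff.1 hb
      have k1 := (hY1 (η, i, e) b (𝔊.G m) (hGp m)).1 hyv
      have k2 : Frc C05_V (ev omegaName
          [g η, check (eI i), check (eK e), check (eK b)]) (𝔊.G m) := by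
        refine Frc.dense C05_foV (fun q' hq' => ?_)
        obtain ⟨r, hr, hr2⟩ := k1 q' hq'
        rcases hr2 with hr2 | hr2
        · exact ⟨r, hr, hr2.2⟩
        · exact absurd he (not_lt.2 hr2.1)
      have k3 : Frc C05_V (ev omegaName
          [g η, check (eI i), a'.1, c'.1]) (𝔊.G (max m (max m1 m2))) := by
        refine frc_congr_list ?_ (k2.mono (𝔊.anti (le_max_left m _)))
        exact List.Forall₂.cons (feq_refl _ _) (List.Forall₂.cons (feq_refl _ _)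
          (List.Forall₂.cons (feq_symm (feq_mono hm1 (𝔊.anti (by omega)))) (List.Forall₂.cons
            (feq_symm (feq_mono hm2 (𝔊.anti (by omega)))) List.Forall₂.nil)))
      obtain ⟨s2, k4, k5⟩ := Frc.true_list C05_foV 𝔊 [⟨_, n1⟩, ⟨_, n6⟩, a', c']
        ⟨omegaName, hF.rich.omega_mem⟩ k3
      have e2 : s2 = 𝔊.cls ⟨_, n7⟩ := hs4 s2 k4
      subst e2
      exact k5
  refine feq_of_forall ?_ ?_
  · intro s q hq hs
    refine fmem_mk_top.2 ?_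
    intro r hr
    obtain ⟨𝔊, hF, hG, hS⟩ := exists_full W {s, z, checkSet (range eI), checkSet (range eK),
      checkSet (univ : Set W)} (by simp) r
    have n1 : s ∈ 𝔊.N := hS (by simp)
    have n4 : z ∈ 𝔊.N := hS (by simp)
    have n2 : (checkSet (range eI) : Name T) ∈ 𝔊.N := hS (by simp)
    have n3 : (checkSet (range eK) : Name T) ∈ 𝔊.N := hS (by simp)
    have n5 : (checkSet (univ : Set W) : Name T) ∈ 𝔊.N := hS (by simp)
    have hku : IsKurepa 𝔊.E (𝔊.cls ⟨_, n2⟩) (𝔊.cls ⟨_, n3⟩) (𝔊.cls ⟨_, n5⟩) (𝔊.cls ⟨_, n4⟩) :=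
      Frc.true_list (FOx.isKurepa 0 1 2 3) 𝔊 [⟨_, n2⟩, ⟨_, n3⟩, ⟨_, n5⟩, ⟨_, n4⟩]
        ⟨omegaName, hF.rich.omega_mem⟩ (n := 0) (h.mono (hG.le.trans (hr.trans hq)))
    have hsz : 𝔊.E (𝔊.cls ⟨_, n1⟩) (𝔊.cls ⟨_, n4⟩) := ⟨0, fmem_mono hs (hG.le.trans hr)⟩
    obtain ⟨a, ha, hfa⟩ := hku.1.1 _ hsz
    obtain ⟨w, ⟨η, rfl⟩, hη⟩ := (E_checkSet hF.rich n3).1 ha
    obtain ⟨a', rfl⟩ := 𝔊.exists_rep a
    obtain ⟨m1, hm1⟩ := rep_cls_iff.1 hη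
    obtain ⟨m2, hm2⟩ := (truth_list (FO.isFun 0 1 2) 𝔊 [⟨_, n1⟩, a', ⟨_, n3⟩]
      ⟨omegaName, hF.rich.omega_mem⟩).1 hfa
    have hfr : Frc (fun _ E v => IsFun E (v 0) (v 1) (v 2))
        (ev omegaName [s, check (eK η), checkSet (range eK)]) (𝔊.G (max m1 m2)) := by
      refine frc_congr_list ?_ (hm2.mono (𝔊.anti (le_max_right m1 m2)))
      exact List.Forall₂.cons (feq_refl _ _) (List.Forall₂.cons
        (feq_mono hm1 (𝔊.anti (le_max_left m1 m2))) (List.Forall₂.cons (feq_refl _ _)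
          List.Forall₂.nil))
    have hr1 : 𝔊.G (max m1 m2) ≤ r := by
      rw [← hG]; exact 𝔊.anti (Nat.zero_le _)
    obtain ⟨𝔊', hF', hG', hS'⟩ := exists_full W {s, z, checkSet (range eI), checkSet (range eK),
      g η, check (eK η)} (by simp) (𝔊.G (max m1 m2))
    have l1 : s ∈ 𝔊'.N := hS' (by simp)
    have l4 : z ∈ 𝔊'.N := hS' (by simp)
    have l2 : (checkSet (range eI) : Name T) ∈ 𝔊'.N := hS' (by simp)
    have l3 : (checkSet (range eK) : Name T) ∈ 𝔊'.N := hS' (by simp)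
    have l5 : (check (eK η) : Name T) ∈ 𝔊'.N := hS' (by simp)
    have l6 : g η ∈ 𝔊'.N := hS' (by simp)
    have hle : 𝔊'.G 0 ≤ q := by
      rw [hG']; exact hr1.trans hr
    have hsz' : 𝔊'.E (𝔊'.cls ⟨_, l1⟩) (𝔊'.cls ⟨_, l4⟩) := ⟨0, fmem_mono hs hle⟩
    have hfa' : IsFun 𝔊'.E (𝔊'.cls ⟨_, l1⟩) (𝔊'.cls ⟨_, l5⟩) (𝔊'.cls ⟨_, l3⟩) :=
      Frc.true_list (FO.isFun 0 1 2) 𝔊' [⟨_, l1⟩, ⟨_, l5⟩, ⟨_, l3⟩]
        ⟨omegaName, hF'.rich.omega_mem⟩ (n := 0) (hfr.mono hG'.le)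
    obtain ⟨L, hL, hf, hon⟩ := C05_enum (hg' η) hF' (n := 0) (hle.trans hq) l6 l2 l3 l4 l5
    obtain ⟨c, hc⟩ := hon _ ((hL _).2 ⟨hsz', hfa'⟩)
    obtain ⟨w, ⟨i, rfl⟩, hi⟩ := (E_checkSet hF'.rich l2).1 (isFun_mem hF'.rich.zfc hf hc).1
    obtain ⟨c', rfl⟩ := 𝔊'.exists_rep c
    obtain ⟨m3, hm3⟩ := rep_cls_iff.1 hi
    obtain ⟨m4, hm4⟩ := (truth_list (FO.val 0 1 2) 𝔊' [⟨_, l6⟩, c', ⟨_, l1⟩]
      ⟨omegaName, hF'.rich.omega_mem⟩).1 hc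
    have hGr : 𝔊'.G (max m3 m4) ≤ r := by
      refine (𝔊'.anti (Nat.zero_le _)).trans ?_
      rw [hG']; exact hr1
    refine ⟨𝔊'.G (max m3 m4), hGr, (η, i), keyA η i s _ (hGr.trans (hr.trans hq)) ?_⟩
    refine frc_congr_list ?_ (hm4.mono (𝔊'.anti (le_max_right m3 m4)))
    exact List.Forall₂.cons (feq_refl _ _) (List.Forall₂.cons
        (feq_mono hm3 (𝔊'.anti (le_max_left m3 m4))) (List.Forall₂.cons (feq_refl _ _)
          List.Forall₂.nil))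
  · intro s q hq hs
    refine fmem_dense ?_
    intro r hr
    obtain ⟨r1, hr1, ⟨η, i⟩, hηi⟩ := (fmem_mk_top.1 hs) r hr
    have hηi' : feq s (nodeN eK Y η i) r1 := hηi
    obtain ⟨𝔊, hF, hG, hS⟩ := exists_full W {g η, checkSet (range eI), checkSet (range eK), z,
      check (eK η), check (eI i)} (by simp) r1
    have n1 : g η ∈ 𝔊.N := hS (by simp)
    have n2 : (checkSet (range eI) : Name T) ∈ 𝔊.N := hS (by simp)
    have n3 : (checkSet (range eK) : Name T) ∈ 𝔊.N := hS (by simp)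
    have n4 : z ∈ 𝔊.N := hS (by simp)
    have n5 : (check (eK η) : Name T) ∈ 𝔊.N := hS (by simp)
    have n6 : (check (eI i) : Name T) ∈ 𝔊.N := hS (by simp)
    have hGr : ∀ n, 𝔊.G n ≤ r1 := fun n => by
      rw [← hG]; exact 𝔊.anti (Nat.zero_le _)
    obtain ⟨s', hs1, hs2, hs3, hs4⟩ := valI hF (n := 0)
      ((hGr 0).trans (hr1.trans (hr.trans hq))) η i n1 n2 n3 n4 n5 n6
    obtain ⟨s2, rfl⟩ := 𝔊.exists_rep s'
    obtain ⟨m1, hm1⟩ := (truth_list (FO.val 0 1 2) 𝔊 [⟨_, n1⟩, ⟨_, n6⟩, s2]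
      ⟨omegaName, hF.rich.omega_mem⟩).1 hs1
    obtain ⟨m2, hm2⟩ := hs2
    have k1 := keyA η i s2.1 (𝔊.G m1) ((hGr m1).trans (hr1.trans (hr.trans hq))) hm1
    refine ⟨𝔊.G (max m1 m2), (hGr _).trans hr1, ?_⟩
    refine fmem_congr_left ?_ (fmem_mono hm2 (𝔊.anti (le_max_right m1 m2)))
    exact feq_trans (feq_mono k1 (𝔊.anti (le_max_left m1 m2))) (feq_symm (feq_mono hηi' (hGr _)))

/-- there is a branch (`IsKurepa` gives an injection from `ω₃` into the set of branches) -/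
theorem exists_X0 [Nonempty W] {z : Name T} {p : T} (h : KurP eK eI z p)
    {Y : PF T (K × I × K) K} (hY : feq z (treeN eK Y) p) : ∃ X0 : PF T K K, MemP Y X0 p := by
  have hne : Nonempty K := ⟨⊥⟩
  obtain ⟨w⟩ := ‹Nonempty W›
  have hinj := hK.injective
  have foB : FO.{u+1} (fun _ E v => IsBranch E (v 1) (v 2) (v 0)) := FOx.isBranch 1 2 0
  obtain ⟨x, hx⟩ := exists_name (P := T) foB (ev omegaName [checkSet (range eK), z])
  have h1 := hx p ?_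
  swap
  · have fo : FO.{u+1} (fun M E v => ∃ y, IsBranch E (v 0) (v 1) y) :=
      FO.ex (FOx.isBranch _ _ _)
    refine frc_full W fo _ p {checkSet (range eI), checkSet (univ : Set W), check w} (by simp) ?_
    intro 𝔊 hF h0 hS hl
    have hR := hF.rich
    have h2 : (checkSet (range eI) : Name T) ∈ 𝔊.N := hS (by simp)
    have h3 : (checkSet (range eK) : Name T) ∈ 𝔊.N := hl _ (by simp)
    have h4 : z ∈ 𝔊.N := hl _ (by simp)
    have h5 : (check w : Name T) ∈ 𝔊.N := hS (by simp)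
    have h6 : (checkSet (univ : Set W) : Name T) ∈ 𝔊.N := hS (by simp)
    have hku : IsKurepa 𝔊.E (𝔊.cls ⟨_, h2⟩) (𝔊.cls ⟨_, h3⟩) (𝔊.cls ⟨_, h6⟩) (𝔊.cls ⟨_, h4⟩) :=
      Frc.true_list (FOx.isKurepa 0 1 2 3) 𝔊 [⟨_, h2⟩, ⟨_, h3⟩, ⟨_, h6⟩, ⟨_, h4⟩]
        ⟨omegaName, hR.omega_mem⟩ (h.mono h0)
    obtain ⟨B, i, hB, hi⟩ := hku.2.2
    have h7 : 𝔊.E (𝔊.cls ⟨_, h5⟩) (𝔊.cls ⟨_, h6⟩) :=
      (E_checkSet hR h6).2 ⟨_, mem_univ _, rep_self h5⟩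
    obtain ⟨y, hy, _⟩ := hi.1.2 _ h7
    exact ⟨y, (hB y).1 (isFun_mem hR.zfc hi.1 hy).2⟩
  rw [C05_cons] at h1
  obtain ⟨X, hX⟩ := PF.max_principle (P := T) (A := K) (B := K)
    (fun X q => feq x (pfN eK eK X) q)
    (fun X q r hr hf => feq_mono hf hr)
    (fun X q hf => feq_dense hf)
    (fun X X' q he hf => feq_trans hf ((feq_pfN_iff hinj hinj).2 he))
  have h8 := hX p ?_
  swap
  · intro q hq
    obtain ⟨𝔊, hF, hG, hS⟩ := exists_full W {x, z, checkSet (range eK)} (by simp) q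
    have n1 : x ∈ 𝔊.N := hS (by simp)
    have n2 : z ∈ 𝔊.N := hS (by simp)
    have n3 : (checkSet (range eK) : Name T) ∈ 𝔊.N := hS (by simp)
    have hbr : IsBranch 𝔊.E (𝔊.cls ⟨_, n3⟩) (𝔊.cls ⟨_, n2⟩) (𝔊.cls ⟨_, n1⟩) :=
      Frc.true_list foB 𝔊 [⟨_, n1⟩, ⟨_, n3⟩, ⟨_, n2⟩]
        ⟨omegaName, hF.rich.omega_mem⟩ (n := 0) (h1.mono (hG.le.trans hq))
    obtain ⟨X', hX'⟩ := exists_rep_fun hinj hinj hF hbr.1 (rep_self n3) (rep_self n3)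
    obtain ⟨n, hn⟩ := rep_cls_iff.1 hX'
    refine ⟨𝔊.G n, ?_, X', hn⟩
    rw [← hG]; exact 𝔊.anti (Nat.zero_le _)
  refine ⟨X, (frc_isBranch_iff hK hKr).1 ?_⟩
  refine frc_full W (FOx.isBranch 0 1 2) _ p {x, z} (by simp) ?_
  intro 𝔊 hF h0 hS hl
  have n1 : x ∈ 𝔊.N := hS (by simp)
  have n2 : z ∈ 𝔊.N := hS (by simp)
  have n3 : (checkSet (range eK) : Name T) ∈ 𝔊.N := hl _ (by simp)
  have n4 : treeN eK Y ∈ 𝔊.N := hl _ (by simp)
  have n5 : pfN eK eK X ∈ 𝔊.N := hl _ (by simp)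
  have hbr : IsBranch 𝔊.E (𝔊.cls ⟨_, n3⟩) (𝔊.cls ⟨_, n2⟩) (𝔊.cls ⟨_, n1⟩) :=
    Frc.true_list foB 𝔊 [⟨_, n1⟩, ⟨_, n3⟩, ⟨_, n2⟩]
      ⟨omegaName, hF.rich.omega_mem⟩ (h1.mono h0)
  change IsBranch 𝔊.E (𝔊.cls ⟨_, n3⟩) (𝔊.cls ⟨_, n4⟩) (𝔊.cls ⟨_, n5⟩)
  have e1 : 𝔊.cls ⟨z, n2⟩ = 𝔊.cls ⟨treeN eK Y, n4⟩ := (𝔊.cls_eq).2 ⟨0, feq_mono hY h0⟩
  have e2 : 𝔊.cls ⟨x, n1⟩ = 𝔊.cls ⟨pfN eK eK X, n5⟩ := (𝔊.cls_eq).2 ⟨0, feq_mono h8 h0⟩
  rw [← e1, ← e2]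
  exact hbr

end Pool.Agent.KTM
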