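import Pool.Agent.Lib_MP_bf47cd.C04

/-!
# H17-C09: the generic tree is a Kurepa tree in the model
-/

set_option linter.unusedSectionVars false
set_option linter.unusedVariables false

namespace Pool.Agent.KTM

universe u

open Pool.Agent.Forcing Pool.Agent.Forcing.Name Pool.Agent.Inner Set Cardinal Pool.Agent.KT

section aux
variable {T W : Type u} [Preorder T] [OrderTop T] [LinearOrder W] [WellFoundedLT W]

private theorem C09_list {𝔊 : Gen T} {xs : List 𝔊.M} {ts : List (Name T)}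
    (h : List.Forall₂ (Rep 𝔊) xs ts) : ∃ l : List 𝔊.N, l.map 𝔊.cls = xs ∧
      ∃ n, List.Forall₂ (fun x y => feq x y (𝔊.G n)) (l.map Subtype.val) ts := by
  induction h with
  | nil => exact ⟨[], rfl, 0, List.Forall₂.nil⟩
  | @cons x t xs ts h1 h2 ih =>
    obtain ⟨l, hl, n, hn⟩ := ih
    obtain ⟨x', hx, m, hm⟩ := h1
    refine ⟨x' :: l, by rw [List.map_cons, hx, hl], max n m, ?_⟩
    rw [List.map_cons]
    refine List.Forall₂.cons (feq_mono hm (𝔊.anti (le_max_right n m))) ?_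
    exact hn.imp fun x y h => feq_mono h (𝔊.anti (le_max_left n m))

private theorem C09_symm {p : T} {l l' : List (Name T)}
    (h : List.Forall₂ (fun x y => feq x y p) l l') :
    List.Forall₂ (fun x y => feq x y p) l' l := by
  induction h with
  | nil => exact List.Forall₂.nil
  | cons h1 h2 ih => exact List.Forall₂.cons (feq_symm h1) ih

/-- truth lemma for elements with given names -/
private theorem C09_iff {R : Fam.{u+1}} (hR : FO R) {𝔊 : Gen T} (hF : Full W 𝔊)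
    {xs : List 𝔊.M} {ts : List (Name T)} (h : List.Forall₂ (Rep 𝔊) xs ts) :
    R 𝔊.M 𝔊.E (ev hF.rich.om xs) ↔ ∃ n, Frc R (ev omegaName ts) (𝔊.G n) := by
  obtain ⟨l, rfl, n, hn⟩ := C09_list h
  refine (truth_list hR 𝔊 l ⟨omegaName, hF.rich.omega_mem⟩).trans ?_
  constructor
  · rintro ⟨m, hm⟩
    refine ⟨max n m, frc_congr_list (hn.imp fun x y h => feq_mono h (𝔊.anti (le_max_left n m)))
      (hm.mono (𝔊.anti (le_max_right n m)))⟩
  · rintro ⟨m, hm⟩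
    refine ⟨max n m, frc_congr_list (C09_symm (hn.imp fun x y h =>
      feq_mono h (𝔊.anti (le_max_left n m)))) (hm.mono (𝔊.anti (le_max_right n m)))⟩

end aux

variable {T W K I : Type u} [Preorder T] [OrderTop T] [LinearOrder W] [WellFoundedLT W]
  [LinearOrder K] [OrderBot K] [LinearOrder I] [WellFoundedLT I] {eK : K → W} {eI : I → W}
  {kW iW : W}
  (hK : StrictMono eK) (hKr : range eK = Iio kW) (hI : StrictMono eI) (hIr : range eI = Iio iW)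

include hK hKr in
/-- the domain of a node is its level -/
private theorem C09_dom {𝔊 : Gen T} (hF : Full W 𝔊) {Y : PF T (K × I × K) K} {η η' : K} {i : I}
    {x a k : 𝔊.M} (hx : Rep 𝔊 x (nodeN eK Y η' i)) (ha : Rep 𝔊 a (check (eK η)))
    (hk : Rep 𝔊 k (checkSet (range eK))) (h : IsFun 𝔊.E x a k) : η' = η := by
  have h1 : ∃ n, Frc (fun _ E v => IsFun E (v 0) (v 1) (v 2))
      (ev omegaName [nodeN eK Y η' i, check (eK η), checkSet (range eK)]) (𝔊.G n) :=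
    (C09_iff (FO.isFun 0 1 2) hF (xs := [x, a, k])
      (List.Forall₂.cons hx (List.Forall₂.cons ha (List.Forall₂.cons hk List.Forall₂.nil)))).1 h
  obtain ⟨n, hn⟩ := h1
  obtain ⟨𝔊', hF', hG0, hS⟩ := exists_full W
    {nodeN eK Y η' i, check (eK η), checkSet (range eK), check (eK η')} (by simp) (𝔊.G n)
  have e1 : nodeN eK Y η' i ∈ 𝔊'.N := hS (by simp)
  have e2 : check (eK η) ∈ 𝔊'.N := hS (by simp)
  have e3 : checkSet (range eK) ∈ 𝔊'.N := hS (by simp)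
  have e4 : check (eK η') ∈ 𝔊'.N := hS (by simp)
  have h2 : IsFun 𝔊'.E (𝔊'.cls ⟨_, e1⟩) (𝔊'.cls ⟨_, e2⟩) (𝔊'.cls ⟨_, e3⟩) :=
    (C09_iff (FO.isFun 0 1 2) hF' (xs := [𝔊'.cls ⟨_, e1⟩, 𝔊'.cls ⟨_, e2⟩, 𝔊'.cls ⟨_, e3⟩])
      (List.Forall₂.cons (rep_self e1) (List.Forall₂.cons (rep_self e2)
        (List.Forall₂.cons (rep_self e3) List.Forall₂.nil)))).2 ⟨0, by rw [hG0]; exact hn⟩
  have h3 := isFun_rep_node hK hKr hF' (rep_self e1) (rep_self e4) (rep_self e3)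
  have h4 := dom_uniq hF'.rich.zfc h3 h2
  obtain ⟨m, hm⟩ := (𝔊'.cls_eq).1 h4
  exact hK.injective (feq_check_iff.1 hm)

/-- the name of the function that maps a node of level `η` to its least index -/
private noncomputable def C09_j (eK : K → W) (eI : I → W) (Y : PF T (K × I × K) K) (η : K) :
    Name T :=
  Name.mk {t : I × T // ∀ i' < t.1, ∀ r ≤ t.2, ¬ feq (nodeN eK Y η i') (nodeN eK Y η t.1) r}
    (fun t => opairName (nodeN eK Y η t.1.1) (check (eI t.1.1))) (fun t => t.1.2)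

private theorem C09_val_j {𝔊 : Gen T} (hR : Rich 𝔊) {Y : PF T (K × I × K) K} {η : K}
    (h : C09_j eK eI Y η ∈ 𝔊.N) {u v : 𝔊.M} :
    Val 𝔊.E (𝔊.cls ⟨_, h⟩) u v ↔ ∃ (i : I) (q : T) (n : ℕ),
      (∀ i' < i, ∀ r ≤ q, ¬ feq (nodeN eK Y η i') (nodeN eK Y η i) r) ∧ 𝔊.G n ≤ q ∧
      Rep 𝔊 u (nodeN eK Y η i) ∧ Rep 𝔊 v (check (eI i)) := by
  refine (val_mk hR (ι := {t : I × T // ∀ i' < t.1, ∀ r ≤ t.2,
    ¬ feq (nodeN eK Y η i') (nodeN eK Y η t.1) r}) (A := fun t => nodeN eK Y η t.1.1)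
    (B := fun t => check (eI t.1.1)) (c := fun t => t.1.2) h).trans ?_
  constructor
  · rintro ⟨⟨⟨i, q⟩, h1⟩, n, h2, h3, h4⟩
    exact ⟨i, q, n, h1, h2, h3, h4⟩
  · rintro ⟨i, q, n, h1, h2, h3, h4⟩
    exact ⟨⟨⟨i, q⟩, h1⟩, n, h2, h3, h4⟩

include hI in
private theorem C09_uniq {𝔊 : Gen T} (hR : Rich 𝔊) {Y : PF T (K × I × K) K} {η : K}
    {u : 𝔊.M} {i i' : I} {q q' : T} {n n' : ℕ}
    (h1 : ∀ i'' < i, ∀ r ≤ q, ¬ feq (nodeN eK Y η i'') (nodeN eK Y η i) r)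
    (h1' : ∀ i'' < i', ∀ r ≤ q', ¬ feq (nodeN eK Y η i'') (nodeN eK Y η i') r)
    (h2 : 𝔊.G n ≤ q) (h2' : 𝔊.G n' ≤ q') (h3 : Rep 𝔊 u (nodeN eK Y η i))
    (h3' : Rep 𝔊 u (nodeN eK Y η i')) : i = i' := by
  obtain ⟨m, hm⟩ := h3.feq h3'
  rcases lt_trichotomy i i' with h | h | h
  · exact absurd (feq_mono hm (𝔊.anti (le_max_left m n')))
      (h1' i h _ ((𝔊.anti (le_max_right m n')).trans h2'))
  · exact h
  · exact absurd (feq_symm (feq_mono hm (𝔊.anti (le_max_left m n))))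
      (h1 i' h _ ((𝔊.anti (le_max_right m n)).trans h2))

include hK hKr hI hIr

/-- the levels of `treeN eK Y` have size at most `ω₁`: map a node to its least index; the name
lists `(nodeN η i, i)` under the conditions `q` that force no `i' < i` to name the same node -/
theorem frc_level {Y : PF T (K × I × K) K} (η : K) (p : T) :
    Frc (fun _ E v => ∀ L, IsLevel E (v 1) (v 2) (v 3) L → ∃ i, IsInj E i L (v 0))
      (ev omegaName [checkSet (range eI), checkSet (range eK), treeN eK Y, check (eK η)]) p := by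
  have hFO : FO.{u+1} (fun _ E v => ∀ L, IsLevel E (v 1) (v 2) (v 3) L →
      ∃ i, IsInj E i L (v 0)) :=
    FO.all (FO.imp (FOx.isLevel _ _ _ _) (FO.ex (FOx.isInj _ _ _)))
  refine frc_full W hFO _ p {C09_j eK eI Y η} (by simp) ?_
  intro 𝔊 hF h0 hS hl
  have hjN : C09_j eK eI Y η ∈ 𝔊.N := hS rfl
  have hTN : treeN eK Y ∈ 𝔊.N := hl _ (by simp)
  have haN : (check (eK η) : Name T) ∈ 𝔊.N := hl _ (by simp)
  have hkN : (checkSet (range eK) : Name T) ∈ 𝔊.N := hl _ (by simp)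
  have hlN : (checkSet (range eI) : Name T) ∈ 𝔊.N := hl _ (by simp)
  change ∀ L, IsLevel 𝔊.E (𝔊.cls ⟨checkSet (range eK), hkN⟩) (𝔊.cls ⟨treeN eK Y, hTN⟩)
    (𝔊.cls ⟨check (eK η), haN⟩) L → ∃ i, IsInj 𝔊.E i L (𝔊.cls ⟨checkSet (range eI), hlN⟩)
  intro L hL
  have hZ := hF.rich.zfc
  have hnode : ∀ u, (∃ i, Rep 𝔊 u (nodeN eK Y η i)) ↔ 𝔊.E u L := by
    intro u
    constructor
    · rintro ⟨i, hi⟩
      rw [hL u]
      exact ⟨(E_tree hK hKr hF hTN).2 ⟨η, i, hi⟩,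
        isFun_rep_node hK hKr hF hi (rep_self haN) (rep_self hkN)⟩
    · intro h
      rw [hL u] at h
      obtain ⟨η', i, hi⟩ := (E_tree hK hKr hF hTN).1 h.1
      have h2 := C09_dom hK hKr hF hi (rep_self haN) (rep_self hkN) h.2
      rw [h2] at hi
      exact ⟨i, hi⟩
  refine ⟨𝔊.cls ⟨_, hjN⟩, ⟨fun z hz => ?_, fun x hx => ?_⟩, fun x x' y hx hx' => ?_⟩
  · obtain ⟨u, v, h1, h2⟩ := isPair_of_mem_mk hF.rich (ι := {t : I × T // ∀ i' < t.1, ∀ r ≤ t.2,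
      ¬ feq (nodeN eK Y η i') (nodeN eK Y η t.1) r}) (A := fun t => nodeN eK Y η t.1.1)
      (B := fun t => check (eI t.1.1)) (c := fun t => t.1.2) hjN hz
    obtain ⟨i, q, n, h3, h4, h5, h6⟩ := (C09_val_j hF.rich hjN).1 h2
    exact ⟨u, v, (hnode u).1 ⟨i, h5⟩, (E_checkSet hF.rich hlN).2 ⟨eI i, ⟨i, rfl⟩, h6⟩, h1⟩
  · obtain ⟨i', hi'⟩ := (hnode x).2 hx
    obtain ⟨x', rfl, n, hn⟩ := hi'
    have hex : ∃ y, Val 𝔊.E (𝔊.cls ⟨_, hjN⟩) (𝔊.cls x') y := by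
      refine true_of_dense (R := fun _ E v => ∃ y, Val E (v 0) (v 1) y)
        (FO.ex (FO.val _ _ _)) 𝔊 hF [⟨_, hjN⟩, x'] n ?_
      intro q hq
      -- the least index forced by some extension
      have hne : {i : I | ∃ r ≤ q, feq (nodeN eK Y η i) (nodeN eK Y η i') r}.Nonempty :=
        ⟨i', q, le_rfl, feq_refl _ _⟩
      obtain ⟨i0, ⟨r, hr, hri⟩, hmin⟩ := WellFounded.has_min
        (wellFounded_lt (α := I)) _ hne
      refine ⟨r, hr, ?_⟩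
      refine frc_full W (FO.ex (FO.val _ _ _)) _ r {check (eI i0)} (by simp) ?_
      intro 𝔊' hF' h0' hS' hl'
      have hj' : C09_j eK eI Y η ∈ 𝔊'.N := hl' _ (by simp)
      have hx' : x'.1 ∈ 𝔊'.N := hl' _ (by simp)
      have hc' : (check (eI i0) : Name T) ∈ 𝔊'.N := hS' rfl
      refine ⟨𝔊'.cls ⟨_, hc'⟩, ?_⟩
      change Val 𝔊'.E (𝔊'.cls ⟨_, hj'⟩) (𝔊'.cls ⟨x'.1, hx'⟩) _
      rw [C09_val_j hF'.rich hj']
      refine ⟨i0, r, 0, fun i'' hi'' s hs hse => ?_, h0', ?_, rep_self hc'⟩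
      · exact hmin i'' ⟨s, hs.trans hr, feq_trans hse (feq_mono hri hs)⟩ hi''
      · exact rep_cls_iff.2 ⟨0, feq_trans (feq_mono hn (h0'.trans (hr.trans hq)))
          (feq_symm (feq_mono hri h0'))⟩
    obtain ⟨y, hy⟩ := hex
    refine ⟨y, hy, fun y' hy' => ?_⟩
    obtain ⟨i, q, m, h1, h2, h3, h4⟩ := (C09_val_j hF.rich hjN).1 hy
    obtain ⟨i2, q2, m2, g1, g2, g3, g4⟩ := (C09_val_j hF.rich hjN).1 hy'
    have h5 := C09_uniq hI hF.rich h1 g1 h2 g2 h3 g3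
    subst h5
    exact g4.unique h4
  · obtain ⟨i, q, m, h1, h2, h3, h4⟩ := (C09_val_j hF.rich hjN).1 hx
    obtain ⟨i2, q2, m2, g1, g2, g3, g4⟩ := (C09_val_j hF.rich hjN).1 hx'
    have h5 : i = i2 := hI.injective (h4.check_inj g4)
    subst h5
    exact h3.unique g3

/-- the name of the sequence of the branches -/
private noncomputable def C09_b (eK : K → W) (Br : W → PF T K K) : Name T :=
  Name.mk W (fun ξ => opairName (check ξ) (pfN eK eK (Br ξ))) (fun _ => ⊤)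

omit hK hKr hI hIr in
private theorem C09_val_b {𝔊 : Gen T} (hR : Rich 𝔊) {Br : W → PF T K K}
    (h : C09_b eK Br ∈ 𝔊.N) {u v : 𝔊.M} :
    Val 𝔊.E (𝔊.cls ⟨_, h⟩) u v ↔ ∃ ξ, Rep 𝔊 u (check ξ) ∧ Rep 𝔊 v (pfN eK eK (Br ξ)) := by
  refine (val_mk hR (ι := W) (A := fun ξ => check ξ) (B := fun ξ => pfN eK eK (Br ξ))
    (c := fun _ => ⊤) h).trans ?_
  constructor
  · rintro ⟨ξ, n, h2, h3, h4⟩
    exact ⟨ξ, h3, h4⟩
  · rintro ⟨ξ, h3, h4⟩
    exact ⟨ξ, 0, le_top, h3, h4⟩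

omit hI hIr in
/-- the restriction of a node to a smaller level is a node -/
private theorem C09_res {𝔊 : Gen T} (hF : Full W 𝔊) {Y : PF T (K × I × K) K} {η η' : K}
    {i i' : I} {s b t k a : 𝔊.M} {q : T}
    (hη : η' ≤ η) (hs : Rep 𝔊 s (nodeN eK Y η i)) (hb : Rep 𝔊 b (check (eK η')))
    (ha : Rep 𝔊 a (check (eK η)))
    (hk : Rep 𝔊 k (checkSet (range eK))) (ht : IsRes 𝔊.E t s b) (hq : 𝔊.G 0 ≤ q)
    (h : ∀ e < η', ∀ b, ∀ s ≤ q, Y.val (η, i, e) b s → Y.val (η', i', e) b s)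
    {t' : 𝔊.M} (ht' : Rep 𝔊 t' (nodeN eK Y η' i')) : t = t' := by
  have hZ := hF.rich.zfc
  have hsf := isFun_rep_node hK hKr hF hs ha hk
  have htf := isFun_rep_node hK hKr hF ht' hb hk
  have hsub : Sub 𝔊.E b a := by
    intro z hz
    rw [E_rep_check hF.decC hb] at hz
    obtain ⟨x, hx, hz⟩ := hz
    rw [E_rep_check hF.decC ha]
    exact ⟨x, hx.trans_le (hK.monotone hη), hz⟩
  obtain ⟨g, hg1, hg2, hg3⟩ := exists_res hZ hsf hsub
  have hgt : t = g := isRes_uniq hZ ht hg1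
  subst hgt
  have key : ∀ u v, Val 𝔊.E t u v → Val 𝔊.E t' u v := by
    intro u v huv
    obtain ⟨h1, h2⟩ := (hg3 u v).1 huv
    obtain ⟨e, he, b0, n, h3, h4, h5⟩ := (val_rep_node hK hKr hF hs).1 h2
    obtain ⟨x, hx, h6⟩ := (E_rep_check hF.decC hb).1 h1
    have h7 : x = eK e := h6.check_inj h3
    subst h7
    have h8 : e < η' := hK.lt_iff_lt.1 hx
    exact (val_rep_node hK hKr hF ht').2 ⟨e, h8, b0, n, h3, h4,
      h e h8 b0 _ ((𝔊.anti (Nat.zero_le n)).trans hq) h5⟩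
  refine fun_ext hZ hg2 htf fun u v => ⟨key u v, fun huv => ?_⟩
  have h1 := (isFun_mem hZ htf huv).1
  obtain ⟨v', hv', -⟩ := hg2.2 u h1
  have h2 := key u v' hv'
  have h3 := (htf.2 u h1).unique huv h2
  rw [h3]; exact hv'

/-- **The generic Kurepa tree.** -/
theorem frc_kurepa [Nonempty I] {Y : PF T (K × I × K) K} (Br : W → PF T K K)
    (h1 : TreeLike Y)
    (h2 : ∀ ξ q, MemP Y (Br ξ) q)
    (h3 : ∀ ξ ξ', ξ ≠ ξ' → ∀ q, ∃ q' ≤ q, ∃ e b b', b ≠ b' ∧ (Br ξ).val e b q' ∧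
      (Br ξ').val e b' q') (p : T) :
    Frc (fun _ E v => IsKurepa E (v 0) (v 1) (v 2) (v 3)) (ev omegaName
      [checkSet (range eI), checkSet (range eK), checkSet (univ : Set W), treeN eK Y]) p := by
  refine frc_full W (FOx.isKurepa 0 1 2 3) _ p {C09_b eK Br} (by simp) ?_
  intro 𝔊 hF h0 hS hl
  have hjN : C09_b eK Br ∈ 𝔊.N := hS rfl
  have hTN : treeN eK Y ∈ 𝔊.N := hl _ (by simp)
  have hmN : (checkSet (univ : Set W) : Name T) ∈ 𝔊.N := hl _ (by simp)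
  have hkN : (checkSet (range eK) : Name T) ∈ 𝔊.N := hl _ (by simp)
  have hlN : (checkSet (range eI) : Name T) ∈ 𝔊.N := hl _ (by simp)
  change IsKurepa 𝔊.E (𝔊.cls ⟨checkSet (range eI), hlN⟩) (𝔊.cls ⟨checkSet (range eK), hkN⟩)
    (𝔊.cls ⟨checkSet univ, hmN⟩) (𝔊.cls ⟨treeN eK Y, hTN⟩)
  have hZ := hF.rich.zfc
  obtain ⟨i00⟩ := (inferInstance : Nonempty I)
  -- elements of `k`
  have hkel : ∀ a, 𝔊.E a (𝔊.cls ⟨checkSet (range eK), hkN⟩) → ∃ η, Rep 𝔊 a (check (eK η)) := by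
    intro a ha
    obtain ⟨x, ⟨η, rfl⟩, hx⟩ := (E_checkSet hF.rich hkN).1 ha
    exact ⟨η, hx⟩
  refine ⟨⟨fun s hs => ?_, fun s a b t hs hsa hba hres => ?_⟩, fun a L ha hL => ⟨?_, ?_⟩, ?_⟩
  · -- domains
    obtain ⟨η, i, hi⟩ := (E_tree hK hKr hF hTN).1 hs
    refine (C09_iff (R := fun _ E v => ∃ a, E a (v 1) ∧ IsFun E (v 0) a (v 1))
      (FO.ex (FO.and (FO.mem _ _) (FO.isFun _ _ _))) hF
      (xs := [s, 𝔊.cls ⟨checkSet (range eK), hkN⟩])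
      (List.Forall₂.cons hi (List.Forall₂.cons (rep_self hkN) List.Forall₂.nil))).2 ⟨0, ?_⟩
    refine frc_full W (FO.ex (FO.and (FO.mem _ _) (FO.isFun _ _ _))) _ _ {check (eK η)}
      (by simp) ?_
    intro 𝔊' hF' _ hS' hl'
    have e1 : (check (eK η) : Name T) ∈ 𝔊'.N := hS' rfl
    have e2 : nodeN eK Y η i ∈ 𝔊'.N := hl' _ (by simp)
    have e3 : (checkSet (range eK) : Name T) ∈ 𝔊'.N := hl' _ (by simp)
    refine ⟨𝔊'.cls ⟨_, e1⟩, ?_, ?_⟩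
    · change 𝔊'.E _ (𝔊'.cls ⟨_, e3⟩)
      exact (E_checkSet hF'.rich e3).2 ⟨eK η, ⟨η, rfl⟩, rep_self e1⟩
    · change IsFun 𝔊'.E (𝔊'.cls ⟨_, e2⟩) _ (𝔊'.cls ⟨_, e3⟩)
      exact isFun_rep_node hK hKr hF' (rep_self e2) (rep_self e1) (rep_self e3)
  · -- restrictions
    obtain ⟨η, i, hi⟩ := (E_tree hK hKr hF hTN).1 hs
    have hak : Rep 𝔊 a (check (eK η)) := by
      -- the domain of `s` is named by `check (eK η)`
      obtain ⟨a', rfl⟩ := 𝔊.exists_rep a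
      have h5 : ∃ n, Frc (fun _ E v => IsFun E (v 0) (v 1) (v 2))
          (ev omegaName [nodeN eK Y η i, a'.1, checkSet (range eK)]) (𝔊.G n) :=
        (C09_iff (FO.isFun 0 1 2) hF (xs := [s, 𝔊.cls a', 𝔊.cls ⟨checkSet (range eK), hkN⟩])
          (List.Forall₂.cons hi (List.Forall₂.cons (rep_self a'.2)
            (List.Forall₂.cons (rep_self hkN) List.Forall₂.nil)))).1 hsa
      obtain ⟨n, hn⟩ := h5
      refine rep_cls_iff.2 ⟨n, ?_⟩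
      refine feq_of_models {nodeN eK Y η i, checkSet (range eK)} (by simp) ?_
      intro 𝔊' hR' h0' hS' e1 e2
      have e3 : nodeN eK Y η i ∈ 𝔊'.N := hS' (by simp)
      have e4 : (checkSet (range eK) : Name T) ∈ 𝔊'.N := hS' (by simp)
      have h6 : Frc (fun _ E v => ∀ a, IsFun E (v 0) a (v 2) → a = v 1)
          (ev omegaName [nodeN eK Y η i, check (eK η), checkSet (range eK)]) (𝔊.G n) := by
        have hFO : FO.{u+1} (fun _ E v => ∀ a, IsFun E (v 0) a (v 2) → a = v 1) :=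
          FO.all (FO.imp (FO.isFun _ _ _) (FO.eq _ _))
        refine frc_full W hFO _ _ ∅ (by simp) ?_
        intro 𝔊'' hF'' _ _ hl''
        have g1 : nodeN eK Y η i ∈ 𝔊''.N := hl'' _ (by simp)
        have g2 : (check (eK η) : Name T) ∈ 𝔊''.N := hl'' _ (by simp)
        have g3 : (checkSet (range eK) : Name T) ∈ 𝔊''.N := hl'' _ (by simp)
        intro a ha
        exact dom_uniq hF''.rich.zfc (a := a) (a' := 𝔊''.cls ⟨_, g2⟩) (b := 𝔊''.cls ⟨_, g3⟩) ha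
          (isFun_rep_node hK hKr hF'' (rep_self g1) (rep_self g2) (rep_self g3))
      have h7 : ∀ a, IsFun 𝔊'.E (𝔊'.cls ⟨_, e3⟩) a (𝔊'.cls ⟨_, e4⟩) → a = 𝔊'.cls ⟨_, e2⟩ :=
        Frc.true_list (R := fun _ E v => ∀ a, IsFun E (v 0) a (v 2) → a = v 1)
          (FO.all (FO.imp (FO.isFun _ _ _) (FO.eq _ _))) 𝔊' [⟨_, e3⟩, ⟨_, e2⟩, ⟨_, e4⟩]
          ⟨omegaName, hR'.omega_mem⟩ (n := 0) (h6.mono h0')
      have h8 : IsFun 𝔊'.E (𝔊'.cls ⟨_, e3⟩) (𝔊'.cls ⟨_, e1⟩) (𝔊'.cls ⟨_, e4⟩) :=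
        Frc.true_list (R := fun _ E v => IsFun E (v 0) (v 1) (v 2)) (FO.isFun 0 1 2) 𝔊'
          [⟨_, e3⟩, ⟨_, e1⟩, ⟨_, e4⟩] ⟨omegaName, hR'.omega_mem⟩ (n := 0) (hn.mono h0')
      exact h7 _ h8
    obtain ⟨x, hx, hbx⟩ := (E_rep_check hF.decC hak).1 hba
    have hxk : x ∈ range eK := by
      rw [hKr]
      have : eK η ∈ range eK := ⟨η, rfl⟩
      rw [hKr] at this
      exact hx.trans this
    obtain ⟨η', rfl⟩ := hxk
    have hη : η' ≤ η := (hK.lt_iff_lt.1 hx).le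
    obtain ⟨t', rfl⟩ := 𝔊.exists_rep t
    -- the restriction is forced
    have h5 : ∃ n, Frc (fun _ E v => IsRes E (v 0) (v 1) (v 2))
        (ev omegaName [t'.1, nodeN eK Y η i, check (eK η')]) (𝔊.G n) :=
      (C09_iff (FOx.isRes 0 1 2) hF (xs := [𝔊.cls t', s, b])
        (List.Forall₂.cons (rep_self t'.2) (List.Forall₂.cons hi
          (List.Forall₂.cons hbx List.Forall₂.nil)))).1 hres
    obtain ⟨n, hn⟩ := h5
    refine true_of_dense (R := fun _ E v => E (v 0) (v 1)) (FO.mem 0 1) 𝔊 hF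
      [t', ⟨_, hTN⟩] n ?_
    intro q hq
    obtain ⟨q', hq', i', hi'⟩ := h1 η' η hη i q
    refine ⟨q', hq', ?_⟩
    refine frc_full W (FO.mem 0 1) _ q' {nodeN eK Y η i, nodeN eK Y η' i', check (eK η),
      check (eK η'), checkSet (range eK)} (by simp) ?_
    intro 𝔊' hF' h0' hS' hl'
    have e1 : nodeN eK Y η i ∈ 𝔊'.N := hS' (by simp)
    have e2 : nodeN eK Y η' i' ∈ 𝔊'.N := hS' (by simp)
    have e3 : (check (eK η) : Name T) ∈ 𝔊'.N := hS' (by simp)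
    have e4 : (check (eK η') : Name T) ∈ 𝔊'.N := hS' (by simp)
    have e5 : (checkSet (range eK) : Name T) ∈ 𝔊'.N := hS' (by simp)
    have e6 : t'.1 ∈ 𝔊'.N := hl' _ (by simp)
    have e7 : treeN eK Y ∈ 𝔊'.N := hl' _ (by simp)
    change 𝔊'.E (𝔊'.cls ⟨t'.1, e6⟩) (𝔊'.cls ⟨_, e7⟩)
    have h8 : IsRes 𝔊'.E (𝔊'.cls ⟨_, e6⟩) (𝔊'.cls ⟨_, e1⟩) (𝔊'.cls ⟨_, e4⟩) :=
      Frc.true_list (R := fun _ E v => IsRes E (v 0) (v 1) (v 2)) (FOx.isRes 0 1 2) 𝔊'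
        [⟨_, e6⟩, ⟨_, e1⟩, ⟨_, e4⟩] ⟨omegaName, hF'.rich.omega_mem⟩ (n := 0)
        (hn.mono (h0'.trans (hq'.trans hq)))
    have h9 := C09_res hK hKr hF' hη (rep_self e1) (rep_self e4) (rep_self e3) (rep_self e5) h8
      h0' hi' (rep_self e2)
    rw [h9]
    exact (E_tree hK hKr hF' e7).2 ⟨η', i', rep_self e2⟩
  · -- levels are nonempty
    obtain ⟨η, hη⟩ := hkel a ha
    have h5 : ∃ s, 𝔊.E s (𝔊.cls ⟨treeN eK Y, hTN⟩) ∧
        IsFun 𝔊.E s a (𝔊.cls ⟨checkSet (range eK), hkN⟩) := by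
      refine (C09_iff (R := fun _ E v => ∃ s, E s (v 0) ∧ IsFun E s (v 1) (v 2))
        (FO.ex (FO.and (FO.mem _ _) (FO.isFun _ _ _))) hF
        (xs := [𝔊.cls ⟨treeN eK Y, hTN⟩, a, 𝔊.cls ⟨checkSet (range eK), hkN⟩])
        (List.Forall₂.cons (rep_self hTN) (List.Forall₂.cons hη
          (List.Forall₂.cons (rep_self hkN) List.Forall₂.nil)))).2 ⟨0, ?_⟩
      refine frc_full W (FO.ex (FO.and (FO.mem _ _) (FO.isFun _ _ _))) _ _ {nodeN eK Y η i00}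
        (by simp) ?_
      intro 𝔊' hF' _ hS' hl'
      have e1 : nodeN eK Y η i00 ∈ 𝔊'.N := hS' rfl
      have e2 : treeN eK Y ∈ 𝔊'.N := hl' _ (by simp)
      have e3 : (check (eK η) : Name T) ∈ 𝔊'.N := hl' _ (by simp)
      have e4 : (checkSet (range eK) : Name T) ∈ 𝔊'.N := hl' _ (by simp)
      refine ⟨𝔊'.cls ⟨_, e1⟩, ?_, ?_⟩
      · change 𝔊'.E _ (𝔊'.cls ⟨_, e2⟩)
        exact (E_tree hK hKr hF' e2).2 ⟨η, i00, rep_self e1⟩
      · change IsFun 𝔊'.E _ (𝔊'.cls ⟨_, e3⟩) (𝔊'.cls ⟨_, e4⟩)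
        exact isFun_rep_node hK hKr hF' (rep_self e1) (rep_self e3) (rep_self e4)
    obtain ⟨s, hs⟩ := h5
    exact ⟨s, (hL s).2 hs⟩
  · -- levels are small
    obtain ⟨η, hη⟩ := hkel a ha
    have h5 : ∀ L, IsLevel 𝔊.E (𝔊.cls ⟨checkSet (range eK), hkN⟩) (𝔊.cls ⟨treeN eK Y, hTN⟩) a L →
        ∃ i, IsInj 𝔊.E i L (𝔊.cls ⟨checkSet (range eI), hlN⟩) :=
      (C09_iff (R := fun _ E v => ∀ L, IsLevel E (v 1) (v 2) (v 3) L →
          ∃ i, IsInj E i L (v 0))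
        (FO.all (FO.imp (FOx.isLevel _ _ _ _) (FO.ex (FOx.isInj _ _ _)))) hF
        (xs := [𝔊.cls ⟨checkSet (range eI), hlN⟩, 𝔊.cls ⟨checkSet (range eK), hkN⟩,
          𝔊.cls ⟨treeN eK Y, hTN⟩, a])
        (List.Forall₂.cons (rep_self hlN) (List.Forall₂.cons (rep_self hkN)
          (List.Forall₂.cons (rep_self hTN) (List.Forall₂.cons hη List.Forall₂.nil))))).2
        ⟨0, frc_level hK hKr hI hIr η _⟩
    exact h5 L hL
  · -- the branches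
    obtain ⟨B, hB⟩ := exists_branch_set hZ (𝔊.cls ⟨checkSet (range eK), hkN⟩)
      (𝔊.cls ⟨treeN eK Y, hTN⟩)
    have hbr : ∀ ξ v, Rep 𝔊 v (pfN eK eK (Br ξ)) → 𝔊.E v B := by
      intro ξ v hv
      rw [hB v]
      exact (C09_iff (R := fun _ E v => IsBranch E (v 0) (v 1) (v 2)) (FOx.isBranch 0 1 2) hF
        (xs := [𝔊.cls ⟨checkSet (range eK), hkN⟩, 𝔊.cls ⟨treeN eK Y, hTN⟩, v])
        (List.Forall₂.cons (rep_self hkN) (List.Forall₂.cons (rep_self hTN)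
          (List.Forall₂.cons hv List.Forall₂.nil)))).2 ⟨0, (frc_isBranch_iff hK hKr).2 (h2 ξ _)⟩
    refine ⟨B, 𝔊.cls ⟨_, hjN⟩, hB, ⟨fun z hz => ?_, fun x hx => ?_⟩, fun x x' y hx hx' => ?_⟩
    · obtain ⟨u, v, h5, h6⟩ := isPair_of_mem_mk hF.rich (ι := W) (A := fun ξ => check ξ)
        (B := fun ξ => pfN eK eK (Br ξ)) (c := fun _ => ⊤) hjN hz
      obtain ⟨ξ, h7, h8⟩ := (C09_val_b hF.rich hjN).1 h6
      exact ⟨u, v, (E_checkSet hF.rich hmN).2 ⟨ξ, mem_univ ξ, h7⟩, hbr ξ v h8, h5⟩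
    · obtain ⟨ξ, -, hξ⟩ := (E_checkSet hF.rich hmN).1 hx
      have hex : ∃ y, Val 𝔊.E (𝔊.cls ⟨_, hjN⟩) x y := by
        refine (C09_iff (R := fun _ E v => ∃ y, Val E (v 0) (v 1) y) (FO.ex (FO.val _ _ _)) hF
          (xs := [𝔊.cls ⟨_, hjN⟩, x]) (List.Forall₂.cons (rep_self hjN)
            (List.Forall₂.cons hξ List.Forall₂.nil))).2 ⟨0, ?_⟩
        refine frc_full W (FO.ex (FO.val _ _ _)) _ _ {pfN eK eK (Br ξ)} (by simp) ?_
        intro 𝔊' hF' _ hS' hl'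
        have e1 : pfN eK eK (Br ξ) ∈ 𝔊'.N := hS' rfl
        have e2 : C09_b eK Br ∈ 𝔊'.N := hl' _ (by simp)
        have e3 : (check ξ : Name T) ∈ 𝔊'.N := hl' _ (by simp)
        refine ⟨𝔊'.cls ⟨_, e1⟩, ?_⟩
        change Val 𝔊'.E (𝔊'.cls ⟨_, e2⟩) (𝔊'.cls ⟨_, e3⟩) _
        exact (C09_val_b hF'.rich e2).2 ⟨ξ, rep_self e3, rep_self e1⟩
      obtain ⟨y, hy⟩ := hex
      refine ⟨y, hy, fun y' hy' => ?_⟩
      obtain ⟨ξ1, g1, g2⟩ := (C09_val_b hF.rich hjN).1 hy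
      obtain ⟨ξ2, g3, g4⟩ := (C09_val_b hF.rich hjN).1 hy'
      have h5 : ξ1 = ξ2 := g1.check_inj g3
      subst h5
      exact g4.unique g2
    · obtain ⟨ξ1, g1, g2⟩ := (C09_val_b hF.rich hjN).1 hx
      obtain ⟨ξ2, g3, g4⟩ := (C09_val_b hF.rich hjN).1 hx'
      have h5 : ξ1 = ξ2 := by
        by_contra hne
        obtain ⟨n, hn⟩ := (eq_iff hK.injective hK.injective hF g2 g4).1 rfl
        obtain ⟨q', hq', e, b, b', hbb, hb1, hb2⟩ := h3 ξ1 ξ2 hne (𝔊.G n)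
        have h6 := (hn e (mem_univ e) b q' hq').1 hb1
        exact hbb ((Br ξ2).uniq e b b' q' h6 hb2)
      subst h5
      exact g1.unique g3

end Pool.Agent.KTM
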