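import Pool.Agent.Lib_MP_bf47cd.C05
import Pool.Agent.Lib_MP_bf47cd.C06
import Pool.Agent.Lib_MP_bf47cd.C07
import Pool.Agent.Lib_MP_bf47cd.C08
import Pool.Agent.Lib_MP_bf47cd.C09

/-!
# H17-C10: the model from the interface
-/

set_option linter.unusedSectionVars false
set_option linter.unusedVariables false

namespace Pool.Agent.KTM

universe u

open Pool.Agent.Forcing Pool.Agent.Forcing.Name Pool.Agent.Inner Set Cardinal Pool.Agent.KT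

variable {T W K I : Type u} [Preorder T] [OrderTop T] [LinearOrder W] [WellFoundedLT W]
  [LinearOrder K] [WellFoundedLT K] [OrderBot K] [SuccOrder K] [NoMaxOrder K] [LinearOrder I]
  [WellFoundedLT I] {eK : K → W} {eI : I → W} {eN : ULift.{u} ℕ → W} {kW iW nW : W}
  (hT : Iface T W K I eK eI eN kW iW nW)
include hT

/-- the statements about Kurepa trees, in every full generic model containing the canonical names
of the cardinals -/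
theorem kurepa_model {𝔊 : Gen T} (hF : Full W 𝔊) {w1 w2 w3 : 𝔊.M}
    (h1 : Rep 𝔊 w1 (checkSet (range eI))) (h2 : Rep 𝔊 w2 (checkSet (range eK)))
    (h3 : Rep 𝔊 w3 (checkSet (univ : Set W))) :
    (∃ t, IsKurepa 𝔊.E w1 w2 w3 t) ∧
      ∀ t, IsKurepa 𝔊.E w1 w2 w3 t → ∃ F, IsContOnto 𝔊.E w2 t F := by
  have hK := hT.monoK
  have hKr := hT.rangeK
  have hI := hT.monoI
  have hIr := hT.rangeI
  have : Nonempty I := by
    have h : nW ∈ range eI := by rw [hIr]; exact hT.nW_lt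
    obtain ⟨x, _⟩ := h
    exact ⟨x⟩
  have : Nonempty W := ⟨kW⟩
  obtain ⟨a1, rfl, n1, q1⟩ := h1
  obtain ⟨a2, rfl, n2, q2⟩ := h2
  obtain ⟨a3, rfl, n3, q3⟩ := h3
  constructor
  · obtain ⟨Y, Br, hY1, hY2, hY3⟩ := hT.kurepa
    have hR : FO.{u+1} (fun _ E v => ∃ t, IsKurepa E (v 0) (v 1) (v 2) t) :=
      FO.ex (FOx.isKurepa 1 2 3 0)
    have key : Frc (fun _ E v => ∃ t, IsKurepa E (v 0) (v 1) (v 2) t)
        (ev omegaName [a1.1, a2.1, a3.1]) (𝔊.G (max n1 (max n2 n3))) := by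
      refine frc_full W hR [a1.1, a2.1, a3.1] _
        {checkSet (range eI), checkSet (range eK), checkSet (univ : Set W), treeN eK Y}
        (by simp) ?_
      intro 𝔊' hF' h0 hS hl
      have m1 : (checkSet (range eI) : Name T) ∈ 𝔊'.N := hS (by simp)
      have m2 : (checkSet (range eK) : Name T) ∈ 𝔊'.N := hS (by simp)
      have m3 : (checkSet (univ : Set W) : Name T) ∈ 𝔊'.N := hS (by simp)
      have m4 : treeN eK Y ∈ 𝔊'.N := hS (by simp)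
      have l1 : a1.1 ∈ 𝔊'.N := hl a1.1 (by simp)
      have l2 : a2.1 ∈ 𝔊'.N := hl a2.1 (by simp)
      have l3 : a3.1 ∈ 𝔊'.N := hl a3.1 (by simp)
      have c1 : 𝔊'.cls ⟨a1.1, l1⟩ = 𝔊'.cls ⟨_, m1⟩ :=
        (𝔊'.cls_eq).2 ⟨0, feq_mono q1 (h0.trans (𝔊.anti (le_max_left _ _)))⟩
      have c2 : 𝔊'.cls ⟨a2.1, l2⟩ = 𝔊'.cls ⟨_, m2⟩ :=
        (𝔊'.cls_eq).2 ⟨0, feq_mono q2 (h0.trans (𝔊.anti
          ((le_max_left _ _).trans (le_max_right _ _))))⟩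
      have c3 : 𝔊'.cls ⟨a3.1, l3⟩ = 𝔊'.cls ⟨_, m3⟩ :=
        (𝔊'.cls_eq).2 ⟨0, feq_mono q3 (h0.trans (𝔊.anti
          ((le_max_right _ _).trans (le_max_right _ _))))⟩
      have hk := Frc.true_list (FOx.isKurepa 0 1 2 3) 𝔊'
        [⟨_, m1⟩, ⟨_, m2⟩, ⟨_, m3⟩, ⟨_, m4⟩] ⟨omegaName, hF'.rich.omega_mem⟩
        (frc_kurepa hK hKr hI hIr Br hY1 hY2 hY3 (𝔊'.G 0))
      change ∃ t, IsKurepa 𝔊'.E (𝔊'.cls ⟨a1.1, l1⟩) (𝔊'.cls ⟨a2.1, l2⟩)
        (𝔊'.cls ⟨a3.1, l3⟩) t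
      rw [c1, c2, c3]
      exact ⟨_, hk⟩
    exact Frc.true_list hR 𝔊 [a1, a2, a3] ⟨omegaName, hF.rich.omega_mem⟩ key
  · intro t ht
    obtain ⟨z, rfl⟩ := 𝔊.exists_rep t
    obtain ⟨n, hn⟩ := (truth_list (FOx.isKurepa 0 1 2 3) 𝔊 [a1, a2, a3, z]
      ⟨omegaName, hF.rich.omega_mem⟩).1 ht
    set N := max n (max n1 (max n2 n3)) with hN
    have b0 : 𝔊.G N ≤ 𝔊.G n := 𝔊.anti (le_max_left _ _)
    have b1 : 𝔊.G N ≤ 𝔊.G n1 := 𝔊.anti ((le_max_left _ _).trans (le_max_right _ _))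
    have b2 : 𝔊.G N ≤ 𝔊.G n2 :=
      𝔊.anti ((le_max_left _ _).trans ((le_max_right _ _).trans (le_max_right _ _)))
    have b3 : 𝔊.G N ≤ 𝔊.G n3 :=
      𝔊.anti ((le_max_right _ _).trans ((le_max_right _ _).trans (le_max_right _ _)))
    have hKur : KurP eK eI z.1 (𝔊.G N) := by
      refine frc_congr_list (l := [a1.1, a2.1, a3.1, z.1]) ?_ (Frc.mono hn b0)
      exact List.Forall₂.cons (feq_mono q1 b1) (List.Forall₂.cons (feq_mono q2 b2)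
        (List.Forall₂.cons (feq_mono q3 b3) (List.Forall₂.cons (feq_refl _ _)
          List.Forall₂.nil)))
    obtain ⟨Y, hY⟩ := exists_Y hK hKr hI hIr hKur
    obtain ⟨X0, hX0⟩ := exists_X0 hK hKr hI hIr hKur hY
    obtain ⟨F, f1, f2, f3⟩ := hT.map Y (𝔊.G N) X0 hX0
    have hcont := frc_contOnto hK hKr f1 f2 f3
    have hR : FO.{u+1} (fun _ E v => ∃ F, IsContOnto E (v 0) (v 1) F) :=
      FO.ex (FOx.isContOnto 1 2 0)
    have key : Frc (fun _ E v => ∃ F, IsContOnto E (v 0) (v 1) F)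
        (ev omegaName [a2.1, z.1]) (𝔊.G N) := by
      refine frc_full W hR [a2.1, z.1] _
        {checkSet (range eK), treeN eK Y, mapN eK F} (by simp) ?_
      intro 𝔊' hF' h0 hS hl
      have m2 : (checkSet (range eK) : Name T) ∈ 𝔊'.N := hS (by simp)
      have m4 : treeN eK Y ∈ 𝔊'.N := hS (by simp)
      have m5 : mapN eK F ∈ 𝔊'.N := hS (by simp)
      have l2 : a2.1 ∈ 𝔊'.N := hl a2.1 (by simp)
      have l4 : z.1 ∈ 𝔊'.N := hl z.1 (by simp)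
      have c2 : 𝔊'.cls ⟨a2.1, l2⟩ = 𝔊'.cls ⟨_, m2⟩ :=
        (𝔊'.cls_eq).2 ⟨0, feq_mono q2 (h0.trans b2)⟩
      have c4 : 𝔊'.cls ⟨z.1, l4⟩ = 𝔊'.cls ⟨_, m4⟩ :=
        (𝔊'.cls_eq).2 ⟨0, feq_mono hY h0⟩
      have hk := Frc.true_list (FOx.isContOnto 0 1 2) 𝔊'
        [⟨_, m2⟩, ⟨_, m4⟩, ⟨_, m5⟩] ⟨omegaName, hF'.rich.omega_mem⟩
        (Frc.mono hcont h0)
      change ∃ F, IsContOnto 𝔊'.E (𝔊'.cls ⟨a2.1, l2⟩) (𝔊'.cls ⟨z.1, l4⟩) F
      rw [c2, c4]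
      exact ⟨_, hk⟩
    exact Frc.true_list hR 𝔊 [a2, z] ⟨omegaName, hF.rich.omega_mem⟩ key

/-- **The model**, from the interface. -/
theorem exists_model : ∃ (M : Type (u+1)) (E : M → M → Prop), ModelsZFC E ∧ OmegaModel E ∧
    ∃ w0 w1 w2 w3 : M, IsOmega E w0 ∧ IsSuccCard E w0 w1 ∧ IsSuccCard E w1 w2 ∧
      IsSuccCard E w2 w3 ∧ (∃ s, OntoPow E s w1 w0) ∧ (∃ s, OntoPow E s w2 w1) ∧
      (∃ s, OntoPow E s w3 w2) ∧ (∃ t, IsKurepa E w1 w2 w3 t) ∧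
      ∀ t, IsKurepa E w1 w2 w3 t → ∃ F, IsContOnto E w2 t F := by
  obtain ⟨𝔊, hF, _, hSN⟩ := exists_full W ({checkSet (range eN), checkSet (range eI),
    checkSet (range eK), checkSet (univ : Set W)} : Set (Name T)) (by simp) ⊤
  have m0 : (checkSet (range eN) : Name T) ∈ 𝔊.N := hSN (by simp)
  have m1 : (checkSet (range eI) : Name T) ∈ 𝔊.N := hSN (by simp)
  have m2 : (checkSet (range eK) : Name T) ∈ 𝔊.N := hSN (by simp)
  have m3 : (checkSet (univ : Set W) : Name T) ∈ 𝔊.N := hSN (by simp)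
  obtain ⟨c0, c1, c2, c3⟩ := cardinals hT hF (rep_self m0) (rep_self m1) (rep_self m2)
    (rep_self m3)
  obtain ⟨k1, k2⟩ := kurepa_model hT hF (rep_self m1) (rep_self m2) (rep_self m3)
  refine ⟨𝔊.M, 𝔊.E, hF.rich.zfc, ⟨hF.rich.om, fun x => ?_⟩, 𝔊.cls ⟨_, m0⟩, 𝔊.cls ⟨_, m1⟩,
    𝔊.cls ⟨_, m2⟩, 𝔊.cls ⟨_, m3⟩, c0, c1, c2, c3, ?_, ?_, ?_, k1, k2⟩
  · rw [hF.rich.mem_om]
    exact exists_congr fun n => (Gen.isNum_num hF.rich.num_mem n x).symm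
  · obtain ⟨S, hS⟩ := hT.pow_N
    exact ontoPow_rep hT.monoN.injective hT.monoI.injective hS hF (rep_self m0) (rep_self m1)
  · obtain ⟨S, hS⟩ := hT.pow_I
    exact ontoPow_rep hT.monoI.injective hT.monoK.injective hS hF (rep_self m1) (rep_self m2)
  · obtain ⟨S, hS⟩ := hT.pow_K
    exact ontoPow_rep (eB := (id : W → W)) hT.monoK.injective Function.injective_id hS hF
      (rep_self m2) (by rw [range_id]; exact rep_self m3)

end Pool.Agent.KTM
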