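import Pool.Agent.Lib_MP_bf47cd.C02
import Pool.Agent.Lib_MP_bf47cd.A15

/-!
# H17-CDefs: names of functions, subsets and trees given by functions valued in the forcing; the
interface between the forcing and the model

`T` is any forcing, `W` a well-order, `K`, `I` well-orders embedded as initial segments in `W`.
-/

set_option linter.unusedSectionVars false
set_option linter.unusedVariables false

namespace Pool.Agent.KTM

universe u

open Pool.Agent.Forcing Pool.Agent.Forcing.Name Pool.Agent.Inner Set Cardinal Pool.Agent.KT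

section names
variable {T W A B : Type u} [Preorder T] [OrderTop T] [LinearOrder W] [WellFoundedLT W]

/-- the name of the function from `range eA` to `range eB` given by `X` -/
noncomputable def pfN (eA : A → W) (eB : B → W) (X : PF T A B) : Name T :=
  Name.mk {t : A × B × T // X.val t.1 t.2.1 t.2.2}
    (fun t => opairName (check (eA t.1.1)) (check (eB t.1.2.1))) (fun t => t.1.2.2)

/-- the name of the subset of `range eA` given by `S` -/
noncomputable def subN (eA : A → W) (S : PF T A (ULift.{u} Bool)) : Name T :=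
  Name.mk {t : A × T // S.val t.1 ⟨true⟩ t.2} (fun t => check (eA t.1.1)) (fun t => t.1.2)

variable {K I : Type u} [LinearOrder K]

/-- the name of the `i`-th node of level `η` -/
noncomputable def nodeN (eK : K → W) (Y : PF T (K × I × K) K) (η : K) (i : I) : Name T :=
  Name.mk {t : K × K × T // t.1 < η ∧ Y.val (η, i, t.1) t.2.1 t.2.2}
    (fun t => opairName (check (eK t.1.1)) (check (eK t.1.2.1))) (fun t => t.1.2.2)

/-- the name of the tree whose levels are enumerated by `Y` -/
noncomputable def treeN (eK : K → W) (Y : PF T (K × I × K) K) : Name T :=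
  Name.mk (K × I) (fun t => nodeN eK Y t.1 t.2) (fun _ => ⊤)

end names

section iface
variable {T W K I : Type u} [Preorder T] [LinearOrder W] [LinearOrder K] [LinearOrder I]

/-- `q` forces that `X` is a branch of the tree with the levels enumerated by `Y` -/
def MemP (Y : PF T (K × I × K) K) (X : PF T K K) (q : T) : Prop :=
  ∀ η : K, ∀ r ≤ q, ∃ r' ≤ r, ∃ i : I, ∀ e < η, ∀ b, ∀ s ≤ r', X.val e b s →
    Y.val (η, i, e) b s

/-- the levels enumerated by `Y` form a tree (are closed under restrictions) -/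
def TreeLike (Y : PF T (K × I × K) K) : Prop :=
  ∀ η' η : K, η' ≤ η → ∀ i : I, ∀ q : T, ∃ q' ≤ q, ∃ i' : I, ∀ e < η', ∀ b, ∀ s ≤ q',
    Y.val (η, i, e) b s → Y.val (η', i', e) b s

/-- `q` forces that `J` is injective -/
def InjP {A B : Type u} (J : PF T A B) (q : T) : Prop :=
  ∀ a a' b, ∀ r ≤ q, J.val a b r → J.val a' b r → a = a'

/-- `S x`, `x : B`, enumerates all subsets of `A` -/
def PowP (A B : Type u) (S : PF T (B × A) (ULift.{u} Bool)) : Prop :=
  ∀ (X : PF T A (ULift.{u} Bool)) (q : T), ∃ q' ≤ q, ∃ x : B, ∀ a b, ∀ r ≤ q',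
    X.val a b r → S.val (x, a) b r

/-- The interface: what the model construction needs to know about the forcing `T`. The cardinals
`ω, ω₁, ω₂, ω₃` of the model are `ULift ℕ`, `I`, `K`, `W`. -/
structure Iface (T W K I : Type u) [Preorder T] [LinearOrder W] [LinearOrder K] [SuccOrder K]
    [LinearOrder I] (eK : K → W) (eI : I → W) (eN : ULift.{u} ℕ → W) (kW iW nW : W) : Prop where
  monoK : StrictMono eK
  monoI : StrictMono eI
  monoN : StrictMono eN
  rangeK : range eK = Iio kW
  rangeI : range eI = Iio iW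
  rangeN : range eN = Iio nW
  nW_lt : nW < iW
  iW_lt : iW < kW
  noInj_I : ∀ (a : I) (J : PF T I (Iio a)) (q : T), ¬ InjP J q
  noInj_K : ∀ (a : K) (J : PF T K (Iio a)) (q : T), ¬ InjP J q
  noInj_W : ∀ (a : W) (J : PF T W (Iio a)) (q : T), ¬ InjP J q
  inj_I : ∀ a : I, ∃ J : PF T (Iio a) (ULift.{u} ℕ), ∀ q, InjP J q
  inj_K : ∀ a : K, ∃ J : PF T (Iio a) I, ∀ q, InjP J q
  inj_W : ∀ a : W, ∃ J : PF T (Iio a) K, ∀ q, InjP J q
  pow_N : ∃ S : PF T (I × ULift.{u} ℕ) (ULift.{u} Bool), PowP (ULift.{u} ℕ) I S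
  pow_I : ∃ S : PF T (K × I) (ULift.{u} Bool), PowP I K S
  pow_K : ∃ S : PF T (W × K) (ULift.{u} Bool), PowP K W S
  kurepa : ∃ (Y : PF T (K × I × K) K) (Br : W → PF T K K), TreeLike Y ∧
    (∀ ξ q, MemP Y (Br ξ) q) ∧
    ∀ ξ ξ', ξ ≠ ξ' → ∀ q, ∃ q' ≤ q, ∃ e b b', b ≠ b' ∧ (Br ξ).val e b q' ∧
      (Br ξ').val e b' q'
  map : ∀ (Y : PF T (K × I × K) K) (q0 : T) (X0 : PF T K K), MemP Y X0 q0 →
    ∃ F : PF T K K → PF T K K, (∀ x, MemP Y (F x) q0) ∧
      (∀ x x' e q, q ≤ q0 → PF.EqOn x x' (Iic (Order.succ e)) q → ∀ v,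
        (F x).val e v q ↔ (F x').val e v q) ∧
      ∀ X q, q ≤ q0 → MemP Y X q → ∃ q' ≤ q, ∃ x, PF.EqOn (F x) X univ q'

end iface

end Pool.Agent.KTM
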