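import Pool.Agent.Lib_MP_bf47cd.D01
import Pool.Agent.Lib_MP_bf47cd.A04
import Pool.Agent.Lib_MP_bf47cd.A11

/-!
# H17-D03: the generic surjections and injections
-/

set_option linter.unusedSectionVars false
set_option linter.unusedVariables false

namespace Pool.Agent.KTM

universe u

open Set Cardinal Pool.Agent.KT

variable {K ι W Q I : Type u} [LinearOrder K] [OrderBot K] [WellFoundedLT K] [SuccOrder K]
  [NoMaxOrder K] {m0 : K} [LinearOrder W] [OrderBot W] [WellFoundedLT W] {chi : W → W}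
  [Preorder Q] [LinearOrder I] [WellFoundedLT I] [hK : SetupK K ι m0] [hW : SetupW K ι W chi]
  [hQ : SetupQ Q ι]

/-- countable ordinals: a function -/
theorem inj_I (P : Type u) [Preorder P] [hI : SetupI I] (a : I) :
    ∃ J : PF P (Iio a) (ULift.{u} ℕ), ∀ q, InjP J q := by
  have h : (Iio a).Countable := hI.seg a
  have h1 : Countable (Iio a) := h.to_subtype
  obtain ⟨f, hf⟩ := Countable.exists_injective_nat (Iio a)
  exact ⟨PF.ofFun P fun x => ULift.up (f x), fun q =>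
    injP_ofFun (fun x y hxy => hf (ULift.up_injective hxy)) q⟩

include hK in
/-- `#(Iio a) ≤ #ι = #(Iio m0)`, and `Iio m0` is injected into `I` by the inverse of `gQ` -/
theorem inj_K (P : Type u) [Preorder P] {gQ : PF Q I (Iio m0)} (hg : DSurj gQ) (a : K) :
    ∃ J : PF (Q × P) (Iio a) I, ∀ q, InjP J q := by
  obtain ⟨J0, hJ0⟩ := exists_inverse hg
  have h1 : #(Iio a) ≤ #(Iio m0) := by
    rw [hK.card_m0]
    exact hK.seg a
  obtain ⟨f⟩ := Cardinal.le_def _ _ |>.1 h1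
  exact ⟨PF.pre (PF.lift P J0) f, fun q => InjP.pre (injP_lift hJ0 q) f.injective⟩

include hK hW hQ

/-- the generic surjection from `K` onto `Iic χ`: choose `ξ` with `chi ξ = χ` (`chi_fib`), the
decoration label `d := ⟨ξ, fun _ => ξ⟩`,
`v c x q := d ∈ q.2.N ∧ c < q.2.tr.ht ∧ q.2.g d c = x`; `Cond.exists_mem_N`, `Cond.exists_ht`,
`Cond.exists_g_eq` -/
theorem exists_G (χ : W) :
    ∃ G : PF (Q × Cond K ι W m0 chi) K (Iic χ), DSurj G := by
  obtain ⟨ξ, hξ⟩ : ∃ ξ : W, chi ξ = χ := by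
    have h1 : #ι < #{ξ | (⊥ : W) ≤ ξ ∧ chi ξ = χ} := hW.chi_fib χ ⊥
    have h2 : #{ξ | (⊥ : W) ≤ ξ ∧ chi ξ = χ} ≠ 0 := (lt_of_le_of_lt zero_le h1).ne'
    rw [Cardinal.mk_ne_zero_iff] at h2
    obtain ⟨⟨ξ, hξ⟩⟩ := h2
    exact ⟨ξ, hξ.2⟩
  set d : DLab ι W := ⟨ξ, fun _ => ξ⟩ with hd
  obtain ⟨X, hX1, hX2⟩ := PF.exists_ofDense (P := Q × Cond K ι W m0 chi) (A := K) (B := Iic χ)
    (fun c x q => d ∈ q.2.N ∧ c < q.2.tr.ht ∧ q.2.g d c = x.1)
    (by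
      rintro c x p q hqp ⟨h1, h2, h3⟩
      refine ⟨Cond.le_N hqp.2 h1, h2.trans_le (Cond.le_ht hqp.2), ?_⟩
      rw [Cond.le_g hqp.2 h1 h2]
      exact h3)
    (by
      rintro c x x' p ⟨h1, h2, h3⟩ ⟨h4, h5, h6⟩
      exact Subtype.ext (h3.symm.trans h6))
    (by
      intro c p
      obtain ⟨p2, hp2, h2⟩ := Cond.exists_mem_N p.2 d
      obtain ⟨p3, hp3, h3⟩ := Cond.exists_ht p2 c
      have h4 : p3.g d c ≤ χ := by
        have h5 := p3.g_le' d c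
        rwa [hd, hξ] at h5
      exact ⟨(p.1, p3), ⟨le_rfl, hp3.trans hp2⟩, ⟨p3.g d c, h4⟩, Cond.le_N hp3 h2, h3, rfl⟩)
  refine ⟨X, fun b q => ?_⟩
  obtain ⟨p2, hp2, h2⟩ := Cond.exists_mem_N q.2 d
  obtain ⟨p3, hp3, c, h3, h4⟩ := Cond.exists_g_eq p2 d h2 b.1 (by
    show b.1 ≤ chi ξ
    rw [hξ]
    exact b.2)
  exact ⟨(q.1, p3), ⟨le_rfl, hp3.trans hp2⟩, c, hX2 c b _ ⟨Cond.le_N hp3 h2, h3, h4⟩⟩

/-- inverse of `exists_G` -/
theorem inj_W (a : W) :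
    ∃ J : PF (Q × Cond K ι W m0 chi) (Iio a) K, ∀ q, InjP J q := by
  obtain ⟨G, hG⟩ := exists_G (K := K) (ι := ι) (W := W) (Q := Q) (m0 := m0) (chi := chi) a
  obtain ⟨J, hJ⟩ := exists_inverse hG
  exact ⟨PF.pre J fun x : Iio a => (⟨x.1, (le_of_lt x.2 : x.1 ≤ a)⟩ : Iic a), fun q =>
    InjP.pre (hJ q) fun x y hxy => Subtype.ext (by
      have h := congrArg (fun t : Iic a => t.1) hxy
      exact h)⟩

end Pool.Agent.KTM
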