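import Pool.Agent.Lib_MP_bf47cd.D01
import Pool.Agent.Lib_MP_bf47cd.A11
import Pool.Agent.Lib_MP_bf47cd.A14

/-!
# H17-D04: cardinals are preserved

In all three proofs let `D b`, `b : Iio a`, be the set of the `r` with
`(∃ i, J.val i b r) ∨ ∀ s ≤ r, ∀ i, ¬ J.val i b s` (open and dense).
-/

set_option linter.unusedSectionVars false
set_option linter.unusedVariables false

namespace Pool.Agent.KTM

universe u

open Set Cardinal Pool.Agent.KT

variable {K ι W Q I : Type u} [LinearOrder K] [OrderBot K] [WellFoundedLT K] [SuccOrder K]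
  [NoMaxOrder K] {m0 : K} [LinearOrder W] [OrderBot W] [WellFoundedLT W] {chi : W → W}
  [Preorder Q] [LinearOrder I] [hK : SetupK K ι m0] [hW : SetupW K ι W chi]
  [hQ : SetupQ Q ι]
include hK hW hQ

omit hK hW hQ in
private theorem D04_open {P A B : Type u} [Preorder P] (J : PF P A B) (b : B) :
    ∀ q ∈ {r : P | (∃ i, J.val i b r) ∨ ∀ s ≤ r, ∀ i, ¬ J.val i b s}, ∀ r ≤ q,
      r ∈ {r : P | (∃ i, J.val i b r) ∨ ∀ s ≤ r, ∀ i, ¬ J.val i b s} := by
  rintro q (⟨i, hi⟩ | h) r hr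
  · exact Or.inl ⟨i, J.mono _ _ _ _ hr hi⟩
  · exact Or.inr fun s hs i => h s (hs.trans hr) i

omit hK hW hQ in
private theorem D04_dense {P A B : Type u} [Preorder P] (J : PF P A B) (b : B) (q : P) :
    ∃ r ≤ q, r ∈ {r : P | (∃ i, J.val i b r) ∨ ∀ s ≤ r, ∀ i, ¬ J.val i b s} := by
  by_cases h : ∃ s ≤ q, ∃ i, J.val i b s
  · obtain ⟨s, hs, i, hi⟩ := h
    exact ⟨s, hs, Or.inl ⟨i, hi⟩⟩
  · push Not at h
    exact ⟨q, le_rfl, Or.inr fun s hs i => h s hs i⟩

omit hQ in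
/-- the labels of a condition are bounded -/
private theorem D04_bd (p : Cond K ι W m0 chi) : ∃ b : W, Cond.restr b p = p := by
  have h1 : #(p.L) < #W := lt_of_le_of_lt p.L_card (ι_lt_W K m0 chi)
  have h2 : #(p.N) < #W := lt_of_le_of_lt p.N_card (ι_lt_W K m0 chi)
  obtain ⟨b, hb⟩ := exists_bddW K ι m0 chi h1 (fun ξ : p.L => ξ.1)
  obtain ⟨b', hb'⟩ := exists_bddW K ι m0 chi h2 (fun a : p.N => a.1.tag)
  refine ⟨max b b', ?_⟩
  rw [Cond.restr_eq_self_iff]
  refine ⟨fun ξ hξ => lt_max_of_lt_left (hb ⟨ξ, hξ⟩), fun a ha => ⟨lt_max_of_lt_right (hb' ⟨a, ha⟩),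
    fun z => lt_max_of_lt_left (hb ⟨a.w z, p.N_L a ha z⟩)⟩⟩

omit hK hW hQ in
private theorem D04_mono {p : Cond K ι W m0 chi} {b b' : W} (h : Cond.restr b p = p)
    (hb : b ≤ b') : Cond.restr b' p = p := by
  rw [Cond.restr_eq_self_iff] at h ⊢
  exact ⟨fun ξ hξ => (h.1 ξ hξ).trans_le hb, fun a ha => ⟨(h.2 a ha).1.trans_le hb,
    fun z => ((h.2 a ha).2 z).trans_le hb⟩⟩

omit hQ in
/-- amalgamation of a low condition with a condition -/
private theorem D04_amalg (b0 : W) (p s : Cond K ι W m0 chi) (hs : Cond.restr b0 s = s)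
    (h : s ≤ Cond.restr b0 p) : ∃ q : Cond K ι W m0 chi, q ≤ p ∧ q ≤ s := by
  obtain ⟨φ, hφ⟩ := Tr.exists_up p.tr s.tr h.1
  obtain ⟨q, h1, h2, -⟩ := Cond.exists_move b0 p s hs h (fun ξ => φ (p.b ξ))
    (fun ξ hξ _ => hφ _ (p.b_mem ξ hξ))
  exact ⟨q, h1, h2⟩

/-- By `distW` some `q' ≤ q` is in all the (countably many) `D b`. The set of the `i` with
`∃ b, J.val i b q'` is countable by injectivity; take `i` outside it, and `r ≤ q'`, `b` with
`J.val i b r`: contradiction. -/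
theorem noInj_I [hI : SetupI I] (a : I) (J : PF (Q × Cond K ι W m0 chi) I (Iio a))
    (q : Q × Cond K ι W m0 chi) : ¬ InjP J q := by
  intro hinj
  have hcount : Countable (Iio a) := (hI.seg a).to_subtype
  have hne : Nonempty (Iio a) := by
    obtain ⟨r, _, b, _⟩ := J.total a q
    exact ⟨b⟩
  obtain ⟨e, he⟩ := exists_surjective_nat (Iio a)
  obtain ⟨q', hq', hD⟩ := distW (ι := ι)
    (fun n => {r | (∃ i, J.val i (e n) r) ∨ ∀ s ≤ r, ∀ i, ¬ J.val i (e n) s})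
    (fun n => D04_open J (e n)) q (fun n r _ => D04_dense J (e n) r)
  have hD' : ∀ b, (∃ i, J.val i b q') ∨ ∀ s ≤ q', ∀ i, ¬ J.val i b s := by
    intro b
    obtain ⟨n, rfl⟩ := he b
    exact hD n
  have hS : {i | ∃ b, J.val i b q'}.Countable := by
    choose f hf using fun i : {i | ∃ b, J.val i b q'} => i.2
    have hfi : Function.Injective f := by
      intro i i' h
      apply Subtype.ext
      have h1 := hf i
      have h2 := hf i'
      rw [← h] at h2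
      exact hinj i.1 i'.1 (f i) q' hq' h1 h2
    exact Set.countable_coe_iff.1 hfi.countable
  have hex : ∃ i, i ∉ {i | ∃ b, J.val i b q'} := by
    by_contra hc
    push Not at hc
    have hne' : {i | ∃ b, J.val i b q'}.Nonempty := ⟨a, hc a⟩
    obtain ⟨s, hs⟩ := hS.exists_eq_range hne'
    obtain ⟨b, hb⟩ := hI.cof s
    have h1 : b ∈ {i | ∃ b, J.val i b q'} := hc b
    rw [hs] at h1
    obtain ⟨n, hn⟩ := h1
    exact absurd (hb n) (by rw [hn]; exact lt_irrefl _)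
  obtain ⟨i, hi⟩ := hex
  obtain ⟨r, hr, b, hb⟩ := J.total i q'
  rcases hD' b with ⟨i', hi'⟩ | h
  · have h1 := J.mono _ _ _ _ hr hi'
    have h2 := hinj i i' b r (hr.trans hq') hb h1
    exact hi ⟨b, by rw [h2]; exact hi'⟩
  · exact h r hr i hb

/-- By `distQ` there is `p ≤ q.2` with `∀ b, ∀ h ≤ q.1, ∃ h' ≤ h, (h', p) ∈ D b`. The set of the
`i` with `∃ h' ≤ q.1, ∃ b, J.val i b (h', p)` has size at most `#Q * #(Iio a) ≤ #ι` by
injectivity; take `i` outside it, `(h, p1) ≤ (q.1, p)` and `b` with `J.val i b (h, p1)`, `h' ≤ h`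
with `(h', p) ∈ D b`: contradiction. -/
theorem noInj_K (a : K) (J : PF (Q × Cond K ι W m0 chi) K (Iio a))
    (q : Q × Cond K ι W m0 chi) : ¬ InjP J q := by
  intro hinj
  obtain ⟨p, hp, hD⟩ := distQ (ι := ι) (J := Iio a) (hK.seg a)
    (fun b => {r | (∃ i, J.val i b r) ∨ ∀ s ≤ r, ∀ i, ¬ J.val i b s})
    (fun b => D04_open J b) q (fun b r _ => D04_dense J b r)
  have hS : #{i | ∃ h' ≤ q.1, ∃ b, J.val i b (h', p)} ≤ #ι := by
    choose f hf1 g hfg using fun i : {i | ∃ h' ≤ q.1, ∃ b, J.val i b (h', p)} => i.2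
    refine le_trans (mk_le_of_injective (f := fun i => (f i, g i)) ?_)
      (card_prod_le K m0 hQ.card (hK.seg a))
    intro i i' h
    apply Subtype.ext
    simp only [Prod.mk.injEq] at h
    have h1 := hfg i
    have h2 := hfg i'
    rw [← h.1, ← h.2] at h2
    exact hinj i.1 i'.1 (g i) (f i, p) ⟨hf1 i, hp⟩ h1 h2
  have hex : ∃ i, i ∉ {i | ∃ h' ≤ q.1, ∃ b, J.val i b (h', p)} := by
    by_contra hc
    push Not at hc
    have h1 : {i | ∃ h' ≤ q.1, ∃ b, J.val i b (h', p)} = Set.univ := eq_univ_of_forall hc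
    rw [h1, mk_univ] at hS
    exact absurd hK.big (not_lt.2 hS)
  obtain ⟨i, hi⟩ := hex
  obtain ⟨⟨h, p1⟩, ⟨hr1, hr2⟩, b, hb⟩ := J.total i (q.1, p)
  simp only at hr1 hr2
  obtain ⟨h', hh', hd⟩ := hD b h hr1
  have hle : ((h', p1) : Q × Cond K ι W m0 chi) ≤ (h', p) := ⟨le_rfl, hr2⟩
  have hle2 : ((h', p1) : Q × Cond K ι W m0 chi) ≤ (h, p1) := ⟨hh', le_rfl⟩
  have hleq : ((h', p1) : Q × Cond K ι W m0 chi) ≤ q := ⟨hh'.trans hr1, hr2.trans hp⟩
  rcases hd with ⟨i', hi'⟩ | hn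
  · have h1 := J.mono _ _ _ _ hle hi'
    have h2 := J.mono _ _ _ _ hle2 hb
    have h3 := hinj i i' b _ hleq h2 h1
    exact hi ⟨h', hh'.trans hr1, b, by rw [h3]; exact hi'⟩
  · exact hn _ hle i (J.mono _ _ _ _ hle2 hb)

/-- By `exists_closed_off` there is `b0` such that `q.2` has its labels below `b0` and every
condition with labels below `b0` has an extension with labels below `b0` in `D b`. The set of the
`i` with `J.val i b (h, p)` for some `b`, `(h, p) ≤ q`, `Cond.restr b0 p = p` has size less than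
`#W` (`card_low_lt`); take `i` outside it, `(h1, p1) ≤ q` and `b` with `J.val i b (h1, p1)`;
`(h', p') ≤ (h1, restr b0 p1)` in `D b` with labels below `b0` is compatible with `(h1, p1)`
(amalgamation as in A14, `A14_amalg`, `Cond.exists_move`, `Tr.exists_up`): contradiction. -/
theorem noInj_W (a : W) (J : PF (Q × Cond K ι W m0 chi) W (Iio a))
    (q : Q × Cond K ι W m0 chi) : ¬ InjP J q := by
  intro hinj
  obtain ⟨b1, hb1⟩ := D04_bd q.2
  obtain ⟨b0, hb0, hcl⟩ := exists_closed_off (hW.seg a)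
    (fun b => {r | (∃ i, J.val i b r) ∨ ∀ s ≤ r, ∀ i, ¬ J.val i b s})
    (fun b r => D04_dense J b r) b1
  have hq0 : Cond.restr b0 q.2 = q.2 := D04_mono hb1 hb0.le
  have hS : #{i | ∃ b h p, ((h, p) : Q × Cond K ι W m0 chi) ≤ q ∧ Cond.restr b0 p = p ∧
      J.val i b (h, p)} < #W := by
    choose f g k hk1 hk2 hk3 using fun i : {i | ∃ b h p,
      ((h, p) : Q × Cond K ι W m0 chi) ≤ q ∧ Cond.restr b0 p = p ∧ J.val i b (h, p)} => i.2
    have hcard : #((Iio a) × Q × {p : Cond K ι W m0 chi // Cond.restr b0 p = p}) < #W := by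
      rw [mk_prod, lift_id, lift_id, mk_prod, lift_id, lift_id]
      exact mul_lt_W K ι m0 chi (hW.seg a) (mul_lt_W K ι m0 chi
        (lt_of_le_of_lt hQ.card (ι_lt_W K m0 chi)) (card_low_lt K ι m0 chi b0))
    refine lt_of_le_of_lt (mk_le_of_injective (f := fun i =>
      ((f i, g i, ⟨k i, hk2 i⟩) :
        (Iio a) × Q × {p : Cond K ι W m0 chi // Cond.restr b0 p = p})) ?_) hcard
    intro i i' h
    apply Subtype.ext
    simp only [Prod.mk.injEq, Subtype.mk.injEq] at h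
    have h1 := hk3 i
    have h2 := hk3 i'
    rw [← h.1, ← h.2.1, ← h.2.2] at h2
    exact hinj i.1 i'.1 (f i) (g i, k i) (hk1 i) h1 h2
  have hex : ∃ i, i ∉ {i | ∃ b h p, ((h, p) : Q × Cond K ι W m0 chi) ≤ q ∧
      Cond.restr b0 p = p ∧ J.val i b (h, p)} := by
    by_contra hc
    push Not at hc
    have h1 : {i | ∃ b h p, ((h, p) : Q × Cond K ι W m0 chi) ≤ q ∧
      Cond.restr b0 p = p ∧ J.val i b (h, p)} = Set.univ := eq_univ_of_forall hc
    rw [h1, mk_univ] at hS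
    exact absurd hS (lt_irrefl _)
  obtain ⟨i, hi⟩ := hex
  obtain ⟨⟨h1, p1⟩, ⟨hr1, hr2⟩, b, hb⟩ := J.total i q
  simp only at hr1 hr2
  obtain ⟨h', hh', p', hp', hlow, hd⟩ := hcl b h1 (Cond.restr b0 p1) Cond.restr_restr
  obtain ⟨q', hq1, hq2⟩ := D04_amalg b0 p1 p' hlow hp'
  have hle : ((h', q') : Q × Cond K ι W m0 chi) ≤ (h', p') := ⟨le_rfl, hq2⟩
  have hle2 : ((h', q') : Q × Cond K ι W m0 chi) ≤ (h1, p1) := ⟨hh', hq1⟩
  have hleq : ((h', q') : Q × Cond K ι W m0 chi) ≤ q := ⟨hh'.trans hr1, hq1.trans hr2⟩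
  rcases hd with ⟨i', hi'⟩ | hn
  · have e1 := J.mono _ _ _ _ hle hi'
    have e2 := J.mono _ _ _ _ hle2 hb
    have e3 := hinj i i' b _ hleq e2 e1
    refine hi ⟨b, h', p', ⟨hh'.trans hr1, ?_⟩, hlow, by rw [e3]; exact hi'⟩
    have h5 := Cond.restr_mono hr2 b0
    rw [hq0] at h5
    exact hp'.trans h5
  · exact hn _ hle i (J.mono _ _ _ _ hle2 hb)

end Pool.Agent.KTM
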