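import Pool.Agent.Lib_MP_bf47cd.D03
import Pool.Agent.Lib_MP_bf47cd.A11

/-!
# H17-D05: subsets of `ω` and `ω₁`
-/

set_option linter.unusedSectionVars false
set_option linter.unusedVariables false

namespace Pool.Agent.KTM

universe u

open Set Cardinal Pool.Agent.KT

/-- a surjection from a larger type -/
private theorem D05_surj {α β : Type u} [Nonempty β] (h : #β ≤ #α) :
    ∃ φ : α → β, Function.Surjective φ := by
  obtain ⟨f⟩ := Cardinal.le_def β α |>.1 h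
  exact ⟨Function.invFun f, Function.invFun_surjective f.injective⟩

variable {K ι W Q I : Type u} [LinearOrder K] [OrderBot K] [WellFoundedLT K] [SuccOrder K]
  [NoMaxOrder K] {m0 : K} [LinearOrder W] [OrderBot W] [WellFoundedLT W] {chi : W → W}
  [Preorder Q] [LinearOrder I] [WellFoundedLT I] [hK : SetupK K ι m0] [hW : SetupW K ι W chi]
  [hQ : SetupQ Q ι]
include hK hW hQ

/-- Fix `φ : Iio m0 → (ULift ℕ → ULift Bool)` onto (`2 ^ ℵ₀ ≤ #ι`), and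
`v (i, n) b q := ∃ c, gQ.val i c q.1 ∧ φ c n = b`. Every `X` is decided densely (`distW`). -/
theorem pow_N {gQ : PF Q I (Iio m0)} (hg : DSurj gQ) :
    ∃ S : PF (Q × Cond K ι W m0 chi) (I × ULift.{u} ℕ) (ULift.{u} Bool),
      PowP (ULift.{u} ℕ) I S := by
  have hcard : #(ULift.{u} ℕ → ULift.{u} Bool) ≤ #(Iio m0) := by
    rw [hK.card_m0]
    calc #(ULift.{u} ℕ → ULift.{u} Bool) = 2 ^ ℵ₀ := by simp
      _ ≤ #ι ^ ℵ₀ := Cardinal.power_le_power_right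
          (le_trans (Cardinal.natCast_lt_aleph0 (n := 2)).le hK.inf)
      _ = #ι := hK.pow
  obtain ⟨φ, hφ⟩ := D05_surj hcard
  obtain ⟨S, hS1, hS2⟩ := PF.exists_ofDense (P := Q × Cond K ι W m0 chi) (A := I × ULift.{u} ℕ)
    (B := ULift.{u} Bool) (fun a b q => ∃ c, gQ.val a.1 c q.1 ∧ φ c a.2 = b)
    (by
      rintro a b p q hqp ⟨c, h1, h2⟩
      exact ⟨c, gQ.mono _ _ _ _ hqp.1 h1, h2⟩)
    (by
      rintro a b b' p ⟨c, h1, h2⟩ ⟨c', h3, h4⟩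
      have := gQ.uniq _ _ _ _ h1 h3
      rw [← h2, ← h4, this])
    (by
      rintro a p
      obtain ⟨h', hh, c, hc⟩ := gQ.total a.1 p.1
      exact ⟨(h', p.2), ⟨hh, le_rfl⟩, φ c a.2, c, hc, rfl⟩)
  refine ⟨S, fun X q => ?_⟩
  obtain ⟨q1, hq1, hD⟩ := distW (fun n => {q : Q × Cond K ι W m0 chi | ∃ b, X.val ⟨n⟩ b q})
    (by
      rintro n q ⟨b, hb⟩ r hr
      exact ⟨b, X.mono _ _ _ _ hr hb⟩)
    q
    (by
      intro n q' _
      obtain ⟨r, hr, b, hb⟩ := X.total ⟨n⟩ q'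
      exact ⟨r, hr, b, hb⟩)
  choose b hb using hD
  obtain ⟨c, hc⟩ := hφ fun a => b a.down
  obtain ⟨h', hh, i, hi⟩ := hg c q1.1
  refine ⟨(h', q1.2), le_trans (b := q1) ⟨hh, le_rfl⟩ hq1, i, fun a b' r hr hX => ?_⟩
  have hr1 : r ≤ q1 := hr.trans ⟨hh, le_rfl⟩
  have h1 : X.val a (b a.down) r := X.mono _ _ _ _ hr1 (hb a.down)
  have h2 := X.uniq _ _ _ _ hX h1
  refine hS2 _ _ _ ⟨c, gQ.mono _ _ _ _ hr.1 hi, ?_⟩
  rw [hc, h2]

/-- there are fewer than `#W` functions -/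
private theorem D05_card (hI : #I ≤ #ι) : #(PF Q I (ULift.{u} Bool)) < #W := by
  have h1 : #(PF Q I (ULift.{u} Bool)) ≤ #(Set (I × ULift.{u} Bool × Q)) := by
    refine mk_le_of_injective (f := fun X : PF Q I (ULift.{u} Bool) =>
      {t : I × ULift.{u} Bool × Q | X.val t.1 t.2.1 t.2.2}) fun X X' h => ?_
    refine PF.ext fun a b p => ?_
    have := congrArg (fun s => (a, b, p) ∈ s) h
    simp only [Set.mem_ofPred_eq, eq_iff_iff] at this
    exact this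
  have h2 : #(I × ULift.{u} Bool × Q) ≤ #ι := by
    rw [Cardinal.mk_prod, Cardinal.mk_prod]
    simp only [Cardinal.lift_id]
    have hb : #(ULift.{u} Bool) ≤ #ι := by
      refine le_trans ?_ hK.inf
      simp only [Cardinal.mk_uLift, Cardinal.mk_bool, Cardinal.lift_ofNat]
      exact (Cardinal.natCast_lt_aleph0 (n := 2)).le
    exact le_trans (mul_le_mul' hI (le_trans (mul_le_mul' hb hQ.card)
      (Cardinal.mul_eq_self hK.inf).le)) (Cardinal.mul_eq_self hK.inf).le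
  rw [Cardinal.mk_set] at h1
  refine lt_of_le_of_lt h1 (lt_of_le_of_lt
    (Cardinal.power_le_power_left two_ne_zero h2) (hW.strong _ ?_))
  exact lt_trans hK.big hW.K_lt

/-- There are fewer than `#W` functions `PF Q I Bool`; take `χ` and `φ : Iic χ → PF Q I Bool` onto,
`G` from `exists_G χ`, `v (k, i) b q := ∃ c, G.val k c q ∧ (φ c).val i b q.1`. Given `X`, `q`, by
`distQ` there is `p ≤ q.2` with `∀ i, ∀ h ≤ q.1, ∃ h' ≤ h, ∃ b, X.val i b (h', p)`;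
`X' : PF Q I Bool` from `PF.exists_ofDense_below q.1` with `v i b h := X.val i b (h, p)`; take `c`
with `φ c = X'` and `q' ≤ (q.1, p)`, `k` with `G.val k c q'`. -/
theorem pow_I (hI : #I ≤ #ι) :
    ∃ S : PF (Q × Cond K ι W m0 chi) (K × I) (ULift.{u} Bool), PowP I K S := by
  have hc := D05_card (K := K) (ι := ι) (W := W) (Q := Q) (I := I) (m0 := m0) (chi := chi) hI
  obtain ⟨s, hs⟩ := Cardinal.le_mk_iff_exists_set.1 hc.le
  obtain ⟨χ, hχ⟩ := hW.reg s (by rw [hs]; exact hc)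
  have hcard : #(PF Q I (ULift.{u} Bool)) ≤ #(Iic χ) := by
    rw [← hs]
    exact Cardinal.mk_le_mk_of_subset fun w hw => (hχ w hw).le
  haveI : Nonempty (PF Q I (ULift.{u} Bool)) := ⟨PF.ofFun Q fun _ => ⟨true⟩⟩
  obtain ⟨φ, hφ⟩ := D05_surj hcard
  obtain ⟨G, hG⟩ := exists_G (K := K) (ι := ι) (W := W) (Q := Q) (m0 := m0) (chi := chi) χ
  obtain ⟨S, hS1, hS2⟩ := PF.exists_ofDense (P := Q × Cond K ι W m0 chi) (A := K × I)
    (B := ULift.{u} Bool) (fun a b q => ∃ c, G.val a.1 c q ∧ (φ c).val a.2 b q.1)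
    (by
      rintro a b p q hqp ⟨c, h1, h2⟩
      exact ⟨c, G.mono _ _ _ _ hqp h1, (φ c).mono _ _ _ _ hqp.1 h2⟩)
    (by
      rintro a b b' p ⟨c, h1, h2⟩ ⟨c', h3, h4⟩
      have := G.uniq _ _ _ _ h1 h3
      subst this
      exact (φ c).uniq _ _ _ _ h2 h4)
    (by
      rintro a p
      obtain ⟨q, hq, c, hc⟩ := G.total a.1 p
      obtain ⟨h', hh, b, hb⟩ := (φ c).total a.2 q.1
      exact ⟨(h', q.2), le_trans (b := q) ⟨hh, le_rfl⟩ hq, b, c,
        G.mono _ _ _ _ (show (h', q.2) ≤ q from ⟨hh, le_rfl⟩) hc, hb⟩)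
  refine ⟨S, fun X q => ?_⟩
  obtain ⟨p, hp, hD⟩ := distQ hI (fun i => {q : Q × Cond K ι W m0 chi | ∃ b, X.val i b q})
    (by
      rintro n q ⟨b, hb⟩ r hr
      exact ⟨b, X.mono _ _ _ _ hr hb⟩)
    q
    (by
      intro n q' _
      obtain ⟨r, hr, b, hb⟩ := X.total n q'
      exact ⟨r, hr, b, hb⟩)
  haveI : Nonempty (ULift.{u} Bool) := ⟨⟨true⟩⟩
  obtain ⟨X', hX1, hX2⟩ := PF.exists_ofDense_below (P := Q) (A := I) (B := ULift.{u} Bool) q.1
    (fun i b h => X.val i b (h, p))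
    (by
      intro i b h h' hh _ hx
      exact X.mono _ _ _ _ (show (h', p) ≤ (h, p) from ⟨hh, le_rfl⟩) hx)
    (by
      intro i b b' h _ hx hx'
      exact X.uniq _ _ _ _ hx hx')
    (by
      intro i h hh
      obtain ⟨h', hh', b, hb⟩ := hD i h hh
      exact ⟨h', hh', b, hb⟩)
  obtain ⟨c, hc⟩ := hφ X'
  obtain ⟨q', hq', k, hk⟩ := hG c (q.1, p)
  have hqq : (q.1, p) ≤ q := ⟨le_rfl, hp⟩
  refine ⟨q', hq'.trans hqq, k, fun i b r hr hX => ?_⟩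
  rw [hS1]
  intro r1 hr1
  obtain ⟨h2, hh2, b', hb'⟩ := X'.total i r1.1
  have hr1q : r1 ≤ (q.1, p) := (hr1.trans hr).trans hq'
  have hh2q : h2 ≤ q.1 := hh2.trans hr1q.1
  obtain ⟨h3, hh3, hx3⟩ := (hX1 i b' h2 hh2q).1 hb' h2 le_rfl
  have h4 : X.val i b' (h3, r1.2) :=
    X.mono _ _ _ _ (show (h3, r1.2) ≤ (h3, p) from ⟨le_rfl, hr1q.2⟩) hx3
  have h5 : X.val i b (h3, r1.2) :=
    X.mono _ _ _ _ (le_trans (show (h3, r1.2) ≤ r1 from ⟨hh3.trans hh2, le_rfl⟩) hr1) hX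
  have h6 := X.uniq _ _ _ _ h5 h4
  refine ⟨(h3, r1.2), ⟨hh3.trans hh2, le_rfl⟩, c, ?_, ?_⟩
  · exact G.mono _ _ _ _ (le_trans (show (h3, r1.2) ≤ r1 from ⟨hh3.trans hh2, le_rfl⟩)
      (hr1.trans hr)) hk
  · rw [hc, h6]
    exact X'.mono _ _ _ _ hh3 hb'

end Pool.Agent.KTM
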