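import Pool.Agent.Lib_MP_bf47cd.D02
import Pool.Agent.Lib_MP_bf47cd.A14

/-!
# H17-D06: subsets of `ω₂`
-/

set_option linter.unusedSectionVars false
set_option linter.unusedVariables false

namespace Pool.Agent.KTM

universe u

open Set Cardinal Pool.Agent.KT

variable {K ι W Q : Type u} [LinearOrder K] [OrderBot K] [WellFoundedLT K] [SuccOrder K]
  [NoMaxOrder K] {m0 : K} [LinearOrder W] [OrderBot W] [WellFoundedLT W] {chi : W → W}
  [Preorder Q] [hK : SetupK K ι m0] [hW : SetupW K ι W chi] [hQ : SetupQ Q ι]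
include hK hW hQ

/-- `X` with `DecAt b0 X` is determined by its values on the conditions with labels below `b0`
(`PF.mono`, `le_restr`), so there are fewer than `#W` for each `b0` (`card_low_lt`,
`strong`), and at most `#W` altogether. -/
theorem card_PF_le {A B : Type u} (hA : #A < #W) (hB : #B < #W) :
    #(PF (Q × Cond K ι W m0 chi) A B) ≤ #W := by
  classical
  have hdec : ∀ F : PF (Q × Cond K ι W m0 chi) A B, ∃ b0 : W, DecAt b0 F := fun F => by
    obtain ⟨b0, _, h⟩ := exists_decAt hA F ⊥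
    exact ⟨b0, h⟩
  choose bd hbd using hdec
  let Low : W → Type u := fun b0 => {p : Cond K ι W m0 chi // Cond.restr b0 p = p}
  let code : PF (Q × Cond K ι W m0 chi) A B → Σ b0 : W, Set (A × B × Q × Low b0) :=
    fun F => ⟨bd F, {x | F.val x.1 x.2.1 (x.2.2.1, x.2.2.2.1)}⟩
  have key : ∀ (F : PF (Q × Cond K ι W m0 chi) A B) (b0 : W), DecAt b0 F → ∀ a b h p,
      F.val a b (h, p) ↔ F.val a b (h, Cond.restr b0 p) := by
    intro F b0 hF a b h p
    exact ⟨hF a b h p, fun h1 => F.mono a b _ _ (Prod.mk_le_mk.2 ⟨le_rfl, Cond.le_restr b0 p⟩) h1⟩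
  have hinj : Function.Injective code := by
    intro F F' hFF
    have e1 : bd F = bd F' := congrArg Sigma.fst hFF
    have e2 : ∀ (b0 b0' : W) (S : Set (A × B × Q × Low b0)) (S' : Set (A × B × Q × Low b0')),
        (⟨b0, S⟩ : Σ b0 : W, Set (A × B × Q × Low b0)) = ⟨b0', S'⟩ →
        ∀ a b h p (h1 : Cond.restr b0 p = p) (h2 : Cond.restr b0' p = p),
          (a, b, h, (⟨p, h1⟩ : Low b0)) ∈ S ↔ (a, b, h, (⟨p, h2⟩ : Low b0')) ∈ S' := by
      intro b0 b0' S S' h
      cases h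
      intros
      exact Iff.rfl
    refine PF.ext fun a b hp => ?_
    obtain ⟨h, p⟩ := hp
    rw [key F _ (hbd F), key F' _ (hbd F'), ← e1]
    exact e2 _ _ _ _ hFF a b h (Cond.restr (bd F) p) Cond.restr_restr
      (by rw [← e1]; exact Cond.restr_restr)
  have hQW : #Q < #W := lt_of_le_of_lt hQ.card (ι_lt_W K m0 chi)
  have hsm : ∀ b0 : W, #(Set (A × B × Q × Low b0)) ≤ #W := by
    intro b0
    have h1 : #(A × B × Q × Low b0) < #W := by
      rw [mk_prod, lift_id, lift_id, mk_prod, lift_id, lift_id, mk_prod, lift_id, lift_id]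
      exact mul_lt_W K ι m0 chi hA (mul_lt_W K ι m0 chi hB (mul_lt_W K ι m0 chi hQW
        (card_low_lt K ι m0 chi b0)))
    rw [mk_set]
    exact (hW.strong _ h1).le
  have hW0 : ℵ₀ ≤ #W := (aleph0_lt_W K ι m0 chi).le
  calc #(PF (Q × Cond K ι W m0 chi) A B) ≤ #(Σ b0 : W, Set (A × B × Q × Low b0)) :=
        mk_le_of_injective hinj
    _ = Cardinal.sum fun b0 : W => #(Set (A × B × Q × Low b0)) := mk_sigma _
    _ ≤ Cardinal.sum fun _ : W => #W := Cardinal.sum_le_sum _ _ hsm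
    _ = #W * #W := by simp
    _ = #W := mul_eq_self hW0

/-- `S.val (w, k) b q := (φ w).val k b q` for `φ : W → PF _ K Bool` onto -/
theorem pow_K : ∃ S : PF (Q × Cond K ι W m0 chi) (W × K) (ULift.{u} Bool), PowP K W S := by
  classical
  have hB : #(ULift.{u} Bool) < #W := by
    refine lt_trans ?_ (aleph0_lt_W K ι m0 chi)
    exact lt_aleph0_of_finite _
  have hc : #(PF (Q × Cond K ι W m0 chi) K (ULift.{u} Bool)) ≤ #W := card_PF_le hW.K_lt hB
  obtain ⟨f⟩ := hc
  have : Nonempty (PF (Q × Cond K ι W m0 chi) K (ULift.{u} Bool)) :=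
    ⟨PF.ofFun _ (fun _ => ⟨true⟩)⟩
  let φ : W → PF (Q × Cond K ι W m0 chi) K (ULift.{u} Bool) := Function.invFun f
  have hφ : ∀ X, φ (f X) = X := Function.leftInverse_invFun f.injective
  refine ⟨⟨fun a b q => (φ a.1).val a.2 b q, fun a b p q h h1 => (φ a.1).mono _ _ _ _ h h1,
    fun a b p h => (φ a.1).dense _ _ _ h, fun a b b' p h h' => (φ a.1).uniq _ _ _ _ h h',
    fun a p => (φ a.1).total _ _⟩, ?_⟩
  intro X q
  refine ⟨q, le_rfl, f X, fun a b r _ h => ?_⟩
  change (φ (f X)).val a b r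
  rw [hφ]
  exact h

end Pool.Agent.KTM
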