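import Pool.Agent.Lib_MP_bf47cd.D03
import Pool.Agent.Lib_MP_bf47cd.A11

/-!
# H17-D07: the generic Kurepa tree, seen from the interface
-/

set_option linter.unusedSectionVars false
set_option linter.unusedVariables false

namespace Pool.Agent.KTM

universe u

open Set Cardinal Pool.Agent.KT

variable {K ι W Q I : Type u} [LinearOrder K] [OrderBot K] [WellFoundedLT K] [SuccOrder K]
  [NoMaxOrder K] {m0 : K} [LinearOrder W] [OrderBot W] [WellFoundedLT W] {chi : W → W}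
  [Preorder Q] [LinearOrder I] [hK : SetupK K ι m0] [hW : SetupW K ι W chi]
  [hQ : SetupQ Q ι]
include hK hW hQ

omit [WellFoundedLT K] [SuccOrder K] [NoMaxOrder K] [OrderBot W] [WellFoundedLT W] hW hQ in
private theorem D07_en : ∃ en : Set (K → K) → Iio m0 → K → K, ∀ S : Set (K → K),
    S.Nonempty → #S ≤ #ι → (∀ c, en S c ∈ S) ∧ ∀ x ∈ S, ∃ c, en S c = x := by
  have h : ∀ S : Set (K → K), ∃ f : Iio m0 → K → K,
      S.Nonempty → #S ≤ #ι → (∀ c, f c ∈ S) ∧ ∀ x ∈ S, ∃ c, f c = x := by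
    intro S
    by_cases hS : S.Nonempty ∧ #S ≤ #ι
    · obtain ⟨h1, h2⟩ := hS
      rw [← SetupK.card_m0 (K := K) (ι := ι) (m0 := m0)] at h2
      obtain ⟨g⟩ := Cardinal.le_def _ _ |>.1 h2
      have : Nonempty S := h1.to_subtype
      refine ⟨fun c => (Function.invFun g c : S).1, fun _ _ => ⟨fun c => (Function.invFun g c).2,
        fun x hx => ?_⟩⟩
      obtain ⟨c, hc⟩ := Function.invFun_surjective g.injective ⟨x, hx⟩
      exact ⟨c, congrArg Subtype.val hc⟩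
    · exact ⟨fun _ _ => ⊥, fun h1 h2 => absurd ⟨h1, h2⟩ hS⟩
  choose en hen using h
  exact ⟨en, hen⟩

/-- Choose `en : Set (K → K) → Iio m0 → K → K` such that `en S` is onto `S` if `S` is nonempty and
`#S ≤ #ι`.
`Y`: `v (η, i, e) b q := η ≤ q.2.tr.ht ∧ ∃ c, gQ.val i c q.1 ∧ en (q.2.tr.T η) c e = b`;
`Br ξ`: `v e b q := ξ ∈ q.2.L ∧ e < q.2.tr.ht ∧ q.2.b ξ e = b`
(`Cond.exists_ht`, `Cond.exists_mem_L`; the last part by `Cond.exists_succ` with different values of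
`j` at `ξ`, `ξ'`). -/
theorem kurepa {gQ : PF Q I (Iio m0)} (hg : DSurj gQ) :
    ∃ (Y : PF (Q × Cond K ι W m0 chi) (K × I × K) K)
      (Br : W → PF (Q × Cond K ι W m0 chi) K K), TreeLike Y ∧
      (∀ ξ q, MemP Y (Br ξ) q) ∧
      ∀ ξ ξ', ξ ≠ ξ' → ∀ q, ∃ q' ≤ q, ∃ e b b', b ≠ b' ∧ (Br ξ).val e b q' ∧
        (Br ξ').val e b' q' := by
  obtain ⟨en, hen⟩ := D07_en (K := K) (ι := ι) (m0 := m0)
  -- levels up to the height are nonempty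
  have hT : ∀ (t : Tr K ι m0) (η : K), η ≤ t.ht → (t.T η).Nonempty := by
    intro t η hη
    obtain ⟨x0, hx0⟩ := t.T_bot
    obtain ⟨x, hx, -⟩ := t.T_ext ⊥ η bot_le hη x0 hx0
    exact ⟨x, hx⟩
  have hen' : ∀ (t : Tr K ι m0) (η : K), η ≤ t.ht → (∀ c, en (t.T η) c ∈ t.T η) ∧
      ∀ x ∈ t.T η, ∃ c, en (t.T η) c = x := fun t η hη => hen _ (hT t η hη) (t.T_card η)
  have hfin : ∀ S : Set W, S.Finite → #S ≤ #ι := fun S hS =>
    (Cardinal.mk_le_aleph0_iff.2 hS.countable).trans hK.inf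
  -- the tree
  obtain ⟨Y, -, hY⟩ := PF.exists_ofDense (P := Q × Cond K ι W m0 chi) (A := K × I × K) (B := K)
    (fun a b q => a.1 ≤ q.2.tr.ht ∧ ∃ c, gQ.val a.2.1 c q.1 ∧ en (q.2.tr.T a.1) c a.2.2 = b)
    (by
      rintro a b p q hq ⟨h1, c, h2, h3⟩
      refine ⟨h1.trans (Cond.le_ht hq.2), c, gQ.mono _ _ _ _ hq.1 h2, ?_⟩
      rw [Tr.T_eq (Cond.le_tr hq.2) h1]
      exact h3)
    (by
      rintro a b b' p ⟨h1, c, h2, h3⟩ ⟨-, c', h4, h5⟩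
      have h6 := gQ.uniq _ _ _ _ h2 h4
      rw [← h3, ← h5, h6])
    (by
      rintro a p
      obtain ⟨q1, hq1, c, hc⟩ := gQ.total a.2.1 p.1
      obtain ⟨q2, hq2, h2⟩ := Cond.exists_ht p.2 a.1
      exact ⟨(q1, q2), ⟨hq1, hq2⟩, _, h2.le, c, hc, rfl⟩)
  -- the branches
  have hB : ∀ ξ : W, ∃ X : PF (Q × Cond K ι W m0 chi) K K, ∀ e b p,
      (ξ ∈ p.2.L ∧ e < p.2.tr.ht ∧ p.2.b ξ e = b) → X.val e b p := by
    intro ξ
    obtain ⟨X, -, hX⟩ := PF.exists_ofDense (P := Q × Cond K ι W m0 chi) (A := K) (B := K)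
      (fun e b p => ξ ∈ p.2.L ∧ e < p.2.tr.ht ∧ p.2.b ξ e = b)
      (by
        rintro e b p q hq ⟨h1, h2, h3⟩
        refine ⟨Cond.le_L hq.2 h1, h2.trans_le (Cond.le_ht hq.2), ?_⟩
        rw [← h3, ← Cond.le_b hq.2 h1, trunc_lt h2])
      (by
        rintro e b b' p ⟨_, _, h3⟩ ⟨_, _, h6⟩
        rw [← h3, ← h6])
      (by
        rintro e p
        obtain ⟨q1, hq1, -, h1⟩ := Cond.exists_mem_L p.2 {ξ} (hfin _ (Set.finite_singleton ξ))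
        obtain ⟨q2, hq2, h2⟩ := Cond.exists_ht q1 e
        exact ⟨(p.1, q2), ⟨le_rfl, hq2.trans hq1⟩, _, Cond.le_L hq2 (h1 rfl), h2, rfl⟩)
    exact ⟨X, hX⟩
  choose Br hBr using hB
  refine ⟨Y, Br, ?_, ?_, ?_⟩
  · intro η' η hη i q
    obtain ⟨q1, hq1, c, hc⟩ := gQ.total i q.1
    obtain ⟨q2, hq2, h2⟩ := Cond.exists_ht q.2 η
    have hx := (hen' q2.tr η h2.le).1 c
    obtain ⟨c', hc'⟩ := (hen' q2.tr η' (hη.trans h2.le)).2 _ (q2.tr.T_res η _ hx η' hη)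
    obtain ⟨q3, hq3, i', hi'⟩ := hg c' q1
    refine ⟨(q3, q2), ⟨hq3.trans hq1, hq2⟩, i', fun e he b s hs hval => ?_⟩
    have h3 : Y.val (η, i, e) (en (q2.tr.T η) c e) s := by
      refine hY _ _ _ ⟨h2.le.trans (Cond.le_ht hs.2), c,
        gQ.mono _ _ _ _ (hs.1.trans hq3) hc, ?_⟩
      rw [Tr.T_eq (Cond.le_tr hs.2) h2.le]
    have h4 := Y.uniq _ _ _ _ hval h3
    rw [h4]
    refine hY _ _ _ ⟨(hη.trans h2.le).trans (Cond.le_ht hs.2), c',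
      gQ.mono _ _ _ _ hs.1 hi', ?_⟩
    show en (s.2.tr.T η') c' e = _
    rw [Tr.T_eq (Cond.le_tr hs.2) (hη.trans h2.le), hc', trunc_lt he]
  · intro ξ q η r hr
    obtain ⟨q1, hq1, -, h1⟩ := Cond.exists_mem_L r.2 {ξ} (hfin _ (Set.finite_singleton ξ))
    obtain ⟨q2, hq2, h2⟩ := Cond.exists_ht q1 η
    have hξ : ξ ∈ q2.L := Cond.le_L hq2 (h1 rfl)
    obtain ⟨c, hc⟩ := (hen' q2.tr η h2.le).2 _
      (q2.tr.T_res _ _ (q2.b_mem ξ hξ) η h2.le)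
    obtain ⟨q3, hq3, i, hi⟩ := hg c r.1
    refine ⟨(q3, q2), ⟨hq3, hq2.trans hq1⟩, i, fun e he b s hs hval => ?_⟩
    have h3 : (Br ξ).val e (q2.b ξ e) s := by
      refine hBr ξ _ _ _ ⟨Cond.le_L hs.2 hξ, (he.trans h2).trans_le (Cond.le_ht hs.2), ?_⟩
      have h4 := congrFun (Cond.le_b hs.2 hξ) e
      rw [trunc_lt (he.trans h2)] at h4
      exact h4
    have h4 := (Br ξ).uniq _ _ _ _ hval h3
    rw [h4]
    refine hY _ _ _ ⟨h2.le.trans (Cond.le_ht hs.2), c, gQ.mono _ _ _ _ hs.1 hi, ?_⟩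
    show en (s.2.tr.T η) c e = _
    rw [Tr.T_eq (Cond.le_tr hs.2) h2.le, hc, trunc_lt he]
  · intro ξ ξ' hne q
    obtain ⟨q1, hq1, -, h1⟩ := Cond.exists_mem_L q.2 {ξ, ξ'} (hfin _ (Set.toFinite _))
    have hξ : ξ ∈ q1.L := h1 (by simp)
    have hξ' : ξ' ∈ q1.L := h1 (by simp)
    obtain ⟨j, hj1, hj2⟩ := exists_injOn (ι := ι) (m0 := m0) q1.L q1.L_card (Iio m0)
      (SetupK.card_m0 (ι := ι))
    obtain ⟨q2, h2, h3, h4, -, h5, -, -, -⟩ := Cond.exists_succ q1 j hj2 (fun _ => ⊥)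
      (fun a _ => bot_le) ∅
    have h6 : q1.tr.ht < q2.tr.ht := by rw [h3]; exact Order.lt_succ _
    refine ⟨(q.1, q2), ⟨le_rfl, h2.trans hq1⟩, q1.tr.ht, j ξ, j ξ', fun h => hne (hj1 hξ hξ' h),
      hBr ξ _ _ _ ⟨Cond.le_L h2 hξ, h6, h5 ξ hξ⟩, hBr ξ' _ _ _ ⟨Cond.le_L h2 hξ', h6, h5 ξ' hξ'⟩⟩

end Pool.Agent.KTM
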