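import Pool.Agent.Lib_MP_bf47cd.D04
import Pool.Agent.Lib_MP_bf47cd.D05
import Pool.Agent.Lib_MP_bf47cd.D06
import Pool.Agent.Lib_MP_bf47cd.D07
import Pool.Agent.Lib_MP_bf47cd.B12

/-!
# H17-D08: the interface for the forcing; the greatest condition
-/

set_option linter.unusedSectionVars false
set_option linter.unusedVariables false

namespace Pool.Agent.KTM

universe u

open Set Cardinal Pool.Agent.KT

/-- the greatest condition: height `⊥`, `T ⊥ = {fun _ => ⊥}`, no labels -/
theorem exists_top {K ι W : Type u} [LinearOrder K] [OrderBot K] [WellFoundedLT K]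
    [LinearOrder W] [OrderBot W] {m0 : K} {chi : W → W} [hK : SetupK K ι m0] :
    ∃ p : Cond K ι W m0 chi, ∀ q, q ≤ p := by
  classical
  have hm0 : (⊥ : K) < m0 := by
    have h1 : #(Iio m0) ≠ 0 := by
      rw [hK.card_m0]
      intro h
      have := hK.inf
      rw [h] at this
      exact absurd this (not_le.2 aleph0_pos)
    obtain ⟨⟨c, hc⟩⟩ := mk_ne_zero_iff.1 h1
    exact lt_of_le_of_lt bot_le hc
  have hTbot : ∀ t : Tr K ι m0, t.T ⊥ = {fun _ => ⊥} := by
    intro t
    obtain ⟨y, hy⟩ := t.T_bot
    have h1 : ∀ x ∈ t.T ⊥, x = fun _ => ⊥ := by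
      intro x hx
      rw [← t.T_trunc _ x hx, trunc_bot]
    ext x
    rw [mem_singleton_iff]
    constructor
    · exact h1 x
    · intro hx
      rw [hx, ← h1 y hy]
      exact hy
  have hcof : ¬ CofW (⊥ : K) := fun h => h.isLim.1 rfl
  let t : Tr K ι m0 :=
    { ht := ⊥
      T := fun e => if e = ⊥ then {fun _ => ⊥} else ∅
      A := fun _ => ∅
      T_out := fun e he => if_neg (ne_of_gt he)
      A_out := fun _ _ => rfl
      T_val := fun e x hx c => by
        by_cases h : e = ⊥
        · rw [if_pos h, mem_singleton_iff] at hx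
          rw [hx]; exact hm0
        · rw [if_neg h] at hx; exact absurd hx (notMem_empty _)
      T_trunc := fun e x hx => by
        by_cases h : e = ⊥
        · rw [if_pos h, mem_singleton_iff] at hx
          rw [h, hx, trunc_bot]
        · rw [if_neg h] at hx; exact absurd hx (notMem_empty _)
      T_res := fun e x hx e' he' => by
        by_cases h : e = ⊥
        · have h' : e' = ⊥ := le_bot_iff.1 (h ▸ he')
          rw [if_pos h']
          rw [h', trunc_bot]; exact mem_singleton _
        · rw [if_neg h] at hx; exact absurd hx (notMem_empty _)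
      T_ext := fun e e' h1 h2 x hx => by
        have h' : e' = ⊥ := le_bot_iff.1 h2
        have h : e = ⊥ := le_bot_iff.1 (h' ▸ h1)
        rw [if_pos h, mem_singleton_iff] at hx
        refine ⟨x, ?_, ?_⟩
        · rw [if_pos h', mem_singleton_iff]; exact hx
        · rw [h, hx, trunc_bot]
      T_bot := by rw [if_pos rfl]; exact singleton_nonempty _
      T_card := fun e => by
        by_cases h : e = ⊥
        · rw [if_pos h, mk_singleton]
          exact le_trans (le_of_lt one_lt_aleph0) hK.inf
        · rw [if_neg h, mk_eq_zero]; exact zero_le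
      T_lim := fun e he hc => absurd (le_bot_iff.1 he) hc.isLim.1
      A_mem := fun _ ρ hρ => absurd hρ (notMem_empty _)
      wit := fun e he hl => absurd (le_bot_iff.1 he) hl.1 }
  refine ⟨{ tr := t
            L := ∅
            b := fun _ _ => ⊥
            N := ∅
            C := fun _ => ∅
            g := fun _ _ => ⊥
            L_card := by rw [mk_eq_zero]; exact zero_le
            N_card := by rw [mk_eq_zero]; exact zero_le
            b_mem := fun ξ h => absurd h (notMem_empty _)
            b_out := fun _ _ => rfl
            N_L := fun a h => absurd h (notMem_empty _)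
            C_le := fun a c h => absurd h (notMem_empty _)
            C_out := fun _ _ => rfl
            C_closed := fun a h => absurd h (notMem_empty _)
            prom := fun a h => absurd h (notMem_empty _)
            g_le := fun a h => absurd h (notMem_empty _)
            g_out := fun _ _ _ => rfl }, fun q => ?_⟩
  refine ⟨⟨bot_le, fun e he => ?_⟩, empty_subset _, fun ξ h => absurd h (notMem_empty _),
    empty_subset _, fun a h => absurd h (notMem_empty _), fun a h => absurd h (notMem_empty _)⟩
  have he' : e = ⊥ := le_bot_iff.1 he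
  subst he'
  refine ⟨?_, ?_⟩
  · rw [hTbot, hTbot]
  · rw [q.tr.A_out ⊥ (Or.inr hcof), t.A_out ⊥ (Or.inr hcof)]

/-- the instance for the model construction (a `def`, to be made a local instance) -/
noncomputable def condTop (K ι W : Type u) [LinearOrder K] [OrderBot K] [WellFoundedLT K]
    [LinearOrder W] [OrderBot W] (m0 : K) (chi : W → W) [hK : SetupK K ι m0] :
    OrderTop (Cond K ι W m0 chi) where
  top := (exists_top (K := K) (ι := ι) (W := W) (m0 := m0) (chi := chi)).choose
  le_top := (exists_top (K := K) (ι := ι) (W := W) (m0 := m0) (chi := chi)).choose_spec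

variable {K ι W Q I : Type u} [LinearOrder K] [OrderBot K] [WellFoundedLT K] [SuccOrder K]
  [NoMaxOrder K] {m0 : K} [LinearOrder W] [OrderBot W] [WellFoundedLT W] {chi : W → W}
  [Preorder Q] [LinearOrder I] [WellFoundedLT I] [hK : SetupK K ι m0] [hW : SetupW K ι W chi]
  [hQ : SetupQ Q ι] [hI : SetupI I]
include hK hW hQ hI

/-- **The interface for the forcing `Q × Cond`.** (`#I ≤ #ι`: `range eI = Iio iW`, `iW < kW`, so
`iW = eK k` for some `k`, and `#(Iio k) ≤ #ι`.) -/
theorem exists_iface {gQ : PF Q I (Iio m0)} (hg : DSurj gQ) {eK : K → W} {eI : I → W}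
    {eN : ULift.{u} ℕ → W} {kW iW nW : W} (h1 : StrictMono eK) (h2 : StrictMono eI)
    (h3 : StrictMono eN) (h4 : range eK = Iio kW) (h5 : range eI = Iio iW)
    (h6 : range eN = Iio nW) (h7 : nW < iW) (h8 : iW < kW) :
    Iface (Q × Cond K ι W m0 chi) W K I eK eI eN kW iW nW := by
  have hIι : #I ≤ #ι := by
    have hi : iW ∈ range eK := by rw [h4]; exact h8
    obtain ⟨k, hk⟩ := hi
    have hmem : ∀ i : I, ∃ k' : Iio k, eK k'.1 = eI i := by
      intro i
      have h9 : eI i < iW := by
        have : eI i ∈ Iio iW := by rw [← h5]; exact mem_range_self i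
        exact this
      have h10 : eI i ∈ range eK := by rw [h4]; exact h9.trans h8
      obtain ⟨k', hk'⟩ := h10
      refine ⟨⟨k', ?_⟩, hk'⟩
      have h11 : eK k' < eK k := by rw [hk', hk]; exact h9
      exact h1.lt_iff_lt.1 h11
    choose f hf using hmem
    have hinj : Function.Injective f := by
      intro i j hij
      apply h2.injective
      rw [← hf i, ← hf j, hij]
    exact (mk_le_of_injective hinj).trans (hK.seg k)
  exact
    { monoK := h1
      monoI := h2
      monoN := h3
      rangeK := h4
      rangeI := h5
      rangeN := h6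
      nW_lt := h7
      iW_lt := h8
      noInj_I := fun a J q => noInj_I a J q
      noInj_K := fun a J q => noInj_K a J q
      noInj_W := fun a J q => noInj_W a J q
      inj_I := fun a => inj_I _ a
      inj_K := fun a => inj_K (ι := ι) (Cond K ι W m0 chi) hg a
      inj_W := fun a => inj_W a
      pow_N := pow_N hg
      pow_I := pow_I hIι
      pow_K := pow_K
      kurepa := kurepa hg
      map := fun Y q0 X0 h0 => by
        obtain ⟨F, hF1, hF2, hF3⟩ := exists_F hIι Y q0 X0 h0
        exact ⟨F, hF1, fun x x' e q _ he v => hF2 x x' e q he v, hF3⟩ }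

end Pool.Agent.KTM
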