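import Pool.Agent.Lib_MP_bf47cd.D01
import Mathlib.SetTheory.Cardinal.Regular
import Mathlib.SetTheory.Cardinal.Aleph
import Mathlib.SetTheory.Cardinal.Continuum

/-!
# H17-D09: the parameters

`W = Ordinal.{0}` (in `Type 1`), `K` the ordinals below `κ = (2^ℵ₀)⁺`, `I` the countable ordinals,
`m0 = (2^ℵ₀).ord`, `ι` a type of size `2^ℵ₀`.
-/

set_option linter.unusedSectionVars false
set_option linter.unusedVariables false

namespace Pool.Agent.KTM

open Set Cardinal Ordinal Pool.Agent.KT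

/-- `κ = (2^ℵ₀)⁺` as an ordinal -/
noncomputable def kap : Ordinal.{0} := (Order.succ Cardinal.continuum.{0}).ord

abbrev WTy : Type 1 := Ordinal.{0}
abbrev KTy : Type 1 := Iio kap
abbrev ITy : Type 1 := Iio (ω₁ : Ordinal.{0})
abbrev ιTy : Type 1 := ULift.{1} (Set ℕ)

theorem ord_continuum_lt_kap : Cardinal.continuum.{0}.ord < kap := by
  unfold kap
  exact ord_lt_ord.2 (Order.lt_succ _)

noncomputable def m0T : KTy := ⟨Cardinal.continuum.{0}.ord, ord_continuum_lt_kap⟩

theorem kap_pos : 0 < kap := lt_of_le_of_lt bot_le ord_continuum_lt_kap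

noncomputable instance : OrderBot KTy where
  bot := ⟨0, kap_pos⟩
  bot_le _ := by
    apply Subtype.coe_le_coe.1
    exact bot_le

private theorem D09_kap_succ {a : Ordinal.{0}} (h : a < kap) : Order.succ a < kap := by
  have h1 : Order.IsSuccLimit kap :=
    isSuccLimit_ord (aleph0_le_continuum.trans (Order.le_succ _))
  exact h1.succ_lt h

instance : NoMaxOrder KTy := by
  refine ⟨fun a => ⟨⟨Order.succ a.1, D09_kap_succ a.2⟩, ?_⟩⟩
  exact Subtype.coe_lt_coe.1 (Order.lt_succ _)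

private theorem D09_omega1_succ {a : Ordinal.{0}} (h : a < ω₁) : Order.succ a < ω₁ := by
  have h1 : Order.IsSuccLimit (ω₁ : Ordinal.{0}) := isSuccLimit_omega 1
  exact h1.succ_lt h

instance : NoMaxOrder ITy := by
  refine ⟨fun a => ⟨⟨Order.succ a.1, D09_omega1_succ a.2⟩, ?_⟩⟩
  exact Subtype.coe_lt_coe.1 (Order.lt_succ _)

private theorem D09_mk_Iio_sub {a : Ordinal.{0}} (e : Iio a) :
    #(Iio e : Set (Iio a)) = lift.{1} e.1.card := by
  rw [← Cardinal.mk_Iio_ordinal]
  refine mk_congr ⟨fun x => ⟨x.1.1, x.2⟩, fun x => ⟨⟨x.1, lt_trans (mem_Iio.1 x.2) (mem_Iio.1 e.2)⟩, x.2⟩, ?_, ?_⟩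
  · intro x; rfl
  · intro x; rfl

private theorem D09_mk_ι : #ιTy = lift.{1} continuum.{0} := by
  rw [mk_uLift, mk_set_nat]

instance : SetupK KTy ιTy m0T where
  pow := by
    rw [D09_mk_ι, lift_continuum]
    exact continuum_power_aleph0
  inf := by
    rw [D09_mk_ι, lift_continuum]; exact aleph0_le_continuum
  card_m0 := by
    rw [D09_mk_Iio_sub, D09_mk_ι]
    unfold m0T
    simp only [card_ord]
  seg e := by
    rw [D09_mk_Iio_sub, D09_mk_ι, Cardinal.lift_le]
    have h1 := e.2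
    rw [mem_Iio] at h1
    unfold kap at h1
    rw [lt_ord] at h1
    exact Order.lt_succ_iff.1 h1
  big := by
    rw [D09_mk_ι, Cardinal.mk_Iio_ordinal, Cardinal.lift_lt]
    unfold kap
    rw [card_ord]
    exact Order.lt_succ _

instance : SetupI ITy where
  seg a := by
    rw [← le_aleph0_iff_set_countable, D09_mk_Iio_sub, ← lift_aleph0.{1, 0}, Cardinal.lift_le]
    have h1 : a.1 < ω₁ := a.2
    have h2 : a.1.card < ℵ₁ := by
      rw [← lt_ord, ord_aleph]; exact h1
    rw [← succ_aleph0] at h2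
    exact Order.lt_succ_iff.1 h2
  cof s := by
    have h1 : (⨆ n, (s n).1) < ω₁ := by
      apply iSup_lt_omega_one
      intro n; exact (s n).2
    refine ⟨⟨Order.succ (⨆ n, (s n).1), D09_omega1_succ h1⟩, fun n => ?_⟩
    rw [← Subtype.coe_lt_coe]
    exact Order.lt_succ_of_le (Ordinal.le_iSup (fun n => (s n).1) n)

private theorem D09_mk_W : #WTy = Cardinal.univ.{0, 1} := mk_ordinal

private theorem D09_seg (b : WTy) : #(Iio b) < #WTy := by
  rw [D09_mk_W, Cardinal.mk_Iio_ordinal]; exact lift_lt_univ _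

/-- `chi ξ := if (f ξ).1 ≤ ξ then (f ξ).1 else ⊥` for a bijection `f : W ≃ W × W`
(`#Ordinal.{0} = univ.{0,1}` is inaccessible) -/
theorem exists_chi : ∃ chi : WTy → WTy, SetupW KTy ιTy WTy chi := by
  classical
  have hinf : ℵ₀ ≤ #WTy := by rw [D09_mk_W]; exact aleph0_lt_univ.le
  obtain ⟨f⟩ : Nonempty (WTy ≃ WTy × WTy) := by
    rw [← Cardinal.eq, mk_prod, Cardinal.lift_id, mul_eq_self hinf]
  have hK : #KTy < #WTy := D09_seg _
  have hι : #ιTy < #WTy := lt_trans (SetupK.big m0T) hK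
  refine ⟨fun ξ => if (f ξ).1 ≤ ξ then (f ξ).1 else 0, ?_⟩
  refine { seg := D09_seg, reg := ?_, strong := ?_, K_lt := hK, chi_le := ?_, chi_fib := ?_ }
  · intro s hs
    have h1 : Small.{0} s := by
      rw [small_iff_lift_mk_lt_univ]
      rw [D09_mk_W] at hs
      simpa using hs
    obtain ⟨b, hb⟩ := Ordinal.bddAbove_of_small (s := s)
    exact ⟨Order.succ b, fun w hw => Order.lt_succ_of_le (hb hw)⟩
  · intro c hc
    rw [D09_mk_W] at hc ⊢
    exact IsStrongLimit.univ.isStrongPrelimit hc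
  · intro ξ
    split_ifs with h
    · exact h
    · exact bot_le
  · intro χ b
    refine lt_of_lt_of_le hι ?_
    by_contra hlt
    rw [not_le] at hlt
    have h1 : #{ξ : WTy | (f ξ).1 = χ} = #WTy := by
      refine mk_congr ⟨fun x => (f x.1).2, fun w => ⟨f.symm (χ, w), by simp⟩, ?_, ?_⟩
      · intro x
        apply Subtype.ext
        simp only
        rw [Equiv.symm_apply_eq]
        have := x.2
        exact Prod.ext this.symm rfl
      · intro w
        simp
    have h2 : {ξ : WTy | (f ξ).1 = χ} ⊆ Iio (max b χ) ∪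
        {ξ : WTy | b ≤ ξ ∧ (if (f ξ).1 ≤ ξ then (f ξ).1 else 0) = χ} := by
      intro ξ hξ
      by_cases h : ξ < max b χ
      · left; exact h
      · right
        rw [not_lt, max_le_iff] at h
        refine ⟨h.1, ?_⟩
        have h3 : (f ξ).1 = χ := hξ
        rw [h3, if_pos h.2]
    have h3 := (mk_le_mk_of_subset h2).trans (mk_union_le _ _)
    rw [h1] at h3
    exact absurd h3 (not_le.2 (add_lt_of_lt hinf (D09_seg _) hlt))

/-- the embeddings -/
theorem exists_embeddings : ∃ (eK : KTy → WTy) (eI : ITy → WTy) (eN : ULift.{1} ℕ → WTy) (kW iW nW : WTy),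
    StrictMono eK ∧ StrictMono eI ∧ StrictMono eN ∧ range eK = Iio kW ∧ range eI = Iio iW ∧
      range eN = Iio nW ∧ nW < iW ∧ iW < kW := by
  refine ⟨Subtype.val, Subtype.val, fun n => (n.down : Ordinal.{0}), kap, ω₁, ω, ?_, ?_, ?_, ?_, ?_, ?_,
    ?_, ?_⟩
  · intro a b h; exact h
  · intro a b h; exact h
  · intro a b h
    exact Nat.cast_lt.2 (ULift.down_lt.2 h)
  · exact Subtype.range_coe
  · exact Subtype.range_coe
  · ext x
    rw [mem_Iio, lt_omega0]
    constructor
    · rintro ⟨n, rfl⟩; exact ⟨n.down, rfl⟩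
    · rintro ⟨n, rfl⟩; exact ⟨⟨n⟩, rfl⟩
  · exact omega0_lt_omega_one
  · unfold kap
    rw [← ord_aleph, ord_lt_ord]
    exact lt_of_le_of_lt aleph_one_le_continuum (Order.lt_succ _)

end Pool.Agent.KTM
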