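import Pool.Agent.Lib_MP_bf47cd.C10
import Pool.Agent.Lib_MP_bf47cd.D08
import Pool.Agent.Lib_MP_bf47cd.D09

/-!
# H17-D10: the model
-/

set_option linter.unusedSectionVars false
set_option linter.unusedVariables false

namespace Pool.Agent.KTM

open Set Cardinal Ordinal Pool.Agent.KT Pool.Agent.Forcing Pool.Agent.Inner

theorem card_ιTy : #ιTy = Cardinal.continuum.{1} := by
  simp

theorem model_KT : ∃ (M : Type 2) (E : M → M → Prop), ModelsZFC E ∧ OmegaModel E ∧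
    ∃ w0 w1 w2 w3 : M, IsOmega E w0 ∧ IsSuccCard E w0 w1 ∧ IsSuccCard E w1 w2 ∧
      IsSuccCard E w2 w3 ∧ (∃ s, OntoPow E s w1 w0) ∧ (∃ s, OntoPow E s w2 w1) ∧
      (∃ s, OntoPow E s w3 w2) ∧ (∃ t, IsKurepa E w1 w2 w3 t) ∧
      ∀ t, IsKurepa E w1 w2 w3 t → ∃ F, IsContOnto E w2 t F := by
  obtain ⟨chi, hchi⟩ := exists_chi
  obtain ⟨eK, eI, eN, kW, iW, nW, h1, h2, h3, h4, h5, h6, h7, h8⟩ := exists_embeddings
  have hne : Nonempty ITy := ⟨⟨0, Ordinal.omega_pos 1⟩⟩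
  have hK : SetupK KTy ιTy m0T := inferInstance
  have hI : #ITy ≤ #ιTy := by
    obtain ⟨k, hk⟩ : ∃ k, eK k = iW := by
      have h : iW ∈ range eK := by rw [h4]; exact h8
      exact h
    have hle : #ITy ≤ #(Iio k) := by
      have hmem : ∀ i : ITy, ∃ j : Iio k, eK j.1 = eI i := by
        intro i
        have hi : eI i < iW := by
          have : eI i ∈ range eI := ⟨i, rfl⟩
          rw [h5] at this; exact this
        have hi2 : eI i ∈ range eK := by rw [h4]; exact hi.trans h8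
        obtain ⟨j, hj⟩ := hi2
        refine ⟨⟨j, ?_⟩, hj⟩
        rw [mem_Iio, ← h1.lt_iff_lt, hj, hk]; exact hi
      choose φ hφ using hmem
      refine mk_le_of_injective (f := φ) fun x y h => ?_
      apply h2.injective
      rw [← hφ x, ← hφ y, h]
    exact hle.trans (hK.seg k)
  have hQ : SetupQ (Coll ITy (Iio m0T)) ιTy :=
    Coll.setupQ (le_of_eq hK.card_m0) hK.pow hK.inf hI
  have hne2 : Nonempty (Iio m0T) := ⟨⟨⊥, mem_Iio.2 (bot_lt_m0 (K := KTy) (m0 := m0T) ιTy)⟩⟩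
  obtain ⟨g, hg⟩ := Coll.exists_gQ (I := ITy) (M := Iio m0T)
  let _ := condTop KTy ιTy WTy m0T chi
  let _ : SuccOrder KTy := SuccOrder.ofLinearWellFoundedLT _
  exact exists_model (exists_iface (ι := ιTy) (chi := chi) hg h1 h2 h3 h4 h5 h6 h7 h8)

end Pool.Agent.KTM
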