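import Mathlib.SetTheory.Cardinal.Basic
import Mathlib.SetTheory.Cardinal.Arithmetic
import Mathlib.Order.SuccPred.Basic
import Mathlib.Order.WellFounded
import Mathlib.Tactic

/-!
# MP_bf47cd_lc: the forcing

`K` is a well-order of type `κ = μ⁺`, `ι` an index set of size `μ = 2^ω`, `W` a well-order of type
`λ` (inaccessible). Nodes are functions `x : K → K` with values below `m0`; the node of level `e`
is `⊥` from `e` on.
-/

set_option linter.unusedSectionVars false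

namespace Pool.Agent.KT

universe u

open Set Cardinal

section basic
variable {K : Type u} [LinearOrder K] [OrderBot K]

open Classical in
/-- the restriction of `x` to the elements below `e` -/
noncomputable def trunc (e : K) (x : K → K) : K → K := fun c => if c < e then x c else ⊥

lemma trunc_lt {e c : K} {x : K → K} (h : c < e) : trunc e x c = x c := by
  unfold trunc; rw [if_pos h]

lemma trunc_ge {e c : K} {x : K → K} (h : e ≤ c) : trunc e x c = ⊥ := by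
  unfold trunc; rw [if_neg (not_lt.2 h)]

lemma trunc_trunc (e e' : K) (x : K → K) : trunc e (trunc e' x) = trunc (min e e') x := by
  funext c
  by_cases h1 : c < e
  · by_cases h2 : c < e'
    · rw [trunc_lt h1, trunc_lt h2, trunc_lt (lt_min h1 h2)]
    · rw [trunc_lt h1, trunc_ge (not_lt.1 h2), trunc_ge ((min_le_right _ _).trans (not_lt.1 h2))]
  · rw [trunc_ge (not_lt.1 h1), trunc_ge ((min_le_left _ _).trans (not_lt.1 h1))]

lemma trunc_trunc_of_le {e e' : K} (h : e ≤ e') (x : K → K) :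
    trunc e (trunc e' x) = trunc e x := by
  rw [trunc_trunc, min_eq_left h]

lemma trunc_trunc_of_ge {e e' : K} (h : e' ≤ e) (x : K → K) :
    trunc e (trunc e' x) = trunc e' x := by
  rw [trunc_trunc, min_eq_right h]

lemma trunc_idem (e : K) (x : K → K) : trunc e (trunc e x) = trunc e x :=
  trunc_trunc_of_le le_rfl x

lemma trunc_eq_self_of_le {e e' : K} {x : K → K} (h : trunc e x = x) (he : e ≤ e') :
    trunc e' x = x := by
  rw [← h, trunc_trunc_of_ge he]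

lemma trunc_bot (x : K → K) : trunc ⊥ x = fun _ => ⊥ := by
  funext c; exact trunc_ge bot_le

lemma trunc_eq_iff {e : K} {x y : K → K} : trunc e x = trunc e y ↔ ∀ c < e, x c = y c := by
  constructor
  · intro h c hc
    have := congrFun h c
    rwa [trunc_lt hc, trunc_lt hc] at this
  · intro h
    funext c
    by_cases hc : c < e
    · rw [trunc_lt hc, trunc_lt hc, h c hc]
    · rw [trunc_ge (not_lt.1 hc), trunc_ge (not_lt.1 hc)]

/-- `e` has cofinality `ω` -/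
def CofW (e : K) : Prop := ∃ s : ℕ → K, (∀ n, s n < e) ∧ ∀ c < e, ∃ n, c < s n

/-- `e` is a limit -/
def IsLim (e : K) : Prop := e ≠ ⊥ ∧ ∀ c < e, ∃ c', c < c' ∧ c' < e

/-- `e` is a limit point of `E` -/
def LimPt (E : Set K) (e : K) : Prop := e ≠ ⊥ ∧ ∀ c < e, ∃ c' ∈ E, c < c' ∧ c' < e

lemma LimPt.isLim {E : Set K} {e : K} (h : LimPt E e) : IsLim e :=
  ⟨h.1, fun c hc => let ⟨c', _, h1, h2⟩ := h.2 c hc; ⟨c', h1, h2⟩⟩

lemma LimPt.mono {E E' : Set K} {e : K} (h : LimPt E e) (hE : ∀ c ∈ E, c < e → c ∈ E') :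
    LimPt E' e :=
  ⟨h.1, fun c hc => let ⟨c', h0, h1, h2⟩ := h.2 c hc; ⟨c', hE c' h0 h2, h1, h2⟩⟩

lemma CofW.isLim {e : K} (h : CofW e) : IsLim e := by
  obtain ⟨s, h1, h2⟩ := h
  refine ⟨fun h => ?_, fun c hc => ?_⟩
  · have := h1 0
    rw [h] at this
    exact absurd this not_lt_bot
  · obtain ⟨n, hn⟩ := h2 c hc
    exact ⟨s n, hn, h1 n⟩

variable {ι : Type u}

/-- the witness at a limit level `e` of uncountable cofinality -/
def Wit (T : K → Set (K → K)) (A : K → Set (ι → K → K)) (e : K) : Prop :=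
  ∃ (E : Set K) (f : K → (K → K) → K → K),
    (∀ c ∈ E, c < e) ∧ (∀ c < e, ∃ c' ∈ E, c < c') ∧ (∀ c < e, LimPt E c → c ∈ E) ∧
    (∀ c ∈ E, ∀ x ∈ T c, f c x ∈ T e ∧ trunc c (f c x) = x) ∧
    (∀ c ∈ E, ∀ c' ∈ E, c ≤ c' → ∀ x ∈ T c, f c' (trunc c' (f c x)) = f c x) ∧
    (∀ y ∈ T e, ∃ c ∈ E, f c (trunc c y) = y) ∧
    (∀ c ∈ E, LimPt E c → CofW c → ∀ ρ ∈ A c, ∃ c' ∈ E, c' < c ∧
      ∀ z, ρ z = trunc c (f c' (trunc c' (ρ z))))

end basic

/-- the tree part of a condition -/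
@[ext] structure Tr (K ι : Type u) [LinearOrder K] [OrderBot K] (m0 : K) where
  ht : K
  T : K → Set (K → K)
  A : K → Set (ι → K → K)
  T_out : ∀ e, ht < e → T e = ∅
  A_out : ∀ e, (ht < e ∨ ¬ CofW e) → A e = ∅
  T_val : ∀ e, ∀ x ∈ T e, ∀ c, x c < m0
  T_trunc : ∀ e, ∀ x ∈ T e, trunc e x = x
  T_res : ∀ e, ∀ x ∈ T e, ∀ e' ≤ e, trunc e' x ∈ T e'
  T_ext : ∀ e e', e ≤ e' → e' ≤ ht → ∀ x ∈ T e, ∃ y ∈ T e', trunc e y = x
  T_bot : (T ⊥).Nonempty
  T_card : ∀ e, #(T e) ≤ #ι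
  T_lim : ∀ e ≤ ht, CofW e → ∀ x : K → K, (∀ c, x c < m0) → trunc e x = x →
    (∀ c < e, trunc c x ∈ T c) → x ∈ T e
  A_mem : ∀ e, ∀ ρ ∈ A e, ∀ z, ρ z ∈ T e
  wit : ∀ e ≤ ht, IsLim e → ¬ CofW e → Wit T A e

namespace Tr
variable {K ι : Type u} [LinearOrder K] [OrderBot K] {m0 : K}

instance : LE (Tr K ι m0) := ⟨fun q p => p.ht ≤ q.ht ∧ ∀ e ≤ p.ht, q.T e = p.T e ∧ q.A e = p.A e⟩

lemma le_def {p q : Tr K ι m0} :
    q ≤ p ↔ p.ht ≤ q.ht ∧ ∀ e ≤ p.ht, q.T e = p.T e ∧ q.A e = p.A e := Iff.rfl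

instance : PartialOrder (Tr K ι m0) where
  le_refl p := ⟨le_rfl, fun e _ => ⟨rfl, rfl⟩⟩
  le_trans r q p h1 h2 := ⟨h2.1.trans h1.1, fun e he =>
    ⟨(h1.2 e (he.trans h2.1)).1.trans (h2.2 e he).1,
      (h1.2 e (he.trans h2.1)).2.trans (h2.2 e he).2⟩⟩
  le_antisymm q p h1 h2 := by
    have e1 : p.ht = q.ht := le_antisymm h1.1 h2.1
    ext e x
    · rw [e1]
    · by_cases he : e ≤ p.ht
      · rw [(h1.2 e he).1]
      · rw [p.T_out e (not_le.1 he), q.T_out e (by rw [← e1]; exact not_le.1 he)]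
    · by_cases he : e ≤ p.ht
      · rw [(h1.2 e he).2]
      · rw [p.A_out e (Or.inl (not_le.1 he)), q.A_out e (Or.inl (by rw [← e1]; exact not_le.1 he))]

lemma T_eq {p q : Tr K ι m0} (h : q ≤ p) {e : K} (he : e ≤ p.ht) : q.T e = p.T e := (h.2 e he).1
lemma A_eq {p q : Tr K ι m0} (h : q ≤ p) {e : K} (he : e ≤ p.ht) : q.A e = p.A e := (h.2 e he).2

lemma le_ht {p : Tr K ι m0} {e : K} {x : K → K} (h : x ∈ p.T e) : e ≤ p.ht := by
  by_contra hc
  rw [p.T_out e (not_le.1 hc)] at h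
  exact h

end Tr

/-- labels of decorations: a `tag`, and a function `w` enumerating labels of nodes -/
@[ext] structure DLab (ι W : Type u) where
  tag : W
  w : ι → W

/-- the conditions (without the collapse of `μ` to `ω₁`); the function `g a` of the decoration `a`
has its values below `chi a.tag` -/
@[ext] structure Cond (K ι W : Type u) [LinearOrder K] [OrderBot K] [LinearOrder W] [OrderBot W]
    (m0 : K) (chi : W → W) where
  tr : Tr K ι m0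
  L : Set W
  b : W → K → K
  N : Set (DLab ι W)
  C : DLab ι W → Set K
  g : DLab ι W → K → W
  L_card : #L ≤ #ι
  N_card : #N ≤ #ι
  b_mem : ∀ ξ ∈ L, b ξ ∈ tr.T tr.ht
  b_out : ∀ ξ ∉ L, b ξ = fun _ => ⊥
  N_L : ∀ a ∈ N, ∀ z, a.w z ∈ L
  C_le : ∀ a, ∀ c ∈ C a, c ≤ tr.ht
  C_out : ∀ a ∉ N, C a = ∅
  C_closed : ∀ a ∈ N, ∀ c ≤ tr.ht, LimPt (C a) c → c ∈ C a
  prom : ∀ a ∈ N, ∀ e ∈ C a, LimPt (C a) e → CofW e →
    (fun z => trunc e (b (a.w z))) ∈ tr.A e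
  g_le : ∀ a ∈ N, ∀ c < tr.ht, g a c ≤ chi a.tag
  g_out : ∀ a c, (a ∉ N ∨ tr.ht ≤ c) → g a c = ⊥

namespace Cond
variable {K ι W : Type u} [LinearOrder K] [OrderBot K] [LinearOrder W] [OrderBot W] {m0 : K}
  {chi : W → W}

lemma g_le' (p : Cond K ι W m0 chi) (a : DLab ι W) (c : K) : p.g a c ≤ chi a.tag := by
  by_cases h : a ∈ p.N ∧ c < p.tr.ht
  · exact p.g_le a h.1 c h.2
  · rw [p.g_out a c]
    · exact bot_le
    · by_cases h1 : a ∈ p.N
      · right; exact not_lt.1 fun h2 => h ⟨h1, h2⟩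
      · left; exact h1

instance : LE (Cond K ι W m0 chi) := ⟨fun q p => q.tr ≤ p.tr ∧ p.L ⊆ q.L ∧
  (∀ ξ ∈ p.L, trunc p.tr.ht (q.b ξ) = p.b ξ) ∧ p.N ⊆ q.N ∧
  (∀ a ∈ p.N, ∀ c ≤ p.tr.ht, c ∈ q.C a ↔ c ∈ p.C a) ∧
  ∀ a ∈ p.N, ∀ c < p.tr.ht, q.g a c = p.g a c⟩

lemma le_def {p q : Cond K ι W m0 chi} : q ≤ p ↔ q.tr ≤ p.tr ∧ p.L ⊆ q.L ∧
  (∀ ξ ∈ p.L, trunc p.tr.ht (q.b ξ) = p.b ξ) ∧ p.N ⊆ q.N ∧
  (∀ a ∈ p.N, ∀ c ≤ p.tr.ht, c ∈ q.C a ↔ c ∈ p.C a) ∧
  ∀ a ∈ p.N, ∀ c < p.tr.ht, q.g a c = p.g a c := Iff.rfl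

lemma le_tr {p q : Cond K ι W m0 chi} (h : q ≤ p) : q.tr ≤ p.tr := h.1
lemma le_ht {p q : Cond K ι W m0 chi} (h : q ≤ p) : p.tr.ht ≤ q.tr.ht := h.1.1
lemma le_L {p q : Cond K ι W m0 chi} (h : q ≤ p) : p.L ⊆ q.L := h.2.1
lemma le_b {p q : Cond K ι W m0 chi} (h : q ≤ p) {ξ : W} (hξ : ξ ∈ p.L) :
    trunc p.tr.ht (q.b ξ) = p.b ξ := h.2.2.1 ξ hξ
lemma le_N {p q : Cond K ι W m0 chi} (h : q ≤ p) : p.N ⊆ q.N := h.2.2.2.1
lemma le_C {p q : Cond K ι W m0 chi} (h : q ≤ p) {a : DLab ι W} (ha : a ∈ p.N) {c : K}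
    (hc : c ≤ p.tr.ht) : c ∈ q.C a ↔ c ∈ p.C a := h.2.2.2.2.1 a ha c hc
lemma le_g {p q : Cond K ι W m0 chi} (h : q ≤ p) {a : DLab ι W} (ha : a ∈ p.N) {c : K}
    (hc : c < p.tr.ht) : q.g a c = p.g a c := h.2.2.2.2.2 a ha c hc

lemma b_trunc (p : Cond K ι W m0 chi) (ξ : W) : trunc p.tr.ht (p.b ξ) = p.b ξ := by
  by_cases h : ξ ∈ p.L
  · exact p.tr.T_trunc _ _ (p.b_mem ξ h)
  · rw [p.b_out ξ h]
    funext c
    by_cases hc : c < p.tr.ht
    · rw [trunc_lt hc]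
    · rw [trunc_ge (not_lt.1 hc)]

instance : PartialOrder (Cond K ι W m0 chi) where
  le_refl p := ⟨le_rfl, Subset.rfl, fun ξ _ => p.b_trunc ξ, Subset.rfl, fun _ _ _ _ => Iff.rfl,
    fun _ _ _ _ => rfl⟩
  le_trans r q p h1 h2 := by
    refine ⟨h1.1.trans h2.1, (le_L h2).trans (le_L h1), fun ξ hξ => ?_, (le_N h2).trans (le_N h1),
      fun a ha c hc => ?_, fun a ha c hc => ?_⟩
    · rw [← le_b h2 hξ, ← le_b h1 (le_L h2 hξ), trunc_trunc_of_le (le_ht h2)]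
    · rw [le_C h1 (le_N h2 ha) (hc.trans (le_ht h2)), le_C h2 ha hc]
    · rw [le_g h1 (le_N h2 ha) (hc.trans_le (le_ht h2)), le_g h2 ha hc]
  le_antisymm q p h1 h2 := by
    have e1 : q.tr = p.tr := le_antisymm h1.1 h2.1
    have e2 : q.L = p.L := Subset.antisymm (le_L h2) (le_L h1)
    have e3 : q.N = p.N := Subset.antisymm (le_N h2) (le_N h1)
    have e4 : q.b = p.b := by
      funext ξ
      by_cases h : ξ ∈ p.L
      · rw [← le_b h1 h, ← e1, q.b_trunc]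
      · rw [p.b_out ξ h, q.b_out ξ (by rw [e2]; exact h)]
    have e5 : q.C = p.C := by
      funext a
      by_cases h : a ∈ p.N
      · ext c
        by_cases hc : c ≤ p.tr.ht
        · exact le_C h1 h hc
        · constructor
          · intro h3; exact absurd (e1 ▸ q.C_le a c h3) hc
          · intro h3; exact absurd (p.C_le a c h3) hc
      · rw [p.C_out a h, q.C_out a (by rw [e3]; exact h)]
    have e6 : q.g = p.g := by
      funext a c
      by_cases h : a ∈ p.N ∧ c < p.tr.ht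
      · exact le_g h1 h.1 h.2
      · have h' : a ∉ p.N ∨ p.tr.ht ≤ c := by
          by_cases h1 : a ∈ p.N
          · right; exact not_lt.1 fun h2 => h ⟨h1, h2⟩
          · left; exact h1
        rw [p.g_out a c h', q.g_out a c (by rw [e1, e3]; exact h')]
    cases q; cases p
    simp only [Cond.mk.injEq]
    exact ⟨e1, e2, e4, e3, e5, e6⟩

end Cond

end Pool.Agent.KT
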