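import Pool.Agent.Lib_MP_bf47cd.Defs

/-!
# MP_bf47cd_lc: hypotheses on the parameters, the part of a condition below `b0`, permutations,
bundles, functions valued in the forcing

Throughout: `K` is a well-order of type `(#ι)⁺`, `m0 : K` has `#ι` predecessors, `(#ι)^ω = #ι`;
`W` is a well-order of inaccessible type; `chi : W → W` has `chi ξ ≤ ξ` and large fibres;
`Q` is a countably closed forcing of size at most `#ι`.
-/

set_option linter.unusedSectionVars false
set_option linter.unusedVariables false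

namespace Pool.Agent.KT

universe u

open Set Cardinal

class SetupK (K ι : Type u) [LinearOrder K] (m0 : K) : Prop where
  pow : #ι ^ ℵ₀ = #ι
  inf : ℵ₀ ≤ #ι
  card_m0 : #(Iio m0) = #ι
  seg : ∀ e : K, #(Iio e) ≤ #ι
  big : #ι < #K

class SetupW (K ι W : Type u) [LinearOrder W] (chi : W → W) : Prop where
  seg : ∀ b : W, #(Iio b) < #W
  reg : ∀ s : Set W, #s < #W → ∃ b, ∀ w ∈ s, w < b
  strong : ∀ c < #W, 2 ^ c < #W
  K_lt : #K < #W
  chi_le : ∀ ξ, chi ξ ≤ ξ
  chi_fib : ∀ χ b : W, #ι < #{ξ | b ≤ ξ ∧ chi ξ = χ}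

class SetupQ (Q ι : Type u) [Preorder Q] : Prop where
  sigma : ∀ s : ℕ → Q, Antitone s → ∃ q, ∀ n, q ≤ s n
  card : #Q ≤ #ι

/-- all labels in the decoration label `a` are below `b0` -/
def DLab.Low {ι W : Type u} [LinearOrder W] (b0 : W) (a : DLab ι W) : Prop :=
  a.tag < b0 ∧ ∀ z, a.w z < b0

namespace Cond

section restr
variable {K ι W : Type u} [LinearOrder K] [OrderBot K] [LinearOrder W] [OrderBot W] {m0 : K}
  {chi : W → W}

open Classical in
/-- the part of the condition `p` with labels below `b0` (same tree) -/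
noncomputable def restr (b0 : W) (p : Cond K ι W m0 chi) : Cond K ι W m0 chi where
  tr := p.tr
  L := {ξ | ξ ∈ p.L ∧ ξ < b0}
  b ξ := if ξ < b0 then p.b ξ else fun _ => ⊥
  N := {a | a ∈ p.N ∧ a.Low b0}
  C a := if a.Low b0 then p.C a else ∅
  g a := if a.Low b0 then p.g a else fun _ => ⊥
  L_card := le_trans (mk_le_mk_of_subset fun _ h => h.1) p.L_card
  N_card := le_trans (mk_le_mk_of_subset fun _ h => h.1) p.N_card
  b_mem ξ h := by rw [if_pos h.2]; exact p.b_mem ξ h.1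
  b_out ξ h := by
    by_cases h1 : ξ < b0
    · rw [if_pos h1]; exact p.b_out ξ fun h2 => h ⟨h2, h1⟩
    · rw [if_neg h1]
  N_L a h z := ⟨p.N_L a h.1 z, h.2.2 z⟩
  C_le a c h := by
    by_cases h1 : a.Low b0
    · rw [if_pos h1] at h; exact p.C_le a c h
    · rw [if_neg h1] at h; exact absurd h (notMem_empty c)
  C_out a h := by
    by_cases h1 : a.Low b0
    · rw [if_pos h1]; exact p.C_out a fun h2 => h ⟨h2, h1⟩
    · rw [if_neg h1]
  C_closed a h c hc hl := by
    rw [if_pos h.2] at hl ⊢; exact p.C_closed a h.1 c hc hl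
  prom a h e he hl hw := by
    rw [if_pos h.2] at he hl
    have : (fun z => trunc e ((fun ξ => if ξ < b0 then p.b ξ else fun _ => ⊥) (a.w z))) =
        fun z => trunc e (p.b (a.w z)) := by
      funext z
      simp only [if_pos (h.2.2 z)]
    rw [this]
    exact p.prom a h.1 e he hl hw
  g_le a h c hc := by rw [if_pos h.2]; exact p.g_le a h.1 c hc
  g_out a c h := by
    by_cases h1 : a.Low b0
    · rw [if_pos h1]
      refine p.g_out a c ?_
      rcases h with h | h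
      · left; exact fun h2 => h ⟨h2, h1⟩
      · right; exact h
    · rw [if_neg h1]

variable {p q : Cond K ι W m0 chi} {b0 : W}

@[simp] lemma restr_tr : (restr b0 p).tr = p.tr := rfl
lemma mem_restr_L {ξ : W} : ξ ∈ (restr b0 p).L ↔ ξ ∈ p.L ∧ ξ < b0 := Iff.rfl
lemma mem_restr_N {a : DLab ι W} : a ∈ (restr b0 p).N ↔ a ∈ p.N ∧ a.Low b0 := Iff.rfl
lemma restr_b {ξ : W} (h : ξ < b0) : (restr b0 p).b ξ = p.b ξ := by
  simp only [restr, if_pos h]
lemma restr_C {a : DLab ι W} (h : a.Low b0) : (restr b0 p).C a = p.C a := by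
  simp only [restr, if_pos h]
lemma restr_g {a : DLab ι W} (h : a.Low b0) : (restr b0 p).g a = p.g a := by
  simp only [restr, if_pos h]

lemma le_restr (b0 : W) (p : Cond K ι W m0 chi) : p ≤ restr b0 p := by
  refine ⟨le_rfl, fun ξ h => h.1, fun ξ h => ?_, fun a h => h.1, fun a h c _ => ?_,
    fun a h c _ => ?_⟩
  · rw [restr_b h.2]; exact p.b_trunc ξ
  · rw [restr_C h.2]
  · rw [restr_g h.2]

lemma restr_mono (h : q ≤ p) (b0 : W) : restr b0 q ≤ restr b0 p := by
  refine ⟨h.1, fun ξ h1 => ⟨le_L h h1.1, h1.2⟩, fun ξ h1 => ?_, fun a h1 => ⟨le_N h h1.1, h1.2⟩,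
    fun a h1 c hc => ?_, fun a h1 c hc => ?_⟩
  · rw [restr_b h1.2, restr_b h1.2]; exact le_b h h1.1
  · rw [restr_C h1.2, restr_C h1.2]; exact le_C h h1.1 hc
  · rw [restr_g h1.2, restr_g h1.2]; exact le_g h h1.1 hc

/-- equality of conditions, checked on the labels only -/
lemma ext' (h1 : p.tr = q.tr) (h2 : p.L = q.L) (h3 : ∀ ξ ∈ p.L, p.b ξ = q.b ξ) (h4 : p.N = q.N)
    (h5 : ∀ a ∈ p.N, p.C a = q.C a) (h6 : ∀ a ∈ p.N, p.g a = q.g a) : p = q := by
  have e3 : p.b = q.b := by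
    funext ξ
    by_cases h : ξ ∈ p.L
    · exact h3 ξ h
    · rw [p.b_out ξ h, q.b_out ξ (by rw [← h2]; exact h)]
  have e5 : p.C = q.C := by
    funext a
    by_cases h : a ∈ p.N
    · exact h5 a h
    · rw [p.C_out a h, q.C_out a (by rw [← h4]; exact h)]
  have e6 : p.g = q.g := by
    funext a
    by_cases h : a ∈ p.N
    · exact h6 a h
    · funext c
      rw [p.g_out a c (Or.inl h), q.g_out a c (Or.inl (by rw [← h4]; exact h))]
  cases p; cases q
  simp only [Cond.mk.injEq]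
  exact ⟨h1, h2, e3, h4, e5, e6⟩

lemma restr_eq_iff : restr b0 p = restr b0 q ↔ p.tr = q.tr ∧
    (∀ ξ < b0, (ξ ∈ p.L ↔ ξ ∈ q.L) ∧ p.b ξ = q.b ξ) ∧
    ∀ a : DLab ι W, a.Low b0 → (a ∈ p.N ↔ a ∈ q.N) ∧ p.C a = q.C a ∧ p.g a = q.g a := by
  constructor
  · intro h
    refine ⟨congrArg (fun r => r.tr) h, fun ξ hξ => ⟨?_, ?_⟩, fun a ha => ⟨?_, ?_, ?_⟩⟩
    · have h1 : ξ ∈ (restr b0 p).L ↔ ξ ∈ (restr b0 q).L := by rw [h]
      rw [mem_restr_L, mem_restr_L] at h1
      constructor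
      · intro h2; exact (h1.1 ⟨h2, hξ⟩).1
      · intro h2; exact (h1.2 ⟨h2, hξ⟩).1
    · rw [← restr_b (p := p) hξ, ← restr_b (p := q) hξ, h]
    · have h1 : a ∈ (restr b0 p).N ↔ a ∈ (restr b0 q).N := by rw [h]
      rw [mem_restr_N, mem_restr_N] at h1
      constructor
      · intro h2; exact (h1.1 ⟨h2, ha⟩).1
      · intro h2; exact (h1.2 ⟨h2, ha⟩).1
    · rw [← restr_C (p := p) ha, ← restr_C (p := q) ha, h]
    · rw [← restr_g (p := p) ha, ← restr_g (p := q) ha, h]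
  · rintro ⟨h1, h2, h3⟩
    refine ext' h1 ?_ (fun ξ h => ?_) ?_ (fun a h => ?_) (fun a h => ?_)
    · ext ξ
      rw [mem_restr_L, mem_restr_L]
      constructor
      · rintro ⟨h4, h5⟩; exact ⟨(h2 ξ h5).1.1 h4, h5⟩
      · rintro ⟨h4, h5⟩; exact ⟨(h2 ξ h5).1.2 h4, h5⟩
    · rw [restr_b h.2, restr_b h.2]; exact (h2 ξ h.2).2
    · ext a
      rw [mem_restr_N, mem_restr_N]
      constructor
      · rintro ⟨h4, h5⟩; exact ⟨(h3 a h5).1.1 h4, h5⟩
      · rintro ⟨h4, h5⟩; exact ⟨(h3 a h5).1.2 h4, h5⟩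
    · rw [restr_C h.2, restr_C h.2]; exact (h3 a h.2).2.1
    · rw [restr_g h.2, restr_g h.2]; exact (h3 a h.2).2.2

@[simp] lemma restr_restr : restr b0 (restr b0 p) = restr b0 p := by
  rw [restr_eq_iff]
  refine ⟨rfl, fun ξ h => ⟨?_, restr_b h⟩, fun a h => ⟨?_, restr_C h, restr_g h⟩⟩
  · rw [mem_restr_L]
    exact ⟨fun h1 => h1.1, fun h1 => ⟨h1, h⟩⟩
  · rw [mem_restr_N]
    exact ⟨fun h1 => h1.1, fun h1 => ⟨h1, h⟩⟩

/-- if `s` has only labels below `b0`, then `s ≤ restr b0 s` is an equality -/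
lemma restr_eq_self_iff : restr b0 p = p ↔ (∀ ξ ∈ p.L, ξ < b0) ∧ ∀ a ∈ p.N, a.Low b0 := by
  constructor
  · intro h
    constructor
    · intro ξ hξ
      rw [← h] at hξ; exact hξ.2
    · intro a ha
      rw [← h] at ha; exact ha.2
  · rintro ⟨h1, h2⟩
    refine ext' rfl ?_ (fun ξ h => restr_b h.2) ?_ (fun a h => restr_C h.2) (fun a h => restr_g h.2)
    · ext ξ
      rw [mem_restr_L]
      exact ⟨fun h => h.1, fun h => ⟨h, h1 ξ h⟩⟩
    · ext a
      rw [mem_restr_N]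
      exact ⟨fun h => h.1, fun h => ⟨h, h2 a h⟩⟩

end restr

/-! ### permutations of the labels -/

section perm
variable {K ι W : Type u} [LinearOrder K] [OrderBot K] [LinearOrder W] [OrderBot W] {m0 : K}
  {chi : W → W}

end perm

end Cond

/-- the image of a decoration label under a permutation of the labels -/
def DLab.map {ι W : Type u} (π : Equiv.Perm W) (a : DLab ι W) : DLab ι W :=
  ⟨π a.tag, fun z => π (a.w z)⟩

@[simp] lemma DLab.map_symm_map {ι W : Type u} (π : Equiv.Perm W) (a : DLab ι W) :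
    (a.map π).map π.symm = a := by
  ext z <;> simp [DLab.map]

@[simp] lemma DLab.map_map_symm {ι W : Type u} (π : Equiv.Perm W) (a : DLab ι W) :
    (a.map π.symm).map π = a := by
  ext z <;> simp [DLab.map]

lemma DLab.map_injective {ι W : Type u} (π : Equiv.Perm W) :
    Function.Injective (DLab.map π : DLab ι W → DLab ι W) := fun a b h => by
  rw [← DLab.map_symm_map π a, h, DLab.map_symm_map]

/-- `π` is a permutation of the labels that preserves `chi` and fixes the labels below `b0` -/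
structure GoodPerm {W : Type u} [LinearOrder W] (chi : W → W) (b0 : W) (π : Equiv.Perm W) :
    Prop where
  chi_eq : ∀ ξ, chi (π ξ) = chi ξ
  fix : ∀ ξ < b0, π ξ = ξ

section perm
variable {K ι W : Type u} [LinearOrder K] [OrderBot K] [LinearOrder W] [OrderBot W] {m0 : K}
  {chi : W → W}

lemma GoodPerm.symm {b0 : W} {π : Equiv.Perm W} (h : GoodPerm chi b0 π) :
    GoodPerm chi b0 π.symm where
  chi_eq ξ := by rw [← h.chi_eq (π.symm ξ), Equiv.apply_symm_apply]
  fix ξ hξ := by rw [Equiv.symm_apply_eq, h.fix ξ hξ]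

lemma GoodPerm.lt_iff {b0 : W} {π : Equiv.Perm W} (h : GoodPerm chi b0 π) {ξ : W} :
    π ξ < b0 ↔ ξ < b0 := by
  constructor
  · intro h1
    have h2 : π (π ξ) = π ξ := h.fix _ h1
    have h3 : π ξ = ξ := π.injective h2
    rwa [h3] at h1
  · intro h1; rw [h.fix ξ h1]; exact h1

lemma GoodPerm.low_iff {b0 : W} {π : Equiv.Perm W} (h : GoodPerm chi b0 π) {a : DLab ι W} :
    (a.map π).Low b0 ↔ a.Low b0 := by
  unfold DLab.Low
  simp only [DLab.map, h.lt_iff]

lemma GoodPerm.map_eq {b0 : W} {π : Equiv.Perm W} (h : GoodPerm chi b0 π) {a : DLab ι W}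
    (ha : a.Low b0) : a.map π = a := by
  ext z
  · exact h.fix _ ha.1
  · exact h.fix _ (ha.2 z)

/-- the action of a permutation of the labels on conditions -/
def Cond.perm (π : Equiv.Perm W) (hπ : ∀ ξ, chi (π ξ) = chi ξ) (p : Cond K ι W m0 chi) :
    Cond K ι W m0 chi where
  tr := p.tr
  L := {ξ | π.symm ξ ∈ p.L}
  b ξ := p.b (π.symm ξ)
  N := {a | a.map π.symm ∈ p.N}
  C a := p.C (a.map π.symm)
  g a := p.g (a.map π.symm)
  L_card := by
    refine le_trans (mk_le_of_injective (f := fun ξ : {ξ | π.symm ξ ∈ p.L} =>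
      (⟨π.symm ξ.1, ξ.2⟩ : p.L)) fun x y h => ?_) p.L_card
    exact Subtype.ext (π.symm.injective (congrArg Subtype.val h))
  N_card := by
    refine le_trans (mk_le_of_injective (f := fun a : {a : DLab ι W | a.map π.symm ∈ p.N} =>
      (⟨a.1.map π.symm, a.2⟩ : p.N)) fun x y h => ?_) p.N_card
    exact Subtype.ext (DLab.map_injective π.symm (congrArg Subtype.val h))
  b_mem ξ h := p.b_mem _ h
  b_out ξ h := p.b_out _ h
  N_L a h z := p.N_L _ h z
  C_le a := p.C_le _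
  C_out a h := p.C_out _ h
  C_closed a h := p.C_closed _ h
  prom a h e he hl hw := p.prom _ h e he hl hw
  g_le a h c hc := by
    have h1 := p.g_le _ h c hc
    have h2 : chi (a.map π.symm).tag = chi a.tag := by
      change chi (π.symm a.tag) = chi a.tag
      rw [← hπ (π.symm a.tag), Equiv.apply_symm_apply]
    rwa [h2] at h1
  g_out a c h := p.g_out _ c h

end perm

/-! ### bundles -/

/-- a loom on the tree part `t`: a coherent system of threads -/
structure Loom {K ι : Type u} [LinearOrder K] [OrderBot K] {m0 : K} (t : Tr K ι m0) where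
  E : Set K
  f : K → (K → K) → K → K
  E_le : ∀ c ∈ E, c ≤ t.ht
  E_ht : t.ht ∈ E
  E_closed : ∀ c ≤ t.ht, LimPt E c → c ∈ E
  f_mem : ∀ c ∈ E, ∀ x ∈ t.T c, f c x ∈ t.T t.ht
  f_trunc : ∀ c ∈ E, ∀ x ∈ t.T c, trunc c (f c x) = x
  f_coh : ∀ c ∈ E, ∀ c' ∈ E, c ≤ c' → ∀ x ∈ t.T c, f c' (trunc c' (f c x)) = f c x
  alive : ∀ c ∈ E, LimPt E c → CofW c → ∀ ρ ∈ t.A c, ∃ c' ∈ E, c' < c ∧
    ∀ z, ρ z = trunc c (f c' (trunc c' (ρ z)))

section
variable {K ι W : Type u} [LinearOrder K] [OrderBot K] [LinearOrder W] [OrderBot W] {m0 : K}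
  {chi : W → W}

lemma Loom.f_ht {t : Tr K ι m0} (l : Loom t) {x : K → K} (hx : x ∈ t.T t.ht) :
    l.f t.ht x = x := by
  have h1 := l.f_trunc _ l.E_ht x hx
  rwa [t.T_trunc _ _ (l.f_mem _ l.E_ht x hx)] at h1

/-- the trivial loom -/
def Loom.triv (t : Tr K ι m0) : Loom t where
  E := {t.ht}
  f _ x := x
  E_le c hc := le_of_eq hc
  E_ht := rfl
  E_closed c hc h := by
    obtain ⟨c', h1, h2, h3⟩ := h.2 ⊥ (bot_lt_iff_ne_bot.2 h.1)
    rw [mem_singleton_iff] at h1
    rw [h1] at h3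
    exact absurd h3 (not_lt.2 hc)
  f_mem c hc x hx := by rw [mem_singleton_iff] at hc; rw [hc] at hx; exact hx
  f_trunc c hc x hx := t.T_trunc c x hx
  f_coh c hc c' hc' h x hx := by
    rw [mem_singleton_iff] at hc hc'
    rw [hc] at hx; rw [hc']; exact t.T_trunc _ x hx
  alive c hc h := by
    obtain ⟨c', h1, h2, h3⟩ := h.2 ⊥ (bot_lt_iff_ne_bot.2 h.1)
    rw [mem_singleton_iff] at h1 hc
    rw [h1, hc] at h3
    exact absurd h3 (lt_irrefl _)

/-- a bundle: a family of conditions on one tree with a loom, with the same parts below `b0` -/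
structure Bundle (K ι W : Type u) [LinearOrder K] [OrderBot K] [LinearOrder W] [OrderBot W]
    (m0 : K) (chi : W → W) (b0 : W) (V : Type u) where
  tr : Tr K ι m0
  l : Loom tr
  r : V → Cond K ι W m0 chi
  r_tr : ∀ v, (r v).tr = tr
  r_inj : ∀ v, InjOn (r v).b (r v).L
  r_restr : ∀ v v', Cond.restr b0 (r v) = Cond.restr b0 (r v')

/-- `B'` is an end-extension of the bundle `B` in which all labels follow their threads -/
def Bundle.Le {b0 : W} {V : Type u} (B' B : Bundle K ι W m0 chi b0 V) : Prop :=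
  B'.tr ≤ B.tr ∧ (∀ c ≤ B.tr.ht, c ∈ B'.l.E ↔ c ∈ B.l.E) ∧
  (∀ c ∈ B.l.E, ∀ x ∈ B.tr.T c, B'.l.f c x = B'.l.f B.tr.ht (B.l.f c x)) ∧
  ∀ v, B'.r v ≤ B.r v ∧ ∀ ξ ∈ (B.r v).L, (B'.r v).b ξ = B'.l.f B.tr.ht ((B.r v).b ξ)

namespace Bundle
variable {b0 : W} {V V' : Type u}

lemma Le.ht {B' B : Bundle K ι W m0 chi b0 V} (h : B'.Le B) : B.tr.ht ≤ B'.tr.ht := h.1.1

lemma Le.refl (B : Bundle K ι W m0 chi b0 V) : B.Le B := by
  refine ⟨le_rfl, fun _ _ => Iff.rfl, fun c hc x hx => ?_, fun v => ⟨le_rfl, fun ξ hξ => ?_⟩⟩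
  · rw [B.l.f_ht (B.l.f_mem c hc x hx)]
  · have h1 := (B.r v).b_mem ξ hξ
    rw [B.r_tr v] at h1
    rw [B.l.f_ht h1]

lemma Le.trans {B'' B' B : Bundle K ι W m0 chi b0 V} (h1 : B''.Le B') (h2 : B'.Le B) :
    B''.Le B := by
  have hE : B.tr.ht ∈ B'.l.E := (h2.2.1 _ le_rfl).2 B.l.E_ht
  have key : ∀ y ∈ B.tr.T B.tr.ht, B''.l.f B'.tr.ht (B'.l.f B.tr.ht y) = B''.l.f B.tr.ht y := by
    intro y hy
    exact (h1.2.2.1 _ hE y (by rw [Tr.T_eq h2.1 le_rfl]; exact hy)).symm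
  refine ⟨h1.1.trans h2.1, fun c hc => ?_, fun c hc x hx => ?_, fun v => ⟨?_, fun ξ hξ => ?_⟩⟩
  · rw [h1.2.1 c (hc.trans h2.ht), h2.2.1 c hc]
  · have hc1 := B.l.E_le c hc
    rw [h1.2.2.1 c ((h2.2.1 c hc1).2 hc) x (by rw [Tr.T_eq h2.1 hc1]; exact hx),
      h2.2.2.1 c hc x hx]
    exact key _ (B.l.f_mem c hc x hx)
  · exact (h1.2.2.2 v).1.trans (h2.2.2.2 v).1
  · have h3 := (B.r v).b_mem ξ hξ
    rw [B.r_tr v] at h3
    rw [(h1.2.2.2 v).2 ξ (Cond.le_L (h2.2.2.2 v).1 hξ), (h2.2.2.2 v).2 ξ hξ]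
    exact key _ h3

/-- reindexing a bundle -/
def comap (φ : V' → V) (B : Bundle K ι W m0 chi b0 V) : Bundle K ι W m0 chi b0 V' where
  tr := B.tr
  l := B.l
  r v := B.r (φ v)
  r_tr v := B.r_tr _
  r_inj v := B.r_inj _
  r_restr v v' := B.r_restr _ _

/-- the constant bundle on a condition with injective `b`, with the trivial loom -/
def const (b0 : W) (V : Type u) (p : Cond K ι W m0 chi) (hp : InjOn p.b p.L) :
    Bundle K ι W m0 chi b0 V where
  tr := p.tr
  l := Loom.triv p.tr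
  r _ := p
  r_tr _ := rfl
  r_inj _ := hp
  r_restr _ _ := rfl

end Bundle
end

/-! ### functions valued in a forcing -/

/-- a name for a function from `A` to `B`: `val a b p` is read `p` forces that the value at `a`
is `b` -/
structure PF (P A B : Type u) [Preorder P] where
  val : A → B → P → Prop
  mono : ∀ a b p q, q ≤ p → val a b p → val a b q
  dense : ∀ a b p, (∀ q ≤ p, ∃ r ≤ q, val a b r) → val a b p
  uniq : ∀ a b b' p, val a b p → val a b' p → b = b'
  total : ∀ a p, ∃ q ≤ p, ∃ b, val a b q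

end Pool.Agent.KT
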