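import Pool.Agent.Lib_MP_bf47cd.VDefs
import Pool.Agent.Lib_Inner.Basic

/-!
# H17-V01: the cut of a model of ZFC at a universe is a model of ZFC
-/

set_option linter.unusedSectionVars false
set_option linter.unusedVariables false

namespace Pool.Agent.KTM

open Pool.Agent.Inner Pool.Agent.Forcing

universe w

/-! ### relativised formulas -/

/-- relativisation to the variable `u`, with renaming of the variables -/
private def v01_rel (ρ : ℕ → ℕ) (u : ℕ) : Fml → Fml
  | .mem i j => .mem (ρ i) (ρ j)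
  | .eq i j => .eq (ρ i) (ρ j)
  | .neg φ => .neg (v01_rel ρ u φ)
  | .and φ ψ => .and (v01_rel ρ u φ) (v01_rel ρ u ψ)
  | .all i φ => .all (ρ i) (.neg (.and (.mem (ρ i) u) (.neg (v01_rel ρ u φ))))

private lemma v01_sat {M : Type w} {E : M → M → Prop} {U : M} {ρ : ℕ → ℕ} {u : ℕ}
    (hρ : Function.Injective ρ) (hu : ∀ i, ρ i ≠ u) (φ : Fml) :
    ∀ (v : ℕ → {x // E x U}) (v' : ℕ → M), v' u = U → (∀ i, v' (ρ i) = (v i).1) →
      (Sat E (v01_rel ρ u φ) v' ↔ Sat (cut E U) φ v) := by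
  induction φ with
  | mem i j =>
    intro v v' h1 h2
    change E (v' (ρ i)) (v' (ρ j)) ↔ E (v i).1 (v j).1
    rw [h2, h2]
  | eq i j =>
    intro v v' h1 h2
    change v' (ρ i) = v' (ρ j) ↔ v i = v j
    rw [h2, h2, Subtype.ext_iff]
  | neg φ ih =>
    intro v v' h1 h2
    exact not_congr (ih v v' h1 h2)
  | and φ ψ ih1 ih2 =>
    intro v v' h1 h2
    exact and_congr (ih1 v v' h1 h2) (ih2 v v' h1 h2)
  | all i φ ih =>
    intro v v' h1 h2
    change (∀ x, ¬ (E (Function.update v' (ρ i) x (ρ i)) (Function.update v' (ρ i) x u) ∧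
      ¬ Sat E (v01_rel ρ u φ) (Function.update v' (ρ i) x))) ↔
      ∀ x, Sat (cut E U) φ (Function.update v i x)
    have e1 : ∀ x, Function.update v' (ρ i) x u = U := by
      intro x
      rw [Function.update_of_ne (fun h => hu i h.symm), h1]
    have e2 : ∀ x : {x // E x U}, ∀ j, Function.update v' (ρ i) x.1 (ρ j) =
        (Function.update v i x j).1 := by
      intro x j
      by_cases h : j = i
      · subst h; simp
      · have h3 : ρ j ≠ ρ i := fun h4 => h (hρ h4)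
        rw [Function.update_of_ne h3, Function.update_of_ne h, h2]
    constructor
    · intro h x
      by_contra h3
      apply h x.1
      refine ⟨?_, fun h4 => h3 ((ih _ _ (e1 x.1) (e2 x)).1 h4)⟩
      rw [e1, Function.update_self]
      exact x.2
    · rintro h x ⟨h3, h4⟩
      rw [e1, Function.update_self] at h3
      exact h4 ((ih _ _ (e1 x) (e2 ⟨x, h3⟩)).2 (h ⟨x, h3⟩))

variable {M : Type w} {E : M → M → Prop} (hE : ModelsZFC E) {U : M} (hU : IsUniv E U)
include hE hU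

/-- subsets of elements of `U` are in `U` -/
theorem univ_sub {x y : M} (hx : E x U) (h : Sub E y x) : E y U := by
  obtain ⟨p, hp, h1⟩ := hU.power x hx
  exact hU.trans p hp y (h1 y h)

private lemma v01_upair {x y z : M} (h : IsUPair E z x y) : E z U ↔ E x U ∧ E y U := by
  constructor
  · intro hz
    exact ⟨hU.trans z hz x ((h x).2 (Or.inl rfl)), hU.trans z hz y ((h y).2 (Or.inr rfl))⟩
  · rintro ⟨hx, hy⟩
    obtain ⟨z', hz', h1, h2⟩ := hU.pair x y hx hy
    refine univ_sub hE hU hz' fun t ht => ?_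
    rcases (h t).1 ht with h3 | h3
    · rw [h3]; exact h1
    · rw [h3]; exact h2

/-- pairs of elements of `U` are in `U`, and conversely -/
private lemma v01_pair {x y z : M} (h : IsPair E z x y) : E z U ↔ E x U ∧ E y U := by
  obtain ⟨a, b, h1, h2, h3⟩ := h
  rw [v01_upair hE hU h3, v01_upair hE hU h1, v01_upair hE hU h2]
  constructor
  · rintro ⟨⟨h4, _⟩, _, h5⟩; exact ⟨h4, h5⟩
  · rintro ⟨h4, h5⟩; exact ⟨⟨h4, h4⟩, h4, h5⟩

/-- relations between elements of `U` are in `U` -/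
theorem univ_rel {x y r : M} (hx : E x U) (hy : E y U)
    (h : ∀ z, E z r → ∃ a b, E a x ∧ E b y ∧ IsPair E z a b) : E r U := by
  obtain ⟨t, ht, hxt, hyt⟩ := hU.pair x y hx hy
  obtain ⟨s, hs, h1⟩ := hU.union t ht
  obtain ⟨p, hp, h2⟩ := hU.power s hs
  obtain ⟨q, hq, h3⟩ := hU.power p hp
  refine univ_sub hE hU hq fun z hz => ?_
  obtain ⟨a, b, ha, hb, c, d, h4, h5, h6⟩ := h z hz
  have ha' : E a s := h1 x a hxt ha
  have hb' : E b s := h1 y b hyt hb
  refine h3 z fun e he => h2 e fun f hf => ?_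
  rcases (h6 e).1 he with h7 | h7
  · rw [h7] at hf
    rcases (h4 f).1 hf with h8 | h8 <;> · rw [h8]; exact ha'
  · rw [h7] at hf
    rcases (h5 f).1 hf with h8 | h8
    · rw [h8]; exact ha'
    · rw [h8]; exact hb'

/-- pairs of elements of `U` are in `U`, and conversely -/
theorem univ_pair {x y z : M} (h : IsPair E z x y) : E z U ↔ E x U ∧ E y U :=
  v01_pair hE hU h

private lemma v01_replacement (φ : Fml) (v : ℕ → {x // E x U}) (a : {x // E x U})
    (h : ∀ x, cut E U x a → ∃! y, Sat (cut E U) φ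
      (Function.update (Function.update v 0 x) 1 y)) :
    ∃ b, ∀ y, cut E U y b ↔ ∃ x, cut E U x a ∧ Sat (cut E U) φ
      (Function.update (Function.update v 0 x) 1 y) := by
  -- the relativised formula: `y` is variable `0`, `x` is variable `1`, `U` is variable `3`
  let ρ : ℕ → ℕ := fun i => if i = 0 then 1 else if i = 1 then 0 else i + 2
  have hρ : Function.Injective ρ := by
    intro i j hij
    simp only [ρ] at hij
    split_ifs at hij <;> omega
  have hρ3 : ∀ i, ρ i ≠ 3 := by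
    intro i
    simp only [ρ]
    split_ifs <;> omega
  let pv : ℕ → M := cons U fun i => (v (i + 2)).1
  have key : ∀ (x y : {x // E x U}) (z : M),
      Sat E (v01_rel ρ 3 φ) (cons y.1 (cons x.1 (cons z pv))) ↔
        Sat (cut E U) φ (Function.update (Function.update v 0 x) 1 y) := by
    intro x y z
    refine v01_sat hρ hρ3 φ _ _ rfl fun i => ?_
    rcases i with _ | _ | i
    · simp [ρ, Function.update_of_ne, cons]
    · simp [ρ, cons]
    · simp [ρ, pv, Function.update_of_ne, cons]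
  have hfo : FO.{w} (fun M E v => ∃ y, (fun M E v => E (v 0) (v 3) ∧
      (IsPair E (v 2) (v 1) (v 0) ∧ Sat E (v01_rel ρ 3 φ) v)) M E (cons y v)) := by
    refine FO.ex ?_
    have h0 : FO.{w} (fun M E v => E (v 0) (v 3) ∧
      (IsPair E (v 2) (v 1) (v 0) ∧ Sat E (v01_rel ρ 3 φ) v)) :=
      FO.and (FO.mem _ _) (FO.and (FO.isPair _ _ _) ⟨_, fun _ _ _ => Iff.rfl⟩)
    obtain ⟨ψ, hψ⟩ := h0
    refine ⟨ψ, fun M E v => ?_⟩
    rw [hψ]
    have : cons (v 0) (fun k => v (k + 1)) = v := by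
      funext k; cases k <;> rfl
    beta_reduce
    rw [this]
  obtain ⟨f, hf⟩ := repl hE hfo pv a.1 (by
    intro x hx
    obtain ⟨y, hy, hy2⟩ := h ⟨x, hU.trans _ a.2 x hx⟩ hx
    refine ⟨pair E x y.1, ⟨y.1, y.2, (isPair_iff hE).2 rfl, (key _ y _).2 hy⟩, ?_⟩
    rintro z ⟨y', hy'U, hz, hs⟩
    have h1 := hy2 ⟨y', hy'U⟩ ((key ⟨x, hU.trans _ a.2 x hx⟩ ⟨y', hy'U⟩ _).1 hs)
    have h2 : z = pair E x y' := (isPair_iff hE).1 hz
    rw [h2, ← h1])
  have hval : ∀ x y, Val E f x y ↔ ∃ hx : E x a.1, ∃ hy : E y U, Sat (cut E U) φ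
      (Function.update (Function.update v 0 ⟨x, hU.trans _ a.2 x hx⟩) 1 ⟨y, hy⟩) := by
    intro x y
    rw [val_iff hE, hf]
    constructor
    · rintro ⟨x', hx', y', hy', hz, hs⟩
      have h2 : pair E x y = pair E x' y' := (isPair_iff hE).1 hz
      obtain ⟨h3, h4⟩ := (pair_inj hE).1 h2
      subst h3
      subst h4
      exact ⟨hx', hy', (key ⟨x, hU.trans _ a.2 x hx'⟩ ⟨y, hy'⟩ _).1 hs⟩
    · rintro ⟨hx, hy, hs⟩
      exact ⟨x, hx, y, hy, (isPair_iff hE).2 rfl, (key ⟨x, _⟩ ⟨y, hy⟩ _).2 hs⟩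
  have hfun : IsFun E f a.1 U := by
    constructor
    · intro z hz
      obtain ⟨x, hx, y, hy, h1, _⟩ := (hf z).1 hz
      exact ⟨x, y, hx, hy, h1⟩
    · intro x hx
      obtain ⟨y, hy, hy2⟩ := h ⟨x, hU.trans _ a.2 x hx⟩ hx
      refine ⟨y.1, (hval _ _).2 ⟨hx, y.2, hy⟩, fun y' hy' => ?_⟩
      obtain ⟨_, hyU, hs⟩ := (hval _ _).1 hy'
      exact congrArg Subtype.val (hy2 ⟨y', hyU⟩ hs)
  obtain ⟨r, hr, hr2⟩ := hU.repl a.1 f a.2 hfun
  obtain ⟨b, hb⟩ := sep hE (R := fun M E v => ∃ x, E x (v 1) ∧ Val E (v 2) x (v 0))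
    (FO.ex (FO.and (FO.mem _ _) (FO.val _ _ _))) (cons a.1 (cons f fun _ => f)) r
  have hbU : E b U := univ_sub hE hU hr fun z hz => ((hb z).1 hz).1
  refine ⟨⟨b, hbU⟩, fun y => ?_⟩
  change E y.1 b ↔ _
  rw [hb]
  constructor
  · rintro ⟨_, x, hx, hxy⟩
    have hxy' : Val E f x y.1 := hxy
    obtain ⟨hx', hy, hs⟩ := (hval _ _).1 hxy'
    exact ⟨⟨x, _⟩, hx', hs⟩
  · rintro ⟨x, hx, hs⟩
    have h1 : Val E f x.1 y.1 := (hval _ _).2 ⟨hx, y.2, hs⟩
    exact ⟨hr2 _ _ h1, x.1, hx, h1⟩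

/-- Separation and replacement: relativise the formula to `U` (`Sat` in the cut is `Sat` of the
relativised formula, with a fresh variable for `U`). Replacement from replacement in `M`: the
function is an element of `M` (as a set of pairs), then `hU.repl`. Choice: intersect a choice set
with the union. -/
theorem cut_modelsZFC : ModelsZFC (cut E U) where
  extensionality x y h := by
    refine Subtype.ext (hE.extensionality _ _ fun z => ?_)
    constructor
    · intro hz; exact (h ⟨z, hU.trans _ x.2 z hz⟩).1 hz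
    · intro hz; exact (h ⟨z, hU.trans _ y.2 z hz⟩).2 hz
  foundation x h := by
    obtain ⟨y0, hy0⟩ := h
    obtain ⟨y, hy, h1⟩ := hE.foundation x.1 ⟨y0.1, hy0⟩
    exact ⟨⟨y, hU.trans _ x.2 y hy⟩, hy, fun z hz => h1 z.1 hz⟩
  pairing x y := by
    obtain ⟨z, hz⟩ := hE.pairing x.1 y.1
    refine ⟨⟨z, (v01_upair hE hU hz).2 ⟨x.2, y.2⟩⟩, fun t => ?_⟩
    change E t.1 z ↔ _
    rw [hz, Subtype.ext_iff, Subtype.ext_iff]
  union x := by
    obtain ⟨u, hu⟩ := hE.union x.1
    obtain ⟨s, hs, h1⟩ := hU.union x.1 x.2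
    have huU : E u U := univ_sub hE hU hs fun z hz => by
      obtain ⟨y, hy, hzy⟩ := (hu z).1 hz
      exact h1 y z hy hzy
    refine ⟨⟨u, huU⟩, fun z => ?_⟩
    change E z.1 u ↔ _
    rw [hu]
    constructor
    · rintro ⟨y, hy, hz⟩
      exact ⟨⟨y, hU.trans _ x.2 y hy⟩, hy, hz⟩
    · rintro ⟨y, hy, hz⟩
      exact ⟨y.1, hy, hz⟩
  powerset x := by
    obtain ⟨p, hp⟩ := hE.powerset x.1
    obtain ⟨q, hq, h1⟩ := hU.power x.1 x.2
    have hpU : E p U := univ_sub hE hU hq fun z hz => h1 z ((hp z).1 hz)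
    refine ⟨⟨p, hpU⟩, fun z => ?_⟩
    change E z.1 p ↔ _
    rw [hp]
    constructor
    · intro h t ht; exact h t.1 ht
    · intro h t ht; exact h ⟨t, hU.trans _ z.2 t ht⟩ ht
  infinity := by
    obtain ⟨ω, hω, h1, _⟩ := hU.omega
    obtain ⟨_, ⟨e, _, he⟩, _⟩ := hE.infinity
    have h2 : E e ω := h1.1 e he
    refine ⟨⟨ω, hω⟩, ⟨⟨e, hU.trans _ hω e h2⟩, h2, fun z hz => he z.1 hz⟩, fun x hx => ?_⟩
    obtain ⟨u, hu⟩ := hE.union (upair E x.1 (upair E x.1 x.1))
    have hs : IsSucc E u x.1 := by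
      intro z
      rw [hu]
      constructor
      · rintro ⟨y, hy, hz⟩
        rcases (mem_upair hE).1 hy with h3 | h3
        · left; rw [← h3]; exact hz
        · right
          rw [h3, mem_upair hE] at hz
          rcases hz with h4 | h4 <;> exact h4
      · rintro (hz | hz)
        · exact ⟨x.1, (mem_upair hE).2 (Or.inl rfl), hz⟩
        · exact ⟨upair E x.1 x.1, (mem_upair hE).2 (Or.inr rfl),
            (mem_upair hE).2 (Or.inl hz)⟩
    have h3 : E u ω := h1.2 x.1 u hx hs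
    refine ⟨⟨u, hU.trans _ hω u h3⟩, h3, fun z => ?_⟩
    change E z.1 u ↔ _
    rw [hs z.1, Subtype.ext_iff]
    rfl
  separation φ i v a := by
    obtain ⟨b, hb⟩ := hE.separation (v01_rel (fun i => i + 1) 0 φ) (i + 1)
      (cons U fun i => (v i).1) a.1
    have hbU : E b U := univ_sub hE hU a.2 fun z hz => ((hb z).1 hz).1
    refine ⟨⟨b, hbU⟩, fun x => ?_⟩
    change E x.1 b ↔ _
    rw [hb]
    refine and_congr Iff.rfl ?_
    refine v01_sat (fun i j h => by simpa using h) (fun i => by simp) φ _ _ ?_ fun j => ?_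
    · rw [Function.update_of_ne (by simp)]; rfl
    · by_cases h : j = i
      · subst h; simp
      · rw [Function.update_of_ne (by simpa using h), Function.update_of_ne h]; rfl
  replacement φ v a h := v01_replacement hE hU φ v a h
  choice x h1 h2 := by
    obtain ⟨c, hc⟩ := hE.choice x.1 (by
      intro y hy
      obtain ⟨z, hz⟩ := h1 ⟨y, hU.trans _ x.2 y hy⟩ hy
      exact ⟨z.1, hz⟩) (by
      rintro y y' hy hy' ⟨z, hz, hz'⟩
      have h3 := h2 ⟨y, hU.trans _ x.2 y hy⟩ ⟨y', hU.trans _ x.2 y' hy'⟩ hy hy'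
        ⟨⟨z, hU.trans _ (hU.trans _ x.2 y hy) z hz⟩, hz, hz'⟩
      exact congrArg Subtype.val h3)
    obtain ⟨s, hs, h3⟩ := hU.union x.1 x.2
    obtain ⟨d, hd⟩ := sep hE (R := fun M E v => E (v 0) (v 1)) (FO.mem _ _)
      (cons c fun _ => c) s
    have hd' : ∀ z, E z d ↔ E z s ∧ E z c := hd
    have hdU : E d U := univ_sub hE hU hs fun z hz => ((hd' z).1 hz).1
    refine ⟨⟨d, hdU⟩, fun y hy => ?_⟩
    obtain ⟨z, ⟨hz, hzc⟩, hz2⟩ := hc y.1 hy
    refine ⟨⟨z, hU.trans _ y.2 z hz⟩, ⟨hz, (hd' z).2 ⟨h3 y.1 z hy hz, hzc⟩⟩, ?_⟩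
    rintro t ⟨ht, htd⟩
    have ht2 : E t.1 d := htd
    exact Subtype.ext (hz2 t.1 ⟨ht, ((hd' _).1 ht2).2⟩)

theorem cut_omegaModel (h : OmegaModel E) : OmegaModel (cut E U) := by
  obtain ⟨ω, hω⟩ := h
  obtain ⟨w0, hw0, h1, h2⟩ := hU.omega
  have key : ∀ x, E x w0 ↔ ∃ n, IsNum E n x := by
    intro x
    constructor
    · intro hx
      rw [← hω]
      refine h2 ω ⟨fun e he => (hω e).2 ⟨0, he⟩, fun x s hx hs => ?_⟩ x hx
      obtain ⟨n, hn⟩ := (hω x).1 hx
      exact (hω s).2 ⟨n + 1, x, hn, hs⟩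
    · rintro ⟨n, hn⟩
      induction n generalizing x with
      | zero => exact h1.1 x hn
      | succ n ih =>
        obtain ⟨y, hy, hxy⟩ := hn
        exact h1.2 y x (ih y hy) hxy
  have hnum : ∀ (n : ℕ) (x : {x // E x U}), IsNum (cut E U) n x ↔ IsNum E n x.1 := by
    intro n
    induction n with
    | zero =>
      intro x
      constructor
      · intro h z hz; exact h ⟨z, hU.trans _ x.2 z hz⟩ hz
      · intro h z hz; exact h z.1 hz
    | succ n ih =>
      intro x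
      constructor
      · rintro ⟨y, hy, hxy⟩
        refine ⟨y.1, (ih y).1 hy, fun z => ?_⟩
        constructor
        · intro hz
          rcases (hxy ⟨z, hU.trans _ x.2 z hz⟩).1 hz with h3 | h3
          · exact Or.inl h3
          · exact Or.inr (congrArg Subtype.val h3)
        · rintro (hz | hz)
          · exact (hxy ⟨z, hU.trans _ y.2 z hz⟩).2 (Or.inl hz)
          · subst hz; exact (hxy y).2 (Or.inr rfl)
      · rintro ⟨y, hy, hxy⟩
        have hyx : E y x.1 := (hxy y).2 (Or.inr rfl)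
        refine ⟨⟨y, hU.trans _ x.2 y hyx⟩, (ih _).2 hy, fun z => ?_⟩
        change E z.1 x.1 ↔ _
        rw [hxy, Subtype.ext_iff]
        rfl
  refine ⟨⟨w0, hw0⟩, fun x => ?_⟩
  change E x.1 w0 ↔ _
  rw [key]
  exact exists_congr fun n => (hnum n x).symm

end Pool.Agent.KTM
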