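import Pool.Agent.Lib_MP_bf47cd.D02
import Pool.Agent.Lib_Forcing.Mixing

/-!
# H17-V06: products with a distributive forcing
-/

set_option linter.unusedSectionVars false
set_option linter.unusedVariables false

namespace Pool.Agent.KTM

universe u

open Set Cardinal Pool.Agent.KT

/-- `κ` many dense open sets are met at once -/
def Dist (E : Type u) [Preorder E] (κ : Cardinal.{u}) : Prop :=
  ∀ (J : Type u), #J ≤ κ → ∀ (D : J → Set E) (e : E), (∀ j, ∀ x ∈ D j, ∀ y ≤ x, y ∈ D j) →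
    (∀ j, ∀ x ≤ e, ∃ y ≤ x, y ∈ D j) → ∃ y ≤ e, ∀ j, y ∈ D j

/-- Tasks `(a, p)`: `{e | ∃ p' ≤ p, ∃ b, Φ.val a b (p', e)}`. -/
theorem exists_dec_fst {P E A B : Type u} [Preorder P] [Preorder E] {κ : Cardinal.{u}}
    (hE : Dist E κ) (h : #(A × P) ≤ κ) (Φ : PF (P × E) A B) (e : E) :
    ∃ e' ≤ e, ∃ X : PF P A B, ∀ a b p, X.val a b p ↔ Φ.val a b (p, e') := by
  obtain ⟨e', he', hD⟩ := hE (A × P) h
    (fun t => {x : E | ∃ p' ≤ t.2, ∃ b, Φ.val t.1 b (p', x)}) e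
    (by
      rintro t x ⟨p', hp', b, hb⟩ y hy
      exact ⟨p', hp', b, Φ.mono _ _ _ _ (Prod.mk_le_mk.2 ⟨le_rfl, hy⟩) hb⟩)
    (by
      rintro t x _
      obtain ⟨q, hq, b, hb⟩ := Φ.total t.1 (t.2, x)
      exact ⟨q.2, hq.2, q.1, hq.1, b, hb⟩)
  refine ⟨e', he', ⟨fun a b p => Φ.val a b (p, e'), ?_, ?_, ?_, ?_⟩, fun a b p => Iff.rfl⟩
  · intro a b p q hq h1
    exact Φ.mono _ _ _ _ (Prod.mk_le_mk.2 ⟨hq, le_rfl⟩) h1
  · intro a b p h1
    refine Φ.dense a b _ fun q hq => ?_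
    obtain ⟨r, hr, h2⟩ := h1 q.1 hq.1
    exact ⟨(r, q.2), ⟨hr, le_rfl⟩, Φ.mono _ _ _ _ (Prod.mk_le_mk.2 ⟨le_rfl, hq.2⟩) h2⟩
  · intro a b b' p h1 h2
    exact Φ.uniq a b b' _ h1 h2
  · intro a p
    obtain ⟨p', hp', b, hb⟩ := hD (a, p)
    exact ⟨p', hp', b, hb⟩

section rep
variable {P E A B : Type u} [Preorder P] [Preorder E]

/-- `X` is the function given by `Φ` below `e` -/
private def V06_Rep (Φ : PF (P × E) A B) (e : E) (X : PF P A B) : Prop :=
  ∀ a b p, X.val a b p ↔ Φ.val a b (p, e)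

private theorem V06_Rep.mono {Φ : PF (P × E) A B} {e e' : E} {X : PF P A B}
    (h : V06_Rep Φ e X) (he : e' ≤ e) : V06_Rep Φ e' X := by
  intro a b p
  constructor
  · intro h1
    exact Φ.mono _ _ _ _ (Prod.mk_le_mk.2 ⟨le_rfl, he⟩) ((h a b p).1 h1)
  · intro h1
    refine X.dense a b p fun q hq => ?_
    obtain ⟨r, hr, b', hb'⟩ := X.total a q
    have h2 : Φ.val a b' (r, e') :=
      Φ.mono _ _ _ _ (Prod.mk_le_mk.2 ⟨le_rfl, he⟩) ((h a b' r).1 hb')
    have h3 : Φ.val a b (r, e') := Φ.mono _ _ _ _ (Prod.mk_le_mk.2 ⟨hr.trans hq, le_rfl⟩) h1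
    have h4 := Φ.uniq a b' b _ h2 h3
    subst h4
    exact ⟨r, hr, hb'⟩

private theorem V06_Rep.uniq {Φ : PF (P × E) A B} {e : E} {X X' : PF P A B}
    (h : V06_Rep Φ e X) (h' : V06_Rep Φ e X') : X = X' :=
  PF.ext fun a b p => (h a b p).trans (h' a b p).symm

private theorem V06_Rep.at {Φ : PF (P × E) A B} {e : E} {X : PF P A B}
    (h : V06_Rep Φ e X) {r : P × E} (hr : r.2 ≤ e) (a : A) (b : B) :
    X.val a b r.1 ↔ Φ.val a b r := (h.mono hr) a b r.1

end rep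

variable {P E W K I : Type u} [Preorder P] [Preorder E] [LinearOrder W] [LinearOrder K]
  [SuccOrder K] [LinearOrder I] {eK : K → W} {eI : I → W} {eN : ULift.{u} ℕ → W}
  {kW iW nW : W}

private theorem V06_noInj {A : Type u} {C : Type u} (hA : #(A × P) ≤ #W) (hE : Dist E #W)
    (h : ∀ (J : PF P A C) (q : P), ¬ InjP J q) (J : PF (P × E) A C) (q : P × E) : ¬ InjP J q := by
  intro hJ
  obtain ⟨e', he', X, hX⟩ := exists_dec_fst hE hA J q.2
  refine h X q.1 ?_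
  intro a a' b r hr h1 h2
  exact hJ a a' b (r, e') ⟨hr, he'⟩ ((hX a b r).1 h1) ((hX a' b r).1 h2)

private theorem V06_inj {A B : Type u} (h : ∃ J : PF P A B, ∀ q, InjP J q) :
    ∃ J : PF (P × E) A B, ∀ q, InjP J q := by
  obtain ⟨J, hJ⟩ := h
  exact ⟨PF.lift E J, injP_lift hJ⟩

private theorem V06_pow {A B : Type u} (hA : #(A × P) ≤ #W) (hE : Dist E #W)
    (h : ∃ S : PF P (B × A) (ULift.{u} Bool), PowP A B S) :
    ∃ S : PF (P × E) (B × A) (ULift.{u} Bool), PowP A B S := by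
  obtain ⟨S, hS⟩ := h
  refine ⟨PF.lift E S, fun X q => ?_⟩
  obtain ⟨e', he', X', hX'⟩ := exists_dec_fst hE hA X q.2
  obtain ⟨p', hp', x, hx⟩ := hS X' q.1
  have hR : V06_Rep X e' X' := hX'
  refine ⟨(p', e'), ⟨hp', he'⟩, x, fun a b r hr h1 => ?_⟩
  exact hx a b r.1 hr.1 ((hR.at hr.2 a b).2 h1)

private theorem V06_memP {Y : PF (P × E) (K × I × K) K} {X : PF (P × E) K K} {q : P × E} {d e : E}
    {Y' : PF P (K × I × K) K} {X' : PF P K K} (hY : V06_Rep Y d Y') (hX : V06_Rep X e X')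
    (hde : e ≤ d) (heq : e ≤ q.2) (h : MemP Y X q) : MemP Y' X' q.1 := by
  intro η r hr
  obtain ⟨s, hs, i, h1⟩ := h η (r, e) ⟨hr, heq⟩
  refine ⟨s.1, hs.1, i, fun e' he' b t ht h2 => ?_⟩
  have h3 : X.val e' b (t, s.2) := (hX.mono hs.2 e' b t).1 h2
  have h4 := h1 e' he' b (t, s.2) ⟨ht, le_rfl⟩ h3
  exact (hY.mono (hs.2.trans hde) (η, i, e') b t).2 h4

/-- **The interface for a product.** The clauses other than `map` are immediate from
`exists_dec_fst` (with `κ = #W`; `K`, `I`, `ULift ℕ` are embedded in `W`) and `PF.lift`-like liftings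
along the first factor. `map`: given `Y`, `q0`, `X0`, the set of the `e` below which `Y`, `X0` are
given by functions valued in `P` (`Y'.val a b p ↔ Y.val a b (p, e)`), and that are below `q0.2` or
incompatible with it, is dense open in `E`; take a maximal antichain `𝒜` in it
(`Pool.Agent.Forcing.exists_max_antichain`), and for `d ∈ 𝒜`, `d ≤ q0.2`, the map `F d` for `Y'`,
`q0.1`, `X0'`. For `x : PF (P × E) K K` let `v i b (p, e)` hold if `e ≤ d` for some `d ∈ 𝒜`,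
`x` is given below `e` by `x' : PF P K K`, and `(F d x').val i b p`
(if `d` is incompatible with `q0.2`: `b` is a default). If `x` is given below `e` by `x'` then also
below all `e' ≤ e` (extensionality of `PF`). -/
theorem Iface.prod (hT : Iface P W K I eK eI eN kW iW nW) (hE : Dist E #W) (hP : #P ≤ #W) :
    Iface (P × E) W K I eK eI eN kW iW nW := by
  classical
  have hinf : ℵ₀ ≤ #W := by
    have h := mk_le_of_injective hT.monoN.injective
    simpa using h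
  have hprod : ∀ A B : Type u, #A ≤ #W → #B ≤ #W → #(A × B) ≤ #W := by
    intro A B hA hB
    rw [mk_prod, lift_id, lift_id]
    exact (mul_le_mul' hA hB).trans (le_of_eq (mul_eq_self hinf))
  have hK : #K ≤ #W := mk_le_of_injective hT.monoK.injective
  have hI : #I ≤ #W := mk_le_of_injective hT.monoI.injective
  have hN : #(ULift.{u} ℕ) ≤ #W := mk_le_of_injective hT.monoN.injective
  have hKP := hprod K P hK hP
  have hIP := hprod I P hI hP
  have hNP := hprod _ P hN hP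
  have hWP := hprod W P le_rfl hP
  have hYP := hprod (K × I × K) P (hprod _ _ hK (hprod _ _ hI hK)) hP
  haveI hKne : Nonempty K := by
    have h : iW ∈ range eK := by rw [hT.rangeK]; exact hT.iW_lt
    obtain ⟨x, _⟩ := h
    exact ⟨x⟩
  refine ⟨hT.monoK, hT.monoI, hT.monoN, hT.rangeK, hT.rangeI, hT.rangeN, hT.nW_lt, hT.iW_lt,
    fun a => V06_noInj hIP hE (hT.noInj_I a), fun a => V06_noInj hKP hE (hT.noInj_K a),
    fun a => V06_noInj hWP hE (hT.noInj_W a), fun a => V06_inj (hT.inj_I a),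
    fun a => V06_inj (hT.inj_K a), fun a => V06_inj (hT.inj_W a), V06_pow hNP hE hT.pow_N,
    V06_pow hIP hE hT.pow_I, V06_pow hKP hE hT.pow_K, ?_, ?_⟩
  · -- the Kurepa tree
    obtain ⟨Y, Br, h1, h2, h3⟩ := hT.kurepa
    refine ⟨PF.lift E Y, fun ξ => PF.lift E (Br ξ), ?_, ?_, ?_⟩
    · intro η' η hη i q
      obtain ⟨q', hq', i', h4⟩ := h1 η' η hη i q.1
      exact ⟨(q', q.2), ⟨hq', le_rfl⟩, i', fun e he b s hs h5 => h4 e he b s.1 hs.1 h5⟩
    · intro ξ q η r hr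
      obtain ⟨r', hr', i, h4⟩ := h2 ξ q.1 η r.1 hr.1
      exact ⟨(r', r.2), ⟨hr', le_rfl⟩, i, fun e he b s hs h5 => h4 e he b s.1 hs.1 h5⟩
    · intro ξ ξ' hne q
      obtain ⟨q', hq', e, b, b', h4, h5, h6⟩ := h3 ξ ξ' hne q.1
      exact ⟨(q', q.2), ⟨hq', le_rfl⟩, e, b, b', h4, h5, h6⟩
  · -- the map
    intro Y q0 X0 hX0
    obtain ⟨𝒜, hA1, hA2, hA3⟩ := Pool.Agent.Forcing.exists_max_antichain
      {d : E | d ≤ q0.2 ∧ (∃ Y', V06_Rep Y d Y') ∧ ∃ X', V06_Rep X0 d X'}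
    have hle : ∀ d : 𝒜, d.1 ≤ q0.2 := fun d => (hA1 d.2).1
    have hYd : ∀ d : 𝒜, ∃ Y', V06_Rep Y d.1 Y' := fun d => (hA1 d.2).2.1
    have hXd : ∀ d : 𝒜, ∃ X', V06_Rep X0 d.1 X' := fun d => (hA1 d.2).2.2
    choose Yd hYd using hYd
    choose Xd hXd using hXd
    choose Fd hF1 hF2 hF3 using fun d : 𝒜 => hT.map (Yd d) q0.1 (Xd d)
      (V06_memP (hYd d) (hXd d) le_rfl (hle d) hX0)
    -- refining the second coordinate
    have href : ∀ (e : E), e ≤ q0.2 → ∃ e' ≤ e, ∃ d : 𝒜, e' ≤ d.1 := by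
      intro e he
      obtain ⟨e1, he1, Y', hY'⟩ := exists_dec_fst hE hYP Y e
      obtain ⟨e2, he2, X', hX'⟩ := exists_dec_fst hE hKP X0 e1
      have hY2 : V06_Rep Y e1 Y' := hY'
      have hX2 : V06_Rep X0 e2 X' := hX'
      obtain ⟨a, ha, r, hra, hre⟩ := hA3 e2 ⟨he2.trans (he1.trans he), ⟨Y', hY2.mono he2⟩,
        ⟨X', hX2⟩⟩ (fun q hq => ⟨hq.trans (he2.trans (he1.trans he)),
          ⟨Y', hY2.mono (hq.trans he2)⟩, ⟨X', hX2.mono hq⟩⟩)
      exact ⟨r, hre.trans (he2.trans he1), ⟨a, ha⟩, hra⟩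
    have href1 : ∀ (x : PF (P × E) K K) (e : E), e ≤ q0.2 →
        ∃ e' ≤ e, ∃ d : 𝒜, e' ≤ d.1 ∧ ∃ x', V06_Rep x e' x' := by
      intro x e he
      obtain ⟨e1, he1, d, hd⟩ := href e he
      obtain ⟨e2, he2, x', hx'⟩ := exists_dec_fst hE hKP x e1
      exact ⟨e2, he2.trans he1, d, he2.trans hd, x', hx'⟩
    let v : PF (P × E) K K → K → K → P × E → Prop := fun x i b q =>
      ∃ d : 𝒜, q.2 ≤ d.1 ∧ ∃ x', V06_Rep x q.2 x' ∧ (Fd d x').val i b q.1
    have hv : ∀ x : PF (P × E) K K, ∃ X : PF (P × E) K K,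
        (∀ a b p, p ≤ q0 → (X.val a b p ↔ ∀ q ≤ p, ∃ r ≤ q, v x a b r)) ∧
        ∀ a b p, p ≤ q0 → v x a b p → X.val a b p := by
      intro x
      refine PF.exists_ofDense_below q0 (v x) ?_ ?_ ?_
      · rintro a b p q hq _ ⟨d, h1, x', h2, h3⟩
        exact ⟨d, hq.2.trans h1, x', h2.mono hq.2, (Fd d x').mono _ _ _ _ hq.1 h3⟩
      · rintro a b b' p _ ⟨d, h1, x', h2, h3⟩ ⟨d', h1', x'', h2', h3'⟩
        have hdd : d = d' := Subtype.ext (hA2 _ d.2 _ d'.2 p.2 h1 h1')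
        subst hdd
        have hxx := h2.uniq h2'
        subst hxx
        exact (Fd d x').uniq _ _ _ _ h3 h3'
      · intro a p hp
        obtain ⟨e', he', d, hd, x', hx'⟩ := href1 x p.2 hp.2
        obtain ⟨p', hp', b, hb⟩ := (Fd d x').total a p.1
        exact ⟨(p', e'), ⟨hp', he'⟩, b, d, hd, x', hx', hb⟩
    choose F hFa hFb using hv
    -- localisation
    have hloc : ∀ (x : PF (P × E) K K) (d : 𝒜) (e : E) (x' : PF P K K), e ≤ d.1 →
        V06_Rep x e x' → ∀ r : P × E, r.1 ≤ q0.1 → r.2 ≤ e → ∀ a b,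
        ((F x).val a b r ↔ (Fd d x').val a b r.1) := by
      intro x d e x' hed hx' r hr1 hr2 a b
      have hr : r ≤ q0 := ⟨hr1, hr2.trans (hed.trans (hle d))⟩
      constructor
      · intro h
        refine (Fd d x').dense a b r.1 fun q hq => ?_
        obtain ⟨s, hs, d', h1, x'', h2, h3⟩ := (hFa x a b r hr).1 h (q, r.2) ⟨hq, le_rfl⟩
        have hse : s.2 ≤ e := hs.2.trans hr2
        have hdd : d' = d := Subtype.ext (hA2 _ d'.2 _ d.2 s.2 h1 (hse.trans hed))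
        subst hdd
        have hxx := h2.uniq (hx'.mono hse)
        subst hxx
        exact ⟨s.1, hs.1, h3⟩
      · intro h
        exact hFb x a b r hr ⟨d, hr2.trans hed, x', hx'.mono hr2, h⟩
    refine ⟨F, fun x => ?_, ?_, ?_⟩
    · intro η r hr
      obtain ⟨e', he', d, hd, x', hx'⟩ := href1 x r.2 hr.2
      obtain ⟨p', hp', i, h1⟩ := hF1 d x' η r.1 hr.1
      refine ⟨(p', e'), ⟨hp', he'⟩, i, fun e he b s hs h2 => ?_⟩
      have h3 := (hloc x d e' x' hd hx' s (hs.1.trans (hp'.trans hr.1)) hs.2 e b).1 h2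
      have h4 := h1 e he b s.1 hs.1 h3
      exact ((hYd d).at (hs.2.trans hd) (η, i, e) b).1 h4
    · have key : ∀ (x x' : PF (P × E) K K) (e : K) (q : P × E), q ≤ q0 →
          PF.EqOn x x' (Iic (Order.succ e)) q → ∀ v, (F x).val e v q → (F x').val e v q := by
        intro x x' e q hq heq v h1
        refine (F x').dense e v q fun r hr => ?_
        obtain ⟨e1, he1, d, hd, x1, hx1⟩ := href1 x r.2 (hr.2.trans hq.2)
        obtain ⟨e2, he2, x2, hx2⟩ := exists_dec_fst hE hKP x' e1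
        have hx2' : V06_Rep x' e2 x2 := hx2
        have hx1' := hx1.mono he2
        have hle2 : ((r.1, e2) : P × E) ≤ q := ⟨hr.1, he2.trans (he1.trans hr.2)⟩
        have h2 : PF.EqOn x1 x2 (Iic (Order.succ e)) r.1 := by
          intro a ha b s hs
          rw [hx1' a b s, hx2' a b s]
          exact heq a ha b (s, e2) ⟨hs.trans hr.1, hle2.2⟩
        have hr1 : r.1 ≤ q0.1 := hr.1.trans hq.1
        have h3 := (F x).mono _ _ _ _ hle2 h1
        have h4 := (hloc x d e2 x1 (he2.trans hd) hx1' (r.1, e2) hr1 le_rfl e v).1 h3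
        have h5 := (hF2 d x1 x2 e r.1 hr1 h2 v).1 h4
        exact ⟨(r.1, e2), ⟨le_rfl, he2.trans he1⟩,
          (hloc x' d e2 x2 (he2.trans hd) hx2' (r.1, e2) hr1 le_rfl e v).2 h5⟩
      intro x x' e q hq heq v
      exact ⟨key x x' e q hq heq v, key x' x e q hq heq.symm v⟩
    · intro X q hq hX
      obtain ⟨e', he', d, hd, X', hX'⟩ := href1 X q.2 hq.2
      have h1 : MemP (Yd d) X' q.1 := V06_memP (hYd d) hX' hd he' hX
      obtain ⟨p', hp', x1, h2⟩ := hF3 d X' q.1 hq.1 h1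
      have hlift : V06_Rep (PF.lift E x1) e' x1 := fun a b p => Iff.rfl
      refine ⟨(p', e'), ⟨hp', he'⟩, PF.lift E x1, fun a _ b r hr => ?_⟩
      rw [hloc (PF.lift E x1) d e' x1 hd hlift r (hr.1.trans (hp'.trans hq.1)) hr.2 a b,
        h2 a (mem_univ a) b r.1 hr.1]
      exact hX'.at hr.2 a b

end Pool.Agent.KTM
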