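import Pool.Agent.Lib_MP_bf47cd.V06

/-!
# H17-V07: the full-support product of collapses

`O` is a well-order. At `γ` bounded partial functions from `Iio (a γ)` to `Iio (c γ)`; `c ⊥ = ⊥`, so
the factor at `⊥` is trivial. For `γ ≠ ⊥` the bounded conditions are closed under unions of `σ γ`
many.
-/

set_option linter.unusedSectionVars false
set_option linter.unusedVariables false

namespace Pool.Agent.KTM

universe u

open Set Cardinal Pool.Agent.KT

/-- the product of the collapses of `Iio (c γ)` to `Iio (a γ)`, `γ ∈ S` -/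
def EE {O : Type u} [LinearOrder O] (a c : O → O) (S : Set O) : Type u :=
  {f : O → O → Option O // (∀ γ ∉ S, ∀ i, f γ i = none) ∧
    (∀ γ, ∃ b < a γ, ∀ i, b ≤ i → f γ i = none) ∧ ∀ γ i x, f γ i = some x → x < c γ}

instance {O : Type u} [LinearOrder O] (a c : O → O) (S : Set O) : PartialOrder (EE a c S) where
  le q p := ∀ γ i x, p.1 γ i = some x → q.1 γ i = some x
  le_refl p γ i x h := h
  le_trans r q p h1 h2 γ i x h := h1 γ i x (h2 γ i x h)
  le_antisymm q p h1 h2 := by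
    apply Subtype.ext
    funext γ i
    rcases h : p.1 γ i with _ | x
    · rcases h' : q.1 γ i with _ | x
      · rfl
      · rw [h2 γ i x h'] at h; exact absurd h (by simp)
    · exact h1 γ i x h

/-- the parameters of the product -/
structure Sys (O P : Type u) [LinearOrder O] [OrderBot O] (σ κ : O → Cardinal.{u})
    (a c : O → O) : Prop where
  a_pos : ∀ γ, ⊥ < a γ
  c_bot : c ⊥ = ⊥
  inf : ∀ γ, ℵ₀ ≤ κ γ
  P_le : #P ≤ κ ⊥
  a_le : ∀ γ, #(Iio (a γ)) ≤ κ γ
  c_le : ∀ γ, #(Iio (c γ)) ≤ κ γ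
  seg_le : ∀ γ, γ ≠ ⊥ → #(Iio γ) ≤ σ γ
  κ_le : ∀ γ ξ, γ < ξ → κ γ ≤ σ ξ
  κ_pow : ∀ γ, γ ≠ ⊥ → κ γ ^ σ γ ≤ κ γ
  bdd : ∀ γ, γ ≠ ⊥ → ∀ s : Set O, #s ≤ σ γ → (∀ x ∈ s, x < a γ) → ∃ b < a γ, ∀ x ∈ s, x < b
  seg_a : ∀ γ, γ ≠ ⊥ → ∀ x < a γ, #(Iio x) ≤ σ γ

variable {O P : Type u} [LinearOrder O] [OrderBot O] [WellFoundedLT O]
  {σ κ : O → Cardinal.{u}} {a c : O → O}

/-- the greatest condition -/
def EE.top (h : ∀ γ, ⊥ < a γ) (S : Set O) : OrderTop (EE a c S) where
  top := ⟨fun _ _ => none, fun _ _ _ => rfl, fun γ => ⟨⊥, h γ, fun _ _ => rfl⟩,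
    fun _ _ _ h => absurd h (by simp)⟩
  le_top p γ i x h := absurd h (by simp)

open Classical in
/-- the part of a condition with coordinates `≤ γ` -/
noncomputable def EE.low (γ : O) (e : EE a c univ) : EE a c (Iic γ) :=
  ⟨fun ξ i => if ξ ≤ γ then e.1 ξ i else none, fun ξ hξ i => if_neg hξ, fun ξ => by
    obtain ⟨b, h1, h2⟩ := e.2.2.1 ξ
    refine ⟨b, h1, fun i hi => ?_⟩
    simp only [h2 i hi, ite_self], fun ξ i x hx => by
    by_cases hξ : ξ ≤ γ
    · simp only [if_pos hξ] at hx; exact e.2.2.2 ξ i x hx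
    · simp only [if_neg hξ] at hx; exact absurd hx (by simp)⟩

open Classical in
/-- the condition `t` up to `γ`, `e` above `γ` -/
noncomputable def EE.glue {γ : O} (t : EE a c (Iic γ)) (e : EE a c univ) : EE a c univ :=
  ⟨fun ξ i => if ξ ≤ γ then t.1 ξ i else e.1 ξ i, fun ξ hξ i => absurd (mem_univ ξ) hξ,
    fun ξ => by
    by_cases hξ : ξ ≤ γ
    · obtain ⟨b, h1, h2⟩ := t.2.2.1 ξ
      exact ⟨b, h1, fun i hi => by simp only [if_pos hξ]; exact h2 i hi⟩
    · obtain ⟨b, h1, h2⟩ := e.2.2.1 ξ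
      exact ⟨b, h1, fun i hi => by simp only [if_neg hξ]; exact h2 i hi⟩, fun ξ i x hx => by
    by_cases hξ : ξ ≤ γ
    · simp only [if_pos hξ] at hx; exact t.2.2.2 ξ i x hx
    · simp only [if_neg hξ] at hx; exact e.2.2.2 ξ i x hx⟩

theorem EE.le_glue_low (γ : O) {e e' : EE a c univ} (he : e ≤ e') :
    e ≤ EE.glue (EE.low γ e) e' := by
  intro ξ i x hx
  by_cases hξ : ξ ≤ γ
  · simp only [EE.glue, EE.low, if_pos hξ] at hx
    exact hx
  · simp only [EE.glue, if_neg hξ] at hx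
    exact he ξ i x hx

theorem EE.glue_mono {γ : O} {t t' : EE a c (Iic γ)} {e e' : EE a c univ} (h : t ≤ t')
    (he : e ≤ e') : EE.glue t e ≤ EE.glue t' e' := by
  intro ξ i x hx
  by_cases hξ : ξ ≤ γ
  · simp only [EE.glue, if_pos hξ] at hx ⊢
    exact h ξ i x hx
  · simp only [EE.glue, if_neg hξ] at hx ⊢
    exact he ξ i x hx

theorem EE.low_mono (γ : O) {e e' : EE a c univ} (he : e ≤ e') :
    EE.low γ e ≤ EE.low γ e' := by
  intro ξ i x hx
  by_cases hξ : ξ ≤ γ
  · simp only [EE.low, if_pos hξ] at hx ⊢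
    exact he ξ i x hx
  · simp only [EE.low, if_neg hξ] at hx
    exact absurd hx (by simp)

theorem EE.low_glue_le {γ : O} {t : EE a c (Iic γ)} {e r : EE a c univ}
    (hr : r ≤ EE.glue t e) : EE.low γ r ≤ t := by
  intro ξ i x hx
  by_cases hξ : ξ ≤ γ
  · have h1 := hr ξ i x
    simp only [EE.glue, if_pos hξ] at h1
    simp only [EE.low, if_pos hξ]
    exact h1 hx
  · rw [t.2.1 ξ hξ i] at hx
    exact absurd hx (by simp)

/-- a condition with coordinates `≤ γ` and a condition are joined if they agree: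
if `t ≤ EE.low γ e` then `EE.glue t e ≤ e` -/
theorem EE.glue_le {γ : O} {t : EE a c (Iic γ)} {e : EE a c univ}
    (ht : t ≤ EE.low γ e) : EE.glue t e ≤ e := by
  intro ξ i x hx
  by_cases hξ : ξ ≤ γ
  · have h1 := ht ξ i x
    simp only [EE.low, if_pos hξ] at h1
    simp only [EE.glue, if_pos hξ]
    exact h1 hx
  · simp only [EE.glue, if_neg hξ]
    exact hx

private theorem EE.val_bot (hc : c ⊥ = ⊥) {S : Set O} (e : EE a c S) (i : O) :
    e.1 ⊥ i = none := by
  rcases h : e.1 ⊥ i with _ | x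
  · rfl
  · have := e.2.2.2 ⊥ i x h
    rw [hc] at this
    exact absurd this not_lt_bot

private theorem Sys.le_σ (hS : Sys O P σ κ a c) {γ : O} (hγ : γ ≠ ⊥) : κ ⊥ ≤ σ γ :=
  hS.κ_le ⊥ γ (bot_lt_iff_ne_bot.2 hγ)

private theorem Sys.σ_inf (hS : Sys O P σ κ a c) {γ : O} (hγ : γ ≠ ⊥) : ℵ₀ ≤ σ γ :=
  (hS.inf ⊥).trans (hS.le_σ hγ)

private theorem Sys.σ_le_κ (hS : Sys O P σ κ a c) {γ : O} (hγ : γ ≠ ⊥) : σ γ ≤ κ γ := by
  have h2 : (2 : Cardinal.{u}) ≤ κ γ := (Cardinal.natCast_lt_aleph0 (n := 2)).le.trans (hS.inf γ)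
  calc σ γ ≤ 2 ^ σ γ := (Cardinal.cantor _).le
    _ ≤ κ γ ^ σ γ := Cardinal.power_le_power_right h2
    _ ≤ κ γ := hS.κ_pow γ hγ

private theorem mk_option_le {A : Type u} {k : Cardinal.{u}} (hk : ℵ₀ ≤ k) (h : #A ≤ k) :
    #(Option A) ≤ k := by
  rw [Cardinal.mk_option]
  exact (add_le_add h (Cardinal.one_le_aleph0.trans hk)).trans (Cardinal.add_eq_self hk).le

/-- `e` in `EE (Iic γ)` is determined by a bound `x < a γ` for its part at `γ` and its values on
a set of at most `σ γ` pairs: at most `κ γ ^ σ γ ≤ κ γ` conditions (only one if `γ = ⊥`) -/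
theorem Sys.card_low (hS : Sys O P σ κ a c) (γ : O) :
    #(P × EE a c (Iic γ)) ≤ κ γ := by
  classical
  rw [Cardinal.mk_prod, Cardinal.lift_id, Cardinal.lift_id]
  by_cases hγ : γ = ⊥
  · subst hγ
    have hsub : Subsingleton (EE a c (Iic (⊥ : O))) := by
      refine ⟨fun p q => ?_⟩
      apply Subtype.ext
      funext ξ i
      by_cases hξ : ξ = ⊥
      · subst hξ
        rw [EE.val_bot hS.c_bot, EE.val_bot hS.c_bot]
      · have hξ' : ξ ∉ Iic (⊥ : O) := fun h => hξ (le_bot_iff.1 h)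
        rw [p.2.1 ξ hξ' i, q.2.1 ξ hξ' i]
    calc #P * #(EE a c (Iic (⊥ : O))) ≤ κ ⊥ * 1 :=
          mul_le_mul' hS.P_le (Cardinal.le_one_iff_subsingleton.2 hsub)
      _ = κ ⊥ := mul_one _
  · have hP : #P ≤ κ γ := (hS.P_le.trans (hS.le_σ hγ)).trans (hS.σ_le_κ hγ)
    have hκ := hS.inf γ
    have hσ := hS.σ_inf hγ
    have hκ1 : (1 : Cardinal.{u}) ≤ κ γ := Cardinal.one_le_aleph0.trans hκ
    have hκ0 : κ γ ≠ 0 := fun h => by
      rw [h] at hκ1; exact absurd hκ1 (by simp)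
    -- the code
    let Z : Type u := Σ x : Iio (a γ), ((∀ ξ : Iio γ, Iio (a ξ.1) → Option (Iio (c ξ.1))) ×
      (Iio x.1 → Option (Iio (c γ))))
    have hcode : #(EE a c (Iic γ)) ≤ #Z := by
      let opt : ∀ ξ : O, (e : EE a c (Iic γ)) → (i : O) → Option (Iio (c ξ)) := fun ξ e i =>
        match h : e.1 ξ i with
        | none => none
        | some x => some ⟨x, e.2.2.2 ξ i x h⟩
      have hopt : ∀ ξ e i, (opt ξ e i).map Subtype.val = e.1 ξ i := by
        intro ξ e i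
        simp only [opt]
        split
        · rename_i h; exact h.symm
        · rename_i x h; exact h.symm
      let B : EE a c (Iic γ) → O := fun e => Classical.choose (e.2.2.1 γ)
      have hB1 : ∀ e, B e < a γ := fun e => (Classical.choose_spec (e.2.2.1 γ)).1
      have hB2 : ∀ e i, B e ≤ i → e.1 γ i = none :=
        fun e => (Classical.choose_spec (e.2.2.1 γ)).2
      let F : EE a c (Iic γ) → Z := fun e =>
        ⟨⟨B e, hB1 e⟩, fun ξ i => opt ξ.1 e i.1, fun i => opt γ e i.1⟩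
      refine Cardinal.mk_le_of_injective (f := F) ?_
      intro p q hpq
      have hB : B p = B q := by
        have := congrArg (fun z : Z => z.1.1) hpq
        exact this
      have h1 : ∀ ξ < γ, ∀ i < a ξ, opt ξ p i = opt ξ q i := by
        intro ξ hξ i hi
        have := congrArg (fun z : Z => z.2.1 ⟨ξ, hξ⟩ ⟨i, hi⟩) hpq
        exact this
      have h2 : ∀ i < B p, opt γ p i = opt γ q i := by
        intro i hi
        have hq : i < B q := hB ▸ hi
        have := congrArg (fun z : Z => if h : i < z.1.1 then z.2.2 ⟨i, h⟩ else none) hpq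
        simp only [F, dif_pos hi, dif_pos hq] at this
        exact this
      apply Subtype.ext
      funext ξ i
      rcases lt_trichotomy ξ γ with hξ | hξ | hξ
      · by_cases hi : i < a ξ
        · rw [← hopt ξ p i, ← hopt ξ q i, h1 ξ hξ i hi]
        · obtain ⟨b, hb1, hb2⟩ := p.2.2.1 ξ
          obtain ⟨b', hb1', hb2'⟩ := q.2.2.1 ξ
          rw [hb2 i (hb1.le.trans (not_lt.1 hi)), hb2' i (hb1'.le.trans (not_lt.1 hi))]
      · subst hξ
        by_cases hi : i < B p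
        · rw [← hopt ξ p i, ← hopt ξ q i, h2 i hi]
        · rw [hB2 p i (not_lt.1 hi), hB2 q i (hB ▸ not_lt.1 hi)]
      · have hξ' : ξ ∉ Iic γ := fun h => absurd hξ (not_lt.2 h)
        rw [p.2.1 ξ hξ' i, q.2.1 ξ hξ' i]
    have hpart : ∀ x : Iio (a γ), #((∀ ξ : Iio γ, Iio (a ξ.1) → Option (Iio (c ξ.1))) ×
        (Iio x.1 → Option (Iio (c γ)))) ≤ κ γ := by
      intro x
      rw [Cardinal.mk_prod, Cardinal.lift_id, Cardinal.lift_id]
      have hA : #(∀ ξ : Iio γ, Iio (a ξ.1) → Option (Iio (c ξ.1))) ≤ κ γ := by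
        rw [Cardinal.mk_pi]
        calc Cardinal.prod (fun ξ : Iio γ => #(Iio (a ξ.1) → Option (Iio (c ξ.1))))
            ≤ Cardinal.prod (fun ξ : Iio γ => κ γ ^ σ γ) := by
              refine Cardinal.prod_le_prod _ _ fun ξ => ?_
              rw [← Cardinal.power_def]
              have hξγ : κ ξ.1 ≤ σ γ := hS.κ_le ξ.1 γ ξ.2
              calc #(Option (Iio (c ξ.1))) ^ #(Iio (a ξ.1))
                  ≤ κ γ ^ #(Iio (a ξ.1)) := by
                    refine Cardinal.power_le_power_right (mk_option_le hκ ?_)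
                    exact ((hS.c_le ξ.1).trans hξγ).trans (hS.σ_le_κ hγ)
                _ ≤ κ γ ^ σ γ :=
                    Cardinal.power_le_power_left hκ0 ((hS.a_le ξ.1).trans hξγ)
          _ = (κ γ ^ σ γ) ^ #(Iio γ) := by
              rw [Cardinal.prod_const, Cardinal.lift_id, Cardinal.lift_id]
          _ = κ γ ^ (σ γ * #(Iio γ)) := by rw [Cardinal.power_mul]
          _ ≤ κ γ ^ σ γ := by
              refine Cardinal.power_le_power_left hκ0 ?_
              calc σ γ * #(Iio γ) ≤ σ γ * σ γ := mul_le_mul' le_rfl (hS.seg_le γ hγ)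
                _ = σ γ := Cardinal.mul_eq_self hσ
          _ ≤ κ γ := hS.κ_pow γ hγ
      have hC : #(Iio x.1 → Option (Iio (c γ))) ≤ κ γ := by
        rw [← Cardinal.power_def]
        calc #(Option (Iio (c γ))) ^ #(Iio x.1) ≤ κ γ ^ #(Iio x.1) :=
              Cardinal.power_le_power_right (mk_option_le hκ (hS.c_le γ))
          _ ≤ κ γ ^ σ γ := Cardinal.power_le_power_left hκ0 (hS.seg_a γ hγ x.1 x.2)
          _ ≤ κ γ := hS.κ_pow γ hγ
      exact (mul_le_mul' hA hC).trans (Cardinal.mul_eq_self hκ).le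
    have hZ : #Z ≤ κ γ := by
      simp only [Z]
      rw [Cardinal.mk_sigma]
      calc Cardinal.sum (fun x : Iio (a γ) =>
            #((∀ ξ : Iio γ, Iio (a ξ.1) → Option (Iio (c ξ.1))) ×
              (Iio x.1 → Option (Iio (c γ)))))
          ≤ Cardinal.sum (fun _ : Iio (a γ) => κ γ) := Cardinal.sum_le_sum _ _ hpart
        _ = #(Iio (a γ)) * κ γ := by rw [Cardinal.sum_const']
        _ ≤ κ γ * κ γ := mul_le_mul' (hS.a_le γ) le_rfl
        _ = κ γ := Cardinal.mul_eq_self hκ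
    exact (mul_le_mul' hP (hcode.trans hZ)).trans (Cardinal.mul_eq_self hκ).le

open Classical in
/-- the union of a set of partial functions -/
private noncomputable def un (S : Set (O → O → Option O)) : O → O → Option O := fun ξ i =>
  if h : ∃ x, ∃ f ∈ S, f ξ i = some x then some (Classical.choose h) else none

private theorem un_spec {S : Set (O → O → Option O)}
    (hS : ∀ f ∈ S, ∀ g ∈ S, ∀ ξ i x y, f ξ i = some x → g ξ i = some y → x = y) (ξ i x : O) :
    un S ξ i = some x ↔ ∃ f ∈ S, f ξ i = some x := by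
  classical
  unfold un
  by_cases h : ∃ x, ∃ f ∈ S, f ξ i = some x
  · rw [dif_pos h]
    obtain ⟨f, hf, hfx⟩ := Classical.choose_spec h
    constructor
    · intro h1
      rw [Option.some.injEq] at h1
      rw [h1] at hfx
      exact ⟨f, hf, hfx⟩
    · rintro ⟨g, hg, hgx⟩
      rw [Option.some.injEq]
      exact hS f hf g hg ξ i _ _ hfx hgx
  · rw [dif_neg h]
    constructor
    · intro h1; exact absurd h1 (by simp)
    · intro h1; exact absurd ⟨x, h1⟩ h

open Classical in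
/-- the union of a set of conditions if it is a condition, otherwise `e` -/
private noncomputable def joinE (e : EE a c univ) (S : Set (EE a c univ)) : EE a c univ :=
  if h : ∃ u : EE a c univ, u.1 = un (Subtype.val '' S) then Classical.choose h else e

private theorem joinE_spec (e : EE a c univ) {S : Set (EE a c univ)}
    (hS : ∀ p ∈ S, ∀ q ∈ S, p ≤ q ∨ q ≤ p)
    (hb : ∀ ξ, ∃ b < a ξ, ∀ p ∈ S, ∀ i, b ≤ i → p.1 ξ i = none) (ξ i x : O) :
    (joinE e S).1 ξ i = some x ↔ ∃ p ∈ S, p.1 ξ i = some x := by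
  have hS' : ∀ f ∈ Subtype.val '' S, ∀ g ∈ Subtype.val '' S, ∀ ξ i x y,
      f ξ i = some x → g ξ i = some y → x = y := by
    rintro _ ⟨p, hp, rfl⟩ _ ⟨q, hq, rfl⟩ ξ i x y hx hy
    rcases hS p hp q hq with h | h
    · have := h ξ i y hy
      rw [hx] at this
      exact Option.some.inj this
    · have := h ξ i x hx
      rw [hy] at this
      exact (Option.some.inj this).symm
  have hex : ∃ u : EE a c univ, u.1 = un (Subtype.val '' S) := by
    refine ⟨⟨un (Subtype.val '' S), fun ξ hξ i => absurd (mem_univ ξ) hξ, fun ξ => ?_, ?_⟩, rfl⟩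
    · obtain ⟨b, hb1, hb2⟩ := hb ξ
      refine ⟨b, hb1, fun i hi => ?_⟩
      rcases h : un (Subtype.val '' S) ξ i with _ | x
      · rfl
      · obtain ⟨_, ⟨p, hp, rfl⟩, hpx⟩ := (un_spec hS' ξ i x).1 h
        rw [hb2 p hp i hi] at hpx
        exact absurd hpx (by simp)
    · intro ξ i x h
      obtain ⟨_, ⟨p, hp, rfl⟩, hpx⟩ := (un_spec hS' ξ i x).1 h
      exact p.2.2.2 ξ i x hpx
  have hj : (joinE e S).1 = un (Subtype.val '' S) := by
    unfold joinE
    rw [dif_pos hex]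
    exact Classical.choose_spec hex
  rw [hj, un_spec hS' ξ i x]
  constructor
  · rintro ⟨_, ⟨p, hp, rfl⟩, hpx⟩
    exact ⟨p, hp, hpx⟩
  · rintro ⟨p, hp, hpx⟩
    exact ⟨p.1, ⟨p, hp, rfl⟩, hpx⟩

/-- **Fusion.** Well-order `J` such that `ρ` is monotone (lexicographically by `ρ` and some
well-order), and build a decreasing sequence `e j`, where the step `j` changes only the coordinates
`> ρ j`. At limits (and at the end) take unions: at the coordinate `ξ` (where `ξ ≠ ⊥`, see `c_bot`)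
only the steps `j` with `ρ j < ξ` matter, at most `σ ξ` many, so the union is bounded by `hS.bdd`. -/
theorem Sys.fusion (hS : Sys O P σ κ a c) {J : Type u} (ρ : J → O)
    (hJ : ∀ ξ, ξ ≠ ⊥ → #{j // ρ j < ξ} ≤ σ ξ) (D : J → Set (EE a c univ))
    (hopen : ∀ j, ∀ e ∈ D j, ∀ e' ≤ e, e' ∈ D j)
    (hdense : ∀ j e, ∃ e' ≤ e, e' ∈ D j ∧ ∀ ξ ≤ ρ j, ∀ i, e'.1 ξ i = e.1 ξ i)
    (e : EE a c univ) : ∃ e' ≤ e, ∀ j, e' ∈ D j := by
  classical
  have wf : WellFounded (WellOrderingRel (α := J)) := WellOrderingRel.isWellOrder.wf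
  choose nx hnx1 hnx2 hnx3 using hdense
  -- the sequence
  let F : J → EE a c univ := wf.fix fun j G =>
    nx j (joinE e ({x | x = e ∨ ∃ k, ∃ h : WellOrderingRel k j, x = G k h}))
  let T : J → Set (EE a c univ) := fun j => {x | x = e ∨ ∃ k, WellOrderingRel k j ∧ x = F k}
  have hF : ∀ j, F j = nx j (joinE e (T j)) := by
    intro j
    have h1 : F j = nx j (joinE e ({x | x = e ∨ ∃ k, ∃ h : WellOrderingRel k j, x = F k})) :=
      wf.fix_eq _ j
    rw [h1]
    congr 2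
    ext x
    simp only [T, exists_prop]
  -- the bound
  have hbound : ∀ K : Set J, (∀ k ∈ K, ∀ ξ i x, (F k).1 ξ i = some x → e.1 ξ i = some x ∨
      ∃ k', ρ k' < ξ ∧ (F k').1 ξ i = some x) → ∀ ξ, ∃ b < a ξ,
        (∀ i, b ≤ i → e.1 ξ i = none) ∧ ∀ k ∈ K, ∀ i, b ≤ i → (F k).1 ξ i = none := by
    intro K hK ξ
    by_cases hξ : ξ = ⊥
    · subst hξ
      exact ⟨⊥, hS.a_pos ⊥, fun i _ => EE.val_bot hS.c_bot e i,
        fun k _ i _ => EE.val_bot hS.c_bot (F k) i⟩
    · have hB : ∀ f : EE a c univ, ∃ b < a ξ, ∀ i, b ≤ i → f.1 ξ i = none := fun f => f.2.2.1 ξ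
      choose B hB1 hB2 using hB
      obtain ⟨b, hb1, hb2⟩ := hS.bdd ξ hξ
        (insert (B e) (range fun j : {j // ρ j < ξ} => B (F j.1))) (by
          refine Cardinal.mk_insert_le.trans ?_
          refine (add_le_add (Cardinal.mk_range_le.trans (hJ ξ hξ))
            (Cardinal.one_le_aleph0.trans (hS.σ_inf hξ))).trans ?_
          exact (Cardinal.add_eq_self (hS.σ_inf hξ)).le) (by
          rintro x (rfl | ⟨j, rfl⟩)
          · exact hB1 e
          · exact hB1 _)
      refine ⟨b, hb1, fun i hi => hB2 e i ?_, fun k hk i hi => ?_⟩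
      · exact (hb2 _ (mem_insert _ _)).le.trans hi
      · rcases h : (F k).1 ξ i with _ | x
        · rfl
        · rcases hK k hk ξ i x h with h1 | ⟨k', hk', h1⟩
          · rw [hB2 e i ((hb2 _ (mem_insert _ _)).le.trans hi)] at h1
            exact absurd h1 (by simp)
          · have h3 : B (F k') < b :=
              hb2 _ (mem_insert_of_mem _ ⟨⟨k', hk'⟩, rfl⟩)
            rw [hB2 (F k') i (h3.le.trans hi)] at h1
            exact absurd h1 (by simp)
  -- the induction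
  have main : ∀ j, (F j ≤ e ∧ ∀ k, WellOrderingRel k j → F j ≤ F k) ∧
      ∀ ξ i x, (F j).1 ξ i = some x → e.1 ξ i = some x ∨
        ∃ k', ρ k' < ξ ∧ (F k').1 ξ i = some x := by
    intro j
    induction j using wf.induction with
    | _ j ih =>
      have hchain : ∀ p ∈ T j, ∀ q ∈ T j, p ≤ q ∨ q ≤ p := by
        rintro p (rfl | ⟨k, hk, rfl⟩) q (rfl | ⟨k', hk', rfl⟩)
        · exact Or.inl le_rfl
        · exact Or.inr (ih k' hk').1.1
        · exact Or.inl (ih k hk).1.1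
        · rcases trichotomous_of WellOrderingRel k k' with h | h | h
          · exact Or.inr ((ih k' hk').1.2 k h)
          · rw [h]; exact Or.inl le_rfl
          · exact Or.inl ((ih k hk).1.2 k' h)
      have hb : ∀ ξ, ∃ b < a ξ, ∀ p ∈ T j, ∀ i, b ≤ i → p.1 ξ i = none := by
        intro ξ
        obtain ⟨b, h1, h2, h3⟩ := hbound {k | WellOrderingRel k j} (fun k hk => (ih k hk).2) ξ
        refine ⟨b, h1, ?_⟩
        rintro p (rfl | ⟨k, hk, rfl⟩)
        · exact h2
        · exact h3 k hk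
      have hU := joinE_spec e hchain hb
      have hle : F j ≤ joinE e (T j) := by rw [hF j]; exact hnx1 _ _
      have heq : ∀ ξ ≤ ρ j, ∀ i, (F j).1 ξ i = (joinE e (T j)).1 ξ i := by
        rw [hF j]; exact hnx3 _ _
      have hUe : ∀ p ∈ T j, joinE e (T j) ≤ p := fun p hp ξ i x hx => (hU ξ i x).2 ⟨p, hp, hx⟩
      refine ⟨⟨hle.trans (hUe e (Or.inl rfl)), fun k hk => hle.trans
        (hUe _ (Or.inr ⟨k, hk, rfl⟩))⟩, ?_⟩
      intro ξ i x hx
      by_cases hξ : ρ j < ξ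
      · exact Or.inr ⟨j, hξ, hx⟩
      · rw [heq ξ (not_lt.1 hξ) i] at hx
        obtain ⟨p, hp | ⟨k, hk, hp⟩, hpx⟩ := (hU ξ i x).1 hx
        · subst hp; exact Or.inl hpx
        · subst hp; exact (ih k hk).2 ξ i x hpx
  -- the end
  let S : Set (EE a c univ) := {x | x = e ∨ ∃ k, x = F k}
  have hchain : ∀ p ∈ S, ∀ q ∈ S, p ≤ q ∨ q ≤ p := by
    rintro p (rfl | ⟨k, rfl⟩) q (rfl | ⟨k', rfl⟩)
    · exact Or.inl le_rfl
    · exact Or.inr (main k').1.1
    · exact Or.inl (main k).1.1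
    · rcases trichotomous_of WellOrderingRel k k' with h | h | h
      · exact Or.inr ((main k').1.2 k h)
      · rw [h]; exact Or.inl le_rfl
      · exact Or.inl ((main k).1.2 k' h)
  have hb : ∀ ξ, ∃ b < a ξ, ∀ p ∈ S, ∀ i, b ≤ i → p.1 ξ i = none := by
    intro ξ
    obtain ⟨b, h1, h2, h3⟩ := hbound univ (fun k _ => (main k).2) ξ
    refine ⟨b, h1, ?_⟩
    rintro p (rfl | ⟨k, rfl⟩)
    · exact h2
    · exact h3 k (mem_univ k)
  have hU := joinE_spec e hchain hb
  refine ⟨joinE e S, fun ξ i x hx => (hU ξ i x).2 ⟨e, Or.inl rfl, hx⟩, fun j => ?_⟩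
  refine hopen j (F j) ?_ _ fun ξ i x hx => (hU ξ i x).2 ⟨F j, Or.inr ⟨j, rfl⟩, hx⟩
  rw [hF j]
  exact hnx2 _ _

/-- `ρ j = ⊥` in `Sys.fusion`, with `D' j = {x | x ∈ D j ∨ ∀ y ≤ x, ¬ y ≤ e}` -/
theorem Sys.dist (hS : Sys O P σ κ a c) : Dist (EE a c univ) (κ ⊥) := by
  intro J hJ D e hopen hdense
  obtain ⟨e', he', h⟩ := hS.fusion (J := J) (fun _ => ⊥)
    (fun ξ hξ => (Cardinal.mk_subtype_le _).trans (hJ.trans (hS.le_σ hξ)))
    (fun j => {x | x ∈ D j ∨ ∀ y ≤ x, ¬ y ≤ e})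
    (by
      rintro j x (hx | hx) y hy
      · exact Or.inl (hopen j x hx y hy)
      · exact Or.inr fun z hz => hx z (hz.trans hy))
    (by
      intro j x
      have hbot : ∀ z w : EE a c univ, ∀ ξ ≤ (⊥ : O), ∀ i, z.1 ξ i = w.1 ξ i := by
        intro z w ξ hξ i
        rw [le_bot_iff.1 hξ, EE.val_bot hS.c_bot z i, EE.val_bot hS.c_bot w i]
      by_cases hx : ∃ y ≤ x, y ≤ e
      · obtain ⟨y, hy, hye⟩ := hx
        obtain ⟨z, hz, hzD⟩ := hdense j y hye
        exact ⟨z, hz.trans hy, Or.inl hzD, hbot z x⟩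
      · push Not at hx
        exact ⟨x, le_rfl, Or.inr hx, hbot x x⟩)
    e
  refine ⟨e', he', fun j => ?_⟩
  rcases h j with h1 | h1
  · exact h1
  · exact absurd he' (h1 e' le_rfl)

end Pool.Agent.KTM
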