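import Pool.Agent.Lib_MP_bf47cd.V08
import Pool.Agent.Lib_MP_bf47cd.V05

/-!
# H17-V09: the forcing gives GCH above `Λ`
-/

set_option linter.unusedSectionVars false
set_option linter.unusedVariables false

namespace Pool.Agent.KTM

universe u v

open Set Cardinal Pool.Agent.KT

/-- more parameters: `τ β` is the supremum of the `a γ`, `γ < β` -/
structure SysG (O P : Type u) [LinearOrder O] [OrderBot O] (σ κ : O → Cardinal.{u})
    (a c τ : O → O) (Λ : O) : Prop extends Sys O P σ κ a c where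
  τ_lt : ∀ β, β ≠ ⊥ → ∀ x, x < τ β ↔ ∃ γ < β, x < a γ
  cnt : ∀ β, β ≠ ⊥ → 2 ^ σ β ≤ #(Iio (c β))
  inj : ∀ β, β ≠ ⊥ → σ β ≤ #(Iio (τ β)) ∨ ∃ γ, γ ≠ ⊥ ∧ τ β = a γ ∧ σ β ≤ #(Iio (c γ))
  cov : ∀ α, Λ ≤ α → ∃ β, β ≠ ⊥ ∧ τ β ≤ α ∧ α < a β

/-- there are few functions valued in a small forcing -/
private theorem V09_card_PF {Q A : Type u} [Preorder Q] {l : Cardinal.{u}} (hl : ℵ₀ ≤ l)
    (h1 : #Q ≤ l) (h2 : #A ≤ l) : #(PF Q A (ULift.{u} Bool)) ≤ 2 ^ l := by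
  have hinj : Function.Injective (fun X : PF Q A (ULift.{u} Bool) =>
      {t : A × ULift.{u} Bool × Q | X.val t.1 t.2.1 t.2.2}) := by
    intro X X' h
    refine PF.ext fun x b p => ?_
    have := congrArg (fun s : Set (A × ULift.{u} Bool × Q) => (x, b, p) ∈ s) h
    simpa using this
  have h3 : #(PF Q A (ULift.{u} Bool)) ≤ #(Set (A × ULift.{u} Bool × Q)) :=
    Cardinal.mk_le_of_injective hinj
  refine h3.trans ?_
  rw [Cardinal.mk_set]
  refine Cardinal.power_le_power_left two_ne_zero ?_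
  rw [Cardinal.mk_prod, Cardinal.mk_prod]
  simp only [Cardinal.lift_id]
  refine Cardinal.mul_le_of_le hl h2 (Cardinal.mul_le_of_le hl ?_ h1)
  have h4 : #(ULift.{u} Bool) ≤ ℵ₀ := Cardinal.mk_le_aleph0
  exact h4.trans hl

variable {O P : Type u} [LinearOrder O] [OrderBot O] [WellFoundedLT O] [Preorder P]
  {σ κ : O → Cardinal.{u}} {a c τ : O → O} {Λ : O} (hS : SysG O P σ κ a c τ Λ)
include hS

private theorem V09_inf {γ : O} (hγ : γ ≠ ⊥) : ℵ₀ ≤ σ γ :=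
  (hS.inf ⊥).trans (hS.κ_le ⊥ γ (bot_lt_iff_ne_bot.2 hγ))

open Classical in
/-- one more value at `γ` -/
private theorem V09_ext {γ : O} (hγ : γ ≠ ⊥) (e : EE a c univ) {i x : O} (hi : i < a γ)
    (hx : x < c γ) (h : e.1 γ i = none) : ∃ e' ≤ e, e'.1 γ i = some x := by
  refine ⟨⟨fun ξ j => if ξ = γ ∧ j = i then some x else e.1 ξ j,
    fun ξ hξ => absurd (mem_univ ξ) hξ, ?_, ?_⟩, ?_, ?_⟩
  · intro ξ
    obtain ⟨b, hb, hb2⟩ := e.2.2.1 ξ
    by_cases hξ : ξ = γ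
    · subst hξ
      obtain ⟨b', hb', hb2'⟩ := hS.bdd ξ hγ {i, b} (by
        refine le_trans ?_ (V09_inf hS hγ)
        exact Cardinal.mk_le_aleph0_iff.2 (Set.toFinite {i, b}).countable.to_subtype) (by
        intro y hy
        rcases hy with rfl | hy
        · exact hi
        · rw [mem_singleton_iff] at hy
          rw [hy]; exact hb)
      refine ⟨b', hb', fun j hj => ?_⟩
      have h1 : i < b' := hb2' i (by simp)
      have h2 : b < b' := hb2' b (by simp)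
      have h3 : ¬ (ξ = ξ ∧ j = i) := by
        rintro ⟨_, rfl⟩
        exact absurd h1 (not_lt.2 hj)
      exact (if_neg h3).trans (hb2 j (h2.le.trans hj))
    · refine ⟨b, hb, fun j hj => ?_⟩
      exact (if_neg (fun hh => hξ hh.1)).trans (hb2 j hj)
  · intro ξ j y hy
    by_cases hh : ξ = γ ∧ j = i
    · have hy' := (if_pos hh).symm.trans hy
      rw [Option.some_inj] at hy'
      rw [← hy', hh.1]
      exact hx
    · exact e.2.2.2 ξ j y ((if_neg hh).symm.trans hy)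
  · intro ξ j y hy
    by_cases hh : ξ = γ ∧ j = i
    · rw [hh.1, hh.2, h] at hy
      exact absurd hy (by simp)
    · exact (if_neg hh).trans hy
  · exact if_pos ⟨rfl, rfl⟩

/-- the generic surjections: `v i x q := q.2.1 γ i = some x` -/
theorem SysG.exists_surj {γ : O} (hγ : γ ≠ ⊥) (hc : ⊥ < c γ) :
    ∃ g : PF (P × EE a c univ) (Iio (a γ)) (Iio (c γ)), DSurj g := by
  obtain ⟨X, hX1, hX2⟩ := PF.exists_ofDense (P := P × EE a c univ) (A := Iio (a γ))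
    (B := Iio (c γ)) (fun i x q => q.2.1 γ i.1 = some x.1)
    (fun i x p q (hqp : q ≤ p) h => hqp.2 γ i.1 x.1 h)
    (fun i x x' p h h' => Subtype.ext (by
      rw [h] at h'
      exact Option.some_inj.1 h'))
    (by
      intro i p
      rcases h : p.2.1 γ i.1 with _ | x
      · obtain ⟨e', he', h'⟩ := V09_ext hS hγ p.2 i.2 hc h
        exact ⟨(p.1, e'), ⟨le_rfl, he'⟩, ⟨⊥, hc⟩, h'⟩
      · exact ⟨p, le_rfl, ⟨x, p.2.2.2.2 γ i.1 x h⟩, h⟩)
  refine ⟨X, fun x q => ?_⟩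
  obtain ⟨b, hb, hb2⟩ := q.2.2.2.1 γ
  obtain ⟨e', he', h'⟩ := V09_ext hS hγ q.2 hb x.2 (hb2 b le_rfl)
  exact ⟨(q.1, e'), ⟨le_rfl, he'⟩, ⟨b, hb⟩, hX2 ⟨b, hb⟩ x _ h'⟩

private theorem V09_bot_lt {x : O} {l : Cardinal.{u}} (hl : ℵ₀ ≤ l) (h : l ≤ #(Iio x)) :
    ⊥ < x := by
  rw [bot_lt_iff_ne_bot]
  rintro rfl
  have h1 : #(Iio (⊥ : O)) = 0 := by
    rw [Cardinal.mk_eq_zero_iff]
    exact ⟨fun y => not_lt_bot y.2⟩
  rw [h1] at h
  exact absurd (hl.trans h) (not_le.2 Cardinal.aleph0_pos)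

/-- `#(Iio x) ≤ σ β`; ground model injection, or followed by the inverse of the generic
surjection onto `Iio (c γ)` (`exists_inverse`) -/
theorem SysG.exists_inj {β : O} (hβ : β ≠ ⊥) {x : O} (hx : x < a β) :
    ∃ J : PF (P × EE a c univ) (Iio x) (Iio (τ β)), ∀ q, InjP J q := by
  have hx1 : #(Iio x) ≤ σ β := hS.seg_a β hβ x hx
  rcases hS.inj β hβ with h | ⟨γ, hγ, hτ, h⟩
  · obtain ⟨f⟩ := Cardinal.le_def _ _ |>.1 (hx1.trans h)
    exact ⟨PF.ofFun _ f, fun q => injP_ofFun f.injective q⟩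
  · obtain ⟨f⟩ := Cardinal.le_def _ _ |>.1 (hx1.trans h)
    rw [hτ]
    obtain ⟨g, hg⟩ := hS.exists_surj hγ (V09_bot_lt hS (V09_inf hS hβ) h)
    obtain ⟨J, hJ⟩ := exists_inverse hg
    exact ⟨PF.pre J f, fun q => InjP.pre (hJ q) f.injective⟩

/-- There are at most `2 ^ σ β ≤ #(Iio (c β))` families `(X γ)`, `γ < β`, of
`X γ : PF (P × EE a c (Iic γ)) (Iio (a γ)) Bool` (each has at most `2 ^ (κ γ * κ γ)` values, and
`κ γ ≤ σ β`); let `φ` enumerate them along `Iio (c β)` and `g : Iio (a β) → Iio (c β)` be the generic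
surjection. For `x < τ β` let `γ x` be the least `γ` with `x < a γ`, and
`v (y, x) b q := ∃ z, g.val y z q ∧ (φ z (γ x)).val x b (q.1, EE.low (γ x) q.2)`.
Given `X : PF _ (Iio (τ β)) Bool` and `q` take `e'` from `exists_reduce` (with `AA γ` the set of
the `x < a γ`, `x < τ β`, for `γ < β`, and `∅` for `γ ≥ β`) and the family from `exists_PF_low`,
then extend to decide the preimage `y` of its code. -/
theorem SysG.exists_pow {β : O} (hβ : β ≠ ⊥) :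
    ∃ S : PF (P × EE a c univ) (Iio (a β) × Iio (τ β)) (ULift.{u} Bool),
      PowP (Iio (τ β)) (Iio (a β)) S := by
  have hinf : ℵ₀ ≤ σ β := V09_inf hS hβ
  obtain ⟨g, hg⟩ := hS.exists_surj hβ (V09_bot_lt hS (hinf.trans (Cardinal.cantor _).le)
    (hS.cnt β hβ))
  -- the families
  have hcard : #((γ : Iio β) → PF (P × EE a c (Iic γ.1)) (Iio (a γ.1)) (ULift.{u} Bool)) ≤
      #(Iio (c β)) := by
    refine le_trans ?_ (hS.cnt β hβ)
    rw [Cardinal.mk_pi]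
    refine (Cardinal.prod_le_prod _ (fun _ => 2 ^ σ β) fun γ => ?_).trans ?_
    · have h1 : κ γ.1 ≤ σ β := hS.κ_le γ.1 β γ.2
      exact V09_card_PF hinf ((hS.card_low γ.1).trans h1) ((hS.a_le γ.1).trans h1)
    · rw [Cardinal.prod_const, Cardinal.lift_id, Cardinal.lift_id, ← Cardinal.power_mul]
      refine Cardinal.power_le_power_left two_ne_zero ?_
      exact Cardinal.mul_le_of_le hinf le_rfl (hS.seg_le β hβ)
  obtain ⟨f⟩ := Cardinal.le_def _ _ |>.1 hcard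
  have : Nonempty ((γ : Iio β) → PF (P × EE a c (Iic γ.1)) (Iio (a γ.1)) (ULift.{u} Bool)) :=
    ⟨fun γ => PF.ofFun _ fun _ => ⟨true⟩⟩
  obtain ⟨φ, hφ⟩ : ∃ φ : Iio (c β) →
      ((γ : Iio β) → PF (P × EE a c (Iic γ.1)) (Iio (a γ.1)) (ULift.{u} Bool)),
      Function.Surjective φ :=
    ⟨Function.invFun f, Function.invFun_surjective f.injective⟩
  have hlev : ∀ x : Iio (τ β), ∃ γ : Iio β, x.1 < a γ.1 := by
    intro x
    obtain ⟨γ, h1, h2⟩ := (hS.τ_lt β hβ x.1).1 x.2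
    exact ⟨⟨γ, h1⟩, h2⟩
  choose l hl using hlev
  obtain ⟨S, hS1, hS2⟩ := PF.exists_ofDense (P := P × EE a c univ)
    (A := Iio (a β) × Iio (τ β)) (B := ULift.{u} Bool)
    (fun yx b q => ∃ z, g.val yx.1 z q ∧
      (φ z (l yx.2)).val ⟨yx.2.1, hl yx.2⟩ b (q.1, EE.low (l yx.2).1 q.2))
    (by
      rintro ⟨y, x⟩ b p q hqp ⟨z, h1, h2⟩
      exact ⟨z, g.mono _ _ _ _ hqp h1, PF.mono _ _ _ _ _
        ⟨hqp.1, EE.low_mono _ hqp.2⟩ h2⟩)
    (by
      rintro ⟨y, x⟩ b b' p ⟨z, h1, h2⟩ ⟨z', h3, h4⟩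
      have hz : z = z' := g.uniq _ _ _ _ h1 h3
      subst hz
      exact PF.uniq _ _ _ _ _ h2 h4)
    (by
      rintro ⟨y, x⟩ p
      obtain ⟨p', hp', z, hz⟩ := g.total y p
      obtain ⟨t, ht, b, hb⟩ := (φ z (l x)).total ⟨x.1, hl x⟩ (p'.1, EE.low (l x).1 p'.2)
      have h1 : EE.glue t.2 p'.2 ≤ p'.2 := EE.glue_le ht.2
      have h2 : ((t.1, EE.glue t.2 p'.2) : P × EE a c univ) ≤ p' := ⟨ht.1, h1⟩
      refine ⟨(t.1, EE.glue t.2 p'.2), h2.trans hp', b, z, g.mono _ _ _ _ h2 hz, ?_⟩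
      refine PF.mono (φ z (l x)) _ _ t _ ⟨le_rfl, ?_⟩ hb
      exact EE.low_glue_le (t := t.2) (e := p'.2) (r := EE.glue t.2 p'.2) le_rfl)
  refine ⟨S, fun X q => ?_⟩
  obtain ⟨e', he', hred⟩ := hS.exists_reduce (A := Iio (τ β)) (B := ULift.{u} Bool)
    (fun γ => {x | γ < β ∧ x.1 < a γ}) (by
      intro γ
      refine le_trans ?_ (hS.a_le γ)
      exact Cardinal.mk_le_of_injective (f := fun x : {x : Iio (τ β) | γ < β ∧ x.1 < a γ} =>
        (⟨x.1.1, x.2.2⟩ : Iio (a γ))) (by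
        intro x x' h
        have h' := congrArg Subtype.val h
        exact Subtype.ext (Subtype.ext h'))) X q.2
  choose X' hX1 hX2 using fun γ : O => Sys.exists_PF_low hS.toSys
    (AA := {x : Iio (τ β) | γ < β ∧ x.1 < a γ}) (Φ := X) (e' := e') (γ := γ) (hred γ)
  obtain ⟨z, hz⟩ := hφ (fun γ => PF.pre (X' γ.1) fun x =>
    ⟨⟨x.1, (hS.τ_lt β hβ x.1).2 ⟨γ.1, γ.2, x.2⟩⟩, γ.2, x.2⟩)
  obtain ⟨q', hq', y, hy⟩ := hg z (q.1, e')
  have hq'q : q' ≤ q := hq'.trans ⟨le_rfl, he'⟩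
  refine ⟨q', hq'q, y, fun x b r hr hb => ?_⟩
  refine hS2 (y, x) b r ⟨z, g.mono _ _ _ _ hr hy, ?_⟩
  rw [hz]
  exact (hX2 (l x).1 ⟨x, (l x).2, hl x⟩ b r (hr.2.trans hq'.2)).2 hb

theorem SysG.gchP_high {α : O} (hα : Λ ≤ α) : ∃ τ τ' : O, τ ≤ α ∧ α < τ' ∧
    (∀ a' < τ', ∃ J : PF (P × EE a c univ) (Iio a') (Iio τ), ∀ q, InjP J q) ∧
    ∃ S : PF (P × EE a c univ) (Iio τ' × Iio τ) (ULift.{u} Bool), PowP (Iio τ) (Iio τ') S := by
  obtain ⟨β, hβ, h1, h2⟩ := hS.cov α hα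
  exact ⟨τ β, a β, h1, h2, fun x hx => hS.exists_inj hβ hx, hS.exists_pow hβ⟩

end Pool.Agent.KTM
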