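import Pool.Agent.Lib_MP_bf47cd.V09
import Mathlib.SetTheory.Cardinal.Regular

/-!
# H17-V10: the parameters of the product of collapses
-/

set_option linter.unusedSectionVars false
set_option linter.unusedVariables false

namespace Pool.Agent.KTM

universe u v

open Set Cardinal Pool.Agent.KT

/-- the cardinals `k β` -/
private noncomputable def V10k (l : Cardinal.{v}) (β : Ordinal.{v}) : Cardinal.{v} :=
  if β = 0 then l else 2 ^ (2 ^ (⨆ γ : Iio β, V10k l γ.1) : Cardinal.{v})
termination_by β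
decreasing_by exact γ.2

/-- the cardinals `s β` -/
private noncomputable def V10s (l : Cardinal.{v}) (β : Ordinal.{v}) : Cardinal.{v} :=
  ⨆ γ : Iio β, V10k l γ.1

/-- the ordinals `a β` -/
private noncomputable def V10a (l : Cardinal.{v}) (β : Ordinal.{v}) : Ordinal.{v} :=
  if β = 0 then l.ord else (Order.succ (V10s l β)).ord

/-- the ordinals `c β` -/
private noncomputable def V10c (l : Cardinal.{v}) (β : Ordinal.{v}) : Ordinal.{v} :=
  if β = 0 then 0 else (V10k l β).ord

/-- the ordinals `τ β` -/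
private noncomputable def V10t (l : Cardinal.{v}) (β : Ordinal.{v}) : Ordinal.{v} :=
  ⨆ γ : Iio β, V10a l γ.1

private lemma V10k_zero (l : Cardinal.{v}) : V10k l 0 = l := by
  rw [V10k]
  simp

private lemma V10k_of_ne (l : Cardinal.{v}) {β : Ordinal.{v}} (hβ : β ≠ 0) :
    V10k l β = 2 ^ (2 ^ V10s l β : Cardinal.{v}) := by
  rw [V10k, if_neg hβ]
  rfl

private lemma V10_bdd (l : Cardinal.{v}) (β : Ordinal.{v}) :
    BddAbove (range fun γ : Iio β => V10k l γ.1) :=
  Cardinal.bddAbove_of_small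

private lemma V10k_le_s (l : Cardinal.{v}) {γ β : Ordinal.{v}} (h : γ < β) :
    V10k l γ ≤ V10s l β :=
  le_ciSup (V10_bdd l β) ⟨γ, h⟩

private lemma V10s_lt_k (l : Cardinal.{v}) {β : Ordinal.{v}} (hβ : β ≠ 0) :
    V10s l β < V10k l β := by
  rw [V10k_of_ne l hβ]
  exact (cantor _).trans (cantor _)

private lemma V10k_lt (l : Cardinal.{v}) {γ β : Ordinal.{v}} (h : γ < β) :
    V10k l γ < V10k l β :=
  (V10k_le_s l h).trans_lt (V10s_lt_k l (ne_bot_of_gt h))

private lemma V10k_mono (l : Cardinal.{v}) : StrictMono (V10k l) := fun _ _ h => V10k_lt l h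

private lemma V10s_le {l : Cardinal.{v}} {β : Ordinal.{v}} {d : Cardinal.{v}}
    (h : ∀ γ < β, V10k l γ ≤ d) : V10s l β ≤ d :=
  ciSup_le' fun γ => h γ.1 γ.2

private lemma le_V10s {l : Cardinal.{v}} {β : Ordinal.{v}} (hβ : β ≠ 0) : l ≤ V10s l β := by
  have h := V10k_le_s l (pos_iff_ne_zero.2 hβ)
  rwa [V10k_zero] at h

private lemma aleph0_le_V10s {l : Cardinal.{v}} (hl : ℵ₀ ≤ l) {β : Ordinal.{v}} (hβ : β ≠ 0) :
    ℵ₀ ≤ V10s l β :=
  hl.trans (le_V10s hβ)

private lemma aleph0_le_V10k {l : Cardinal.{v}} (hl : ℵ₀ ≤ l) (β : Ordinal.{v}) :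
    ℵ₀ ≤ V10k l β := by
  rcases eq_or_ne β 0 with rfl | hβ
  · rwa [V10k_zero]
  · exact (aleph0_le_V10s hl hβ).trans (V10s_lt_k l hβ).le

private lemma card_le_V10k (l : Cardinal.{v}) (β : Ordinal.{v}) : β.card ≤ V10k l β := by
  have h : StrictMono fun β : Ordinal.{v} => (V10k l β).ord :=
    fun x y hxy => Cardinal.ord_lt_ord.2 (V10k_lt l hxy)
  have h2 : β ≤ (V10k l β).ord := h.le_apply
  simpa using Ordinal.card_le_card h2

private lemma card_le_V10s {l : Cardinal.{v}} (hl : ℵ₀ ≤ l) {β : Ordinal.{v}} (hβ : β ≠ 0) :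
    β.card ≤ V10s l β := by
  by_contra hc
  push Not at hc
  have h0 := aleph0_le_V10s hl hβ
  have h1 : Order.succ (V10s l β).ord < β := by
    have h2 : (Order.succ (V10s l β).ord).card < β.card := by
      rw [Order.succ_eq_add_one, Ordinal.card_add, Cardinal.card_ord, Ordinal.card_one,
        Cardinal.add_one_eq h0]
      exact hc
    exact lt_of_not_ge fun h => absurd (Ordinal.card_le_card h) (not_le.2 h2)
  have h3 := V10k_le_s l h1
  have h4 : V10k l (V10s l β).ord < V10k l (Order.succ (V10s l β).ord) :=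
    V10k_lt l (Order.lt_succ _)
  have h5 := card_le_V10k l (V10s l β).ord
  rw [Cardinal.card_ord] at h5
  exact absurd (h5.trans_lt (h4.trans_le h3)) (lt_irrefl _)

private lemma V10a_zero (l : Cardinal.{v}) : V10a l 0 = l.ord := by simp [V10a]

private lemma V10a_of_ne (l : Cardinal.{v}) {β : Ordinal.{v}} (hβ : β ≠ 0) :
    V10a l β = (Order.succ (V10s l β)).ord := by simp [V10a, hβ]

private lemma V10c_of_ne (l : Cardinal.{v}) {β : Ordinal.{v}} (hβ : β ≠ 0) :
    V10c l β = (V10k l β).ord := by simp [V10c, hβ]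

private lemma V10s_mono (l : Cardinal.{v}) {γ β : Ordinal.{v}} (h : γ ≤ β) :
    V10s l γ ≤ V10s l β :=
  V10s_le fun _ hδ => V10k_le_s l (hδ.trans_le h)

private lemma V10a_mono (l : Cardinal.{v}) {γ β : Ordinal.{v}} (h : γ ≤ β) :
    V10a l γ ≤ V10a l β := by
  rcases eq_or_ne β 0 with rfl | hβ
  · rw [nonpos_iff_eq_zero.1 h]
  rw [V10a_of_ne l hβ]
  rcases eq_or_ne γ 0 with rfl | hγ
  · rw [V10a_zero]
    exact Cardinal.ord_le_ord.2 ((le_V10s hβ).trans (Order.le_succ _))
  · rw [V10a_of_ne l hγ]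
    exact Cardinal.ord_le_ord.2 (Order.succ_le_succ (V10s_mono l h))

private lemma V10s_succ (l : Cardinal.{v}) (γ : Ordinal.{v}) :
    V10s l (Order.succ γ) = V10k l γ := by
  apply le_antisymm
  · exact V10s_le fun δ hδ => (V10k_mono l).monotone (Order.lt_succ_iff.1 hδ)
  · exact V10k_le_s l (Order.lt_succ γ)

private lemma lt_V10t {l : Cardinal.{v}} {β x : Ordinal.{v}} :
    x < V10t l β ↔ ∃ γ < β, x < V10a l γ := by
  rw [V10t, Ordinal.lt_iSup_iff]
  constructor
  · rintro ⟨γ, h⟩
    exact ⟨γ.1, γ.2, h⟩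
  · rintro ⟨γ, h1, h2⟩
    exact ⟨⟨γ, h1⟩, h2⟩

private lemma V10t_succ (l : Cardinal.{v}) (γ : Ordinal.{v}) :
    V10t l (Order.succ γ) = V10a l γ := by
  apply le_antisymm
  · refine le_of_forall_lt fun x hx => ?_
    obtain ⟨δ, h1, h2⟩ := lt_V10t.1 hx
    exact h2.trans_le (V10a_mono l (Order.lt_succ_iff.1 h1))
  · exact le_of_forall_lt fun x hx => lt_V10t.2 ⟨γ, Order.lt_succ γ, hx⟩

private lemma V10_mk_Iio (x : Ordinal.{v}) : #(Iio x) = Cardinal.lift.{v+1} x.card := by
  simp

/-- Define `k : Ordinal.{v} → Cardinal.{v}` by recursion: `k 0 = l` and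
`k β = 2 ^ 2 ^ (⨆ γ < β, k γ)` for `β ≠ 0`, `s β = ⨆ γ < β, k γ`, `a 0 = l.ord`,
`a β = (Order.succ (s β)).ord` for `β ≠ 0`, `c 0 = 0`, `c β = (k β).ord` for `β ≠ 0`,
`τ β` the supremum of the `a γ`, `γ < β`; `σ β = lift (s β)`, `κ β = lift (k β)`. -/
theorem exists_sysG (l : Cardinal.{v}) (hl : ℵ₀ ≤ l) (P : Type (v+1)) [Preorder P]
    (hP : #P ≤ Cardinal.lift.{v+1} l) :
    ∃ (σ κ : Ordinal.{v} → Cardinal.{v+1}) (a c τ : Ordinal.{v} → Ordinal.{v}),
      SysG Ordinal.{v} P σ κ a c τ l.ord ∧ κ ⊥ = Cardinal.lift.{v+1} l ∧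
      (∀ γ, κ γ < Cardinal.univ.{v, v+1}) ∧
      ∀ A : Type v, ∃ γ, Cardinal.lift.{v+1} #A ≤ κ γ := by
  refine ⟨fun β => Cardinal.lift.{v+1} (V10s l β), fun β => Cardinal.lift.{v+1} (V10k l β),
    V10a l, V10c l, V10t l, ?_, ?_, fun γ => Cardinal.lift_lt_univ _, fun A => ⟨(#A).ord, ?_⟩⟩
  · constructor
    case toSys =>
      constructor
      case a_pos =>
        intro γ
        rw [Ordinal.bot_eq_zero]
        rcases eq_or_ne γ 0 with rfl | hγ
        · rw [V10a_zero, pos_iff_ne_zero, Ne, Cardinal.ord_eq_zero]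
          exact (Cardinal.aleph0_pos.trans_le hl).ne'
        · rw [V10a_of_ne l hγ, pos_iff_ne_zero, Ne, Cardinal.ord_eq_zero]
          exact (bot_lt_iff_ne_bot.1 (Order.bot_lt_succ _))
      case c_bot =>
        rw [Ordinal.bot_eq_zero]
        simp [V10c]
      case inf =>
        intro γ
        exact Cardinal.aleph0_le_lift.2 (aleph0_le_V10k hl γ)
      case P_le =>
        simp only [Ordinal.bot_eq_zero, V10k_zero]
        exact hP
      case a_le =>
        intro γ
        rw [V10_mk_Iio, Cardinal.lift_le]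
        rcases eq_or_ne γ 0 with rfl | hγ
        · rw [V10a_zero, V10k_zero, Cardinal.card_ord]
        · rw [V10a_of_ne l hγ, Cardinal.card_ord]
          exact Order.succ_le_of_lt (V10s_lt_k l hγ)
      case c_le =>
        intro γ
        rw [V10_mk_Iio, Cardinal.lift_le]
        rcases eq_or_ne γ 0 with rfl | hγ
        · simp [V10c]
        · rw [V10c_of_ne l hγ, Cardinal.card_ord]
      case seg_le =>
        intro γ hγ
        rw [Ordinal.bot_eq_zero] at hγ
        rw [V10_mk_Iio, Cardinal.lift_le]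
        exact card_le_V10s hl hγ
      case κ_le =>
        intro γ ξ h
        exact Cardinal.lift_le.2 (V10k_le_s l h)
      case κ_pow =>
        intro γ hγ
        rw [Ordinal.bot_eq_zero] at hγ
        rw [← Cardinal.lift_power, Cardinal.lift_le, V10k_of_ne l hγ, ← Cardinal.power_mul,
          Cardinal.mul_eq_left ((aleph0_le_V10s hl hγ).trans (cantor _).le) (cantor _).le
            (Cardinal.aleph0_pos.trans_le (aleph0_le_V10s hl hγ)).ne']
      case bdd =>
        intro γ hγ s hs h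
        rw [Ordinal.bot_eq_zero] at hγ
        rw [V10a_of_ne l hγ] at h ⊢
        obtain ⟨d, hd2, hd1⟩ := Cardinal.le_lift_iff.1 hs
        have hreg := Cardinal.isRegular_succ (aleph0_le_V10s hl hγ)
        obtain ⟨e⟩ : Nonempty (ULift.{v+1} d.out ≃ s) := by
          rw [← Cardinal.eq, Cardinal.mk_uLift, Cardinal.mk_out]
          exact hd1
        refine ⟨⨆ i : d.out, Order.succ (e ⟨i⟩).1, ?_, ?_⟩
        · apply Ordinal.iSup_lt_of_lt_cof
          · rw [hreg.cof_ord, Cardinal.mk_out]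
            exact Order.lt_succ_of_le hd2
          · intro i
            exact (Cardinal.isSuccLimit_ord hreg.aleph0_le).succ_lt (h _ (e ⟨i⟩).2)
        · intro x hx
          have h3 : Order.succ x ≤ ⨆ i : d.out, Order.succ (e ⟨i⟩).1 := by
            have h4 := Ordinal.le_iSup (fun i : d.out => Order.succ (e ⟨i⟩).1)
              (e.symm ⟨x, hx⟩).down
            rwa [show (⟨(e.symm ⟨x, hx⟩).down⟩ : ULift.{v+1} d.out) = e.symm ⟨x, hx⟩ from rfl,
              Equiv.apply_symm_apply] at h4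
          exact (Order.lt_succ x).trans_le h3
      case seg_a =>
        intro γ hγ x hx
        rw [Ordinal.bot_eq_zero] at hγ
        rw [V10a_of_ne l hγ, Cardinal.lt_ord, Order.lt_succ_iff] at hx
        rw [V10_mk_Iio, Cardinal.lift_le]
        exact hx
    case τ_lt =>
      intro β _ x
      exact lt_V10t
    case cnt =>
      intro β hβ
      rw [Ordinal.bot_eq_zero] at hβ
      rw [V10_mk_Iio, V10c_of_ne l hβ, Cardinal.card_ord, V10k_of_ne l hβ,
        ← Cardinal.lift_two_power, Cardinal.lift_le]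
      exact (cantor _).le
    case inj =>
      intro β hβ
      rw [Ordinal.bot_eq_zero] at hβ
      by_cases h : ∃ γ, β = Order.succ γ
      · obtain ⟨γ, rfl⟩ := h
        rcases eq_or_ne γ 0 with rfl | hγ
        · left
          rw [V10s_succ, V10t_succ, V10_mk_Iio, V10a_zero, V10k_zero, Cardinal.card_ord]
        · right
          refine ⟨γ, by rwa [Ordinal.bot_eq_zero], V10t_succ l γ, ?_⟩
          rw [V10s_succ, V10_mk_Iio, V10c_of_ne l hγ, Cardinal.card_ord]
      · left
        rw [V10_mk_Iio, Cardinal.lift_le]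
        refine V10s_le fun γ hγ => ?_
        have h1 : Order.succ γ < β :=
          lt_of_le_of_ne (Order.succ_le_of_lt hγ) fun he => h ⟨γ, he.symm⟩
        have h2 : V10a l (Order.succ γ) ≤ V10t l β :=
          le_of_forall_lt fun x hx => lt_V10t.2 ⟨_, h1, hx⟩
        have h3 := Ordinal.card_le_card h2
        rw [V10a_of_ne l (Order.succ_ne_bot γ), V10s_succ, Cardinal.card_ord] at h3
        exact (Order.le_succ _).trans h3
    case cov =>
      intro α hα
      have hex : ∃ β, α < V10a l β := by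
        refine ⟨Order.succ α, ?_⟩
        rw [V10a_of_ne l (Order.succ_ne_bot α), V10s_succ, Cardinal.lt_ord, Order.lt_succ_iff]
        exact card_le_V10k l α
      obtain ⟨β, h1, h2⟩ := WellFounded.has_min (wellFounded_lt (α := Ordinal.{v}))
        {β | α < V10a l β} hex
      refine ⟨β, ?_, ?_, h1⟩
      · rw [Ordinal.bot_eq_zero]
        rintro rfl
        simp only [mem_ofPred_eq, V10a_zero] at h1
        exact absurd hα (not_le.2 h1)
      · refine le_of_not_gt fun h3 => ?_
        obtain ⟨γ, h4, h5⟩ := lt_V10t.1 h3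
        exact h2 γ h5 h4
  · simp only [Ordinal.bot_eq_zero, V10k_zero]
  · have h := card_le_V10k l (#A).ord
    rw [Cardinal.card_ord] at h
    exact Cardinal.lift_le.2 h

end Pool.Agent.KTM
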