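import Pool.Agent.Lib_MP_bf47cd.D01
import Pool.Agent.Lib_MP_bf47cd.A13
import Mathlib.SetTheory.Cardinal.Regular
import Mathlib.SetTheory.Cardinal.Aleph
import Mathlib.SetTheory.Cardinal.Continuum

/-!
# H17-V12: the parameters for the GCH version

Everything is an initial segment of `Ordinal.{1} : Type 2`: `I = Iio ω₁`,
`K = Iio (2^ℵ₀)⁺`, `W = Iio Λ` with `Λ` the initial ordinal of `univ.{0, 1}`. Compare `D09`.
-/

set_option linter.unusedSectionVars false
set_option linter.unusedVariables false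

namespace Pool.Agent.KTM

open Set Cardinal Ordinal Pool.Agent.KT

universe u

private theorem V12_bd {K ι W : Type u} [LinearOrder K] [OrderBot K] [WellFoundedLT K]
    {m0 : K} [LinearOrder W] [OrderBot W] [WellFoundedLT W]
    {chi : W → W} [hK : SetupK K ι m0] [hW : SetupW K ι W chi]
    (p : Cond K ι W m0 chi) : ∃ b : W, Cond.restr b p = p := by
  have h1 : #(p.L) < #W := lt_of_le_of_lt p.L_card (ι_lt_W K m0 chi)
  have h2 : #(p.N) < #W := lt_of_le_of_lt p.N_card (ι_lt_W K m0 chi)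
  obtain ⟨b, hb⟩ := exists_bddW K ι m0 chi h1 (fun ξ : p.L => ξ.1)
  obtain ⟨b', hb'⟩ := exists_bddW K ι m0 chi h2 (fun a : p.N => a.1.tag)
  refine ⟨max b b', ?_⟩
  rw [Cond.restr_eq_self_iff]
  refine ⟨fun ξ hξ => lt_max_of_lt_left (hb ⟨ξ, hξ⟩), fun a ha => ⟨lt_max_of_lt_right (hb' ⟨a, ha⟩),
    fun z => lt_max_of_lt_left (hb ⟨a.w z, p.N_L a ha z⟩)⟩⟩

/-- there are at most `#W` conditions (each has its labels below some `b0`; `card_low_lt`) -/
theorem card_cond_le (K ι W : Type u) [LinearOrder K] [OrderBot K] [WellFoundedLT K]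
    [SuccOrder K] [NoMaxOrder K] (m0 : K) [LinearOrder W] [OrderBot W] [WellFoundedLT W]
    (chi : W → W) [hK : SetupK K ι m0] [hW : SetupW K ι W chi] :
    #(Cond K ι W m0 chi) ≤ #W := by
  choose b hb using fun p : Cond K ι W m0 chi => V12_bd (K := K) (ι := ι) p
  have h1 : #(Cond K ι W m0 chi) ≤
      #(Σ b0 : W, {p : Cond K ι W m0 chi // Cond.restr b0 p = p}) := by
    refine mk_le_of_injective (f := fun p => ⟨b p, p, hb p⟩) fun p q h => ?_
    have h2 : ∀ x y : (Σ b0 : W, {p : Cond K ι W m0 chi // Cond.restr b0 p = p}), x = y →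
        x.2.1 = y.2.1 := by
      intro x y hxy; rw [hxy]
    exact h2 _ _ h
  refine h1.trans ?_
  rw [mk_sigma]
  refine (sum_le_sum _ (fun _ => #W) fun b0 => (card_low_lt K ι m0 chi b0).le).trans ?_
  rw [sum_const', mul_eq_self (aleph0_lt_W K ι m0 chi).le]

/-- `κ = (2^ℵ₀)⁺` -/
noncomputable def kap2 : Ordinal.{1} := (Order.succ Cardinal.continuum.{1}).ord

/-- the initial ordinal of the first universe -/
noncomputable def Lam : Ordinal.{1} := Cardinal.univ.{0, 1}.ord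

abbrev W2 : Type 2 := Iio Lam
abbrev K2 : Type 2 := Iio kap2
abbrev I2 : Type 2 := Iio (ω₁ : Ordinal.{1})
abbrev ι2 : Type 2 := ULift.{2} (Set ℕ)

theorem ord_continuum_lt_kap2 : Cardinal.continuum.{1}.ord < kap2 := by
  unfold kap2
  exact ord_lt_ord.2 (Order.lt_succ _)

noncomputable def m02 : K2 := ⟨Cardinal.continuum.{1}.ord, ord_continuum_lt_kap2⟩

theorem kap2_pos : 0 < kap2 := lt_of_le_of_lt bot_le ord_continuum_lt_kap2

theorem Lam_pos : 0 < Lam := by
  unfold Lam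
  rw [lt_ord, card_zero]
  exact lt_trans aleph0_pos aleph0_lt_univ

noncomputable instance : OrderBot K2 where
  bot := ⟨0, kap2_pos⟩
  bot_le _ := by
    apply Subtype.coe_le_coe.1
    exact bot_le

noncomputable instance : OrderBot W2 where
  bot := ⟨0, Lam_pos⟩
  bot_le _ := by
    apply Subtype.coe_le_coe.1
    exact bot_le

private theorem V12_kap_succ {a : Ordinal.{1}} (h : a < kap2) : Order.succ a < kap2 := by
  have h1 : Order.IsSuccLimit kap2 :=
    isSuccLimit_ord (aleph0_le_continuum.trans (Order.le_succ _))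
  exact h1.succ_lt h

instance : NoMaxOrder K2 := by
  refine ⟨fun a => ⟨⟨Order.succ a.1, V12_kap_succ a.2⟩, ?_⟩⟩
  exact Subtype.coe_lt_coe.1 (Order.lt_succ _)

private theorem V12_omega1_succ {a : Ordinal.{1}} (h : a < ω₁) : Order.succ a < ω₁ := by
  have h1 : Order.IsSuccLimit (ω₁ : Ordinal.{1}) := isSuccLimit_omega 1
  exact h1.succ_lt h

private theorem V12_mk_Iio_sub {a : Ordinal.{1}} (e : Iio a) :
    #(Iio e : Set (Iio a)) = lift.{2} e.1.card := by
  rw [← Cardinal.mk_Iio_ordinal]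
  refine mk_congr ⟨fun x => ⟨x.1.1, x.2⟩, fun x => ⟨⟨x.1, lt_trans (mem_Iio.1 x.2) (mem_Iio.1 e.2)⟩, x.2⟩, ?_, ?_⟩
  · intro x; rfl
  · intro x; rfl

private theorem V12_mk_ι : #ι2 = lift.{2} continuum.{1} := by
  rw [mk_uLift, mk_set_nat, lift_continuum, lift_continuum]

instance : SetupK K2 ι2 m02 where
  pow := by
    rw [V12_mk_ι, lift_continuum]
    exact continuum_power_aleph0
  inf := by
    rw [V12_mk_ι, lift_continuum]; exact aleph0_le_continuum
  card_m0 := by
    rw [V12_mk_Iio_sub, V12_mk_ι]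
    unfold m02
    simp only [card_ord]
  seg e := by
    rw [V12_mk_Iio_sub, V12_mk_ι, Cardinal.lift_le]
    have h1 := e.2
    rw [mem_Iio] at h1
    unfold kap2 at h1
    rw [lt_ord] at h1
    exact Order.lt_succ_iff.1 h1
  big := by
    rw [V12_mk_ι, Cardinal.mk_Iio_ordinal, Cardinal.lift_lt]
    unfold kap2
    rw [card_ord]
    exact Order.lt_succ _

instance : SetupI I2 where
  seg a := by
    rw [← le_aleph0_iff_set_countable, V12_mk_Iio_sub, ← lift_aleph0.{2, 1}, Cardinal.lift_le]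
    have h1 : a.1 < ω₁ := a.2
    have h2 : a.1.card < ℵ₁ := by
      rw [← lt_ord, ord_aleph]; exact h1
    rw [← succ_aleph0] at h2
    exact Order.lt_succ_iff.1 h2
  cof s := by
    have h1 : (⨆ n, (s n).1) < ω₁ := by
      apply iSup_lt_omega_one
      intro n; exact (s n).2
    refine ⟨⟨Order.succ (⨆ n, (s n).1), V12_omega1_succ h1⟩, fun n => ?_⟩
    rw [← Subtype.coe_lt_coe]
    exact Order.lt_succ_of_le (Ordinal.le_iSup (fun n => (s n).1) n)

theorem card_W2 : #W2 = Cardinal.lift.{2} Cardinal.univ.{0, 1} := by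
  rw [Cardinal.mk_Iio_ordinal]
  unfold Lam
  rw [card_ord]

private theorem V12_mk_W : #W2 = Cardinal.univ.{0, 2} := by
  rw [card_W2, Cardinal.lift_univ]

private theorem V12_seg (b : W2) : #(Iio b) < #W2 := by
  rw [card_W2, V12_mk_Iio_sub, Cardinal.lift_lt, ← lt_ord]
  exact b.2

private theorem V12_mem_aux (o : Ordinal.{1}) (h : o < Lam) :
    ∃ a : Ordinal.{0}, o = Ordinal.lift.{1} a := by
  unfold Lam at h
  rw [Cardinal.ord_univ] at h
  have h1 := Ordinal.liftPrincipalSeg.{0, 1}.mem_range_of_rel_top (by simpa using h)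
  obtain ⟨a, ha⟩ := h1
  exact ⟨a, ha.symm⟩

private theorem V12_mem (b : W2) : ∃ a : Ordinal.{0}, b.1 = Ordinal.lift.{1} a :=
  V12_mem_aux b.1 b.2

private theorem V12_lift_lt (a : Ordinal.{0}) : Ordinal.lift.{1} a < Lam := by
  unfold Lam
  rw [lt_ord, ← Ordinal.lift_card]
  exact lift_lt_univ' _

private theorem V12_reg (s : Set W2) (hs : #s < #W2) : ∃ b, ∀ w ∈ s, w < b := by
  choose f hf using V12_mem
  have h0 : Function.Injective f := by
    intro x y h
    apply Subtype.ext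
    rw [hf, hf, h]
  have h1 : Small.{0} (f '' s) := by
    rw [small_iff_lift_mk_lt_univ]
    rw [V12_mk_W] at hs
    have h2 : Cardinal.lift.{2} #(f '' s) ≤ Cardinal.lift.{1} #s := mk_image_le_lift
    rw [← Cardinal.lift_lt.{1, 2}, Cardinal.lift_lift, Cardinal.lift_univ]
    refine lt_of_le_of_lt h2 ?_
    rw [Cardinal.lift_id'.{1, 2}]
    exact hs
  obtain ⟨b, hb⟩ := Ordinal.bddAbove_of_small (s := f '' s)
  refine ⟨⟨Ordinal.lift.{1} (Order.succ b), V12_lift_lt _⟩, fun w hw => ?_⟩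
  rw [← Subtype.coe_lt_coe, hf, Ordinal.lift_lt]
  exact Order.lt_succ_of_le (hb ⟨w, hw, rfl⟩)

private theorem V12_kap_lt : kap2 < Lam := by
  unfold kap2 Lam
  rw [ord_lt_ord]
  refine IsStrongLimit.univ.isSuccLimit.succ_lt ?_
  have h1 : Cardinal.lift.{1} continuum.{0} < Cardinal.univ.{0, 1} := lift_lt_univ _
  rwa [lift_continuum] at h1

private theorem V12_omega_one_lt : (ω₁ : Ordinal.{1}) < kap2 := by
  unfold kap2
  rw [← ord_aleph, ord_lt_ord]
  exact lt_of_le_of_lt aleph_one_le_continuum (Order.lt_succ _)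

/-- `chi ξ := if (f ξ).1 ≤ ξ then (f ξ).1 else ⊥` for a bijection `f : W ≃ W × W`
(`univ.{0, 1}` is inaccessible) -/
theorem exists_chi2 : ∃ chi : W2 → W2, SetupW K2 ι2 W2 chi := by
  classical
  have hinf : ℵ₀ ≤ #W2 := by rw [V12_mk_W]; exact aleph0_lt_univ.le
  obtain ⟨f⟩ : Nonempty (W2 ≃ W2 × W2) := by
    rw [← Cardinal.eq, mk_prod, Cardinal.lift_id, mul_eq_self hinf]
  have hK : #K2 < #W2 := by
    rw [card_W2, Cardinal.mk_Iio_ordinal, Cardinal.lift_lt, ← lt_ord]
    exact V12_kap_lt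
  have hι : #ι2 < #W2 := lt_trans (SetupK.big m02) hK
  refine ⟨fun ξ => if (f ξ).1 ≤ ξ then (f ξ).1 else ⊥, ?_⟩
  refine { seg := V12_seg, reg := V12_reg, strong := ?_, K_lt := hK, chi_le := ?_, chi_fib := ?_ }
  · intro c hc
    rw [V12_mk_W] at hc ⊢
    exact IsStrongLimit.univ.isStrongPrelimit hc
  · intro ξ
    split_ifs with h
    · exact h
    · exact bot_le
  · intro χ b
    refine lt_of_lt_of_le hι ?_
    by_contra hlt
    rw [not_le] at hlt
    have h1 : #{ξ : W2 | (f ξ).1 = χ} = #W2 := by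
      refine mk_congr ⟨fun x => (f x.1).2, fun w => ⟨f.symm (χ, w), by simp⟩, ?_, ?_⟩
      · intro x
        apply Subtype.ext
        simp only
        rw [Equiv.symm_apply_eq]
        have := x.2
        exact Prod.ext this.symm rfl
      · intro w
        simp
    have h2 : {ξ : W2 | (f ξ).1 = χ} ⊆ Iio (max b χ) ∪
        {ξ : W2 | b ≤ ξ ∧ (if (f ξ).1 ≤ ξ then (f ξ).1 else ⊥) = χ} := by
      intro ξ hξ
      by_cases h : ξ < max b χ
      · left; exact h
      · right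
        rw [not_lt, max_le_iff] at h
        refine ⟨h.1, ?_⟩
        have h3 : (f ξ).1 = χ := hξ
        rw [h3, if_pos h.2]
    have h3 := (mk_le_mk_of_subset h2).trans (mk_union_le _ _)
    rw [h1] at h3
    exact absurd h3 (not_le.2 (add_lt_of_lt hinf (V12_seg _) hlt))

/-- the embeddings -/
theorem exists_embeddings2 : ∃ (eK : K2 → W2) (eI : I2 → W2) (eN : ULift.{2} ℕ → W2)
    (kW iW nW : W2), StrictMono eK ∧ StrictMono eI ∧ StrictMono eN ∧ range eK = Iio kW ∧
      range eI = Iio iW ∧ range eN = Iio nW ∧ nW < iW ∧ iW < kW := by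
  have hI : (ω₁ : Ordinal.{1}) < Lam := V12_omega_one_lt.trans V12_kap_lt
  have hN : (ω : Ordinal.{1}) < Lam := omega0_lt_omega_one.trans hI
  refine ⟨fun x => ⟨x.1, lt_trans x.2 V12_kap_lt⟩, fun x => ⟨x.1, lt_trans x.2 hI⟩,
    fun n => ⟨(n.down : Ordinal.{1}), lt_trans (natCast_lt_omega0 n.down) hN⟩,
    ⟨kap2, V12_kap_lt⟩, ⟨ω₁, hI⟩, ⟨ω, hN⟩, ?_, ?_, ?_, ?_, ?_, ?_, ?_, ?_⟩
  · intro a b h; exact h
  · intro a b h; exact h
  · intro a b h
    rw [← Subtype.coe_lt_coe]
    exact Nat.cast_lt.2 (ULift.down_lt.2 h)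
  · ext x
    constructor
    · rintro ⟨y, rfl⟩; exact y.2
    · intro h; exact ⟨⟨x.1, h⟩, rfl⟩
  · ext x
    constructor
    · rintro ⟨y, rfl⟩; exact y.2
    · intro h; exact ⟨⟨x.1, h⟩, rfl⟩
  · ext x
    constructor
    · rintro ⟨n, rfl⟩
      exact natCast_lt_omega0 n.down
    · intro h
      have h1 : x.1 < ω := h
      obtain ⟨n, hn⟩ := lt_omega0.1 h1
      exact ⟨⟨n⟩, Subtype.ext hn.symm⟩
  · rw [← Subtype.coe_lt_coe]
    exact omega0_lt_omega_one
  · rw [← Subtype.coe_lt_coe]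
    exact V12_omega_one_lt

end Pool.Agent.KTM
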