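import Pool.Agent.Lib_MP_bf47cd.V13
import Pool.Agent.Lib_MP_bf47cd.V06
import Pool.Agent.Lib_MP_bf47cd.V08
import Pool.Agent.Lib_MP_bf47cd.V09
import Pool.Agent.Lib_MP_bf47cd.V09l
import Pool.Agent.Lib_MP_bf47cd.V10
import Pool.Agent.Lib_MP_bf47cd.V12
import Pool.Agent.Lib_MP_bf47cd.D08

/-!
# H17-V14: the model of ZFC + GCH
-/

set_option linter.unusedSectionVars false
set_option linter.unusedVariables false

namespace Pool.Agent.KTM.V

open Pool.Agent.KTM Pool.Agent.Forcing Pool.Agent.Inner Set Cardinal Ordinal Pool.Agent.KT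

theorem model_GCH : ∃ (M : Type 3) (E : M → M → Prop), ModelsZFC E ∧ OmegaModel E ∧ GCH E ∧
    ∃ w0 w1 w2 w3 : M, IsOmega E w0 ∧ IsSuccCard E w0 w1 ∧ IsSuccCard E w1 w2 ∧
      IsSuccCard E w2 w3 ∧ (∃ t, IsKurepa E w1 w2 w3 t) ∧
      ∀ t, IsKurepa E w1 w2 w3 t → ∃ F, IsContOnto E w2 t F := by
  obtain ⟨chi, hchi⟩ := exists_chi2
  obtain ⟨eK, eI, eN, kW, iW, nW, h1, h2, h3, h4, h5, h6, h7, h8⟩ := exists_embeddings2
  have hne : Nonempty I2 := ⟨⟨0, Ordinal.omega_pos 1⟩⟩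
  have hK : SetupK K2 ι2 m02 := inferInstance
  have hI : #I2 ≤ #ι2 := by
    obtain ⟨k, hk⟩ : ∃ k, eK k = iW := by
      have h : iW ∈ range eK := by rw [h4]; exact h8
      exact h
    have hle : #I2 ≤ #(Iio k) := by
      have hmem : ∀ i : I2, ∃ j : Iio k, eK j.1 = eI i := by
        intro i
        have hi : eI i < iW := by
          have : eI i ∈ range eI := ⟨i, rfl⟩
          rw [h5] at this; exact this
        have hi2 : eI i ∈ range eK := by rw [h4]; exact hi.trans h8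
        obtain ⟨j, hj⟩ := hi2
        refine ⟨⟨j, ?_⟩, hj⟩
        rw [mem_Iio, ← h1.lt_iff_lt, hj, hk]; exact hi
      choose φ hφ using hmem
      refine mk_le_of_injective (f := φ) fun x y h => ?_
      apply h2.injective
      rw [← hφ x, ← hφ y, h]
    exact hle.trans (hK.seg k)
  have hQ : SetupQ (Coll I2 (Iio m02)) ι2 :=
    Coll.setupQ (le_of_eq hK.card_m0) hK.pow hK.inf hI
  have hne2 : Nonempty (Iio m02) := ⟨⟨⊥, mem_Iio.2 (bot_lt_m0 (K := K2) (m0 := m02) ι2)⟩⟩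
  obtain ⟨g, hg⟩ := Coll.exists_gQ (I := I2) (M := Iio m02)
  let _ := condTop K2 ι2 W2 m02 chi
  let _ : SuccOrder K2 := SuccOrder.ofLinearWellFoundedLT _
  have hP := exists_iface (ι := ι2) (chi := chi) hg h1 h2 h3 h4 h5 h6 h7 h8
  -- the size of `P`
  have hιW : #ι2 ≤ #W2 := (ι_lt_W K2 m02 chi).le
  have hinf : ℵ₀ ≤ #W2 := (aleph0_lt_W K2 ι2 m02 chi).le
  have hPc : #(Coll I2 (Iio m02) × Cond K2 ι2 W2 m02 chi) ≤ #W2 := by
    rw [mk_prod, Cardinal.lift_id, Cardinal.lift_id]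
    exact (mul_le_mul' (hQ.card.trans hιW) (card_cond_le K2 ι2 W2 m02 chi)).trans
      (le_of_eq (mul_eq_self hinf))
  have hPc' : #(Coll I2 (Iio m02) × Cond K2 ι2 W2 m02 chi) ≤
      Cardinal.lift.{2} Cardinal.univ.{0, 1} := by rw [← card_W2]; exact hPc
  obtain ⟨σ, κ, a, c, τ, hS, hκ0, hκ1, hκ2⟩ := exists_sysG Cardinal.univ.{0, 1}
    (by
      have h := hinf
      rw [card_W2] at h
      rwa [← Cardinal.lift_aleph0.{2, 1}, Cardinal.lift_le] at h)
    (Coll I2 (Iio m02) × Cond K2 ι2 W2 m02 chi) hPc'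
  have hdist : Dist (EE a c univ) #W2 := by
    have h := hS.toSys.dist
    rw [hκ0, ← card_W2] at h
    exact h
  have hT := Iface.prod hP hdist hPc
  let _ : OrderTop (EE a c univ) := EE.top hS.a_pos univ
  have hmono : StrictMono (Subtype.val : W2 → Ordinal.{1}) := fun _ _ h => h
  have hr : range (Subtype.val : W2 → Ordinal.{1}) = Iio Lam := Subtype.range_coe
  refine exists_modelGCH hT hmono hr (hS.toSys.smallPool hκ1 hκ2) ?_
  intro α hα
  by_cases hlt : α < Lam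
  · exact gchP_low hT hmono hr α hα hlt
  · exact hS.gchP_high (not_lt.1 hlt)

end Pool.Agent.KTM.V
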