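import Pool.Agent.Lib_MP_bf47cd.Voc
import Pool.Agent.Lib_Forcing.SetTheory

/-!
# MP_bf47cd_lc: infinite cardinals, GCH; universes in a model and the model cut at a universe
-/

namespace Pool.Agent.KTM

open Pool.Agent.Inner Pool.Agent.Forcing

universe w

variable {M : Type w} (E : M → M → Prop)

/-- `l` is an infinite cardinal -/
def IsInfCard (l : M) : Prop := IsCard E l ∧ ∃ w, IsOmega E w ∧ (w = l ∨ E w l)

/-- GCH: for every infinite cardinal `l` with cardinal successor `k` there is a function on `k`
that has every subset of `l` as a value (so `l` has at most `k` subsets) -/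
def GCH : Prop := ∀ l k, IsInfCard E l → IsSuccCard E l k → ∃ s, OntoPow E s k l

/-- `U` is a universe of `(M, E)`: a transitive set closed under pairing, union, power sets and
ranges of functions, with `ω ∈ U` -/
structure IsUniv (U : M) : Prop where
  trans : ∀ x, E x U → ∀ y, E y x → E y U
  omega : ∃ w, E w U ∧ IsOmega E w
  pair : ∀ x y, E x U → E y U → ∃ z, E z U ∧ E x z ∧ E y z
  union : ∀ x, E x U → ∃ u, E u U ∧ ∀ y z, E y x → E z y → E z u
  power : ∀ x, E x U → ∃ p, E p U ∧ ∀ y, Sub E y x → E y p
  repl : ∀ x f, E x U → IsFun E f x U → ∃ r, E r U ∧ ∀ a b, Val E f a b → E b r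

/-- the relation of the model cut at `U` -/
def cut (U : M) (x y : {x // E x U}) : Prop := E x.1 y.1

end Pool.Agent.KTM
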